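import Pool.Agent.P.MP_2cb329_al.CLO

/-! The base of the hierarchy: the tree of a relator with distinct letters. -/

set_option autoImplicit false

namespace CPOR

/-- A proper cocompact action of a marked group on a tree with trivial edge stabilisers, whose
edges are labelled by the letters in `S`. -/
structure PT {X : Type} [DecidableEq X] {G : Type} [Group G] (π : FreeGroup X →* G)
    (S : Set X) where
  V : Type
  [act : MulAction G V]
  T : SimpleGraph V
  o : V
  c : G
  acyc : T.IsAcyclic
  reach : ∀ v w, T.Reachable v w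
  acts : ZT.Acts T G
  noinv : ZT.NoInv T G
  trans : ∀ v, ∃ g : G, g • o = v
  stab : MulAction.stabilizer G o = Subgroup.zpowers c
  fin : IsOfFinOrder c
  free : ∀ (g : G) v w, T.Adj v w → g • v = v → g • w = w → g = 1
  adj : ∀ v w, T.Adj v w ↔ ∃ g : G, ∃ x ∈ S, (v = g • o ∧ w = (g * π (FreeGroup.of x)) • o) ∨
    (w = g • o ∧ v = (g * π (FreeGroup.of x)) • o)

attribute [instance] PT.act

theorem sink_base {X : Type} [DecidableEq X] {G : Type} [Group G] (π : FreeGroup X →* G)
    {u : List (X × Bool)} (h : Function.Injective (ltr u)) : Sink π u := by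
  intro S hS
  obtain ⟨g, hg⟩ := hS
  refine ⟨g, hg, fun i₀ => ⟨i₀, rfl, fun g' _ j hj he => ?_⟩⟩
  obtain rfl := h hj
  exact ⟨mul_right_cancel he, rfl⟩

theorem stack_base {X : Type} {u : List (X × Bool)} (h : Function.Injective (ltr u)) :
    Stack u := by
  refine ⟨fun v => v, fun v _ w _ e => e, fun i j hij => ?_⟩
  obtain rfl := h hij
  simp

section Cost

variable {X : Type} [DecidableEq X] {r : FreeGroup X}

theorem ba_cost_mono {n m : ℕ} {f : FreeGroup X} (h : Cost r n f) (hnm : n ≤ m) :
    Cost r m f := by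
  obtain ⟨l, h1, h2, h3⟩ := h
  exact ⟨l, h1.trans hnm, fun p hp => (h2 p hp).trans hnm, h3⟩

theorem ba_cost_one (n : ℕ) : Cost r n 1 := ⟨[], by simp, by simp, by simp⟩

theorem ba_cost_mul {n m : ℕ} {f g : FreeGroup X} (h : Cost r n f) (h' : Cost r m g) :
    Cost r (n + m) (f * g) := by
  obtain ⟨l, h1, h2, rfl⟩ := h
  obtain ⟨l', h1', h2', rfl⟩ := h'
  refine ⟨l ++ l', by rw [List.length_append]; omega, fun p hp => ?_, by simp⟩
  rcases List.mem_append.1 hp with hp | hp
  · exact (h2 p hp).trans (Nat.le_add_right _ _)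
  · exact (h2' p hp).trans (Nat.le_add_left _ _)

/-- Multiplication with separate bounds for the number of factors and the norms. -/
theorem ba_cost_conj {n : ℕ} {f : FreeGroup X} (h : Cost r n f) (g : FreeGroup X) :
    Cost r (g.norm + n) (g * f * g⁻¹) := by
  obtain ⟨l, h1, h2, rfl⟩ := h
  refine ⟨l.map fun p => (g * p.1, p.2), by rw [List.length_map]; omega, fun p hp => ?_, ?_⟩
  · obtain ⟨q, hq, rfl⟩ := List.mem_map.1 hp
    exact (FreeGroup.norm_mul_le _ _).trans (Nat.add_le_add_left (h2 q hq) _)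
  · clear h1 h2
    induction l with
    | nil => simp
    | cons a l ih =>
      simp only [List.map_cons, List.prod_cons] at ih ⊢
      rw [← ih]
      group

theorem ba_cost_inv {n : ℕ} {f : FreeGroup X} (h : Cost r n f) : Cost r n f⁻¹ := by
  obtain ⟨l, h1, h2, rfl⟩ := h
  refine ⟨(l.map fun p => (p.1, !p.2)).reverse, by simpa using h1, fun p hp => ?_, ?_⟩
  · obtain ⟨q, hq, rfl⟩ := List.mem_map.1 (List.mem_reverse.1 hp)
    exact h2 q hq
  · clear h1 h2
    induction l with
    | nil => simp
    | cons a l ih =>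
      simp only [List.map_cons, List.prod_cons, List.reverse_cons, List.map_append,
        List.prod_append, List.map_nil, List.prod_nil, mul_one] at ih ⊢
      rw [← ih]
      rcases a with ⟨a, b⟩
      cases b <;> simp <;> group

theorem ba_cost_exists {f : FreeGroup X} (hf : f ∈ Subgroup.normalClosure {r}) :
    ∃ n, Cost r n f := by
  induction hf using Subgroup.closure_induction with
  | mem x hx =>
    obtain ⟨y, hy, hc⟩ := Group.mem_conjugatesOfSet_iff.1 hx
    obtain rfl := Set.mem_singleton_iff.1 hy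
    obtain ⟨c, rfl⟩ := isConj_iff.1 hc
    exact ⟨c.norm + 1, [(c, true)], by simp, by simp, by simp⟩
  | one => exact ⟨0, ba_cost_one 0⟩
  | mul x y _ _ hx hy =>
    obtain ⟨n, hn⟩ := hx
    obtain ⟨m, hm⟩ := hy
    exact ⟨_, ba_cost_mul hn hm⟩
  | inv x _ hx =>
    obtain ⟨n, hn⟩ := hx
    exact ⟨_, ba_cost_inv hn⟩

end Cost

section Model

variable (Y A : Type) [Group A]

/-- The shift action on the free group over `Y × A`. -/
def baAct : A →* MulAut (FreeGroup (Y × A)) where
  toFun α := FreeGroup.freeGroupCongr ((Equiv.refl Y).prodCongr (Equiv.mulLeft α))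
  map_one' := by
    apply MulEquiv.toMonoidHom_injective
    apply FreeGroup.ext_hom
    rintro ⟨y, β⟩
    simp [FreeGroup.freeGroupCongr]
  map_mul' α β := by
    apply MulEquiv.toMonoidHom_injective
    apply FreeGroup.ext_hom
    rintro ⟨y, γ⟩
    simp [FreeGroup.freeGroupCongr, mul_assoc]

/-- The model group. -/
abbrev BaK := FreeGroup (Y × A) ⋊[baAct Y A] A

variable {Y A}

theorem baAct_mk (α : A) (z : Y × A) (b : Bool) :
    baAct Y A α (FreeGroup.mk [(z, b)]) = FreeGroup.mk [((z.1, α * z.2), b)] := rfl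

theorem baAct_of (α : A) (z : Y × A) :
    baAct Y A α (FreeGroup.of z) = FreeGroup.of (z.1, α * z.2) := rfl

/-- The action of a group that maps to the model group on the free group. -/
@[reducible] def baMA {G : Type} [Group G] (θ : G →* BaK Y A) : MulAction G (FreeGroup (Y × A)) where
  smul g v := (θ g).left * baAct Y A (θ g).right v
  one_smul v := by
    change (θ 1).left * baAct Y A (θ 1).right v = v
    simp
  mul_smul g h v := by
    change (θ (g * h)).left * baAct Y A (θ (g * h)).right v =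
      (θ g).left * baAct Y A (θ g).right ((θ h).left * baAct Y A (θ h).right v)
    simp [mul_assoc]

end Model

namespace Lv

variable (L : Lv) (hb : Function.Injective (ltr L.u))
include hb

omit hb in
theorem ba_pow : L.π (FreeGroup.mk L.u) ^ L.k = 1 := by
  rw [← map_pow, ← MonoidHom.mem_ker, L.ker]
  exact Subgroup.subset_normalClosure (Set.mem_singleton _)

omit hb in
theorem ba_fin : IsOfFinOrder (L.π (FreeGroup.mk L.u)) :=
  isOfFinOrder_iff_pow_eq_one.2 ⟨L.k, L.kpos, L.ba_pow⟩

theorem ba_split {a : L.X} (ha : L.Occ a) : ∃ (p q : FreeGroup L.X) (e : Bool),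
    p ∈ FS ({a}ᶜ : Set L.X) ∧ q ∈ FS ({a}ᶜ : Set L.X) ∧
      FreeGroup.mk L.u = p * FreeGroup.mk [(a, e)] * q := by
  obtain ⟨i, rfl⟩ := ha
  refine ⟨FreeGroup.mk (L.u.take i), FreeGroup.mk (L.u.drop (i + 1)), (L.u.get i).2,
    mk_mem_FS fun x hx => ?_, mk_mem_FS fun x hx => ?_, ?_⟩
  · obtain ⟨j, hj, rfl⟩ := List.mem_take_iff_getElem.1 hx
    intro he
    have hj' : j < L.u.length := by omega
    have := hb (a₁ := ⟨j, hj'⟩) (a₂ := i) he
    have := congrArg Fin.val this
    simp only at this
    omega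
  · obtain ⟨j, hj, rfl⟩ := List.mem_drop_iff_getElem.1 hx
    intro he
    have hj' : i + 1 + j < L.u.length := by omega
    have := hb (a₁ := ⟨i + 1 + j, hj'⟩) (a₂ := i) he
    have := congrArg Fin.val this
    simp only at this
    omega
  · rw [FreeGroup.mul_mk, FreeGroup.mul_mk]
    congr 1
    have : [(ltr L.u i, (L.u.get i).2)] = [L.u[i.1]] := rfl
    rw [this, List.append_assoc, List.singleton_append, ← List.drop_eq_getElem_cons i.2,
      List.take_append_drop]

/-- The group is isomorphic to the model group. -/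
theorem ba_model {a : L.X} (ha : L.Occ a) :
    ∃ (θ : L.G →* BaK ({a}ᶜ : Set L.X) (Subgroup.zpowers (L.π (FreeGroup.mk L.u))))
      (η : BaK ({a}ᶜ : Set L.X) (Subgroup.zpowers (L.π (FreeGroup.mk L.u))) →* L.G),
      (∀ g, η (θ g) = g) ∧ (∀ w, θ (η w) = w) ∧
      (∀ α, η (SemidirectProduct.inr α) = α.1) ∧
      (∀ y α, η (SemidirectProduct.inl (FreeGroup.of (y, α))) =
        α.1 * L.π (FreeGroup.of y.1) * α.1⁻¹) := by
  classical
  obtain ⟨p, q, e, hp, hq, hu⟩ := L.ba_split hb ha
  set c := L.π (FreeGroup.mk L.u) with hc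
  let A := Subgroup.zpowers c
  let Y := ({a}ᶜ : Set L.X)
  let c' : A := ⟨c, Subgroup.mem_zpowers c⟩
  let gen : BaK Y A → L.X → BaK Y A := fun τ x =>
    if h : x ∈ Y then SemidirectProduct.inl (FreeGroup.of (⟨x, h⟩, 1)) else τ
  have hgen : ∀ τ τ', ∀ f ∈ FS Y, FreeGroup.lift (gen τ) f = FreeGroup.lift (gen τ') f := by
    intro τ τ' f hf
    refine MonoidHom.eqOn_closure ?_ hf
    rintro _ ⟨x, hx, rfl⟩
    simp only [FreeGroup.lift_apply_of, gen, dif_pos hx]
  let τ : BaK Y A := (FreeGroup.lift (gen 1) p)⁻¹ * SemidirectProduct.inr c' *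
    (FreeGroup.lift (gen 1) q)⁻¹
  let θ₁ : FreeGroup L.X →* BaK Y A := FreeGroup.lift (gen (if e then τ else τ⁻¹))
  have haY : a ∉ Y := by simp [Y]
  have hθa : θ₁ (FreeGroup.mk [(a, e)]) = τ := by
    cases e
    · rw [ch_mk_single_false, map_inv]
      simp only [θ₁, FreeGroup.lift_apply_of, gen, dif_neg haY]
      simp
    · rw [ch_mk_single_true]
      simp only [θ₁, FreeGroup.lift_apply_of, gen, dif_neg haY]
      simp
  have hθu : θ₁ (FreeGroup.mk L.u) = SemidirectProduct.inr c' := by
    rw [hu, map_mul, map_mul, hθa, hgen _ 1 p hp, hgen _ 1 q hq]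
    simp only [τ]
    group
  have hker : L.π.ker ≤ θ₁.ker := by
    rw [L.ker]
    apply Subgroup.normalClosure_le_normal
    rintro _ rfl
    rw [SetLike.mem_coe, MonoidHom.mem_ker, map_pow, hθu, ← map_pow]
    have : c' ^ L.k = 1 := Subtype.ext L.ba_pow
    rw [this, map_one]
  let θ : L.G →* BaK Y A := L.π.liftOfSurjective L.surj ⟨θ₁, hker⟩
  have hθ : ∀ f, θ (L.π f) = θ₁ f := fun f => MonoidHom.liftOfRightInverse_comp_apply _ _ _ _ f
  let ψ : FreeGroup (Y × A) →* L.G :=
    FreeGroup.lift fun z => z.2.1 * L.π (FreeGroup.of z.1.1) * z.2.1⁻¹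
  let η : BaK Y A →* L.G := SemidirectProduct.lift ψ A.subtype (by
    intro α
    apply FreeGroup.ext_hom
    rintro ⟨y, β⟩
    simp only [MonoidHom.comp_apply, MulEquiv.coe_toMonoidHom, baAct_of, ψ,
      FreeGroup.lift_apply_of, MulAut.conj_apply, Subgroup.coe_mul, Subgroup.coe_subtype]
    group)
  have hη1 : ∀ α : A, η (SemidirectProduct.inr α) = α.1 := fun α => by simp [η]
  have hη2 : ∀ (y : Y) (α : A), η (SemidirectProduct.inl (FreeGroup.of (y, α))) =
      α.1 * L.π (FreeGroup.of y.1) * α.1⁻¹ := fun y α => by simp [η, ψ]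
  have hη3 : ∀ τ', ∀ f ∈ FS Y, η (FreeGroup.lift (gen τ') f) = L.π f := by
    intro τ' f hf
    refine MonoidHom.eqOn_closure (f := η.comp (FreeGroup.lift (gen τ'))) (g := L.π) ?_ hf
    rintro _ ⟨x, hx, rfl⟩
    simp only [MonoidHom.comp_apply, FreeGroup.lift_apply_of, gen, dif_pos hx, hη2]
    simp
  have hητ : η τ = L.π (FreeGroup.mk [(a, e)]) := by
    simp only [τ, map_mul, map_inv, hη3 1 p hp, hη3 1 q hq, hη1, c']
    rw [hc, hu, map_mul, map_mul]
    group
  have hηθ : ∀ f, η (θ₁ f) = L.π f := by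
    intro f
    have : η.comp θ₁ = L.π := by
      apply FreeGroup.ext_hom
      intro x
      by_cases hx : x ∈ Y
      · exact hη3 _ _ (Subgroup.subset_closure ⟨x, hx, rfl⟩)
      · obtain rfl : x = a := by simpa [Y] using hx
        rw [← hθa] at hητ
        cases e
        · rw [ch_mk_single_false, map_inv, map_inv, map_inv] at hητ
          exact inv_injective hητ
        · exact hητ
    exact DFunLike.congr_fun this f
  have hθA : ∀ α : A, θ α.1 = SemidirectProduct.inr α := by
    rintro ⟨_, j, rfl⟩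
    have : (⟨c ^ j, j, rfl⟩ : A) = c' ^ j := rfl
    rw [this, map_zpow, ← hθu, ← hθ]
    exact map_zpow θ c j
  refine ⟨θ, η, fun g => ?_, fun w => ?_, hη1, hη2⟩
  · obtain ⟨f, rfl⟩ := L.surj g
    rw [hθ, hηθ]
  · have : θ.comp η = MonoidHom.id _ := by
      apply SemidirectProduct.hom_ext
      · apply FreeGroup.ext_hom
        rintro ⟨y, α⟩
        simp only [MonoidHom.comp_apply, hη2, map_mul, map_inv, hθA, hθ, θ₁,
          FreeGroup.lift_apply_of, gen, dif_pos y.2, MonoidHom.id_apply]
        rw [← map_inv, ← SemidirectProduct.inl_aut, baAct_of, mul_one]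
      · ext1 α
        simp only [MonoidHom.comp_apply, hη1, hθA, MonoidHom.id_apply]
    exact DFunLike.congr_fun this w

theorem exists_PT {a : L.X} (ha : L.Occ a) : Nonempty (PT L.π ({a}ᶜ : Set L.X)) := by
  classical
  obtain ⟨θ, η, h1, h2, h3, h4⟩ := L.ba_model hb ha
  let c := L.π (FreeGroup.mk L.u)
  let A := Subgroup.zpowers c
  let Y := ({a}ᶜ : Set L.X)
  let _ := baMA θ
  have hs : ∀ (g : L.G) (v : FreeGroup (Y × A)), g • v = (θ g).left * baAct Y A (θ g).right v :=
    fun _ _ => rfl
  have hd : ∀ (g : L.G) (v w : FreeGroup (Y × A)),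
      (g • v)⁻¹ * (g • w) = baAct Y A (θ g).right (v⁻¹ * w) := by
    intro g v w
    rw [hs, hs, map_mul, map_inv]
    group
  have hx : ∀ y : Y, θ (L.π (FreeGroup.of y.1)) = SemidirectProduct.inl (FreeGroup.of (y, 1)) := by
    intro y
    rw [← h2 (SemidirectProduct.inl (FreeGroup.of (y, 1))), h4]
    simp
  have hA : ∀ α : A, θ α.1 = SemidirectProduct.inr α := fun α => by rw [← h3, h2]
  have hstep : ∀ (g : L.G) (y : Y), (g * L.π (FreeGroup.of y.1)) • (1 : FreeGroup (Y × A)) =
      (g • 1) * FreeGroup.of (y, (θ g).right) := by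
    intro g y
    rw [hs, hs, map_mul, hx]
    simp [baAct_of]
  have hinj : ∀ (z z' : Y × A) (b b' : Bool),
      FreeGroup.mk [(z, b)] = FreeGroup.mk [(z', b')] → z = z' ∧ b = b' := by
    intro z z' b b' h
    have := congrArg FreeGroup.toWord h
    rw [toWord_mk_of_reduced FreeGroup.IsReduced.singleton,
      toWord_mk_of_reduced FreeGroup.IsReduced.singleton] at this
    simpa using this
  refine ⟨{ V := FreeGroup (Y × A), T := cay (Y × A), o := 1, c := c, acyc := cay_acyclic
            reach := cay_reach, acts := ?_, noinv := ?_, trans := ?_, stab := ?_, fin := L.ba_fin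
            free := ?_, adj := ?_ }⟩
  · intro g v w h
    obtain ⟨⟨z, b⟩, hz⟩ := cay_adj_iff.1 h
    exact cay_adj_iff.2 ⟨_, by rw [hd, hz, baAct_mk]⟩
  · intro g v w h e1 e2
    obtain ⟨⟨z, b⟩, hz⟩ := cay_adj_iff.1 h
    have := hd g v w
    rw [e1, e2, hz, baAct_mk] at this
    have e3 : w⁻¹ * v = (v⁻¹ * w)⁻¹ := by group
    rw [e3, hz, FreeGroup.inv_mk] at this
    have := (hinj _ _ _ _ this).2
    simp at this
  · intro v
    exact ⟨η (SemidirectProduct.inl v), by rw [hs, h2]; simp⟩
  · ext g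
    rw [MulAction.mem_stabilizer_iff, hs, map_one, mul_one]
    constructor
    · intro h
      have : g = ((θ g).right : L.G) := by
        rw [← h3]
        conv_lhs => rw [← h1 g, ← SemidirectProduct.inl_left_mul_inr_right (θ g), h]
        simp
      rw [this]
      exact (θ g).right.2
    · intro h
      rw [hA ⟨g, h⟩]
      simp
  · intro g v w h e1 e2
    obtain ⟨⟨z, b⟩, hz⟩ := cay_adj_iff.1 h
    have := hd g v w
    rw [e1, e2, hz, baAct_mk] at this
    have e3 : (θ g).right = 1 := by
      have := congrArg Prod.snd (hinj _ _ _ _ this).1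
      simpa using this
    rw [hs, e3] at e1
    have e4 : (θ g).left = 1 := by simpa using e1
    have e5 : θ g = 1 := SemidirectProduct.ext e4 e3
    rw [← h1 g, e5, map_one]
  · intro v w
    have key : ∀ (v : FreeGroup (Y × A)) (z : Y × A), ∃ g : L.G, v = g • (1 : FreeGroup (Y × A)) ∧
        v * FreeGroup.of z = (g * L.π (FreeGroup.of z.1.1)) • (1 : FreeGroup (Y × A)) := by
      intro v z
      refine ⟨η ⟨v, z.2⟩, ?_, ?_⟩
      · rw [hs, h2]; simp
      · rw [hstep, hs, h2]; simp
    constructor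
    · intro h
      obtain ⟨⟨z, b⟩, hz⟩ := cay_adj_iff.1 h
      cases b
      · obtain ⟨g, e1, e2⟩ := key w z
        refine ⟨g, z.1.1, z.1.2, Or.inr ⟨e1, ?_⟩⟩
        rw [← e2]
        rw [mk_false, inv_mul_eq_iff_eq_mul] at hz
        rw [hz]
        group
      · obtain ⟨g, e1, e2⟩ := key v z
        refine ⟨g, z.1.1, z.1.2, Or.inl ⟨e1, ?_⟩⟩
        rw [← e2]
        rw [inv_mul_eq_iff_eq_mul] at hz
        exact hz
    · have key2 : ∀ (g : L.G) (y : Y), (cay (Y × A)).Adj (g • 1)
          ((g * L.π (FreeGroup.of y.1)) • (1 : FreeGroup (Y × A))) := by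
        intro g y
        refine cay_adj_iff.2 ⟨((y, (θ g).right), true), ?_⟩
        rw [hstep, inv_mul_cancel_left]
        rfl
      rintro ⟨g, x, hx', ⟨rfl, rfl⟩ | ⟨rfl, rfl⟩⟩
      · exact key2 g ⟨x, hx'⟩
      · exact (key2 g ⟨x, hx'⟩).symm

theorem fill_base : Fill L.π (FreeGroup.mk L.u ^ L.k) := by
  classical
  have h0 : 0 < L.u.length := List.length_pos_iff.2 L.ne
  obtain ⟨θ, η, h1, h2, h3, h4⟩ := L.ba_model hb (a := ltr L.u ⟨0, h0⟩) ⟨_, rfl⟩
  let a := ltr L.u ⟨0, h0⟩
  let c := L.π (FreeGroup.mk L.u)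
  let A := Subgroup.zpowers c
  let Y := ({a}ᶜ : Set L.X)
  have : Finite A := L.ba_fin.finite_zpowers
  let s : A → FreeGroup L.X := fun α => if α = 1 then 1 else Function.surjInv L.surj α.1
  have hs : ∀ α, L.π (s α) = α.1 := by
    intro α
    by_cases h : α = 1
    · simp [s, h]
    · simp only [s, if_neg h]
      exact Function.surjInv_eq _ _
  let ψ : FreeGroup (Y × A) →* FreeGroup L.X :=
    FreeGroup.lift fun z => s z.2 * FreeGroup.of z.1.1 * (s z.2)⁻¹
  have hψ : ∀ w, L.π (ψ w) = η (SemidirectProduct.inl w) := by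
    intro w
    have : L.π.comp ψ = η.comp SemidirectProduct.inl := by
      apply FreeGroup.ext_hom
      rintro ⟨y, α⟩
      simp only [MonoidHom.comp_apply, ψ, FreeGroup.lift_apply_of, map_mul, map_inv, hs, h4]
    exact DFunLike.congr_fun this w
  let t : L.X × Bool → BaK Y A := fun y => θ (L.π (FreeGroup.mk [y]))
  let E : A × (L.X × Bool) → FreeGroup L.X := fun z => ψ (baAct Y A z.1 (t z.2).left)
  let D : A × (L.X × Bool) → FreeGroup L.X := fun z =>
    s z.1 * FreeGroup.mk [z.2] * (E z * s (z.1 * (t z.2).right))⁻¹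
  have hD : ∀ z, ∃ n, Cost (FreeGroup.mk L.u ^ L.k) n (D z) := by
    intro z
    apply ba_cost_exists
    rw [← L.ker, MonoidHom.mem_ker]
    have e0 : η (SemidirectProduct.inl (baAct Y A z.1 (t z.2).left)) =
        z.1.1 * η (SemidirectProduct.inl (t z.2).left) * z.1.1⁻¹ := by
      have := congrArg η (SemidirectProduct.inl_aut (φ := baAct Y A) z.1 (t z.2).left)
      rw [map_mul, map_mul, h3, h3] at this
      exact this
    simp only [D, E, map_mul, map_inv, hs, hψ, e0, Subgroup.coe_mul]
    have e := h1 (L.π (FreeGroup.mk [z.2]))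
    rw [← SemidirectProduct.inl_left_mul_inr_right (θ _), map_mul, h3] at e
    rw [← e]
    simp only [t]
    group
  choose n hn using hD
  obtain ⟨C, hC⟩ := (Set.finite_range fun z => n z + (E z).norm).bddAbove
  have hC' : ∀ z, n z + (E z).norm ≤ C := fun z => hC ⟨z, rfl⟩
  have key : ∀ l : List (L.X × Bool),
      (ψ (θ (L.π (FreeGroup.mk l))).left).norm ≤ C * l.length ∧
      Cost (FreeGroup.mk L.u ^ L.k) (C * l.length * l.length) (FreeGroup.mk l *
        (ψ (θ (L.π (FreeGroup.mk l))).left * s (θ (L.π (FreeGroup.mk l))).right)⁻¹) := by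
    intro l
    induction l using List.reverseRecOn with
    | nil =>
      have : (FreeGroup.mk [] : FreeGroup L.X) = 1 := rfl
      simp only [this, map_one, SemidirectProduct.one_left, SemidirectProduct.one_right, s,
        if_true, FreeGroup.norm_one, mul_one, inv_one]
      exact ⟨Nat.zero_le _, ba_cost_one _⟩
    | append_singleton l y ih =>
      obtain ⟨i1, i2⟩ := ih
      rw [← FreeGroup.mul_mk, map_mul, map_mul, List.length_append, List.length_singleton]
      set w := θ (L.π (FreeGroup.mk l))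
      have e1 : ψ (w * t y).left = ψ w.left * E (w.right, y) := by
        simp only [SemidirectProduct.mul_left, map_mul, E]
        rfl
      have c1 := hC' (w.right, y)
      change (ψ (w * t y).left).norm ≤ _ ∧ Cost _ _ (_ * (ψ (w * t y).left * s (w * t y).right)⁻¹)
      rw [e1, SemidirectProduct.mul_right]
      constructor
      · have := FreeGroup.norm_mul_le (ψ w.left) (E (w.right, y))
        rw [Nat.mul_add]
        omega
      · have c2 := ba_cost_mul i2 (ba_cost_conj (hn (w.right, y)) (ψ w.left))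
        have e2 : FreeGroup.mk l * (ψ w.left * s w.right)⁻¹ *
            (ψ w.left * D (w.right, y) * (ψ w.left)⁻¹) = FreeGroup.mk l * FreeGroup.mk [y] *
            (ψ w.left * E (w.right, y) * s (w.right * (t y).right))⁻¹ := by
          simp only [D]
          group
        rw [e2] at c2
        refine ba_cost_mono c2 ?_
        nlinarith
  refine ⟨fun m => C * m * m, ((Bd.const C).mul Bd.id).mul Bd.id, fun f hf => ?_⟩
  have := (key f.toWord).2
  rw [FreeGroup.mk_toWord, hf] at this
  simp only [map_one, SemidirectProduct.one_left, SemidirectProduct.one_right, s, if_true,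
    mul_one, inv_one] at this
  exact this

end Lv

end CPOR
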