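import Pool.Agent.P.MP_2cb329_al.BB1

/-! The claims for groups that act properly on a tree. -/

set_option autoImplicit false

namespace CPOR
namespace PT

section aux

variable {X : Type} [DecidableEq X] {G : Type} [Group G] {π : FreeGroup X →* G}
  {S₀ : Set X} (P : PT π S₀)

theorem bb_tri (x y z : P.V) : P.T.dist x z ≤ P.T.dist x y + P.T.dist y z :=
  ZT.dist_tri (P.reach _ _) (P.reach _ _)

theorem bb_comm (x y : P.V) : P.T.dist x y = P.T.dist y x := SimpleGraph.dist_comm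

theorem bb_dist (g h : G) :
    P.T.dist P.o ((g⁻¹ * h) • P.o) = P.T.dist (g • P.o) (h • P.o) := by
  rw [← P.acts.dist g, smul_smul, mul_inv_cancel_left]

theorem bb_fin {q : G} {p : P.V} (h : q • p = p) : IsOfFinOrder q := by
  obtain ⟨g, rfl⟩ := P.trans p
  have h1 : g⁻¹ * q * g ∈ MulAction.stabilizer G P.o := by
    rw [MulAction.mem_stabilizer_iff, mul_smul, mul_smul, h, inv_smul_smul]
  rw [P.stab] at h1
  obtain ⟨i, hi⟩ := h1
  have hi' : P.c ^ i = g⁻¹ * q * g := hi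
  have h2 : IsOfFinOrder (g⁻¹ * q * g) := hi' ▸ P.fin.zpow
  have h3 := (MulAut.conj g).toMonoidHom.isOfFinOrder h2
  simpa [mul_assoc] using h3

theorem bb_axis {q : G} (h : ¬ IsOfFinOrder q) (x : P.V) : ∃ (a : ℤ → P.V) (l : ℕ),
    ZT.IsAxis P.T q a l ∧ ∀ i : ℤ, 0 ≤ i → i ≤ l → ZT.Btw P.T x (a i) (q • x) := by
  rcases ZT.ell_or_hyp P.acyc P.acts P.noinv q (P.reach x (q • x)) with ⟨p, -, hp⟩ | h1
  · exact absurd (P.bb_fin hp) h
  · exact h1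

theorem bb_fix_two {q : G} {v w : P.V} (hv : q • v = v) (hw : q • w = w) (hne : v ≠ w) :
    q = 1 := by
  have hpos : 1 ≤ P.T.dist v w :=
    Nat.pos_of_ne_zero fun h0 => hne (ZT.eq_of_dist_zero (P.reach _ _) h0)
  obtain ⟨y, hy, hd⟩ := ZT.exists_btw_dist (P.reach v w) hpos
  exact P.free q v y (ZT.adj_of_dist_one hd) hv (ZT.fix_btw P.acyc P.acts hv hw hy)

theorem bb_axis_zpow {c : G} {a : ℤ → P.V} {l : ℕ} (h : ZT.IsAxis P.T c a l) {n : ℤ}
    (hn : n ≠ 0) : ∃ (a' : ℤ → P.V) (l' : ℕ), ZT.IsAxis P.T (c ^ n) a' l' ∧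
      Set.range a' = Set.range a := by
  have h1 : 1 ≤ n.natAbs := Int.natAbs_pos.2 hn
  rcases PCP.zpow_cases c n with h2 | h2
  · exact ⟨a, _, h2 ▸ h.pow h1, rfl⟩
  · refine ⟨fun i => a (0 - i), _, h2 ▸ (h.inv 0).pow h1, ?_⟩
    ext v
    constructor
    · rintro ⟨i, rfl⟩; exact ⟨_, rfl⟩
    · rintro ⟨i, rfl⟩; exact ⟨-i, by simp⟩

theorem bb_split {l : ℕ} (hl : 1 ≤ l) (i : ℤ) : ∃ j n : ℤ, 0 ≤ j ∧ j ≤ l ∧ i = j + n * l :=
  ⟨i % l, i / l, Int.emod_nonneg _ (by omega), (Int.emod_lt_of_pos _ (by omega)).le,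
    (Int.emod_add_ediv_mul i l).symm⟩

end aux

variable {X : Type} [Fintype X] [DecidableEq X] {G : Type} [Group G] {π : FreeGroup X →* G}
  {S₀ : Set X} (P : PT π S₀) (hπ : Function.Surjective π)
include P hπ

/-- The axis of an element that is conjugate into `MS π S` is near the orbit of the coset. -/
theorem bb_near (S : Set X) : ∃ δ, ∀ (q x : G) (a : ℤ → P.V) (l : ℕ), x⁻¹ * q * x ∈ MS π S →
    ZT.IsAxis P.T q a l → ∀ i, ∃ m ∈ MS π S, P.T.dist (a i) ((x * m) • P.o) ≤ δ := by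
  obtain ⟨δ, hδ⟩ := P.hull hπ S
  refine ⟨δ, fun q x a l hq ha i => ?_⟩
  rcases ZT.ell_or_hyp P.acyc P.acts P.noinv q (P.reach (x • P.o) (q • x • P.o)) with
    ⟨p, -, hp⟩ | ⟨b, l', hb, hbt⟩
  · exact absurd hp (ha.not_fix P.acyc P.acts (P.reach _ _))
  obtain ⟨-, c, hc⟩ := ha.unique P.acyc P.acts hb (P.reach _ _)
  obtain ⟨j, n, h0, h1, h2⟩ := bb_split hb.2.1 (i - c)
  have h3 : a i = q ^ n • b j := by
    rw [hb.zpow_smul, ← h2, hc, sub_add_cancel]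
  obtain ⟨f, hf, he⟩ := mem_MS.1 hq
  have h4 := P.acts.btw x⁻¹ (hbt j h0 h1)
  rw [inv_smul_smul, smul_smul, smul_smul, ← he] at h4
  obtain ⟨g, hg, hd⟩ := hδ f hf _ h4
  have hgS : g ∈ FS S := by simpa using hg.mem_FS (by simpa using hf)
  refine ⟨(x⁻¹ * q * x) ^ n * π g,
    Subgroup.mul_mem _ (Subgroup.zpow_mem _ hq n) (mem_MS.2 ⟨g, hgS, rfl⟩), ?_⟩
  have h5 : x * ((x⁻¹ * q * x) ^ n * π g) = q ^ n * x * π g := by
    have : (x⁻¹ * q * x) ^ n = x⁻¹ * q ^ n * x := by simpa using conj_zpow (a := x⁻¹) (b := q) (i := n)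
    rw [this]; group
  rw [h5, h3, ← P.acts.dist (q ^ n * x)⁻¹, smul_smul, smul_smul]
  have e1 : (q ^ n * x)⁻¹ * q ^ n = x⁻¹ := by group
  have e2 : (q ^ n * x)⁻¹ * (q ^ n * x * π g) = π g := by group
  rw [e1, e2]
  exact hd

theorem sfin {S S' : Set X} (hS : Free π S) : Sfin π S S' := by
  classical
  obtain ⟨C, hC⟩ := P.qi hπ
  obtain ⟨δ, hδ⟩ := P.bb_near hπ S
  obtain ⟨δ', hδ'⟩ := P.bb_near hπ S'
  obtain ⟨B, hB, -⟩ := len_ball hπ (C * (δ + δ' + 1))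
  refine ⟨{1}, B, fun c hc => ?_, fun x => ?_⟩
  · rw [Finset.mem_singleton.1 hc]; exact Subgroup.one_mem _
  by_cases h : ∀ q ∈ MS π S ⊓ cj x (MS π S'), q = 1
  · refine Or.inr ⟨1, Subgroup.one_mem _, 1, Finset.mem_singleton_self _, fun q hq => ?_⟩
    rw [h q hq]; exact Subgroup.one_mem _
  push Not at h
  obtain ⟨q, hq, hne⟩ := h
  obtain ⟨a, l, ha, -⟩ := P.bb_axis (not_finOrder_MS hS hq.1 hne) P.o
  obtain ⟨m, hm, h1⟩ := hδ q 1 a l (by simpa using hq.1) ha 0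
  obtain ⟨m', hm', h2⟩ := hδ' q x a l (mem_cj.1 hq.2) ha 0
  refine Or.inl ⟨m, hm, m⁻¹ * (x * m'), (hB _).2 ((hC _).2.trans (Nat.mul_le_mul_left _ ?_)),
    m'⁻¹, Subgroup.inv_mem _ hm', by group⟩
  rw [one_mul] at h1
  have := P.bb_tri (m • P.o) (a 0) ((x * m') • P.o)
  rw [P.bb_comm _ (a 0)] at this
  rw [P.bb_dist]
  omega

theorem ci {S : Set X} (hS : Free π S) : CI π S := by
  obtain ⟨C, hC⟩ := P.qi hπ
  obtain ⟨δ, hδ⟩ := P.bb_near hπ S
  refine ⟨fun n => C * (C * n + (δ + 1)), (Bd.const C).mul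
    (((Bd.const C).mul Bd.id).add (Bd.const _)), fun u g hg => ?_⟩
  by_cases hu : u = 1
  · exact ⟨1, by rw [hu]; simpa using Subgroup.one_mem _, by rw [len_one]; exact Nat.zero_le _⟩
  have hne : g⁻¹ * u * g ≠ 1 := fun h => hu (by
    have : u = g * (g⁻¹ * u * g) * g⁻¹ := by group
    rw [this, h]; group)
  have hinf : ¬ IsOfFinOrder u := fun h => not_finOrder_MS hS hg hne (by
    simpa using (MulAut.conj g⁻¹).toMonoidHom.isOfFinOrder h)
  obtain ⟨a, l, ha, hb⟩ := P.bb_axis hinf P.o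
  obtain ⟨m, hm, h1⟩ := hδ u g a l hg ha 0
  refine ⟨g * m, ?_, (hC _).2.trans (Nat.mul_le_mul_left _ ?_)⟩
  · have : (g * m)⁻¹ * u * (g * m) = m⁻¹ * (g⁻¹ * u * g) * m := by group
    rw [this]
    exact Subgroup.mul_mem _ (Subgroup.mul_mem _ (Subgroup.inv_mem _ hm) hg) hm
  · have h2 := (hb 0 le_rfl (by omega)).2.2
    have h3 := (hC u).1
    have h4 := P.bb_tri P.o (a 0) ((g * m) • P.o)
    omega

theorem cp : CP π := by
  obtain ⟨C, hC⟩ := P.qi hπ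
  refine ⟨fun n => C * (C * n + 1), (Bd.const C).mul
    (((Bd.const C).mul Bd.id).add (Bd.const _)), fun u v g hg => ?_⟩
  have fin : ∀ (g' : G) (p p' : P.V), ZT.Btw P.T P.o p (u • P.o) → ZT.Btw P.T P.o p' (v • P.o) →
      g' • p' = p → len π g' ≤ C * (C * (len π u + len π v) + 1) := by
    intro g' p p' h1 h2 h3
    refine (hC _).2.trans (Nat.mul_le_mul_left _ ?_)
    have k1 := h1.2.2
    have k2 := h2.2.2
    have k3 := (hC u).1
    have k4 := (hC v).1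
    have k5 := P.bb_tri P.o p (g' • P.o)
    have k6 := P.acts.dist g' p' P.o
    rw [h3, P.bb_comm p'] at k6
    rw [Nat.mul_add]
    omega
  have hu : u = g * v * g⁻¹ := by rw [← hg]; group
  by_cases h1 : u = 1
  · refine ⟨1, ?_, by rw [len_one]; exact Nat.zero_le _⟩
    rw [← hg, h1]; group
  rcases ZT.ell_or_hyp P.acyc P.acts P.noinv u (P.reach P.o (u • P.o)) with
    ⟨p, hp, hf⟩ | ⟨a, l, ha, hbt⟩ <;>
  rcases ZT.ell_or_hyp P.acyc P.acts P.noinv v (P.reach P.o (v • P.o)) with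
    ⟨p', hp', hf'⟩ | ⟨b, l', hb, hbt'⟩
  · refine ⟨g, hg, fin g p p' hp hp' ?_⟩
    by_contra hne
    refine h1 (P.bb_fix_two ?_ hf hne)
    rw [hu, mul_smul, mul_smul, inv_smul_smul, hf']
  · exact absurd hf (hu ▸ (hb.conj P.acts g).not_fix P.acyc P.acts (P.reach _ _))
  · refine absurd ?_ (ha.not_fix P.acyc P.acts (P.reach (g • p') _))
    rw [hu, mul_smul, mul_smul, inv_smul_smul, hf']
  · have hb' := hb.conj P.acts g
    rw [← hu] at hb'
    obtain ⟨-, c, hc⟩ := ha.unique P.acyc P.acts hb' (P.reach _ _)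
    obtain ⟨j, n, h0, h2, h3⟩ := bb_split ha.2.1 c
    refine ⟨u ^ (-n) * g, ?_, fin _ (a j) (b 0) (hbt j h0 h2) (hbt' 0 le_rfl (by omega)) ?_⟩
    · rw [← hg]; group
    · have h4 : g • b 0 = a (0 + c) := hc 0
      rw [mul_smul, h4, ha.zpow_smul, h3]
      congr 1; ring

theorem gbs : GBS G := by
  intro c c' hc hc'
  have _ := hπ
  obtain ⟨a, l, ha, -⟩ := P.bb_axis hc P.o
  obtain ⟨a', l', ha', -⟩ := P.bb_axis hc' P.o
  refine ⟨l', fun p hp hlp m m' hcj => ?_⟩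
  have hz : ∀ {d : G}, ¬ IsOfFinOrder d → ∀ n : ℤ, d ^ n = 1 → n = 0 := by
    intro d hd n hn
    by_contra h0
    exact hd (isOfFinOrder_iff_zpow_eq_one.2 ⟨n, h0, hn⟩)
  have hp0 : (p : ℤ) ≠ 0 := by exact_mod_cast hp.ne_zero
  by_cases hm : m = 0
  · subst hm
    rw [mul_zero, zpow_zero, isConj_one_right] at hcj
    refine ⟨0, by rw [hz hc' _ hcj, mul_zero], ?_⟩
    rw [zpow_zero, zpow_zero]
  have hm' : m' ≠ 0 := by
    rintro rfl
    rw [zpow_zero, isConj_one_left] at hcj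
    exact mul_ne_zero hp0 hm (hz hc _ hcj)
  obtain ⟨g, hg⟩ := isConj_iff.1 hcj.symm
  have hb := ha'.conj P.acts g
  rw [← conj_zpow] at hg
  set y := g * c' * g⁻¹ with hy
  set b : ℤ → P.V := fun i => g • a' i with hbdef
  obtain ⟨a₁, l₁, k1, r1⟩ := P.bb_axis_zpow ha (mul_ne_zero hp0 hm)
  obtain ⟨b₁, l₂, k2, r2⟩ := P.bb_axis_zpow hb hm'
  rw [hg] at k2
  obtain ⟨-, e₀, he₀⟩ := k1.unique P.acyc P.acts k2 (P.reach _ _)
  have hsub : ∀ i, b i ∈ Set.range a := by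
    intro i
    obtain ⟨j, hj⟩ : b i ∈ Set.range b₁ := r2 ▸ ⟨i, rfl⟩
    rw [← r1, ← hj, he₀]
    exact ⟨_, rfl⟩
  obtain ⟨e, ε, hε, he⟩ : ∃ e ε : ℤ, ε * ε = 1 ∧ ∀ i, b i = a (e + ε * i) := by
    obtain ⟨e, h | h⟩ := ha.1.reparam P.acyc hb.1 hsub
    · exact ⟨e, 1, rfl, fun i => by rw [h i]; congr 1; ring⟩
    · exact ⟨e, -1, rfl, fun i => by rw [h i]; congr 1; ring⟩
  have h1 : (p : ℤ) * m * l = ε * (m' * l') := by
    have k3 := hb.zpow_smul m' 0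
    rw [hg, he, he, ha.zpow_smul] at k3
    have := ha.1.inj P.acyc k3
    linarith
  have h2 : (p : ℤ) ∣ m' := by
    have k3 : (p : ℤ) ∣ m' * l' := ⟨ε * (m * l), by
      linear_combination (-ε) * h1 - (m' * l') * hε⟩
    rcases (Int.prime_iff_natAbs_prime.2 (by simpa using hp)).dvd_or_dvd k3 with h | h
    · exact h
    · have := Nat.le_of_dvd ha'.2.1 (Int.natCast_dvd_natCast.1 h)
      omega
  obtain ⟨m'', rfl⟩ := h2
  have h3 : m * l = ε * (m'' * l') := mul_left_cancel₀ hp0 (by linear_combination h1)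
  have h4 : ∀ i, ((c ^ m)⁻¹ * y ^ m'') • b i = b i := by
    intro i
    rw [mul_smul, inv_smul_eq_iff, hb.zpow_smul, he, he, ha.zpow_smul]
    congr 1
    linear_combination -h3
  have h5 := P.free _ _ _ (hb.1.1 0) (h4 0) (h4 (0 + 1))
  refine ⟨m'', rfl, (isConj_iff.2 ⟨g, ?_⟩).symm⟩
  rw [← conj_zpow]
  exact (inv_mul_eq_one.1 h5).symm

end PT

theorem Lv.cl_base (L : Lv) (hb : Function.Injective (ltr L.u)) : L.Cl := by
  have h0 : 0 < L.u.length := List.length_pos_iff.2 L.ne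
  obtain ⟨P⟩ := L.exists_PT hb (a := ltr L.u ⟨0, h0⟩) ⟨_, rfl⟩
  exact Lv.ClMax.cl ⟨L.fill_base hb, fun a ha => P.mem L.surj (L.free ha.adm),
    fun a b ha _ => dc1_of_qc L.surj (P.qc L.surj (L.free ha.adm)),
    fun a b ha _ => dc2_of_qc L.surj (P.qc L.surj (L.free ha.adm)),
    fun a b ha _ => P.sfin L.surj (L.free ha.adm), fun a ha => P.ci L.surj (L.free ha.adm),
    P.cp L.surj, P.gbs L.surj⟩

end CPOR
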