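import Pool.Agent.P.MP_2cb329_al.BA

/-! The claims for groups that act properly on a tree. -/

set_option autoImplicit false

namespace CPOR
namespace PT

variable {X : Type} [Fintype X] [DecidableEq X] {G : Type} [Group G] {π : FreeGroup X →* G}
  {S₀ : Set X} (P : PT π S₀) (hπ : Function.Surjective π)

omit [Fintype X] in
theorem b1_tri (u v w : P.V) : P.T.dist u w ≤ P.T.dist u v + P.T.dist v w :=
  ZT.dist_tri (P.reach u v) (P.reach v w)

omit [Fintype X] in
theorem b1_orb (g h : G) : P.T.dist (g • P.o) (h • P.o) = P.T.dist P.o ((g⁻¹ * h) • P.o) := by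
  rw [← P.acts.dist g⁻¹, inv_smul_smul, mul_smul]

theorem b1_lip : ∃ C, ∀ f : FreeGroup X, P.T.dist P.o (π f • P.o) ≤ C * f.norm := by
  refine ⟨Finset.univ.sup fun x : X × Bool => P.T.dist P.o (π (FreeGroup.mk [x]) • P.o), ?_⟩
  set C := Finset.univ.sup fun x : X × Bool => P.T.dist P.o (π (FreeGroup.mk [x]) • P.o) with hC
  have key : ∀ l : List (X × Bool), P.T.dist P.o (π (FreeGroup.mk l) • P.o) ≤ C * l.length := by
    intro l
    induction l with
    | nil => simp [← FreeGroup.one_eq_mk]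
    | cons x l ih =>
      have e : FreeGroup.mk (x :: l) = FreeGroup.mk [x] * FreeGroup.mk l := by
        rw [FreeGroup.mul_mk]; rfl
      have h1 := P.b1_tri P.o (π (FreeGroup.mk [x]) • P.o) (π (FreeGroup.mk (x :: l)) • P.o)
      rw [P.b1_orb, e, map_mul, inv_mul_cancel_left] at h1
      have h2 : P.T.dist P.o (π (FreeGroup.mk [x]) • P.o) ≤ C :=
        Finset.le_sup (f := fun x : X × Bool => P.T.dist P.o (π (FreeGroup.mk [x]) • P.o))
          (Finset.mem_univ x)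
      rw [e, map_mul, List.length_cons, Nat.mul_succ]
      omega
  intro f
  have := key f.toWord
  rwa [FreeGroup.mk_toWord] at this

include P hπ

theorem qi : ∃ C, ∀ g : G, P.T.dist P.o (g • P.o) ≤ C * len π g ∧
    len π g ≤ C * (P.T.dist P.o (g • P.o) + 1) := by
  obtain ⟨C, hC⟩ := P.b1_lip
  obtain ⟨M, hM⟩ := (P.fin.finite_zpowers.image (len π)).bddAbove
  have hst : ∀ g k : G, g • P.o = k • P.o → len π k ≤ len π g + M := fun g k h => by
    have h1 : g⁻¹ * k ∈ Subgroup.zpowers P.c := by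
      rw [← P.stab, MulAction.mem_stabilizer_iff, mul_smul, ← h, inv_smul_smul]
    have h2 : len π (g⁻¹ * k) ≤ M := hM ⟨_, h1, rfl⟩
    have h3 := len_mul hπ g (g⁻¹ * k)
    rw [mul_inv_cancel_left] at h3
    omega
  have hx : ∀ x, len π (π (FreeGroup.of x)) ≤ 1 := fun x => by
    simpa using len_le (π := π) (FreeGroup.of x)
  have hadj : ∀ (g : G) w, P.T.Adj (g • P.o) w →
      ∃ k : G, k • P.o = w ∧ len π k ≤ len π g + (M + 1) := fun g w h => by
    obtain ⟨k, x, -, ⟨h1, h2⟩ | ⟨h1, h2⟩⟩ := (P.adj _ _).1 h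
    · refine ⟨_, h2.symm, ?_⟩
      have := len_mul hπ k (π (FreeGroup.of x))
      have := hst g k h1
      have := hx x
      omega
    · refine ⟨_, h1.symm, ?_⟩
      have h3 := len_mul hπ (k * π (FreeGroup.of x)) (π (FreeGroup.of x))⁻¹
      rw [mul_inv_cancel_right, len_inv hπ] at h3
      have := hst g _ h2
      have := hx x
      omega
  refine ⟨C + (M + 1), fun g => ⟨?_, ?_⟩⟩
  · obtain ⟨f, rfl, hf⟩ := exists_len hπ g
    rw [← hf]
    exact (hC f).trans (Nat.mul_le_mul_right _ (Nat.le_add_right _ _))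
  · obtain ⟨a, h0, hn, ha, -, -⟩ := ZT.exists_geod (P.reach P.o (g • P.o))
    have key : ∀ i ≤ P.T.dist P.o (g • P.o), ∃ k : G, k • P.o = a i ∧ len π k ≤ (M + 1) * i := by
      intro i
      induction i with
      | zero => exact fun _ => ⟨1, by rw [one_smul, h0], by simp [len_one]⟩
      | succ i ih =>
        intro hi
        obtain ⟨k, hk, hl⟩ := ih (by omega)
        obtain ⟨k', hk', hl'⟩ := hadj k _ (hk ▸ ha i hi)
        exact ⟨k', hk', by rw [Nat.mul_succ]; omega⟩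
    obtain ⟨k, hk, hl⟩ := key _ le_rfl
    have := hst k g (hk.trans hn)
    refine le_trans ?_ (Nat.mul_le_mul_right _ (Nat.le_add_left (M + 1) C))
    rw [Nat.mul_succ]
    omega

/-- The geodesic to a point of the orbit stays near the orbit. -/
theorem hull (S : Set X) : ∃ δ, ∀ f ∈ FS S, ∀ v, ZT.Btw P.T P.o v (π f • P.o) →
    ∃ g, FB 1 g f ∧ P.T.dist v (π g • P.o) ≤ δ := by
  obtain ⟨C, hC⟩ := P.b1_lip
  refine ⟨C, fun f _ v hv => ?_⟩
  let p : ℕ → FreeGroup X := fun i => FreeGroup.mk (f.toWord.take i)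
  have hp : ∀ i ≤ f.norm, FB 1 (p i) f := fun i hi => fb_one_iff.2 ⟨i, hi, rfl⟩
  have h0 : p 0 = 1 := by simp [p, ← FreeGroup.one_eq_mk]
  have hn : p f.norm = f := by
    simp only [p, FreeGroup.norm, List.take_length, FreeGroup.mk_toWord]
  rcases ZT.Btw.chain P.acyc (fun i => π (p i) • P.o) f.norm (fun _ _ => P.reach _ _) (y := v)
    (by simpa only [h0, hn, map_one, one_smul] using hv) with h | ⟨i, hi, h⟩
  · exact ⟨p 0, hp 0 (Nat.zero_le _), by rw [h, SimpleGraph.dist_self]; exact Nat.zero_le _⟩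
  · refine ⟨p i, hp i hi.le, ?_⟩
    have h1 : FB 1 (p i) (p (i + 1)) :=
      cay_btw.1 (ZT.Btw.compare cay_acyclic (cay_btw.2 (hp i hi.le)) (cay_btw.2 (hp (i + 1) hi))
        (by rw [cay_dist, cay_dist, inv_one, one_mul, one_mul, norm_mk_take f hi.le,
          norm_mk_take f hi]; omega)).1
    have h2 := FHP.fb_one h1
    rw [norm_mk_take f hi.le, norm_mk_take f hi] at h2
    have h3 := hC ((p i)⁻¹ * p (i + 1))
    rw [show ((p i)⁻¹ * p (i + 1)).norm = 1 by omega, mul_one, map_mul, map_inv, ← P.b1_orb] at h3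
    have h4 := h.2.2
    rw [SimpleGraph.dist_comm]
    omega

/-- A coarse path in the free group that follows the geodesic. -/
theorem b1_chain {S : Set X} (hS : Free π S) : ∃ D δ, ∀ f ∈ FS S, ∃ b : ℕ → FreeGroup X,
    b 0 = 1 ∧ b (P.T.dist P.o (π f • P.o) + 1) = f ∧ (∀ i, ((b i)⁻¹ * b (i + 1)).norm ≤ D) ∧
      ∀ i, ∃ v, ZT.Btw P.T P.o v (π f • P.o) ∧ P.T.dist v (π (b i) • P.o) ≤ δ := by
  obtain ⟨C, hC⟩ := P.qi hπ
  obtain ⟨δ, hδ⟩ := P.hull hπ S
  obtain ⟨s, hs, -⟩ := len_ball (π := π) hπ (C * (2 * δ + 1 + 1))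
  have hfin : {h | h ∈ FS S ∧ π h ∈ s}.Finite := by
    refine Set.Finite.of_finite_image (f := π) (s.finite_toSet.subset ?_) ?_
    · rintro _ ⟨h, hh, rfl⟩
      exact hh.2
    · intro x hx y hy hxy
      have := hS (x⁻¹ * y) (Subgroup.mul_mem _ (Subgroup.inv_mem _ hx.1) hy.1)
        (by rw [map_mul, map_inv, hxy, inv_mul_cancel])
      exact inv_mul_eq_one.1 this
  obtain ⟨D, hD⟩ := (hfin.image FreeGroup.norm).bddAbove
  refine ⟨D, δ, fun f hf => ?_⟩
  obtain ⟨a, h0, hn, -, ha, hb⟩ := ZT.exists_geod (P.reach P.o (π f • P.o))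
  generalize P.T.dist P.o (π f • P.o) = n at *
  have key : ∀ i, ∃ g, g ∈ FS S ∧ P.T.dist (a (min i n)) (π g • P.o) ≤ δ ∧ (i = 0 → g = 1) ∧
      (i = n + 1 → g = f) := by
    intro i
    by_cases h1 : i = 0
    · subst h1
      exact ⟨1, Subgroup.one_mem _, by simp [h0], fun _ => rfl, fun h => by omega⟩
    by_cases h2 : i = n + 1
    · subst h2
      exact ⟨f, hf, by simp [hn], fun h => by omega, fun _ => rfl⟩
    obtain ⟨g, hg, hd⟩ := hδ f hf _ (hb (min i n) (min_le_right _ _))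
    exact ⟨g, by simpa using hg.mem_FS (S := S) (by simpa using hf), hd, fun h => absurd h h1,
      fun h => absurd h h2⟩
  choose b hb1 hb2 hb3 hb4 using key
  refine ⟨b, hb3 0 rfl, hb4 _ rfl, fun i => hD ⟨_, ⟨Subgroup.mul_mem _ (Subgroup.inv_mem _ (hb1 i))
    (hb1 (i + 1)), (hs _).2 ((hC _).2.trans (Nat.mul_le_mul_left _ ?_))⟩, rfl⟩,
    fun i => ⟨_, hb _ (min_le_right i n), hb2 i⟩⟩
  rw [map_mul, map_inv, ← P.b1_orb]
  have t1 := P.b1_tri (π (b i) • P.o) (a (min i n)) (π (b (i + 1)) • P.o)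
  have t2 := P.b1_tri (a (min i n)) (a (min (i + 1) n)) (π (b (i + 1)) • P.o)
  have t3 := (ha (min i n) (min (i + 1) n) (by omega) (min_le_right _ _)).2
  have t4 := hb2 i
  have t5 := hb2 (i + 1)
  rw [SimpleGraph.dist_comm] at t4
  omega

theorem mem {S : Set X} (hS : Free π S) : Mem π S := by
  obtain ⟨C, hC⟩ := P.qi hπ
  obtain ⟨D, δ, h⟩ := P.b1_chain hπ hS
  refine ⟨fun m => D * (C * m + 1),
    (Bd.const D).mul (((Bd.const C).mul Bd.id).add (Bd.const 1)), fun f hf => ?_⟩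
  obtain ⟨b, h0, hn, hb, -⟩ := h f hf
  have key : ∀ i, (b i).norm ≤ D * i := by
    intro i
    induction i with
    | zero => simp [h0]
    | succ i ih =>
      have h1 := FreeGroup.norm_mul_le (b i) ((b i)⁻¹ * b (i + 1))
      rw [mul_inv_cancel_left] at h1
      have := hb i
      rw [Nat.mul_succ]
      omega
  have := key (P.T.dist P.o (π f • P.o) + 1)
  rw [hn] at this
  exact this.trans (Nat.mul_le_mul_left _ (Nat.succ_le_succ (hC _).1))

theorem qc {S S' : Set X} (hS : Free π S) : QC π S S' := by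
  obtain ⟨C, hC⟩ := P.qi hπ
  obtain ⟨C', hC'⟩ := P.b1_lip
  obtain ⟨D, δ, h⟩ := P.b1_chain hπ hS
  obtain ⟨δ', hδ'⟩ := P.hull hπ S'
  refine ⟨fun n => C * (C * n + (C' * D + δ + δ' + 1)),
    (Bd.const C).mul (((Bd.const C).mul Bd.id).add (Bd.const _)),
    fun n f g b b' hf hg hb hb' hm => ?_⟩
  obtain ⟨f', hf', he⟩ := mem_MS.1 hm
  obtain ⟨p, h0, hn, hp, hv⟩ := h f hf
  have h1 : ∃ i, ((p i)⁻¹ * g).norm ≤ D := by
    rcases ZT.Btw.chain cay_acyclic p (P.T.dist P.o (π f • P.o) + 1)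
      (fun _ _ => cay_reach _ _) (y := g)
      (by rw [h0, hn]; exact cay_btw.2 hg) with h | ⟨i, -, h⟩
    · exact ⟨0, by simp [h]⟩
    · refine ⟨i, le_trans ?_ (hp i)⟩
      have := h.2.2
      rw [cay_dist, cay_dist, cay_dist] at this
      omega
  obtain ⟨i, hi⟩ := h1
  obtain ⟨v, hv1, hv2⟩ := hv i
  obtain ⟨y, hy1, -, hy2⟩ := ZT.Btw.near P.acyc hv1 (P.reach _ (b • P.o))
    (P.reach _ ((π f * b') • P.o)) (c := C * n)
    ((hC b).1.trans (Nat.mul_le_mul_left _ hb))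
    (by rw [P.b1_orb, inv_mul_cancel_left]; exact (hC b').1.trans (Nat.mul_le_mul_left _ hb'))
  have hy3 := P.acts.btw b⁻¹ hy1
  rw [inv_smul_smul, ← mul_smul b⁻¹ (π f * b'), ← mul_assoc, ← he] at hy3
  obtain ⟨g', hg', hd⟩ := hδ' f' hf' _ hy3
  refine ⟨(π g)⁻¹ * (b * π g'), (hC _).2.trans (Nat.mul_le_mul_left _ ?_), mem_MS.2
    ⟨g', by simpa using hg'.mem_FS (S := S') (by simpa using hf'), by group⟩⟩
  rw [← P.acts.dist b, smul_inv_smul, ← mul_smul] at hd
  rw [← P.b1_orb]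
  have t1 := P.b1_tri (π g • P.o) (π (p i) • P.o) ((b * π g') • P.o)
  have t2 := P.b1_tri (π (p i) • P.o) v ((b * π g') • P.o)
  have t3 := P.b1_tri v y ((b * π g') • P.o)
  have t4 := (hC' ((p i)⁻¹ * g)).trans (Nat.mul_le_mul_left _ hi)
  rw [map_mul, map_inv, ← P.b1_orb, SimpleGraph.dist_comm] at t4
  rw [SimpleGraph.dist_comm] at hv2
  omega

end PT
end CPOR
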