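import Pool.Agent.P.MP_2cb329_al.BT1

/-! The Bass-Serre tree of a step. -/

set_option autoImplicit false

namespace CPOR
namespace St

variable {L L' : Lv} (s : St L L')

/-- The height of a vertex. -/
theorem exists_hv : ∃ hv : s.Vt → ℤ, (∀ g, hv (s.vx g) = Multiplicative.toAdd (s.φ g)) ∧
    (∀ e, hv (s.tgt e) = hv (s.src e) + 1) ∧
    ∀ (g : L.G) v, hv (g • v) = Multiplicative.toAdd (s.φ g) + hv v := by
  refine ⟨fun v => Quotient.liftOn' v (fun g => Multiplicative.toAdd (s.φ g)) ?_, fun g => rfl,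
    fun e => ?_, fun g v => ?_⟩
  · intro a b h
    rw [QuotientGroup.leftRel_apply] at h
    obtain ⟨x, hx⟩ := h
    rw [show b = a * s.j x by rw [hx]; group, map_mul, s.φ_j, mul_one]
  · obtain ⟨x, rfl⟩ := QuotientGroup.mk_surjective e
    change Multiplicative.toAdd (s.φ (x * s.t)) = Multiplicative.toAdd (s.φ x) + 1
    rw [map_mul, t, s.φ_t]; rfl
  · obtain ⟨x, rfl⟩ := QuotientGroup.mk_surjective v
    change Multiplicative.toAdd (s.φ (g * x)) = _ + Multiplicative.toAdd (s.φ x)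
    rw [map_mul]; rfl

theorem src_ne_tgt (e : s.Ed) : s.src e ≠ s.tgt e := by
  obtain ⟨hv, -, h, -⟩ := s.exists_hv
  intro he
  have := h e
  rw [he] at this
  omega

theorem ed_ext {e e' : s.Ed} (h1 : s.src e = s.src e') (h2 : s.tgt e = s.tgt e') : e = e' := by
  obtain ⟨g, rfl⟩ := QuotientGroup.mk_surjective e
  obtain ⟨g', rfl⟩ := QuotientGroup.mk_surjective e'
  obtain ⟨h, hg⟩ := (s.vx_eq_iff (g := g) (g' := g')).1 h1
  obtain ⟨h', hh⟩ := (s.vx_eq_iff (g := g * s.t) (g' := g' * s.t)).1 h2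
  subst hg
  by_cases hm : h ∈ MS L'.π s.SA
  · obtain ⟨f, hf, rfl⟩ := mem_MS.1 hm
    exact s.ed_eq_iff.2 ⟨f, hf, rfl⟩
  · exfalso
    have := s.britton [(-1, h), (1, 1)] (by simp [hm]) ⟨h', ?_⟩
    · simp at this
    · have e : s.j h' = s.t⁻¹ * s.j h * s.t := by
        have : s.j h' = (g * s.t)⁻¹ * (g * s.t * s.j h') := by group
        rw [this, ← hh]; group
      rw [e]
      simp [t, mul_assoc]

theorem adj_iff {v w : s.Vt} : s.T.Adj v w ↔ ∃ e, s.Join e v w := by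
  rw [T, SimpleGraph.fromRel_adj]
  constructor
  · rintro ⟨-, ⟨e, he⟩ | ⟨e, he⟩⟩
    · exact ⟨e, Or.inl he⟩
    · exact ⟨e, Or.inr he⟩
  · rintro ⟨e, he | he⟩
    · exact ⟨fun h => s.src_ne_tgt e (by rw [he.1, he.2, h]), Or.inl ⟨e, he⟩⟩
    · exact ⟨fun h => s.src_ne_tgt e (by rw [he.1, he.2, h]), Or.inr ⟨e, he⟩⟩

theorem join_unique {e e' : s.Ed} {v w : s.Vt} (h : s.Join e v w) (h' : s.Join e' v w) :
    e = e' := by
  obtain ⟨hv, -, hh, -⟩ := s.exists_hv
  have a := hh e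
  have a' := hh e'
  rcases h with ⟨h1, h2⟩ | ⟨h1, h2⟩ <;> rcases h' with ⟨h3, h4⟩ | ⟨h3, h4⟩
  · exact s.ed_ext (h1.trans h3.symm) (h2.trans h4.symm)
  · rw [h1, h2] at a; rw [h3, h4] at a'; omega
  · rw [h1, h2] at a; rw [h3, h4] at a'; omega
  · exact s.ed_ext (h1.trans h3.symm) (h2.trans h4.symm)

theorem Join.smul {e : s.Ed} {v w : s.Vt} (h : s.Join e v w) (g : L.G) :
    s.Join (g • e) (g • v) (g • w) := by
  rcases h with ⟨h1, h2⟩ | ⟨h1, h2⟩
  · exact Or.inl ⟨by rw [smul_src, h1], by rw [smul_tgt, h2]⟩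
  · exact Or.inr ⟨by rw [smul_src, h1], by rw [smul_tgt, h2]⟩

theorem Join.fix {e : s.Ed} {v w : s.Vt} (h : s.Join e v w) {g : L.G} (hv : g • v = v)
    (hw : g • w = w) : g • e = e := by
  have := Join.smul s h g
  rw [hv, hw] at this
  exact s.join_unique this h

theorem Inc.fix {e : s.Ed} {v : s.Vt} (h : s.Inc e v) {g : L.G} (he : g • e = e) : g • v = v := by
  rcases h with rfl | rfl
  · rw [← smul_src, he]
  · rw [← smul_tgt, he]

/-- Two distinct edges have at most one common vertex. -/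
theorem inc_unique {e e' : s.Ed} (hne : e ≠ e') {v w : s.Vt} (h1 : s.Inc e v) (h2 : s.Inc e' v)
    (h3 : s.Inc e w) (h4 : s.Inc e' w) : v = w := by
  by_contra hvw
  have key : ∀ {x : s.Ed}, s.Inc x v → s.Inc x w → s.Join x v w := by
    intro x a b
    rcases a with a | a <;> rcases b with b | b
    · exact absurd (a.symm.trans b) hvw
    · exact Or.inl ⟨a, b⟩
    · exact Or.inr ⟨b, a⟩
    · exact absurd (a.symm.trans b) hvw
  exact hne (s.join_unique (key h1 h3) (key h2 h4))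

theorem T_acts : ZT.Acts s.T L.G := by
  intro g x y h
  obtain ⟨e, he⟩ := s.adj_iff.1 h
  exact s.adj_iff.2 ⟨_, Join.smul s he g⟩

theorem T_noinv : ZT.NoInv s.T L.G := by
  obtain ⟨hv, -, hh, hs⟩ := s.exists_hv
  intro g x y h h1 h2
  obtain ⟨e, he⟩ := s.adj_iff.1 h
  have a := hs g x
  have b := hs g y
  have c := hh e
  rw [h1] at a
  rw [h2] at b
  rcases he with ⟨h3, h4⟩ | ⟨h3, h4⟩ <;> rw [h3, h4] at c <;> omega

theorem adj_t (g : L.G) : s.T.Adj (s.vx g) (s.vx (g * s.t)) :=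
  s.adj_iff.2 ⟨s.ed g, Or.inl ⟨rfl, rfl⟩⟩

theorem T_reach (v w : s.Vt) : s.T.Reachable v w := by
  have key : ∀ f : FreeGroup L.X, s.T.Reachable (s.vx 1) (s.vx (L.π f)) := by
    intro f
    have hf : f ∈ Subgroup.closure (Set.range s.Φ ∪ {s.τ}) := by rw [s.gen]; trivial
    induction hf using Subgroup.closure_induction with
    | mem x hx =>
      rcases hx with ⟨y, rfl⟩ | rfl
      · rw [show s.vx (L.π (s.Φ y)) = s.vx 1 from
          (s.vx_eq_iff.2 ⟨L'.π y, by rw [one_mul, s.j_π]⟩).symm]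
      · have := (s.adj_t 1).reachable
        rwa [one_mul] at this
    | one => rw [map_one]
    | mul x y _ _ hx hy =>
      have := s.T_acts.reach (L.π x) hy
      rw [smul_vx, smul_vx, mul_one] at this
      rw [map_mul]
      exact hx.trans this
    | inv x _ hx =>
      have := s.T_acts.reach (L.π x)⁻¹ hx
      rw [smul_vx, smul_vx, mul_one, inv_mul_cancel] at this
      rw [map_inv]
      exact this.symm
  obtain ⟨g, rfl⟩ := QuotientGroup.mk_surjective v
  obtain ⟨g', rfl⟩ := QuotientGroup.mk_surjective w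
  obtain ⟨f, rfl⟩ := L.surj g
  obtain ⟨f', rfl⟩ := L.surj g'
  exact (key f).symm.trans (key f')

theorem adj_step {v w : s.Vt} (h : s.T.Adj v w) :
    ∃ (p : L.G) (ε : ℤˣ), s.vx p = v ∧ s.vx (p * s.t ^ (ε : ℤ)) = w := by
  obtain ⟨e, he⟩ := s.adj_iff.1 h
  obtain ⟨g, rfl⟩ := QuotientGroup.mk_surjective e
  rcases he with ⟨h1, h2⟩ | ⟨h1, h2⟩
  · exact ⟨g, 1, h1, by simpa using h2⟩
  · exact ⟨g * s.t, -1, h2, by simpa using h1⟩

theorem walk_list (n : ℕ) : ∀ a : ℕ → s.Vt, (∀ i < n + 1, s.T.Adj (a i) (a (i + 1))) →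
    (∀ i, i + 2 ≤ n + 1 → a i ≠ a (i + 2)) →
    ∃ (p : L.G) (x : ℤˣ × L'.G) (l : List (ℤˣ × L'.G)), s.vx p = a 0 ∧
      s.vx (p * s.t ^ (x.1 : ℤ)) = a 1 ∧
      (x :: l).IsChain
        (fun a b => a.2 ∈ (if a.1 = 1 then MS L'.π s.SB else MS L'.π s.SA) → a.1 = b.1) ∧
      s.vx (p * ((x :: l).map fun x => L.π s.τ ^ (x.1 : ℤ) * s.j x.2).prod) = a (n + 1) := by
  induction n with
  | zero =>
    intro a h _
    obtain ⟨p, ε, h1, h2⟩ := s.adj_step (h 0 (by omega))
    exact ⟨p, (ε, 1), [], h1, h2, by simp, by simpa [t] using h2⟩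
  | succ n ih =>
    intro a h hb
    obtain ⟨p', x', l', h1', h2', h3', h4'⟩ := ih (fun i => a (i + 1))
      (fun i hi => h (i + 1) (by omega)) (fun i hi => hb (i + 1) (by omega))
    obtain ⟨p, ε, h1, h2⟩ := s.adj_step (h 0 (by omega))
    obtain ⟨k, hk⟩ := s.vx_eq_iff.1 (h2.trans h1'.symm)
    refine ⟨p, (ε, k), x' :: l', h1, h2, ?_, ?_⟩
    · rw [List.isChain_cons_cons]
      refine ⟨fun hm => ?_, h3'⟩
      by_contra hne
      refine hb 0 (by omega) ?_
      simp only at h2' hm hne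
      rw [← h1, ← h2', hk]
      have hj : ∀ {S : Set L'.X}, k ∈ MS L'.π S → s.j k ∈ s.M' S := fun hS => by
        rw [M'_eq]; exact ⟨k, hS, rfl⟩
      rcases Int.units_eq_one_or ε with rfl | rfl
      · have hx : x'.1 = -1 := (Int.units_eq_one_or x'.1).resolve_left fun e => hne e.symm
        rw [if_pos rfl] at hm
        obtain ⟨k', hk'⟩ := s.M'_le _ ((s.mem_B_iff _).1 (hj hm))
        refine s.vx_eq_iff.2 ⟨k', ?_⟩
        rw [hk', hx]; simp [mul_assoc]
      · have hx : x'.1 = 1 := (Int.units_eq_one_or x'.1).resolve_right fun e => hne e.symm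
        rw [if_neg (by decide)] at hm
        obtain ⟨k', hk'⟩ := s.M'_le _ ((s.mem_M'_conj _).2 (hj hm))
        refine s.vx_eq_iff.2 ⟨k', ?_⟩
        rw [hk', hx]; simp [mul_assoc]
    · rw [← h4', hk, List.map_cons (a := (ε, k)), List.prod_cons]
      simp only [t, mul_assoc]

theorem T_acyclic : s.T.IsAcyclic := by
  intro v c hc
  have h3 := hc.three_le_length
  obtain ⟨n, hn⟩ : ∃ n, c.length = n + 1 := ⟨c.length - 1, by omega⟩
  obtain ⟨p, x, l, h1, -, h2, h4⟩ := s.walk_list n c.getVert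
    (fun i hi => c.adj_getVert_succ (by omega))
    (fun i hi => by
      have := hc.getVert_sub_one_ne_getVert_add_one (i := i + 1) (by omega)
      simpa using this)
  rw [← hn, c.getVert_length] at h4
  rw [c.getVert_zero] at h1
  obtain ⟨k, hk⟩ := s.vx_eq_iff.1 (h1.trans h4.symm)
  have := s.britton _ h2 ⟨k, (mul_left_cancel hk).symm⟩
  simp at this

end St
end CPOR
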