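import Pool.Agent.P.MP_2cb329_al.BT2

/-! The Bass-Serre tree of a step. -/

set_option autoImplicit false

namespace CPOR
namespace St

variable {L L' : Lv} (s : St L L')

theorem exists_pth (v w : s.Vt) : ∃ a e, a 0 = v ∧ a (s.T.dist v w) = w ∧
    s.Pth a e (s.T.dist v w) ∧ ∀ i ≤ s.T.dist v w, ZT.Btw s.T v (a i) w := by
  obtain ⟨a, h0, h1, h2, h3, h4⟩ := ZT.exists_geod (s.T_reach v w)
  have : ∀ i, ∃ e, i < s.T.dist v w → s.Join e (a i) (a (i + 1)) := fun i => by
    by_cases hi : i < s.T.dist v w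
    · obtain ⟨e, he⟩ := s.adj_iff.1 (h2 i hi)
      exact ⟨e, fun _ => he⟩
    · exact ⟨s.ed 1, fun h => absurd h hi⟩
  choose e he using this
  refine ⟨a, e, h0, h1, ⟨he, fun i hi H => ?_⟩, h4⟩
  have := (h3 i (i + 2) (by omega) hi).2
  rw [← H, SimpleGraph.dist_self] at this
  omega

theorem Pth.dist {a : ℕ → s.Vt} {e : ℕ → s.Ed} {n : ℕ} (h : s.Pth a e n) {i j : ℕ} (hij : i ≤ j)
    (hj : j ≤ n) : s.T.dist (a i) (a j) = j - i := by
  exact (ZT.geod_of_noback s.T_acyclic a n (fun i hi => s.adj_iff.2 ⟨_, h.1 i hi⟩) h.2 i j hij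
    hj).2

theorem Pth.btw {a : ℕ → s.Vt} {e : ℕ → s.Ed} {n : ℕ} (h : s.Pth a e n) {i j k : ℕ} (hij : i ≤ j)
    (hjk : j ≤ k) (hk : k ≤ n) : ZT.Btw s.T (a i) (a j) (a k) := by
  refine ⟨s.T_reach _ _, s.T_reach _ _, ?_⟩
  rw [Pth.dist s h hij (hjk.trans hk), Pth.dist s h hjk hk, Pth.dist s h (hij.trans hjk) hk]
  omega

theorem Pth.ne {a : ℕ → s.Vt} {e : ℕ → s.Ed} {n : ℕ} (h : s.Pth a e n) {i j : ℕ} (hij : i < j)
    (hj : j < n) : e i ≠ e j := by
  intro he
  have h1 := h.1 i (hij.trans hj)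
  have h2 := h.1 j hj
  have d1 := Pth.dist s h (i := i) (j := j + 1) (by omega) hj
  have d2 := Pth.dist s h (i := i + 1) (j := j + 1) (by omega) hj
  rw [he] at h1
  have : a (j + 1) = a i ∨ a (j + 1) = a (i + 1) := by
    rcases h1 with ⟨a1, a2⟩ | ⟨a1, a2⟩ <;> rcases h2 with ⟨b1, b2⟩ | ⟨b1, b2⟩
    · exact Or.inr (b2.symm.trans a2)
    · exact Or.inl (b1.symm.trans a1)
    · exact Or.inl (b2.symm.trans a2)
    · exact Or.inr (b1.symm.trans a1)
  rcases this with H | H
  · rw [H, SimpleGraph.dist_self] at d1; omega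
  · rw [H, SimpleGraph.dist_self] at d2; omega

theorem Pth.sub {a : ℕ → s.Vt} {e : ℕ → s.Ed} {n : ℕ} (h : s.Pth a e n) (i m : ℕ)
    (hm : i + m ≤ n) : s.Pth (fun l => a (i + l)) (fun l => e (i + l)) m := by
  exact ⟨fun l hl => h.1 (i + l) (by omega), fun l hl => h.2 (i + l) (by omega)⟩

theorem Pth.rev {a : ℕ → s.Vt} {e : ℕ → s.Ed} {n : ℕ} (h : s.Pth a e n) :
    s.Pth (fun l => a (n - l)) (fun l => e (n - 1 - l)) n := by
  refine ⟨fun l hl => ?_, fun l hl => ?_⟩
  · have := h.1 (n - 1 - l) (by omega)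
    rw [show n - 1 - l + 1 = n - l by omega] at this
    simp only
    rw [show n - (l + 1) = n - 1 - l by omega]
    exact this.symm
  · have := h.2 (n - (l + 2)) (by omega)
    rw [show n - (l + 2) + 2 = n - l by omega] at this
    exact this.symm

theorem Mono.pth {e : ℕ → s.Ed} {K : ℕ} (h : s.Mono e K) :
    s.Pth (fun i => if i = 0 then s.src (e 0) else s.tgt (e (i - 1))) e K := by
  have key : ∀ i < K, (if i = 0 then s.src (e 0) else s.tgt (e (i - 1))) = s.src (e i) := by
    intro i hi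
    rcases i with _ | i
    · simp
    · simpa using h i hi
  refine ⟨fun i hi => Or.inl ⟨(key i hi).symm, by simp⟩, fun i hi H => ?_⟩
  obtain ⟨hv, -, hh, -⟩ := s.exists_hv
  simp only at H
  rw [key i (by omega), if_neg (by omega), show i + 2 - 1 = i + 1 by omega] at H
  have a1 := hh (e i)
  have a2 := hh (e (i + 1))
  rw [← h i (by omega), ← H] at a2
  omega

/-- A path without turns is monotone in one of the two directions. -/
theorem Pth.mono_or {a : ℕ → s.Vt} {e : ℕ → s.Ed} {n : ℕ} (h : s.Pth a e n)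
    (hturn : ∀ i, i + 1 < n → s.src (e i) ≠ s.src (e (i + 1)) ∧ s.tgt (e i) ≠ s.tgt (e (i + 1))) :
    (∀ i < n, s.src (e i) = a i ∧ s.tgt (e i) = a (i + 1)) ∨
      ∀ i < n, s.tgt (e i) = a i ∧ s.src (e i) = a (i + 1) := by
  rcases Nat.eq_zero_or_pos n with rfl | hn
  · left; intro i hi; omega
  rcases h.1 0 hn with h0 | h0
  · left
    intro i hi
    induction i with
    | zero => exact h0
    | succ i ih =>
      have ih' := ih (by omega)
      rcases h.1 (i + 1) hi with H | H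
      · exact H
      · exact absurd (ih'.2.trans H.2.symm) (hturn i hi).2
  · right
    intro i hi
    induction i with
    | zero => exact ⟨h0.2, h0.1⟩
    | succ i ih =>
      have ih' := ih (by omega)
      rcases h.1 (i + 1) hi with H | H
      · exact absurd (ih'.2.trans H.1.symm) (hturn i hi).1
      · exact ⟨H.2, H.1⟩

/-- The edges of a line; it is monotone or has a turn. -/
theorem line_edges {a : ℤ → s.Vt} (h : ZT.Line s.T a) : ∃ e : ℤ → s.Ed,
    (∀ i, s.Join (e i) (a i) (a (i + 1))) ∧ (∀ i, e i ≠ e (i + 1)) ∧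
      ((∀ i, s.src (e i) = a i ∧ s.tgt (e i) = a (i + 1)) ∨
        (∀ i, s.tgt (e i) = a i ∧ s.src (e i) = a (i + 1)) ∨
        ∃ i, s.src (e i) = s.src (e (i + 1)) ∨ s.tgt (e i) = s.tgt (e (i + 1))) := by
  choose e he using fun i => s.adj_iff.1 (h.1 i)
  refine ⟨e, he, fun i H => ?_, ?_⟩
  · have h1 := he i
    have h2 := he (i + 1)
    have n1 := h.2 i
    have n2 := (h.1 (i + 1)).ne
    rw [show i + 1 + 1 = i + 2 by ring] at h2 n2
    rw [H] at h1
    rcases h1 with ⟨a1, a2⟩ | ⟨a1, a2⟩ <;> rcases h2 with ⟨b1, b2⟩ | ⟨b1, b2⟩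
    · exact n2 (a2.symm.trans b2)
    · exact n1 (a1.symm.trans b1)
    · exact n1 (a2.symm.trans b2)
    · exact n2 (a1.symm.trans b1)
  by_cases ht : ∃ i, s.src (e i) = s.src (e (i + 1)) ∨ s.tgt (e i) = s.tgt (e (i + 1))
  · exact Or.inr (Or.inr ht)
  push Not at ht
  rcases he 0 with h0 | h0
  · left
    intro i
    induction i using Int.induction_on with
    | zero => exact h0
    | succ i ih =>
      rcases he (i + 1) with H | H
      · exact H
      · exact absurd (ih.2.trans H.2.symm) (ht i).2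
    | pred i ih =>
      rcases he (-i - 1) with H | H
      · exact H
      · have := (ht (-i - 1)).1
        rw [show (-i - 1 + 1 : ℤ) = -i by ring] at this H
        exact absurd (H.1.trans ih.1.symm) this
  · right; left
    intro i
    induction i using Int.induction_on with
    | zero => exact ⟨h0.2, h0.1⟩
    | succ i ih =>
      rcases he (i + 1) with H | H
      · exact absurd (ih.2.trans H.1.symm) (ht i).1
      · exact ⟨H.2, H.1⟩
    | pred i ih =>
      rcases he (-i - 1) with H | H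
      · have := (ht (-i - 1)).2
        rw [show (-i - 1 + 1 : ℤ) = -i by ring] at this H
        exact absurd (H.2.trans ih.1.symm) this
      · exact ⟨H.2, H.1⟩

theorem MonoZ.line {e : ℤ → s.Ed} (h : s.MonoZ e) : ZT.Line s.T (fun i => s.src (e i)) := by
  refine ⟨fun i => s.adj_iff.2 ⟨e i, Or.inl ⟨rfl, h i⟩⟩, fun i H => ?_⟩
  obtain ⟨hv, -, hh, -⟩ := s.exists_hv
  have a1 := hh (e i)
  have a2 := hh (e (i + 1))
  simp only at H
  rw [h (i + 1), ← h i, show i + 1 + 1 = i + 2 by ring, ← H] at a2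
  omega

end St
end CPOR
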