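import Pool.Agent.P.MP_2cb329_al.BT1
import Pool.Agent.P.MP_2cb329_al.BT2
import Pool.Agent.P.MP_2cb329_al.BT3

/-! The Bass-Serre tree of a step. -/

set_option autoImplicit false

namespace CPOR
namespace St

variable {L L' : Lv} (s : St L L')

theorem SmV.mono {n m : ℕ} {v : s.Vt} (h : s.SmV n v) (hn : n ≤ m) : s.SmV m v :=
  let ⟨g, h1, h2⟩ := h; ⟨g, h1, h2.trans hn⟩

theorem SmE.mono {n m : ℕ} {e : s.Ed} (h : s.SmE n e) (hn : n ≤ m) : s.SmE m e :=
  let ⟨g, h1, h2⟩ := h; ⟨g, h1, h2.trans hn⟩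

theorem SmV.smul {n : ℕ} {v : s.Vt} (h : s.SmV n v) (g : L.G) :
    s.SmV (len L.π g + n) (g • v) :=
  let ⟨x, h1, h2⟩ := h
  ⟨g * x, by rw [← h1]; rfl, (len_mul L.surj g x).trans (Nat.add_le_add_left h2 _)⟩

theorem SmE.smul {n : ℕ} {e : s.Ed} (h : s.SmE n e) (g : L.G) :
    s.SmE (len L.π g + n) (g • e) :=
  let ⟨x, h1, h2⟩ := h
  ⟨g * x, by rw [← h1]; rfl, (len_mul L.surj g x).trans (Nat.add_le_add_left h2 _)⟩

/-- The geodesic from `v` to `w` is short and small. -/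
def Gd (c : ℕ) (v w : s.Vt) : Prop :=
  s.T.dist v w ≤ c ∧ (∀ x, ZT.Btw s.T v x w → s.SmV c x) ∧
    ∀ e x y, s.Join e x y → ZT.Btw s.T v x y → ZT.Btw s.T x y w → s.SmE c e

theorem Gd.mono {c d : ℕ} {v w : s.Vt} (h : s.Gd c v w) (hc : c ≤ d) : s.Gd d v w :=
  ⟨h.1.trans hc, fun x hx => SmV.mono s (h.2.1 x hx) hc,
    fun e x y h1 h2 h3 => SmE.mono s (h.2.2 e x y h1 h2 h3) hc⟩

theorem Gd.smul {c : ℕ} {v w : s.Vt} (h : s.Gd c v w) (g : L.G) :
    s.Gd (len L.π g + c) (g • v) (g • w) := by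
  refine ⟨?_, fun x hx => ?_, fun e x y h1 h2 h3 => ?_⟩
  · rw [s.T_acts.dist]; exact h.1.trans (Nat.le_add_left _ _)
  · have := s.T_acts.btw g⁻¹ hx
    rw [inv_smul_smul, inv_smul_smul] at this
    have := SmV.smul s (h.2.1 _ this) g
    rwa [smul_inv_smul] at this
  · have a2 := s.T_acts.btw g⁻¹ h2
    have a3 := s.T_acts.btw g⁻¹ h3
    rw [inv_smul_smul] at a2 a3
    have := SmE.smul s (h.2.2 _ _ _ (Join.smul s h1 g⁻¹) a2 a3) g
    rwa [smul_inv_smul] at this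

theorem Gd.trans {c d : ℕ} {v u w : s.Vt} (h : s.Gd c v u) (h' : s.Gd d u w) :
    s.Gd (c + d) v w := by
  refine ⟨?_, fun x hx => ?_, fun e x y h1 h2 h3 => ?_⟩
  · exact (ZT.dist_tri (s.T_reach v u) (s.T_reach u w)).trans (Nat.add_le_add h.1 h'.1)
  · rcases hx.or s.T_acyclic (s.T_reach v u) with H | H
    · exact SmV.mono s (h.2.1 x H) (Nat.le_add_right _ _)
    · exact SmV.mono s (h'.2.1 x H) (Nat.le_add_left _ _)
  · obtain ⟨i, hi, a1, a2⟩ := ZT.Btw.chain_edge s.T_acyclic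
      (fun i => if i = 0 then v else if i = 1 then u else w) 2 (fun _ _ => s.T_reach _ _)
      (s.adj_iff.2 ⟨e, h1⟩) (by simpa using h2) (by simpa using h3)
    interval_cases i
    · exact SmE.mono s (h.2.2 e x y h1 (by simpa using a1) (by simpa using a2))
        (Nat.le_add_right _ _)
    · exact SmE.mono s (h'.2.2 e x y h1 (by simpa using a1) (by simpa using a2))
        (Nat.le_add_left _ _)

theorem exists_gd (v w : s.Vt) : ∃ c, s.Gd c v w := by
  obtain ⟨a, h0, -, -, h3, h4⟩ := ZT.exists_geod (s.T_reach v w)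
  have on : ∀ x, ZT.Btw s.T v x w → ∃ i ≤ s.T.dist v w, x = a i := fun x hx => by
    have hi : s.T.dist v x ≤ s.T.dist v w := by have := hx.2.2; omega
    refine ⟨_, hi, hx.unique s.T_acyclic (h4 _ hi) ?_⟩
    have := (h3 0 _ (Nat.zero_le _) hi).2
    rw [h0] at this
    omega
  have hV : ∀ x : s.Vt, ∃ n, s.SmV n x := fun x => by
    obtain ⟨g, rfl⟩ := QuotientGroup.mk_surjective x
    exact ⟨_, g, rfl, le_rfl⟩
  have hE : ∀ x y : s.Vt, ∃ n, ∀ e, s.Join e x y → s.SmE n e := fun x y => by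
    by_cases h : ∃ e, s.Join e x y
    · obtain ⟨e, he⟩ := h
      obtain ⟨g, rfl⟩ := QuotientGroup.mk_surjective e
      exact ⟨len L.π g, fun e' he' => ⟨g, s.join_unique he he', le_rfl⟩⟩
    · exact ⟨0, fun e he => absurd ⟨e, he⟩ h⟩
  choose cV hV using hV
  choose cE hE using hE
  set R := Finset.range (s.T.dist v w + 1) with hR
  refine ⟨s.T.dist v w + R.sup (fun i => cV (a i)) + (R ×ˢ R).sup (fun q => cE (a q.1) (a q.2)),
    by omega, fun x hx => ?_, fun e x y h1 h2 h3 => ?_⟩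
  · obtain ⟨i, hi, rfl⟩ := on x hx
    have := Finset.le_sup (f := fun i => cV (a i)) (s := R) (b := i)
      (Finset.mem_range.2 (by omega))
    exact SmV.mono s (hV _) (by omega)
  · obtain ⟨b1, b2⟩ := ZT.Btw.glue s.T_acyclic h2 h3 (s.adj_iff.2 ⟨e, h1⟩).ne
    obtain ⟨i, hi, rfl⟩ := on x b1
    obtain ⟨j, hj, rfl⟩ := on y b2
    have := Finset.le_sup (f := fun q : ℕ × ℕ => cE (a q.1) (a q.2)) (s := R ×ˢ R) (b := (i, j))
      (Finset.mem_product.2 ⟨Finset.mem_range.2 (by omega), Finset.mem_range.2 (by omega)⟩)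
    exact SmE.mono s (hE _ _ e h1) (by simp only at this; omega)

theorem gd_len : ∃ c, ∀ g : L.G, s.Gd (c * (len L.π g + 1)) (s.vx 1) (s.vx g) := by
  choose c hc using fun x : L.X × Bool => s.exists_gd (s.vx 1) (s.vx (L.π (FreeGroup.mk [x])))
  obtain ⟨c₀, h₀⟩ := s.exists_gd (s.vx 1) (s.vx 1)
  set C := Finset.univ.sup c + c₀ + 1 with hC
  have key : ∀ l : List (L.X × Bool),
      s.Gd (C * (l.length + 1)) (s.vx 1) (s.vx (L.π (FreeGroup.mk l))) := by
    intro l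
    induction l with
    | nil =>
      have : L.π (FreeGroup.mk []) = 1 := map_one _
      rw [this]
      exact Gd.mono s h₀ (by simp; omega)
    | cons x l ih =>
      have h1 := Gd.smul s ih (L.π (FreeGroup.mk [x]))
      rw [smul_vx, smul_vx, mul_one, ← map_mul, FreeGroup.mul_mk] at h1
      have h2 : len L.π (L.π (FreeGroup.mk [x])) ≤ 1 := (len_le _).trans (norm_mk_single x).le
      have h3 : c x ≤ Finset.univ.sup c := Finset.le_sup (Finset.mem_univ x)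
      refine Gd.mono s (Gd.trans s (hc x) h1) ?_
      rw [List.length_cons, Nat.mul_succ C (l.length + 1)]
      omega
  refine ⟨C, fun g => ?_⟩
  obtain ⟨f, rfl, hf⟩ := exists_len L.surj g
  have := key f.toWord
  rw [FreeGroup.mk_toWord] at this
  rw [← hf]
  exact this

/-- (BF) geodesics between small vertices are short and consist of small vertices and edges. -/
theorem bf : ∃ F, Bd F ∧ ∀ (n : ℕ) (v w : s.Vt), s.SmV n v → s.SmV n w →
    s.T.dist v w ≤ F n ∧ (∀ x, ZT.Btw s.T v x w → s.SmV (F n) x) ∧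
      ∀ e x y, s.Join e x y → ZT.Btw s.T v x w → ZT.Btw s.T v y w → s.SmE (F n) e := by
  obtain ⟨c, hc⟩ := s.gd_len
  refine ⟨fun n => n + c * (n + n + 1),
    Bd.id.add ((Bd.const c).mul ((Bd.id.add Bd.id).add (Bd.const 1))), ?_⟩
  rintro n _ _ ⟨g, rfl, hg⟩ ⟨g', rfl, hg'⟩
  have h1 := Gd.smul s (hc (g⁻¹ * g')) g
  rw [smul_vx, smul_vx, mul_one, mul_inv_cancel_left] at h1
  have h2 : len L.π (g⁻¹ * g') ≤ n + n := by
    have := len_mul L.surj g⁻¹ g'
    rw [len_inv L.surj] at this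
    omega
  have h3 := Gd.mono s h1 (d := n + c * (n + n + 1))
    (Nat.add_le_add hg (Nat.mul_le_mul_left _ (Nat.succ_le_succ h2)))
  refine ⟨h3.1, h3.2.1, fun e x y he hx hy => ?_⟩
  rcases le_total (s.T.dist (s.vx g) x) (s.T.dist (s.vx g) y) with h | h
  · obtain ⟨a1, a2⟩ := hx.compare s.T_acyclic hy h
    exact h3.2.2 e x y he a1 a2
  · obtain ⟨a1, a2⟩ := hy.compare s.T_acyclic hx h
    exact h3.2.2 e y x he.symm a1 a2

theorem SmE.inc : ∃ c, ∀ (n : ℕ) (e : s.Ed) (v : s.Vt), s.SmE n e → s.Inc e v →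
    s.SmV (n + c) v := by
  refine ⟨len L.π s.t, ?_⟩
  rintro n _ v ⟨g, rfl, hg⟩ (h | h)
  · exact ⟨g, h, by omega⟩
  · exact ⟨g * s.t, h, (len_mul L.surj _ _).trans (by omega)⟩

/-- A small element has a small fixed vertex or an axis with small vertices and edges. -/
theorem small_type : ∃ F, Bd F ∧ ∀ u : L.G,
    (∃ v, u • v = v ∧ s.SmV (F (len L.π u)) v) ∨
      ∃ (a : ℤ → s.Vt) (l : ℕ), ZT.IsAxis s.T u a l ∧ l ≤ F (len L.π u) ∧
        (∀ i : ℤ, |i| ≤ 3 * l → s.SmV (F (len L.π u)) (a i)) ∧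
        ∀ (i : ℤ) e, |i| ≤ 3 * l → s.Join e (a i) (a (i + 1)) → s.SmE (F (len L.π u)) e := by
  obtain ⟨F, hF, hb⟩ := s.bf
  refine ⟨fun n => F n + F (4 * n + F n), hF.add (hF.comp (((Bd.const 4).mul Bd.id).add hF)),
    fun u => ?_⟩
  set n := len L.π u with hn
  have s0 : s.SmV n (s.vx 1) := ⟨1, rfl, by rw [len_one]; omega⟩
  have s1 : s.SmV n (u • s.vx 1) := ⟨u * 1, rfl, by rw [mul_one]⟩
  obtain ⟨-, hv, -⟩ := hb n _ _ s0 s1
  rcases ZT.ell_or_hyp s.T_acyclic s.T_acts s.T_noinv u (s.T_reach (s.vx 1) (u • s.vx 1)) with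
    ⟨p, h1, h2⟩ | ⟨a, l, ha, h⟩
  · exact Or.inl ⟨p, h2, SmV.mono s (hv p h1) (Nat.le_add_right _ _)⟩
  right
  have a0 : s.SmV (F n) (a 0) := hv _ (h 0 le_rfl (by omega))
  have sm : ∀ k : ℤ, k.natAbs = 4 → s.SmV (4 * n + F n) (a (k * l)) := fun k hk => by
    have := SmV.smul s a0 (u ^ k)
    rw [ha.zpow_smul, zero_add] at this
    refine SmV.mono s this (Nat.add_le_add_right ?_ _)
    have := len_zpow L.surj u k
    rwa [hk] at this
  obtain ⟨d, hv', he'⟩ := hb _ _ _ (sm (-4) rfl) (sm 4 rfl)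
  have hl := ha.2.1
  have bt : ∀ i : ℤ, -4 * l ≤ i → i ≤ 4 * l → ZT.Btw s.T (a (-4 * l)) (a i) (a (4 * l)) :=
    fun i h1 h2 => ha.1.btw s.T_acyclic h1 h2
  refine ⟨a, l, ha, ?_, fun i hi => ?_, fun i e hi he => ?_⟩
  · rw [(ha.1.dist s.T_acyclic _ _).2] at d
    simp only
    omega
  · have := abs_le.1 hi
    exact SmV.mono s (hv' _ (bt i (by omega) (by omega))) (Nat.le_add_left _ _)
  · have := abs_le.1 hi
    exact SmE.mono s (he' e _ _ he (bt i (by omega) (by omega)) (bt (i + 1) (by omega) (by omega)))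
      (Nat.le_add_left _ _)

end St
end CPOR
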