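import Pool.Agent.P.MP_2cb329_al.ST

/-! The Bass-Serre tree of a step. -/

set_option autoImplicit false

namespace CPOR
namespace St

variable {L L' : Lv} (s : St L L')

theorem adm_A_N {a : L.X} (ha : L.Occ a) : L'.Adm (s.SA ∪ s.SN a) := by
  obtain ⟨y, hy, hp, hn⟩ := s.top a ha
  exact ⟨y, hy, fun h => h.elim hn fun h => h hp⟩

theorem adm_B_N {a : L.X} (ha : L.Occ a) : L'.Adm (s.SB ∪ s.SN a) := by
  obtain ⟨y, hy, hp, hn⟩ := s.bot a ha
  exact ⟨y, hy, fun h => h.elim hn fun h => h hp⟩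

theorem adm_A : L'.Adm s.SA := by
  exact (s.adm_A_N (a := ltr L.u ⟨0, List.length_pos_iff.2 L.ne⟩) ⟨_, rfl⟩).mono
    Set.subset_union_left

theorem adm_B : L'.Adm s.SB := by
  exact (s.adm_B_N (a := ltr L.u ⟨0, List.length_pos_iff.2 L.ne⟩) ⟨_, rfl⟩).mono
    Set.subset_union_left

theorem adm_N {a : L.X} (ha : L.Occ a) : L'.Adm (s.SN a) := by
  exact (s.adm_A_N ha).mono Set.subset_union_right

theorem w_inj {S : Set L'.X} (hS : L'.Adm S) {f g : FreeGroup L'.X} (hf : f ∈ FS S)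
    (hg : g ∈ FS S) (h : s.w f = s.w g) : f = g := by
  exact L'.inj_FS hS hf hg (s.j_inj h)

theorem bS_inj {S : Set L'.X} (hS : L'.Adm S) : Function.Injective (s.bS S) := by
  intro f g h
  refine map_val_injective S (s.w_inj hS ?_ ?_ h)
  · rw [← range_map_val S]; exact ⟨f, rfl⟩
  · rw [← range_map_val S]; exact ⟨g, rfl⟩

theorem sh_toWord {f : FreeGroup L'.X} (hf : f ∈ FS s.SA) :
    (s.sh f).toWord = f.toWord.map (fun x => (s.sg x.1, x.2)) :=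
  toWord_map_injOn s.sg_bij.injOn hf

theorem sh_mem {f : FreeGroup L'.X} (hf : f ∈ FS s.SA) : s.sh f ∈ FS s.SB := by
  rw [mem_FS_iff, s.sh_toWord hf]
  intro x hx
  obtain ⟨y, hy, rfl⟩ := List.mem_map.1 hx
  exact s.sg_bij.mapsTo (mem_FS_iff.1 hf y hy)

theorem sh_surj {f : FreeGroup L'.X} (hf : f ∈ FS s.SB) : ∃ g ∈ FS s.SA, s.sh g = f := by
  induction hf using Subgroup.closure_induction with
  | mem x hx =>
    obtain ⟨y, hy, rfl⟩ := hx
    obtain ⟨z, hz, rfl⟩ := s.sg_bij.surjOn hy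
    exact ⟨FreeGroup.of z, Subgroup.subset_closure ⟨z, hz, rfl⟩, by simp [sh]⟩
  | one => exact ⟨1, (FS _).one_mem, map_one _⟩
  | mul x y _ _ hx hy =>
    obtain ⟨g, hg, rfl⟩ := hx
    obtain ⟨g', hg', rfl⟩ := hy
    exact ⟨g * g', (FS _).mul_mem hg hg', map_mul _ _ _⟩
  | inv x _ hx =>
    obtain ⟨g, hg, rfl⟩ := hx
    exact ⟨g⁻¹, (FS _).inv_mem hg, map_inv _ _⟩

theorem sh_norm {f : FreeGroup L'.X} (hf : f ∈ FS s.SA) : (s.sh f).norm = f.norm := by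
  unfold FreeGroup.norm
  rw [s.sh_toWord hf, List.length_map]

theorem sh_fb {f g : FreeGroup L'.X} (hf : f ∈ FS s.SA) (h : FB 1 g f) :
    FB 1 (s.sh g) (s.sh f) := by
  have hg : g ∈ FS s.SA := qd_fb_mem hf h
  have hg' : g⁻¹ * f ∈ FS s.SA := (FS _).mul_mem ((FS _).inv_mem hg) hf
  have e := FHP.fb_one h
  unfold FB
  rw [inv_one, one_mul, one_mul, ← map_inv, ← map_mul, s.sh_norm hg, s.sh_norm hg', s.sh_norm hf]
  exact e

theorem sh_fb' {f g' : FreeGroup L'.X} (hf : f ∈ FS s.SA) (h : FB 1 g' (s.sh f)) :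
    ∃ g, FB 1 g f ∧ s.sh g = g' := by
  have h1 : g'.norm ≤ f.norm := by rw [← s.sh_norm hf]; exact h.norm_le
  obtain ⟨g, hg, hn⟩ := FHP.exists_fb f h1
  refine ⟨g, hg, ?_⟩
  refine (cay_btw.2 (s.sh_fb hf hg)).unique cay_acyclic (cay_btw.2 h) ?_
  rw [cay_dist, cay_dist, inv_one, one_mul, one_mul, s.sh_norm (qd_fb_mem hf hg), hn]

theorem sh_out {f : FreeGroup L'.X} (hf : f ∈ FS s.SA) (a : L.X) :
    Out (s.SN a) (s.sh f) ↔ Out (s.SN a) f := by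
  rw [out_iff, out_iff, s.sh_toWord hf, List.head?_map]
  have h1 := mem_FS_iff.1 hf
  constructor
  · intro h x hx hS
    have hx' := h1 x (List.mem_of_mem_head? hx)
    refine h (s.sg x.1, x.2) (Option.mem_map_of_mem _ hx) ?_
    change s.pr (s.sg x.1) ≠ a
    rw [s.pr_sg _ hx']
    exact hS
  · intro h x hx hS
    obtain ⟨y, hy, rfl⟩ := Option.mem_map.1 hx
    have hy' := h1 y (List.mem_of_mem_head? hy)
    refine h y hy ?_
    change s.pr (s.sg y.1) ≠ a at hS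
    rwa [s.pr_sg _ hy'] at hS

theorem sh_mem_N {f : FreeGroup L'.X} (hf : f ∈ FS s.SA) (a : L.X) :
    s.sh f ∈ FS (s.SN a) ↔ f ∈ FS (s.SN a) := by
  rw [mem_FS_iff, mem_FS_iff, s.sh_toWord hf]
  have h1 := mem_FS_iff.1 hf
  constructor
  · intro h x hx
    have := h (s.sg x.1, x.2) (List.mem_map.2 ⟨x, hx, rfl⟩)
    change s.pr (s.sg x.1) ≠ a at this
    rwa [s.pr_sg _ (h1 x hx)] at this
  · intro h x hx
    obtain ⟨y, hy, rfl⟩ := List.mem_map.1 hx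
    change s.pr (s.sg y.1) ≠ a
    rw [s.pr_sg _ (h1 y hy)]
    exact h y hy

theorem mem_B_iff (g : L.G) : g ∈ s.M' s.SB ↔ s.t * g * s.t⁻¹ ∈ s.M' s.SA := by
  rw [mem_M', mem_M']
  constructor
  · rintro ⟨f, hf, rfl⟩
    obtain ⟨g, hg, rfl⟩ := s.sh_surj hf
    refine ⟨g, hg, ?_⟩
    rw [← s.conj_w hg]; group
  · rintro ⟨f, hf, he⟩
    refine ⟨s.sh f, s.sh_mem hf, ?_⟩
    rw [← s.conj_w hf, he]; group

theorem vx_eq_iff {g g' : L.G} : s.vx g = s.vx g' ↔ ∃ h, g' = g * s.j h := by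
  rw [QuotientGroup.eq]
  constructor
  · rintro ⟨h, hh⟩; exact ⟨h, by rw [hh]; group⟩
  · rintro ⟨h, rfl⟩; exact ⟨h, by group⟩

theorem ed_eq_iff {g g' : L.G} : s.ed g = s.ed g' ↔ ∃ f ∈ FS s.SA, g' = g * s.w f := by
  rw [QuotientGroup.eq, mem_M']
  constructor
  · rintro ⟨f, hf, hh⟩; exact ⟨f, hf, by rw [hh]; group⟩
  · rintro ⟨f, hf, rfl⟩; exact ⟨f, hf, by group⟩

theorem mem_M'_conj (g : L.G) : s.t⁻¹ * g * s.t ∈ s.M' s.SB ↔ g ∈ s.M' s.SA := by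
  rw [mem_B_iff, show s.t * (s.t⁻¹ * g * s.t) * s.t⁻¹ = g by group]

theorem ed_eq_iff_B {g g' : L.G} :
    s.ed g = s.ed g' ↔ ∃ f ∈ FS s.SB, g' * s.t = g * s.t * s.w f := by
  rw [QuotientGroup.eq, ← s.mem_M'_conj, mem_M']
  constructor
  · rintro ⟨f, hf, hh⟩; exact ⟨f, hf, by rw [hh]; group⟩
  · rintro ⟨f, hf, hh⟩
    refine ⟨f, hf, ?_⟩
    rw [mul_assoc, mul_assoc, hh]; group

theorem smul_vx (g x : L.G) : g • s.vx x = s.vx (g * x) := rfl

theorem smul_ed (g x : L.G) : g • s.ed x = s.ed (g * x) := rfl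

theorem smul_src (g : L.G) (e : s.Ed) : s.src (g • e) = g • s.src e := by
  obtain ⟨x, rfl⟩ := QuotientGroup.mk_surjective e
  rfl

theorem smul_tgt (g : L.G) (e : s.Ed) : s.tgt (g • e) = g • s.tgt e := by
  obtain ⟨x, rfl⟩ := QuotientGroup.mk_surjective e
  change s.vx (g * x * s.t) = s.vx (g * (x * s.t))
  rw [mul_assoc]

theorem stab_ed (g : L.G) : MulAction.stabilizer L.G (s.ed g) = cj g (s.M' s.SA) :=
  stabilizer_coe g _

theorem stab_ed_B (g : L.G) :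
    MulAction.stabilizer L.G (s.ed g) = cj (g * s.t) (s.M' s.SB) := by
  ext x
  rw [stab_ed, mem_cj, mem_cj, ← s.mem_M'_conj]
  rw [show (g * s.t)⁻¹ * x * (g * s.t) = s.t⁻¹ * (g⁻¹ * x * g) * s.t by group]

theorem isFree_stab (e : s.Ed) : IsFreeGroup (MulAction.stabilizer L.G e) := by
  obtain ⟨x, rfl⟩ := QuotientGroup.mk_surjective e
  have := s.stab_ed x
  change MulAction.stabilizer L.G (x : s.Ed) = _ at this
  rw [this]
  exact isFree_cj _ (isFree_range _ (s.bS_inj s.adm_A))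

end St
end CPOR
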