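import Pool.Agent.P.MP_2cb329_al.FG

/-! Chains on Schreier graphs. -/

set_option autoImplicit false

namespace CPOR

open FreeGroup

/-- A right action of the free group. -/
structure RA (X Z : Type) where
  mv : Z → FreeGroup X → Z
  mv_one : ∀ z, mv z 1 = z
  mv_mul : ∀ z f g, mv z (f * g) = mv (mv z f) g

/-- Letter at a position. -/
def ltr {X : Type} (u : List (X × Bool)) (i : Fin u.length) : X := (u.get i).1

/-- Index of the start vertex of the (positively oriented) edge at position `i`. -/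
def stp {X : Type} (u : List (X × Bool)) (i : Fin u.length) : ℕ :=
  if (u.get i).2 then i else i + 1

/-- Index of the end vertex of the (positively oriented) edge at position `i`. -/
def enp {X : Type} (u : List (X × Bool)) (i : Fin u.length) : ℕ :=
  if (u.get i).2 then i + 1 else i

/-- Initial segment of length `v`. -/
def seg {X : Type} (u : List (X × Bool)) (v : ℕ) : FreeGroup X := FreeGroup.mk (u.take v)

/-- Sign at a position. -/
def sgn {X : Type} (u : List (X × Bool)) (i : Fin u.length) : ℚ := if (u.get i).2 then 1 else -1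

theorem ch_mk_single_true {X : Type} (x : X) : FreeGroup.mk [(x, true)] = FreeGroup.of x := rfl

theorem ch_mk_single_false {X : Type} (x : X) :
    FreeGroup.mk [(x, false)] = (FreeGroup.of x)⁻¹ := by
  rw [← ch_mk_single_true, FreeGroup.inv_mk]; rfl

theorem ch_seg_succ {X : Type} (u : List (X × Bool)) (i : Fin u.length) :
    seg u (i + 1) = seg u i * FreeGroup.mk [u.get i] := by
  unfold seg
  rw [FreeGroup.mul_mk, List.take_add_one, List.getElem?_eq_getElem i.2]
  rfl

theorem ch_seg_zero {X : Type} (u : List (X × Bool)) : seg u 0 = 1 := rfl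

theorem ch_seg_cons_succ {X : Type} (a : X × Bool) (u : List (X × Bool)) (v : ℕ) :
    seg (a :: u) (v + 1) = FreeGroup.mk [a] * seg u v := by
  unfold seg
  rw [FreeGroup.mul_mk]; rfl

theorem ch_finrank_inf_ker_add {M N : Type*} [AddCommGroup M] [Module ℚ M] [AddCommGroup N]
    [Module ℚ N] (f : M →ₗ[ℚ] N) (W : Submodule ℚ M) [FiniteDimensional ℚ W] :
    Module.finrank ℚ (W.map f) + Module.finrank ℚ (W ⊓ LinearMap.ker f : Submodule ℚ M) =
      Module.finrank ℚ W := by
  have h := LinearMap.finrank_range_add_finrank_ker (f.domRestrict W)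
  rw [LinearMap.range_domRestrict, LinearMap.ker_domRestrict,
    ← Submodule.finrank_map_subtype_eq, Submodule.map_comap_subtype] at h
  exact h

theorem ch_finiteDimensional_supported {α : Type*} (E : Finset α) :
    FiniteDimensional ℚ (Finsupp.supported ℚ ℚ (E : Set α)) :=
  (Finsupp.supportedEquivFinsupp (R := ℚ) (M := ℚ) (E : Set α)).symm.finiteDimensional

theorem ch_finrank_supported {α : Type*} (E : Finset α) :
    Module.finrank ℚ (Finsupp.supported ℚ ℚ (E : Set α)) = E.card := by
  rw [(Finsupp.supportedEquivFinsupp (R := ℚ) (M := ℚ) (E : Set α)).finrank_eq,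
    Module.finrank_finsupp_self]
  simp

theorem seg_stp_mul {X : Type} (u : List (X × Bool)) (i : Fin u.length) :
    seg u (stp u i) * FreeGroup.of (ltr u i) = seg u (enp u i) := by
  have h := ch_seg_succ u i
  unfold stp enp ltr
  rcases hu : u.get i with ⟨x, b⟩
  rw [hu] at h
  cases b
  · simp only [Bool.false_eq_true, if_false]
    rw [h, ch_mk_single_false]; simp
  · simp only [if_true]
    rw [h, ch_mk_single_true]

namespace RA

variable {X Z : Type} (R : RA X Z)

/-- The action on a group through a homomorphism. -/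
def ofHom {Γ : Type} [Group Γ] (π : FreeGroup X →* Γ) : RA X Γ where
  mv z f := z * π f
  mv_one z := by simp
  mv_mul z f g := by simp [mul_assoc]

/-- The action on right cosets `K g`. -/
def coset {Γ : Type} [Group Γ] (π : FreeGroup X →* Γ) (K : Subgroup Γ) :
    RA X (Quotient (QuotientGroup.rightRel K)) where
  mv z f := Quotient.map' (fun g => g * π f) (fun a b h => by
    rw [QuotientGroup.rightRel_apply] at h ⊢
    simpa [mul_assoc] using h) z
  mv_one z := by induction z using Quotient.inductionOn'; simp [Quotient.map'_mk'']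
  mv_mul z f g := by induction z using Quotient.inductionOn'; simp [Quotient.map'_mk'', mul_assoc]

/-- The chain of the path that reads the list `l` from `z`. -/
noncomputable def DL : Z → List (X × Bool) → (Z × X →₀ ℚ)
  | _, [] => 0
  | z, (x, true) :: l => Finsupp.single (z, x) 1 + DL (R.mv z (FreeGroup.of x)) l
  | z, (x, false) :: l =>
      - Finsupp.single (R.mv z (FreeGroup.of x)⁻¹, x) 1 + DL (R.mv z (FreeGroup.of x)⁻¹) l

/-- The chain of a group element. -/
noncomputable def D [DecidableEq X] (z : Z) (f : FreeGroup X) : Z × X →₀ ℚ := R.DL z f.toWord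

/-- The boundary map. -/
noncomputable def bd : (Z × X →₀ ℚ) →ₗ[ℚ] (Z →₀ ℚ) :=
  Finsupp.lsum ℚ fun e => LinearMap.toSpanSingleton ℚ _
    (Finsupp.single (R.mv e.1 (FreeGroup.of e.2)) (1 : ℚ) - Finsupp.single e.1 1)

/-- Cycles supported on a finite set of edges. -/
noncomputable def Z1 (E : Finset (Z × X)) : Submodule ℚ (Z × X →₀ ℚ) :=
  Finsupp.supported ℚ ℚ (E : Set (Z × X)) ⊓ LinearMap.ker R.bd

/-- A finite subgraph. -/
def Sub (V : Finset Z) (E : Finset (Z × X)) : Prop :=
  ∀ e ∈ E, e.1 ∈ V ∧ R.mv e.1 (FreeGroup.of e.2) ∈ V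

theorem bd_single (z : Z) (x : X) (c : ℚ) : R.bd (Finsupp.single (z, x) c) =
    Finsupp.single (R.mv z (FreeGroup.of x)) c - Finsupp.single z c := by
  simp [bd, smul_sub]

theorem DL_append (z : Z) (l l' : List (X × Bool)) :
    R.DL z (l ++ l') = R.DL z l + R.DL (R.mv z (FreeGroup.mk l)) l' := by
  induction l generalizing z with
  | nil => simp [DL, ← FreeGroup.one_eq_mk, R.mv_one]
  | cons a l ih =>
    have hm : FreeGroup.mk (a :: l) = FreeGroup.mk [a] * FreeGroup.mk l := by
      rw [FreeGroup.mul_mk]; rfl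
    rcases a with ⟨x, b⟩
    cases b
    · rw [hm, ch_mk_single_false, R.mv_mul]
      simp only [List.cons_append, DL, ih, add_assoc]
    · rw [hm, ch_mk_single_true, R.mv_mul]
      simp only [List.cons_append, DL, ih, add_assoc]

theorem DL_eq_sum (z : Z) (l : List (X × Bool)) :
    R.DL z l = ∑ i : Fin l.length,
      Finsupp.single (R.mv z (seg l (stp l i)), ltr l i) (sgn l i) := by
  induction l generalizing z with
  | nil => simp [DL]
  | cons a l ih =>
    have hst : ∀ i : Fin l.length, stp (a :: l) i.succ = stp l i + 1 := by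
      intro i
      unfold stp
      simp only [List.get_eq_getElem, Fin.val_succ, List.getElem_cons_succ]
      split_ifs <;> rfl
    have hrest : ∀ i : Fin l.length,
        Finsupp.single (R.mv z (seg (a :: l) (stp (a :: l) i.succ)), ltr (a :: l) i.succ)
          (sgn (a :: l) i.succ) =
        Finsupp.single (R.mv (R.mv z (FreeGroup.mk [a])) (seg l (stp l i)), ltr l i)
          (sgn l i) := by
      intro i
      rw [hst, ch_seg_cons_succ, R.mv_mul]
      rfl
    have hsum := Fin.sum_univ_succ (n := l.length) fun i : Fin (l.length + 1) =>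
      Finsupp.single (R.mv z (seg (a :: l) (stp (a :: l) i)), ltr (a :: l) i) (sgn (a :: l) i)
    refine Eq.trans ?_ hsum.symm
    rw [Finset.sum_congr rfl fun i _ => hrest i, ← ih]
    rcases a with ⟨x, b⟩
    cases b
    · have h1 : stp ((x, false) :: l) (0 : Fin (l.length + 1)) = 0 + 1 := rfl
      have h2 : ltr ((x, false) :: l) (0 : Fin (l.length + 1)) = x := rfl
      have h3 : sgn ((x, false) :: l) (0 : Fin (l.length + 1)) = -1 := rfl
      rw [h1, h2, h3, ch_seg_cons_succ, ch_seg_zero, mul_one, ch_mk_single_false, Finsupp.single_neg]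
      rfl
    · have h1 : stp ((x, true) :: l) (0 : Fin (l.length + 1)) = 0 := rfl
      have h2 : ltr ((x, true) :: l) (0 : Fin (l.length + 1)) = x := rfl
      have h3 : sgn ((x, true) :: l) (0 : Fin (l.length + 1)) = 1 := rfl
      rw [h1, h2, h3, ch_seg_zero, R.mv_one, ch_mk_single_true]
      rfl

theorem finiteDimensional_Z1 (E : Finset (Z × X)) : FiniteDimensional ℚ (R.Z1 E) := by
  have := ch_finiteDimensional_supported E
  exact Submodule.finiteDimensional_of_le (inf_le_left : R.Z1 E ≤ _)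

theorem Z1_mono {E E' : Finset (Z × X)} (h : E ⊆ E') : R.Z1 E ≤ R.Z1 E' := by
  exact inf_le_inf_right _ (Finsupp.supported_mono (Finset.coe_subset.2 h))

/-- Euler characteristic, lower bound for the cycle space from `q` classes of vertices. -/
theorem euler_ge {ι : Type} {V : Finset Z} {E : Finset (Z × X)} (h : R.Sub V E) (cls : Z → ι)
    (hc : ∀ e ∈ E, cls (R.mv e.1 (FreeGroup.of e.2)) = cls e.1) (q : ℕ) (w : Fin q → Z)
    (hw : ∀ i, w i ∈ V) (hinj : Function.Injective fun i => cls (w i)) :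
    E.card + q ≤ Module.finrank ℚ (R.Z1 E) + V.card := by
  classical
  have := ch_finiteDimensional_supported E
  have := ch_finiteDimensional_supported V
  let Φ : (Z →₀ ℚ) →ₗ[ℚ] (Fin q → ℚ) := Finsupp.lsum ℚ fun z =>
    LinearMap.toSpanSingleton ℚ _ (fun i => if cls z = cls (w i) then (1 : ℚ) else 0)
  have hΦ : ∀ z c, Φ (Finsupp.single z c) =
      c • fun i => if cls z = cls (w i) then (1 : ℚ) else 0 := by
    intro z c
    simp [Φ]
  have h1 := ch_finrank_inf_ker_add R.bd (Finsupp.supported ℚ ℚ (E : Set (Z × X)))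
  have h2 := ch_finrank_inf_ker_add Φ (Finsupp.supported ℚ ℚ (V : Set Z))
  rw [ch_finrank_supported] at h1 h2
  have htop : (Finsupp.supported ℚ ℚ (V : Set Z)).map Φ = ⊤ := by
    rw [eq_top_iff, ← (Pi.basisFun ℚ (Fin q)).span_eq, Submodule.span_le]
    rintro _ ⟨i, rfl⟩
    refine ⟨Finsupp.single (w i) 1, Finsupp.single_mem_supported ℚ _ (hw i), ?_⟩
    rw [hΦ, one_smul]
    funext j
    by_cases hij : i = j
    · subst hij; simp
    · have : cls (w i) ≠ cls (w j) := fun hh => hij (hinj hh)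
      simp [this, Ne.symm hij]
  rw [htop, finrank_top, Module.finrank_fin_fun] at h2
  have hle : (Finsupp.supported ℚ ℚ (E : Set (Z × X))).map R.bd ≤
      Finsupp.supported ℚ ℚ (V : Set Z) ⊓ LinearMap.ker Φ := by
    rw [Finsupp.supported_eq_span_single ℚ (E : Set (Z × X)), Submodule.map_span,
      Submodule.span_le]
    rintro _ ⟨_, ⟨e, he, rfl⟩, rfl⟩
    obtain ⟨z, x⟩ := e
    have he' : (z, x) ∈ E := he
    simp only [bd_single]
    refine ⟨Submodule.sub_mem _ (Finsupp.single_mem_supported ℚ _ (h _ he').2)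
      (Finsupp.single_mem_supported ℚ _ (h _ he').1), ?_⟩
    have := hc _ he'
    simp only at this
    simp only [SetLike.mem_coe, LinearMap.mem_ker, map_sub, hΦ, this, sub_self]
  have h3 := Submodule.finrank_mono hle
  unfold Z1
  omega

/-- Euler characteristic, upper bound for the cycle space from `m` roots. -/
theorem euler_le {V : Finset Z} {E : Finset (Z × X)} (h : R.Sub V E) (m : ℕ) (w : Fin m → Z)
    (hw : ∀ v ∈ V, ∃ i, ∃ c ∈ Finsupp.supported ℚ ℚ (E : Set (Z × X)),
      R.bd c = Finsupp.single v 1 - Finsupp.single (w i) 1) :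
    Module.finrank ℚ (R.Z1 E) + V.card ≤ E.card + m := by
  classical
  have := ch_finiteDimensional_supported E
  have h1 := ch_finrank_inf_ker_add R.bd (Finsupp.supported ℚ ℚ (E : Set (Z × X)))
  rw [ch_finrank_supported] at h1
  let T : Submodule ℚ (Z →₀ ℚ) :=
    Submodule.span ℚ (Set.range fun i : Fin m => Finsupp.single (w i) (1 : ℚ))
  have : FiniteDimensional ℚ T := FiniteDimensional.span_of_finite ℚ (Set.finite_range _)
  have hT : Module.finrank ℚ T ≤ m := by
    have h0 := finrank_range_le_card (R := ℚ) fun i : Fin m => Finsupp.single (w i) (1 : ℚ)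
    rw [Fintype.card_fin] at h0
    exact h0
  have hle : Finsupp.supported ℚ ℚ (V : Set Z) ≤
      (Finsupp.supported ℚ ℚ (E : Set (Z × X))).map R.bd ⊔ T := by
    rw [Finsupp.supported_eq_span_single ℚ (V : Set Z), Submodule.span_le]
    rintro _ ⟨v, hv, rfl⟩
    obtain ⟨i, c, hc, hb⟩ := hw v hv
    have : Finsupp.single v (1 : ℚ) = R.bd c + Finsupp.single (w i) 1 := by
      rw [hb]; simp
    simp only [SetLike.mem_coe]
    rw [this]
    exact Submodule.add_mem_sup ⟨c, hc, rfl⟩ (Submodule.subset_span ⟨i, rfl⟩)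
  have h2 := Submodule.finrank_mono hle
  have h3 := Submodule.finrank_add_le_finrank_add_finrank
    ((Finsupp.supported ℚ ℚ (E : Set (Z × X))).map R.bd) T
  rw [ch_finrank_supported] at h2
  have _ := h
  unfold Z1
  omega

variable [DecidableEq X]

omit [DecidableEq X] in
theorem ch_DL_step (z : Z) {l l' : List (X × Bool)} (h : FreeGroup.Red.Step l l') :
    R.DL z l = R.DL z l' := by
  obtain @⟨l₁, l₂, x, b⟩ := h
  rw [DL_append, DL_append]
  congr 1
  cases b
  · simp only [Bool.not_false, DL, ← R.mv_mul, inv_mul_cancel_right]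
    abel
  · simp only [Bool.not_true, DL, ← R.mv_mul, mul_inv_cancel_right]
    abel

omit [DecidableEq X] in
theorem ch_DL_red (z : Z) {l l' : List (X × Bool)} (h : FreeGroup.Red l l') :
    R.DL z l = R.DL z l' := by
  induction h with
  | refl => rfl
  | tail _ hs ih => exact ih.trans (R.ch_DL_step z hs)

theorem D_mk (z : Z) (l : List (X × Bool)) : R.D z (FreeGroup.mk l) = R.DL z l := by
  unfold D
  rw [FreeGroup.toWord_mk]
  exact (R.ch_DL_red z FreeGroup.reduce.red).symm

theorem D_one (z : Z) : R.D z 1 = 0 := by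
  rw [FreeGroup.one_eq_mk, D_mk]; rfl

theorem D_mul (z : Z) (f g : FreeGroup X) : R.D z (f * g) = R.D z f + R.D (R.mv z f) g := by
  induction f using Quot.inductionOn with
  | _ l =>
  induction g using Quot.inductionOn with
  | _ l' =>
  change R.D z (FreeGroup.mk l * FreeGroup.mk l') =
    R.D z (FreeGroup.mk l) + R.D (R.mv z (FreeGroup.mk l)) (FreeGroup.mk l')
  rw [FreeGroup.mul_mk, D_mk, D_mk, D_mk, DL_append]

theorem D_inv (z : Z) (f : FreeGroup X) : R.D (R.mv z f) f⁻¹ = - R.D z f := by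
  have h := R.D_mul z f f⁻¹
  rw [mul_inv_cancel, D_one] at h
  exact eq_neg_of_add_eq_zero_right h.symm

theorem ch_D_of (z : Z) (x : X) : R.D z (FreeGroup.of x) = Finsupp.single (z, x) 1 := by
  rw [← ch_mk_single_true, D_mk]; simp [DL]

theorem ch_D_of_inv (z : Z) (x : X) : R.D z (FreeGroup.of x)⁻¹ =
    - Finsupp.single (R.mv z (FreeGroup.of x)⁻¹, x) 1 := by
  conv_lhs => rw [← ch_mk_single_false, D_mk]
  simp [DL]

theorem bd_D (z : Z) (f : FreeGroup X) :
    R.bd (R.D z f) = Finsupp.single (R.mv z f) 1 - Finsupp.single z 1 := by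
  induction f using FreeGroup.induction_on generalizing z with
  | C1 => simp [D_one, R.mv_one]
  | of x => rw [ch_D_of, bd_single]
  | inv_of x _ =>
    rw [ch_D_of_inv, map_neg, bd_single, ← R.mv_mul, inv_mul_cancel, R.mv_one, neg_sub]
  | mul f g hf hg => rw [D_mul, map_add, hf, hg, R.mv_mul]; abel

/-- Edges in the support of a chain: both end points lie on the reduced path. -/
theorem mem_support_D {z : Z} {f : FreeGroup X} {e : Z × X} (h : e ∈ (R.D z f).support) :
    (∃ b, (e.2, b) ∈ f.toWord) ∧ (∃ g, FB 1 g f ∧ e.1 = R.mv z g) ∧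
      ∃ g, FB 1 g f ∧ R.mv e.1 (FreeGroup.of e.2) = R.mv z g := by
  classical
  unfold D at h
  rw [DL_eq_sum] at h
  obtain ⟨i, -, hi⟩ := Finset.mem_biUnion.1 (Finsupp.support_finsetSum h)
  have he : e = (R.mv z (seg f.toWord (stp f.toWord i)), ltr f.toWord i) :=
    Finset.mem_singleton.1 (Finsupp.support_single_subset hi)
  have hlt : (i : ℕ) < f.norm := i.2
  refine ⟨⟨(f.toWord.get i).2, ?_⟩, ⟨seg f.toWord (stp f.toWord i), ?_, by rw [he]⟩,
    seg f.toWord (enp f.toWord i), ?_, ?_⟩
  · rw [he]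
    exact List.get_mem _ _
  · refine fb_one_iff.2 ⟨stp f.toWord i, ?_, rfl⟩
    unfold stp; split_ifs <;> omega
  · refine fb_one_iff.2 ⟨enp f.toWord i, ?_, rfl⟩
    unfold enp; split_ifs <;> omega
  · rw [he, ← seg_stp_mul, R.mv_mul]

theorem D_map {Z' : Type} (R' : RA X Z') (h : Z → Z') (hh : ∀ z f, h (R.mv z f) = R'.mv (h z) f)
    (z : Z) (f : FreeGroup X) :
    R'.D (h z) f = Finsupp.mapDomain (fun e : Z × X => (h e.1, e.2)) (R.D z f) := by
  induction f using FreeGroup.induction_on generalizing z with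
  | C1 => simp [D_one]
  | of x => rw [ch_D_of, ch_D_of, Finsupp.mapDomain_single]
  | inv_of x _ =>
    rw [ch_D_of_inv, ch_D_of_inv, ← hh, ← Finsupp.single_neg, ← Finsupp.single_neg,
      Finsupp.mapDomain_single]
  | mul f g hf hg => rw [D_mul, D_mul, Finsupp.mapDomain_add, ← hh, hf, hg]

/-- In a transitive action all cycles come from generators of the stabiliser. -/
theorem cycle_mem_span {ι : Type} (z₀ : Z) (htr : ∀ z, ∃ f, R.mv z₀ f = z)
    (gen : ι → FreeGroup X) (hgen : ∀ i, R.mv z₀ (gen i) = z₀)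
    (hcl : ∀ f, R.mv z₀ f = z₀ → f ∈ Subgroup.closure (Set.range gen))
    {c : Z × X →₀ ℚ} (hc : R.bd c = 0) :
    c ∈ Submodule.span ℚ (Set.range fun i => R.D z₀ (gen i)) := by
  choose F hF using htr
  set Sp := Submodule.span ℚ (Set.range fun i => R.D z₀ (gen i)) with hSp
  have hloop : ∀ f, f ∈ Subgroup.closure (Set.range gen) →
      R.mv z₀ f = z₀ ∧ R.D z₀ f ∈ Sp := by
    intro f hf
    induction hf using Subgroup.closure_induction with
    | mem x hx =>
      obtain ⟨i, rfl⟩ := hx
      exact ⟨hgen i, Submodule.subset_span ⟨i, rfl⟩⟩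
    | one => exact ⟨R.mv_one _, by rw [D_one]; exact Sp.zero_mem⟩
    | mul x y _ _ hx hy =>
      refine ⟨by rw [R.mv_mul, hx.1, hy.1], ?_⟩
      rw [D_mul, hx.1]
      exact Sp.add_mem hx.2 hy.2
    | inv x _ hx =>
      refine ⟨?_, ?_⟩
      · conv_lhs => rw [← hx.1, ← R.mv_mul, mul_inv_cancel, R.mv_one]
      · have := R.D_inv z₀ x
        rw [hx.1] at this
        rw [this]
        exact Sp.neg_mem hx.2
  let P : (Z →₀ ℚ) →ₗ[ℚ] (Z × X →₀ ℚ) :=
    Finsupp.lsum ℚ fun z => LinearMap.toSpanSingleton ℚ _ (R.D z₀ (F z))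
  have hP : ∀ z a, P (Finsupp.single z a) = a • R.D z₀ (F z) := by
    intro z a
    simp [P]
  have key : ∀ c : Z × X →₀ ℚ, c - P (R.bd c) ∈ Sp := by
    intro c
    induction c using Finsupp.induction_linear with
    | zero => simp
    | add f g hf hg =>
      have : f + g - P (R.bd (f + g)) = (f - P (R.bd f)) + (g - P (R.bd g)) := by
        simp only [map_add]; abel
      rw [this]
      exact Sp.add_mem hf hg
    | single e a =>
      obtain ⟨z, x⟩ := e
      have hz : R.mv z₀ (F z * FreeGroup.of x) = R.mv z₀ (F (R.mv z (FreeGroup.of x))) := by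
        rw [R.mv_mul, hF, hF]
      have hl : R.mv z₀ (F z * FreeGroup.of x * (F (R.mv z (FreeGroup.of x)))⁻¹) = z₀ := by
        rw [R.mv_mul, hz, ← R.mv_mul, mul_inv_cancel, R.mv_one]
      have hm := (hloop _ (hcl _ hl)).2
      rw [D_mul, D_mul, hz, D_inv, hF, ch_D_of] at hm
      have : Finsupp.single (z, x) a - P (R.bd (Finsupp.single (z, x) a)) =
          a • (R.D z₀ (F z) + Finsupp.single (z, x) 1 +
            - R.D z₀ (F (R.mv z (FreeGroup.of x)))) := by
        rw [bd_single, map_sub, hP, hP, smul_add, smul_add, Finsupp.smul_single, smul_eq_mul,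
          mul_one, smul_neg]
        abel
      rw [this]
      exact Sp.smul_mem a hm
  have := key c
  rwa [hc, map_zero, sub_zero] at this

/-- A homomorphism on the loops over `S` is given by a cochain. -/
theorem exists_cochain (z₀ : Z) (S : Set X) (χ : FreeGroup X → ℚ)
    (hχ : ∀ f ∈ FS S, ∀ g ∈ FS S, R.mv z₀ f = z₀ → R.mv z₀ g = z₀ → χ (f * g) = χ f + χ g) :
    ∃ lam : (Z × X →₀ ℚ) →ₗ[ℚ] ℚ, ∀ f ∈ FS S, R.mv z₀ f = z₀ → lam (R.D z₀ f) = χ f := by
  classical
  have hex : ∀ z, ∃ f ∈ FS S, ((∃ g ∈ FS S, R.mv z₀ g = z) → R.mv z₀ f = z) ∧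
      (z = z₀ → f = 1) := by
    intro z
    by_cases hz : z = z₀
    · exact ⟨1, (FS S).one_mem, fun _ => by rw [R.mv_one, hz], fun _ => rfl⟩
    · by_cases hg : ∃ g ∈ FS S, R.mv z₀ g = z
      · obtain ⟨g, hg1, hg2⟩ := hg
        exact ⟨g, hg1, fun _ => hg2, fun h => absurd h hz⟩
      · exact ⟨1, (FS S).one_mem, fun h => absurd h hg, fun _ => rfl⟩
  choose F hFS hF hF0 using hex
  let lam : (Z × X →₀ ℚ) →ₗ[ℚ] ℚ := Finsupp.lsum ℚ fun e => LinearMap.toSpanSingleton ℚ _
    (χ (F e.1 * FreeGroup.of e.2 * (F (R.mv e.1 (FreeGroup.of e.2)))⁻¹))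
  have hlam : ∀ z x, lam (Finsupp.single (z, x) 1) =
      χ (F z * FreeGroup.of x * (F (R.mv z (FreeGroup.of x)))⁻¹) := by
    intro z x
    simp [lam]
  have hFg : ∀ g ∈ FS S, R.mv z₀ (F (R.mv z₀ g)) = R.mv z₀ g := fun g hg => hF _ ⟨g, hg, rfl⟩
  have hback : ∀ g k, R.mv z₀ g = R.mv z₀ k → R.mv z₀ (g * k⁻¹) = z₀ := by
    intro g k h
    rw [R.mv_mul, h, ← R.mv_mul, mul_inv_cancel, R.mv_one]
  have hstep : ∀ g ∈ FS S, ∀ x ∈ S,
      χ (g * FreeGroup.of x * (F (R.mv z₀ (g * FreeGroup.of x)))⁻¹) =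
        χ (g * (F (R.mv z₀ g))⁻¹) + lam (Finsupp.single (R.mv z₀ g, x) 1) := by
    intro g hg x hx
    have hxS : FreeGroup.of x ∈ FS S := Subgroup.subset_closure ⟨x, hx, rfl⟩
    rw [hlam, ← hχ _ ((FS S).mul_mem hg ((FS S).inv_mem (hFS _))) _
      ((FS S).mul_mem ((FS S).mul_mem (hFS _) hxS) ((FS S).inv_mem (hFS _)))
      (hback _ _ (hFg g hg).symm) (hback _ _ ?_), R.mv_mul]
    · congr 1
      group
    · rw [← R.mv_mul, hFg _ ((FS S).mul_mem hg hxS), R.mv_mul, R.mv_mul, hFg g hg]
  have hone : χ 1 = 0 := by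
    have := hχ 1 (FS S).one_mem 1 (FS S).one_mem (R.mv_one _) (R.mv_one _)
    rw [mul_one] at this
    linarith
  have key : ∀ f ∈ FS S, lam (R.D z₀ f) = χ (f * (F (R.mv z₀ f))⁻¹) := by
    intro f hf
    induction hf using Subgroup.closure_induction_right with
    | one => rw [D_one, map_zero, R.mv_one, hF0 _ rfl, inv_one, mul_one, hone]
    | mul_right g hg y hy ih =>
      obtain ⟨x, hx, rfl⟩ := hy
      rw [D_mul, map_add, ih, ch_D_of, hstep g hg x hx]
    | mul_inv_cancel g hg y hy ih =>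
      obtain ⟨x, hx, rfl⟩ := hy
      have hxS : FreeGroup.of x ∈ FS S := Subgroup.subset_closure ⟨x, hx, rfl⟩
      have h2 := hstep (g * (FreeGroup.of x)⁻¹) ((FS S).mul_mem hg ((FS S).inv_mem hxS)) x hx
      rw [inv_mul_cancel_right] at h2
      rw [D_mul, map_add, ih, ch_D_of_inv, map_neg, ← R.mv_mul, h2]
      ring
  refine ⟨lam, fun f hf h0 => ?_⟩
  rw [key f hf, h0, hF0 _ rfl, inv_one, mul_one]

end RA

end CPOR
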