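import Pool.Agent.P.MP_2cb329_al.CIS1

/-! Conjugacy into a Magnus subgroup: the step. -/

set_option autoImplicit false

namespace CPOR

theorem Lv.fix_om_iff (L : Lv) (a : L.X) (u g : L.G) :
    u • L.om a g = L.om a g ↔ g⁻¹ * u * g ∈ MS L.π ({a}ᶜ : Set L.X) := by
  rw [← MulAction.mem_stabilizer_iff, stabilizer_coe, mem_cj]

namespace St

section Aux

variable {L L' : Lv} (s : St L L')

theorem cis_inv {a : L.X} {u : L.G} {ω : L.Om a} (hu : u • ω = ω) (x : s.Vt) :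
    u • x ∈ {v | s.InV ω v} ↔ x ∈ {v | s.InV ω v} := by
  constructor
  · intro h
    have h2 := InV.smul s h u⁻¹
    rw [inv_smul_smul, inv_smul_eq_iff.2 hu.symm] at h2
    exact h2
  · intro h
    have h2 := InV.smul s h u
    rw [hu] at h2
    exact h2

theorem cis_inf {S : Set L'.X} (hS : L'.Adm S) {c : L'.G} (hc : c ∈ MS L'.π S) (h1 : c ≠ 1) :
    ¬ IsOfFinOrder (s.j c) := fun h =>
  not_finOrder_MS (L'.free hS) hc h1 ((s.j_inj.isOfFinOrder_iff).1 h)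

/-- The case of a small fixed vertex that lies in the subtree. -/
theorem cis_vertex (hH : L'.Cl) {a : L.X} (ha : L.Occ a) : ∃ F, Bd F ∧
    ∀ (n : ℕ) (u : L.G) (ω : L.Om a) (v : s.Vt), len L.π u ≤ n → s.SmV n v → u • v = v →
      u • ω = ω → s.InV ω v → ∃ g, u • L.om a g = L.om a g ∧ len L.π g ≤ F n := by
  obtain ⟨C, hC⟩ := s.lip_j
  obtain ⟨FH, bH, hFH⟩ := s.memH hH
  obtain ⟨Fc, bc, hFc⟩ := hH.ci _ (s.adm_N ha)
  refine ⟨fun n => n + C * Fc (FH (n + n + n)),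
    Bd.id.add ((Bd.const C).mul (bc.comp (bH.comp ((Bd.id.add Bd.id).add Bd.id)))), ?_⟩
  rintro n u ω v hn ⟨γ, rfl, hγ⟩ hv hω ⟨g, rfl, hg⟩
  obtain ⟨h0, hh0⟩ := s.vx_eq_iff.1 (show s.vx γ = s.vx (u * γ) from hv.symm)
  obtain ⟨h, rfl⟩ := s.vx_eq_iff.1 hg.symm
  have hu : u = γ * s.j h0 * γ⁻¹ := by rw [← hh0]; group
  have hst : u ∈ MulAction.stabilizer L.G (L.om a (γ * s.j h), s.vx (γ * s.j h)) := by
    rw [MulAction.mem_stabilizer_iff, Prod.smul_mk, hω, hg, hv]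
  rw [s.stab_ov ha, mem_cj, M'_eq] at hst
  obtain ⟨y, hy, hye⟩ := hst
  have hy2 : y = h⁻¹ * h0 * h := by
    apply s.j_inj
    rw [hye, hu, map_mul, map_mul, map_inv]
    group
  subst hy2
  obtain ⟨h', hh', hl⟩ := hFc h0 h hy
  have hl0 : len L.π (s.j h0) ≤ n + n + n := by
    have : s.j h0 = γ⁻¹ * u * γ := by rw [hu]; group
    rw [this]
    refine (len_mul3 L.surj _ _ _).trans ?_
    rw [len_inv L.surj]
    omega
  refine ⟨γ * s.j h', ?_, ?_⟩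
  · rw [Lv.fix_om_iff]
    apply s.N_le_Ma ha
    rw [M'_eq]
    refine ⟨_, hh', ?_⟩
    rw [hu, map_mul, map_mul, map_inv]
    group
  · refine (len_mul L.surj _ _).trans (Nat.add_le_add hγ ((hC h').trans ?_))
    exact Nat.mul_le_mul_left _ (hl.trans (bc.mono ((hFH h0).trans (bH.mono hl0))))

/-- A coset that meets two different small cosets in one vertex has a small point. -/
theorem cis_turn (hH : L'.Cl) {a : L.X} (ha : L.Occ a) {S : Set L'.X}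
    (hS : L'.Adm (S ∪ s.SN a)) : ∃ F, Bd F ∧
    ∀ (n : ℕ) (y y' : L.G) (f f' : FreeGroup L'.X), len L.π y ≤ n → len L.π y' ≤ n →
      s.vx y = s.vx y' → (∀ k ∈ FS S, y' ≠ y * s.w k) → f ∈ FS S → f' ∈ FS S →
      L.om a (y * s.w f) = L.om a (y' * s.w f') →
      ∃ g, L.om a g = L.om a (y * s.w f) ∧ len L.π g ≤ F n := by
  obtain ⟨C, hC⟩ := s.lip_j
  obtain ⟨FH, bH, hFH⟩ := s.memH hH
  obtain ⟨Ft, bt, hFt⟩ := Lv.turn_H hH hS
  refine ⟨fun n => n + C * Ft (FH (n + n)),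
    Bd.id.add ((Bd.const C).mul (bt.comp (bH.comp (Bd.id.add Bd.id)))), ?_⟩
  intro n y y' f f' hy hy' hv hne hf hf' hom
  obtain ⟨h, rfl⟩ := s.vx_eq_iff.1 hv
  have hv2 : s.vx (y * s.w f) = s.vx (y * s.j h * s.w f') := by
    refine s.vx_eq_iff.2 ⟨(L'.π f)⁻¹ * h * L'.π f', ?_⟩
    simp only [w, MonoidHom.comp_apply, map_mul, map_inv]
    group
  obtain ⟨nu, hnu, he⟩ := s.ov_eq ha hom hv2
  have he2 : L'.π f * L'.π nu = h * L'.π f' := by
    apply s.j_inj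
    simp only [w, MonoidHom.comp_apply] at he
    rw [map_mul, map_mul]
    apply mul_left_cancel (a := y)
    rw [← mul_assoc, ← mul_assoc, he]
  have hl : len L'.π h ≤ FH (n + n) := by
    refine (hFH h).trans (bH.mono ?_)
    have : s.j h = y⁻¹ * (y * s.j h) := by group
    rw [this]
    refine (len_mul L.surj _ _).trans ?_
    rw [len_inv L.surj]
    omega
  have hh : h ∉ MS L'.π S := by
    rintro ⟨k, hk, rfl⟩
    exact hne k hk rfl
  obtain ⟨ν', ⟨k, hk, rfl⟩, hl2⟩ := hFt _ h (L'.π nu) (L'.π f) (L'.π f') hl hh ⟨nu, hnu, rfl⟩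
    ⟨f, hf, rfl⟩ ⟨f', hf', rfl⟩ he2
  refine ⟨y * s.w f * s.w k, s.om_mul_w ha _ hk, ?_⟩
  have : y * s.w f * s.w k = y * s.j (L'.π f * L'.π k) := by
    simp only [w, MonoidHom.comp_apply, map_mul, mul_assoc]
  rw [this]
  exact (len_mul L.surj _ _).trans
    (Nat.add_le_add hy ((hC _).trans (Nat.mul_le_mul_left _ hl2)))

/-- At a turn between two small edges the coset has a small point. -/
theorem cis_turn2 (hH : L'.Cl) {a : L.X} (ha : L.Occ a) : ∃ F, Bd F ∧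
    ∀ (n : ℕ) (ω : L.Om a) (e e' : s.Ed), s.SmE n e → s.SmE n e' → e ≠ e' →
      (s.src e = s.src e' ∨ s.tgt e = s.tgt e') → s.InE ω e → s.InE ω e' →
      ∃ g, L.om a g = ω ∧ len L.π g ≤ F n := by
  obtain ⟨FA, bA, hA⟩ := s.cis_turn hH ha (s.adm_A_N ha)
  obtain ⟨FB', bB, hB⟩ := s.cis_turn hH ha (s.adm_B_N ha)
  refine ⟨fun n => FA n + FB' (n + len L.π s.t),
    bA.add (bB.comp (Bd.id.add (Bd.const _))), ?_⟩
  rintro n ω e e' ⟨x, rfl, hx⟩ ⟨x', rfl, hx'⟩ hne ht ⟨p, rfl, hp⟩ ⟨p', hp1, hp'⟩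
  rcases ht with ht | ht
  · obtain ⟨f, hf, rfl⟩ := s.ed_eq_iff.1 hp.symm
    obtain ⟨f', hf', rfl⟩ := s.ed_eq_iff.1 hp'.symm
    obtain ⟨g, hg, hl⟩ := hA n x x' f f' hx hx' ht
      (fun k hk e => hne (s.ed_eq_iff.2 ⟨k, hk, e⟩)) hf hf' hp1.symm
    exact ⟨g, hg, hl.trans (Nat.le_add_right _ _)⟩
  · obtain ⟨f, hf, h1⟩ := s.ed_eq_iff_B.1 hp.symm
    obtain ⟨f', hf', h2⟩ := s.ed_eq_iff_B.1 hp'.symm
    obtain ⟨g, hg, hl⟩ := hB (n + len L.π s.t) (x * s.t) (x' * s.t) f f'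
      ((len_mul L.surj _ _).trans (Nat.add_le_add_right hx _))
      ((len_mul L.surj _ _).trans (Nat.add_le_add_right hx' _)) ht
      (fun k hk e => hne (s.ed_eq_iff_B.2 ⟨k, hk, e⟩)) hf hf'
      (by rw [← h1, ← h2, s.om_mul_t ha, s.om_mul_t ha, hp1])
    refine ⟨g, ?_, hl.trans (Nat.le_add_left _ _)⟩
    rw [hg, ← h1, s.om_mul_t ha]

/-- `p` is the projection to `ω` of a small point of the edge `e`. -/
def CisPr {a : L.X} (B : ℕ) (ω : L.Om a) (e : s.Ed) (p : L.G) : Prop :=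
  ∃ r, L.om a p = ω ∧ r ∈ FS s.SA ∧ Out (s.SN a) r ∧ s.ed (p * s.w r) = e ∧
    len L.π (p * s.w r) ≤ B

theorem cis_step (hH : L'.Cl) {a : L.X} (ha : L.Occ a) : ∃ F, Bd F ∧
    ∀ (B : ℕ) (ω : L.Om a) (e e' : s.Ed) (p p' : L.G), s.CisPr B ω e p → s.CisPr B ω e' p' →
      (s.tgt e = s.src e' ∨ s.tgt e' = s.src e) → len L.π (p⁻¹ * p') ≤ F B := by
  obtain ⟨F, bF, hF⟩ := s.tri_G hH ha
  have key : ∀ (B : ℕ) (ω : L.Om a) (e e' : s.Ed) (p p' : L.G), s.CisPr B ω e p →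
      s.CisPr B ω e' p' → s.tgt e = s.src e' → len L.π (p⁻¹ * p') ≤ F (B + B) := by
    rintro B ω e e' p p' ⟨r, h1, h2, h3, h4, h5⟩ ⟨r', k1, k2, k3, k4, k5⟩ ht
    have e1 : s.ed p = e := by rw [← h4]; exact s.ed_eq_iff.2 ⟨r, h2, rfl⟩
    have e2 : s.ed p' = e' := by rw [← k4]; exact s.ed_eq_iff.2 ⟨r', k2, rfl⟩
    refine (hF (B + B) p p' r r' (h1.trans k1.symm) (by rw [e1, e2, ht]) h2 k2 h3 k3 ?_).1
    refine (len_mul L.surj _ _).trans ?_
    rw [len_inv L.surj]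
    omega
  refine ⟨fun n => F (n + n), bF.comp (Bd.id.add Bd.id), ?_⟩
  rintro B ω e e' p p' h h' (ht | ht)
  · exact key B ω e e' p p' h h' ht
  · have := key B ω e' e p' p h' h ht
    rw [← len_inv L.surj] at this
    simpa using this

end Aux

variable {L L' : Lv} (s : St L L') (D : s.AD) (hH : L'.Cl) {a : L.X} (ha : L.Occ a)
include D hH ha

theorem ci_ell : ∃ F, Bd F ∧ ∀ (u : L.G) (ω : L.Om a) (p : s.Vt), u • p = p → u • ω = ω →
    ∃ g, u • L.om a g = L.om a g ∧ len L.π g ≤ F (len L.π u) := by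
  classical
  obtain ⟨F0, b0, h0⟩ := s.small_type
  obtain ⟨Fv, bv, hv⟩ := s.cis_vertex hH ha
  obtain ⟨CL, hCL, hLT⟩ := s.lt_G hH ha
  obtain ⟨C1, hX⟩ := s.exists_exSet hH (D.C0 ∪ CL)
  obtain ⟨Fx, bx, hx⟩ := s.ex_small D Finset.subset_union_left hX hH
  obtain ⟨Fp, bp, hp⟩ := pc_of L.surj (s.gbs_G D hH)
    (C1 ∪ (CL.filter fun c => c ≠ 1).image s.j) (by
      intro c hc
      rcases Finset.mem_union.1 hc with hc | hc
      · obtain ⟨h1, h2⟩ := hX.1 c hc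
        rw [M'_eq] at h1
        obtain ⟨y, hy, rfl⟩ := h1
        exact s.cis_inf s.adm_A hy (fun e => h2 (by rw [e, map_one]))
      · obtain ⟨y, hy, rfl⟩ := Finset.mem_image.1 hc
        obtain ⟨h1, h2⟩ := Finset.mem_filter.1 hy
        exact s.cis_inf (s.adm_N ha) (hCL y h1) h2)
  refine ⟨fun n => Fv (F0 n + n) + (Fx n + Fp (Fx n + Fp (Fx n))),
    (bv.comp (b0.add Bd.id)).add (bx.add (bp.comp (bx.add (bp.comp bx)))), ?_⟩
  intro u ω p hup hω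
  by_cases hu1 : u = 1
  · exact ⟨1, by rw [hu1, one_smul], by rw [len_one]; exact Nat.zero_le _⟩
  rcases h0 u with ⟨v0, hv0, hsm⟩ | ⟨b, l, hax, -⟩
  swap
  · exact absurd hup (hax.not_fix s.T_acyclic s.T_acts (s.T_reach _ _))
  obtain ⟨g0, rfl⟩ := QuotientGroup.mk_surjective ω
  obtain ⟨q, hq, huq, hb⟩ := ZT.fix_proj s.T_acyclic s.T_acts hv0 (s.cvx_om ha (L.om a g0))
    (s.cis_inv hω) (c := s.vx g0) ⟨g0, rfl, rfl⟩ (s.T_reach _ _)
  by_cases hqv : q = v0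
  · subst hqv
    obtain ⟨γ, h1, h2⟩ := hsm
    obtain ⟨g, hg, hl⟩ := hv (F0 (len L.π u) + len L.π u) u _ q (Nat.le_add_left _ _)
      ⟨γ, h1, h2.trans (Nat.le_add_right _ _)⟩ hv0 hω hq
    exact ⟨g, hg, hl.trans (Nat.le_add_right _ _)⟩
  obtain ⟨av, ae, a0, an, hP, hB⟩ := s.exists_pth v0 q
  obtain ⟨n, hn⟩ : ∃ n, s.T.dist v0 q = n + 1 := by
    refine ⟨s.T.dist v0 q - 1, ?_⟩
    have : s.T.dist v0 q ≠ 0 := fun e => hqv (ZT.eq_of_dist_zero (s.T_reach _ _) e).symm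
    omega
  rw [hn] at an hP hB
  have hJ : s.Join (ae n) (av n) q := by rw [← an]; exact hP.1 n (Nat.lt_succ_self n)
  have hBn := hB n (Nat.le_succ n)
  have hfix : u • av n = av n := ZT.fix_btw s.T_acyclic s.T_acts hv0 huq hBn
  have hfe : u • ae n = ae n := Join.fix s hJ hfix huq
  have hinc : s.Inc (ae n) q := by
    rcases hJ with h | h
    · exact Or.inr h.2
    · exact Or.inl h.1
  have hinc' : s.Inc (ae n) (av n) := by
    rcases hJ with h | h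
    · exact Or.inl h.1
    · exact Or.inr h.2
  have hnot : ¬ s.InE (L.om a g0) (ae n) := by
    intro h
    have h1 := hBn.antisymm (hb _ (InE.inc s ha h hinc'))
    rcases hJ with h | h
    · exact s.src_ne_tgt (ae n) (by rw [h.1, h.2, h1])
    · exact s.src_ne_tgt (ae n) (by rw [h.1, h.2, h1])
  obtain ⟨γ, c, hc, -, hγ, hle⟩ := hLT _ q (ae n) hq hinc hnot
  have hu : u ∈ cj γ (Subgroup.zpowers (s.j c)) := hle ⟨hω, hfe⟩
  have hEx := hX.2 u γ (ae n) c (Finset.mem_union_right _ hc) hu1 hfe (by rw [hγ]; exact hinc) hu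
  obtain ⟨g, ρ, hρ, i, hug, hlg, hli⟩ := hx u _ hu1 hEx
  obtain ⟨m, hm⟩ := Subgroup.mem_zpowers_iff.1 (mem_cj.1 hu)
  have hc1 : c ≠ 1 := by
    rintro rfl
    apply hu1
    rw [map_one, one_zpow] at hm
    have : u = γ * (γ⁻¹ * u * γ) * γ⁻¹ := by group
    rw [this, ← hm]
    group
  have hρ' : ρ ∈ C1 ∪ (CL.filter fun c => c ≠ 1).image s.j := Finset.mem_union_left _ hρ
  have hc' : s.j c ∈ C1 ∪ (CL.filter fun c => c ≠ 1).image s.j :=
    Finset.mem_union_right _ (Finset.mem_image_of_mem _ (Finset.mem_filter.2 ⟨hc, hc1⟩))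
  have hconj : IsConj (ρ ^ i) (s.j c ^ m) := by
    refine isConj_iff.2 ⟨γ⁻¹ * g, ?_⟩
    rw [hm, hug]
    group
  obtain ⟨m', hconj', hm'⟩ := (hp ρ hρ' _ hc' i m hconj).2
  obtain ⟨g2, hg2, hl2⟩ := (hp ρ hρ' _ hc' i m' hconj').1
  refine ⟨g * g2, ?_, ?_⟩
  · rw [Lv.fix_om_iff]
    have : (g * g2)⁻¹ * u * (g * g2) = s.j c ^ m' := by
      rw [← hg2, hug]
      group
    rw [this]
    refine Subgroup.zpow_mem _ (s.N_le_Ma ha ?_) _
    rw [M'_eq]
    exact ⟨c, hCL c hc, rfl⟩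
  · refine (len_mul L.surj _ _).trans (le_trans ?_ (Nat.le_add_left _ _))
    exact Nat.add_le_add hlg (hl2.trans (bp.mono (Nat.add_le_add hli (hm'.trans (bp.mono hli)))))

theorem ci_hyp : ∃ F, Bd F ∧ ∀ (u : L.G) (ω : L.Om a), (∀ p : s.Vt, u • p ≠ p) → u • ω = ω →
    ∃ g, u • L.om a g = L.om a g ∧ len L.π g ≤ F (len L.π u) := by
  obtain ⟨F0, b0, h0⟩ := s.small_type
  obtain ⟨Ft, bt, ht⟩ := s.cis_turn2 hH ha
  obtain ⟨Fs, bs, hs⟩ := s.cis_step hH ha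
  obtain ⟨Fc, bc, hc⟩ := s.cp_G D hH
  refine ⟨fun n => Ft (F0 n) + Fc (n + F0 n * Fs (n + F0 n)),
    (bt.comp b0).add (bc.comp (Bd.id.add (b0.mul (bs.comp (Bd.id.add b0))))), ?_⟩
  intro u ω hnf hω
  rcases h0 u with ⟨v0, hv0, -⟩ | ⟨b, l, hax, hl, -, hsm⟩
  · exact absurd hv0 (hnf v0)
  obtain ⟨g0, rfl⟩ := QuotientGroup.mk_surjective ω
  have hin : ∀ i, s.InV (L.om a g0) (b i) := fun i =>
    hax.mem_cvx s.T_acyclic s.T_acts (s.cvx_om ha (L.om a g0)) (s.cis_inv hω) (c := s.vx g0)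
      ⟨g0, rfl, rfl⟩ (s.T_reach _ _) i
  obtain ⟨e, hJ, hne, hcase⟩ := s.line_edges hax.1
  have hinE : ∀ i, s.InE (L.om a g0) (e i) := fun i =>
    s.inE_of_join ha (hJ i) (hin _) (hin _)
  have hl1 : 1 ≤ l := hax.2.1
  have hsh : ∀ k i : ℤ, u ^ k • e i = e (i + k * l) := by
    intro k i
    have h1 := Join.smul s (hJ i) (u ^ k)
    rw [hax.zpow_smul, hax.zpow_smul] at h1
    have h2 := hJ (i + k * l)
    rw [show i + k * l + 1 = i + 1 + k * l by ring] at h2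
    exact s.join_unique h1 h2
  have hsmE : ∀ i : ℤ, 0 ≤ i → i ≤ l → s.SmE (F0 (len L.π u)) (e i) := fun i h1 h2 =>
    hsm i (e i) (by rw [abs_of_nonneg h1]; omega) (hJ i)
  have mono : (∀ i, s.tgt (e i) = s.src (e (i + 1)) ∨ s.tgt (e (i + 1)) = s.src (e i)) →
      ∃ g, u • L.om a g = L.om a g ∧ len L.π g ≤ Ft (F0 (len L.π u)) +
        Fc (len L.π u + F0 (len L.π u) * Fs (len L.π u + F0 (len L.π u))) := by
    intro hm
    have hex : ∀ i : ℤ, 0 ≤ i → i ≤ l → ∃ p, s.CisPr (F0 (len L.π u)) (L.om a g0) (e i) p := by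
      intro i h1 h2
      obtain ⟨x, hx, hlx⟩ := hsmE i h1 h2
      obtain ⟨p, r, k1, k2, k3, rfl⟩ := s.exists_proj ha (x := x) (by rw [hx]; exact hinE i)
      exact ⟨p, r, k1, k2, k3, hx, hlx⟩
    have hup : ∀ e p, s.CisPr (F0 (len L.π u)) (L.om a g0) e p →
        s.CisPr (len L.π u + F0 (len L.π u)) (L.om a g0) e p := by
      rintro e p ⟨r, k1, k2, k3, k4, k5⟩
      exact ⟨r, k1, k2, k3, k4, k5.trans (Nat.le_add_left _ _)⟩
    obtain ⟨p0, hp0⟩ := hex 0 le_rfl (by omega)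
    have ind : ∀ k : ℕ, k + 1 ≤ l → ∀ p,
        s.CisPr (len L.π u + F0 (len L.π u)) (L.om a g0) (e ((k : ℤ) + 1)) p →
        len L.π (p0⁻¹ * p) ≤ (k + 1) * Fs (len L.π u + F0 (len L.π u)) := by
      intro k
      induction k with
      | zero =>
        intro _ p hp
        have := hs _ _ _ _ p0 p (hup _ _ hp0) hp (by simpa using hm 0)
        simpa using this
      | succ k ih =>
        intro hk p hp
        obtain ⟨p1, hp1⟩ := hex ((k : ℤ) + 1) (by omega) (by omega)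
        have h1 := ih (by omega) p1 (hup _ _ hp1)
        have h2 := hs _ _ _ _ p1 p (hup _ _ hp1) hp (by
          have := hm ((k : ℤ) + 1)
          push_cast
          exact this)
        have : p0⁻¹ * p = p0⁻¹ * p1 * (p1⁻¹ * p) := by group
        rw [this, Nat.succ_mul (k + 1)]
        exact (len_mul L.surj _ _).trans (Nat.add_le_add h1 h2)
    obtain ⟨k, rfl⟩ : ∃ k, l = k + 1 := ⟨l - 1, by omega⟩
    obtain ⟨r, k1, k2, k3, k4, k5⟩ := hp0
    have hom : u • L.om a p0 = L.om a p0 := by rw [k1]; exact hω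
    have hlen := ind k le_rfl (u * p0) ⟨r, by rw [← k1]; exact hom, k2, k3, by
      have := hsh 1 0
      rw [zpow_one, ← k4, smul_ed] at this
      rw [mul_assoc, this]
      congr 1
      push_cast
      ring, by
      rw [mul_assoc]
      exact (len_mul L.surj _ _).trans (Nat.add_le_add_left k5 _)⟩
    obtain ⟨g, hg, hlg⟩ := hc u (p0⁻¹ * u * p0) p0 rfl
    refine ⟨g, ?_, hlg.trans (le_trans (bc.mono ?_) (Nat.le_add_left _ _))⟩
    · rw [Lv.fix_om_iff, hg, ← Lv.fix_om_iff]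
      exact hom
    · rw [mul_assoc]
      exact Nat.add_le_add_left (hlen.trans (Nat.mul_le_mul_right _ hl)) _
  rcases hcase with h | h | ⟨i, h⟩
  · exact mono fun i => Or.inl (by rw [(h i).2, (h (i + 1)).1])
  · exact mono fun i => Or.inr (by rw [(h (i + 1)).1, (h i).2])
  · have hlz : (0 : ℤ) < l := by omega
    have e1 : e i = u ^ (i / l) • e (i % l) := by
      rw [hsh]
      congr 1
      rw [mul_comm]
      exact (Int.emod_add_mul_ediv i l).symm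
    have e2 : e (i + 1) = u ^ (i / l) • e (i % l + 1) := by
      rw [hsh]
      congr 1
      have := Int.emod_add_mul_ediv i l
      rw [mul_comm] at this
      omega
    rw [e1, e2, smul_src, smul_src, smul_tgt, smul_tgt, smul_left_cancel_iff,
      smul_left_cancel_iff] at h
    have h1 := Int.emod_nonneg i hlz.ne'
    have h2 := Int.emod_lt_of_pos i hlz
    obtain ⟨g, hg, hlg⟩ := ht _ (L.om a g0) _ _ (hsmE _ h1 h2.le)
      (hsmE (i % l + 1) (by omega) (by omega)) (hne _) h (hinE _) (hinE _)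
    exact ⟨g, by rw [hg]; exact hω, hlg.trans (Nat.le_add_right _ _)⟩

theorem ci_G : CI L.π ({a}ᶜ : Set L.X) := by
  obtain ⟨F1, b1, h1⟩ := s.ci_ell D hH ha
  obtain ⟨F2, b2, h2⟩ := s.ci_hyp D hH ha
  refine ⟨fun n => F1 n + F2 n, b1.add b2, fun u g hg => ?_⟩
  rw [← Lv.fix_om_iff] at hg
  by_cases h : ∃ p : s.Vt, u • p = p
  · obtain ⟨p, hp⟩ := h
    obtain ⟨g', hg', hl⟩ := h1 u _ p hp hg
    exact ⟨g', (L.fix_om_iff a u g').1 hg', hl.trans (Nat.le_add_right _ _)⟩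
  · obtain ⟨g', hg', hl⟩ := h2 u _ (fun p hp => h ⟨p, hp⟩) hg
    exact ⟨g', (L.fix_om_iff a u g').1 hg', hl.trans (Nat.le_add_left _ _)⟩

end St
end CPOR
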