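import Pool.Agent.P.MP_2cb329_al.HL1

/-! Local lemmas inside the vertex group. -/

set_option autoImplicit false

namespace CPOR
namespace Lv

variable {H : Lv} (hH : H.Cl)
include hH

/-- (TRI) thin triangles. -/
theorem tri_H {S₁ S₂ SN : Set H.X} (h₁ : H.Adm (S₁ ∪ SN)) (h₂ : H.Adm (S₂ ∪ SN)) :
    ∃ F, Bd F ∧ ∀ (η : ℕ) (n r₁ r₂ : FreeGroup H.X), n ∈ FS SN → r₁ ∈ FS S₁ → r₂ ∈ FS S₂ →
      Out SN r₁ → Out SN r₂ → len H.π ((H.π r₁)⁻¹ * H.π n * H.π r₂) ≤ η →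
      len H.π (H.π n) ≤ F η ∧ ∀ g, FB 1 g r₁ → ∃ g', FB 1 g' r₂ ∧
        len H.π ((H.π g)⁻¹ * H.π n * H.π g') ≤ F η := by
  obtain ⟨Fm, hFm, hm⟩ := hH.mem _ h₁
  obtain ⟨F1, hF1, f1⟩ := hH.ft _ _ h₂ h₁
  obtain ⟨F2, hF2, f2⟩ := hH.ft _ _ h₁ h₂
  have b1 : Bd fun η => Fm (F1 η) + η := (hFm.comp hF1).add Bd.id
  refine ⟨fun η => Fm (F1 η) + η + F2 (Fm (F1 η) + η), b1.add (hF2.comp b1), ?_⟩
  intro η n r₁ r₂ hn hr₁ hr₂ o₁ o₂ hl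
  have u₁ : r₁ ∈ FS (S₁ ∪ SN) := FS_mono Set.subset_union_left hr₁
  have u₂ : r₂ ∈ FS (S₂ ∪ SN) := FS_mono Set.subset_union_left hr₂
  have n₁ : n ∈ FS (S₁ ∪ SN) := FS_mono Set.subset_union_right hn
  have n₂ : n ∈ FS (S₂ ∪ SN) := FS_mono Set.subset_union_right hn
  have fb : FB 1 n (n * r₂) := by
    have := (o₂ n⁻¹ ((FS _).inv_mem hn)).mul_left n
    rwa [mul_inv_cancel, mul_one] at this
  obtain ⟨g', hg', hl'⟩ := f1 η (n * r₂) n r₁ 1 ((H.π r₁)⁻¹ * H.π n * H.π r₂)⁻¹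
    ((FS _).mul_mem n₂ u₂) u₁ (by rw [len_one]; omega) (by rwa [len_inv H.surj])
    (by rw [map_mul]; group) fb
  have hN : len H.π (H.π n) ≤ Fm (F1 η) := by
    have e := (o₁.of_fb hg') n hn
    have hm' := hm (n⁻¹ * g') ((FS _).mul_mem ((FS _).inv_mem n₁) (qd_fb_mem u₁ hg'))
    rw [map_mul, map_inv] at hm'
    rw [mul_one] at hl'
    have := hFm.mono hl'
    unfold FB at e
    rw [mul_one, FreeGroup.norm_inv_eq] at e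
    have := len_le (π := H.π) n
    omega
  refine ⟨by simp only; omega, fun g hg => ?_⟩
  obtain ⟨g'', h1, h2⟩ := f2 (Fm (F1 η) + η) r₁ g r₂ (H.π n) ((H.π r₁)⁻¹ * H.π n * H.π r₂)
    u₁ u₂ (by omega) (by omega) (by group) hg
  exact ⟨g'', h1, by simp only; omega⟩

/-- (LF, STEP) an edge that meets two close cosets. -/
theorem lf_H {S SN SN' : Set H.X} (hS : H.Adm (S ∪ SN)) (hN' : H.Adm SN') :
    ∃ F, Bd F ∧ ∀ (n : ℕ) (h ν α : H.G), len H.π h ≤ n → ν ∈ MS H.π SN → α ∈ MS H.π S →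
      h⁻¹ * (ν * α) ∈ MS H.π SN' →
      ∃ κ ∈ MS H.π (S ∩ SN), ∃ α' ∈ MS H.π S, ∃ ν' ∈ MS H.π SN, len H.π α' ≤ F n ∧
        len H.π ν' ≤ F n ∧ h⁻¹ * (ν * κ * α') ∈ MS H.π SN' ∧ h⁻¹ * (ν' * α') ∈ MS H.π SN' := by
  obtain ⟨Fq, hFq, hq⟩ := hH.qc _ _ hS hN'
  obtain ⟨F1, hF1, d1⟩ := hH.dc1 _ _ (hS.mono Set.subset_union_left) hN'
  obtain ⟨F2, hF2, d2⟩ := hH.dc1 _ _ (hS.mono Set.subset_union_right) hN'
  have b1 : Bd fun n => F1 (Fq n) + n := (hF1.comp hFq).add Bd.id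
  refine ⟨fun n => F1 (Fq n) + n + F2 (F1 (Fq n) + n), b1.add (hF2.comp b1), ?_⟩
  intro n h ν α hh hν hα hm
  obtain ⟨a, ha, rfl⟩ := mem_MS.1 hν
  obtain ⟨b, hb, rfl⟩ := mem_MS.1 hα
  obtain ⟨y, ⟨hy1, hy2⟩, hy⟩ := (cvx_FS SN 1).helly cay_acyclic (cvx_FS S a) (c := a) (x := 1)
    (z := a * b) (by simpa using ha) (by simp) (by simp) (by simpa using hb)
  have hy1' : y ∈ FS SN := by simpa using hy1
  have hy2' : a⁻¹ * y ∈ FS S := hy2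
  have hk : a⁻¹ * y ∈ FS (S ∩ SN) := by
    rw [← FS_inf]
    exact ⟨hy2', (FS _).mul_mem ((FS _).inv_mem ha) hy1'⟩
  obtain ⟨b'', l1, m1⟩ := hq n (a * b) y h 1
    ((FS _).mul_mem (FS_mono Set.subset_union_right ha) (FS_mono Set.subset_union_left hb))
    (cay_btw.1 hy) hh (by rw [len_one]; omega) (by rwa [map_mul, mul_one])
  have m2 : b''⁻¹ * H.π ((a⁻¹ * y)⁻¹ * b) * 1 ∈ MS H.π SN' := by
    have := (MS H.π SN').mul_mem ((MS H.π SN').inv_mem m1) hm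
    convert this using 1
    simp only [map_mul, map_inv]
    group
  obtain ⟨α', hα', m3, l2⟩ := d1 (Fq n) 1 b'' (by rw [len_one]; omega) l1 _
    (mem_MS.2 ⟨_, (FS _).mul_mem ((FS _).inv_mem hy2') hb, rfl⟩) m2
  have m4 : h⁻¹ * H.π y * α' ∈ MS H.π SN' := by
    have := (MS H.π SN').mul_mem m1 m3
    convert this using 1
    group
  obtain ⟨ν', hν', m5, l3⟩ := d2 (F1 (Fq n) + n) α' h (by omega) (by omega) _
    (mem_MS.2 ⟨y, hy1', rfl⟩) m4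
  refine ⟨H.π (a⁻¹ * y), mem_MS.2 ⟨_, hk, rfl⟩, α', hα', ν', hν', by simp only; omega,
    by simp only; omega, ?_, by rwa [← mul_assoc]⟩
  convert m4 using 1
  simp only [map_mul, map_inv]
  group

end Lv
end CPOR
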