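import Pool.Agent.P.MP_2cb329_al.CPH
import Pool.Agent.P.MP_2cb329_al.HL

/-! Conjugacy into a Magnus subgroup: the step. -/

set_option autoImplicit false

namespace CPOR
namespace St

variable {L L' : Lv} (s : St L L') (D : s.AD) (hH : L'.Cl) {a : L.X} (ha : L.Occ a)
include D hH ha

omit D hH in
theorem cis_om_j (g : L.G) {n : L'.G} (hn : n ∈ MS L'.π (s.SN a)) :
    L.om a (g * s.j n) = L.om a g := by
  obtain ⟨f, hf, rfl⟩ := mem_MS.1 hn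
  exact s.om_mul_w ha g hf

omit D hH in
theorem cis_transport {S : Set L'.X} {g x : L.G} {h n c : L'.G} (hx : x = g * s.j h)
    (hle : MS L'.π (s.SN a) ⊓ cj h (MS L'.π S) ≤ cj n (Subgroup.zpowers c)) {z : L.G}
    (h1 : z • L.om a g = L.om a g) (h2 : z • s.vx g = s.vx g) (h3 : z ∈ cj x (s.M' S)) :
    z ∈ cj (g * s.j n) (Subgroup.zpowers (s.j c)) := by
  have h4 : z ∈ cj g (s.M' (s.SN a)) := by
    rw [← s.stab_ov ha g, MulAction.mem_stabilizer_iff, Prod.smul_mk, h1, h2]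
  rw [mem_cj, s.M'_eq] at h3 h4
  obtain ⟨y, hy, ey⟩ := h4
  obtain ⟨y', hy', ey'⟩ := h3
  have e1 : y' = h⁻¹ * y * h := s.j_inj (by
    rw [ey', map_mul, map_mul, ey, map_inv, hx]; group)
  have h5 := hle (show y ∈ MS L'.π (s.SN a) ⊓ cj h (MS L'.π S) from ⟨hy, mem_cj.2 (e1 ▸ hy')⟩)
  obtain ⟨i, hi⟩ := Subgroup.mem_zpowers_iff.1 (mem_cj.1 h5)
  refine mem_cj.2 (Subgroup.mem_zpowers_iff.2 ⟨i, ?_⟩)
  rw [← map_zpow, hi, map_mul, map_mul, ey, map_inv]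
  group

omit D in
/-- (LT) in the tree. -/
theorem lt_G : ∃ C : Finset L'.G, (∀ c ∈ C, c ∈ MS L'.π (s.SN a)) ∧
    ∀ (ω : L.Om a) (v : s.Vt) (e : s.Ed), s.InV ω v → s.Inc e v → ¬ s.InE ω e →
      ∃ γ, ∃ c ∈ C, L.om a γ = ω ∧ s.vx γ = v ∧
        MulAction.stabilizer L.G ω ⊓ MulAction.stabilizer L.G e ≤
          cj γ (Subgroup.zpowers (s.j c)) := by
  classical
  obtain ⟨CA, hCA, hA⟩ := Lv.lt_H hH (s.adm_A_N ha)
  obtain ⟨CB, hCB, hB⟩ := Lv.lt_H hH (s.adm_B_N ha)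
  refine ⟨CA ∪ CB, fun c hc => (Finset.mem_union.1 hc).elim (hCA c) (hCB c), ?_⟩
  rintro _ _ e ⟨g, rfl, rfl⟩ hinc hn
  obtain ⟨x, rfl⟩ : ∃ x, s.ed x = e := QuotientGroup.mk_surjective e
  have hv : ∀ n, s.vx (g * s.j n) = s.vx g := fun n => (s.vx_eq_iff.2 ⟨n, rfl⟩).symm
  rcases hinc with h | h
  · obtain ⟨h, hx⟩ : ∃ h, x = g * s.j h := s.vx_eq_iff.1 h.symm
    obtain ⟨n, hnN, c, hc, hle⟩ := hA h (by
      rintro ⟨n, hnN, α, hα, rfl⟩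
      obtain ⟨f, hf, rfl⟩ := mem_MS.1 hα
      refine hn ⟨g * s.j n, s.cis_om_j ha g hnN, s.ed_eq_iff.2 ⟨f, hf, ?_⟩⟩
      rw [hx, map_mul, mul_assoc]
      rfl)
    refine ⟨g * s.j n, c, Finset.mem_union_left _ hc, s.cis_om_j ha g hnN, hv n, fun z hz => ?_⟩
    refine s.cis_transport ha hx hle hz.1 (Inc.fix s (Or.inl ‹_›) hz.2) ?_
    rw [← s.stab_ed]
    exact hz.2
  · obtain ⟨h, hx⟩ := s.vx_eq_iff.1 h.symm
    obtain ⟨n, hnN, c, hc, hle⟩ := hB h (by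
      rintro ⟨n, hnN, α, hα, rfl⟩
      obtain ⟨f, hf, rfl⟩ := mem_MS.1 hα
      refine hn ⟨g * s.j n * s.t⁻¹, ?_, s.ed_eq_iff_B.2 ⟨f, hf, ?_⟩⟩
      · rw [← s.om_mul_t ha, inv_mul_cancel_right]
        exact s.cis_om_j ha g hnN
      · rw [hx, map_mul, inv_mul_cancel_right, mul_assoc]
        rfl)
    refine ⟨g * s.j n, c, Finset.mem_union_right _ hc, s.cis_om_j ha g hnN, hv n, fun z hz => ?_⟩
    refine s.cis_transport ha hx hle hz.1 (Inc.fix s (Or.inr ‹_›) hz.2) ?_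
    rw [← s.stab_ed_B]
    exact hz.2

omit D in
/-- (TRI) in the tree: projections of close points of consecutive edges. -/
theorem tri_G : ∃ F, Bd F ∧ ∀ (η : ℕ) (p p' : L.G) (r r' : FreeGroup L'.X),
    L.om a p = L.om a p' → s.tgt (s.ed p) = s.src (s.ed p') → r ∈ FS s.SA → r' ∈ FS s.SA →
    Out (s.SN a) r → Out (s.SN a) r' → len L.π ((p * s.w r)⁻¹ * (p' * s.w r')) ≤ η →
    len L.π (p⁻¹ * p') ≤ F η ∧
      (∀ g, FB 1 g r → ∃ g', FB 1 g' r' ∧ len L.π ((p * s.w g)⁻¹ * (p' * s.w g')) ≤ F η) := by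
  obtain ⟨F, bF, hF⟩ := Lv.tri_H hH (s.adm_B_N ha) (s.adm_A_N ha)
  obtain ⟨Fm, bFm, hFm⟩ := s.memH hH
  obtain ⟨C, hC⟩ := s.lip_j
  refine ⟨fun η => len L.π s.t + C * F (Fm (len L.π s.t + η)),
    (Bd.const _).add ((Bd.const C).mul (bF.comp (bFm.comp ((Bd.const _).add Bd.id)))),
    fun η p p' r r' ho hv hr hr' o o' hl => ?_⟩
  obtain ⟨n, hn, hp⟩ := s.ov_eq ha ((s.om_mul_t ha p).trans ho) hv
  have key : ∀ g ∈ FS s.SA, ∀ g', (p * s.w g)⁻¹ * (p' * s.w g') =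
      s.t * s.j ((L'.π (s.sh g))⁻¹ * L'.π n * L'.π g') := fun g hg g' => by
    have e := s.conj_w hg
    change _ = s.t * s.j ((L'.π (s.sh g))⁻¹ * L'.π n * L'.π g')
    rw [map_mul, map_mul, map_inv]
    change _ = s.t * ((s.w (s.sh g))⁻¹ * s.w n * s.w g')
    rw [← e, hp]
    group
  have up : ∀ (h : L'.G) (m : ℕ), len L'.π h ≤ m → len L.π (s.t * s.j h) ≤ len L.π s.t + C * m :=
    fun h m hm => (len_mul L.surj _ _).trans
      (Nat.add_le_add_left ((hC h).trans (Nat.mul_le_mul_left _ hm)) _)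
  have h1 : len L'.π ((L'.π (s.sh r))⁻¹ * L'.π n * L'.π r') ≤ Fm (len L.π s.t + η) := by
    refine (hFm _).trans (bFm.mono ?_)
    have e : s.j ((L'.π (s.sh r))⁻¹ * L'.π n * L'.π r') =
        s.t⁻¹ * ((p * s.w r)⁻¹ * (p' * s.w r')) := by rw [key r hr r', inv_mul_cancel_left]
    rw [e]
    refine (len_mul L.surj _ _).trans ?_
    rw [len_inv L.surj]
    exact Nat.add_le_add_left hl _
  obtain ⟨h2, h3⟩ := hF _ n (s.sh r) r' hn (s.sh_mem hr) hr' ((s.sh_out hr a).2 o) o' h1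
  refine ⟨?_, fun g hg => ?_⟩
  · have e : p⁻¹ * p' = s.t * s.j (L'.π n) := by
      rw [hp, mul_assoc, inv_mul_cancel_left]
      rfl
    rw [e]
    exact up _ _ h2
  · obtain ⟨g', h4, h5⟩ := h3 _ (s.sh_fb hr hg)
    refine ⟨g', h4, ?_⟩
    rw [key g (qd_fb_mem hr hg) g']
    exact up _ _ h5

omit D hH in
/-- Projection of a point of an edge to a coset that meets the edge. -/
theorem exists_proj {ω : L.Om a} {x : L.G} (h : s.InE ω (s.ed x)) :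
    ∃ p r, L.om a p = ω ∧ r ∈ FS s.SA ∧ Out (s.SN a) r ∧ x = p * s.w r := by
  obtain ⟨g, hg, he⟩ := h
  obtain ⟨f, hf, rfl⟩ := s.ed_eq_iff.1 he
  obtain ⟨c, hc, h1, h2⟩ := exists_out (s.SN a) f
  refine ⟨g * s.w c, c⁻¹ * f, (s.om_mul_w ha g hc).trans hg,
    (FS s.SA).mul_mem ((FS s.SA).inv_mem (qd_fb_mem hf h1)) hf, h2, ?_⟩
  rw [mul_assoc, ← map_mul, mul_inv_cancel_left]

end St
end CPOR
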