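import Pool.Agent.P.MP_2cb329_al.LV

/-! Conjugacy of powers of finitely many elements (Dickson). -/

set_option autoImplicit false

namespace CPOR

namespace PCP

/-- A set of positive integers closed under division by large primes is generated by finitely
many of its elements. -/
theorem fin_gen (U : Set ℕ) (P : ℕ) (h0 : 0 ∉ U)
    (hd : ∀ p m : ℕ, p.Prime → P < p → p * m ∈ U → m ∈ U) :
    ∃ B : Set ℕ, B.Finite ∧ B ⊆ U ∧ ∀ N ∈ U, ∃ b ∈ B, b ∣ N := by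
  let B : Set ℕ := {b | b ∈ U ∧ ∀ d ∈ U, d ∣ b → d = b}
  have hne : ∀ b ∈ B, b ≠ 0 := fun b hb e => h0 (e ▸ hb.1)
  have hsm : ∀ b ∈ B, ∀ p : ℕ, p.Prime → P < p → b.factorization p = 0 := by
    intro b hb p hp hP
    refine Nat.factorization_eq_zero_of_not_dvd ?_
    rintro ⟨m, rfl⟩
    have h1 := hb.2 m (hd p m hp hP hb.1) (Dvd.intro_left p rfl)
    have h2 : m ≠ 0 := fun e => hne _ hb (by simp [e])
    have h3 := hp.two_le
    have h4 : 2 * m ≤ p * m := Nat.mul_le_mul_right m h3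
    omega
  let f : ℕ → (Fin (P + 1) → ℕ) := fun b i => b.factorization i
  have hf : ∀ a ∈ B, ∀ b ∈ B, f a ≤ f b → a = b := by
    intro a ha b hb hab
    refine hb.2 a ha.1 ((Nat.factorization_prime_le_iff_dvd (hne a ha) (hne b hb)).1 ?_)
    intro p hp
    by_cases hP : P < p
    · rw [hsm a ha p hp hP]; exact Nat.zero_le _
    · exact hab ⟨p, by omega⟩
  refine ⟨B, ?_, fun b hb => hb.1, fun N hN => ?_⟩
  · refine Set.Finite.of_finite_image (f := f) ?_ (fun a ha b hb e => hf a ha b hb e.le)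
    refine IsAntichain.finite_of_partiallyWellOrderedOn (r := (· ≤ ·)) ?_
      (Set.isPWO_of_wellQuasiOrderedLE (f '' B))
    rintro _ ⟨a, ha, rfl⟩ _ ⟨b, hb, rfl⟩ hne' hle
    exact hne' (congrArg f (hf a ha b hb hle))
  · classical
    have hex : ∃ d, d ∈ U ∧ d ∣ N := ⟨N, hN, dvd_rfl⟩
    have hs := Nat.find_spec hex
    refine ⟨Nat.find hex, ⟨hs.1, fun d hd' hdv => ?_⟩, hs.2⟩
    have h1 : Nat.find hex ≤ d := Nat.find_min' hex ⟨hd', hdv.trans hs.2⟩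
    have h2 : Nat.find hex ≠ 0 := fun e => h0 (e ▸ hs.1)
    exact le_antisymm (Nat.le_of_dvd (Nat.pos_of_ne_zero h2) hdv) h1

theorem lex_iff {s a b t t' : ℕ} (ht : t < s) (ht' : t' < s) :
    s * a + t' < s * b + t ↔ a < b ∨ (a = b ∧ t' < t) := by
  constructor
  · intro h
    rcases lt_trichotomy a b with h1 | h1 | h1
    · exact Or.inl h1
    · subst h1; exact Or.inr ⟨rfl, by omega⟩
    · have : s * (b + 1) ≤ s * a := Nat.mul_le_mul_left s h1
      rw [Nat.mul_succ] at this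
      omega
  · rintro (h | ⟨rfl, h⟩)
    · have : s * (a + 1) ≤ s * b := Nat.mul_le_mul_left s h
      rw [Nat.mul_succ] at this
      omega
    · omega

theorem lex_mul {s a b t t' k : ℕ} (ht : t < s) (ht' : t' < s) (hk : 0 < k) :
    s * (k * a) + t' < s * (k * b) + t ↔ s * a + t' < s * b + t := by
  rw [lex_iff ht ht', lex_iff ht ht', Nat.mul_lt_mul_left hk, Nat.mul_right_inj hk.ne']

section
variable {G : Type} [Group G]

theorem conj_iff {a b : G} : IsConj a b ↔ ∃ g, g⁻¹ * a * g = b := by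
  rw [isConj_iff]
  constructor
  · rintro ⟨c, h⟩; exact ⟨c⁻¹, by simpa using h⟩
  · rintro ⟨c, h⟩; exact ⟨c⁻¹, by simpa using h⟩

theorem conj_pow' {a b g : G} (h : g⁻¹ * a * g = b) (k : ℕ) : g⁻¹ * a ^ k * g = b ^ k := by
  rw [← h]
  have := conj_pow (a := g⁻¹) (b := a) (i := k)
  simpa using this.symm

theorem conj_zpow' {a b : G} (h : IsConj a b) (k : ℤ) : IsConj (a ^ k) (b ^ k) := by
  obtain ⟨c, rfl⟩ := isConj_iff.1 h
  exact isConj_iff.2 ⟨c, by rw [conj_zpow]⟩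

theorem fam {X : Type} [DecidableEq X] {π : FreeGroup X →* G} (hπ : Function.Surjective π)
    (hG : GBS G) {s : ℕ} (e : Fin s → G) (he : ∀ t, ¬ IsOfFinOrder (e t)) :
    ∃ L : ℕ, ∀ (t t' : Fin s) (N N' : ℕ), 1 ≤ N → 1 ≤ N' → IsConj (e t ^ N) (e t' ^ N') →
      ∃ g, g⁻¹ * e t ^ N * g = e t' ^ N' ∧ len π g ≤ L * (s * (N + N' + 2)) := by
  classical
  choose P hP using fun t t' : Fin s => hG (e t) (e t') (he t) (he t')
  let U : Fin s → Set ℕ := fun t => {N | 1 ≤ N ∧ ∃ (t' : Fin s) (N' : ℕ), 1 ≤ N' ∧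
    s * N' + t' < s * N + t ∧ IsConj (e t ^ N) (e t' ^ N')}
  have hB : ∀ t, ∃ B : Set ℕ, B.Finite ∧ B ⊆ U t ∧ ∀ N ∈ U t, ∃ b ∈ B, b ∣ N := by
    intro t
    refine fin_gen (U t) (Finset.univ.sup (P t)) (fun h => by have := h.1; omega) ?_
    rintro p m hp hlt ⟨h1, t', N', h2, h3, h4⟩
    have h5 : P t t' < p := lt_of_le_of_lt (Finset.le_sup (f := P t) (Finset.mem_univ t')) hlt
    obtain ⟨m'', h6, h7⟩ := hP t t' p hp h5 m N' (by
      rw [← Nat.cast_mul, zpow_natCast, zpow_natCast]; exact h4)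
    have hp0 : (0 : ℤ) < p := by exact_mod_cast hp.pos
    have h8 : 0 < m'' := by
      by_contra hn
      have : (p : ℤ) * m'' ≤ 0 := mul_nonpos_of_nonneg_of_nonpos hp0.le (not_lt.1 hn)
      omega
    obtain ⟨M, rfl⟩ := Int.eq_ofNat_of_zero_le h8.le
    have h9 : N' = p * M := by exact_mod_cast h6
    subst h9
    refine ⟨Nat.pos_of_ne_zero (fun e0 => by simp [e0] at h1), t', M, by exact_mod_cast h8,
      (lex_mul t.2 t'.2 hp.pos).1 h3, ?_⟩
    simpa using h7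
  choose B hBf hBU hBg using hB
  have hw : ∀ t, ∀ b, ∃ g : G, b ∈ U t → ∃ (t' : Fin s) (N' : ℕ), 1 ≤ N' ∧
      s * N' + t' < s * b + t ∧ g⁻¹ * e t ^ b * g = e t' ^ N' := by
    intro t b
    by_cases hb : b ∈ U t
    · obtain ⟨-, t', N', h2, h3, h4⟩ := hb
      obtain ⟨g, hg⟩ := conj_iff.1 h4
      exact ⟨g, fun _ => ⟨t', N', h2, h3, hg⟩⟩
    · exact ⟨1, fun h => absurd h hb⟩
  choose w hw using hw
  let L : ℕ := Finset.univ.sup fun t => (hBf t).toFinset.sup fun b => len π (w t b)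
  have hL : ∀ t, ∀ b ∈ B t, len π (w t b) ≤ L := fun t b hb =>
    le_trans (Finset.le_sup (f := fun b => len π (w t b)) ((hBf t).mem_toFinset.2 hb))
      (Finset.le_sup (f := fun t => (hBf t).toFinset.sup fun b => len π (w t b))
        (Finset.mem_univ t))
  have red : ∀ (r : ℕ) (t : Fin s) (N : ℕ), s * N + t = r → 1 ≤ N →
      ∃ (t₀ : Fin s) (N₀ : ℕ) (g : G), 1 ≤ N₀ ∧ N₀ ∉ U t₀ ∧ g⁻¹ * e t ^ N * g = e t₀ ^ N₀ ∧
        len π g ≤ L * r := by
    intro r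
    induction r using Nat.strong_induction_on with
    | _ r ih =>
      intro t N hr hN
      by_cases hU : N ∈ U t
      · obtain ⟨b, hb, k, rfl⟩ := hBg t N hU
        obtain ⟨t', N', h2, h3, h4⟩ := hw t b (hBU t hb)
        have hk : 0 < k := Nat.pos_of_ne_zero (fun e0 => by simp [e0] at hN)
        have h5 : s * (k * N') + t' < r := by
          rw [← hr, mul_comm b k]; exact (lex_mul t.2 t'.2 hk).2 h3
        obtain ⟨t₀, N₀, g, a1, a2, a3, a4⟩ := ih _ h5 t' (k * N') rfl (Nat.mul_pos hk h2)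
        refine ⟨t₀, N₀, w t b * g, a1, a2, ?_, ?_⟩
        · have h6 := conj_pow' h4 k
          rw [← pow_mul, ← pow_mul, mul_comm N' k] at h6
          rw [← a3, ← h6]; group
        · have h6 := len_mul hπ (w t b) g
          have h7 := hL t b hb
          have h8 : L * (s * (k * N') + t' + 1) ≤ L * r := Nat.mul_le_mul_left L h5
          rw [Nat.mul_succ] at h8
          omega
      · exact ⟨t, N, 1, hN, hU, by simp, by rw [len_one]; exact Nat.zero_le _⟩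
  refine ⟨L, fun t t' N N' hN hN' hc => ?_⟩
  obtain ⟨t₀, N₀, g, a1, a2, a3, a4⟩ := red _ t N rfl hN
  obtain ⟨t₁, N₁, g', b1, b2, b3, b4⟩ := red _ t' N' rfl hN'
  have hc' : IsConj (e t₀ ^ N₀) (e t₁ ^ N₁) :=
    ((conj_iff.2 ⟨g, a3⟩).symm.trans hc).trans (conj_iff.2 ⟨g', b3⟩)
  have heq : t₀ = t₁ ∧ N₀ = N₁ := by
    have c1 : ¬ s * N₁ + t₁ < s * N₀ + t₀ := fun h => a2 ⟨a1, t₁, N₁, b1, h, hc'⟩
    have c2 : ¬ s * N₀ + t₀ < s * N₁ + t₁ := fun h => b2 ⟨b1, t₀, N₀, a1, h, hc'.symm⟩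
    rw [lex_iff t₀.2 t₁.2] at c1
    rw [lex_iff t₁.2 t₀.2] at c2
    exact ⟨Fin.ext (by omega), by omega⟩
  obtain ⟨rfl, rfl⟩ := heq
  refine ⟨g * g'⁻¹, ?_, ?_⟩
  · have : e t' ^ N' = g' * (g'⁻¹ * e t' ^ N' * g') * g'⁻¹ := by group
    rw [this, b3, ← a3]; group
  · have h6 := len_mul hπ g g'⁻¹
    rw [len_inv hπ] at h6
    have h7 : s * N + t + (s * N' + t') ≤ s * (N + N' + 2) := by
      have := t.2
      have := t'.2
      rw [Nat.mul_add, Nat.mul_add]; omega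
    have h8 := Nat.mul_le_mul_left L h7
    rw [Nat.mul_add] at h8
    omega

theorem small (hG : GBS G) {c c' : G} (hc : ¬ IsOfFinOrder c) (hc' : ¬ IsOfFinOrder c') :
    ∃ M : ℕ, ∀ n m : ℤ, IsConj (c ^ n) (c' ^ m) →
      ∃ m' : ℤ, IsConj (c ^ n) (c' ^ m') ∧ m'.natAbs ≤ M * n.natAbs := by
  classical
  obtain ⟨P, hP⟩ := hG c c' hc hc'
  let U : Set ℕ := {N | 1 ≤ N ∧ ∃ m : ℤ, IsConj (c ^ (N : ℤ)) (c' ^ m)}
  obtain ⟨B, hBf, hBU, hBg⟩ := fin_gen U P (fun h => by have := h.1; omega) (by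
    rintro p m hp hlt ⟨h1, m', h2⟩
    obtain ⟨m'', -, h7⟩ := hP p hp hlt m m' (by rw [← Nat.cast_mul]; exact h2)
    exact ⟨Nat.pos_of_ne_zero (fun e0 => by simp [e0] at h1), m'', h7⟩)
  have hw : ∀ b : ℕ, ∃ m : ℤ, b ∈ U → IsConj (c ^ (b : ℤ)) (c' ^ m) := by
    intro b
    by_cases hb : b ∈ U
    · obtain ⟨-, m, h⟩ := hb
      exact ⟨m, fun _ => h⟩
    · exact ⟨0, fun h => absurd h hb⟩
  choose w hw using hw
  refine ⟨hBf.toFinset.sup fun b => (w b).natAbs, fun n m h => ?_⟩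
  by_cases hn : n = 0
  · subst hn
    exact ⟨0, by simp, by simp⟩
  have hU : n.natAbs ∈ U := by
    refine ⟨Int.natAbs_pos.2 hn, ?_⟩
    rcases Int.natAbs_eq n with e | e
    · exact ⟨m, e ▸ h⟩
    · refine ⟨m * (-1), ?_⟩
      have := conj_zpow' h (-1)
      rw [← zpow_mul, ← zpow_mul] at this
      have e2 : (n.natAbs : ℤ) = n * (-1) := by omega
      rwa [e2]
  obtain ⟨b, hb, hd⟩ := hBg _ hU
  obtain ⟨k, rfl⟩ : (b : ℤ) ∣ n := Int.natCast_dvd.2 hd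
  refine ⟨w b * k, ?_, ?_⟩
  · rw [zpow_mul, zpow_mul]; exact conj_zpow' (hw b (hBU hb)) k
  · rw [Int.natAbs_mul, Int.natAbs_mul, Int.natAbs_natCast]
    refine Nat.mul_le_mul (Finset.le_sup (f := fun b => (w b).natAbs) (hBf.mem_toFinset.2 hb)) ?_
    exact Nat.le_mul_of_pos_left _ (hBU hb).1

theorem zpow_cases (c : G) (n : ℤ) : c ^ n = c ^ n.natAbs ∨ c ^ n = c⁻¹ ^ n.natAbs := by
  rcases Int.natAbs_eq n with e | e
  · left; rw [← zpow_natCast, ← e]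
  · right; rw [← zpow_natCast, inv_zpow', ← e]

theorem pair {X : Type} [DecidableEq X] {π : FreeGroup X →* G} (hπ : Function.Surjective π)
    (hG : GBS G) {c c' : G} (hc : ¬ IsOfFinOrder c) (hc' : ¬ IsOfFinOrder c') :
    ∃ F, Bd F ∧ ∀ n m : ℤ, IsConj (c ^ n) (c' ^ m) →
      (∃ g, g⁻¹ * c ^ n * g = c' ^ m ∧ len π g ≤ F (n.natAbs + m.natAbs)) ∧
      ∃ m' : ℤ, IsConj (c ^ n) (c' ^ m') ∧ m'.natAbs ≤ F n.natAbs := by
  obtain ⟨M, hM⟩ := small hG hc hc'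
  obtain ⟨L, hL⟩ := fam hπ hG ![c, c⁻¹, c', c'⁻¹] (by
    intro t
    fin_cases t <;> simp [hc, hc'])
  refine ⟨fun x => L * (4 * (x + 2)) + M * x,
    ((Bd.const L).mul ((Bd.const 4).mul (Bd.id.add (Bd.const 2)))).add ((Bd.const M).mul Bd.id),
    fun n m h => ⟨?_, ?_⟩⟩
  · by_cases hn : n = 0
    · subst hn
      rw [zpow_zero, isConj_one_right] at h
      exact ⟨1, by simp [h], by rw [len_one]; exact Nat.zero_le _⟩
    by_cases hm : m = 0
    · subst hm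
      rw [zpow_zero, isConj_one_left] at h
      exact ⟨1, by simp [h], by rw [len_one]; exact Nat.zero_le _⟩
    have h1 : ∃ t : Fin 4, c ^ n = ![c, c⁻¹, c', c'⁻¹] t ^ n.natAbs := by
      rcases zpow_cases c n with e | e
      exacts [⟨0, e⟩, ⟨1, e⟩]
    have h2 : ∃ t : Fin 4, c' ^ m = ![c, c⁻¹, c', c'⁻¹] t ^ m.natAbs := by
      rcases zpow_cases c' m with e | e
      exacts [⟨2, e⟩, ⟨3, e⟩]
    obtain ⟨t, ht⟩ := h1
    obtain ⟨t', ht'⟩ := h2
    rw [ht, ht'] at h ⊢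
    obtain ⟨g, h3, h4⟩ := hL t t' _ _ (Int.natAbs_pos.2 hn) (Int.natAbs_pos.2 hm) h
    exact ⟨g, h3, h4.trans (Nat.le_add_right _ _)⟩
  · obtain ⟨m', h1, h2⟩ := hM n m h
    exact ⟨m', h1, h2.trans (Nat.le_add_left _ _)⟩

end

end PCP

theorem pc_of {X : Type} [DecidableEq X] {G : Type} [Group G] {π : FreeGroup X →* G}
    (hπ : Function.Surjective π) (hG : GBS G) : PC π := by
  intro C hC
  choose F hF hF' using fun p : C × C => PCP.pair hπ hG (hC p.1.1 p.1.2) (hC p.2.1 p.2.2)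
  obtain ⟨H, hH, hle⟩ := Bd.finite_sup F hF
  refine ⟨H, hH, fun c hc c' hc' n m h => ?_⟩
  obtain ⟨⟨g, h1, h2⟩, m', h3, h4⟩ := hF' (⟨c, hc⟩, ⟨c', hc'⟩) n m h
  exact ⟨⟨g, h1, h2.trans (hle _ _)⟩, m', h3, h4.trans (hle _ _)⟩

end CPOR
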