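import Pool.Agent.P.MP_2cb329_al.SIG

/-! Relative strong inertia. -/

set_option autoImplicit false

namespace CPOR

namespace RSIP

variable {X Z : Type} [DecidableEq X] (R : RA X Z)

theorem fb_trans {g' g f : FreeGroup X} (h1 : FB 1 g' g) (h2 : FB 1 g f) : FB 1 g' f :=
  cay_btw.1 ((cay_btw.2 h2).trans_left (cay_btw.2 h1)).1

/-- the subgraph spanned by a finite family of paths over S -/
theorem exists_graph {τ : Type} [Fintype τ] (S : Set X) (z : τ → Z) (f : τ → FreeGroup X)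
    (hf : ∀ t, f t ∈ FS S) :
    ∃ (V : Finset Z) (E : Finset (Z × X)), R.Sub V E ∧ (∀ e ∈ E, e.2 ∈ S) ∧
      (∀ t, R.D (z t) (f t) ∈ Finsupp.supported ℚ ℚ (E : Set (Z × X))) ∧
      (∀ t, R.mv (z t) (f t) ∈ V) ∧
      ∀ v ∈ V, ∃ t, ∃ c ∈ Finsupp.supported ℚ ℚ (E : Set (Z × X)),
        R.bd c = Finsupp.single v 1 - Finsupp.single (z t) 1 := by
  classical
  let P : τ → Finset (FreeGroup X) := fun t =>
    (Finset.range ((f t).norm + 1)).image fun i => FreeGroup.mk ((f t).toWord.take i)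
  have hP : ∀ t g, g ∈ P t ↔ FB 1 g (f t) := by
    intro t g
    rw [fb_one_iff]
    simp only [P, Finset.mem_image, Finset.mem_range, Nat.lt_succ_iff]
    exact ⟨fun ⟨i, h1, h2⟩ => ⟨i, h1, h2.symm⟩, fun ⟨i, h1, h2⟩ => ⟨i, h1, h2.symm⟩⟩
  have hself : ∀ t, f t ∈ P t := fun t => (hP t _).2 (by simp [FB])
  let V : Finset Z := Finset.univ.biUnion fun t => (P t).image (R.mv (z t))
  let E : Finset (Z × X) :=
    Finset.univ.biUnion fun t => (P t).biUnion fun g => (R.D (z t) g).support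
  have hV : ∀ t g, FB 1 g (f t) → R.mv (z t) g ∈ V := fun t g hg =>
    Finset.mem_biUnion.2 ⟨t, Finset.mem_univ _, Finset.mem_image_of_mem _ ((hP t g).2 hg)⟩
  have hE : ∀ t, ∀ g ∈ P t, R.D (z t) g ∈ Finsupp.supported ℚ ℚ (E : Set (Z × X)) := by
    intro t g hg
    rw [Finsupp.mem_supported]
    intro e he
    exact Finset.mem_coe.2 (Finset.mem_biUnion.2 ⟨t, Finset.mem_univ _,
      Finset.mem_biUnion.2 ⟨g, hg, Finset.mem_coe.1 he⟩⟩)
  have hE' : ∀ e ∈ E, ∃ t g, FB 1 g (f t) ∧ e ∈ (R.D (z t) g).support := by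
    intro e he
    obtain ⟨t, -, he⟩ := Finset.mem_biUnion.1 he
    obtain ⟨g, hg, he⟩ := Finset.mem_biUnion.1 he
    exact ⟨t, g, (hP t g).1 hg, he⟩
  refine ⟨V, E, fun e he => ?_, fun e he => ?_, fun t => hE t _ (hself t),
    fun t => hV t _ ((hP t _).1 (hself t)), fun v hv => ?_⟩
  · obtain ⟨t, g, hg, he⟩ := hE' e he
    obtain ⟨-, ⟨g1, h1, e1⟩, g2, h2, e2⟩ := R.mem_support_D he
    rw [e2]
    exact ⟨e1 ▸ hV t g1 (fb_trans h1 hg), hV t g2 (fb_trans h2 hg)⟩
  · obtain ⟨t, g, hg, he⟩ := hE' e he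
    obtain ⟨⟨b, hb⟩, -⟩ := R.mem_support_D he
    have h1 : g ∈ FS S := by simpa using hg.mem_FS (S := S) (by simpa using hf t)
    exact mem_FS_iff.1 h1 _ hb
  · obtain ⟨t, -, hv⟩ := Finset.mem_biUnion.1 hv
    obtain ⟨g, hg, rfl⟩ := Finset.mem_image.1 hv
    exact ⟨t, _, hE t g hg, R.bd_D _ _⟩

omit [DecidableEq X] in
/-- cutting a functional down to a set of edges -/
theorem exists_cut (lam : (Z × X →₀ ℚ) →ₗ[ℚ] ℚ) (P : Z × X → Prop) :
    ∃ mu : (Z × X →₀ ℚ) →ₗ[ℚ] ℚ, (∀ c : Z × X →₀ ℚ, (∀ e ∈ c.support, P e) → mu c = lam c) ∧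
      ∀ c : Z × X →₀ ℚ, (∀ e ∈ c.support, ¬ P e) → mu c = 0 := by
  classical
  refine ⟨lam ∘ₗ (Finsupp.filterAddHom P).toRatLinearMap, fun c hc => ?_, fun c hc => ?_⟩
  · have : c.filter P = c := (Finsupp.filter_eq_self_iff P c).2 fun e he =>
      hc e (Finsupp.mem_support_iff.2 he)
    change lam (c.filter P) = _
    rw [this]
  · have : c.filter P = 0 := (Finsupp.filter_eq_zero_iff P c).2 fun e he => by
      by_contra h0
      exact hc e (Finsupp.mem_support_iff.2 h0) he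
    change lam (c.filter P) = _
    rw [this, map_zero]

/-- the edges of a chain over S start in the orbit of the base point -/
theorem supp_orbit {S : Set X} {z : Z} {f : FreeGroup X} (hf : f ∈ FS S) {e : Z × X}
    (he : e ∈ (R.D z f).support) : ∃ g ∈ FS S, e.1 = R.mv z g := by
  obtain ⟨-, ⟨g, hg, e1⟩, -⟩ := R.mem_support_D he
  exact ⟨g, by simpa using hg.mem_FS (S := S) (by simpa using hf), e1⟩

omit [DecidableEq X] in
theorem mv_mk {Γ : Type} [Group Γ] (π : FreeGroup X →* Γ) (K : Subgroup Γ) (g : Γ)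
    (f : FreeGroup X) :
    (RA.coset π K).mv (Quotient.mk'' g) f = Quotient.mk'' (g * π f) := rfl

theorem mk_eq {Γ : Type} [Group Γ] (K : Subgroup Γ) (g g' : Γ) :
    (Quotient.mk'' g : Quotient (QuotientGroup.rightRel K)) = Quotient.mk'' g' ↔ g' * g⁻¹ ∈ K := by
  rw [Quotient.eq'', QuotientGroup.rightRel_apply]

end RSIP

namespace Lv

variable (L : Lv)

/-- (RSI) strong inertia with points. -/
theorem rsi {SA SN : Set L.X} (hS : L.Adm (SA ∪ SN)) {K : Subgroup L.G} {N : ℕ} (hK : RkLe K N)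
    {q m : ℕ} (d : Fin q → L.G) (h : Fin (m + 1) → L.G)
    (hh : ∀ i j, (∃ k ∈ K, (h j)⁻¹ * k * h i ∈ MS L.π SA) → i = j)
    (ρ : Fin (m + 1) → ℕ) (hρ : ∀ i, RkGe (K ⊓ cj (h i) (MS L.π SA)) (ρ i))
    (qq : Fin (m + 1) → ℕ) (γ : ∀ i, Fin (qq i) → L.G)
    (hγA : ∀ i l, (h i)⁻¹ * γ i l ∈ MS L.π SA)
    (hγN : ∀ i l, ∃ k ∈ K, ∃ j, (k * d j)⁻¹ * γ i l ∈ MS L.π SN)
    (hγd : ∀ i l l', (∃ e ∈ K ⊓ cj (h i) (MS L.π SA), (γ i l')⁻¹ * e * γ i l ∈ MS L.π SN) →
      l = l') :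
    ∑ i, (ρ i + qq i) + 1 ≤ N + q + (m + 1) := by
  classical
  obtain ⟨a, ha, hna⟩ := hS
  let R := RA.coset L.π K
  let cl : L.G → Quotient (QuotientGroup.rightRel K) := fun g => Quotient.mk'' g
  have hmv : ∀ g f, R.mv (cl g) f = cl (g * L.π f) := fun g f => RSIP.mv_mk L.π K g f
  have heq : ∀ g g', cl g = cl g' ↔ g' * g⁻¹ ∈ K := RSIP.mk_eq K
  choose x χ hx using fun i => (hρ i).exists_elts
  have hx1 : ∀ i j, ∃ f ∈ FS SA, L.π f = (h i)⁻¹ * (x i j : L.G) * h i := fun i j =>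
    mem_MS.1 (mem_cj.1 (x i j).2.2)
  choose fx hfx hfx' using hx1
  choose gA hgA hgA' using fun i l => mem_MS.1 (hγA i l)
  choose kN hkN jN hjN using hγN
  choose gN hgN hgN' using fun i l => mem_MS.1 (hjN i l)
  have hloop : ∀ i j, R.mv (cl (h i)) (fx i j) = cl (h i) := by
    intro i j
    rw [hmv, heq, hfx']
    have : h i * (h i * ((h i)⁻¹ * (x i j : L.G) * h i))⁻¹ = (x i j : L.G)⁻¹ := by group
    rw [this]
    exact K.inv_mem (x i j).2.1
  obtain ⟨VA, EA, hsA, hlA, hDA, hVA, hcA⟩ := RSIP.exists_graph R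
    (τ := Σ i : Fin (m + 1), (Fin (ρ i) ⊕ Fin (qq i) ⊕ Unit)) SA (fun t => cl (h t.1))
    (fun t => Sum.elim (fx t.1) (Sum.elim (gA t.1) fun _ => 1) t.2) (by
      rintro ⟨i, j | l | u⟩
      · exact hfx i j
      · exact hgA i l
      · exact (FS SA).one_mem)
  obtain ⟨VB, EB, hsB, hlB, -, hVB, hcB⟩ := RSIP.exists_graph R
    (τ := Σ i : Fin (m + 1), Fin (qq i)) SN (fun t => cl (d (jN t.1 t.2)))
    (fun t => gN t.1 t.2) (fun t => hgN t.1 t.2)
  have eA := R.euler_le hsA (m + 1) (fun i => cl (h i)) fun v hv => by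
    obtain ⟨t, c, hc, hb⟩ := hcA v hv
    exact ⟨t.1, c, hc, hb⟩
  have eB := R.euler_le hsB q (fun j => cl (d j)) fun v hv => by
    obtain ⟨t, c, hc, hb⟩ := hcB v hv
    exact ⟨_, c, hc, hb⟩
  -- the cycles of the first graph
  have hb1 : ∑ i, ρ i ≤ Module.finrank ℚ (R.Z1 EA) := by
    have := R.finiteDimensional_Z1 EA
    have hmem : ∀ i f, f ∈ FS SA → R.mv (cl (h i)) f = cl (h i) →
        h i * L.π f * (h i)⁻¹ ∈ K ⊓ cj (h i) (MS L.π SA) := by
      intro i f hf hl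
      refine ⟨?_, mem_cj.2 ?_⟩
      · rw [hmv, eq_comm, heq] at hl
        exact hl
      · have : (h i)⁻¹ * (h i * L.π f * (h i)⁻¹) * h i = L.π f := by group
        rw [this]
        exact mem_MS.2 ⟨f, hf, rfl⟩
    have hco : ∀ (i : Fin (m + 1)) (j : Fin (ρ i)), ∃ mu : (_ →₀ ℚ) →ₗ[ℚ] ℚ,
        (∀ j', mu (R.D (cl (h i)) (fx i j')) = if j = j' then 1 else 0) ∧
        ∀ i', i' ≠ i → ∀ j', mu (R.D (cl (h i')) (fx i' j')) = 0 := by
      intro i j
      obtain ⟨lam, hlam⟩ := R.exists_cochain (cl (h i)) SA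
        (fun f => if hf : h i * L.π f * (h i)⁻¹ ∈ K ⊓ cj (h i) (MS L.π SA) then
          Multiplicative.toAdd (χ i j ⟨_, hf⟩) else 0) (by
          intro f hf g hg lf lg
          have lfg : R.mv (cl (h i)) (f * g) = cl (h i) := by rw [R.mv_mul, lf, lg]
          rw [dif_pos (hmem i f hf lf), dif_pos (hmem i g hg lg),
            dif_pos (hmem i _ ((FS SA).mul_mem hf hg) lfg), ← toAdd_mul, ← map_mul]
          congr 2
          apply Subtype.ext
          simp only [map_mul, Subgroup.coe_mul]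
          group)
      obtain ⟨mu, h1, h2⟩ := RSIP.exists_cut lam
        fun e => ∃ g ∈ FS SA, e.1 = R.mv (cl (h i)) g
      refine ⟨mu, fun j' => ?_, fun i' hi' j' => h2 _ fun e he => ?_⟩
      · rw [h1 _ fun e he => RSIP.supp_orbit R (hfx i j') he, hlam _ (hfx i j') (hloop i j'),
          dif_pos (hmem i _ (hfx i j') (hloop i j')), ← hx i j j']
        congr 2
        apply Subtype.ext
        simp only [hfx']
        group
      · rintro ⟨g, hg, e1⟩
        obtain ⟨g', hg', e2⟩ := RSIP.supp_orbit R (hfx i' j') he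
        rw [e2, hmv, hmv, heq] at e1
        refine hi' (hh i' i ⟨_, e1, ?_⟩)
        have : (h i)⁻¹ * (h i * L.π g * (h i' * L.π g')⁻¹) * h i' = L.π (g * g'⁻¹) := by
          simp only [map_mul, map_inv]
          group
        rw [this]
        exact mem_MS.2 ⟨_, (FS SA).mul_mem hg ((FS SA).inv_mem hg'), rfl⟩
    choose mu hmu1 hmu2 using hco
    let v : (Σ i : Fin (m + 1), Fin (ρ i)) → R.Z1 EA := fun t =>
      ⟨R.D (cl (h t.1)) (fx t.1 t.2), hDA ⟨t.1, Sum.inl t.2⟩,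
        LinearMap.mem_ker.2 (by rw [R.bd_D, hloop, sub_self])⟩
    have hli : LinearIndependent ℚ v := by
      refine LinearIndependent.of_pairwise_dual_eq_zero_one v
        (fun t => mu t.1 t.2 ∘ₗ (R.Z1 EA).subtype) ?_ ?_
      · rintro ⟨i, j⟩ ⟨i', j'⟩ hne
        by_cases hi : i' = i
        · subst hi
          have hj : j ≠ j' := fun e => hne (by rw [e])
          have := hmu1 i' j j'
          rw [if_neg hj] at this
          exact this
        · exact hmu2 i j i' hi j'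
      · rintro ⟨i, j⟩
        have := hmu1 i j j
        rw [if_pos rfl] at this
        exact this
    have := hli.fintype_card_le_finrank
    simpa using this
  -- the intersection
  have hγA' : ∀ i l, cl (γ i l) ∈ VA := by
    intro i l
    have := hVA ⟨i, Sum.inr (Sum.inl l)⟩
    simp only [Sum.elim_inr, Sum.elim_inl] at this
    rw [hmv, hgA'] at this
    simpa using this
  have hγB' : ∀ i l, cl (γ i l) ∈ VB := by
    intro i l
    have := hVB ⟨i, l⟩
    simp only at this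
    rw [hmv, hgN'] at this
    have e : cl (d (jN i l) * ((kN i l * d (jN i l))⁻¹ * γ i l)) = cl (γ i l) := by
      rw [heq]
      have : γ i l * (d (jN i l) * ((kN i l * d (jN i l))⁻¹ * γ i l))⁻¹ = kN i l := by group
      rw [this]
      exact hkN i l
    rwa [e] at this
  have hsI : R.Sub (VA ∩ VB) (EA ∩ EB) := fun e he => by
    obtain ⟨h1, h2⟩ := Finset.mem_inter.1 he
    exact ⟨Finset.mem_inter.2 ⟨(hsA e h1).1, (hsB e h2).1⟩,
      Finset.mem_inter.2 ⟨(hsA e h1).2, (hsB e h2).2⟩⟩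
  let ε := (Fintype.equivFin (Σ i : Fin (m + 1), Fin (qq i))).symm
  have eI := R.euler_ge hsI (fun z => {z' | ∃ g ∈ FS (SA ∩ SN), z' = R.mv z g}) (by
      intro e he
      obtain ⟨h1, h2⟩ := Finset.mem_inter.1 he
      have hx : FreeGroup.of e.2 ∈ FS (SA ∩ SN) :=
        Subgroup.subset_closure ⟨e.2, ⟨hlA e h1, hlB e h2⟩, rfl⟩
      ext z'
      constructor
      · rintro ⟨g, hg, rfl⟩
        exact ⟨_, (FS _).mul_mem hx hg, (R.mv_mul _ _ _).symm⟩
      · rintro ⟨g, hg, rfl⟩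
        refine ⟨_, (FS _).mul_mem ((FS _).inv_mem hx) hg, ?_⟩
        rw [← R.mv_mul, mul_inv_cancel_left])
    _ (fun n => cl (γ (ε n).1 (ε n).2))
    (fun n => Finset.mem_inter.2 ⟨hγA' _ _, hγB' _ _⟩) (by
      intro n n' hn
      apply ε.injective
      simp only at hn
      generalize ε n = t at hn ⊢
      generalize ε n' = t' at hn ⊢
      obtain ⟨i, l⟩ := t
      obtain ⟨i', l'⟩ := t'
      have h1 : cl (γ i' l') ∈ {z' | ∃ g ∈ FS (SA ∩ SN), z' = R.mv (cl (γ i' l')) g} :=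
        ⟨1, (FS _).one_mem, (R.mv_one _).symm⟩
      rw [← hn] at h1
      obtain ⟨g, hg, e1⟩ := h1
      rw [hmv, eq_comm, heq] at e1
      have gA1 : L.π g ∈ MS L.π SA := mem_MS.2 ⟨g, FS_mono Set.inter_subset_left hg, rfl⟩
      have gN1 : L.π g ∈ MS L.π SN := mem_MS.2 ⟨g, FS_mono Set.inter_subset_right hg, rfl⟩
      have h2 : (h i')⁻¹ * (γ i' l' * (γ i l * L.π g)⁻¹) * h i ∈ MS L.π SA := by
        have : (h i')⁻¹ * (γ i' l' * (γ i l * L.π g)⁻¹) * h i =
            ((h i')⁻¹ * γ i' l') * (L.π g)⁻¹ * ((h i)⁻¹ * γ i l)⁻¹ := by group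
        rw [this]
        exact Subgroup.mul_mem _ (Subgroup.mul_mem _ (hγA i' l') (Subgroup.inv_mem _ gA1))
          (Subgroup.inv_mem _ (hγA i l))
      have hi : i = i' := hh i i' ⟨_, e1, h2⟩
      subst hi
      have hl : l = l' := hγd i l l' ⟨_, ⟨e1, mem_cj.2 h2⟩, by
        have : (γ i l')⁻¹ * (γ i l' * (γ i l * L.π g)⁻¹) * γ i l = (L.π g)⁻¹ := by group
        rw [this]
        exact Subgroup.inv_mem _ gN1⟩
      rw [hl])
  have hb2 : Module.finrank ℚ (R.Z1 (EA ∩ EB)) ≤ Module.finrank ℚ (R.Z1 EB) := by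
    have := R.finiteDimensional_Z1 EB
    exact Submodule.finrank_mono (R.Z1_mono Finset.inter_subset_right)
  have eS := L.sig hK ha (VA ∪ VB) (EA ∪ EB)
    ⟨_, Finset.mem_union_left _ (hVA ⟨0, Sum.inr (Sum.inr ())⟩)⟩
    (fun e he => by
      rcases Finset.mem_union.1 he with h1 | h1
      · exact ⟨Finset.mem_union_left _ (hsA e h1).1, Finset.mem_union_left _ (hsA e h1).2⟩
      · exact ⟨Finset.mem_union_right _ (hsB e h1).1, Finset.mem_union_right _ (hsB e h1).2⟩)
    (fun e he hea => by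
      rcases Finset.mem_union.1 he with h1 | h1
      · exact hna (Or.inl (hea ▸ hlA e h1))
      · exact hna (Or.inr (hea ▸ hlB e h1)))
  have c1 := Finset.card_union_add_card_inter VA VB
  have c2 := Finset.card_union_add_card_inter EA EB
  have c3 : Fintype.card (Σ i : Fin (m + 1), Fin (qq i)) = ∑ i, qq i := by simp
  rw [Finset.sum_add_distrib]
  omega

/-- (SI) -/
theorem si {SA : Set L.X} (hS : L.Adm SA) {K : Subgroup L.G} {N : ℕ} (hK : RkLe K N)
    {m : ℕ} (h : Fin (m + 1) → L.G)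
    (hh : ∀ i j, (∃ k ∈ K, (h j)⁻¹ * k * h i ∈ MS L.π SA) → i = j)
    (ρ : Fin (m + 1) → ℕ) (hρ : ∀ i, RkGe (K ⊓ cj (h i) (MS L.π SA)) (ρ i)) :
    ∑ i, ρ i + 1 ≤ N + (m + 1) := by
  have := L.rsi (SA := SA) (SN := SA) (by simpa using hS) hK (q := 0) Fin.elim0 h hh ρ hρ
    (fun _ => 0) (fun _ => Fin.elim0) (fun _ l => l.elim0) (fun _ l => l.elim0)
    (fun _ l => l.elim0)
  simpa using this

/-- Rank does not go up when intersecting with a conjugate of a Magnus subgroup. -/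
theorem rk_inf {SA : Set L.X} (hS : L.Adm SA) {K : Subgroup L.G} {N : ℕ} (hK : RkLe K N)
    (h : L.G) : ∃ n ≤ N, RkLe (K ⊓ cj h (MS L.π SA)) n ∧ RkGe (K ⊓ cj h (MS L.π SA)) n := by
  refine rkLe_of_bound (isFree_of_le (isFree_cj h (L.isFree_MS hS)) inf_le_right) fun ρ hρ => ?_
  have := L.si hS hK (m := 0) (fun _ => h) (fun i j _ => Subsingleton.elim (α := Fin 1) i j)
    (fun _ => ρ) (fun _ => hρ)
  simp only [zero_add, Finset.sum_const, Finset.card_univ, Fintype.card_fin, smul_eq_mul,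
    one_mul] at this
  omega

/-- (MAL) -/
theorem mal {S : Set L.X} (hS : L.Adm S) {x : L.G} (hx : x ∉ MS L.π S) :
    ∃ c, MS L.π S ⊓ cj x (MS L.π S) = Subgroup.zpowers c := by
  obtain ⟨n, -, h1, h2⟩ := L.rk_MS hS
  obtain ⟨n', hn', h3, -⟩ := rkLe_of_bound (K := MS L.π S ⊓ cj x (MS L.π S)) (r := 1)
    (isFree_of_le (L.isFree_MS hS) inf_le_left) fun ρ hρ => by
      have := L.si hS h1 (m := 1) ![1, x] (by
          intro i j hij
          obtain ⟨k, hk, hm⟩ := hij
          fin_cases i <;> fin_cases j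
          · rfl
          · exfalso
            apply hx
            have h4 : x⁻¹ * k ∈ MS L.π S := by simpa using hm
            have := Subgroup.mul_mem _ hk (Subgroup.inv_mem _ h4)
            simpa using this
          · exfalso
            apply hx
            have h4 : k * x ∈ MS L.π S := by simpa using hm
            have := Subgroup.mul_mem _ (Subgroup.inv_mem _ hk) h4
            simpa using this
          · rfl) ![n, ρ] (by
          intro i
          fin_cases i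
          · have e : MS L.π S ⊓ cj 1 (MS L.π S) = MS L.π S := by
              ext g
              simp
            simpa [e] using h2
          · simpa using hρ)
      simp only [Fin.sum_univ_succ, Matrix.cons_val_zero, Matrix.cons_val_succ,
        Finset.univ_eq_empty, Finset.sum_empty] at this
      omega
  exact (h3.mono hn').cyclic

end Lv
end CPOR
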