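import Pool.Agent.P.MP_2cb329_al.GL2
import Pool.Agent.P.MP_2cb329_al.PC
import Pool.Agent.P.MP_2cb329_al.RSI

/-! From the maximal Magnus subgroups to all of them. -/

set_option autoImplicit false

namespace CPOR
namespace Lv

theorem ClMax.cl {L : Lv} (h : L.ClMax) : L.Cl := by
  have sub : ∀ {S : Set L.X} {a : L.X}, a ∉ S → S ⊆ {a}ᶜ := fun ha x hx he =>
    ha ((Set.mem_singleton_iff.1 he) ▸ hx)
  have ftm : ∀ a b, L.Occ a → L.Occ b → FTr L.π {a}ᶜ {b}ᶜ := fun a b ha hb =>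
    ft_of_qc L.surj (h.mem a ha) (h.mem b hb)
      (qc_of_dc L.surj (L.free ha.adm) (h.mem a ha) (h.dc1 a b ha hb) (h.dc2 a b ha hb))
  have ft : ∀ S S', L.Adm S → L.Adm S' → FTr L.π S S' := fun S S' ⟨a, ha, hn⟩ ⟨b, hb, hn'⟩ =>
    (ftm a b ha hb).mono (sub hn) (sub hn')
  have qc : ∀ S S', L.Adm S → L.Adm S' → QC L.π S S' := fun S S' hS hS' =>
    qc_of_ft L.surj (ft S S' hS hS')
  have sf : ∀ S S', L.Adm S → L.Adm S' → Sfin L.π S S' := fun S S' ⟨a, ha, hn⟩ ⟨b, hb, hn'⟩ =>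
    sfin_mono L.surj (L.free ha.adm) (L.free hb.adm) (h.mem b hb) (ftm a b ha hb)
      (h.sfin a b ha hb) (sub hn) (sub hn')
  have ex : ∀ S, L.Adm S → Exc L.π S := fun S hS =>
    exc_of_sfin (sf S S hS hS) fun x hx => L.mal hS hx
  refine ⟨h.fill, fun S ⟨a, ha, hn⟩ => (h.mem a ha).mono (sub hn),
    fun S S' hS hS' => dc1_of_qc L.surj (qc S S' hS hS'),
    fun S S' hS hS' => dc2_of_qc L.surj (qc S S' hS hS'), qc, ft, sf, ex,
    fun S ⟨a, ha, hn⟩ => ci_mono L.surj (L.free ha.adm) (h.mem a ha) (ex _ ha.adm)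
      (pc_of L.surj h.gbs) (h.ci a ha) (sub hn), h.cp, h.gbs⟩

end Lv
end CPOR
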