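import Pool.Agent.P.MP_2cb329_al.OM

/-! Counting monotone paths with nontrivial stabiliser. -/

set_option autoImplicit false

namespace CPOR
namespace St

variable {L L' : Lv} (s : St L L') {a : L.X} (ha : L.Occ a)

theorem cn_mem_EI {e : ℕ → s.Ed} {K : ℕ} {g : L.G} : g ∈ s.EI e K ↔ ∀ i < K, g • e i = e i :=
  Iff.rfl

theorem cn_free (e : ℕ → s.Ed) (K : ℕ) : IsFreeGroup (s.EI e (K + 1)) :=
  isFree_of_le (s.isFree_stab (e 0)) fun _ hg => hg 0 (Nat.succ_pos K)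

theorem cn_ed_iff (g₀ : L.G) (h h' : L'.G) :
    s.ed (g₀ * s.j h) = s.ed (g₀ * s.j h') ↔ h⁻¹ * h' ∈ MS L'.π s.SA := by
  rw [s.ed_eq_iff, mem_MS]
  refine exists_congr fun f => and_congr_right fun _ => ?_
  rw [mul_assoc, mul_right_inj]
  change s.j h' = s.j h * s.j (L'.π f) ↔ _
  rw [← map_mul, s.j_inj.eq_iff, eq_inv_mul_iff_mul_eq, eq_comm]

theorem cn_tr {e e' : ℕ → s.Ed} {K : ℕ} {g : L.G} (hg : ∀ l ≤ K, g • e' l = e l) :
    s.EI e' (K + 1) ⊓ MulAction.stabilizer L.G (g⁻¹ • e (K + 1)) = cj g⁻¹ (s.EI e (K + 1 + 1)) := by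
  ext k
  rw [Subgroup.mem_inf, mem_cj, inv_inv, cn_mem_EI, cn_mem_EI, MulAction.mem_stabilizer_iff]
  have key : ∀ x : s.Ed, (g * k * g⁻¹) • x = x ↔ k • g⁻¹ • x = g⁻¹ • x := fun x => by
    rw [mul_smul, mul_smul, smul_eq_iff_eq_inv_smul]
  have hg' : ∀ l ≤ K, g⁻¹ • e l = e' l := fun l hl => by rw [← hg l hl, inv_smul_smul]
  constructor
  · rintro ⟨h1, h2⟩ i hi
    rw [key]
    rcases Nat.lt_succ_iff_lt_or_eq.1 hi with hi | rfl
    · rw [hg' i (by omega)]; exact h1 i hi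
    · exact h2
  · intro h
    refine ⟨fun i hi => ?_, (key _).1 (h _ (by omega))⟩
    rw [← hg' i (by omega), ← key]
    exact h i (by omega)

include ha

/-- Strong inertia at one vertex of the tree. -/
theorem cn_loc {ι : Type} [Fintype ι] [Nonempty ι] (v : s.Vt) (E : Subgroup L.G)
    (hE : ∀ k ∈ E, k • v = v) {n q₀ : ℕ} (hn : RkLe E n) (f : ι → s.Ed)
    (hf : ∀ i, s.src (f i) = v) (hff : ∀ i j, (∃ k ∈ E, k • f i = f j) → i = j) (ρ q : ι → ℕ)
    (hρ : ∀ i, RkGe (E ⊓ MulAction.stabilizer L.G (f i) : Subgroup L.G) (ρ i))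
    (ω : ∀ i, Fin (q i) → L.Om a) (hω : ∀ i x, s.InE (ω i x) (f i))
    (hωω : ∀ i x y, (∃ k ∈ E ⊓ MulAction.stabilizer L.G (f i), k • ω i x = ω i y) → x = y)
    (w : Fin q₀ → L.Om a) (hw : ∀ j, s.InV (w j) v)
    (hωw : ∀ i x, ∃ k ∈ E, ∃ j, k • w j = ω i x) :
    ∑ i, (ρ i + q i) + 1 ≤ n + q₀ + Fintype.card ι := by
  classical
  obtain ⟨g₀, rfl⟩ : ∃ g₀, s.vx g₀ = v := QuotientGroup.mk_surjective v
  let θ : L'.G →* L.G := (MulAut.conj g₀).toMonoidHom.comp s.j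
  have hθ : ∀ k h, θ k * (g₀ * s.j h) = g₀ * s.j (k * h) := fun k h => by
    simp [θ, mul_assoc]
  have θinj : Function.Injective θ := (MulAut.conj g₀).injective.comp s.j_inj
  have hle : E ≤ θ.range := fun k hk => by
    obtain ⟨h, hh⟩ := s.vx_eq_iff.1 ((hE k hk).symm.trans (s.smul_vx k g₀))
    refine ⟨h, ?_⟩
    have := hθ h 1
    rw [map_one, mul_one, mul_one, ← hh] at this
    exact mul_right_cancel this
  have hmap : (E.comap θ).map θ = E := Subgroup.map_comap_eq_self hle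
  have hK : RkLe (E.comap θ) n := (rkLe_map_iff θ θinj).1 (hmap.symm ▸ hn)
  have e1 : ∀ i, ∃ h, s.ed (g₀ * s.j h) = f i := fun i => by
    obtain ⟨g, hg⟩ : ∃ g, s.ed g = f i := QuotientGroup.mk_surjective (f i)
    obtain ⟨h, hh⟩ := s.vx_eq_iff.1 ((hf i).symm.trans (by rw [← hg, s.src_ed]))
    exact ⟨h, hh ▸ hg⟩
  choose h hh using e1
  have e2 : ∀ j, ∃ d, L.om a (g₀ * s.j d) = w j := fun j => by
    obtain ⟨g, hg, hv⟩ := hw j
    obtain ⟨d, hd⟩ := s.vx_eq_iff.1 hv.symm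
    exact ⟨d, hd ▸ hg⟩
  choose d hd using e2
  have e3 : ∀ i x, ∃ γ, L.om a (g₀ * s.j γ) = ω i x ∧ s.ed (g₀ * s.j γ) = f i := fun i x => by
    obtain ⟨g, hg, he⟩ := hω i x
    obtain ⟨γ, hγ⟩ := s.vx_eq_iff.1 ((hf i).symm.trans (by rw [← he, s.src_ed]))
    exact ⟨γ, hγ ▸ hg, hγ ▸ he⟩
  choose γ hγ1 hγ2 using e3
  have hst : ∀ k i j, θ k • f i = f j ↔ (h j)⁻¹ * k * h i ∈ MS L'.π s.SA := fun k i j => by
    rw [← hh i, ← hh j, s.smul_ed, hθ, eq_comm, s.cn_ed_iff, mul_assoc]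
  have hmap2 : ∀ i, (E.comap θ ⊓ cj (h i) (MS L'.π s.SA)).map θ =
      E ⊓ MulAction.stabilizer L.G (f i) := fun i => by
    ext k
    constructor
    · rintro ⟨k', ⟨h1, h2⟩, rfl⟩
      exact ⟨h1, (hst k' i i).2 (mem_cj.1 h2)⟩
    · rintro ⟨h1, h2⟩
      obtain ⟨k', rfl⟩ := hle h1
      exact ⟨k', ⟨h1, mem_cj.2 ((hst k' i i).1 h2)⟩, rfl⟩
  obtain ⟨m, hm⟩ : ∃ m, Fintype.card ι = m + 1 :=
    Nat.exists_eq_succ_of_ne_zero Fintype.card_ne_zero
  let σ : Fin (m + 1) ≃ ι := (Fintype.equivFinOfCardEq hm).symm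
  have hom : ∀ (k x : L.G), k • L.om a x = L.om a (k * x) := fun _ _ => rfl
  have := L'.rsi (s.adm_A_N ha) hK d (fun i => h (σ i))
    (fun i j ⟨k, hk, hm⟩ => σ.injective (hff _ _ ⟨θ k, hk, (hst k _ _).2 hm⟩))
    (fun i => ρ (σ i)) (fun i => (rkGe_map_iff θ θinj).1 ((hmap2 (σ i)).symm ▸ hρ (σ i)))
    (fun i => q (σ i)) (fun i => γ (σ i))
    (fun i x => (s.cn_ed_iff g₀ _ _).1 ((hh _).trans (hγ2 _ x).symm))
    (fun i x => by
      obtain ⟨k, hk, j, hj⟩ := hωw (σ i) x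
      obtain ⟨k', rfl⟩ := hle hk
      refine ⟨k', hk, j, ?_⟩
      rw [← hd, ← hγ1, hom, hθ] at hj
      obtain ⟨u, hu, he⟩ := s.ov_eq ha hj (s.vx_eq_iff.2 ⟨(k' * d j)⁻¹ * γ (σ i) x, by
        rw [mul_assoc, ← map_mul, mul_inv_cancel_left]⟩)
      refine mem_MS.2 ⟨u, hu, ?_⟩
      rw [mul_assoc, mul_right_inj] at he
      change s.j _ = s.j _ * s.j (L'.π u) at he
      rw [← map_mul, s.j_inj.eq_iff] at he
      rw [he, inv_mul_cancel_left])
    (fun i x y ⟨k, hk, hm⟩ => by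
      refine hωω (σ i) x y ⟨θ k, hmap2 (σ i) ▸ Subgroup.mem_map_of_mem θ hk, ?_⟩
      obtain ⟨u, hu, he⟩ := mem_MS.1 hm
      rw [← hγ1, ← hγ1, hom, hθ, ← s.om_mul_w ha (g₀ * s.j (γ (σ i) y)) hu]
      congr 1
      change _ = g₀ * s.j _ * s.j (L'.π u)
      rw [mul_assoc, ← map_mul, he, mul_assoc, mul_inv_cancel_left])
  rw [hm, ← σ.sum_comp]
  exact this

/-- (CNT) for `K + 1`-paths that are pairwise inequivalent under `G`, with `q i` cosets along the
path that are pairwise inequivalent under the stabiliser. -/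
theorem cnt (K : ℕ) : ∀ (m : ℕ) (e : Fin m → ℕ → s.Ed) (ρ q : Fin m → ℕ)
    (ω : ∀ i, Fin (q i) → L.Om a), (∀ i, s.Mono (e i) (K + 1)) →
    (∀ i j, (∃ g : L.G, ∀ l ≤ K, g • e i l = e j l) → i = j) →
    (∀ i, RkGe (s.EI (e i) (K + 1)) (ρ i)) → (∀ i, 1 ≤ q i) →
    (∀ i x, ∀ l ≤ K, s.InE (ω i x) (e i l)) →
    (∀ i x y, (∃ g ∈ s.EI (e i) (K + 1), g • ω i x = ω i y) → x = y) →
    ∑ i, (ρ i + q i) ≤ Fintype.card L'.X + m := by
  classical
  induction K with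
  | zero =>
    intro m e ρ q ω _ h2 h3 _ h5 h6
    have hone : ∀ i, ρ i + q i ≤ Fintype.card L'.X + 1 := fun i => by
      obtain ⟨g, hg⟩ : ∃ g, s.ed g = e i 0 := QuotientGroup.mk_surjective _
      have hE : s.EI (e i) (0 + 1) = cj g (s.M' s.SA) := by
        rw [← s.stab_ed, hg]
        ext k
        rw [cn_mem_EI, MulAction.mem_stabilizer_iff]
        exact ⟨fun h => h 0 (by omega), fun h l hl => by rwa [show l = 0 by omega]⟩
      obtain ⟨n, hn, h1, -⟩ := L'.rk_MS s.adm_A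
      have hρ : ρ i ≤ n := by
        refine rk_le ?_ (h3 i)
        rw [hE, rkLe_cj_iff, s.M'_eq]
        exact h1.map _
      have hq : q i ≤ 1 := by
        have : Subsingleton (Fin (q i)) := ⟨fun x y => by
          obtain ⟨p, hp1, hp2⟩ := h5 i x 0 le_rfl
          obtain ⟨p', hp1', hp2'⟩ := h5 i y 0 le_rfl
          refine h6 i x y ⟨p' * p⁻¹, fun l hl => ?_, ?_⟩
          · rw [show l = 0 by omega]
            conv_lhs => rw [← hp2]
            rw [s.smul_ed, inv_mul_cancel_right, hp2']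
          · rw [← hp1, ← hp1']
            change L.om a (p' * p⁻¹ * p) = _
            rw [inv_mul_cancel_right]⟩
        simpa using Fintype.card_le_one_iff_subsingleton.2 this
      omega
    have hsub : ∀ i j : Fin m, i = j := fun i j => by
      obtain ⟨g, hg⟩ : ∃ g, s.ed g = e i 0 := QuotientGroup.mk_surjective _
      obtain ⟨g', hg'⟩ : ∃ g, s.ed g = e j 0 := QuotientGroup.mk_surjective _
      refine h2 i j ⟨g' * g⁻¹, fun l hl => ?_⟩
      rw [show l = 0 by omega, ← hg, ← hg', s.smul_ed, inv_mul_cancel_right]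
    rcases m with _ | _ | m
    · simp
    · simpa using hone 0
    · exact absurd (hsub 0 1) (by simp)
  | succ K ih =>
    intro m e ρ q ω h1 h2 h3 h4 h5 h6
    obtain ⟨C, w, -, hw, hcl⟩ := SigP.exists_reps
      (fun i j : Fin m => ∃ g : L.G, ∀ l ≤ K, g • e i l = e j l)
      (fun _ => ⟨1, fun _ _ => one_smul _ _⟩)
      (fun _ _ _ ⟨g, hg⟩ ⟨g', hg'⟩ => ⟨g' * g, fun l hl => by rw [mul_smul, hg l hl, hg' l hl]⟩)
      Finset.univ
    choose cl g hg using fun y => hcl y (Finset.mem_univ y)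
    have hclw : ∀ c, cl (w c) = c := fun c => hw _ _ ⟨_, hg (w c)⟩
    have hmono : ∀ i, s.Mono (e i) (K + 1) := fun i l hl => h1 i l (by omega)
    have hrk : ∀ c, ∃ n, RkLe (s.EI (e (w c)) (K + 1)) n ∧ RkGe (s.EI (e (w c)) (K + 1)) n :=
      fun c => by
        obtain ⟨n, -, hn⟩ := rkLe_of_bound (s.cn_free (e (w c)) K) (r := Fintype.card L'.X)
          fun r hr => by
            have := ih 1 (fun _ => e (w c)) (fun _ => r) (fun _ => 1)
              (fun _ _ => ω (w c) ⟨0, h4 _⟩) (fun _ => hmono _)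
              (fun i j _ => Subsingleton.elim i j) (fun _ => hr) (fun _ => le_rfl)
              (fun _ _ l hl => h5 _ _ l (by omega)) (fun _ x y _ => Subsingleton.elim x y)
            simpa using this
        exact ⟨n, hn⟩
    choose n hn1 hn2 using hrk
    have hin : ∀ y x, ∀ l ≤ K, s.InE ((g y)⁻¹ • ω y x) (e (w (cl y)) l) := fun y x l hl => by
      have := (h5 y x l (by omega)).smul s (g y)⁻¹
      rwa [← hg y l hl, inv_smul_smul] at this
    have hrep : ∀ c, ∃ (q₀ : ℕ) (o : Fin q₀ → L.Om a), (∀ j, ∀ l ≤ K, s.InE (o j) (e (w c) l)) ∧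
        (∀ i j, (∃ k ∈ s.EI (e (w c)) (K + 1), k • o i = o j) → i = j) ∧
        ∀ y x, cl y = c → ∃ j, ∃ k ∈ s.EI (e (w c)) (K + 1), k • o j = (g y)⁻¹ • ω y x :=
      fun c => by
        obtain ⟨q₀, o, ho1, ho2, ho3⟩ := SigP.exists_reps
          (fun x y : L.Om a => ∃ k ∈ s.EI (e (w c)) (K + 1), k • x = y)
          (fun _ => ⟨1, Subgroup.one_mem _, one_smul _ _⟩)
          (fun _ _ _ ⟨k, hk, h⟩ ⟨k', hk', h'⟩ =>
            ⟨k' * k, Subgroup.mul_mem _ hk' hk, by rw [mul_smul, h, h']⟩)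
          ((Finset.univ.filter fun p : Σ y, Fin (q y) => cl p.1 = c).image
            fun p : Σ y, Fin (q y) => (g p.1)⁻¹ • ω p.1 p.2)
        refine ⟨q₀, o, fun j l hl => ?_, ho2, fun y x hy => ho3 _
          (Finset.mem_image.2 ⟨⟨y, x⟩, Finset.mem_filter.2 ⟨Finset.mem_univ _, hy⟩, rfl⟩)⟩
        obtain ⟨p, hp, he⟩ := Finset.mem_image.1 (ho1 j)
        rw [← he, ← (Finset.mem_filter.1 hp).2]
        exact hin _ _ l hl
    choose q₀ o ho1 ho2 ho3 using hrep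
    have hq₀ : ∀ c, 1 ≤ q₀ c := fun c => by
      obtain ⟨j, -⟩ := ho3 c (w c) ⟨0, h4 _⟩ (hclw c)
      exact j.pos
    have htop := ih C (fun c => e (w c)) n q₀ o (fun _ => hmono _) hw hn2 hq₀ ho1 ho2
    have hloc : ∀ c, ∑ y : {y // cl y = c}, (ρ y + q y) + 1 ≤
        n c + q₀ c + Fintype.card {y // cl y = c} := fun c => by
      have : Nonempty {y // cl y = c} := ⟨⟨w c, hclw c⟩⟩
      have hg' : ∀ y : {y // cl y = c}, ∀ l ≤ K, g y • e (w c) l = e y l := fun y l hl => by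
        have := hg y l hl
        rwa [y.2] at this
      refine s.cn_loc ha (s.tgt (e (w c) K)) (s.EI (e (w c)) (K + 1))
        (fun k hk => by rw [← s.smul_tgt, hk K (by omega)]) (hn1 c)
        (fun y : {y // cl y = c} => (g y)⁻¹ • e y (K + 1)) (fun y => ?_) ?_
        (fun y => ρ y) (fun y => q y) (fun y => ?_) (fun y x => (g y)⁻¹ • ω y x)
        (fun y x => (h5 y x (K + 1) le_rfl).smul s _) ?_ (o c)
        (fun j => (ho1 c j K le_rfl).inc s ha (Or.inr rfl)) ?_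
      · rw [s.smul_src, ← h1 y K (by omega), ← s.smul_tgt, ← hg' y K le_rfl, inv_smul_smul]
      · rintro y z ⟨k, hk, he⟩
        refine Subtype.ext (h2 y z ⟨g z * k * (g y)⁻¹, fun l hl => ?_⟩)
        rw [mul_smul, mul_smul]
        rcases Nat.le_succ_iff.1 hl with hl | rfl
        · rw [← hg' y l hl, inv_smul_smul, hk l (by omega), hg' z l hl]
        · rw [he, smul_inv_smul]
      · rw [s.cn_tr (hg' y), rkGe_cj_iff]
        exact h3 y
      · rintro y x x' ⟨k, hk, he⟩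
        rw [s.cn_tr (hg' y), mem_cj, inv_inv] at hk
        exact h6 y x x' ⟨_, hk, by rw [mul_smul, mul_smul, he, smul_inv_smul]⟩
      · intro y x
        obtain ⟨j, k, hk, he⟩ := ho3 c y x y.2
        exact ⟨k, hk, j, he⟩
    have s1 : ∑ y, (ρ y + q y) = ∑ c, ∑ y : {y // cl y = c}, (ρ y + q y) :=
      (Fintype.sum_fiberwise cl fun y => ρ y + q y).symm
    have s2 : ∑ c, Fintype.card {y // cl y = c} = m := by
      have := Fintype.sum_fiberwise cl fun _ => 1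
      simpa using this
    have s3 := Finset.sum_le_sum fun c (_ : c ∈ Finset.univ) => hloc c
    rw [Finset.sum_add_distrib, ← s1, Finset.sum_add_distrib (g := fun c =>
      Fintype.card {y // cl y = c}), s2] at s3
    simp only [Finset.sum_const, Finset.card_univ, Fintype.card_fin, smul_eq_mul, mul_one] at s3
    omega

/-- (C1) -/
theorem c_one (K m : ℕ) (ω : L.Om a) (e : Fin m → ℕ → s.Ed) (h1 : ∀ i, s.Mono (e i) (K + 1))
    (h2 : ∀ i, ∀ l ≤ K, s.InE ω (e i l)) (h3 : ∀ i, s.EI (e i) (K + 1) ≠ ⊥)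
    (h4 : ∀ i j, (∃ g : L.G, g • ω = ω ∧ ∀ l ≤ K, g • e i l = e j l) → i = j) :
    m ≤ Fintype.card L'.X := by
  classical
  obtain ⟨C, w, -, hw, hcl⟩ := SigP.exists_reps
    (fun i j : Fin m => ∃ g : L.G, ∀ l ≤ K, g • e i l = e j l)
    (fun _ => ⟨1, fun _ _ => one_smul _ _⟩)
    (fun _ _ _ ⟨g, hg⟩ ⟨g', hg'⟩ => ⟨g' * g, fun l hl => by rw [mul_smul, hg l hl, hg' l hl]⟩)
    Finset.univ
  choose cl g hg using fun y => hcl y (Finset.mem_univ y)
  have hclw : ∀ c, cl (w c) = c := fun c => hw _ _ ⟨_, hg (w c)⟩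
  have hg' : ∀ c (y : {y // cl y = c}), ∀ l ≤ K, g y • e (w c) l = e y l := fun c y l hl => by
    have := hg y l hl
    rwa [y.2] at this
  let σ : ∀ c, Fin (Fintype.card {y // cl y = c}) ≃ {y // cl y = c} :=
    fun c => (Fintype.equivFin _).symm
  have key := s.cnt ha K C (fun c => e (w c)) (fun _ => 1) (fun c => Fintype.card {y // cl y = c})
    (fun c x => (g (σ c x))⁻¹ • ω) (fun _ => h1 _) hw
    (fun c => by
      rcases rk_exists (s.cn_free (e (w c)) K) with ⟨n, hn1, hn2⟩ | h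
      · refine hn2.mono (Nat.pos_of_ne_zero ?_)
        rintro rfl
        exact h3 _ hn1.eq_bot
      · exact h 1)
    (fun c => Fintype.card_pos_iff.2 ⟨⟨w c, hclw c⟩⟩)
    (fun c x l hl => by
      have := (h2 (σ c x) l hl).smul s (g (σ c x))⁻¹
      rwa [← hg' c _ l hl, inv_smul_smul] at this)
    (fun c x y ⟨k, hk, he⟩ => by
      refine (σ c).injective (Subtype.ext (h4 _ _ ⟨g (σ c y) * k * (g (σ c x))⁻¹, ?_,
        fun l hl => ?_⟩))
      · rw [mul_smul, mul_smul, he, smul_inv_smul]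
      · rw [mul_smul, mul_smul, ← hg' c _ l hl, inv_smul_smul, hk l (by omega), hg' c _ l hl])
  have s2 : ∑ c, Fintype.card {y // cl y = c} = m := by
    have := Fintype.sum_fiberwise cl fun _ => 1
    simpa using this
  rw [Finset.sum_add_distrib, s2] at key
  simp only [Finset.sum_const, Finset.card_univ, Fintype.card_fin, smul_eq_mul, mul_one] at key
  omega

end St
end CPOR
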