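import Pool.Agent.P.MP_2cb329_al.LV

/-! The stacking count. -/

set_option autoImplicit false

namespace CPOR

namespace CNT

variable {X Z : Type} (R : RA X Z) (u : List (X × Bool))

theorem mv_inj (f : FreeGroup X) {y y' : Z} (h : R.mv y f = R.mv y' f) : y = y' := by
  have := congrArg (fun z => R.mv z f⁻¹) h
  simpa [← R.mv_mul, R.mv_one] using this

/-- Image of a vertex strand. -/
def pV (y : Z) (v : ℕ) : Z := R.mv y (seg u v)

/-- Image of an edge strand. -/
def pE (y : Z) (i : Fin u.length) : Z × X := (pV R u y (stp u i), ltr u i)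

theorem stp_le (i : Fin u.length) : stp u i ≤ u.length := by
  have := i.2
  unfold stp
  split_ifs <;> omega

theorem enp_le (i : Fin u.length) : enp u i ≤ u.length := by
  have := i.2
  unfold enp
  split_ifs <;> omega

theorem pV_len (y : Z) : pV R u y u.length = pV R u (R.mv y (FreeGroup.mk u)) 0 := by
  unfold pV
  rw [ch_seg_zero, R.mv_one, seg, List.take_length]

theorem pE_end (y : Z) (i : Fin u.length) :
    R.mv (pE R u y i).1 (FreeGroup.of (pE R u y i).2) = pV R u y (enp u i) := by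
  unfold pE pV
  rw [← R.mv_mul, seg_stp_mul]

theorem pE_eq {y y' : Z} {i j : Fin u.length} (h : pE R u y' j = pE R u y i) :
    ltr u j = ltr u i ∧ pV R u y' (stp u j) = pV R u y (stp u i) ∧
      pV R u y' (enp u j) = pV R u y (enp u i) := by
  refine ⟨congrArg Prod.snd h, congrArg Prod.fst h, ?_⟩
  rw [← pE_end, ← pE_end, h]

theorem cyc_next (hc : FreeGroup.IsCyclicallyReduced u) (i j : Fin u.length)
    (hij : (i : ℕ) = (j + 1) % u.length) (hl : ltr u j = ltr u i) :
    (u.get j).2 = (u.get i).2 := by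
  have hi := i.2
  have hj := j.2
  by_cases h : (j : ℕ) + 1 < u.length
  · rw [Nat.mod_eq_of_lt h] at hij
    have h1 := List.isChain_iff_getElem.1 hc.1 j h
    have e : u.get i = u[(j : ℕ) + 1] := by
      simp only [List.get_eq_getElem, hij]
    unfold ltr at hl
    rw [e] at hl ⊢
    exact h1 hl
  · have hn : (j : ℕ) + 1 = u.length := by omega
    rw [hn, Nat.mod_self] at hij
    refine hc.2 (u.get j) ?_ (u.get i) ?_ hl
    · rw [List.getLast?_eq_getElem?, Option.mem_def, show u.length - 1 = j by omega,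
        List.getElem?_eq_getElem hj]
      rfl
    · rw [List.head?_eq_getElem?, Option.mem_def, ← hij, List.getElem?_eq_getElem hi]
      rfl

theorem pos_eq (hc : FreeGroup.IsCyclicallyReduced u) (i j : Fin u.length)
    (hl : ltr u j = ltr u i) (h1 : stp u j % u.length = stp u i % u.length)
    (h2 : enp u j % u.length = enp u i % u.length) : j = i := by
  have hi := Nat.mod_eq_of_lt i.2
  have hj := Nat.mod_eq_of_lt j.2
  unfold stp at h1
  unfold enp at h2
  cases hbi : (u.get i).2 <;> cases hbj : (u.get j).2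
  · simp only [hbi, hbj, Bool.false_eq_true, if_false] at h2
    exact Fin.ext (by omega)
  · simp only [hbi, hbj, Bool.false_eq_true, if_false, if_true] at h1
    have := cyc_next u hc j i (by omega) hl.symm
    rw [hbi, hbj] at this
    exact absurd this (by decide)
  · simp only [hbi, hbj, Bool.false_eq_true, if_false, if_true] at h1
    have := cyc_next u hc i j (by omega) hl
    rw [hbi, hbj] at this
    exact absurd this (by decide)
  · simp only [hbi, hbj, if_true] at h1
    exact Fin.ext (by omega)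

/-- The height function of a stacking. -/
def Ht (h : ℕ → ℕ) : Prop :=
  (∀ v < u.length, ∀ w < u.length, h v = h w → v = w) ∧
    ∀ i j : Fin u.length, ltr u i = ltr u j →
      (h (stp u i % u.length) < h (stp u j % u.length) ↔
        h (enp u i % u.length) < h (enp u j % u.length))

theorem strand_eq (hc : FreeGroup.IsCyclicallyReduced u) {h : ℕ → ℕ} (hh : Ht u h) {y y' : Z}
    {i j : Fin u.length} (he : pE R u y' j = pE R u y i)
    (h1 : h (stp u j % u.length) = h (stp u i % u.length)) : y' = y ∧ j = i := by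
  have hn : 0 < u.length := Nat.lt_of_le_of_lt (Nat.zero_le _) i.2
  obtain ⟨hl, hs, _⟩ := pE_eq R u he
  have a1 := hh.2 i j hl.symm
  have a2 := hh.2 j i hl
  have h2 : h (enp u j % u.length) = h (enp u i % u.length) := by omega
  have e : j = i := pos_eq u hc i j hl (hh.1 _ (Nat.mod_lt _ hn) _ (Nat.mod_lt _ hn) h1)
    (hh.1 _ (Nat.mod_lt _ hn) _ (Nat.mod_lt _ hn) h2)
  subst e
  exact ⟨mv_inj R _ hs, rfl⟩

/-- Visible vertex strands. -/
def VisP (h : ℕ → ℕ) (V Sh : Finset Z) (y : Z) (v : ℕ) : Prop :=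
  pV R u y v ∉ V ∧ ∀ y' ∈ Sh, ∀ v' ≤ u.length, pV R u y' v' = pV R u y v →
    h (v' % u.length) ≤ h (v % u.length)

/-- Visible edge strands. -/
def VisE (h : ℕ → ℕ) (E : Finset (Z × X)) (Sh : Finset Z) (y : Z) (i : Fin u.length) : Prop :=
  pE R u y i ∉ E ∧ ∀ y' ∈ Sh, ∀ j, pE R u y' j = pE R u y i →
    h (stp u j % u.length) ≤ h (stp u i % u.length)

variable {R u} {h : ℕ → ℕ} {V : Finset Z} {E : Finset (Z × X)} {Sh : Finset Z}

theorem visE_of_stp (hsub : R.Sub V E) {y : Z} {i : Fin u.length}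
    (hv : VisP R u h V Sh y (stp u i)) : VisE R u h E Sh y i :=
  ⟨fun he => hv.1 (hsub _ he).1, fun y' hy' j he =>
    hv.2 y' hy' _ (stp_le u j) (pE_eq R u he).2.1⟩

theorem visE_of_enp (hh : Ht u h) (hsub : R.Sub V E) {y : Z} {i : Fin u.length}
    (hv : VisP R u h V Sh y (enp u i)) : VisE R u h E Sh y i := by
  refine ⟨fun he => hv.1 ?_, fun y' hy' j he => ?_⟩
  · rw [← pE_end]
    exact (hsub _ he).2
  · obtain ⟨hl, _, hs⟩ := pE_eq R u he
    have a1 := hv.2 y' hy' _ (enp_le u j) hs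
    have a2 := hh.2 i j hl.symm
    omega

theorem visE_next (hh : Ht u h) (hsub : R.Sub V E) {y : Z} {i : Fin u.length}
    (hv : VisP R u h V Sh y i) : VisE R u h E Sh y i := by
  cases hb : (u.get i).2
  · refine visE_of_enp hh hsub ?_
    unfold enp
    simpa only [hb, Bool.false_eq_true, if_false] using hv
  · refine visE_of_stp hsub ?_
    unfold stp
    simpa only [hb, if_true] using hv

theorem visE_prev (hh : Ht u h) (hsub : R.Sub V E) {y : Z} {i : Fin u.length}
    (hv : VisP R u h V Sh y (i + 1)) : VisE R u h E Sh y i := by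
  cases hb : (u.get i).2
  · refine visE_of_stp hsub ?_
    unfold stp
    simpa only [hb, Bool.false_eq_true, if_false] using hv
  · refine visE_of_enp hh hsub ?_
    unfold enp
    simpa only [hb, if_true] using hv

theorem visP_len {y : Z} (hv : VisP R u h V Sh (R.mv y (FreeGroup.mk u)) 0) :
    VisP R u h V Sh y u.length := by
  unfold VisP at hv ⊢
  rw [pV_len, Nat.mod_self]
  rwa [Nat.zero_mod] at hv

theorem down (hh : Ht u h) (hsub : R.Sub V E) {y : Z}
    (hy : ∀ j : Fin u.length, VisE R u h E Sh y j → VisP R u h V Sh y j) :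
    ∀ (d : ℕ) (j k : Fin u.length), (k : ℕ) = j + d → VisE R u h E Sh y k →
      VisE R u h E Sh y j := by
  intro d
  induction d with
  | zero =>
    intro j k hk hv
    rwa [show j = k from Fin.ext (by omega)]
  | succ d ih =>
    intro j k hk hv
    have hk2 := k.2
    refine ih j ⟨j + d, by omega⟩ rfl (visE_prev hh hsub ?_)
    have := hy k hv
    rwa [hk] at this

theorem exists_top (i₀ : Fin u.length) (ha : ∀ e ∈ E, e.2 ≠ ltr u i₀) :
    ∃ i : Fin u.length, ∀ y, VisE R u h E Sh y i := by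
  classical
  obtain ⟨i, hi, hmax⟩ := Finset.exists_max_image
    (Finset.univ.filter fun j : Fin u.length => ltr u j = ltr u i₀)
    (fun j => h (stp u j % u.length)) ⟨i₀, by simp⟩
  have hi' := (Finset.mem_filter.1 hi).2
  refine ⟨i, fun y => ⟨fun he => ha _ he hi', fun y' _ j he => hmax j ?_⟩⟩
  exact Finset.mem_filter.2 ⟨Finset.mem_univ _, (pE_eq R u he).1.trans hi'⟩

theorem exists_gap (hh : Ht u h) (hsub : R.Sub V E) (i₀ : Fin u.length)
    (ha : ∀ e ∈ E, e.2 ≠ ltr u i₀) {y : Z} {i₁ : Fin u.length} (hn : ¬ VisE R u h E Sh y i₁) :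
    ∃ p : Z × Fin u.length, (p.1 = y ∨ p.1 = R.mv y (FreeGroup.mk u)) ∧
      VisE R u h E Sh p.1 p.2 ∧ ¬ VisP R u h V Sh p.1 p.2 := by
  by_contra hcon
  have key : ∀ z, (z = y ∨ z = R.mv y (FreeGroup.mk u)) →
      ∀ j : Fin u.length, VisE R u h E Sh z j → VisP R u h V Sh z j := by
    intro z hz j hv
    by_contra hp
    exact hcon ⟨(z, j), hz, hv, hp⟩
  have h0 : 0 < u.length := Nat.lt_of_le_of_lt (Nat.zero_le _) i₀.2
  obtain ⟨i, hi⟩ := exists_top (R := R) (h := h) (Sh := Sh) i₀ ha
  have a1 := down hh hsub (key _ (Or.inr rfl)) i ⟨0, h0⟩ i (by simp) (hi _)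
  have a2 := visP_len (key _ (Or.inr rfl) _ a1)
  have a3 : VisE R u h E Sh y ⟨u.length - 1, by omega⟩ := by
    refine visE_prev hh hsub ?_
    rwa [show ((⟨u.length - 1, by omega⟩ : Fin u.length) : ℕ) + 1 = u.length by
      simp only; omega]
  have h1 := i₁.2
  exact hn (down hh hsub (key _ (Or.inl rfl)) (u.length - 1 - i₁) i₁ _ (by simp only; omega) a3)

variable (R u) in
open Classical in
/-- The edges of the subgraph together with the edges of the cells. -/
noncomputable def UE (E : Finset (Z × X)) (Sh : Finset Z) : Finset (Z × X) :=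
  E ∪ (Sh ×ˢ (Finset.univ : Finset (Fin u.length))).image fun p => pE R u p.1 p.2

theorem mem_UE {e : Z × X} : e ∈ UE R u E Sh ↔ e ∈ E ∨ ∃ y ∈ Sh, ∃ i, pE R u y i = e := by
  unfold UE
  simp only [Finset.mem_union, Finset.mem_image, Finset.mem_product, Finset.mem_univ, and_true,
    Prod.exists, exists_and_left]

theorem count_case (hc : FreeGroup.IsCyclicallyReduced u) (hh : Ht u h) (i₀ : Fin u.length)
    (hV : V.Nonempty) (hsub : R.Sub V E) (ha : ∀ e ∈ E, e.2 ≠ ltr u i₀)
    (hinv : ∀ y ∈ Sh, R.mv y (FreeGroup.mk u) ∈ Sh) {C : ℕ} (w : Fin C → Z) (hw : ∀ i, w i ∈ Sh)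
    (hd : ∀ i j (n : ℕ), R.mv (w i) (FreeGroup.mk u ^ n) = w j → i = j) {i₁ : Fin u.length}
    (hn : ∀ i, ¬ VisE R u h E Sh (w i) i₁) :
    E.card + 1 + C ≤ Module.finrank ℚ (R.Z1 (UE R u E Sh)) + V.card := by
  classical
  have h0 : 0 < u.length := Nat.lt_of_le_of_lt (Nat.zero_le _) i₀.2
  set St : Finset (Z × Fin u.length) := Sh ×ˢ Finset.univ with hSt
  have hmem : ∀ p : Z × Fin u.length, p ∈ St ↔ p.1 ∈ Sh := fun p => by simp [hSt]
  set UV : Finset Z := V ∪ St.image fun p => pV R u p.1 p.2 with hUV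
  set sV := St.filter fun p => VisP R u h V Sh p.1 p.2 with hsV
  set sE := St.filter fun p => VisE R u h E Sh p.1 p.2 with hsE
  have hnorm : ∀ y ∈ Sh, ∀ v ≤ u.length, ∃ p ∈ St, pV R u p.1 p.2 = pV R u y v ∧
      (p.2 : ℕ) = v % u.length := by
    intro y hy v hv
    rcases hv.lt_or_eq with hv | hv
    · exact ⟨(y, ⟨v, hv⟩), (hmem _).2 hy, rfl, (Nat.mod_eq_of_lt hv).symm⟩
    · refine ⟨(R.mv y (FreeGroup.mk u), ⟨0, h0⟩), (hmem _).2 (hinv y hy), ?_, ?_⟩
      · rw [hv, pV_len]
      · rw [hv, Nat.mod_self]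
  have hin : ∀ y ∈ Sh, ∀ v ≤ u.length, pV R u y v ∈ UV := by
    intro y hy v hv
    obtain ⟨p, hp, he, _⟩ := hnorm y hy v hv
    exact Finset.mem_union_right _ (Finset.mem_image.2 ⟨p, hp, he⟩)
  have hsub' : R.Sub UV (UE R u E Sh) := by
    intro e he
    rcases mem_UE.1 he with he | ⟨y, hy, i, rfl⟩
    · exact ⟨Finset.mem_union_left _ (hsub e he).1, Finset.mem_union_left _ (hsub e he).2⟩
    · refine ⟨hin y hy _ (stp_le u i), ?_⟩
      rw [pE_end]
      exact hin y hy _ (enp_le u i)
  obtain ⟨v₀, hv₀⟩ := hV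
  have e1 := R.euler_ge hsub' (fun _ => ()) (fun _ _ => rfl) 1 (fun _ => v₀)
    (fun _ => Finset.mem_union_left _ hv₀) (fun a b _ => Subsingleton.elim a b)
  have e2 : UV.card ≤ V.card + sV.card := by
    have hs : UV ⊆ V ∪ sV.image fun p => pV R u p.1 p.2 := by
      intro z hz
      by_cases hzV : z ∈ V
      · exact Finset.mem_union_left _ hzV
      · obtain ⟨q, hq, hqz⟩ := Finset.mem_image.1 ((Finset.mem_union.1 hz).resolve_left hzV)
        obtain ⟨p, hp, hmax⟩ := Finset.exists_max_image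
          (St.filter fun p => pV R u p.1 p.2 = z) (fun p => h p.2)
          ⟨q, Finset.mem_filter.2 ⟨hq, hqz⟩⟩
        obtain ⟨hp1, hp2⟩ := Finset.mem_filter.1 hp
        refine Finset.mem_union_right _ (Finset.mem_image.2 ⟨p, ?_, hp2⟩)
        refine Finset.mem_filter.2 ⟨hp1, by rwa [hp2], fun y' hy' v' hv' he => ?_⟩
        obtain ⟨p', hp', he', hm⟩ := hnorm y' hy' v' hv'
        have := hmax p' (Finset.mem_filter.2 ⟨hp', he'.trans (he.trans hp2)⟩)
        rwa [← hm, Nat.mod_eq_of_lt p.2.2]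
    exact (Finset.card_le_card hs).trans
      ((Finset.card_union_le _ _).trans (Nat.add_le_add_left Finset.card_image_le _))
  have e3 : E.card + sE.card ≤ (UE R u E Sh).card := by
    have hinj : Set.InjOn (fun p : Z × Fin u.length => pE R u p.1 p.2) sE := by
      intro p hp q hq he
      obtain ⟨hp1, hp2⟩ := Finset.mem_filter.1 (Finset.mem_coe.1 hp)
      obtain ⟨hq1, hq2⟩ := Finset.mem_filter.1 (Finset.mem_coe.1 hq)
      have a1 := hp2.2 q.1 ((hmem _).1 hq1) q.2 he.symm
      have a2 := hq2.2 p.1 ((hmem _).1 hp1) p.2 he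
      obtain ⟨b1, b2⟩ := strand_eq R u hc hh he (le_antisymm a2 a1)
      exact Prod.ext b1 b2
    have hdisj : Disjoint E (sE.image fun p => pE R u p.1 p.2) := by
      rw [Finset.disjoint_right]
      intro e he
      obtain ⟨p, hp, rfl⟩ := Finset.mem_image.1 he
      exact (Finset.mem_filter.1 hp).2.1
    rw [← Finset.card_image_of_injOn hinj, ← Finset.card_union_of_disjoint hdisj]
    refine Finset.card_le_card fun e he => mem_UE.2 ?_
    rcases Finset.mem_union.1 he with he | he
    · exact Or.inl he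
    · obtain ⟨p, hp, rfl⟩ := Finset.mem_image.1 he
      exact Or.inr ⟨p.1, (hmem _).1 (Finset.mem_filter.1 hp).1, p.2, rfl⟩
  have e4 : sV.card + C ≤ sE.card := by
    choose d hd1 hd2 hd3 using fun i => exists_gap hh hsub i₀ ha (hn i)
    have hdinj : Function.Injective d := by
      intro i j hij
      have a1 := hd1 i
      have a2 := hd1 j
      rw [hij] at a1
      rcases a1 with a1 | a1 <;> rcases a2 with a2 | a2
      · exact hd i j 0 (by rw [pow_zero, R.mv_one, ← a1, a2])
      · exact (hd j i 1 (by rw [pow_one, ← a2, a1])).symm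
      · exact hd i j 1 (by rw [pow_one, ← a1, a2])
      · exact hd i j 0 (by rw [pow_zero, R.mv_one]; exact mv_inj R _ (a1.symm.trans a2))
    have hdisj : Disjoint sV (Finset.univ.image d) := by
      rw [Finset.disjoint_right]
      intro p hp hp'
      obtain ⟨i, _, rfl⟩ := Finset.mem_image.1 hp
      exact hd3 i (Finset.mem_filter.1 hp').2
    have hcard : (Finset.univ.image d).card = C := by
      rw [Finset.card_image_of_injective _ hdinj, Finset.card_univ, Fintype.card_fin]
    rw [← hcard, ← Finset.card_union_of_disjoint hdisj]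
    refine Finset.card_le_card fun p hp => ?_
    rcases Finset.mem_union.1 hp with hp | hp
    · obtain ⟨hp1, hp2⟩ := Finset.mem_filter.1 hp
      exact Finset.mem_filter.2 ⟨hp1, visE_next hh hsub hp2⟩
    · obtain ⟨i, _, rfl⟩ := Finset.mem_image.1 hp
      refine Finset.mem_filter.2 ⟨(hmem _).2 ?_, hd2 i⟩
      rcases hd1 i with a | a
      · rw [a]
        exact hw i
      · rw [a]
        exact hinv _ (hw i)
  omega

theorem free_edge (hc : FreeGroup.IsCyclicallyReduced u) (hh : Ht u h) {i₁ : Fin u.length}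
    (hmin : ∀ v < u.length, h i₁ ≤ h v) {y : Z} (hv : VisE R u h E Sh y i₁) {y' : Z}
    (hy' : y' ∈ Sh) {j : Fin u.length} (he : pE R u y' j = pE R u y i₁) : y' = y ∧ j = i₁ := by
  have h0 : 0 < u.length := Nat.lt_of_le_of_lt (Nat.zero_le _) i₁.2
  refine strand_eq R u hc hh he ?_
  have a1 := hv.2 y' hy' j he
  have a2 := hh.2 j i₁ (pE_eq R u he).1
  have a3 := hmin _ (Nat.mod_lt (stp u j) h0)
  have a4 := hmin _ (Nat.mod_lt (enp u j) h0)
  have a5 : stp u i₁ % u.length = i₁ ∨ enp u i₁ % u.length = i₁ := by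
    unfold stp enp
    cases hb : (u.get i₁).2
    · right
      simp only [Bool.false_eq_true, if_false]
      exact Nat.mod_eq_of_lt i₁.2
    · left
      simp only [if_true]
      exact Nat.mod_eq_of_lt i₁.2
  rcases a5 with a5 | a5
  · rw [a5] at a1 ⊢
    omega
  · rw [a5] at a2
    omega

theorem bd_DL (y : Z) : R.bd (R.DL y u) =
    Finsupp.single (R.mv y (FreeGroup.mk u)) 1 - Finsupp.single y 1 := by
  classical
  rw [← R.D_mk, R.bd_D]

theorem rank_lt (hc : FreeGroup.IsCyclicallyReduced u) (hh : Ht u h) {i₁ : Fin u.length}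
    (hmin : ∀ v < u.length, h i₁ ≤ h v) {y : Z} (hv : VisE R u h E Sh y i₁) {O Sh' : Finset Z}
    (hO : O ⊆ Sh) (hy : y ∈ O) (hOinv : ∀ z ∈ O, R.mv z (FreeGroup.mk u) ∈ O)
    (hS : Sh' ⊆ Sh) (hy' : y ∉ Sh') :
    Module.finrank ℚ (R.Z1 (UE R u E Sh')) < Module.finrank ℚ (R.Z1 (UE R u E Sh)) := by
  classical
  have := R.finiteDimensional_Z1 (UE R u E Sh)
  have hle : UE R u E Sh' ⊆ UE R u E Sh := by
    intro e he
    rcases mem_UE.1 he with he | ⟨z, hz, i, rfl⟩
    · exact mem_UE.2 (Or.inl he)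
    · exact mem_UE.2 (Or.inr ⟨z, hS hz, i, rfl⟩)
  have hc0 : ∑ z ∈ O, R.DL z u =
      ∑ z ∈ O, ∑ i : Fin u.length, Finsupp.single (pE R u z i) (sgn u i) :=
    Finset.sum_congr rfl fun z _ => R.DL_eq_sum z u
  refine Submodule.finrank_lt_finrank_of_lt (lt_of_le_of_ne (R.Z1_mono hle) fun heq => ?_)
  have hin : ∑ z ∈ O, R.DL z u ∈ R.Z1 (UE R u E Sh) := by
    refine ⟨?_, ?_⟩
    · rw [hc0]
      refine Submodule.sum_mem _ fun z hz => Submodule.sum_mem _ fun i _ => ?_
      exact Finsupp.single_mem_supported ℚ _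
        (Finset.mem_coe.2 (mem_UE.2 (Or.inr ⟨z, hO hz, i, rfl⟩)))
    · have hinj : Function.Injective fun z => R.mv z (FreeGroup.mk u) := fun a b H => mv_inj R _ H
      have him : O.image (fun z => R.mv z (FreeGroup.mk u)) = O := by
        refine Finset.eq_of_subset_of_card_le (fun z hz => ?_) ?_
        · obtain ⟨a, ha, rfl⟩ := Finset.mem_image.1 hz
          exact hOinv a ha
        · rw [Finset.card_image_of_injective _ hinj]
      show R.bd (∑ z ∈ O, R.DL z u) = 0
      rw [map_sum, Finset.sum_congr rfl fun z _ => bd_DL z, Finset.sum_sub_distrib, sub_eq_zero]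
      conv_rhs => rw [← him, Finset.sum_image fun a _ b _ H => hinj H]
  rw [← heq] at hin
  have hval : (∑ z ∈ O, R.DL z u) (pE R u y i₁) = sgn u i₁ := by
    rw [hc0, Finsupp.finsetSum_apply, Finset.sum_eq_single y]
    · rw [Finsupp.finsetSum_apply, Finset.sum_eq_single i₁]
      · exact Finsupp.single_eq_same
      · intro j _ hj
        exact Finsupp.single_eq_of_ne' fun he => hj (free_edge hc hh hmin hv (hO hy) he).2
      · intro H
        exact absurd (Finset.mem_univ _) H
    · intro z hz hzy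
      rw [Finsupp.finsetSum_apply]
      refine Finset.sum_eq_zero fun j _ => ?_
      exact Finsupp.single_eq_of_ne' fun he => hzy (free_edge hc hh hmin hv (hO hz) he).1
    · intro H
      exact absurd hy H
  have hnot : pE R u y i₁ ∉ UE R u E Sh' := by
    intro he
    rcases mem_UE.1 he with he | ⟨z, hz, j, he⟩
    · exact hv.1 he
    · exact hy' ((free_edge hc hh hmin hv (hS hz) he).1 ▸ hz)
  have hz := (Finsupp.mem_supported' ℚ _).1 hin.1 _ fun H => hnot (Finset.mem_coe.1 H)
  rw [hval] at hz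
  unfold sgn at hz
  split_ifs at hz <;> norm_num at hz

theorem count (hc : FreeGroup.IsCyclicallyReduced u) (hh : Ht u h) (i₀ : Fin u.length)
    (hV : V.Nonempty) (hsub : R.Sub V E) (ha : ∀ e ∈ E, e.2 ≠ ltr u i₀) (C : ℕ) :
    ∀ (Sh : Finset Z), (∀ y ∈ Sh, R.mv y (FreeGroup.mk u) ∈ Sh) → ∀ w : Fin C → Z,
      (∀ i, w i ∈ Sh) → (∀ i j (n : ℕ), R.mv (w i) (FreeGroup.mk u ^ n) = w j → i = j) →
      E.card + 1 + C ≤ Module.finrank ℚ (R.Z1 (UE R u E Sh)) + V.card := by
  classical
  obtain ⟨i₁, _, hmin'⟩ := Finset.exists_min_image (Finset.univ : Finset (Fin u.length))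
    (fun v => h v) ⟨i₀, Finset.mem_univ _⟩
  have hmin : ∀ v < u.length, h i₁ ≤ h v := fun v hv => hmin' ⟨v, hv⟩ (Finset.mem_univ _)
  induction C with
  | zero =>
    intro Sh hinv w hw hd
    exact count_case hc hh i₀ hV hsub ha hinv w hw hd (i₁ := i₁) fun i => i.elim0
  | succ C ih =>
    intro Sh hinv w hw hd
    by_cases hex : ∃ i, VisE R u h E Sh (w i) i₁
    · obtain ⟨i, hi⟩ := hex
      set O := Sh.filter fun y => ∃ m : ℕ, R.mv (w i) (FreeGroup.mk u ^ m) = y with hO
      have hOinv : ∀ z ∈ O, R.mv z (FreeGroup.mk u) ∈ O := by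
        intro z hz
        obtain ⟨hz1, m, hm⟩ := Finset.mem_filter.1 hz
        exact Finset.mem_filter.2 ⟨hinv z hz1, m + 1, by rw [pow_succ, R.mv_mul, hm]⟩
      have hwO : w i ∈ O := Finset.mem_filter.2 ⟨hw i, 0, by rw [pow_zero, R.mv_one]⟩
      have hinj : Function.Injective fun z => R.mv z (FreeGroup.mk u) := fun a b H => mv_inj R _ H
      have him : O.image (fun z => R.mv z (FreeGroup.mk u)) = O := by
        refine Finset.eq_of_subset_of_card_le (fun z hz => ?_) ?_
        · obtain ⟨a, ha, rfl⟩ := Finset.mem_image.1 hz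
          exact hOinv a ha
        · rw [Finset.card_image_of_injective _ hinj]
      have hinv' : ∀ y ∈ Sh \ O, R.mv y (FreeGroup.mk u) ∈ Sh \ O := by
        intro y hy
        obtain ⟨hy1, hy2⟩ := Finset.mem_sdiff.1 hy
        refine Finset.mem_sdiff.2 ⟨hinv y hy1, fun H => hy2 ?_⟩
        rw [← him] at H
        obtain ⟨a, ha, he⟩ := Finset.mem_image.1 H
        rwa [← hinj he]
      have h1 := ih (Sh \ O) hinv' (fun j => w (i.succAbove j))
        (fun j => Finset.mem_sdiff.2 ⟨hw _, fun H => by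
          obtain ⟨_, m, hm⟩ := Finset.mem_filter.1 H
          exact Fin.succAbove_ne i j (hd _ _ m hm).symm⟩)
        (fun j k n H => Fin.succAbove_right_injective (hd _ _ n H))
      have h2 := rank_lt hc hh hmin hi (Finset.filter_subset _ _) hwO hOinv
        (Finset.sdiff_subset (t := O)) fun H => (Finset.mem_sdiff.1 H).2 hwO
      omega
    · exact count_case hc hh i₀ hV hsub ha hinv w hw hd fun i H => hex ⟨i, H⟩

end CNT

/-- (COUNT) `Sh` is a finite set of start vertices of cells, invariant under reading `u`;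
`w` picks `C` start vertices in different orbits. There is a finite edge set `E'`, made of `E` and
edges of the cells, whose cycle space has dimension at least `E - V + 1 + C`. -/
theorem stack_count {X Z : Type} [DecidableEq X] (R : RA X Z) (u : List (X × Bool))
    (hc : FreeGroup.IsCyclicallyReduced u) (hs : Stack u) (i₀ : Fin u.length)
    (V : Finset Z) (E : Finset (Z × X)) (hV : V.Nonempty) (hsub : R.Sub V E)
    (ha : ∀ e ∈ E, e.2 ≠ ltr u i₀)
    (Sh : Finset Z) (hinv : ∀ y ∈ Sh, R.mv y (FreeGroup.mk u) ∈ Sh)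
    (C : ℕ) (w : Fin C → Z) (hw : ∀ i, w i ∈ Sh)
    (hd : ∀ i j (n : ℕ), R.mv (w i) (FreeGroup.mk u ^ n) = w j → i = j) :
    ∃ E' : Finset (Z × X), E.card + 1 + C ≤ Module.finrank ℚ (R.Z1 E') + V.card := by
  obtain ⟨h, hh⟩ := hs
  exact ⟨_, CNT.count hc hh i₀ hV hsub ha C Sh hinv w hw hd⟩

end CPOR
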