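import Pool.Agent.P.MP_2cb329_al.GB

/-! Conjugacy of elliptic elements. -/

set_option autoImplicit false

namespace CPOR
namespace St

section Aux

variable {L L' : Lv} (s : St L L')

/-- Conjugacy of two small elements whose small fixed vertices are matched by a conjugator. -/
theorem cpe_vertex (hH : L'.Cl) : ∃ F, Bd F ∧ ∀ (n : ℕ) (u v g : L.G) (p : s.Vt),
    len L.π u ≤ n → len L.π v ≤ n → s.SmV n p → s.SmV n (g • p) → u • g • p = g • p →
    g⁻¹ * u * g = v → ∃ g', g'⁻¹ * u * g' = v ∧ len L.π g' ≤ F n := by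
  obtain ⟨FC, hFC, hcp⟩ := hH.cp
  obtain ⟨FH, hFH, hmem⟩ := s.memH hH
  obtain ⟨c, hc⟩ := s.lip_j
  have h3 : Bd fun n => FH (n + n + n) := hFH.comp ((Bd.id.add Bd.id).add Bd.id)
  refine ⟨fun n => n + c * FC (FH (n + n + n) + FH (n + n + n)) + n,
    (Bd.id.add ((Bd.const c).mul (hFC.comp (h3.add h3)))).add Bd.id, ?_⟩
  rintro n u v g _ hu hv ⟨x, rfl, hx⟩ ⟨y, hy, hyl⟩ hfix hg
  rw [← hy, smul_vx] at hfix
  rw [smul_vx] at hy
  obtain ⟨h, hh⟩ := s.vx_eq_iff.1 hy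
  obtain ⟨u₀, hu₀⟩ := s.vx_eq_iff.1 hfix.symm
  have e1 : s.j u₀ = y⁻¹ * u * y := by rw [mul_assoc, hu₀]; group
  have e2 : s.j (h⁻¹ * u₀ * h) = x⁻¹ * v * x := by
    have : s.j h = y⁻¹ * (g * x) := by rw [hh]; group
    rw [map_mul, map_mul, map_inv, e1, this, ← hg]; group
  have l1 : len L'.π u₀ ≤ FH (n + n + n) := by
    refine (hmem _).trans (hFH.mono ?_)
    rw [e1]
    refine (len_mul3 L.surj _ _ _).trans ?_
    rw [len_inv L.surj]; omega
  have l2 : len L'.π (h⁻¹ * u₀ * h) ≤ FH (n + n + n) := by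
    refine (hmem _).trans (hFH.mono ?_)
    rw [e2]
    refine (len_mul3 L.surj _ _ _).trans ?_
    rw [len_inv L.surj]; omega
  obtain ⟨h', hh', hl⟩ := hcp u₀ _ h rfl
  refine ⟨y * s.j h' * x⁻¹, ?_, ?_⟩
  · have e3 : s.j (h'⁻¹ * u₀ * h') = x⁻¹ * v * x := by rw [hh', e2]
    rw [map_mul, map_mul, map_inv, e1] at e3
    have : v = x * ((s.j h')⁻¹ * (y⁻¹ * u * y) * s.j h') * x⁻¹ := by rw [e3]; group
    rw [this]; group
  · have a1 := len_mul3 L.surj y (s.j h') x⁻¹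
    rw [len_inv L.surj] at a1
    have a2 := hc h'
    have a3 := Nat.mul_le_mul_left c (hl.trans (hFC.mono (Nat.add_le_add l1 l2)))
    show _ ≤ n + c * FC (FH (n + n + n) + FH (n + n + n)) + n
    omega

/-- The members of an exceptional set have infinite order. -/
theorem cpe_inf (hH : L'.Cl) {C : Finset L'.G} {C1 : Finset L.G} (hX : s.ExSet C C1) :
    ∀ ρ ∈ C1, ¬ IsOfFinOrder ρ := by
  obtain ⟨B, hB⟩ := s.ex_words hH hX
  intro ρ hρ hfin
  obtain ⟨r, hr, hr1, -, rfl⟩ := hB ρ hρ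
  obtain ⟨n, hn, he⟩ := isOfFinOrder_iff_pow_eq_one.1 hfin
  refine zpow_ne_one hr1 (n := (n : ℤ)) (by omega) ?_
  rw [zpow_natCast]
  exact s.w_inj s.adm_A ((FS _).pow_mem hr n) (FS _).one_mem (by rw [map_pow, he, map_one])

/-- Conjugacy when the element is exceptional at some edge. -/
theorem cpe_ex (D : s.AD) (hH : L'.Cl) {C : Finset L'.G} {C1 : Finset L.G} (hC : D.C0 ⊆ C)
    (hX : s.ExSet C C1) : ∃ F, Bd F ∧ ∀ (n : ℕ) (u v g : L.G) (e : s.Ed), u ≠ 1 →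
      len L.π u ≤ n → len L.π v ≤ n → s.Ex C1 u e → g⁻¹ * u * g = v →
      ∃ g', g'⁻¹ * u * g' = v ∧ len L.π g' ≤ F n := by
  obtain ⟨FE, hFE, hex⟩ := s.ex_small D hC hX hH
  obtain ⟨FP, hFP, hpc⟩ := pc_of L.surj (s.gbs_G D hH) C1 (s.cpe_inf hH hX)
  refine ⟨fun n => FE n + FP (FE n + FE n) + FE n,
    (hFE.add (hFP.comp (hFE.add hFE))).add hFE, ?_⟩
  intro n u v g e h1 hu hv he hg
  have hv1 : v ≠ 1 := by
    rintro rfl
    apply h1
    have : u = g * (g⁻¹ * u * g) * g⁻¹ := by group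
    rw [this, hg]; group
  have he' : s.Ex C1 v (g⁻¹ • e) := by
    have := Ex.smul s he g⁻¹
    rwa [inv_inv, hg] at this
  obtain ⟨x, ρ, hρ, i, hx, hxl, hil⟩ := hex u e h1 he
  obtain ⟨y, σ, hσ, k, hy, hyl, hkl⟩ := hex v _ hv1 he'
  have hconj : IsConj (ρ ^ i) (σ ^ k) := by
    refine PCP.conj_iff.2 ⟨x⁻¹ * g * y, ?_⟩
    have a1 : ρ ^ i = x⁻¹ * u * x := by rw [hx]; group
    have a2 : σ ^ k = y⁻¹ * v * y := by rw [hy]; group
    rw [a1, a2, ← hg]; group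
  obtain ⟨⟨z, hz, hzl⟩, -⟩ := hpc ρ hρ σ hσ i k hconj
  refine ⟨x * z * y⁻¹, ?_, ?_⟩
  · rw [hy, ← hz]
    conv_lhs => rw [hx]
    group
  · have a1 := len_mul3 L.surj x z y⁻¹
    rw [len_inv L.surj] at a1
    have b1 := hFE.mono hu
    have b2 := hFE.mono hv
    have b3 := hFP.mono (show i.natAbs + k.natAbs ≤ FE n + FE n by omega)
    show _ ≤ FE n + FP (FE n + FE n) + FE n
    omega

end Aux

variable {L L' : Lv} (s : St L L') (D : s.AD) (hH : L'.Cl)
include D hH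

theorem cp_ell : ∃ F, Bd F ∧ ∀ (u v g : L.G) (p : s.Vt), u • p = p → g⁻¹ * u * g = v →
    ∃ g', g'⁻¹ * u * g' = v ∧ len L.π g' ≤ F (len L.π u + len L.π v) := by
  classical
  obtain ⟨C1, hX⟩ := s.exists_exSet hH D.C0
  have hC : D.C0 ⊆ D.C0 := Finset.Subset.refl _
  obtain ⟨FT', hFT, hty⟩ := s.small_type
  obtain ⟨FS', hFS, hst⟩ := s.st_small D hC hX hH
  obtain ⟨FW, hFW, hwk⟩ := s.walk_small D hC hX hH
  obtain ⟨FC, hFC, hcy⟩ := s.cycE_of_small hH
  obtain ⟨FR, hFR, hstr⟩ := s.stretch D hC hX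
  obtain ⟨FV, hFV, hvert⟩ := s.cpe_vertex hH
  obtain ⟨FX, hFX, hexc⟩ := s.cpe_ex D hH hC hX
  have hN : Bd fun n => FT' n + n := hFT.add Bd.id
  have hM : Bd fun N => FC (FS' N + N) := hFC.comp (hFS.add Bd.id)
  have hK : Bd fun N => FV (FW (N + FR (FC (FS' N + N)) + 1) + N) + FX N :=
    (hFV.comp ((hFW.comp ((Bd.id.add (hFR.comp hM)).add (Bd.const 1))).add Bd.id)).add hFX
  refine ⟨_, hK.comp hN, fun u v g₀ p hp₀ hg₀ => ?_⟩
  by_cases h1 : u = 1
  · refine ⟨1, ?_, ?_⟩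
    · rw [← hg₀, h1]; group
    · rw [len_one]; exact Nat.zero_le _
  set n := len L.π u + len L.π v with hn
  set N := FT' n + n with hNdef
  have huN : len L.π u ≤ N := by omega
  have hvN : len L.π v ≤ N := by omega
  have small : ∀ (z : L.G) (q : s.Vt), z • q = q → len L.π z ≤ n →
      ∃ q', z • q' = q' ∧ s.SmV N q' := by
    intro z q hq hz
    rcases hty z with ⟨q', hq', hs⟩ | ⟨a, l, ha, -⟩
    · exact ⟨q', hq', s.ex_smV_mono hs ((hFT.mono hz).trans (Nat.le_add_right _ _))⟩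
    · exact absurd hq (ha.not_fix s.T_acyclic s.T_acts (s.T_reach _ _))
  obtain ⟨vu, hvu, hsu⟩ := small u p hp₀ (by omega)
  obtain ⟨vv, hvv, hsv⟩ := small v (g₀⁻¹ • p) (by
    rw [← hg₀, mul_smul, mul_smul, smul_inv_smul, hp₀]) (by omega)
  have hv1 : v ≠ 1 := by
    rintro rfl
    apply h1
    have : u = g₀ * (g₀⁻¹ * u * g₀) * g₀⁻¹ := by group
    rw [this, hg₀]; group
  have hexists : ∃ d, ∃ g, g⁻¹ * u * g = v ∧ s.T.dist vu (g • vv) = d := ⟨_, g₀, hg₀, rfl⟩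
  obtain ⟨g, hg, hd⟩ := Nat.find_spec hexists
  have hmin : ∀ g', g'⁻¹ * u * g' = v → s.T.dist vu (g • vv) ≤ s.T.dist vu (g' • vv) := by
    intro g' h2
    rw [hd]
    exact Nat.find_min' hexists ⟨g', h2, rfl⟩
  clear hd
  have hugv : g * v * g⁻¹ = u := by rw [← hg]; group
  have hufix : u • g • vv = g • vv := by
    rw [← hugv, mul_smul, mul_smul, inv_smul_smul, hvv]
  obtain ⟨a, ee, ha0, had, hp, hb⟩ := s.exists_pth vu (g • vv)
  generalize hdd : s.T.dist vu (g • vv) = d at had hp hb hmin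
  have hua : ∀ i ≤ d, u • a i = a i := fun i hi =>
    ZT.fix_btw s.T_acyclic s.T_acts hvu hufix (hb i hi)
  have huf : ∀ i < d, u • ee i = ee i := fun i hi =>
    Join.fix s (hp.1 i hi) (hua i hi.le) (hua (i + 1) hi)
  have hdist : ∀ i ≤ d, s.T.dist vu (a i) = i := fun i hi => by
    rw [← ha0, Pth.dist s hp (Nat.zero_le i) hi, Nat.sub_zero]
  by_cases hex : ∃ i < d, s.Ex C1 u (ee i)
  · obtain ⟨i, -, hi⟩ := hex
    obtain ⟨g', hg', hl⟩ := hexc N u v g _ h1 huN hvN hi hg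
    exact ⟨g', hg', hl.trans (Nat.le_add_left _ _)⟩
  have hnon : ∀ i < d, ¬ s.Ex C1 u (ee i) := fun i hi hx => hex ⟨i, hi, hx⟩
  have hshort : d ≤ FR (FC (FS' N + N)) + 1 := by
    rcases Nat.eq_zero_or_pos d with h0 | hpos
    · omega
    obtain ⟨m, rfl⟩ : ∃ m, d = m + 1 := ⟨d - 1, by omega⟩
    have hlt : m < m + 1 := Nat.lt_succ_self m
    have hc0 : s.CycE (FC (FS' N + N)) u (ee 0) := by
      have hs := hst N u (a 0) (ee 0) h1 huN (ha0 ▸ hsu) (s.ex_join_left (hp.1 0 hpos))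
        (huf 0 hpos) (hnon 0 hpos)
      exact hcy (FS' N + N) u (ee 0) (by omega) (s.ex_smE_mono hs (Nat.le_add_right _ _))
        (huf 0 hpos)
    have hcm : s.CycE (FC (FS' N + N)) u (ee m) := by
      have hinc : s.Inc (g⁻¹ • ee m) vv := by
        have := s.ex_inc_smul (s.ex_join_right (hp.1 m hlt)) g⁻¹
        rwa [had, inv_smul_smul] at this
      have hfix : v • g⁻¹ • ee m = g⁻¹ • ee m := by
        rw [← hg, mul_smul, mul_smul, smul_inv_smul, huf m hlt]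
      have hne : ¬ s.Ex C1 v (g⁻¹ • ee m) := fun hx => by
        have := Ex.smul s hx g
        rw [hugv, smul_inv_smul] at this
        exact hnon m hlt this
      have hs := hst N v vv _ hv1 hvN hsv hinc hfix hne
      have h2 := hcy (FS' N + N) v _ (by omega) (s.ex_smE_mono hs (Nat.le_add_right _ _)) hfix
      have h3 := CycE.smul s h2 g
      rwa [hugv, smul_inv_smul] at h3
    rcases hstr _ m u u a ee h1 (Subgroup.mem_zpowers u) hp
      (fun i hi => huf i (Nat.lt_succ_of_le hi)) (fun i hi => hnon i (Nat.lt_succ_of_le hi))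
      hc0 hcm with hle | ⟨h, i, q, hpq, hq, hhx, hh⟩
    · omega
    · exfalso
      have hhg : (h * g)⁻¹ * u * (h * g) = v := by
        have : u * h = h * u := hhx.eq.symm
        rw [← hg, mul_inv_rev, mul_assoc, ← mul_assoc u, this]; group
      have h2 := hmin _ hhg
      have h3 := ZT.dist_tri (s.T_reach vu (a i)) (s.T_reach (a i) ((h * g) • vv))
      have h4 : s.T.dist (a i) ((h * g) • vv) = m + 1 - q := by
        rw [mul_smul, ← hh, s.T_acts.dist, ← had, Pth.dist s hp (by omega) le_rfl]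
      rw [hdist i (by omega), h4] at h3
      omega
  have hsw := hwk (N + FR (FC (FS' N + N)) + 1) d u a ee h1 (by omega) (by omega)
    (s.ex_smV_mono (ha0 ▸ hsu) (by omega)) hp fun i hi => ⟨huf i hi, hnon i hi⟩
  rw [had] at hsw
  obtain ⟨g', hg', hl⟩ := hvert (FW (N + FR (FC (FS' N + N)) + 1) + N) u v g vv (by omega)
    (by omega) (s.ex_smV_mono hsv (Nat.le_add_left _ _))
    (s.ex_smV_mono hsw (Nat.le_add_right _ _)) hufix hg
  exact ⟨g', hg', hl.trans (Nat.le_add_right _ _)⟩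

end St
end CPOR
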