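import Pool.Agent.P.MP_2cb329_al.CPE

/-! Conjugacy of hyperbolic elements. -/

set_option autoImplicit false

namespace CPOR
namespace St

variable {L L' : Lv} (s : St L L') (D : s.AD) (hH : L'.Cl)

theorem cph2_smE_mono {n m : ℕ} {e : s.Ed} (h : s.SmE n e) (hnm : n ≤ m) : s.SmE m e := by
  obtain ⟨g, hg, hl⟩ := h
  exact ⟨g, hg, hl.trans hnm⟩

theorem cph2_inc_smul {e : s.Ed} {p : s.Vt} (h : s.Inc e p) (g : L.G) :
    s.Inc (g • e) (g • p) := by
  rcases h with h | h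
  · exact Or.inl (by rw [s.smul_src, h])
  · exact Or.inr (by rw [s.smul_tgt, h])

include D hH

omit D in
/-- Aligned axes with a pair of consecutive edges whose common stabiliser is cyclic. -/
theorem cp_cyc : ∃ F, Bd F ∧ ∀ (n l : ℕ) (u v g c : L.G) (e f : ℤ → s.Ed), 1 ≤ l → l ≤ n →
    len L.π u ≤ n → len L.π v ≤ n → g⁻¹ * u * g = v → (∀ i, u • e i = e (i + l)) →
    (∀ i, g • f i = e i) → (∀ i, ∃ p, s.Inc (e i) p ∧ s.Inc (e (i + 1)) p) →
    (∀ i : ℤ, 0 ≤ i → i ≤ l + 1 → s.SmE n (e i) ∧ s.SmE n (f i)) →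
    MulAction.stabilizer L.G (e l) ⊓ MulAction.stabilizer L.G (e (l + 1)) ≤ Subgroup.zpowers c →
    ∃ g', g'⁻¹ * u * g' = v ∧ len L.π g' ≤ F n := by
  obtain ⟨F1, hF1, h1⟩ := s.chain_sc0 hH
  obtain ⟨F2, hF2, h2⟩ := s.cyclicG hH
  obtain ⟨F3, hF3, h3⟩ := s.expG hH
  have hA : Bd (fun n => F1 (n + 1)) := hF1.comp (Bd.id.add (Bd.const 1))
  have hB : Bd (fun n => F2 (F1 (n + 1) + n)) := hF2.comp (hA.add Bd.id)
  have hC : Bd (fun n => F3 (F1 (n + 1) + n + F1 (n + 1) + n)) :=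
    hF3.comp (((hA.add Bd.id).add hA).add Bd.id)
  refine ⟨fun n => F3 (F1 (n + 1) + n + F1 (n + 1) + n) * F2 (F1 (n + 1) + n) + F1 (n + 1),
    (hC.mul hB).add hA, ?_⟩
  intro n l u v g c e f _ hln hu hv hg hue hgf hinc hsm hcyc
  have hπ := L.surj
  have hfe : ∀ i, f i = g⁻¹ • e i := fun i => by rw [← hgf i, inv_smul_smul]
  obtain ⟨hK, hT⟩ := h1 (n + 1) (l + 1) (fun i => e i) (fun i => f i) (by omega)
    (fun i hi => by
      obtain ⟨a, b⟩ := hsm i (by positivity) (by exact_mod_cast hi)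
      exact ⟨s.cph2_smE_mono a (by omega), s.cph2_smE_mono b (by omega)⟩)
    (fun i _ => by
      obtain ⟨p, hp, hp'⟩ := hinc i
      refine ⟨⟨p, hp, by push_cast; exact hp'⟩, g⁻¹ • p, ?_, ?_⟩
      · rw [hfe]; exact s.cph2_inc_smul hp _
      · rw [hfe]; push_cast; exact s.cph2_inc_smul hp' _)
  obtain ⟨g0, hg0, hl0⟩ := hT ⟨g, fun i _ => hgf i⟩
  set K := s.EI (fun i : ℕ => e i) (l + 1 + 1) with hKdef
  have hKmem : ∀ x ∈ K, ∀ i : ℕ, i ≤ l + 1 → x • e i = e i := fun x hx i hi => hx i (by omega)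
  have hKE : K ≤ MulAction.stabilizer L.G (e l) ⊓ MulAction.stabilizer L.G (e (l + 1)) := by
    intro x hx
    refine ⟨hKmem x hx l (by omega), ?_⟩
    have := hKmem x hx (l + 1) le_rfl
    push_cast at this
    exact this
  have hsl : s.SmE n (e l) := (hsm l (by positivity) (by omega)).1
  obtain ⟨d, hd, hld⟩ := h2 (F1 (n + 1) + n) (e l) K c (s.cph2_smE_mono hsl (by omega))
    (hKE.trans inf_le_left) (hK.mono (by omega)) (hKE.trans hcyc)
  have hx : g * g0⁻¹ ∈ K := by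
    intro i hi
    have h := hg0 i (by omega)
    show (g * g0⁻¹) • e i = e i
    rw [mul_smul, ← h, inv_smul_smul, hgf, h]
  rw [hd] at hx
  obtain ⟨q, hq⟩ := Subgroup.mem_zpowers_iff.1 hx
  obtain ⟨k, hk⟩ := (Subgroup.le_zpowers_iff c _).1 hcyc
  set c' := c ^ k with hc'
  have hdK : d ∈ K := hd ▸ Subgroup.mem_zpowers d
  have hdE : d ∈ Subgroup.zpowers c' := hk ▸ hKE hdK
  have huE : u * d * u⁻¹ ∈ Subgroup.zpowers c' := by
    rw [← hk]
    have key : ∀ i : ℕ, i ≤ 1 → (u * d * u⁻¹) • e (i + l) = e (i + l) := fun i hi => by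
      rw [← hue, mul_smul, mul_smul, inv_smul_smul, hKmem d hdK i (by omega)]
    refine ⟨?_, ?_⟩
    · have := key 0 (by omega)
      simpa using this
    · have := key 1 le_rfl
      rw [Nat.cast_one, add_comm] at this
      exact this
  obtain ⟨j1, hj1⟩ := Subgroup.mem_zpowers_iff.1 hdE
  obtain ⟨j2, hj2⟩ := Subgroup.mem_zpowers_iff.1 huE
  have hgq : g = d ^ q * g0 := by rw [hq]; group
  have heq : g0 * v * g0⁻¹ * u⁻¹ = c' ^ ((j2 - j1) * q) := by
    have h4 : g0 * v * g0⁻¹ * u⁻¹ = (d ^ q)⁻¹ * (u * d * u⁻¹) ^ q := by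
      rw [conj_zpow, ← hg, hgq]; group
    rw [h4, ← hj2, ← hj1]; group
  by_cases h0 : c' ^ ((j2 - j1) * q) = 1
  · refine ⟨g0, ?_, hl0.trans (Nat.le_add_left _ _)⟩
    rw [h0, mul_inv_eq_one] at heq
    rw [← heq]; group
  · have hc1 : c' ≠ 1 := fun h => h0 (by rw [h, one_zpow])
    have hj : j2 - j1 ≠ 0 := fun h => h0 (by rw [h, zero_mul, zpow_zero])
    have hcE : c' • e l = e l := by
      have : c' ∈ MulAction.stabilizer L.G (e l) ⊓ MulAction.stabilizer L.G (e (l + 1)) :=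
        hk ▸ Subgroup.mem_zpowers c'
      exact this.1
    have hlen : len L.π (c' ^ ((j2 - j1) * q)) ≤ F1 (n + 1) + n + F1 (n + 1) + n := by
      rw [← heq]
      have a1 := len_mul hπ (g0 * v * g0⁻¹) u⁻¹
      have a2 := len_mul3 hπ g0 v g0⁻¹
      rw [len_inv hπ] at a1 a2
      omega
    have hm := h3 _ (e l) c' _ (s.cph2_smE_mono hsl (by omega)) hcE hc1 hlen
    have hq' : q.natAbs ≤ F3 (F1 (n + 1) + n + F1 (n + 1) + n) := by
      refine le_trans ?_ hm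
      rw [Int.natAbs_mul]
      exact Nat.le_mul_of_pos_left _ (Int.natAbs_pos.2 hj)
    refine ⟨g, hg, ?_⟩
    have a1 := len_mul hπ (d ^ q) g0
    have a2 := len_zpow hπ d q
    have a3 := Nat.mul_le_mul hq' hld
    rw [← hgq] at a1
    show len L.π g ≤ F3 (F1 (n + 1) + n + F1 (n + 1) + n) * F2 (F1 (n + 1) + n) + F1 (n + 1)
    omega

end St
end CPOR
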