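import Pool.Agent.P.MP_2cb329_al.CPH1
import Pool.Agent.P.MP_2cb329_al.CPH2

/-! Conjugacy of hyperbolic elements. -/

set_option autoImplicit false

namespace CPOR
namespace St

variable {L L' : Lv} (s : St L L') (D : s.AD) (hH : L'.Cl)
include D hH

theorem cp_G : CP L.π := by
  obtain ⟨F0, hF0, h0⟩ := s.small_type
  obtain ⟨F1, hF1, h1⟩ := s.cp_ell D hH
  obtain ⟨F2, hF2, h2⟩ := s.cp_arr D hH
  obtain ⟨F3, hF3, h3⟩ := s.cp_cyc hH
  have b0 : Bd fun m => F0 m + m := hF0.add Bd.id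
  refine ⟨fun m => F1 m + F2 (F0 m + m) + F3 (F0 m + m),
    (hF1.add (hF2.comp b0)).add (hF3.comp b0), ?_⟩
  intro u v g hg
  set m := len L.π u + len L.π v with hm
  rcases h0 u with ⟨p, hp, -⟩ | ⟨a, l, ha, hl, -, sa⟩
  · obtain ⟨g', a1, a2⟩ := h1 u v g p hp hg
    exact ⟨g', a1, a2.trans ((Nat.le_add_right _ _).trans (Nat.le_add_right _ _))⟩
  rcases h0 v with ⟨p, hp, -⟩ | ⟨b, l', hb, -, -, sb⟩
  · obtain ⟨g', a1, a2⟩ := h1 u v g (g • p)
      (by rw [show u = g * v * g⁻¹ by rw [← hg]; group, mul_smul, inv_smul_smul, mul_smul, hp]) hg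
    exact ⟨g', a1, a2.trans ((Nat.le_add_right _ _).trans (Nat.le_add_right _ _))⟩
  have hb' := hb.conj s.T_acts g
  rw [show g * v * g⁻¹ = u by rw [← hg]; group] at hb'
  obtain ⟨rfl, c, hc⟩ := ha.unique s.T_acyclic s.T_acts hb' (s.T_reach _ _)
  have l1 : 1 ≤ l := ha.2.1
  have l0 : (0 : ℤ) < l := by exact_mod_cast l1
  obtain ⟨e, he, hne, htri⟩ := s.line_edges ha.1
  have hzp : ∀ k i : ℤ, u ^ k • e i = e (i + k * l) := fun k i => by
    have := Join.smul s (he i) (u ^ k)
    rw [ha.zpow_smul, ha.zpow_smul, show i + 1 + k * l = i + k * l + 1 by ring] at this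
    exact s.join_unique this (he _)
  have hue : ∀ i, u • e i = e (i + l) := fun i => by simpa using hzp 1 i
  set r := c % l with hr
  have r0 : 0 ≤ r := Int.emod_nonneg _ l0.ne'
  have r1 : r < l := Int.emod_lt_of_pos _ l0
  set g₁ := u ^ (-(c / l)) * g with hg₁
  have hg1 : g₁⁻¹ * u * g₁ = v := by rw [← hg, hg₁]; group
  have hb1 : ∀ i, g₁ • b i = a (i + r) := fun i => by
    have := hc i
    rw [hg₁, mul_smul, this, ha.zpow_smul]
    congr 1
    have := Int.emod_add_mul_ediv c l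
    linear_combination -this
  set N := F0 m + m with hN
  have mu : F0 (len L.π u) ≤ N := (hF0.mono (by omega : len L.π u ≤ m)).trans (by omega)
  have mv : F0 (len L.π v) ≤ N := (hF0.mono (by omega : len L.π v ≤ m)).trans (by omega)
  have sm : ∀ i : ℤ, -2 * l ≤ i → i ≤ 3 * l → s.SmE N (e i) ∧ s.SmE N (g₁⁻¹ • e i) := by
    intro i i1 i2
    refine ⟨SmE.mono s (sa i _ (abs_le.2 ⟨by omega, i2⟩) (he i)) mu,
      SmE.mono s (sb (i - r) _ (abs_le.2 ⟨by omega, by omega⟩) ?_) mv⟩
    have := Join.smul s (he i) g₁⁻¹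
    rwa [show a i = g₁ • b (i - r) by rw [hb1]; congr 1; ring,
      show a (i + 1) = g₁ • b (i - r + 1) by rw [hb1]; congr 1; ring, inv_smul_smul,
      inv_smul_smul] at this
  have inc : ∀ i, s.Inc (e i) (a (i + 1)) ∧ s.Inc (e (i + 1)) (a (i + 1)) := fun i =>
    ⟨(he i).elim (fun h => Or.inr h.2) fun h => Or.inl h.1,
      (he (i + 1)).elim (fun h => Or.inl h.1) fun h => Or.inr h.2⟩
  by_cases hcyc : ∃ i d, MulAction.stabilizer L.G (e i) ⊓ MulAction.stabilizer L.G (e (i + 1)) ≤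
      Subgroup.zpowers d
  · obtain ⟨i, d, hd⟩ := hcyc
    set σ := i % l with hσ
    have s0 : 0 ≤ σ := Int.emod_nonneg _ l0.ne'
    have s1 : σ < l := Int.emod_lt_of_pos _ l0
    set k := u ^ (1 - i / l) with hk
    have e1 : ∀ j, e (l + j + σ) = k • e (i + j) := fun j => by
      rw [hk, hzp]
      congr 1
      have := Int.emod_add_mul_ediv i l
      linear_combination this
    obtain ⟨g', a1, a2⟩ := h3 N l u v g₁ (k * d * k⁻¹) (fun j => e (j + σ))
      (fun j => g₁⁻¹ • e (j + σ)) l1 (by omega) (by omega) (by omega) hg1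
      (fun j => by rw [hue]; congr 1; ring) (fun j => smul_inv_smul _ _)
      (fun j => ⟨a (j + σ + 1), (inc _).1, by
        rw [show j + 1 + σ = j + σ + 1 by ring]
        exact (inc _).2⟩)
      (fun j j0 j1 => sm _ (by omega) (by omega))
      (by
        rintro x ⟨x1, x2⟩
        have y1 := e1 0
        rw [add_zero, add_zero] at y1
        have x1' : x • e (l + σ) = e (l + σ) := x1
        have x2' : x • e (l + 1 + σ) = e (l + 1 + σ) := x2
        rw [y1] at x1'
        rw [e1 1] at x2'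
        obtain ⟨n, hn⟩ := Subgroup.mem_zpowers_iff.1 (hd (x := k⁻¹ * x * k)
          ⟨by change _ • _ = _; rw [mul_smul, mul_smul, x1', inv_smul_smul],
            by change _ • _ = _; rw [mul_smul, mul_smul, x2', inv_smul_smul]⟩)
        exact Subgroup.mem_zpowers_iff.2 ⟨n, by rw [conj_zpow, hn]; group⟩)
    exact ⟨g', a1, a2.trans (Nat.le_add_left _ _)⟩
  have arr : ∀ i, s.Arr D.Ξ (e i) (e (i + 1)) ∨ s.Arr D.Ξ (e (i + 1)) (e i) := fun i => by
    rcases D.e0 _ _ _ (hne i) (inc i).1 (inc i).2 with h | h | ⟨γ, d, -, -, h⟩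
    · exact Or.inl h
    · exact Or.inr h
    · refine absurd ⟨i, γ * s.j d * γ⁻¹, h.trans fun x hx => ?_⟩ hcyc
      obtain ⟨n, hn⟩ := Subgroup.mem_zpowers_iff.1 (mem_cj.1 hx)
      exact Subgroup.mem_zpowers_iff.2 ⟨n, by rw [conj_zpow, hn]; group⟩
  have nb : ∀ i, a i ≠ a (i + 1 + 1) := fun i => by
    rw [show i + 1 + 1 = i + 2 by ring]; exact ha.1.2 i
  rcases htri with ht | ht | ⟨i, ht⟩
  · obtain ⟨g', a1, a2⟩ := h2 N l u v g₁ e (fun j => g₁⁻¹ • e j) l1 (by omega) (by omega)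
      (by omega) hg1 hue (fun j => smul_inv_smul _ _)
      (fun i => (arr i).resolve_right fun h => by
        have := Arr.tgt_eq s h
        rw [(ht (i + 1)).2, (ht i).1] at this
        exact nb i this.symm)
      (fun j j0 j1 => sm _ (by omega) (by omega))
    exact ⟨g', a1, a2.trans ((Nat.le_add_left _ _).trans (Nat.le_add_right _ _))⟩
  · obtain ⟨g', a1, a2⟩ := h2 N l u⁻¹ v⁻¹ g₁ (fun j => e (-j)) (fun j => g₁⁻¹ • e (-j)) l1
      (by omega) (by rw [len_inv L.surj]; omega) (by rw [len_inv L.surj]; omega)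
      (by rw [← hg1]; group)
      (fun j => by
        rw [inv_smul_eq_iff, hue]; congr 1; ring)
      (fun j => smul_inv_smul _ _)
      (fun i => by
        have := (arr (-(i + 1))).resolve_left fun h => by
          have := Arr.tgt_eq s h
          rw [(ht _).1, (ht _).2] at this
          exact nb _ this
        rwa [show -(i + 1) + 1 = -i by ring] at this)
      (fun j j0 j1 => sm _ (by omega) (by omega))
    refine ⟨g', ?_, a2.trans ((Nat.le_add_left _ _).trans (Nat.le_add_right _ _))⟩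
    rw [← inv_inv v, ← a1]; group
  · exfalso
    rcases arr i with h | h <;> have h' := Arr.tgt_eq s h <;> rcases ht with ht | ht
    · exact s.src_ne_tgt _ (ht.trans h'.symm)
    · exact s.src_ne_tgt _ (h'.symm.trans ht)
    · exact s.src_ne_tgt _ (ht.symm.trans h'.symm)
    · exact s.src_ne_tgt _ (h'.symm.trans ht.symm)

end St
end CPOR
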