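import Pool.Agent.P.MP_2cb329_al.CPE

/-! Conjugacy of hyperbolic elements. -/

set_option autoImplicit false

namespace CPOR
namespace St

variable {L L' : Lv} (s : St L L') (D : s.AD) (hH : L'.Cl)

theorem cph1_shift {u : L.G} {e : ℤ → s.Ed} {l : ℕ} (hue : ∀ i, u • e i = e (i + l)) (k : ℤ) :
    ∀ i, u ^ k • e i = e (i + l * k) := by
  induction k using Int.induction_on with
  | zero => intro i; simp
  | succ k ih =>
    intro i
    rw [zpow_add_one, mul_smul, hue, ih]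
    congr 1; ring
  | pred k ih =>
    intro i
    have h : u⁻¹ • e i = e (i - l) := by
      rw [inv_smul_eq_iff, hue]; congr 1; ring
    rw [zpow_sub_one, mul_smul, h, ih]
    congr 1; ring

/-- An equivariant choice of points with small differences. -/
theorem cph1_points {n l : ℕ} {u : L.G} {e : ℤ → s.Ed} (hl : 1 ≤ l) (hu : len L.π u ≤ n)
    (hue : ∀ i, u • e i = e (i + l)) (hsm : ∀ i : ℤ, 0 ≤ i → i < l → s.SmE n (e i)) :
    ∃ x : ℤ → L.G, (∀ i, s.ed (x i) = e i) ∧ (∀ i, x (i + l) = u * x i) ∧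
      (∀ i, len L.π ((x i)⁻¹ * x (i + 1)) ≤ 3 * n) ∧ len L.π (x 0) ≤ n := by
  have hπ := L.surj
  have hl' : (0 : ℤ) < l := by exact_mod_cast hl
  have hex : ∀ i : ℤ, ∃ g : L.G, 0 ≤ i → i < l → s.ed g = e i ∧ len L.π g ≤ n := fun i => by
    by_cases h : 0 ≤ i ∧ i < l
    · obtain ⟨g, hg⟩ := hsm i h.1 h.2
      exact ⟨g, fun _ _ => hg⟩
    · exact ⟨1, fun h1 h2 => absurd ⟨h1, h2⟩ h⟩
  choose a ha using hex
  have hm : ∀ i : ℤ, s.ed (a (i % l)) = e (i % l) ∧ len L.π (a (i % l)) ≤ n := fun i =>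
    ha _ (Int.emod_nonneg _ hl'.ne') (Int.emod_lt_of_pos _ hl')
  refine ⟨fun i => u ^ (i / l) * a (i % l), fun i => ?_, fun i => ?_, fun i => ?_, ?_⟩
  · rw [← s.smul_ed, (hm i).1, s.cph1_shift hue, Int.emod_add_mul_ediv]
  · show u ^ ((i + l) / l) * a ((i + l) % l) = u * (u ^ (i / l) * a (i % l))
    have h : (i + l) / l = i / l + 1 := by
      simpa using Int.add_mul_ediv_right i 1 hl'.ne'
    rw [Int.add_emod_right, h]
    group
  · show len L.π ((u ^ (i / l) * a (i % l))⁻¹ * (u ^ ((i + 1) / l) * a ((i + 1) % l))) ≤ 3 * n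
    have h1 := Int.emod_add_mul_ediv i l
    have h2 := Int.emod_nonneg i hl'.ne'
    have h3 := Int.emod_lt_of_pos i hl'
    have hq : (i + 1) / l = i / l ∨ (i + 1) / l = i / l + 1 := by
      by_cases h : i % l + 1 < l
      · left
        exact ((Int.ediv_emod_unique hl').2 ⟨(by linarith : i % l + 1 + l * (i / l) = i + 1),
          by omega, h⟩).1
      · right
        exact ((Int.ediv_emod_unique hl').2
          ⟨(by rw [mul_add]; omega : 0 + l * (i / l + 1) = i + 1), le_rfl, hl'⟩).1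
    have b1 := (hm i).2
    have b2 := (hm (i + 1)).2
    rcases hq with hq | hq
    · have : (u ^ (i / l) * a (i % l))⁻¹ * (u ^ ((i + 1) / l) * a ((i + 1) % l)) =
          (a (i % l))⁻¹ * a ((i + 1) % l) := by rw [hq]; group
      rw [this]
      have := len_mul hπ (a (i % l))⁻¹ (a ((i + 1) % l))
      rw [len_inv hπ] at this
      omega
    · have : (u ^ (i / l) * a (i % l))⁻¹ * (u ^ ((i + 1) / l) * a ((i + 1) % l)) =
          (a (i % l))⁻¹ * u * a ((i + 1) % l) := by rw [hq]; group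
      rw [this]
      have := len_mul3 hπ (a (i % l))⁻¹ u (a ((i + 1) % l))
      rw [len_inv hπ] at this
      omega
  · have := (hm 0).2
    simpa using this

include D hH

/-- Aligned monotone axes all of whose turns are arrows (twisted conjugacy). -/
theorem cp_arr : ∃ F, Bd F ∧ ∀ (n l : ℕ) (u v g : L.G) (e f : ℤ → s.Ed), 1 ≤ l → l ≤ n →
    len L.π u ≤ n → len L.π v ≤ n → g⁻¹ * u * g = v → (∀ i, u • e i = e (i + l)) →
    (∀ i, g • f i = e i) → (∀ i, s.Arr D.Ξ (e i) (e (i + 1))) →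
    (∀ i : ℤ, 0 ≤ i → i < l → s.SmE n (e i) ∧ s.SmE n (f i)) →
    ∃ g', g'⁻¹ * u * g' = v ∧ len L.π g' ≤ F n := by
  obtain ⟨F1, hF1, h1⟩ := s.connLe_of_len hH D.Ξ
  obtain ⟨F3, hF3, h3⟩ := D.g3
  obtain ⟨C, hC⟩ := s.lip_w
  have hA : Bd (fun n => F1 (3 * n) + n) := (hF1.comp ((Bd.const 3).mul Bd.id)).add Bd.id
  refine ⟨fun n => n + C * F3 (F1 (3 * n) + n) + n,
    (Bd.id.add ((Bd.const C).mul (hF3.comp hA))).add Bd.id, ?_⟩
  intro n l u v g e f hl hln hu hv hg hue hgf harr hsm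
  have hπ := L.surj
  have hfe : ∀ i, f i = g⁻¹ • e i := fun i => by rw [← hgf i, inv_smul_smul]
  have hvf : ∀ i, v • f i = f (i + l) := fun i => by
    rw [← hg, mul_smul, mul_smul, hgf, hue, hfe]
  obtain ⟨x, hx1, hx2, hx3, hx4⟩ := s.cph1_points hl hu hue fun i a b => (hsm i a b).1
  obtain ⟨y, hy1, hy2, hy3, hy4⟩ := s.cph1_points hl hv hvf fun i a b => (hsm i a b).2
  have hgy : ∀ i, s.ed (g * y i) = e i := fun i => by rw [← s.smul_ed, hy1, hgf]
  have key : ∀ z : ℤ → L.G, (∀ i, s.ed (z i) = e i) → (∀ i, z (i + l) = u * z i) →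
      (∀ i, len L.π ((z i)⁻¹ * z (i + 1)) ≤ 3 * n) →
      (s.flow D.Ξ).Thread (F1 (3 * n) + n) l u z := by
    intro z a b c
    refine ⟨hl, by omega, b, fun i => ?_⟩
    have hc : (s.flow D.Ξ).Conn ((z i)⁻¹ * z (i + 1)) :=
      Arr.conn s (by rw [a, a]; exact harr i)
    obtain ⟨κ, hκ, α, β, p1, p2, p3⟩ := h1 _ _ hc (c i)
    exact ⟨κ, hκ, α, β, by omega, by omega, p3⟩
  obtain ⟨ε, hε, -, hd⟩ := h3 _ l u x (fun i => g * y i) (key x hx1 hx2 hx3)
    (key _ hgy (fun i => by rw [hy2, ← hg]; group) (fun i => by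
      have : (g * y i)⁻¹ * (g * y (i + 1)) = (y i)⁻¹ * y (i + 1) := by group
      rw [this]; exact hy3 i))
    (fun i => (hx1 i).trans (hgy i).symm)
  obtain ⟨r, -, hr, he⟩ := (s.dLe_iff _ _ _ _).1 hd
  refine ⟨ε * g, ?_, ?_⟩
  · have : (ε * g)⁻¹ * u * (ε * g) = g⁻¹ * (ε⁻¹ * (u * ε)) * g := by group
    rw [this, ← hε.eq, ← hg]; group
  · have h5 : ε * g = x 0 * s.w r * (y 0)⁻¹ := by
      rw [← he]; group
    have a1 := len_mul3 hπ (x 0) (s.w r) (y 0)⁻¹
    rw [len_inv hπ, ← h5] at a1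
    have a2 := (hC r).trans (Nat.mul_le_mul_left C hr)
    show len L.π (ε * g) ≤ n + C * F3 (F1 (3 * n) + n) + n
    omega

end St
end CPOR
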