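import Pool.Agent.P.MP_2cb329_al.ES

/-! Double cosets of Magnus subgroups: the step. -/

set_option autoImplicit false

namespace CPOR
namespace St

namespace DCS

variable {L L' : Lv} (s : St L L') {a b : L.X}

theorem smov_mono {n m : ℕ} {ω : L.Om a} {v : s.Vt} (h : s.SmOV n ω v) (hnm : n ≤ m) :
    s.SmOV m ω v :=
  let ⟨g, h1, h2, h3⟩ := h; ⟨g, h1, h2, h3.trans hnm⟩

theorem str_mono {Z : Type} [MulAction L.G Z] {n m : ℕ} {c c' : Z} (h : L.STr n c' c)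
    (hnm : n ≤ m) : L.STr m c' c := fun hg =>
  let ⟨g, h1, h2⟩ := h hg; ⟨g, h1, h2.trans hnm⟩

theorem sg_mono {Z : Type} [MulAction L.G Z] {n m : ℕ} {c : Z} (h : L.SG n c)
    (hnm : n ≤ m) : L.SG m c := GenBy.mono h hnm

theorem smv_vx {n : ℕ} {g : L.G} (h : len L.π g ≤ n) : s.SmV n (s.vx g) := ⟨g, rfl, h⟩

theorem inV_vx (g : L.G) : s.InV (L.om a g) (s.vx g) := ⟨g, rfl, rfl⟩

/-- The bridge between the subtrees of `ω` and `ω'`. -/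
def Bridge (ω : L.Om a) (ω' : L.Om b) (v : ℕ → s.Vt) (e : ℕ → s.Ed) (d : ℕ) : Prop :=
  1 ≤ d ∧ s.Pth v e d ∧ s.InV ω (v 0) ∧ s.InV ω' (v d) ∧
    ∀ x z, s.InV ω x → s.InV ω' z → ZT.Btw s.T x (v 0) z ∧ ZT.Btw s.T x (v d) z

theorem bridge_tr {ω ω₁ : L.Om a} {ω' ω₁' : L.Om b}
    {v v₁ : ℕ → s.Vt} {e e₁ : ℕ → s.Ed} {d d₁ : ℕ} (h : Bridge s ω ω' v e d)
    (h₁ : Bridge s ω₁ ω₁' v₁ e₁ d₁) {g : L.G} (hg : g • ω₁ = ω) (hg' : g • ω₁' = ω') :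
    d₁ = d ∧ (∀ i ≤ d, g • v₁ i = v i) ∧ ∀ i < d, g • e₁ i = e i := by
  obtain ⟨-, hp, hv0, hvd, hbt⟩ := h
  obtain ⟨-, hp₁, hv0₁, hvd₁, hbt₁⟩ := h₁
  have hA := s.T_acts
  have k0 : s.InV ω (g • v₁ 0) := hg ▸ InV.smul s hv0₁ g
  have kd : s.InV ω' (g • v₁ d₁) := hg' ▸ InV.smul s hvd₁ g
  have back : ∀ x z, s.InV ω x → s.InV ω' z →
      ZT.Btw s.T x (g • v₁ 0) z ∧ ZT.Btw s.T x (g • v₁ d₁) z := by
    intro x z hx hz
    have hx' : s.InV ω₁ (g⁻¹ • x) := by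
      have := InV.smul s hx g⁻¹
      rwa [← hg, inv_smul_smul] at this
    have hz' : s.InV ω₁' (g⁻¹ • z) := by
      have := InV.smul s hz g⁻¹
      rwa [← hg', inv_smul_smul] at this
    obtain ⟨b1, b2⟩ := hbt₁ _ _ hx' hz'
    have c1 := hA.btw g b1
    have c2 := hA.btw g b2
    simp only [smul_inv_smul] at c1 c2
    exact ⟨c1, c2⟩
  have e0 : g • v₁ 0 = v 0 := by
    have b1 := (hbt _ _ k0 hvd).1
    have b2 := (back _ _ hv0 hvd).1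
    exact ZT.Btw.antisymm b2.symm b1.symm
  have ed : g • v₁ d₁ = v d := by
    have b1 := (hbt _ _ hv0 kd).2
    have b2 := (back _ _ hv0 hvd).2
    exact ZT.Btw.antisymm b2 b1
  have hd : d₁ = d := by
    have q1 := hp.dist s (Nat.zero_le d) le_rfl
    have q2 := hp₁.dist s (Nat.zero_le d₁) le_rfl
    rw [← hA.dist g, e0, ed, q1] at q2
    omega
  subst hd
  have hv : ∀ i ≤ d₁, g • v₁ i = v i := by
    intro i hi
    have b1 := hA.btw g (hp₁.btw s (Nat.zero_le i) hi le_rfl)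
    rw [e0, ed] at b1
    refine ZT.Btw.unique s.T_acyclic b1 (hp.btw s (Nat.zero_le i) hi le_rfl) ?_
    rw [hp.dist s (Nat.zero_le i) hi, ← e0, hA.dist, hp₁.dist s (Nat.zero_le i) hi]
  refine ⟨rfl, hv, fun i hi => ?_⟩
  have j1 := (hp₁.1 i hi).smul s g
  rw [hv i hi.le, hv (i + 1) hi] at j1
  exact s.join_unique j1 (hp.1 i hi)

theorem ex_bridge (hH : L'.Cl) (ha : L.Occ a) (hb : L.Occ b) : ∃ F, Bd F ∧
    ∀ (n : ℕ) (y : L.G), len L.π y ≤ n → (¬ ∃ v, s.InV (L.om a 1) v ∧ s.InV (L.om b y) v) →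
    ∃ v e d, Bridge s (L.om a 1) (L.om b y) v e d ∧ d ≤ F n ∧ s.SmOV (F n) (L.om a 1) (v 0) ∧
      s.SmOV (F n) (L.om b y) (v d) ∧ ∀ i < d, s.SmE (F n) (e i) := by
  obtain ⟨B, hB, hbf⟩ := s.bf
  obtain ⟨N, hN, hnp⟩ := s.np ha hH
  obtain ⟨N', hN', hnp'⟩ := s.np hb hH
  refine ⟨fun n => B n + N (B n + n) + N' (B n + n),
    (hB.add (hN.comp (hB.add Bd.id))).add (hN'.comp (hB.add Bd.id)), fun n y hy hdis => ?_⟩
  beta_reduce
  have hd : Disjoint {v | s.InV (L.om a 1) v} {v | s.InV (L.om b y) v} :=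
    Set.disjoint_left.2 fun v h1 h2 => hdis ⟨v, h1, h2⟩
  obtain ⟨p, hp, q, hq, hne, hbt, -, -⟩ := ZT.Cvx.bridge s.T_acyclic (s.cvx_om ha _)
    (s.cvx_om hb _) hd (inV_vx s 1) (inV_vx s y) (s.T_reach _ _)
  obtain ⟨v, e, hv0, hvd, hpth, hbw⟩ := s.exists_pth p q
  have h1n : len L.π (1 : L.G) ≤ n := by rw [len_one]; exact Nat.zero_le _
  obtain ⟨k1, k2, k3⟩ := hbf n _ _ (smv_vx s h1n) (smv_vx s hy)
  obtain ⟨c1, c2, c3, c4⟩ := hbt _ (inV_vx s 1) _ (inV_vx s y)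
  have hon : ∀ i ≤ s.T.dist p q, ZT.Btw s.T (s.vx 1) (v i) (s.vx y) := by
    intro i hi
    have t1 := (ZT.Btw.trans_right c1 (hbw i hi)).1
    exact (ZT.Btw.trans_left c4 t1).1
  have hdle : s.T.dist p q ≤ B n := by
    have u1 := c1.2.2
    have u2 := c4.2.2
    omega
  refine ⟨v, e, s.T.dist p q, ⟨?_, hpth, hv0 ▸ hp, hvd.symm ▸ hq, fun x z hx hz => ?_⟩,
    by omega, ?_, ?_, fun i hi => ?_⟩
  · rcases Nat.eq_zero_or_pos (s.T.dist p q) with h0 | h0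
    · exact absurd (ZT.eq_of_dist_zero (s.T_reach _ _) h0) hne
    · exact h0
  · rw [hv0, hvd]
    exact ⟨(hbt x hx z hz).2.2.1, (hbt x hx z hz).2.2.2⟩
  · refine smov_mono s ((hnp (B n + n) _ 1 rfl (by omega)).1 _
      ((k2 _ (hon 0 (Nat.zero_le _))).mono s (by omega)) (hv0 ▸ hp)) (by omega)
  · refine smov_mono s ((hnp' (B n + n) _ y rfl (by omega)).1 _
      ((k2 _ (hon _ le_rfl)).mono s (by omega)) (hvd.symm ▸ hq)) (by omega)
  · exact (k3 _ _ _ (hpth.1 i hi) (hon i hi.le) (hon (i + 1) hi)).mono s (by omega)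

theorem inc_left {e : s.Ed} {v w : s.Vt} (h : s.Join e v w) : s.Inc e v := by
  rcases h with h | h
  · exact Or.inl h.1
  · exact Or.inr h.2

theorem inc_right {e : s.Ed} {v w : s.Vt} (h : s.Join e v w) : s.Inc e w := by
  rcases h with h | h
  · exact Or.inr h.2
  · exact Or.inl h.1

theorem exists_meet (hH : L'.Cl) (ha : L.Occ a) (hb : L.Occ b) : ∃ F, Bd F ∧
    ∀ (n : ℕ) (y : L.G), len L.π y ≤ n → (∃ v, s.InV (L.om a 1) v ∧ s.InV (L.om b y) v) →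
    ∃ q, s.SmOV (F n) (L.om a 1) q ∧ s.SmOV (F n) (L.om b y) q := by
  obtain ⟨B, hB, hbf⟩ := s.bf
  obtain ⟨N, hN, hnp⟩ := s.np ha hH
  obtain ⟨N', hN', hnp'⟩ := s.np hb hH
  refine ⟨fun n => N (B n + n) + N' (B n + n),
    (hN.comp (hB.add Bd.id)).add (hN'.comp (hB.add Bd.id)), fun n y hy hm => ?_⟩
  beta_reduce
  obtain ⟨c, hc, hc'⟩ := hm
  obtain ⟨q, ⟨hq, hq'⟩, hbt⟩ := ZT.Cvx.helly s.T_acyclic (s.cvx_om ha (L.om a 1))
    (s.cvx_om hb (L.om b y)) hc hc' (inV_vx s 1) (inV_vx s y)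
  have h1n : len L.π (1 : L.G) ≤ n := by rw [len_one]; exact Nat.zero_le _
  obtain ⟨-, k2, -⟩ := hbf n _ _ (smv_vx s h1n) (smv_vx s hy)
  have hs := (k2 _ hbt).mono s (Nat.le_add_right _ n)
  exact ⟨q, smov_mono s ((hnp (B n + n) _ 1 rfl (by omega)).1 _ hs hq) (by omega),
    smov_mono s ((hnp' (B n + n) _ y rfl (by omega)).1 _ hs hq') (by omega)⟩

theorem smov_inV {n : ℕ} {ω : L.Om a} {v : s.Vt} (h : s.SmOV n ω v) : s.InV ω v :=
  let ⟨g, h1, h2, _⟩ := h; ⟨g, h1, h2⟩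

theorem mem_Q {ω : L.Om a} {ω' : L.Om b} {g : L.G} : g ∈ Q ω ω' ↔ g • ω = ω ∧ g • ω' = ω' := by
  rw [MulAction.mem_stabilizer_iff, Prod.smul_mk, Prod.mk.injEq]

end DCS

open DCS

variable {L L' : Lv} (s : St L L') (D : s.AD) (hH : L'.Cl) {a b : L.X} (ha : L.Occ a)
  (hb : L.Occ b)
include D hH ha hb

omit D in
/-- Disjoint subtrees. -/
theorem dc_disj : ∃ F, Bd F ∧ ∀ (n : ℕ) (x y : L.G), len L.π x ≤ n → len L.π y ≤ n →
    (¬ ∃ v, s.InV (L.om a 1) v ∧ s.InV (L.om b y) v) →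
    L.SG (F n) (L.om a 1, L.om b y) ∧ L.STr (F n) (L.om a 1, L.om b x) (L.om a 1, L.om b y) := by
  obtain ⟨B, hB, hbr⟩ := ex_bridge s hH ha hb
  obtain ⟨P, hP, hpa⟩ := s.pair_OE hH ha
  obtain ⟨P', hP', hpb⟩ := s.pair_OE hH hb
  obtain ⟨C, hC, hch⟩ := s.chain_sc hH
  refine ⟨fun n => C (B n + P (B n) + P' (B n)),
    hC.comp ((hB.add (hP.comp hB)).add (hP'.comp hB)), fun n x y hx hy hdis => ?_⟩
  beta_reduce
  obtain ⟨v, e, d, hb1, hd, hs0, hsd, hse⟩ := hbr n y hy hdis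
  have key : ∀ (x : L.G) (v₁ : ℕ → s.Vt) (e₁ : ℕ → s.Ed),
      Bridge s (L.om a 1) (L.om b x) v₁ e₁ d → s.SmOV (B n) (L.om a 1) (v₁ 0) →
      s.SmOV (B n) (L.om b x) (v₁ d) → (∀ i < d, s.SmE (B n) (e₁ i)) →
      GenBy (len L.π) (C (B n + P (B n) + P' (B n)))
        (MulAction.stabilizer L.G (L.om a 1, v 0) ⊓ s.EI e (d - 1 + 1) ⊓
          MulAction.stabilizer L.G (L.om b y, v d)) ∧
      ((∃ g : L.G, g • (L.om a 1, v₁ 0) = (L.om a 1, v 0) ∧ (∀ i ≤ d - 1, g • e₁ i = e i) ∧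
          g • (L.om b x, v₁ d) = (L.om b y, v d)) →
        ∃ g : L.G, g • (L.om a 1, v₁ 0) = (L.om a 1, v 0) ∧ (∀ i ≤ d - 1, g • e₁ i = e i) ∧
          g • (L.om b x, v₁ d) = (L.om b y, v d) ∧ len L.π g ≤ C (B n + P (B n) + P' (B n))) := by
    intro x v₁ e₁ hb₁ hs0₁ hsd₁ hse₁
    have hd1 := hb1.1
    have hdd : d - 1 + 1 = d := by omega
    have jl := hb1.2.1.1 (d - 1) (by omega)
    have jl₁ := hb₁.2.1.1 (d - 1) (by omega)
    rw [hdd] at jl jl₁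
    obtain ⟨p1, p2⟩ := hpa (B n) _ _ _ _ _ _ hs0 hs0₁ (hse 0 hd1) (hse₁ 0 hd1)
      (inc_left s (hb1.2.1.1 0 hd1)) (inc_left s (hb₁.2.1.1 0 hd1))
    obtain ⟨p3, p4⟩ := hpb (B n) _ _ _ _ _ _ hsd hsd₁ (hse (d - 1) (by omega))
      (hse₁ (d - 1) (by omega)) (inc_right s jl) (inc_right s jl₁)
    refine hch _ _ _ (d - 1) _ _ _ _ e e₁ (by omega) (fun i hi => ?_) (fun i hi => ?_)
      (sg_mono p1 (by omega)) (str_mono p2 (by omega)) (sg_mono p3 (by omega))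
      (str_mono p4 (by omega))
    · exact ⟨(hse i (by omega)).mono s (by omega), (hse₁ i (by omega)).mono s (by omega)⟩
    · exact ⟨⟨v (i + 1), inc_right s (hb1.2.1.1 i (by omega)),
        inc_left s (hb1.2.1.1 (i + 1) (by omega))⟩, ⟨v₁ (i + 1),
        inc_right s (hb₁.2.1.1 i (by omega)), inc_left s (hb₁.2.1.1 (i + 1) (by omega))⟩⟩
  constructor
  · have hk := (key y v e hb1 hs0 hsd hse).1
    have heq : MulAction.stabilizer L.G (L.om a 1, v 0) ⊓ s.EI e (d - 1 + 1) ⊓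
        MulAction.stabilizer L.G (L.om b y, v d) =
        MulAction.stabilizer L.G (L.om a 1, L.om b y) := by
      ext g
      simp only [Subgroup.mem_inf, MulAction.mem_stabilizer_iff, Prod.smul_mk, Prod.mk.injEq]
      constructor
      · rintro ⟨⟨⟨h1, -⟩, -⟩, h2, -⟩
        exact ⟨h1, h2⟩
      · rintro ⟨h1, h2⟩
        obtain ⟨-, t1, t2⟩ := bridge_tr s hb1 hb1 h1 h2
        have hd1 := hb1.1
        exact ⟨⟨⟨h1, t1 0 (Nat.zero_le _)⟩, fun i hi => t2 i (by omega)⟩, h2, t1 d le_rfl⟩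
    rw [heq] at hk
    exact hk
  · rintro ⟨g, hg⟩
    rw [Prod.smul_mk, Prod.mk.injEq] at hg
    have hdis' : ¬ ∃ v, s.InV (L.om a 1) v ∧ s.InV (L.om b x) v := by
      rintro ⟨w, w1, w2⟩
      exact hdis ⟨g • w, hg.1 ▸ InV.smul s w1 g, hg.2 ▸ InV.smul s w2 g⟩
    obtain ⟨v₁, e₁, d₁, hb₁, -, hs0₁, hsd₁, hse₁⟩ := hbr n x hx hdis'
    obtain ⟨rfl, t1, t2⟩ := bridge_tr s hb1 hb₁ hg.1 hg.2
    have hd1 := hb1.1
    obtain ⟨g', q1, -, q2, q3⟩ := (key x v₁ e₁ hb₁ hs0₁ hsd₁ hse₁).2 ⟨g,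
      by rw [Prod.smul_mk, hg.1, t1 0 (Nat.zero_le _)], fun i hi => t2 i (by omega),
      by rw [Prod.smul_mk, hg.2, t1 _ le_rfl]⟩
    rw [Prod.smul_mk, Prod.mk.injEq] at q1 q2
    exact ⟨g', by rw [Prod.smul_mk, q1.1, q2.1], q3⟩

/-- Subtrees that meet. -/
theorem dc_meet : ∃ F, Bd F ∧ ∀ (n : ℕ) (x y : L.G), len L.π x ≤ n → len L.π y ≤ n →
    (∃ v, s.InV (L.om a 1) v ∧ s.InV (L.om b y) v) →
    L.SG (F n) (L.om a 1, L.om b y) ∧ L.STr (F n) (L.om a 1, L.om b x) (L.om a 1, L.om b y) := by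
  obtain ⟨M, hM, hme⟩ := exists_meet s hH ha hb
  obtain ⟨Di, hDi, hdi⟩ := s.dist_G D hH ha hb
  obtain ⟨Ga, hGa, hga⟩ := s.gap_G D hH ha hb
  obtain ⟨W, hW, hwa⟩ := s.walk_G ha hb hH
  obtain ⟨P, hP, hpo⟩ := s.pair_OO hH ha hb
  have h2M : Bd (fun n => 2 * M n) := (Bd.const 2).mul hM
  have hK : Bd (fun n => M n + Di (2 * M n) + Ga (2 * M n)) :=
    (hM.add (hDi.comp h2M)).add (hGa.comp h2M)
  refine ⟨fun n => W (M n + Di (2 * M n) + Ga (2 * M n)) +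
      P (M n + W (M n + Di (2 * M n) + Ga (2 * M n))),
    (hW.comp hK).add (hP.comp (hM.add (hW.comp hK))), fun n x y hx hy hm => ?_⟩
  beta_reduce
  obtain ⟨q, hq, hq'⟩ := hme n y hy hm
  set K := M n + Di (2 * M n) + Ga (2 * M n) with hKdef
  have hsig := s.sig_of_small hq hq'
  constructor
  · refine le_trans (hga _ _ _ q hsig) ((Subgroup.closure_le _).2 ?_)
    rintro k ⟨hk, hkd⟩
    have hk' := mem_Q.1 hk
    obtain ⟨ι, hι, i1, i2⟩ := hwa K _ _ q (k • q) (smov_mono s hq (by omega))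
      (smov_mono s hq' (by omega)) (hk'.1 ▸ InV.smul s (smov_inV s hq) k)
      (hk'.2 ▸ InV.smul s (smov_inV s hq') k) (le_trans hkd (by omega))
    have hιQ : ι ∈ Q (L.om a 1) (L.om b y) :=
      (Subgroup.closure_le (Q (L.om a 1) (L.om b y))).2 (fun _ h => h.1) hι
    have hι' := mem_Q.1 hιQ
    obtain ⟨p1, p2⟩ := hpo (M n + W K) _ _ _ _ q (ι • k • q) (smov_mono s hq (by omega))
      (smov_mono s hq' (by omega)) (smov_mono s i1 (by omega)) (smov_mono s i2 (by omega))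
    obtain ⟨g, g1, g2⟩ := p2 ⟨(ι * k)⁻¹, by
      rw [inv_smul_eq_iff, Prod.smul_mk, Prod.smul_mk, mul_smul, mul_smul, mul_smul, hk'.1,
        hk'.2, hι'.1, hι'.2]⟩
    rw [Prod.smul_mk, Prod.mk.injEq] at g1
    have hgQ : g ∈ Q (L.om a 1) (L.om b y) := g1.1
    have hst : g * ι * k ∈ MulAction.stabilizer L.G ((L.om a 1, L.om b y), q) := by
      rw [MulAction.mem_stabilizer_iff, Prod.smul_mk, Prod.mk.injEq]
      refine ⟨(Q (L.om a 1) (L.om b y)).mul_mem ((Q _ _).mul_mem hgQ hιQ) hk, ?_⟩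
      rw [mul_smul, mul_smul]
      exact g1.2
    have m1 : g * ι * k ∈ Subgroup.closure
        {k | k ∈ Q (L.om a 1) (L.om b y) ∧ len L.π k ≤ W K + P (M n + W K)} := by
      refine Subgroup.closure_mono ?_ (p1 hst)
      rintro z ⟨z1, z2⟩
      rw [MulAction.mem_stabilizer_iff, Prod.smul_mk, Prod.mk.injEq] at z1
      exact ⟨z1.1, by omega⟩
    have m2 : g ∈ Subgroup.closure
        {k | k ∈ Q (L.om a 1) (L.om b y) ∧ len L.π k ≤ W K + P (M n + W K)} :=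
      Subgroup.subset_closure ⟨hgQ, by omega⟩
    have m3 : ι ∈ Subgroup.closure
        {k | k ∈ Q (L.om a 1) (L.om b y) ∧ len L.π k ≤ W K + P (M n + W K)} :=
      Subgroup.closure_mono (fun z hz => And.intro hz.1 (le_trans hz.2 (by omega))) hι
    have := (Subgroup.closure _).mul_mem
      ((Subgroup.closure _).inv_mem ((Subgroup.closure _).mul_mem m2 m3)) m1
    rwa [inv_mul_cancel_left] at this
  · rintro ⟨g, hg⟩
    rw [Prod.smul_mk, Prod.mk.injEq] at hg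
    have hm' : ∃ v, s.InV (L.om a 1) v ∧ s.InV (L.om b x) v := by
      obtain ⟨w, w1, w2⟩ := hm
      refine ⟨g⁻¹ • w, ?_, ?_⟩
      · have := InV.smul s w1 g⁻¹
        rwa [← hg.1, inv_smul_smul] at this
      · have := InV.smul s w2 g⁻¹
        rwa [← hg.2, inv_smul_smul] at this
    obtain ⟨q₁, hq₁, hq₁'⟩ := hme n x hx hm'
    have hsig₁ := (s.sig_of_small hq₁ hq₁').smul s g
    rw [hg.1, hg.2] at hsig₁
    obtain ⟨ι, hι, hιd⟩ := hdi _ _ _ q _ hsig hsig₁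
    have hι' := mem_Q.1 hι
    have v1 : s.InV (L.om a 1) (ι • g • q₁) := by
      have := InV.smul s (InV.smul s (smov_inV s hq₁) g) ι
      rwa [hg.1, hι'.1] at this
    have v2 : s.InV (L.om b y) (ι • g • q₁) := by
      have := InV.smul s (InV.smul s (smov_inV s hq₁') g) ι
      rwa [hg.2, hι'.2] at this
    obtain ⟨κ, hκ, i1, i2⟩ := hwa K _ _ q _ (smov_mono s hq (by omega))
      (smov_mono s hq' (by omega)) v1 v2 (le_trans hιd (by omega))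
    have hκQ : κ ∈ Q (L.om a 1) (L.om b y) :=
      (Subgroup.closure_le (Q (L.om a 1) (L.om b y))).2 (fun _ h => h.1) hκ
    have hκ' := mem_Q.1 hκQ
    obtain ⟨-, p2⟩ := hpo (M n + W K) _ _ _ _ (κ • ι • g • q₁) q₁ (smov_mono s i1 (by omega))
      (smov_mono s i2 (by omega)) (smov_mono s hq₁ (by omega)) (smov_mono s hq₁' (by omega))
    obtain ⟨g', g1, g2⟩ := p2 ⟨κ * (ι * g), by
      simp only [Prod.smul_mk, mul_smul, hg.1, hg.2, hι'.1, hι'.2, hκ'.1, hκ'.2]⟩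
    rw [Prod.smul_mk, Prod.mk.injEq] at g1
    exact ⟨g', g1.1, by omega⟩

/-- Both cases together. -/
theorem dc_both : ∃ F, Bd F ∧ ∀ (n : ℕ) (x y : L.G), len L.π x ≤ n → len L.π y ≤ n →
    L.SG (F n) (L.om a 1, L.om b y) ∧ L.STr (F n) (L.om a 1, L.om b x) (L.om a 1, L.om b y) := by
  obtain ⟨F, hF, h1⟩ := s.dc_disj hH ha hb
  obtain ⟨G, hG, h2⟩ := s.dc_meet D hH ha hb
  refine ⟨fun n => F n + G n, hF.add hG, fun n x y hx hy => ?_⟩
  beta_reduce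
  by_cases hm : ∃ v, s.InV (L.om a 1) v ∧ s.InV (L.om b y) v
  · obtain ⟨k1, k2⟩ := h2 n x y hx hy hm
    exact ⟨sg_mono k1 (by omega), str_mono k2 (by omega)⟩
  · obtain ⟨k1, k2⟩ := h1 n x y hx hy hm
    exact ⟨sg_mono k1 (by omega), str_mono k2 (by omega)⟩

theorem dc1_G : DC1 L.π ({a}ᶜ : Set L.X) ({b}ᶜ : Set L.X) := by
  obtain ⟨F, hF, h⟩ := s.dc_both D hH ha hb
  refine ⟨F, hF, fun n x y hx hy m hm hm' => ?_⟩
  have key : ∀ g : L.G, g • (L.om a 1, L.om b x) = (L.om a 1, L.om b y) ↔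
      g ∈ MS L.π ({a}ᶜ : Set L.X) ∧ y⁻¹ * g * x ∈ MS L.π ({b}ᶜ : Set L.X) := by
    intro g
    rw [Prod.smul_mk, Prod.mk.injEq, MulAction.Quotient.smul_coe, MulAction.Quotient.smul_coe,
      eq_comm, QuotientGroup.eq, eq_comm, QuotientGroup.eq]
    simp [mul_assoc]
  obtain ⟨g, g1, g2⟩ := (h n x y hx hy).2 ⟨m, (key m).2 ⟨hm, hm'⟩⟩
  exact ⟨g, ((key g).1 g1).1, ((key g).1 g1).2, g2⟩

theorem dc2_G : DC2 L.π ({a}ᶜ : Set L.X) ({b}ᶜ : Set L.X) := by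
  obtain ⟨F, hF, h⟩ := s.dc_both D hH ha hb
  refine ⟨F, hF, fun n y hy => ?_⟩
  have heq : MulAction.stabilizer L.G (L.om a 1, L.om b y) =
      MS L.π ({a}ᶜ : Set L.X) ⊓ cj y (MS L.π ({b}ᶜ : Set L.X)) := by
    ext g
    rw [mem_Q, ← MulAction.mem_stabilizer_iff, ← MulAction.mem_stabilizer_iff, stabilizer_coe,
      stabilizer_coe]
    simp
  have := (h n y y hy hy).1
  rw [Lv.SG, heq] at this
  exact this

end St
end CPOR
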