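import Mathlib

/-! Shared definitions for the conjugacy problem of one-relator groups:
the class `Bd` of bounds, rank predicates, flows and the statement of Theorem F. -/

set_option autoImplicit false

namespace CPOR

/-- Monotone primitive recursive functions: the class of bounds. -/
def Bd (F : ℕ → ℕ) : Prop := Primrec F ∧ Monotone F

namespace Bd

theorem mono {F : ℕ → ℕ} (h : Bd F) {a b : ℕ} (hab : a ≤ b) : F a ≤ F b := h.2 hab

theorem const (c : ℕ) : Bd (fun _ => c) := ⟨Primrec.const c, fun _ _ _ => le_rfl⟩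

theorem id : Bd (fun n => n) := ⟨Primrec.id, fun _ _ h => h⟩

theorem add {F G : ℕ → ℕ} (hF : Bd F) (hG : Bd G) : Bd (fun n => F n + G n) :=
  ⟨Primrec.nat_add.comp hF.1 hG.1, fun _ _ h => Nat.add_le_add (hF.2 h) (hG.2 h)⟩

theorem mul {F G : ℕ → ℕ} (hF : Bd F) (hG : Bd G) : Bd (fun n => F n * G n) :=
  ⟨Primrec.nat_mul.comp hF.1 hG.1, fun _ _ h => Nat.mul_le_mul (hF.2 h) (hG.2 h)⟩

theorem comp {F G : ℕ → ℕ} (hF : Bd F) (hG : Bd G) : Bd (fun n => F (G n)) :=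
  ⟨hF.1.comp hG.1, fun _ _ h => hF.2 (hG.2 h)⟩

theorem max {F G : ℕ → ℕ} (hF : Bd F) (hG : Bd G) : Bd (fun n => max (F n) (G n)) :=
  ⟨Primrec.nat_max.comp hF.1 hG.1, fun _ _ h => max_le_max (hF.2 h) (hG.2 h)⟩

theorem primrec_pow : Primrec₂ (fun a b : ℕ => a ^ b) := Primrec₂.unpaired'.1 Nat.Primrec.pow

/-- `(F n + 1) ^ G n` is a bound. -/
theorem pow {F G : ℕ → ℕ} (hF : Bd F) (hG : Bd G) : Bd (fun n => (F n + 1) ^ G n) :=
  ⟨primrec_pow.comp (Primrec.succ.comp hF.1) hG.1, fun _ _ h =>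
    le_trans (Nat.pow_le_pow_left (Nat.succ_le_succ (hF.2 h)) _)
      (Nat.pow_le_pow_right (Nat.succ_pos _) (hG.2 h))⟩

theorem factorial {F : ℕ → ℕ} (hF : Bd F) : Bd (fun n => (F n).factorial) := by
  refine ⟨?_, fun _ _ h => Nat.factorial_le (hF.2 h)⟩
  have : Primrec Nat.factorial := by
    have h := Primrec.nat_rec₁ (f := fun n ih : ℕ => (n + 1) * ih) 1
      (Primrec.nat_mul.comp (Primrec.succ.comp Primrec.fst) Primrec.snd)
    refine h.of_eq fun n => ?_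
    induction n with
    | zero => rfl
    | succ n ih => simp [Nat.factorial_succ, ← ih]
  exact this.comp hF.1

/-- The iterate used for inductions whose length is bounded by the input. -/
def it (F : ℕ → ℕ) (n : ℕ) : ℕ := (fun m => F m + m)^[n] n

theorem iter_mono {F : ℕ → ℕ} (hF : Bd F) (k : ℕ) : Monotone ((fun m => F m + m)^[k]) :=
  Monotone.iterate (fun _ _ h => Nat.add_le_add (hF.2 h) h) k

theorem le_iter (F : ℕ → ℕ) (k m : ℕ) : m ≤ (fun m => F m + m)^[k] m := by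
  induction k with
  | zero => exact le_rfl
  | succ k ih => rw [Function.iterate_succ_apply']; omega

theorem iter_le_iter (F : ℕ → ℕ) {k l : ℕ} (h : k ≤ l) (m : ℕ) :
    (fun m => F m + m)^[k] m ≤ (fun m => F m + m)^[l] m := by
  obtain ⟨d, rfl⟩ := Nat.exists_eq_add_of_le h
  rw [Nat.add_comm, Function.iterate_add_apply]
  exact le_iter F d _

theorem le_it (F : ℕ → ℕ) (n : ℕ) : n ≤ it F n := le_iter F n n

theorem it_bd {F : ℕ → ℕ} (hF : Bd F) : Bd (it F) := by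
  refine ⟨?_, fun a b h => ?_⟩
  · exact Primrec.nat_iterate Primrec.id Primrec.id
      (Primrec.nat_add.comp (hF.1.comp Primrec.snd) Primrec.snd).to₂
  · exact le_trans (iter_mono hF a h) (iter_le_iter F h b)

/-- Induction principle: a property carried with a growing bound along at most `n` steps. -/
theorem it_induct {F : ℕ → ℕ} (P : ℕ → ℕ → Prop) (k n : ℕ) (hk : k ≤ n)
    (hmono : ∀ i a b, a ≤ b → P i a → P i b) (h0 : P 0 n)
    (hstep : ∀ i m, i < k → n ≤ m → P i m → P (i + 1) (F m)) :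
    ∀ i ≤ k, P i (it F n) := by
  have key : ∀ i ≤ k, P i ((fun m => F m + m)^[i] n) := by
    intro i
    induction i with
    | zero => intro _; exact h0
    | succ i ih =>
      intro hi
      rw [Function.iterate_succ_apply']
      exact hmono _ _ _ (Nat.le_add_right _ _) (hstep i _ hi (le_iter F i n) (ih (by omega)))
  intro i hi
  exact hmono _ _ _ (iter_le_iter F (le_trans hi hk) n) (key i hi)

/-- Finitely many bounds have a common upper bound. -/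
theorem finite_sup {ι : Type*} [Finite ι] (F : ι → ℕ → ℕ) (h : ∀ i, Bd (F i)) :
    ∃ G, Bd G ∧ ∀ i n, F i n ≤ G n := by
  classical
  have key : ∀ s : Finset ι, ∃ G, Bd G ∧ ∀ i ∈ s, ∀ n, F i n ≤ G n := by
    intro s
    induction s using Finset.induction_on with
    | empty => exact ⟨_, Bd.id, by simp⟩
    | insert a s _ ih =>
      obtain ⟨G, hG, hle⟩ := ih
      refine ⟨_, (h a).add hG, fun i hi n => ?_⟩
      rcases Finset.mem_insert.1 hi with rfl | hi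
      · exact Nat.le_add_right _ _
      · exact le_trans (hle i hi n) (Nat.le_add_left _ _)
  have := Fintype.ofFinite ι
  obtain ⟨G, hG, hle⟩ := key Finset.univ
  exact ⟨G, hG, fun i n => hle i (Finset.mem_univ i) n⟩

end Bd

/-- `K` is generated by `N` elements. -/
def RkLe {Γ : Type*} [Group Γ] (K : Subgroup Γ) (N : ℕ) : Prop :=
  ∃ f : Fin N → Γ, Subgroup.closure (Set.range f) = K

/-- `K` has `ρ` linearly independent homomorphisms to `ℚ`. -/
def RkGe {Γ : Type*} [Group Γ] (K : Subgroup Γ) (ρ : ℕ) : Prop :=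
  ∃ χ : Fin ρ → (K →* Multiplicative ℚ),
    LinearIndependent ℚ (fun i => fun x : K => Multiplicative.toAdd (χ i x))

/-- A flow: a free subgroup `V = range b` with a basis and finitely many arrows. -/
structure Flow (Γ : Type) [Group Γ] where
  I : Type
  [fin : Fintype I]
  [dec : DecidableEq I]
  b : FreeGroup I →* Γ
  inj : Function.Injective b
  arr : Finset Γ

attribute [instance] Flow.fin Flow.dec

namespace Flow

variable {Γ : Type} [Group Γ] (Φ : Flow Γ)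

/-- The node group. -/
abbrev V : Subgroup Γ := Φ.b.range

/-- The node (left coset of `V`) of a point. -/
abbrev nd (x : Γ) : Γ ⧸ Φ.V := (x : Γ ⧸ Φ.V)

/-- Connectors: the union of the double cosets `V c V`. -/
def Conn (κ : Γ) : Prop := ∃ c ∈ Φ.arr, ∃ α β : FreeGroup Φ.I, κ = Φ.b α * c * Φ.b β

/-- Connectors of size at most `n`. -/
def ConnLe (n : ℕ) (κ : Γ) : Prop :=
  ∃ c ∈ Φ.arr, ∃ α β : FreeGroup Φ.I, α.norm ≤ n ∧ β.norm ≤ n ∧ κ = Φ.b α * c * Φ.b β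

/-- Two points of one node at distance at most `n`. -/
def DLe (n : ℕ) (x y : Γ) : Prop := ∃ α : FreeGroup Φ.I, α.norm ≤ n ∧ y = x * Φ.b α

/-- `g` fixes the node of `y` and moves some point of it by at most `n`. -/
def CycLe (n : ℕ) (g y : Γ) : Prop := ∃ z, Φ.nd z = Φ.nd y ∧ Φ.DLe n z (g * z)

/-- Strong inertia for the nodes `nd (σ κ)`, `κ` a connector
(`σ = id`: out-arrows, `σ = inv`: in-arrows of the node of `1`). -/
def SIs (σ : Γ → Γ) : Prop :=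
  ∀ (K : Subgroup Γ) (N m : ℕ) (κ : Fin (m + 1) → Γ) (ρ : Fin (m + 1) → ℕ),
    K ≤ Φ.V → RkLe K N → (∀ i, Φ.Conn (κ i)) →
    (∀ i j, (∃ k ∈ K, k • Φ.nd (σ (κ i)) = Φ.nd (σ (κ j))) → i = j) →
    (∀ i, RkGe (K ⊓ MulAction.stabilizer Γ (Φ.nd (σ (κ i)))) (ρ i)) →
    ∑ i, ρ i + 1 ≤ N + (m + 1)

def SI : Prop := Φ.SIs (fun x => x) ∧ Φ.SIs (fun x => x⁻¹)

/-- A thread of size `L` with period `k` and translation `u`. -/
def Thread (L k : ℕ) (u : Γ) (x : ℤ → Γ) : Prop :=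
  1 ≤ k ∧ k ≤ L ∧ (∀ i, x (i + k) = u * x i) ∧ ∀ i, Φ.ConnLe L ((x i)⁻¹ * x (i + 1))

/-- Rigid loops. -/
def G1 : Prop :=
  ∃ F, Bd F ∧ ∀ (L n : ℕ) (g : Γ) (y : ℕ → Γ), g ≠ 1 →
    (∀ i < n, Φ.Conn ((y i)⁻¹ * y (i + 1))) →
    (∀ i ≤ n, g • Φ.nd (y i) = Φ.nd (y i)) →
    (∀ i < n, ∀ κ, Φ.Conn κ → g • Φ.nd (y i * κ) = Φ.nd (y i * κ) →
      Φ.nd (y i * κ) = Φ.nd (y (i + 1))) →
    (∀ i < n, ∀ κ, Φ.Conn κ → g • Φ.nd (y (i + 1) * κ⁻¹) = Φ.nd (y (i + 1) * κ⁻¹) →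
      Φ.nd (y (i + 1) * κ⁻¹) = Φ.nd (y i)) →
    Φ.CycLe L g (y 0) → Φ.CycLe L g (y n) →
    n ≤ F L ∨ ∃ (h : Γ) (i j : ℕ), i < j ∧ j ≤ n ∧ Commute h g ∧ h • Φ.nd (y i) = Φ.nd (y j)

/-- Two threads that share a long stretch of nodes (uniform exponent). -/
def G2 : Prop :=
  ∃ (N : ℕ) (F : ℕ → ℕ), 0 < N ∧ Bd F ∧ ∀ (L k n : ℕ) (u u' : Γ) (x x' : ℤ → Γ),
    Φ.Thread L k u x → Φ.Thread L k u' x' →
    (∀ i : ℤ, 0 ≤ i → i ≤ n → Φ.nd (x i) = Φ.nd (x' i)) →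
    Φ.DLe L (x 0) (x' 0) → Φ.DLe L (x n) (x' n) →
    n ≤ F L ∨ u ^ N = u' ^ N

/-- Twisted conjugacy. -/
def G3 : Prop :=
  ∃ F, Bd F ∧ ∀ (L k : ℕ) (u : Γ) (x x' : ℤ → Γ),
    Φ.Thread L k u x → Φ.Thread L k u x' → (∀ i, Φ.nd (x i) = Φ.nd (x' i)) →
    ∃ ε : Γ, Commute ε u ∧ (∀ i, ε • Φ.nd (x i) = Φ.nd (x i)) ∧ Φ.DLe (F L) (x 0) (ε * x' 0)

end Flow

/-- THEOREM F (interface between the free group part and the one-relator part). -/
def S_F : Prop :=
  ∀ (Γ : Type) [Group Γ] (Φ : Flow Γ), Φ.SI → Φ.G1 ∧ Φ.G2 ∧ Φ.G3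

end CPOR
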