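import Pool.Agent.P.MP_2cb329_al.ENDc

/-! From the hierarchy theorem to the computability of conjugacy in every one-relator group. -/

set_option autoImplicit false

namespace CPOR

/-- The word is not a proper power of a shorter word. -/
def PrimW {X : Type} (u : List (X × Bool)) : Prop :=
  ∀ (w : List (X × Bool)) (j : ℕ), u = (List.replicate j w).flatten → j = 1

/-- The letters that do not occur in the word. -/
def spare {X : Type} [Fintype X] [DecidableEq X] (u : List (X × Bool)) : Finset X :=
  Finset.univ.filter fun x => ∀ a ∈ u, a.1 ≠ x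

theorem mem_spare {X : Type} [Fintype X] [DecidableEq X] {u : List (X × Bool)} {x : X} :
    x ∈ spare u ↔ ∀ a ∈ u, a.1 ≠ x := by
  simp only [spare, Finset.mem_filter, Finset.mem_univ, true_and]

/-- The output of the hierarchy: filling and conjugator bounds for primitive cyclically reduced
words with enough spare letters. -/
def S_H : Prop :=
  ∀ (X : Type) [Fintype X] [DecidableEq X] (u : List (X × Bool)) (k : ℕ),
    FreeGroup.IsCyclicallyReduced u → u ≠ [] → 1 ≤ k → PrimW u → u.length ≤ (spare u).card →
    ∃ (G : Type) (_ : Group G) (π : FreeGroup X →* G), Function.Surjective π ∧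
      π.ker = Subgroup.normalClosure {FreeGroup.mk u ^ k} ∧
      Fill π (FreeGroup.mk u ^ k) ∧ CP π

namespace END

theorem exists_root {X : Type} (w : List (X × Bool)) (hc : FreeGroup.IsCyclicallyReduced w)
    (hne : w ≠ []) : ∃ (u : List (X × Bool)) (k : ℕ), FreeGroup.IsCyclicallyReduced u ∧ u ≠ [] ∧
      1 ≤ k ∧ PrimW u ∧ u.length ≤ w.length ∧ (∀ a ∈ u, a ∈ w) ∧
      FreeGroup.mk w = FreeGroup.mk u ^ k := by
  induction hn : w.length using Nat.strong_induction_on generalizing w with
  | _ n ih =>
  by_cases hp : PrimW w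
  · exact ⟨w, 1, hc, hne, le_rfl, hp, hn.le, fun _ h => h, (pow_one _).symm⟩
  unfold PrimW at hp
  push Not at hp
  obtain ⟨v, j, hv, hj⟩ := hp
  have hj0 : j ≠ 0 := by
    rintro rfl
    exact hne (by simpa using hv)
  have hv0 : v ≠ [] := by
    rintro rfl
    exact hne (by simpa using hv)
  have hlen : w.length = j * v.length := by
    rw [hv]; simp
  have hvpos : 0 < v.length := List.length_pos_iff.2 hv0
  have hlt : v.length < n := by
    have : 2 * v.length ≤ j * v.length := Nat.mul_le_mul_right _ (by omega)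
    omega
  obtain ⟨j', rfl⟩ := Nat.exists_eq_succ_of_ne_zero hj0
  have hpre : w = v ++ (List.replicate j' v).flatten := by
    rw [hv, List.replicate_succ, List.flatten_cons]
  have hcv : FreeGroup.IsCyclicallyReduced v := by
    have hr : FreeGroup.IsReduced (v ++ (List.replicate j' v).flatten) := hpre ▸ hc.1
    refine ⟨List.IsChain.left_of_append hr, fun a ha b hb => hc.2 a ?_ b ?_⟩
    · rw [hv, Option.mem_def, List.getLast?_flatten_replicate (h := by simp +arith)]
      exact ha
    · rw [hv, Option.mem_def, List.head?_flatten_replicate (h := by simp +arith)]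
      exact hb
  obtain ⟨u, k, h1, h2, h3, h4, h5, h6, h7⟩ := ih _ hlt v hcv hv0 rfl
  refine ⟨u, k * (j' + 1), h1, h2, Nat.mul_pos h3 (Nat.succ_pos _), h4, by omega,
    fun a ha => ?_, ?_⟩
  · rw [hpre]; exact List.mem_append_left _ (h6 a ha)
  · rw [pow_mul, ← h7, FreeGroup.pow_mk, ← hv]

theorem cyc_map {X Y : Type} (ι : X → Y) (hι : Function.Injective ι) {w : List (X × Bool)}
    (hc : FreeGroup.IsCyclicallyReduced w) :
    FreeGroup.IsCyclicallyReduced (w.map fun x => (ι x.1, x.2)) := by
  refine ⟨?_, fun a ha b hb h => ?_⟩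
  · unfold FreeGroup.IsReduced
    rw [List.isChain_map]
    exact hc.1.imp fun a b h h' => h (hι h')
  · rw [List.getLast?_map, Option.mem_def, Option.map_eq_some_iff] at ha
    rw [List.head?_map, Option.mem_def, Option.map_eq_some_iff] at hb
    obtain ⟨a', ha', rfl⟩ := ha
    obtain ⟨b', hb', rfl⟩ := hb
    exact hc.2 a' ha' b' hb' (hι h)

/-- A homomorphism that kills the kernel of a surjection factors through it. -/
theorem exists_factor {F G H : Type} [Group F] [Group G] [Group H] (π : F →* G)
    (hπ : Function.Surjective π) (φ : F →* H) (h : π.ker ≤ φ.ker) :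
    ∃ ψ : G →* H, ∀ f, ψ (π f) = φ f :=
  ⟨π.liftOfRightInverse (Function.surjInv hπ) (Function.rightInverse_surjInv hπ) ⟨φ, h⟩,
    fun f => π.liftOfRightInverse_comp_apply _ _ ⟨φ, h⟩ f⟩

theorem comp_pred {α β : Type} [Primcodable α] [Primcodable β] {p : β → Prop} {f : α → β}
    (hp : ComputablePred p) (hf : Computable f) : ComputablePred fun a => p (f a) := by
  obtain ⟨inst, hp⟩ := hp
  exact ⟨fun a => inst (f a), hp.comp hf⟩

/-- Transfer of computability along a retraction. -/
theorem transfer {X Y : Type} [Primcodable X] [Primcodable Y] [Finite X] {G H : Type} [Group G]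
    [Group H] (π : FreeGroup X →* G) (hπ : Function.Surjective π) (σ : FreeGroup Y →* H)
    (hσ : Function.Surjective σ) (ι : X → Y) (ρ : FreeGroup Y →* FreeGroup X)
    (hρ : ∀ f, ρ (FreeGroup.map ι f) = f) (h1 : π.ker ≤ (σ.comp (FreeGroup.map ι)).ker)
    (h2 : σ.ker ≤ (π.comp ρ).ker)
    (hc : ComputablePred fun p : List (Y × Bool) × List (Y × Bool) =>
      IsConj (σ (FreeGroup.mk p.1)) (σ (FreeGroup.mk p.2))) :
    ComputablePred fun p : List (X × Bool) × List (X × Bool) =>
      IsConj (π (FreeGroup.mk p.1)) (π (FreeGroup.mk p.2)) := by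
  obtain ⟨α, hα⟩ := exists_factor π hπ _ h1
  obtain ⟨β, hβ⟩ := exists_factor σ hσ _ h2
  have hm : Primrec fun l : List (X × Bool) => l.map fun x => (ι x.1, x.2) :=
    Primrec.list_map Primrec.id ((Primrec.dom_finite fun x : X × Bool => (ι x.1, x.2)).comp
      Primrec.snd).to₂
  have hmm : Primrec fun p : List (X × Bool) × List (X × Bool) =>
      (p.1.map fun x : X × Bool => (ι x.1, x.2), p.2.map fun x : X × Bool => (ι x.1, x.2)) :=
    Primrec.pair (hm.comp Primrec.fst) (hm.comp Primrec.snd)
  refine (comp_pred hc hmm.to_comp).of_eq fun p => ?_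
  dsimp only
  rw [← FreeGroup.map.mk, ← FreeGroup.map.mk]
  constructor
  · intro h
    have := β.map_isConj h
    rwa [hβ, hβ, MonoidHom.comp_apply, MonoidHom.comp_apply, hρ, hρ] at this
  · intro h
    have := α.map_isConj h
    rwa [hα, hα] at this

/-- The retraction that kills the added letters. -/
def kill (X Z : Type) : FreeGroup (X ⊕ Z) →* FreeGroup X :=
  FreeGroup.lift (Sum.elim FreeGroup.of fun _ => 1)

theorem kill_map {X Z : Type} (f : FreeGroup X) : kill X Z (FreeGroup.map Sum.inl f) = f := by
  have : (kill X Z).comp (FreeGroup.map Sum.inl) = MonoidHom.id _ := by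
    ext x
    simp [kill]
  exact DFunLike.congr_fun this f

end END

open END in
/-- The hierarchy theorem gives the frozen statement. -/
theorem computable_of_S_H (hH : S_H) (n : ℕ) (r : FreeGroup (Fin n)) :
    ComputablePred fun p : List (Fin n × Bool) × List (Fin n × Bool) =>
      IsConj (PresentedGroup.mk ({r} : Set (FreeGroup (Fin n))) (FreeGroup.mk p.1))
        (PresentedGroup.mk ({r} : Set (FreeGroup (Fin n))) (FreeGroup.mk p.2)) := by
  have hker : (PresentedGroup.mk ({r} : Set (FreeGroup (Fin n)))).ker =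
      Subgroup.normalClosure {r} := by
    ext f
    exact PresentedGroup.mk_eq_one_iff
  have hr1 : PresentedGroup.mk ({r} : Set (FreeGroup (Fin n))) r = 1 :=
    PresentedGroup.one_of_mem rfl
  -- it is enough to find a larger alphabet and a good relator
  suffices h : ∃ (m : ℕ) (u : List ((Fin n ⊕ Fin m) × Bool)) (k : ℕ),
      FreeGroup.IsCyclicallyReduced u ∧ u ≠ [] ∧ 1 ≤ k ∧ PrimW u ∧ u.length ≤ (spare u).card ∧
      PresentedGroup.mk ({r} : Set (FreeGroup (Fin n))) (kill _ _ (FreeGroup.mk u ^ k)) = 1 ∧
      FreeGroup.map Sum.inl r ∈ Subgroup.normalClosure {FreeGroup.mk u ^ k} by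
    obtain ⟨m, u, k, h1, h2, h3, h4, h5, h6, h7⟩ := h
    obtain ⟨G, _, π, hπ, hk, hF, hC⟩ := hH _ u k h1 h2 h3 h4 h5
    refine transfer _ (PresentedGroup.mk_surjective _) π hπ Sum.inl (kill _ _) kill_map ?_ ?_
      (computable_of π hπ _ ?_ hF hC)
    · rw [hker]
      refine Subgroup.normalClosure_le_normal ?_
      rintro _ rfl
      rw [← hk] at h7
      exact h7
    · rw [hk]
      refine Subgroup.normalClosure_le_normal ?_
      rintro _ rfl
      exact h6
    · rw [← MonoidHom.mem_ker, hk]
      exact Subgroup.subset_normalClosure rfl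
  by_cases hr : r = 1
  · refine ⟨2, [(Sum.inr 0, true)], 1, FreeGroup.IsCyclicallyReduced.singleton, by simp, le_rfl,
      fun w j h => ?_, ?_, ?_, ?_⟩
    · have := congrArg List.length h
      simp only [List.length_singleton, List.length_flatten, List.map_replicate,
        List.sum_replicate, smul_eq_mul] at this
      exact Nat.eq_one_of_mul_eq_one_right this.symm
    · refine Finset.card_pos.2 ⟨Sum.inr 1, ?_⟩
      simp [spare]
    · have : kill (Fin n) (Fin 2) (FreeGroup.mk [(Sum.inr 0, true)]) = 1 := by
        simp [kill]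
      rw [pow_one, this, map_one]
    · rw [hr, map_one]
      exact Subgroup.one_mem _
  · let w := FreeGroup.reduceCyclically r.toWord
    let c := FreeGroup.mk (FreeGroup.reduceCyclically.conjugator r.toWord)
    have hw : r = c * FreeGroup.mk w * c⁻¹ := by
      rw [FreeGroup.inv_mk, FreeGroup.mul_mk, FreeGroup.mul_mk,
        FreeGroup.reduceCyclically.conj_conjugator_reduceCyclically, FreeGroup.mk_toWord]
    have hw0 : w ≠ [] := by
      intro h
      rw [h, ← FreeGroup.one_eq_mk, mul_one, mul_inv_cancel] at hw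
      exact hr hw
    have hcw : FreeGroup.IsCyclicallyReduced w :=
      FreeGroup.reduceCyclically.isCyclicallyReduced FreeGroup.isReduced_toWord
    obtain ⟨u, k, h1, h2, h3, h4, h5, h6, h7⟩ :=
      exists_root (w.map fun x => ((Sum.inl x.1 : Fin n ⊕ Fin w.length), x.2))
        (cyc_map Sum.inl Sum.inl_injective hcw) (by simpa using hw0)
    rw [← FreeGroup.map.mk] at h7
    refine ⟨w.length, u, k, h1, h2, h3, h4, ?_, ?_, ?_⟩
    · rw [List.length_map] at h5
      refine h5.trans ?_
      have hsub : Finset.univ.map ⟨Sum.inr, Sum.inr_injective⟩ ⊆ spare u := by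
        intro x hx
        obtain ⟨y, -, rfl⟩ := Finset.mem_map.1 hx
        refine mem_spare.2 fun a ha => ?_
        obtain ⟨b, -, rfl⟩ := List.mem_map.1 (h6 a ha)
        simp
      simpa using Finset.card_le_card hsub
    · rw [← h7, kill_map]
      have : FreeGroup.mk w = c⁻¹ * r * c := by rw [hw]; group
      rw [this, map_mul, map_mul, hr1, mul_one, ← map_mul, inv_mul_cancel, map_one]
    · have h8 : FreeGroup.map (Sum.inl : Fin n → Fin n ⊕ Fin w.length) r =
          FreeGroup.map Sum.inl c * FreeGroup.mk u ^ k * (FreeGroup.map Sum.inl c)⁻¹ := by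
        rw [← h7, ← map_inv, ← map_mul, ← map_mul, ← hw]
      rw [h8]
      exact Subgroup.normalClosure_normal.conj_mem _
        (Subgroup.subset_normalClosure (Set.mem_singleton _)) _

end CPOR
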