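import Pool.Agent.P.MP_2cb329_al.LV

/-! The search program: bounded filling and bounded conjugators give a computable
conjugacy predicate. -/

set_option autoImplicit false

namespace CPOR
namespace ENDc

/-- All lists of length at most `N` over the entries of `A`. -/
def allL {α : Type} (A : List α) (N : ℕ) : List (List α) :=
  (fun L => [] :: A.flatMap fun a => L.map fun l => a :: l)^[N] [[]]

theorem mem_allL {α : Type} (A : List α) (N : ℕ) (l : List α) (hl : l.length ≤ N)
    (hA : ∀ a ∈ l, a ∈ A) : l ∈ allL A N := by
  induction N generalizing l with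
  | zero =>
    have : l = [] := List.length_eq_zero_iff.1 (Nat.le_zero.1 hl)
    simp [allL, this]
  | succ N ih =>
    unfold allL
    rw [Function.iterate_succ_apply']
    cases l with
    | nil => exact List.mem_cons_self
    | cons a l =>
      refine List.mem_cons_of_mem _ (List.mem_flatMap.2 ⟨a, hA a List.mem_cons_self, ?_⟩)
      refine List.mem_map.2 ⟨l, ih l (by simpa using hl) fun b hb => hA b ?_, rfl⟩
      exact List.mem_cons_of_mem _ hb

theorem primrec_allL {α : Type} [Primcodable α] : Primrec₂ (allL (α := α)) := by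
  unfold allL
  refine Primrec.nat_iterate (f := fun p : List α × ℕ => p.2) (g := fun _ => [[]])
    (h := fun (p : List α × ℕ) (L : List (List α)) =>
      [] :: p.1.flatMap fun a => L.map fun l => a :: l) Primrec.snd (Primrec.const _) ?_
  refine Primrec.list_cons.comp (Primrec.const []) ?_
  refine Primrec.list_flatMap (Primrec.fst.comp Primrec.fst) ?_
  refine Primrec.list_map (Primrec.snd.comp Primrec.fst) ?_
  exact Primrec.list_cons.comp (Primrec.snd.comp Primrec.fst) Primrec.snd

variable {X : Type}

theorem primrec_invRev [Primcodable X] : Primrec (FreeGroup.invRev (α := X)) := by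
  unfold FreeGroup.invRev
  refine Primrec.list_reverse.comp (Primrec.list_map Primrec.id ?_)
  exact Primrec.pair (Primrec.fst.comp Primrec.snd)
    (Primrec.not.comp (Primrec.snd.comp Primrec.snd))

theorem primrec_reduce [Primcodable X] [DecidableEq X] : Primrec (FreeGroup.reduce (α := X)) := by
  have h : Primrec fun l : List (X × Bool) => l.foldr (fun hd ih => List.casesOn ih [hd]
      fun hd2 tl2 => if hd = (hd2.1, !hd2.2) then tl2 else hd :: hd2 :: tl2)
      ([] : List (X × Bool)) := by
    refine Primrec.list_foldr (f := fun l : List (X × Bool) => l) (g := fun _ => [])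
      (h := fun _ (q : (X × Bool) × List (X × Bool)) => List.casesOn q.2 [q.1]
        fun hd2 tl2 => if q.1 = (hd2.1, !hd2.2) then tl2 else q.1 :: hd2 :: tl2)
      Primrec.id (Primrec.const _) ?_
    refine Primrec.list_casesOn (f := fun p : List (X × Bool) × (X × Bool) × List (X × Bool) =>
        p.2.2) (g := fun p => [p.2.1])
      (h := fun p (q : (X × Bool) × List (X × Bool)) =>
        if p.2.1 = (q.1.1, !q.1.2) then q.2 else p.2.1 :: q.1 :: q.2)
      (Primrec.snd.comp Primrec.snd)
      (Primrec.list_cons.comp (Primrec.fst.comp Primrec.snd) (Primrec.const [])) ?_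
    refine Primrec.ite (Primrec.eq.comp (Primrec.fst.comp (Primrec.snd.comp Primrec.fst))
      (Primrec.pair (Primrec.fst.comp (Primrec.fst.comp Primrec.snd))
        (Primrec.not.comp (Primrec.snd.comp (Primrec.fst.comp Primrec.snd)))))
      (Primrec.snd.comp Primrec.snd) ?_
    exact Primrec.list_cons.comp (Primrec.fst.comp (Primrec.snd.comp Primrec.fst))
      (Primrec.list_cons.comp (Primrec.fst.comp Primrec.snd) (Primrec.snd.comp Primrec.snd))
  refine h.of_eq fun l => ?_
  induction l with
  | nil => rfl
  | cons a l ih =>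
    rw [List.foldr_cons, ih, FreeGroup.reduce.cons]
    cases FreeGroup.reduce l with
    | nil => rfl
    | cons b t =>
      obtain ⟨a1, a2⟩ := a
      simp only [Prod.mk.injEq]

/-- The word of a list of conjugates of the relator. -/
def wordOf (r : List (X × Bool)) (l : List (List (X × Bool) × Bool)) : List (X × Bool) :=
  l.flatMap fun p => p.1 ++ (if p.2 then r else FreeGroup.invRev r) ++ FreeGroup.invRev p.1

theorem primrec_wordOf [Primcodable X] (r : List (X × Bool)) : Primrec (wordOf r) := by
  unfold wordOf
  refine Primrec.list_flatMap Primrec.id ?_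
  refine Primrec.list_append.comp (Primrec.list_append.comp (Primrec.fst.comp Primrec.snd) ?_)
    (primrec_invRev.comp (Primrec.fst.comp Primrec.snd))
  exact (Primrec.dom_bool fun b => if b then r else FreeGroup.invRev r).comp
    (Primrec.snd.comp Primrec.snd)

theorem mk_wordOf (r : List (X × Bool)) (l : List (List (X × Bool) × Bool)) :
    FreeGroup.mk (wordOf r l) = (l.map fun p => FreeGroup.mk p.1 *
      (if p.2 then FreeGroup.mk r else (FreeGroup.mk r)⁻¹) * (FreeGroup.mk p.1)⁻¹).prod := by
  induction l with
  | nil => rfl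
  | cons p l ih =>
    have : wordOf r (p :: l) = (p.1 ++ (if p.2 then r else FreeGroup.invRev r) ++
      FreeGroup.invRev p.1) ++ wordOf r l := by simp [wordOf]
    rw [this, ← FreeGroup.mul_mk, ih, List.map_cons, List.prod_cons, ← FreeGroup.mul_mk,
      ← FreeGroup.mul_mk, ← FreeGroup.inv_mk]
    congr 3
    split_ifs
    · rfl
    · rw [FreeGroup.inv_mk]

/-- The list of pairs of a word and a sign. -/
def signed {α : Type} (W : List α) : List (α × Bool) :=
  W.flatMap fun w => [(w, true), (w, false)]

theorem primrec_signed {α : Type} [Primcodable α] : Primrec (signed (α := α)) := by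
  unfold signed
  refine Primrec.list_flatMap Primrec.id ?_
  exact Primrec.list_cons.comp (Primrec.pair Primrec.snd (Primrec.const true))
    (Primrec.list_cons.comp (Primrec.pair Primrec.snd (Primrec.const false)) (Primrec.const []))

theorem mem_signed {α : Type} {W : List α} {w : α} (h : w ∈ W) (b : Bool) :
    (w, b) ∈ signed W := by
  refine List.mem_flatMap.2 ⟨w, h, ?_⟩
  cases b <;> simp

end ENDc

open ENDc in
/-- Bounded filling and bounded conjugators make the conjugacy problem decidable. -/
theorem computable_of {X : Type} [Primcodable X] [Fintype X] [DecidableEq X] {G : Type} [Group G]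
    (π : FreeGroup X →* G) (hπ : Function.Surjective π) (r : FreeGroup X) (hr : π r = 1)
    (hF : Fill π r) (hC : CP π) :
    ComputablePred fun p : List (X × Bool) × List (X × Bool) =>
      IsConj (π (FreeGroup.mk p.1)) (π (FreeGroup.mk p.2)) := by
  obtain ⟨F, hFb, hF⟩ := hF
  obtain ⟨C, hCb, hC⟩ := hC
  let A : List (X × Bool) := (Finset.univ : Finset (X × Bool)).toList
  have hA : ∀ a, a ∈ A := fun a => Finset.mem_toList.2 (Finset.mem_univ a)
  let P := List (X × Bool) × List (X × Bool)
  let n₁ : P → ℕ := fun p => C (p.1.length + p.2.length)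
  let n₂ : P → ℕ := fun p => F (n₁ p + p.1.length + n₁ p + p.2.length)
  have hl1 : Primrec fun p : P => p.1.length := Primrec.list_length.comp Primrec.fst
  have hl2 : Primrec fun p : P => p.2.length := Primrec.list_length.comp Primrec.snd
  have hn₁ : Primrec n₁ := hCb.1.comp (Primrec.nat_add.comp hl1 hl2)
  have hn₂ : Primrec n₂ := hFb.1.comp (Primrec.nat_add.comp (Primrec.nat_add.comp
    (Primrec.nat_add.comp hn₁ hl1) hn₁) hl2)
  let tw : List (X × Bool) → P → List (X × Bool) := fun g p =>
    FreeGroup.invRev g ++ p.1 ++ g ++ FreeGroup.invRev p.2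
  have htw : ∀ g p, FreeGroup.mk (tw g p) =
      (FreeGroup.mk g)⁻¹ * FreeGroup.mk p.1 * FreeGroup.mk g * (FreeGroup.mk p.2)⁻¹ := by
    intro g p
    simp only [tw, ← FreeGroup.mul_mk, ← FreeGroup.inv_mk]
  have hR : PrimrecRel fun (l : List (List (X × Bool) × Bool)) (q : List (X × Bool) × P) =>
      FreeGroup.reduce (tw q.1 q.2) = FreeGroup.reduce (wordOf r.toWord l) := by
    refine Primrec.eq.comp (primrec_reduce.comp ?_)
      (primrec_reduce.comp ((primrec_wordOf _).comp Primrec.fst))
    have hg : Primrec fun z : List (List (X × Bool) × Bool) × List (X × Bool) × P => z.2.1 :=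
      Primrec.fst.comp Primrec.snd
    have hp : Primrec fun z : List (List (X × Bool) × Bool) × List (X × Bool) × P => z.2.2 :=
      Primrec.snd.comp Primrec.snd
    exact Primrec.list_append.comp (Primrec.list_append.comp (Primrec.list_append.comp
      (primrec_invRev.comp hg) (Primrec.fst.comp hp)) hg)
      (primrec_invRev.comp (Primrec.snd.comp hp))
  have hR2 : PrimrecRel fun (g : List (X × Bool)) (p : P) =>
      ∃ l ∈ allL (signed (allL A (n₂ p))) (n₂ p),
        FreeGroup.reduce (tw g p) = FreeGroup.reduce (wordOf r.toWord l) := by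
    have h2 : Primrec fun q : List (X × Bool) × P => n₂ q.2 := hn₂.comp Primrec.snd
    exact (PrimrecRel.exists_mem_list hR).comp (primrec_allL.comp
      (primrec_signed.comp (primrec_allL.comp (Primrec.const A) h2)) h2) Primrec.id
  have hQ : PrimrecPred fun p : P => ∃ g ∈ allL A (n₁ p),
      ∃ l ∈ allL (signed (allL A (n₂ p))) (n₂ p),
        FreeGroup.reduce (tw g p) = FreeGroup.reduce (wordOf r.toWord l) :=
    (PrimrecRel.exists_mem_list hR2).comp (primrec_allL.comp (Primrec.const A) hn₁) Primrec.id
  refine hQ.computablePred.of_eq fun p => ⟨?_, ?_⟩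
  · rintro ⟨g, -, l, -, h⟩
    have h1 : FreeGroup.mk (tw g p) = FreeGroup.mk (wordOf r.toWord l) :=
      FreeGroup.reduce.exact h
    have h2 : π (FreeGroup.mk (wordOf r.toWord l)) = 1 := by
      rw [mk_wordOf, map_list_prod]
      refine List.prod_eq_one fun x hx => ?_
      simp only [List.map_map, List.mem_map, Function.comp] at hx
      obtain ⟨q, -, rfl⟩ := hx
      split_ifs <;>
        simp only [FreeGroup.mk_toWord, map_mul, map_inv, hr, inv_one, mul_one, mul_inv_cancel]
    rw [← h1, htw] at h2
    simp only [map_mul, map_inv] at h2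
    refine isConj_iff.2 ⟨(π (FreeGroup.mk g))⁻¹, ?_⟩
    rw [inv_inv]
    exact mul_inv_eq_one.1 h2
  · intro h
    obtain ⟨c, hc⟩ := isConj_iff.1 h
    obtain ⟨g', hg', hlen⟩ := hC (π (FreeGroup.mk p.1)) (π (FreeGroup.mk p.2)) c⁻¹
      (by rw [inv_inv]; exact hc)
    obtain ⟨f, rfl, hf⟩ := exists_len hπ g'
    have hf1 : f.norm ≤ n₁ p := by
      rw [hf]
      exact hlen.trans (hCb.mono (Nat.add_le_add ((len_le _).trans FreeGroup.norm_mk_le)
        ((len_le _).trans FreeGroup.norm_mk_le)))
    have h1 : π (FreeGroup.mk (tw f.toWord p)) = 1 := by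
      rw [htw, FreeGroup.mk_toWord]
      simp only [map_mul, map_inv]
      rw [hg', mul_inv_cancel]
    obtain ⟨l, hl, hl', he⟩ := hF _ h1
    have hb : F (FreeGroup.mk (tw f.toWord p)).norm ≤ n₂ p := by
      refine hFb.mono (FreeGroup.norm_mk_le.trans ?_)
      have : f.toWord.length = f.norm := rfl
      simp only [tw, List.length_append, FreeGroup.invRev_length]
      omega
    refine ⟨f.toWord, mem_allL _ _ _ hf1 fun a _ => hA a,
      l.map fun q => (q.1.toWord, q.2), mem_allL _ _ _ ?_ ?_, ?_⟩
    · rw [List.length_map]; exact hl.trans hb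
    · intro a ha
      obtain ⟨q, hq, rfl⟩ := List.mem_map.1 ha
      exact mem_signed (mem_allL _ _ _ ((hl' q hq).trans hb) fun a _ => hA a) _
    · refine FreeGroup.reduce.sound ?_
      rw [he, mk_wordOf, List.map_map]
      simp only [Function.comp_def, FreeGroup.mk_toWord]

end CPOR
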