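import Pool.Agent.P.MP_2cb329_al.ES1

/-! Effective escape along the intersection of two subtrees. -/

set_option autoImplicit false

namespace CPOR

open Classical in
/-- Few marks and short unmarked runs bound the length. -/
theorem marks_runs (M : ℕ → Prop) (k R : ℕ)
    (hrun : ∀ i j, i ≤ j → j < k → (∀ l, i ≤ l → l ≤ j → ¬ M l) → (i = 0 ∨ M (i - 1)) →
      (j + 1 = k ∨ M (j + 1)) → j - i ≤ R) :
    ∀ B p, p ≤ k → (p = 0 ∨ M (p - 1)) → ((Finset.Ico p k).filter M).card ≤ B →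
      k - p ≤ (B + 1) * (R + 2) := by
  have base : ∀ p, p ≤ k → (p = 0 ∨ M (p - 1)) → (∀ l, p ≤ l → l < k → ¬ M l) →
      k - p ≤ R + 2 := by
    intro p hp h0 hn
    rcases Nat.eq_or_lt_of_le hp with rfl | hlt
    · omega
    · have := hrun p (k - 1) (by omega) (by omega) (fun l h1 h2 => hn l h1 (by omega)) h0
        (Or.inl (by omega))
      omega
  intro B
  induction B with
  | zero =>
    intro p hp h0 hc
    have := base p hp h0 fun l h1 h2 hM => by
      have : l ∈ (Finset.Ico p k).filter M := by simp [h1, h2, hM]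
      have := Finset.card_pos.2 ⟨l, this⟩
      omega
    omega
  | succ B ih =>
    intro p hp h0 hc
    by_cases hex : ∃ l, p ≤ l ∧ l < k ∧ M l
    · obtain ⟨h1, h2, h3⟩ := Nat.find_spec hex
      set q := Nat.find hex with hq
      have hmin : ∀ l, p ≤ l → l < q → ¬ M l := fun l hl hlq hM =>
        Nat.find_min hex hlq ⟨hl, by omega, hM⟩
      have hqp : q - p ≤ R + 1 := by
        rcases Nat.eq_or_lt_of_le h1 with h | hlt
        · omega
        · have := hrun p (q - 1) (by omega) (by omega) (fun l a b => hmin l a (by omega)) h0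
            (Or.inr (by rwa [show q - 1 + 1 = q by omega]))
          omega
      have hsub : (Finset.Ico (q + 1) k).filter M ⊆ ((Finset.Ico p k).filter M).erase q := by
        intro l hl
        simp only [Finset.mem_filter, Finset.mem_Ico, Finset.mem_erase] at hl ⊢
        exact ⟨by omega, ⟨by omega, hl.1.2⟩, hl.2⟩
      have hqm : q ∈ (Finset.Ico p k).filter M := by simp [h1, h2, h3]
      have hcard := Finset.card_le_card hsub
      rw [Finset.card_erase_of_mem hqm] at hcard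
      have := ih (q + 1) (by omega) (Or.inr (by simpa using h3)) (by omega)
      have e : (B + 1 + 1) * (R + 2) = (B + 1) * (R + 2) + (R + 2) := by ring
      omega
    · have := base p hp h0 fun l h1 h2 hM => hex ⟨l, h1, h2, hM⟩
      have e : (B + 1 + 1) * (R + 2) = (B + 1) * (R + 2) + (R + 2) := by ring
      omega

namespace St

section aux

variable {L L' : Lv} (s : St L L') {a b : L.X}

theorem ez_Q_fst {ω : L.Om a} {ω' : L.Om b} {g : L.G} (hg : g ∈ Q ω ω') : g • ω = ω :=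
  congrArg Prod.fst (MulAction.mem_stabilizer_iff.1 hg)

theorem ez_Q_snd {ω : L.Om a} {ω' : L.Om b} {g : L.G} (hg : g ∈ Q ω ω') : g • ω' = ω' :=
  congrArg Prod.snd (MulAction.mem_stabilizer_iff.1 hg)

theorem ez_sig_smul {n : ℕ} {ω : L.Om a} {ω' : L.Om b} {v : s.Vt} (h : s.Sig n ω ω' v) {g : L.G}
    (hg : g ∈ Q ω ω') : s.Sig n ω ω' (g • v) := by
  have := Sig.smul s h g
  rwa [ez_Q_fst hg, ez_Q_snd hg] at this

theorem ez_sig_inV {n : ℕ} {ω : L.Om a} {ω' : L.Om b} {v : s.Vt} (h : s.Sig n ω ω' v) :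
    s.InV ω v ∧ s.InV ω' v := by
  obtain ⟨g, g', h1, h2, h3, h4, -⟩ := h
  exact ⟨⟨g, h1, h3⟩, ⟨g', h2, h4⟩⟩

theorem ez_rho_mono {n m : ℕ} {ω : L.Om a} {ω' : L.Om b} {e : s.Ed} (h : s.Rho n ω ω' e)
    (hnm : n ≤ m) : s.Rho m ω ω' e := by
  obtain ⟨g, g', h1, h2, h3, h4, h5⟩ := h
  exact ⟨g, g', h1, h2, h3, h4, h5.trans hnm⟩

theorem ez_join_inc {e : s.Ed} {v w : s.Vt} (h : s.Join e v w) : s.Inc e v ∧ s.Inc e w := by
  rcases h with h | h
  · exact ⟨Or.inl h.1, Or.inr h.2⟩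
  · exact ⟨Or.inr h.2, Or.inl h.1⟩

/-- Counting marked members of a finite set of pairwise inequivalent vertices. -/
theorem ez_sig_card : ∃ F, Bd F ∧ ∀ (n : ℕ) (ω : L.Om a) (ω' : L.Om b) (v : ℕ → s.Vt)
    (A : Finset ℕ), (∀ i ∈ A, s.Sig n ω ω' (v i)) →
    (∀ i ∈ A, ∀ j ∈ A, (∃ g ∈ Q ω ω', g • v i = v j) → i = j) → A.card ≤ F n := by
  obtain ⟨F, hF, h⟩ := s.sig_count (a := a) (b := b)
  refine ⟨F, hF, fun n ω ω' v A h1 h2 => ?_⟩
  refine h n A.card ω ω' (fun i => v (A.orderEmbOfFin rfl i))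
    (fun i => h1 _ (A.orderEmbOfFin_mem rfl i)) fun i j hij => ?_
  exact (A.orderEmbOfFin rfl).injective
    (h2 _ (A.orderEmbOfFin_mem rfl i) _ (A.orderEmbOfFin_mem rfl j) hij)

variable (ha : L.Occ a) (hb : L.Occ b)
include ha hb

theorem ez_pth_inE {ω : L.Om a} {ω' : L.Om b} {v : ℕ → s.Vt} {e : ℕ → s.Ed} {k : ℕ}
    (hp : s.Pth v e k) (hin : ∀ i ≤ k, s.InV ω (v i) ∧ s.InV ω' (v i)) :
    ∀ i < k, s.InE ω (e i) ∧ s.InE ω' (e i) := fun i hi =>
  ⟨s.inE_of_join ha (hp.1 i hi) (hin i hi.le).1 (hin (i + 1) hi).1,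
    s.inE_of_join hb (hp.1 i hi) (hin i hi.le).2 (hin (i + 1) hi).2⟩

theorem ez_btw_in {ω : L.Om a} {ω' : L.Om b} {q q' : s.Vt} (h : s.InV ω q ∧ s.InV ω' q)
    (h' : s.InV ω q' ∧ s.InV ω' q') {x : s.Vt} (hx : ZT.Btw s.T q x q') :
    s.InV ω x ∧ s.InV ω' x :=
  ⟨(s.cvx_om ha ω q h.1 q' h'.1).2 x hx, (s.cvx_om hb ω' q h.2 q' h'.2).2 x hx⟩

/-- A path whose interior vertices have unique edges is monotone. -/
theorem ez_mono_of_uniq {ω : L.Om a} {ω' : L.Om b} {v : ℕ → s.Vt} {e : ℕ → s.Ed} {k : ℕ}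
    (hp : s.Pth v e k) (hin : ∀ i ≤ k, s.InV ω (v i) ∧ s.InV ω' (v i))
    (hu : ∀ i, 0 < i → i < k → ∀ e e', s.InE ω e → s.InE ω' e → s.InE ω e' → s.InE ω' e' →
      ((s.src e = v i ∧ s.src e' = v i) ∨ (s.tgt e = v i ∧ s.tgt e' = v i)) → e = e') :
    (∀ i < k, s.src (e i) = v i ∧ s.tgt (e i) = v (i + 1)) ∨
      ∀ i < k, s.tgt (e i) = v i ∧ s.src (e i) = v (i + 1) := by
  have hE := s.ez_pth_inE ha hb hp hin
  refine Pth.mono_or s hp fun i hi => ?_
  have hne : e i ≠ e (i + 1) := Pth.ne s hp (Nat.lt_succ_self i) hi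
  have i1 := (s.ez_join_inc (hp.1 i (by omega))).2
  have i2 := (s.ez_join_inc (hp.1 (i + 1) hi)).1
  have hu' := hu (i + 1) (Nat.succ_pos i) hi (e i) (e (i + 1)) (hE i (by omega)).1
    (hE i (by omega)).2 (hE (i + 1) hi).1 (hE (i + 1) hi).2
  constructor
  · intro h
    have : s.src (e i) = v (i + 1) := s.inc_unique hne (Or.inl rfl) (Or.inl h.symm) i1 i2
    exact hne (hu' (Or.inl ⟨this, h ▸ this⟩))
  · intro h
    have : s.tgt (e i) = v (i + 1) := s.inc_unique hne (Or.inr rfl) (Or.inr h.symm) i1 i2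
    exact hne (hu' (Or.inr ⟨this, h ▸ this⟩))

end aux

variable {L L' : Lv} (s : St L L') (D : s.AD) (hH : L'.Cl) {a b : L.X} (ha : L.Occ a)
  (hb : L.Occ b)
include D hH ha hb

/-- (ESC) for a path in the direction of the edges. -/
theorem esc_fwd : ∃ δ : ℕ, ∃ F, Bd F ∧ ∀ (n k : ℕ) (ω : L.Om a) (ω' : L.Om b) (v : ℕ → s.Vt)
    (e : ℕ → s.Ed), (∀ i < k, s.src (e i) = v i ∧ s.tgt (e i) = v (i + 1)) →
    (∀ i < k, s.InE ω (e i) ∧ s.InE ω' (e i)) →
    (∀ i, 0 < i → i < k → ¬ s.Sig δ ω ω' (v i)) → s.Sig n ω ω' (v 0) → s.Sig n ω ω' (v k) →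
    (∀ i j, 0 < i → i < k → 0 < j → j < k → (∃ g ∈ Q ω ω', g • v i = v j) → i = j) →
    k ≤ F n := by
  classical
  obtain ⟨δ, N, Fr, hFr, hr⟩ := s.run_short D hH ha hb
  obtain ⟨c, hc⟩ := s.sig_of_rho ha hb
  obtain ⟨F1, hF1, h1⟩ := s.lf_G ha hb hH
  obtain ⟨Fc, hFc, hcard⟩ := s.ez_sig_card (a := a) (b := b)
  refine ⟨δ, fun n => (Fc (N + c) + 1 + 1) * (Fr (F1 n + F1 (N + c)) + 2),
    (Bd.const _).mul ((hFr.comp (hF1.add (Bd.const _))).add (Bd.const _)), ?_⟩
  intro n k ω ω' v e hm hE hns h0 hk hineq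
  have hmark : ∀ i < k, s.Rho N ω ω' (e i) →
      s.Sig (N + c) ω ω' (v i) ∧ s.Sig (N + c) ω ω' (v (i + 1)) := fun i hi h =>
    ⟨hc N ω ω' _ _ h (Or.inl (hm i hi).1), hc N ω ω' _ _ h (Or.inr (hm i hi).2)⟩
  have key := marks_runs (fun i => s.Rho N ω ω' (e i)) k (Fr (F1 n + F1 (N + c))) ?_
    (Fc (N + c) + 1) 0 (Nat.zero_le _) (Or.inl rfl) ?_
  · simpa using key
  · intro i j hij hj hun hl hr'
    have r1 : s.Rho (F1 n + F1 (N + c)) ω ω' (e i) := by
      rcases hl with rfl | hl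
      · exact s.ez_rho_mono (h1 n ω ω' _ _ h0 (Or.inl (hm 0 (by omega)).1) (hE 0 (by omega)).1
          (hE 0 (by omega)).2) (Nat.le_add_right _ _)
      · rcases Nat.eq_zero_or_pos i with rfl | hi
        · exact absurd hl (hun 0 le_rfl (Nat.zero_le _))
        · have := (hmark (i - 1) (by omega) hl).2
          rw [show i - 1 + 1 = i by omega] at this
          exact s.ez_rho_mono (h1 _ ω ω' _ _ this (Or.inl (hm i (by omega)).1)
            (hE i (by omega)).1 (hE i (by omega)).2) (Nat.le_add_left _ _)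
    have r2 : s.Rho (F1 n + F1 (N + c)) ω ω' (e j) := by
      by_cases hjk : j + 1 = k
      · subst hjk
        exact s.ez_rho_mono (h1 n ω ω' _ _ hk (Or.inr (hm j hj).2) (hE j hj).1 (hE j hj).2)
          (Nat.le_add_right _ _)
      · have := (hmark (j + 1) (by omega) (hr'.resolve_left hjk)).1
        exact s.ez_rho_mono (h1 _ ω ω' _ _ this (Or.inr (hm j hj).2) (hE j hj).1 (hE j hj).2)
          (Nat.le_add_left _ _)
    refine hr _ (j - i) ω ω' (fun l => e (i + l)) (fun l hl => ?_)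
      (fun l hl => hE (i + l) (by omega)) (fun l hl => ?_)
      (fun l hl => hun (i + l) (by omega) (by omega)) (by simpa using r1)
      (by rwa [show i + (j - i) = j by omega]) fun l l' hl hl' hg => ?_
    · show s.tgt (e (i + l)) = s.src (e (i + (l + 1)))
      rw [(hm (i + l) (by omega)).2, (hm (i + (l + 1)) (by omega)).1, Nat.add_assoc]
    · rw [(hm (i + l) (by omega)).2]
      exact hns _ (by omega) (by omega)
    · rw [(hm (i + l) (by omega)).2, (hm (i + l') (by omega)).2] at hg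
      have := hineq _ _ (by omega) (by omega) (by omega) (by omega) hg
      omega
  · have hsub : (Finset.Ico 0 k).filter (fun i => s.Rho N ω ω' (e i)) ⊆
        insert 0 ((Finset.Ico 1 k).filter fun i => s.Rho N ω ω' (e i)) := by
      intro l hl
      simp only [Finset.mem_filter, Finset.mem_Ico, Finset.mem_insert] at hl ⊢
      rcases Nat.eq_zero_or_pos l with h | h
      · exact Or.inl h
      · exact Or.inr ⟨⟨h, hl.1.2⟩, hl.2⟩
    refine (Finset.card_le_card hsub).trans ((Finset.card_insert_le _ _).trans ?_)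
    refine Nat.add_le_add_right (hcard (N + c) ω ω' v _ (fun i hi => ?_) fun i hi j hj hg => ?_) 1
    · simp only [Finset.mem_filter, Finset.mem_Ico] at hi
      exact (hmark i hi.1.2 hi.2).1
    · simp only [Finset.mem_filter, Finset.mem_Ico] at hi hj
      exact hineq i j hi.1.1 hi.1.2 hj.1.1 hj.1.2 hg

/-- (ESC) -/
theorem esc : ∃ δ : ℕ, ∃ F, Bd F ∧ ∀ (n k : ℕ) (ω : L.Om a) (ω' : L.Om b) (v : ℕ → s.Vt)
    (e : ℕ → s.Ed), s.Pth v e k → (∀ i ≤ k, s.InV ω (v i) ∧ s.InV ω' (v i)) →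
    (∀ i, 0 < i → i < k → ¬ s.Sig δ ω ω' (v i)) → s.Sig n ω ω' (v 0) → s.Sig n ω ω' (v k) →
    (∀ i j, 0 < i → i < k → 0 < j → j < k → (∃ g ∈ Q ω ω', g • v i = v j) → i = j) →
    k ≤ F n := by
  obtain ⟨δ₁, h1⟩ := s.exists_thr ha hb D
  obtain ⟨δ₂, F, hF, h2⟩ := s.esc_fwd D hH ha hb
  refine ⟨δ₁ + δ₂, F, hF, fun n k ω ω' v e hp hin hns h0 hk hineq => ?_⟩
  have hE := s.ez_pth_inE ha hb hp hin
  have hns2 : ∀ i, 0 < i → i < k → ¬ s.Sig δ₂ ω ω' (v i) := fun i h h' hs =>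
    hns i h h' (Sig.mono s hs (Nat.le_add_left _ _))
  rcases s.ez_mono_of_uniq ha hb hp hin (fun i h h' => (h1 ω ω' (v i) fun hs =>
    hns i h h' (Sig.mono s hs (Nat.le_add_right _ _))).1) with hm | hm
  · exact h2 n k ω ω' v e hm hE hns2 h0 hk hineq
  · refine h2 n k ω ω' (fun l => v (k - l)) (fun l => e (k - 1 - l)) (fun i hi => ?_)
      (fun i hi => hE _ (by omega)) (fun i h h' => hns2 _ (by omega) (by omega))
      (by simpa using hk) (by simpa using h0) fun i j k1 k2 k3 k4 hg => ?_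
    · have := hm (k - 1 - i) (by omega)
      rw [show k - 1 - i + 1 = k - i by omega] at this
      exact ⟨this.2, by rw [this.1, show k - (i + 1) = k - 1 - i by omega]⟩
    · have := hineq _ _ (by omega) (by omega) (by omega) (by omega) hg
      omega

/-- A gap between two marked vertices is short. -/
theorem gap_short : ∃ δ : ℕ, ∃ F, Bd F ∧ ∀ (n k : ℕ) (ω : L.Om a) (ω' : L.Om b) (v : ℕ → s.Vt)
    (e : ℕ → s.Ed), δ ≤ n → s.Pth v e k → (∀ i ≤ k, s.InV ω (v i) ∧ s.InV ω' (v i)) →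
    (∀ i, 0 < i → i < k → ¬ s.Sig n ω ω' (v i)) → s.Sig n ω ω' (v 0) → s.Sig n ω ω' (v k) →
    k ≤ F n := by
  obtain ⟨δ₁, h1⟩ := s.exists_thr ha hb D
  obtain ⟨δ₂, F, hF, h2⟩ := s.esc D hH ha hb
  refine ⟨δ₁ + δ₂, F, hF, fun n k ω ω' v e hδ hp hin hns h0 hk => ?_⟩
  have hE := s.ez_pth_inE ha hb hp hin
  have hu := fun i (h : 0 < i) (h' : i < k) => (h1 ω ω' (v i) fun hs =>
    hns i h h' (Sig.mono s hs (by omega))).1
  have hm := s.ez_mono_of_uniq ha hb hp hin hu
  have key : ∀ i j, 0 < i → i < j → j < k → ∀ g ∈ Q ω ω', g • v i ≠ v j := by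
    intro i j hi hij hj g hg hgv
    have step : ∀ t, j + t ≤ k → g • v (i + t) = v (j + t) := by
      intro t
      induction t with
      | zero => intro _; exact hgv
      | succ t ih =>
        intro ht
        have ih' := ih (by omega)
        have e1 : s.InE ω (g • e (i + t)) := by
          have := InE.smul s (hE (i + t) (by omega)).1 g
          rwa [ez_Q_fst hg] at this
        have e2 : s.InE ω' (g • e (i + t)) := by
          have := InE.smul s (hE (i + t) (by omega)).2 g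
          rwa [ez_Q_snd hg] at this
        have hu' := hu (j + t) (by omega) (by omega) _ _ e1 e2 (hE (j + t) (by omega)).1
          (hE (j + t) (by omega)).2
        rcases hm with hm | hm
        · have m1 := hm (i + t) (by omega)
          have m2 := hm (j + t) (by omega)
          have := hu' (Or.inl ⟨by rw [s.smul_src, m1.1, ih'], m2.1⟩)
          rw [← Nat.add_assoc, ← Nat.add_assoc, ← m1.2, ← m2.2, ← this, s.smul_tgt]
        · have m1 := hm (i + t) (by omega)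
          have m2 := hm (j + t) (by omega)
          have := hu' (Or.inr ⟨by rw [s.smul_tgt, m1.1, ih'], m2.1⟩)
          rw [← Nat.add_assoc, ← Nat.add_assoc, ← m1.2, ← m2.2, ← this, s.smul_src]
    have h3 := step (k - j) (by omega)
    rw [show j + (k - j) = k by omega] at h3
    have h4 := s.ez_sig_smul hk (inv_mem hg)
    rw [← h3, inv_smul_smul] at h4
    exact hns _ (by omega) (by omega) h4
  refine h2 n k ω ω' v e hp hin (fun i h h' hs => hns i h h' (Sig.mono s hs (by omega))) h0 hk ?_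
  rintro i j hi hi' hj hj' ⟨g, hg, hgv⟩
  rcases lt_trichotomy i j with h | h | h
  · exact absurd hgv (key i j hi h hj' g hg)
  · exact h
  · exact absurd (by rw [← hgv, inv_smul_smul]) (key j i hj h hi' g⁻¹ (inv_mem hg))

/-- (DIST) -/
theorem dist_G : ∃ F, Bd F ∧ ∀ (n : ℕ) (ω : L.Om a) (ω' : L.Om b) (q q' : s.Vt),
    s.Sig n ω ω' q → s.Sig n ω ω' q' → ∃ ι ∈ Q ω ω', s.T.dist q (ι • q') ≤ F n := by
  classical
  obtain ⟨δ, Fg, hFg, hg⟩ := s.gap_short D hH ha hb
  obtain ⟨Fc, hFc, hcard⟩ := s.ez_sig_card (a := a) (b := b)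
  refine ⟨fun n => (Fc (n + δ) + 1) * (Fg (n + δ) + 2),
    ((hFc.comp (Bd.id.add (Bd.const δ))).add (Bd.const 1)).mul
      ((hFg.comp (Bd.id.add (Bd.const δ))).add (Bd.const 2)), fun n ω ω' q q' hq hq' => ?_⟩
  have hex : ∃ k, ∃ ι ∈ Q ω ω', s.T.dist q (ι • q') = k := ⟨_, 1, one_mem _, rfl⟩
  obtain ⟨ι, hι, hk⟩ := Nat.find_spec hex
  have hmin : ∀ g ∈ Q ω ω', Nat.find hex ≤ s.T.dist q (g • q') := fun g hg =>
    Nat.find_min' hex ⟨g, hg, rfl⟩
  refine ⟨ι, hι, ?_⟩
  rw [← hk] at hmin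
  obtain ⟨v, e, h0, hl, hp, hbt⟩ := s.exists_pth q (ι • q')
  set k := s.T.dist q (ι • q') with hkdef
  have hq'' := s.ez_sig_smul hq' hι
  have hin : ∀ i ≤ k, s.InV ω (v i) ∧ s.InV ω' (v i) := fun i hi =>
    s.ez_btw_in ha hb (s.ez_sig_inV hq) (s.ez_sig_inV hq'') (hbt i hi)
  have key : ∀ i j, i < j → j ≤ k → ∀ g ∈ Q ω ω', g • v i ≠ v j := by
    intro i j hij hj g hg hgv
    have h1 := hmin (g⁻¹ * ι) (mul_mem (inv_mem hg) hι)
    have h2 := ZT.dist_tri (s.T_reach q (v i)) (s.T_reach (v i) ((g⁻¹ * ι) • q'))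
    have h3 : s.T.dist q (v i) = i := by
      have := Pth.dist s hp (Nat.zero_le i) (by omega : i ≤ k)
      rwa [h0, Nat.sub_zero] at this
    have h4 : s.T.dist (v i) ((g⁻¹ * ι) • q') = k - j := by
      rw [← s.T_acts.dist g, hgv, mul_smul, smul_inv_smul, ← hl]
      exact Pth.dist s hp hj le_rfl
    omega
  have m0 : s.Sig (n + δ) ω ω' (v 0) := h0 ▸ Sig.mono s hq (Nat.le_add_right _ _)
  have mk : s.Sig (n + δ) ω ω' (v k) := hl ▸ Sig.mono s hq'' (Nat.le_add_right _ _)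
  have res := marks_runs (fun i => s.Sig (n + δ) ω ω' (v i)) (k + 1) (Fg (n + δ)) ?_
    (Fc (n + δ)) 0 (Nat.zero_le _) (Or.inl rfl) ?_
  · show k ≤ (Fc (n + δ) + 1) * (Fg (n + δ) + 2)
    omega
  · intro i j hij hj hun hl' hr'
    have hi : 0 < i := Nat.pos_of_ne_zero fun h => hun 0 (by omega) (Nat.zero_le _) m0
    have hjk : j < k := lt_of_le_of_ne (by omega) fun h => hun k (by omega) (by omega) mk
    have := hg (n + δ) (j - i + 2) ω ω' (fun l => v (i - 1 + l)) (fun l => e (i - 1 + l))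
      (Nat.le_add_left _ _) (Pth.sub s hp (i - 1) _ (by omega)) (fun l hl => hin _ (by omega))
      (fun l h h' => hun _ (by omega) (by omega)) (by simpa using hl'.resolve_left (by omega))
      (by rw [show i - 1 + (j - i + 2) = j + 1 by omega]; exact hr'.resolve_left (by omega))
    omega
  · refine hcard (n + δ) ω ω' v _ (fun i hi => (Finset.mem_filter.1 hi).2) ?_
    rintro i hi j hj ⟨g, hg, hgv⟩
    simp only [Finset.mem_filter, Finset.mem_Ico] at hi hj
    rcases lt_trichotomy i j with h | h | h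
    · exact absurd hgv (key i j h (by omega) g hg)
    · exact h
    · exact absurd (by rw [← hgv, inv_smul_smul]) (key j i h (by omega) g⁻¹ (inv_mem hg))

/-- (GAP) the stabiliser of the pair is generated by elements that move `q` a small distance. -/
theorem gap_G : ∃ F, Bd F ∧ ∀ (n : ℕ) (ω : L.Om a) (ω' : L.Om b) (q : s.Vt), s.Sig n ω ω' q →
    GenBy (fun g : L.G => s.T.dist q (g • q)) (F n) (Q ω ω') := by
  classical
  obtain ⟨δ, Fg, hFg, hg⟩ := s.gap_short D hH ha hb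
  obtain ⟨Fd, hFd, hd⟩ := s.dist_G D hH ha hb
  refine ⟨fun n => Fd (n + δ) + Fg (n + δ) + Fd (n + δ),
    ((hFd.comp (Bd.id.add (Bd.const δ))).add (hFg.comp (Bd.id.add (Bd.const δ)))).add
      (hFd.comp (Bd.id.add (Bd.const δ))), fun n ω ω' q hq ι hι => ?_⟩
  obtain ⟨v, e, h0, hl, hp, hbt⟩ := s.exists_pth q (ι • q)
  set k := s.T.dist q (ι • q) with hkdef
  have hq' := s.ez_sig_smul hq hι
  have hin : ∀ i ≤ k, s.InV ω (v i) ∧ s.InV ω' (v i) := fun i hi =>
    s.ez_btw_in ha hb (s.ez_sig_inV hq) (s.ez_sig_inV hq') (hbt i hi)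
  have mq : s.Sig (n + δ) ω ω' q := Sig.mono s hq (Nat.le_add_right _ _)
  have m0 : s.Sig (n + δ) ω ω' (v 0) := h0 ▸ mq
  have mk : s.Sig (n + δ) ω ω' (v k) := hl ▸ Sig.mono s hq' (Nat.le_add_right _ _)
  have key : ∀ j, j ≤ k → s.Sig (n + δ) ω ω' (v j) → ∀ g ∈ Q ω ω',
      s.T.dist q (g • v j) ≤ Fd (n + δ) → g ∈ Subgroup.closure {g : L.G | g ∈ Q ω ω' ∧
        s.T.dist q (g • q) ≤ Fd (n + δ) + Fg (n + δ) + Fd (n + δ)} := by
    intro j
    induction j using Nat.strong_induction_on with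
    | _ j ih =>
      intro hj hm g hgQ hgd
      rcases Nat.eq_zero_or_pos j with rfl | hpos
      · rw [h0] at hgd
        exact Subgroup.subset_closure ⟨hgQ, by omega⟩
      · obtain ⟨i, hij, hi, hmax⟩ : ∃ i, i < j ∧ s.Sig (n + δ) ω ω' (v i) ∧
            ∀ l, i < l → l < j → ¬ s.Sig (n + δ) ω ω' (v l) := by
          refine ⟨Nat.findGreatest (fun i => s.Sig (n + δ) ω ω' (v i)) (j - 1), ?_,
            Nat.findGreatest_spec (P := fun i => s.Sig (n + δ) ω ω' (v i)) (Nat.zero_le _) m0,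
            fun l h h' => Nat.findGreatest_is_greatest h (by omega)⟩
          have := Nat.findGreatest_le (P := fun i => s.Sig (n + δ) ω ω' (v i)) (j - 1)
          omega
        have hgap := hg (n + δ) (j - i) ω ω' (fun l => v (i + l)) (fun l => e (i + l))
          (Nat.le_add_left _ _) (Pth.sub s hp i _ (by omega)) (fun l hl => hin _ (by omega))
          (fun l h h' => hmax _ (by omega) (by omega)) (by simpa using hi)
          (by rwa [show i + (j - i) = j by omega])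
        obtain ⟨g', hg'Q, hg'd⟩ := hd (n + δ) ω ω' q (v i) mq hi
        have h1 := ih i hij (by omega) hi g' hg'Q hg'd
        have h2 : g' * g⁻¹ ∈ Subgroup.closure {g : L.G | g ∈ Q ω ω' ∧
            s.T.dist q (g • q) ≤ Fd (n + δ) + Fg (n + δ) + Fd (n + δ)} := by
          refine Subgroup.subset_closure ⟨mul_mem hg'Q (inv_mem hgQ), ?_⟩
          have t1 := ZT.dist_tri (s.T_reach q (g' • v i)) (s.T_reach (g' • v i) ((g' * g⁻¹) • q))
          have t2 := ZT.dist_tri (s.T_reach (g' • v i) (g' • v j))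
            (s.T_reach (g' • v j) ((g' * g⁻¹) • q))
          have t3 : s.T.dist (g' • v i) (g' • v j) = j - i := by
            rw [s.T_acts.dist]; exact Pth.dist s hp hij.le hj
          have t4 : s.T.dist (g' • v j) ((g' * g⁻¹) • q) = s.T.dist q (g • v j) := by
            rw [mul_smul, s.T_acts.dist, ← s.T_acts.dist g, smul_inv_smul, SimpleGraph.dist_comm]
          omega
        have := mul_mem (inv_mem h2) h1
        simpa using this
  have := key k le_rfl mk ι⁻¹ (inv_mem hι) (by rw [hl, inv_smul_smul, SimpleGraph.dist_self]; omega)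
  simpa using inv_mem this

end St
end CPOR
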