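import Pool.Agent.P.MP_2cb329_al.LN1

/-! Good paths are periodic; good lines. -/

set_option autoImplicit false

namespace CPOR

namespace LNP

/-- A functional relation on a finite set of data has bounded values. -/
theorem fin_bound {D G : Type} {S : Set D} (hS : S.Finite) (R : D → G → Prop)
    (hR : ∀ d v v', R d v → R d v' → v = v') (ν : G → ℕ) :
    ∃ B, ∀ d ∈ S, ∀ v, R d v → ν v ≤ B := by
  have hV : (⋃ d ∈ S, {v | R d v}).Finite :=
    hS.biUnion fun d _ => Set.Subsingleton.finite fun v hv v' hv' => hR d v v' hv hv'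
  obtain ⟨B, hB⟩ := (hV.image ν).bddAbove
  exact ⟨B, fun d hd v hv => hB ⟨v, Set.mem_biUnion hd hv, rfl⟩⟩

/-- A bound on the size of pairwise inequivalent families gives finitely many representatives. -/
theorem reps {Z : Type} (P : Z → Prop) (ρ : Z → Z → Prop) (hs : ∀ a b, ρ a b → ρ b a) (N : ℕ)
    (h : ∀ (m : ℕ) (w : Fin m → Z), (∀ i, P (w i)) → (∀ i j, ρ (w i) (w j) → i = j) → m ≤ N) :
    ∃ (m : ℕ) (w : Fin m → Z), (∀ i, P (w i)) ∧ ∀ y, P y → ∃ i, ρ (w i) y := by
  by_contra hcon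
  push Not at hcon
  have key : ∀ m : ℕ, ∃ w : Fin m → Z, (∀ i, P (w i)) ∧ ∀ i j, ρ (w i) (w j) → i = j := by
    intro m
    induction m with
    | zero => exact ⟨Fin.elim0, fun i => i.elim0, fun i => i.elim0⟩
    | succ m ih =>
      obtain ⟨w, hw, hw'⟩ := ih
      obtain ⟨y, hy, hy'⟩ := hcon m w hw
      refine ⟨Fin.cons y w, fun i => ?_, fun i j => ?_⟩
      · refine Fin.cases ?_ (fun i => ?_) i
        · simpa using hy
        · simpa using hw i
      · refine Fin.cases ?_ (fun i => ?_) i <;> refine Fin.cases ?_ (fun j => ?_) j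
        · intro _; rfl
        · intro H
          simp only [Fin.cons_zero, Fin.cons_succ] at H
          exact absurd (hs _ _ H) (hy' j)
        · intro H
          simp only [Fin.cons_zero, Fin.cons_succ] at H
          exact absurd H (hy' i)
        · intro H
          simp only [Fin.cons_succ] at H
          rw [hw' i j H]
  obtain ⟨w, hw, hw'⟩ := key (N + 1)
  have := h _ w hw hw'
  omega

end LNP

namespace St

variable {L L' : Lv} (s : St L L')

theorem ln_mono_sub {e : ℕ → s.Ed} {K : ℕ} (h : s.Mono e K) (j m : ℕ) (hm : j + m ≤ K) :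
    s.Mono (fun l => e (j + l)) m := fun i hi => by
  have := h (j + i) (by omega)
  simpa [Nat.add_assoc] using this

theorem ln_mono_smul {e : ℕ → s.Ed} {K : ℕ} (h : s.Mono e K) (d : L.G) :
    s.Mono (fun l => d • e l) K := fun i hi => by
  simp only [s.smul_src, s.smul_tgt, h i hi]

theorem ln2_EI_smul {e : ℕ → s.Ed} {K : ℕ} (h : s.EI e K ≠ ⊥) (d : L.G) :
    s.EI (fun l => d • e l) K ≠ ⊥ := by
  intro H
  apply h
  rw [Subgroup.eq_bot_iff_forall] at H ⊢
  intro g hg
  have h1 : d * g * d⁻¹ ∈ s.EI (fun l => d • e l) K := fun i hi => by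
    have := hg i hi
    simp only [mul_smul, inv_smul_smul, this]
  have h2 := H _ h1
  have : g = d⁻¹ * (d * g * d⁻¹) * d := by group
  rw [this, h2]; group

theorem ln_len_chain (p : ℕ → L.G) (W δ : ℕ)
    (h : ∀ i, i + 1 < W → len L.π ((p i)⁻¹ * p (i + 1)) ≤ δ) :
    ∀ i < W, len L.π ((p 0)⁻¹ * p i) ≤ i * δ := by
  intro i
  induction i with
  | zero => intro _; simp [len_one]
  | succ i ih =>
    intro hi
    have e : (p 0)⁻¹ * p (i + 1) = (p 0)⁻¹ * p i * ((p i)⁻¹ * p (i + 1)) := by group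
    rw [e]
    have h1 := len_mul L.surj ((p 0)⁻¹ * p i) ((p i)⁻¹ * p (i + 1))
    have h2 := ih (by omega)
    have h3 := h i hi
    rw [Nat.succ_mul]
    omega

theorem ln_monoZ_win {e : ℤ → s.Ed} (h : s.MonoZ e) (i : ℤ) (K : ℕ) :
    s.Mono (fun l : ℕ => e (i + l)) K := fun l _ => by
  have := h (i + l)
  simpa [add_assoc] using this

/-- An element that preserves a monotone line translates it. -/
theorem ln_trans {e : ℤ → s.Ed} (h : s.MonoZ e) {g : L.G} (hg : ∀ i, ∃ j, g • e i = e j) :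
    ∃ c : ℤ, ∀ i, g • e i = e (i + c) := by
  choose j hj using hg
  have hinj := (ZT.Line.inj s.T_acyclic (MonoZ.line s h))
  have step : ∀ i, j (i + 1) = j i + 1 := by
    intro i
    apply hinj
    show s.src (e (j (i + 1))) = s.src (e (j i + 1))
    rw [← h (j i), ← hj, ← hj, s.smul_src, s.smul_tgt, h i]
  have key : ∀ i, j i = i + j 0 := by
    intro i
    induction i using Int.induction_on with
    | zero => simp
    | succ i ih => rw [step, ih]; ring
    | pred i ih =>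
      have := step (-(i : ℤ) - 1)
      rw [show -(i : ℤ) - 1 + 1 = -i by ring, ih] at this
      omega
  exact ⟨j 0, fun i => by rw [hj, key]⟩

theorem ln_trans_zpow {e : ℤ → s.Ed} {g : L.G} {c : ℤ} (hg : ∀ i, g • e i = e (i + c)) (n : ℤ) :
    ∀ i, g ^ n • e i = e (i + n * c) := by
  induction n using Int.induction_on with
  | zero => simp
  | succ n ih =>
    intro i
    rw [zpow_add_one, mul_smul, hg, ih]
    congr 1; ring
  | pred n ih =>
    intro i
    rw [zpow_sub_one, mul_smul]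
    have : g⁻¹ • e i = e (i - c) := by
      rw [inv_smul_eq_iff, hg]; congr 1; ring
    rw [this, ih]
    congr 1; ring

variable {a : L.X} (ha : L.Occ a)
include ha

/-- (BP) two bounded threads along a long window are at bounded distance. -/
theorem bp (δ : ℕ) : ∃ W δ', 1 ≤ W ∧ ∀ p p' : ℕ → L.G, s.Mono (fun i => s.ed (p i)) W →
    (∀ i < W, s.ed (p i) = s.ed (p' i) ∧ L.om a (p i) = L.om a (p 0) ∧
      L.om a (p' i) = L.om a (p 0)) →
    (∀ i, i + 1 < W → len L.π ((p i)⁻¹ * p (i + 1)) ≤ δ ∧ len L.π ((p' i)⁻¹ * p' (i + 1)) ≤ δ) →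
    len L.π ((p 0)⁻¹ * p' 0) ≤ δ' := by
  obtain ⟨W, hW, hacy⟩ := s.acy_mono ha
  obtain ⟨B, hB, -⟩ := len_ball L.surj (W * δ)
  have hfin1 : (Set.pi Set.univ fun _ : Fin W => (B : Set L.G)).Finite :=
    Set.Finite.pi fun _ => B.finite_toSet
  let R : (Fin W → L.G) × (Fin W → L.G) → L.G → Prop := fun d v =>
    ∃ p p' : ℕ → L.G, s.Mono (fun i => s.ed (p i)) W ∧
      (∀ i < W, s.ed (p i) = s.ed (p' i) ∧ L.om a (p i) = L.om a (p 0) ∧
        L.om a (p' i) = L.om a (p 0)) ∧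
      (∀ i : Fin W, d.1 i = (p 0)⁻¹ * p i ∧ d.2 i = (p' 0)⁻¹ * p' i) ∧ v = (p 0)⁻¹ * p' 0
  have hR : ∀ d v v', R d v → R d v' → v = v' := by
    rintro d _ _ ⟨p, p', h1, h2, h3, rfl⟩ ⟨q, q', -, k2, k3, rfl⟩
    have e1 : ∀ i < W, p i = p 0 * (q 0)⁻¹ * q i := fun i hi => by
      have := ((h3 ⟨i, hi⟩).1.symm.trans (k3 ⟨i, hi⟩).1)
      simp only at this
      rw [mul_assoc, ← this]; group
    have e2 : ∀ i < W, p' i = p' 0 * (q' 0)⁻¹ * q' i := fun i hi => by
      have := ((h3 ⟨i, hi⟩).2.symm.trans (k3 ⟨i, hi⟩).2)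
      simp only at this
      rw [mul_assoc, ← this]; group
    have key := hacy (L.om a (p 0)) (fun i => s.ed (p i)) h1
      (fun i hi => ⟨p i, (h2 i hi).2.1, rfl⟩) (p' 0 * (q' 0)⁻¹ * (p 0 * (q 0)⁻¹)⁻¹)
      (fun i hi => by
        show _ • s.ed (p i) = s.ed (p i)
        rw [mul_smul]
        have a1 : (p 0 * (q 0)⁻¹)⁻¹ • s.ed (p i) = s.ed (q' i) := by
          rw [inv_smul_eq_iff, ← (k2 i hi).1, s.smul_ed, ← e1 i hi]
        rw [a1, s.smul_ed, ← e2 i hi, (h2 i hi).1])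
      (by
        rw [mul_smul]
        have a1 : (p 0 * (q 0)⁻¹)⁻¹ • L.om a (p 0) = L.om a (q' 0) := by
          rw [inv_smul_eq_iff, (k2 0 hW).2.2]
          show _ = L.om a (p 0 * (q 0)⁻¹ * q 0)
          simp
        rw [a1]
        show L.om a (p' 0 * (q' 0)⁻¹ * q' 0) = _
        simpa using (h2 0 hW).2.2)
    have : p' 0 * (q' 0)⁻¹ = p 0 * (q 0)⁻¹ := mul_inv_eq_one.1 key
    calc (p 0)⁻¹ * p' 0 = (p 0)⁻¹ * (p' 0 * (q' 0)⁻¹) * q' 0 := by group
      _ = (q 0)⁻¹ * q' 0 := by rw [this]; group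
  obtain ⟨δ', hδ'⟩ := LNP.fin_bound (hfin1.prod hfin1) R hR (len L.π)
  refine ⟨W, δ', hW, fun p p' h1 h2 h3 => ?_⟩
  refine hδ' (fun i => (p 0)⁻¹ * p i, fun i => (p' 0)⁻¹ * p' i) ⟨fun i _ => ?_, fun i _ => ?_⟩ _
    ⟨p, p', h1, h2, fun i => ⟨rfl, rfl⟩, rfl⟩
  · exact (hB _).2 ((ln_len_chain p W δ (fun i hi => (h3 i hi).1) i i.2).trans
      (Nat.mul_le_mul_right _ i.2.le))
  · exact (hB _).2 ((ln_len_chain p' W δ (fun i hi => (h3 i hi).2) i i.2).trans
      (Nat.mul_le_mul_right _ i.2.le))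

/-- (PERI) -/
theorem peri (δ : ℕ) : ∃ K M per δ' : ℕ, 1 ≤ per ∧ ∀ (r : ℕ) (p : ℕ → L.G),
    2 * M + per ≤ r → s.Mono (fun i => s.ed (p i)) (r + 1) →
    (∀ i ≤ r, L.om a (p i) = L.om a (p 0)) → (∀ i < r, len L.π ((p i)⁻¹ * p (i + 1)) ≤ δ) →
    (∀ i, i + K ≤ r + 1 → s.EI (fun l => s.ed (p (i + l))) K ≠ ⊥) →
    ∃ (d : L.G) (x : ℤ → L.G), d • L.om a (p 0) = L.om a (p 0) ∧ (∀ i, x (i + per) = d * x i) ∧
      (∀ i, len L.π ((x i)⁻¹ * x (i + 1)) ≤ δ') ∧
      ∀ i : ℕ, i + 2 * M ≤ r → s.ed (x i) = s.ed (p (M + i)) ∧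
        len L.π ((p (M + i))⁻¹ * x i) ≤ δ' := by
  obtain ⟨K₀, M₀, per, -, hper, -, hdet, hty⟩ := s.lines ha
  obtain ⟨W, δ₁, hW, hbp⟩ := s.bp ha δ
  obtain ⟨W', δ₂, -, hbp'⟩ := s.bp ha (δ + δ₁)
  refine ⟨K₀ + 1 + 2 * M₀, M₀ + K₀ + W + W', per, δ + δ₁ + δ₂, hper, ?_⟩
  intro r p hr hmono hom hlen hgood
  set M := M₀ + K₀ + W + W' with hM
  set ω := L.om a (p 0) with hω
  have hin : ∀ i ≤ r, s.InE ω (s.ed (p i)) := fun i hi => ⟨p i, hom i hi, rfl⟩
  obtain ⟨d, hd, hd0⟩ := hty ω (fun i => s.ed (p i))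
    (fun i hi => hmono i (by omega)) (fun i hi => hin i (by omega))
    (fun i hi => hgood i (by omega))
  -- `d` translates the whole middle part
  have htr : ∀ m, M₀ ≤ m → m + per + M₀ ≤ r → d • s.ed (p m) = s.ed (p (m + per)) := by
    intro m
    induction m using Nat.strong_induction_on with
    | _ m ih =>
      intro h1 h2
      by_cases hm : m < M₀ + K₀
      · have := hd0 (m - M₀) (by omega)
        rwa [show M₀ + (m - M₀) = m by omega, show M₀ + per + (m - M₀) = m + per by omega] at this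
      · obtain ⟨j, rfl⟩ : ∃ j, m = j + (M₀ + K₀) := ⟨m - (M₀ + K₀), by omega⟩
        have := (hdet ω (fun l => d • s.ed (p (j + l))) (fun l => s.ed (p (j + per + l)))
          (s.ln_mono_smul (s.ln_mono_sub hmono j _ (by omega)) d)
          (s.ln_mono_sub hmono (j + per) _ (by omega))
          (fun i hi => ⟨by
            have := InE.smul s (hin (j + i) (by omega)) d
            rwa [hd] at this, hin _ (by omega)⟩)
          (s.ln2_EI_smul (hgood j (by omega)) d) (hgood (j + per) (by omega))).1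
          (fun i hi => by
            have := ih (j + (M₀ + i)) (by omega) (by omega) (by omega)
            rw [this]; congr 2; omega)
        rw [this]; congr 2; omega
  have hom' : ∀ (n : ℤ) (g : L.G), L.om a g = ω → L.om a (d ^ n * g) = ω := fun n g hg => by
    have h1 : d ^ n ∈ MulAction.stabilizer L.G ω := Subgroup.zpow_mem _ hd n
    have h2 : d ^ n • ω = ω := h1
    rw [← h2, ← hg]; rfl
  -- the closing connector
  have hcl : len L.π ((p (M + per))⁻¹ * (d * p M)) ≤ δ₁ := by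
    have := hbp (fun l => p (M + per + l)) (fun l => d * p (M + l))
      (s.ln_mono_sub hmono (M + per) _ (by omega))
      (fun i hi => ⟨by
        rw [← s.smul_ed, htr _ (by omega) (by omega)]; congr 2; omega,
        by rw [hom _ (by omega), hom _ (by omega)],
        by
          have := hom' 1 _ (hom (M + i) (by omega))
          rw [zpow_one] at this
          rw [this, hom _ (by omega)]⟩)
      (fun i hi => ⟨hlen _ (by omega), by
        have e : (d * p (M + i))⁻¹ * (d * p (M + (i + 1))) = (p (M + i))⁻¹ * p (M + i + 1) := by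
          rw [← Nat.add_assoc]; group
        rw [e]; exact hlen _ (by omega)⟩)
    simpa using this
  have hpz : (0 : ℤ) < per := by exact_mod_cast hper
  let x : ℤ → L.G := fun i => d ^ (i / per) * p (M + (i % per).toNat)
  have key0 : ∀ (q : ℤ) (t : ℕ), t < per → x (q * per + t) = d ^ q * p (M + t) := by
    intro q t ht
    have ht' : (t : ℤ) < per := by exact_mod_cast ht
    have e1 : (q * per + t) / (per : ℤ) = q := by
      rw [add_comm, Int.add_mul_ediv_right _ _ hpz.ne',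
        Int.ediv_eq_zero_of_lt (Int.natCast_nonneg t) ht', zero_add]
    have e2 : (q * per + t) % (per : ℤ) = t := by
      rw [add_comm, Int.add_mul_emod_self_right, Int.emod_eq_of_lt (Int.natCast_nonneg t) ht']
    show d ^ ((q * per + t) / (per : ℤ)) * p (M + ((q * per + t) % (per : ℤ)).toNat) = _
    rw [e1, e2, Int.toNat_natCast]
  have hdec : ∀ i : ℤ, ∃ (q : ℤ) (t : ℕ), t < per ∧ i = q * per + t := by
    intro i
    have h1 := Int.emod_nonneg i hpz.ne'
    have h2 := Int.emod_lt_of_pos i hpz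
    refine ⟨i / per, (i % per).toNat, by omega, ?_⟩
    rw [Int.toNat_of_nonneg h1]
    have := Int.emod_add_ediv_mul i per
    linarith
  have hxp : ∀ i, x (i + per) = d * x i := by
    intro i
    obtain ⟨q, t, ht, rfl⟩ := hdec i
    rw [show q * per + t + per = (q + 1) * per + t by ring, key0 q t ht, key0 (q + 1) t ht,
      add_comm q 1, zpow_one_add, mul_assoc]
  have hxc : ∀ i, len L.π ((x i)⁻¹ * x (i + 1)) ≤ δ + δ₁ := by
    intro i
    obtain ⟨q, t, ht, rfl⟩ := hdec i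
    by_cases h : t + 1 < per
    · rw [show q * per + t + 1 = q * per + ((t + 1 : ℕ) : ℤ) by push_cast; ring, key0 q t ht,
        key0 q (t + 1) h]
      have e : (d ^ q * p (M + t))⁻¹ * (d ^ q * p (M + (t + 1))) =
          (p (M + t))⁻¹ * p (M + t + 1) := by rw [← Nat.add_assoc]; group
      rw [e]
      exact (hlen _ (by omega)).trans (Nat.le_add_right _ _)
    · have hp : per = t + 1 := by omega
      have e1 : q * per + t + 1 = (q + 1) * per + ((0 : ℕ) : ℤ) := by
        rw [hp]; push_cast; ring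
      rw [e1, key0 q t ht, key0 (q + 1) 0 hper]
      have e : (d ^ q * p (M + t))⁻¹ * (d ^ (q + 1) * p (M + 0)) =
          (p (M + t))⁻¹ * p (M + t + 1) * ((p (M + per))⁻¹ * (d * p M)) := by
        rw [hp, ← Nat.add_assoc, zpow_add_one, Nat.add_zero]; group
      rw [e]
      exact (len_mul L.surj _ _).trans (Nat.add_le_add (hlen _ (by omega)) hcl)
  have hxo : ∀ i, L.om a (x i) = ω := by
    intro i
    obtain ⟨q, t, ht, rfl⟩ := hdec i
    rw [key0 q t ht]
    exact hom' q _ (hom _ (by omega))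
  have hxe : ∀ i : ℕ, M + i + M₀ ≤ r → s.ed (x i) = s.ed (p (M + i)) := by
    intro i
    induction i using Nat.strong_induction_on with
    | _ i ih =>
      intro hi
      by_cases h : i < per
      · have := key0 0 i h
        simp only [zero_mul, zero_add, zpow_zero, one_mul] at this
        rw [this]
      · obtain ⟨j, rfl⟩ : ∃ j, i = j + per := ⟨i - per, by omega⟩
        rw [Nat.cast_add, hxp, ← s.smul_ed, ih j (by omega) (by omega),
          htr _ (by omega) (by omega), Nat.add_assoc]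
  refine ⟨d, x, hd, hxp, fun i => (hxc i).trans (Nat.le_add_right _ _), fun i hi =>
    ⟨hxe i (by omega), le_trans ?_ (Nat.le_add_left _ _)⟩⟩
  have := hbp' (fun l => p (M + i + l)) (fun l => x ((i + l : ℕ) : ℤ))
    (s.ln_mono_sub hmono (M + i) _ (by omega))
    (fun l hl => ⟨by rw [hxe _ (by omega), Nat.add_assoc],
      by rw [hom _ (by omega), hom _ (by omega)], by rw [hxo, hom _ (by omega)]⟩)
    (fun l hl => ⟨(hlen _ (by omega)).trans (Nat.le_add_right _ _), by
      have := hxc ((i + l : ℕ) : ℤ)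
      rwa [show ((i + l : ℕ) : ℤ) + 1 = ((i + (l + 1) : ℕ) : ℤ) by push_cast; ring] at this⟩)
  simpa using this

/-- (GL) good lines. -/
theorem good_lines : ∃ (K : ℕ) (C : Finset L.G), (∀ c ∈ C, c ∈ MS L.π ({a}ᶜ : Set L.X)) ∧
    ∀ e : ℤ → s.Ed, s.MonoZ e → (∀ i, s.InE (L.om a 1) (e i)) →
      (∀ i : ℤ, s.EI (fun l => e (i + l)) K ≠ ⊥) →
      ∃ m ∈ MS L.π ({a}ᶜ : Set L.X), ∃ c ∈ C, ∀ g ∈ MS L.π ({a}ᶜ : Set L.X),
        (∀ i, ∃ j, g • e i = e j) → g ∈ cj m (Subgroup.zpowers c) := by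
  classical
  obtain ⟨K₀, M₀, per, hK₀, -, hacy, hdet, -⟩ := s.lines ha
  have hst : ∀ g : L.G, g • L.om a 1 = L.om a 1 ↔ g ∈ MS L.π ({a}ᶜ : Set L.X) := fun g => by
    have := stabilizer_coe (1 : L.G) (MS L.π ({a}ᶜ : Set L.X))
    rw [← MulAction.mem_stabilizer_iff, this, mem_cj]
    simp
  let K := K₀ + 1 + 2 * M₀
  let P : (ℤ → s.Ed) → Prop := fun e => s.MonoZ e ∧ (∀ i, s.InE (L.om a 1) (e i)) ∧
    ∀ i : ℤ, s.EI (fun l => e (i + l)) K ≠ ⊥
  have hPs : ∀ e, P e → ∀ m : L.G, m • L.om a 1 = L.om a 1 → P (fun i => m • e i) := by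
    rintro e ⟨h1, h2, h3⟩ m hm
    refine ⟨fun i => by simp only [s.smul_src, s.smul_tgt, h1 i], fun i => ?_, fun i =>
      s.ln2_EI_smul (h3 i) m⟩
    have := InE.smul s (h2 i) m
    rwa [hm] at this
  -- a good line is determined by a window
  have hwin : ∀ e e', P e → P e' → (∀ l : ℕ, l < K₀ → e l = e' l) → ∀ i, e i = e' i := by
    rintro e e' ⟨h1, h2, h3⟩ ⟨k1, k2, k3⟩ h0
    have hd := fun i : ℤ => hdet (L.om a 1) (fun l => e (i + l)) (fun l => e' (i + l))
      (s.ln_monoZ_win h1 i _) (s.ln_monoZ_win k1 i _) (fun l _ => ⟨h2 _, k2 _⟩) (h3 i) (k3 i)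
    have key : ∀ n : ℤ, ∀ l : ℕ, l < K₀ → e (n + l) = e' (n + l) := by
      intro n
      induction n using Int.induction_on with
      | zero => simpa using h0
      | succ n ih =>
        intro l hl
        by_cases h : l + 1 < K₀
        · have := ih (l + 1) h
          rwa [show (n : ℤ) + ((l + 1 : ℕ) : ℤ) = n + 1 + l by push_cast; ring] at this
        · have := (hd (n - M₀)).1 (fun i hi => by
            have := ih i hi
            rwa [show (n : ℤ) - M₀ + ((M₀ + i : ℕ) : ℤ) = n + i by push_cast; ring])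
          rwa [show (n : ℤ) - M₀ + ((M₀ + K₀ : ℕ) : ℤ) = n + 1 + l by
            rw [show K₀ = l + 1 by omega]; push_cast; ring] at this
      | pred n ih =>
        intro l hl
        rcases Nat.eq_zero_or_pos l with rfl | h
        · have := (hd (-(n : ℤ) - 1 - M₀)).2 (fun i hi => by
            have := ih i hi
            rwa [show -(n : ℤ) - 1 - M₀ + ((M₀ + 1 + i : ℕ) : ℤ) = -n + i by push_cast; ring])
          rwa [show -(n : ℤ) - 1 - M₀ + (M₀ : ℤ) = -n - 1 + ((0 : ℕ) : ℤ) by push_cast; ring]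
            at this
        · obtain ⟨l, rfl⟩ : ∃ l', l = l' + 1 := ⟨l - 1, by omega⟩
          have := ih l (by omega)
          rwa [show -(n : ℤ) + (l : ℤ) = -n - 1 + ((l + 1 : ℕ) : ℤ) by push_cast; ring] at this
    intro i
    simpa using key i 0 hK₀
  -- the stabiliser of a good line is cyclic
  have hcyc : ∀ e, P e → ∃ c ∈ MS L.π ({a}ᶜ : Set L.X), ∀ g ∈ MS L.π ({a}ᶜ : Set L.X),
      (∀ i, ∃ j, g • e i = e j) → g ∈ Subgroup.zpowers c := by
    rintro e ⟨h1, h2, -⟩
    let H : AddSubgroup ℤ :=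
      { carrier := {c | ∃ g ∈ MS L.π ({a}ᶜ : Set L.X), ∀ i, g • e i = e (i + c)}
        zero_mem' := ⟨1, one_mem _, fun i => by simp⟩
        add_mem' := by
          rintro c c' ⟨g, hg, hc⟩ ⟨g', hg', hc'⟩
          exact ⟨g' * g, mul_mem hg' hg, fun i => by rw [mul_smul, hc, hc', add_assoc]⟩
        neg_mem' := by
          rintro c ⟨g, hg, hc⟩
          exact ⟨g⁻¹, inv_mem hg, fun i => by rw [inv_smul_eq_iff, hc]; congr 1; ring⟩ }
    obtain ⟨b, hb⟩ := Int.subgroup_cyclic H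
    have hbH : b ∈ H := by rw [hb]; exact AddSubgroup.subset_closure rfl
    obtain ⟨c, hc, hcb⟩ := hbH
    refine ⟨c, hc, fun g hg hge => ?_⟩
    obtain ⟨t, ht⟩ := s.ln_trans h1 hge
    have htH : t ∈ H := ⟨g, hg, ht⟩
    rw [hb, AddSubgroup.mem_closure_singleton] at htH
    obtain ⟨n, hn⟩ := htH
    have h3 := hacy (L.om a 1) (fun l => e ((0 : ℤ) + l)) (s.ln_monoZ_win h1 0 _)
      (fun i _ => h2 _) ((c ^ n)⁻¹ * g)
      (fun i _ => by
        show _ • e _ = e _
        rw [mul_smul, inv_smul_eq_iff, ht, s.ln_trans_zpow hcb n, ← hn, smul_eq_mul])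
      ((hst _).2 (mul_mem (inv_mem (Subgroup.zpow_mem _ hc n)) hg))
    rw [inv_mul_eq_one] at h3
    exact ⟨n, h3⟩
  let ρ : (ℤ → s.Ed) → (ℤ → s.Ed) → Prop := fun e e' =>
    ∃ m : L.G, m • L.om a 1 = L.om a 1 ∧ ∀ l : ℕ, l ≤ K₀ + 2 * M₀ → m • e l = e' l
  obtain ⟨N, w, hw, hw'⟩ := LNP.reps P ρ
    (by
      rintro e e' ⟨m, hm, h⟩
      exact ⟨m⁻¹, by rw [inv_smul_eq_iff, hm], fun l hl => by rw [inv_smul_eq_iff, h l hl]⟩)
    (Fintype.card L'.X)
    (fun m w hw hw' => s.c_one ha (K₀ + 2 * M₀) m (L.om a 1) (fun i l => w i ((0 : ℤ) + l))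
      (fun i => s.ln_monoZ_win (hw i).1 0 _) (fun i l _ => (hw i).2.1 _)
      (fun i => by
        have := (hw i).2.2 0
        rwa [show K = K₀ + 2 * M₀ + 1 by omega] at this)
      (fun i j ⟨g, hg, h⟩ => hw' i j ⟨g, hg, fun l hl => by simpa using h l hl⟩))
  choose c hc hc' using fun i => hcyc (w i) (hw i)
  refine ⟨K, Finset.univ.image c, fun x hx => ?_, fun e h1 h2 h3 => ?_⟩
  · obtain ⟨i, -, rfl⟩ := Finset.mem_image.1 hx
    exact hc i
  · obtain ⟨i, m, hm, h⟩ := hw' e ⟨h1, h2, h3⟩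
    have heq := hwin _ e (hPs _ (hw i) m hm) ⟨h1, h2, h3⟩ (fun l hl => h l (by omega))
    have hmM := (hst m).1 hm
    refine ⟨m, hmM, c i, Finset.mem_image_of_mem _ (Finset.mem_univ i), fun g hg hge => ?_⟩
    rw [mem_cj]
    refine hc' i _ (mul_mem (mul_mem (inv_mem hmM) hg) hmM) fun l => ?_
    obtain ⟨j, hj⟩ := hge l
    refine ⟨j, ?_⟩
    rw [mul_smul, mul_smul, inv_smul_eq_iff]
    have a1 := heq l
    have a2 := heq j
    rw [a1, a2, hj]

end St
end CPOR
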