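import Pool.Agent.P.MP_2cb329_al.PR
import Pool.Agent.P.MP_2cb329_al.LN

/-! Effective escape along the intersection of two subtrees. -/

set_option autoImplicit false

namespace CPOR

theorem es_len_chain {L : Lv} (p : ℕ → L.G) (δ k : ℕ)
    (h : ∀ i < k, len L.π ((p i)⁻¹ * p (i + 1)) ≤ δ) (i m : ℕ) (hm : i + m ≤ k) :
    len L.π ((p i)⁻¹ * p (i + m)) ≤ m * δ := by
  induction m with
  | zero => simp [len_one]
  | succ m ih =>
    have e : (p i)⁻¹ * p (i + (m + 1)) =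
        ((p i)⁻¹ * p (i + m)) * ((p (i + m))⁻¹ * p (i + m + 1)) := by
      rw [← add_assoc]; group
    rw [e]
    have h1 := len_mul L.surj ((p i)⁻¹ * p (i + m)) ((p (i + m))⁻¹ * p (i + m + 1))
    have h2 := ih (by omega)
    have h3 := h (i + m) (by omega)
    rw [Nat.succ_mul]
    omega

theorem es_len_symm {L : Lv} (x y : L.G) : len L.π (x⁻¹ * y) = len L.π (y⁻¹ * x) := by
  rw [← len_inv L.surj, mul_inv_rev, inv_inv]

theorem es_len_tri {L : Lv} (x y z : L.G) :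
    len L.π (x⁻¹ * z) ≤ len L.π (x⁻¹ * y) + len L.π (y⁻¹ * z) := by
  have e : x⁻¹ * z = (x⁻¹ * y) * (y⁻¹ * z) := by group
  rw [e]
  exact len_mul L.surj _ _

theorem es_per_pow {G : Type} [Group G] {x : ℤ → G} {per : ℕ} {d : G}
    (h : ∀ i, x (i + per) = d * x i) (m : ℕ) (i : ℤ) :
    x (i + (per * m : ℕ)) = d ^ m * x i := by
  induction m with
  | zero => simp
  | succ m ih =>
    have e : i + ((per * (m + 1) : ℕ) : ℤ) = i + (per * m : ℕ) + per := by push_cast; ring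
    rw [e, h, ih, pow_succ', mul_assoc]

theorem es_connLe_mono {G : Type} [Group G] {Φ : Flow G} {n m : ℕ} {κ : G} (h : Φ.ConnLe n κ)
    (hnm : n ≤ m) : Φ.ConnLe m κ := by
  obtain ⟨c, hc, α, β, h1, h2, h3⟩ := h
  exact ⟨c, hc, α, β, h1.trans hnm, h2.trans hnm, h3⟩

theorem es_dLe_mono {G : Type} [Group G] {Φ : Flow G} {n m : ℕ} {x y : G} (h : Φ.DLe n x y)
    (hnm : n ≤ m) : Φ.DLe m x y := by
  obtain ⟨α, h1, h2⟩ := h
  exact ⟨α, h1.trans hnm, h2⟩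

namespace St

section Aux

variable {L L' : Lv} (s : St L L')

theorem es_EI_zero (e : ℕ → s.Ed) : s.EI e 0 ≠ ⊥ := by
  intro h
  have ht : s.t ∈ s.EI e 0 := fun i hi => absurd hi (Nat.not_lt_zero i)
  rw [h, Subgroup.mem_bot] at ht
  have := s.φ_t
  change s.φ s.t = _ at this
  rw [ht, map_one] at this
  exact absurd (congrArg Multiplicative.toAdd this) (by simp)

theorem es_ed_w (g : L.G) {f : FreeGroup L'.X} (hf : f ∈ FS s.SA) :
    s.ed (g * s.w f) = s.ed g := (s.ed_eq_iff.2 ⟨f, hf, rfl⟩).symm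

theorem es_rho_mono {a b : L.X} {n m : ℕ} {ω : L.Om a} {ω' : L.Om b} {e : s.Ed}
    (h : s.Rho n ω ω' e) (hnm : n ≤ m) : s.Rho m ω ω' e := by
  obtain ⟨g, g', h1, h2, h3, h4, h5⟩ := h
  exact ⟨g, g', h1, h2, h3, h4, h5.trans hnm⟩

/-- A periodic sequence of points with arrow pairs along one period is a thread. -/
theorem es_thread (Ξ : Finset L'.G) {F : ℕ → ℕ}
    (hF : ∀ (n : ℕ) (κ : L.G), (s.flow Ξ).Conn κ → len L.π κ ≤ n → (s.flow Ξ).ConnLe (F n) κ)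
    {x : ℤ → L.G} {per m δ Lb : ℕ} {d : L.G} (hper : 1 ≤ per) (hm : 1 ≤ m)
    (h : ∀ i, x (i + per) = d * x i) (hl : ∀ i, len L.π ((x i)⁻¹ * x (i + 1)) ≤ δ)
    (ha : ∀ i : ℕ, i < per → s.Arr Ξ (s.ed (x i)) (s.ed (x (i + 1)))) (h1 : per * m ≤ Lb)
    (h2 : F δ ≤ Lb) : (s.flow Ξ).Thread Lb (per * m) (d ^ m) x := by
  refine ⟨Nat.mul_pos hper hm, h1, es_per_pow h m, fun i => ?_⟩
  refine es_connLe_mono (hF δ _ ?_ (hl i)) h2
  have hp : Function.Periodic (fun i : ℤ => (x i)⁻¹ * x (i + 1)) (per : ℤ) := fun i => by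
    have e : i + (per : ℤ) + 1 = i + 1 + per := by ring
    simp only [e, h]
    group
  obtain ⟨y, hy, ey⟩ := hp.exists_mem_Ico₀ (by exact_mod_cast hper) i
  obtain ⟨j, rfl⟩ := Int.eq_ofNat_of_zero_le hy.1
  rw [ey]
  exact (ha j (by exact_mod_cast hy.2)).conn

end Aux

variable {L L' : Lv} (s : St L L') (D : s.AD) (hH : L'.Cl) {a b : L.X} (ha : L.Occ a)
  (hb : L.Occ b)
include D hH ha hb

/-- Bridges along a monotone path with long states form a ladder. -/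
theorem es_ladder : ∃ δ δ' : ℕ, ∀ (k : ℕ) (ω : L.Om a) (ω' : L.Om b) (e : ℕ → s.Ed),
    s.Mono e (k + 1) → (∀ i ≤ k, s.InE ω (e i) ∧ s.InE ω' (e i)) →
    (∀ i < k, ¬ s.Sig δ ω ω' (s.tgt (e i))) →
    ∃ (p : ℕ → L.G) (r : ℕ → FreeGroup L'.X), (∀ i ≤ k, s.Br ω ω' (e i) (p i) (r i)) ∧
      ∀ i < k, s.Arr D.Ξ (e i) (e (i + 1)) ∧ len L.π ((p i)⁻¹ * p (i + 1)) ≤ δ' ∧
        len L.π ((p i * s.w (r i))⁻¹ * (p (i + 1) * s.w (r (i + 1)))) ≤ δ' ∧
        ∀ g, FB 1 g (r i) → ∃ g', FB 1 g' (r (i + 1)) ∧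
          len L.π ((p i * s.w g)⁻¹ * (p (i + 1) * s.w g')) ≤ δ' := by
  obtain ⟨δ, hδ⟩ := s.exists_thr ha hb D
  obtain ⟨δ', hδ'⟩ := s.ladder ha hb hH δ
  refine ⟨δ, δ', fun k ω ω' e hm hin hs => ?_⟩
  have hbr : ∀ i ≤ k, ∃ p r, s.Br ω ω' (e i) p r := fun i hi =>
    s.exists_br ha hb (hin i hi).1 (hin i hi).2
  choose! p r hpr using hbr
  refine ⟨p, r, hpr, fun i hi => ?_⟩
  have ht := hm i (by omega)
  obtain ⟨h1, h2⟩ := (hδ ω ω' _ (hs i hi)).2.2 _ _ _ _ _ _ (hpr i hi.le) (hpr (i + 1) hi) rfl ht.symm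
  exact ⟨h1, hδ' ω ω' _ _ _ _ _ _ (hpr i hi.le) (hpr (i + 1) hi) ht h2⟩

/-- Long rungs give windows with nontrivial stabiliser. -/
theorem good_of_long : ∃ δ, ∀ K, ∃ N, ∀ (ω : L.Om a) (ω' : L.Om b) (e : ℕ → s.Ed), s.Mono e K →
    (∀ i < K, s.InE ω (e i) ∧ s.InE ω' (e i)) →
    (∀ i, i + 1 < K → ¬ s.Sig δ ω ω' (s.tgt (e i))) → ¬ s.Rho N ω ω' (e 0) → s.EI e K ≠ ⊥ := by
  classical
  obtain ⟨δ, δ', hlad⟩ := s.es_ladder D hH ha hb
  obtain ⟨C, hC⟩ := s.lip_w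
  refine ⟨δ, fun K => ?_⟩
  rcases K with _ | k
  · exact ⟨0, fun _ _ e _ _ _ _ => s.es_EI_zero e⟩
  obtain ⟨B, hB, -⟩ := len_ball L.surj (k * δ')
  refine ⟨C * B.card ^ (k + 1), fun ω ω' e hm hin hs hρ => ?_⟩
  obtain ⟨p, r, hbr, hst⟩ := hlad k ω ω' e hm (fun i hi => hin i (by omega))
    (fun i hi => hs i (by omega))
  have hA : ∀ i ≤ k, r i ∈ FS s.SA := fun i hi => (hbr i hi).2.2.1
  have hed : ∀ i ≤ k, s.ed (p i) = e i := fun i hi => (hbr i hi).2.1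
  have hlong : B.card ^ (k + 1) < (r 0).norm := by
    by_contra hc
    refine hρ ⟨p 0, p 0 * s.w (r 0), (hbr 0 k.zero_le).1, (hbr 0 k.zero_le).2.2.2.1,
      hed 0 k.zero_le, (s.es_ed_w _ (hA 0 k.zero_le)).trans (hed 0 k.zero_le), ?_⟩
    rw [inv_mul_cancel_left]
    exact (hC _).trans (Nat.mul_le_mul_left _ (not_lt.1 hc))
  have hoff : ∀ g, FB 1 g (r 0) → ∀ i ≤ k, ∃ g', FB 1 g' (r i) ∧
      len L.π ((p 0 * s.w g)⁻¹ * (p i * s.w g')) ≤ i * δ' := by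
    intro g hg i
    induction i with
    | zero => intro _; exact ⟨g, hg, by simp [len_one]⟩
    | succ i ih =>
      intro hi
      obtain ⟨g', h1, h2⟩ := ih (by omega)
      obtain ⟨g'', h3, h4⟩ := (hst i hi).2.2.2 g' h1
      refine ⟨g'', h3, (es_len_tri _ (p i * s.w g') _).trans ?_⟩
      rw [Nat.succ_mul]
      omega
  have hoff' : ∀ m : Fin ((r 0).norm + 1), ∀ i : Fin (k + 1), ∃ o : B,
      s.ed (p 0 * s.w (seg (r 0).toWord m) * o) = e i := by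
    intro m i
    have hi : (i : ℕ) ≤ k := Nat.lt_succ_iff.1 i.2
    obtain ⟨g', h1, h2⟩ := hoff _ (qd_fb_seg (r 0) (Nat.lt_succ_iff.1 m.2)) i hi
    refine ⟨⟨_, (hB _).2 (h2.trans (Nat.mul_le_mul_right _ hi))⟩, ?_⟩
    simp only [mul_inv_cancel_left]
    rw [s.es_ed_w _ (qd_fb_mem (hA i hi) h1), hed i hi]
  choose o ho using hoff'
  obtain ⟨m, m', hne, hmm⟩ := Fintype.exists_ne_map_eq_of_card_lt o (by
    rw [Fintype.card_fun, Fintype.card_coe, Fintype.card_fin, Fintype.card_fin]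
    omega)
  intro hbot
  have hmem : p 0 * s.w (seg (r 0).toWord m') * (p 0 * s.w (seg (r 0).toWord m))⁻¹ ∈
      s.EI e (k + 1) := by
    intro i hi
    have h1 := ho m ⟨i, hi⟩
    have h2 := ho m' ⟨i, hi⟩
    rw [← hmm] at h2
    simp only at h1 h2
    conv_lhs => rw [← h1]
    rw [s.smul_ed, ← h2]
    congr 1
    group
  rw [hbot, Subgroup.mem_bot, mul_inv_eq_one, mul_right_inj] at hmem
  have h3 := s.w_inj s.adm_A (qd_seg_mem (hA 0 k.zero_le) _) (qd_seg_mem (hA 0 k.zero_le) _) hmem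
  exact hne (Fin.ext (qd_seg_inj (r 0) (Nat.lt_succ_iff.1 m'.2) (Nat.lt_succ_iff.1 m.2) h3).symm)

/-- (RUN) a run of long rungs with small ends and inequivalent vertices is short. -/
theorem run_short : ∃ δ N : ℕ, ∃ F, Bd F ∧ ∀ (n k : ℕ) (ω : L.Om a) (ω' : L.Om b)
    (e : ℕ → s.Ed), s.Mono e (k + 1) → (∀ i ≤ k, s.InE ω (e i) ∧ s.InE ω' (e i)) →
    (∀ i < k, ¬ s.Sig δ ω ω' (s.tgt (e i))) → (∀ i ≤ k, ¬ s.Rho N ω ω' (e i)) →
    s.Rho n ω ω' (e 0) → s.Rho n ω ω' (e k) →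
    (∀ i j, i < k → j < k → (∃ g ∈ Q ω ω', g • s.tgt (e i) = s.tgt (e j)) → i = j) →
    k ≤ F n := by
  obtain ⟨δ₁, δ', hlad⟩ := s.es_ladder D hH ha hb
  obtain ⟨δ₂, hgood⟩ := s.good_of_long D hH ha hb
  obtain ⟨Ka, Ma, pa, δa, hpa, hPa⟩ := s.peri ha δ'
  obtain ⟨Kb, Mb, pb, δb, hpb, hPb⟩ := s.peri hb δ'
  obtain ⟨Na, hNa⟩ := hgood Ka
  obtain ⟨Nb, hNb⟩ := hgood Kb
  obtain ⟨C, hC⟩ := s.lip_w
  obtain ⟨F₁, -, hF₁⟩ := s.connLe_of_len hH D.Ξ
  obtain ⟨F₂, bF₂, hF₂⟩ := s.dLe_of_len hH D.Ξ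
  obtain ⟨F₃, bF₃, hF₃⟩ := s.br_len ha hb hH
  obtain ⟨N₀, F₄, hN₀, bF₄, hF₄⟩ := D.g2
  let Lb : ℕ → ℕ := fun n =>
    F₂ (δa + δb + 2 * ((Ma + Mb) * δ') + C * F₃ n) + (pa * pb + F₁ δa + F₁ δb)
  have bLb : Bd Lb :=
    (bF₂.comp ((Bd.const _).add ((Bd.const C).mul bF₃))).add (Bd.const _)
  refine ⟨max δ₁ δ₂, max Na Nb,
    fun n => F₄ (Lb n) + (2 * (Ma + Mb) + pa + pb + pa * pb * N₀ + 1),
    (bF₄.comp bLb).add (Bd.const _), fun n k ω ω' e hm hin hs hρ h0 hk hineq => ?_⟩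
  by_contra hcon
  simp only [not_le] at hcon
  obtain ⟨p, r, hbr, hst⟩ := hlad k ω ω' e hm hin
    (fun i hi h => hs i hi (h.mono s (le_max_left _ _)))
  set q : ℕ → L.G := fun i => p i * s.w (r i) with hq
  have hA : ∀ i ≤ k, r i ∈ FS s.SA := fun i hi => (hbr i hi).2.2.1
  have hed : ∀ i ≤ k, s.ed (p i) = e i := fun i hi => (hbr i hi).2.1
  have hedq : ∀ i ≤ k, s.ed (q i) = e i := fun i hi =>
    (s.es_ed_w _ (hA i hi)).trans (hed i hi)
  have hop : ∀ i ≤ k, L.om a (p i) = ω := fun i hi => (hbr i hi).1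
  have hoq : ∀ i ≤ k, L.om b (q i) = ω' := fun i hi => (hbr i hi).2.2.2.1
  have hsp : ∀ i < k, len L.π ((p i)⁻¹ * p (i + 1)) ≤ δ' := fun i hi => (hst i hi).2.1
  have hsq : ∀ i < k, len L.π ((q i)⁻¹ * q (i + 1)) ≤ δ' := fun i hi => (hst i hi).2.2.1
  have hwin : ∀ K N, N ≤ max Na Nb → (∀ (ω : L.Om a) (ω' : L.Om b) (e : ℕ → s.Ed), s.Mono e K →
      (∀ i < K, s.InE ω (e i) ∧ s.InE ω' (e i)) →
      (∀ i, i + 1 < K → ¬ s.Sig δ₂ ω ω' (s.tgt (e i))) → ¬ s.Rho N ω ω' (e 0) →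
      s.EI e K ≠ ⊥) → ∀ (z : ℕ → L.G), (∀ i ≤ k, s.ed (z i) = e i) → ∀ o i, o + i + K ≤ k + 1 →
      s.EI (fun l => s.ed (z (o + (i + l)))) K ≠ ⊥ := by
    intro K N hN hG z hz o i hi
    rcases Nat.eq_zero_or_pos K with rfl | hK
    · exact s.es_EI_zero _
    refine hG ω ω' _ (fun l hl => ?_) (fun l hl => ?_) (fun l hl h => ?_) (fun h => ?_)
    · rw [hz _ (by omega), hz _ (by omega)]
      exact hm (o + (i + l)) (by omega)
    · rw [hz _ (by omega)]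
      exact hin _ (by omega)
    · rw [hz _ (by omega)] at h
      exact hs _ (by omega) (h.mono s (le_max_right _ _))
    · rw [hz _ (by omega)] at h
      exact hρ _ (by omega) (s.es_rho_mono h hN)
  have hmono : ∀ (z : ℕ → L.G), (∀ i ≤ k, s.ed (z i) = e i) → ∀ o, 2 * o ≤ k →
      s.Mono (fun i => s.ed (z (o + i))) (k - 2 * o + 1) := by
    intro z hz o ho i hi
    simp only
    rw [hz _ (by omega), hz _ (by omega)]
    exact hm (o + i) (by omega)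
  obtain ⟨d, x, hd, hx, hxl, hxe⟩ := hPa (k - 2 * Mb) (fun i => p (Mb + i)) (by omega)
    (hmono p hed Mb (by omega))
    (fun i hi => (hop _ (by omega)).trans (hop _ (by omega)).symm)
    (fun i hi => hsp (Mb + i) (by omega))
    (fun i hi => hwin Ka Na (le_max_left _ _) hNa p hed Mb i (by omega))
  obtain ⟨d', y, hd', hy, hyl, hye⟩ := hPb (k - 2 * Ma) (fun i => q (Ma + i)) (by omega)
    (hmono q hedq Ma (by omega))
    (fun i hi => (hoq _ (by omega)).trans (hoq _ (by omega)).symm)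
    (fun i hi => hsq (Ma + i) (by omega))
    (fun i hi => hwin Kb Nb (le_max_right _ _) hNb q hedq Ma i (by omega))
  rw [hop _ (by omega)] at hd
  rw [hoq _ (by omega)] at hd'
  set n' := k - 2 * (Ma + Mb) with hn'
  have hx1 : ∀ i : ℕ, i ≤ n' → s.ed (x i) = e (Ma + Mb + i) ∧
      len L.π ((p (Ma + Mb + i))⁻¹ * x i) ≤ δa := fun i hi => by
    have := hxe i (by omega)
    rw [show Mb + (Ma + i) = Ma + Mb + i by omega, hed _ (by omega)] at this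
    exact this
  have hy1 : ∀ i : ℕ, i ≤ n' → s.ed (y i) = e (Ma + Mb + i) ∧
      len L.π ((q (Ma + Mb + i))⁻¹ * y i) ≤ δb := fun i hi => by
    have := hye i (by omega)
    rw [← add_assoc, hedq _ (by omega)] at this
    exact this
  have harr : ∀ z : ℤ → L.G, (∀ i : ℕ, i ≤ n' → s.ed (z i) = e (Ma + Mb + i)) → ∀ i : ℕ, i < n' →
      s.Arr D.Ξ (s.ed (z i)) (s.ed (z (i + 1))) := fun z hz i hi => by
    have h1 := hz (i + 1) hi
    push_cast at h1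
    rw [hz i hi.le, h1]
    exact (hst (Ma + Mb + i) (by omega)).1
  have tx : (s.flow D.Ξ).Thread (Lb n) (pa * pb) (d ^ pb) x :=
    s.es_thread D.Ξ hF₁ hpa hpb hx hxl
      (fun i hi => harr x (fun i hi => (hx1 i hi).1) i (by omega))
      (by simp only [Lb]; omega) (by simp only [Lb]; omega)
  have ty : (s.flow D.Ξ).Thread (Lb n) (pb * pa) (d' ^ pa) y :=
    s.es_thread D.Ξ hF₁ hpb hpa hy hyl
      (fun i hi => harr y (fun i hi => (hy1 i hi).1) i (by omega))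
      (by rw [mul_comm]; simp only [Lb]; omega) (by simp only [Lb]; omega)
  rw [mul_comm pb pa] at ty
  have hend : ∀ i ≤ k, s.Rho n ω ω' (e i) → len L.π ((p i)⁻¹ * q i) ≤ C * F₃ n := fun i hi h => by
    simp only [hq, inv_mul_cancel_left]
    exact (hC _).trans (Nat.mul_le_mul_left _ (hF₃ n ω ω' _ _ _ (hbr i hi) h))
  have hdle : ∀ i : ℕ, i ≤ n' →
      len L.π ((p (Ma + Mb + i))⁻¹ * q (Ma + Mb + i)) ≤ 2 * ((Ma + Mb) * δ') + C * F₃ n →
      (s.flow D.Ξ).DLe (Lb n) (x i) (y i) := fun i hi h => by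
    refine es_dLe_mono (hF₂ (δa + δb + 2 * ((Ma + Mb) * δ') + C * F₃ n) _ _
      ((hx1 i hi).1.trans (hy1 i hi).1.symm) ?_) (by simp only [Lb]; omega)
    have t1 := es_len_tri (x i) (p (Ma + Mb + i)) (y i)
    have t2 := es_len_tri (p (Ma + Mb + i)) (q (Ma + Mb + i)) (y i)
    have t3 := es_len_symm (x i) (p (Ma + Mb + i))
    have t4 := (hx1 i hi).2
    have t5 := (hy1 i hi).2
    omega
  have d0 : (s.flow D.Ξ).DLe (Lb n) (x (0 : ℕ)) (y (0 : ℕ)) := by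
    refine hdle 0 n'.zero_le ?_
    have t1 := es_len_chain p δ' k hsp 0 (Ma + Mb) (by omega)
    have t2 := es_len_chain q δ' k hsq 0 (Ma + Mb) (by omega)
    have t3 := hend 0 k.zero_le h0
    have t4 := es_len_tri (p (Ma + Mb)) (p 0) (q (Ma + Mb))
    have t5 := es_len_tri (p 0) (q 0) (q (Ma + Mb))
    have t6 := es_len_symm (p (Ma + Mb)) (p 0)
    rw [zero_add] at t1 t2
    rw [add_zero]
    omega
  have dn : (s.flow D.Ξ).DLe (Lb n) (x n') (y n') := by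
    refine hdle n' le_rfl ?_
    have t1 := es_len_chain p δ' k hsp (Ma + Mb + n') (Ma + Mb) (by omega)
    have t2 := es_len_chain q δ' k hsq (Ma + Mb + n') (Ma + Mb) (by omega)
    have t3 := hend k le_rfl hk
    have t4 := es_len_tri (p (Ma + Mb + n')) (p k) (q (Ma + Mb + n'))
    have t5 := es_len_tri (p k) (q k) (q (Ma + Mb + n'))
    have t6 := es_len_symm (q k) (q (Ma + Mb + n'))
    rw [show Ma + Mb + n' + (Ma + Mb) = k by omega] at t1 t2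
    omega
  rcases hF₄ (Lb n) (pa * pb) n' _ _ x y tx ty (fun i h1 h2 => by
      obtain ⟨j, rfl⟩ := Int.eq_ofNat_of_zero_le h1
      have hj : j ≤ n' := by exact_mod_cast h2
      exact (hx1 j hj).1.trans (hy1 j hj).1.symm) d0 dn with h | h
  · omega
  · have hQ : (d ^ pb) ^ N₀ ∈ Q ω ω' := by
      rw [MulAction.mem_stabilizer_iff, Prod.smul_mk, Prod.mk.injEq]
      constructor
      · exact (MulAction.stabilizer L.G ω).pow_mem ((MulAction.stabilizer L.G ω).pow_mem hd _) _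
      · rw [h]
        exact (MulAction.stabilizer L.G ω').pow_mem ((MulAction.stabilizer L.G ω').pow_mem hd' _) _
    have hpos : 0 < pa * pb * N₀ := Nat.mul_pos (Nat.mul_pos hpa hpb) hN₀
    have e1 := es_per_pow tx.2.2.1 N₀ 0
    rw [zero_add] at e1
    have e2 := (hx1 0 n'.zero_le).1
    have e3 := (hx1 (pa * pb * N₀) (by omega)).1
    have e4 : (d ^ pb) ^ N₀ • e (Ma + Mb + 0) = e (Ma + Mb + pa * pb * N₀) := by
      rw [← e2, ← e3, e1, s.smul_ed]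
      rfl
    have := hineq (Ma + Mb + 0) (Ma + Mb + pa * pb * N₀) (by omega) (by omega)
      ⟨_, hQ, by rw [← s.smul_tgt, e4]⟩
    omega

end St
end CPOR
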