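import Pool.Agent.P.MP_2cb329_al.EX1

/-! Elliptic elements: stretches of non-exceptional edges. -/

set_option autoImplicit false

namespace CPOR
namespace St

section Aux

variable {L L' : Lv} (s : St L L')

theorem ex_smV_mono {n m : ℕ} {v : s.Vt} (h : s.SmV n v) (hnm : n ≤ m) : s.SmV m v :=
  let ⟨g, hg, hl⟩ := h; ⟨g, hg, hl.trans hnm⟩

theorem ex_smE_mono {n m : ℕ} {e : s.Ed} (h : s.SmE n e) (hnm : n ≤ m) : s.SmE m e :=
  let ⟨g, hg, hl⟩ := h; ⟨g, hg, hl.trans hnm⟩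

theorem ex_join_left {e : s.Ed} {v w : s.Vt} (h : s.Join e v w) : s.Inc e v :=
  h.elim (fun h => Or.inl h.1) fun h => Or.inr h.2

theorem ex_join_right {e : s.Ed} {v w : s.Vt} (h : s.Join e v w) : s.Inc e w :=
  h.elim (fun h => Or.inr h.2) fun h => Or.inl h.1

theorem ex_inc_smul {e : s.Ed} {v : s.Vt} (h : s.Inc e v) (g : L.G) : s.Inc (g • e) (g • v) := by
  rcases h with h | h
  · exact Or.inl (by rw [s.smul_src, h])
  · exact Or.inr (by rw [s.smul_tgt, h])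

/-- A small element conjugated into a Magnus subgroup of a small vertex group. -/
theorem ex_ci_M (hH : L'.Cl) {S : Set L'.X} (hS : L'.Adm S) : ∃ F, Bd F ∧
    ∀ (n : ℕ) (u γ : L.G) (h : L'.G), len L.π u ≤ n → len L.π γ ≤ n →
      u ∈ cj (γ * s.j h) (s.M' S) →
      ∃ h', u ∈ cj (γ * s.j h') (s.M' S) ∧ len L.π (γ * s.j h') ≤ F n := by
  obtain ⟨FC, hFC, hci⟩ := hH.ci S hS
  obtain ⟨FH, hFH, hmem⟩ := s.memH hH
  obtain ⟨c, hc⟩ := s.lip_j
  refine ⟨fun n => n + c * FC (FH (n + n + n)),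
    Bd.id.add ((Bd.const c).mul (hFC.comp (hFH.comp ((Bd.id.add Bd.id).add Bd.id)))), ?_⟩
  intro n u γ h hu hγ hm
  rw [mem_cj, M'_eq] at hm
  obtain ⟨m, hm, he⟩ := hm
  have e0 : s.j (h * m * h⁻¹) = γ⁻¹ * u * γ := by
    rw [map_mul, map_mul, map_inv, he]; group
  have hl : len L'.π (h * m * h⁻¹) ≤ FH (n + n + n) := by
    refine (hmem _).trans (hFH.mono ?_)
    rw [e0]
    refine (len_mul3 L.surj _ _ _).trans ?_
    rw [len_inv L.surj]; omega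
  obtain ⟨h', hh', hl'⟩ := hci (h * m * h⁻¹) h (by
    have : h⁻¹ * (h * m * h⁻¹) * h = m := by group
    rw [this]; exact hm)
  refine ⟨h', ?_, ?_⟩
  · rw [mem_cj, M'_eq]
    refine ⟨_, hh', ?_⟩
    rw [map_mul, map_mul, map_inv, e0]; group
  · have a1 := len_mul L.surj γ (s.j h')
    have a2 := hc h'
    have a3 := Nat.mul_le_mul_left c (hl'.trans (hFC.mono hl))
    show _ ≤ n + c * FC (FH (n + n + n))
    omega

/-- A fixed edge at a small vertex gives a small fixed edge of the same type. -/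
theorem ex_small_same (hH : L'.Cl) : ∃ F, Bd F ∧ ∀ (n : ℕ) (u : L.G) (v : s.Vt) (e : s.Ed),
    len L.π u ≤ n → s.SmV n v → s.Inc e v → u • e = e →
    ∃ e', s.SmE (F n) e' ∧ u • e' = e' ∧ (s.src e = s.src e' ∨ s.tgt e = s.tgt e') := by
  obtain ⟨FA, hFA, hA⟩ := s.ex_ci_M hH s.adm_A
  obtain ⟨FB', hFB, hB⟩ := s.ex_ci_M hH s.adm_B
  refine ⟨fun n => FA n + FB' n + len L.π s.t, (hFA.add hFB).add (Bd.const _), ?_⟩
  intro n u v e hu hv hi he
  obtain ⟨γ, rfl, hγ⟩ := hv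
  obtain ⟨g, rfl⟩ := QuotientGroup.mk_surjective e
  have he' : u ∈ MulAction.stabilizer L.G (s.ed g) := he
  rcases hi with hi | hi
  · obtain ⟨h, hh⟩ := s.vx_eq_iff.1 (show s.vx γ = s.vx g from hi.symm)
    rw [s.stab_ed, hh] at he'
    obtain ⟨h', hm, hl⟩ := hA n u γ h hu hγ he'
    refine ⟨s.ed (γ * s.j h'), ⟨_, rfl, hl.trans ?_⟩, ?_, Or.inl ?_⟩
    · show _ ≤ FA n + FB' n + len L.π s.t
      omega
    · rw [← s.stab_ed] at hm; exact hm
    · rw [hi, src_ed]; exact s.vx_eq_iff.2 ⟨h', rfl⟩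
  · obtain ⟨h, hh⟩ := s.vx_eq_iff.1 (show s.vx γ = s.vx (g * s.t) from hi.symm)
    rw [s.stab_ed_B, hh] at he'
    obtain ⟨h', hm, hl⟩ := hB n u γ h hu hγ he'
    have e1 : γ * s.j h' * s.t⁻¹ * s.t = γ * s.j h' := by group
    refine ⟨s.ed (γ * s.j h' * s.t⁻¹), ⟨_, rfl, ?_⟩, ?_, Or.inr ?_⟩
    · have a1 := len_mul L.surj (γ * s.j h') s.t⁻¹
      rw [len_inv L.surj] at a1
      show _ ≤ FA n + FB' n + len L.π s.t
      omega
    · rw [← e1, ← s.stab_ed_B] at hm; exact hm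
    · rw [hi, tgt_ed, e1]; exact s.vx_eq_iff.2 ⟨h', rfl⟩

theorem ex_fix {C : Finset L'.G} {C1 : Finset L.G} (hX : s.ExSet C C1) {u : L.G} {e : s.Ed}
    (h : s.Ex C1 u e) : u • e = e := by
  obtain ⟨γ, ρ, hρ, rfl, hu⟩ := h
  have : u ∈ MulAction.stabilizer L.G (s.ed γ) := by
    rw [s.stab_ed, mem_cj]
    exact (Subgroup.zpowers_le.2 (hX.1 ρ hρ).1) (mem_cj.1 hu)
  exact this

/-- The members of an exceptional set are short nontrivial words. -/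
theorem ex_words (hH : L'.Cl) {C : Finset L'.G} {C1 : Finset L.G} (hX : s.ExSet C C1) :
    ∃ B : ℕ, ∀ ρ ∈ C1, ∃ r ∈ FS s.SA, r ≠ 1 ∧ r.norm ≤ B ∧ s.w r = ρ := by
  obtain ⟨FW, hFW, hw⟩ := s.memW hH s.adm_A
  refine ⟨FW (C1.sup (len L.π)), fun ρ hρ => ?_⟩
  obtain ⟨r, hr, rfl⟩ := s.mem_M'.1 (hX.1 ρ hρ).1
  refine ⟨r, hr, ?_, (hw r hr).trans (hFW.mono (Finset.le_sup (f := len L.π) hρ)), rfl⟩
  rintro rfl
  exact (hX.1 _ hρ).2 (map_one _)

end Aux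

variable {L L' : Lv} (s : St L L') (D : s.AD) {C : Finset L'.G} {C1 : Finset L.G}
  (hC : D.C0 ⊆ C) (hX : s.ExSet C C1)
include hC hX

/-- (ST) -/
theorem st_small (hH : L'.Cl) : ∃ F, Bd F ∧ ∀ (n : ℕ) (u : L.G) (v : s.Vt) (e : s.Ed), u ≠ 1 →
    len L.π u ≤ n → s.SmV n v → s.Inc e v → u • e = e → ¬ s.Ex C1 u e → s.SmE (F n) e := by
  obtain ⟨F, hF, h⟩ := s.ex_small_same hH
  refine ⟨F, hF, fun n u v e h1 hu hv hi he hn => ?_⟩
  obtain ⟨e', hs, he', ht⟩ := h n u v e hu hv hi he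
  rw [s.eq_of_nonex D hC hX h1 ht he he' hn]
  exact hs

/-- Walking along a short non-exceptional path. -/
theorem walk_small (hH : L'.Cl) : ∃ F, Bd F ∧ ∀ (n k : ℕ) (u : L.G) (a : ℕ → s.Vt)
    (e : ℕ → s.Ed), u ≠ 1 → len L.π u ≤ n → k ≤ n → s.SmV n (a 0) → s.Pth a e k →
    (∀ i < k, u • e i = e i ∧ ¬ s.Ex C1 u (e i)) → s.SmV (F n) (a k) := by
  obtain ⟨F, hF, h⟩ := s.st_small D hC hX hH
  obtain ⟨c, hc⟩ := SmE.inc s
  refine ⟨Bd.it fun n => F n + c, Bd.it_bd (hF.add (Bd.const c)), ?_⟩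
  intro n k u a e h1 hu hk h0 hp hf
  refine Bd.it_induct (F := fun n => F n + c) (fun i m => s.SmV m (a i)) k n hk
    (fun i a b hab h => s.ex_smV_mono h hab) h0 (fun i m hi hnm hm => ?_) k le_rfl
  exact hc _ _ _ (h m u (a i) (e i) h1 (hu.trans hnm) hm (s.ex_join_left (hp.1 i hi))
    (hf i hi).1 (hf i hi).2) (s.ex_join_right (hp.1 i hi))

/-- At a small vertex, an exceptional edge can be replaced by a small one. -/
theorem ex_at_small (hH : L'.Cl) : ∃ F, Bd F ∧ ∀ (n : ℕ) (u : L.G) (v : s.Vt) (e : s.Ed),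
    u ≠ 1 → len L.π u ≤ n → s.SmV n v → s.Inc e v → s.Ex C1 u e →
    ∃ g, ∃ ρ ∈ C1, ∃ i : ℤ, u = g * ρ ^ i * g⁻¹ ∧ len L.π g ≤ F n ∧ i.natAbs ≤ F n := by
  obtain ⟨F, hF, h⟩ := s.ex_small_same hH
  obtain ⟨FW, hFW, hw⟩ := s.memW hH s.adm_A
  obtain ⟨c, hc⟩ := s.lip_w
  obtain ⟨B, hB⟩ := s.ex_words hH hX
  have hA : Bd fun n => FW (F n + n + F n) := hFW.comp ((hF.add Bd.id).add hF)
  refine ⟨fun n => F n + c * (FW (F n + n + F n) + FW (F n + n + F n) * B) + FW (F n + n + F n),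
    (hF.add ((Bd.const c).mul (hA.add (hA.mul (Bd.const B))))).add hA, ?_⟩
  intro n u v e h1 hu hv hi hex
  have he := s.ex_fix hX hex
  obtain ⟨e', ⟨y, hy, hyl⟩, he', ht⟩ := h n u v e hu hv hi he
  have hex' : s.Ex C1 u e' := by
    by_contra hn
    have := s.eq_of_nonex D hC hX h1 (ht.imp Eq.symm Eq.symm) he' he hn
    exact hn (this ▸ hex)
  obtain ⟨γ, ρ, hρ, hγ, hm⟩ := hex'
  obtain ⟨i, hi⟩ := Subgroup.mem_zpowers_iff.1 (mem_cj.1 hm)
  obtain ⟨r, hr, hr1, hrB, rfl⟩ := hB ρ hρ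
  obtain ⟨f₀, hf₀, rfl⟩ := s.ed_eq_iff.1 (hy.trans hγ.symm)
  have hf : f₀ * r ^ i * f₀⁻¹ ∈ FS s.SA :=
    (FS _).mul_mem ((FS _).mul_mem hf₀ ((FS _).zpow_mem hr i)) ((FS _).inv_mem hf₀)
  have e0 : s.w (f₀ * r ^ i * f₀⁻¹) = y⁻¹ * u * y := by
    rw [map_mul, map_mul, map_inv, map_zpow, hi]; group
  set A := FW (F n + n + F n) with hAdef
  have hfl : (f₀ * r ^ i * f₀⁻¹).norm ≤ A := by
    refine (hw _ hf).trans (hFW.mono ?_)
    rw [e0]
    refine (len_mul3 L.surj _ _ _).trans ?_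
    rw [len_inv L.surj]; omega
  have hiA : i.natAbs ≤ A := (natAbs_le_norm_conj_zpow hr1 f₀ i).trans hfl
  obtain ⟨k, -, hk, hkl⟩ := conj_short_FS (g := f₀) hf ((FS _).zpow_mem hr i) (by group)
  have hpow : (r ^ i).norm ≤ A * B := (norm_zpow_le r i).trans (Nat.mul_le_mul hiA hrB)
  refine ⟨y * s.w k, s.w r, hρ, i, ?_, ?_, ?_⟩
  · rw [← map_zpow, ← hk, map_mul, map_mul, map_inv, e0]; group
  · have a1 := len_mul L.surj y (s.w k)
    have a2 := hc k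
    have a3 : c * k.norm ≤ c * (A + A * B) := Nat.mul_le_mul_left c (by omega)
    show _ ≤ F n + c * (A + A * B) + A
    omega
  · show _ ≤ F n + c * (A + A * B) + A
    omega

/-- (EX) -/
theorem ex_small (hH : L'.Cl) : ∃ F, Bd F ∧ ∀ (u : L.G) (e : s.Ed), u ≠ 1 → s.Ex C1 u e →
    ∃ g, ∃ ρ ∈ C1, ∃ i : ℤ, u = g * ρ ^ i * g⁻¹ ∧ len L.π g ≤ F (len L.π u) ∧
      i.natAbs ≤ F (len L.π u) := by
  classical
  obtain ⟨FT', hFT, hty⟩ := s.small_type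
  obtain ⟨FS', hFS, hst⟩ := s.st_small D hC hX hH
  obtain ⟨FW, hFW, hwk⟩ := s.walk_small D hC hX hH
  obtain ⟨FE, hFE, hat⟩ := s.ex_at_small D hC hX hH
  obtain ⟨FL, hFL, hlip⟩ := s.lip_arr D hH
  obtain ⟨FC, hFC, hcy⟩ := s.cycE_of_small hH
  obtain ⟨FR, hFR, hstr⟩ := s.stretch D hC hX
  obtain ⟨B, hB⟩ := s.ex_words hH hX
  have hN : Bd fun n => FT' n + n := hFT.add Bd.id
  have hM : Bd fun N => FC (FS' N + N) + FL B := (hFC.comp (hFS.add Bd.id)).add (Bd.const _)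
  have hK : Bd fun N => FE (FW (N + FR (FC (FS' N + N) + FL B) + 1) + N) :=
    hFE.comp ((hFW.comp ((Bd.id.add (hFR.comp hM)).add (Bd.const 1))).add Bd.id)
  refine ⟨_, hK.comp hN, fun u e₀ h1 hex₀ => ?_⟩
  set N := FT' (len L.π u) + len L.π u with hNdef
  have huN : len L.π u ≤ N := Nat.le_add_left _ _
  obtain ⟨v₀, hv₀, hsm⟩ : ∃ v, u • v = v ∧ s.SmV N v := by
    rcases hty u with ⟨v, hv, hs⟩ | ⟨a, l, ha, -⟩
    · exact ⟨v, hv, s.ex_smV_mono hs (Nat.le_add_right _ _)⟩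
    · exact absurd (Inc.fix s (Or.inl rfl) (s.ex_fix hX hex₀))
        (ha.not_fix s.T_acyclic s.T_acts (s.T_reach _ _))
  have hexists : ∃ d, ∃ e v, s.Ex C1 u e ∧ s.Inc e v ∧ s.T.dist v₀ v = d :=
    ⟨_, e₀, s.src e₀, hex₀, Or.inl rfl, rfl⟩
  obtain ⟨e, v, hex, hinc, hd⟩ := Nat.find_spec hexists
  have hmin : ∀ e' v', s.Ex C1 u e' → s.Inc e' v' → s.T.dist v₀ v ≤ s.T.dist v₀ v' := by
    intro e' v' h1 h2
    rw [hd]
    exact Nat.find_min' hexists ⟨e', v', h1, h2, rfl⟩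
  clear hd
  obtain ⟨a, ee, ha0, had, hp, hb⟩ := s.exists_pth v₀ v
  generalize hdd : s.T.dist v₀ v = d at had hp hb hmin
  have hue := s.ex_fix hX hex
  have huv : u • v = v := Inc.fix s hinc hue
  have hua : ∀ i ≤ d, u • a i = a i := fun i hi =>
    ZT.fix_btw s.T_acyclic s.T_acts hv₀ huv (hb i hi)
  have huf : ∀ i < d, u • ee i = ee i := fun i hi =>
    Join.fix s (hp.1 i hi) (hua i hi.le) (hua (i + 1) hi)
  have hdist : ∀ i ≤ d, s.T.dist v₀ (a i) = i := fun i hi => by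
    rw [← ha0, Pth.dist s hp (Nat.zero_le i) hi, Nat.sub_zero]
  have hnon : ∀ i < d, ¬ s.Ex C1 u (ee i) := fun i hi hx => by
    have := hmin _ _ hx (s.ex_join_left (hp.1 i hi))
    rw [hdist i hi.le] at this
    omega
  have hshort : d ≤ FR (FC (FS' N + N) + FL B) + 1 := by
    rcases Nat.eq_zero_or_pos d with h0 | hpos
    · omega
    obtain ⟨m, rfl⟩ : ∃ m, d = m + 1 := ⟨d - 1, by omega⟩
    obtain ⟨γ, ρ, hρ, hγ, hm⟩ := hex
    obtain ⟨i, hi⟩ := Subgroup.mem_zpowers_iff.1 (mem_cj.1 hm)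
    obtain ⟨r, hr, -, hrB, hrρ⟩ := hB ρ hρ
    set x := γ * ρ * γ⁻¹ with hx
    have hxu : x ^ i = u := by rw [hx, conj_zpow, hi]; group
    have hi0 : i ≠ 0 := by
      rintro rfl
      exact h1 (by rw [← hxu, zpow_zero])
    have hcomm : Commute x u := hxu ▸ Commute.self_zpow x i
    have hxγ : x * γ = γ * s.w r := by rw [hx, hrρ]; group
    have hxe : x • e = e := by
      rw [← hγ, smul_ed, hxγ]
      exact (s.ed_eq_iff.2 ⟨r, hr, rfl⟩).symm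
    have hxv : x • a (m + 1) = a (m + 1) := by rw [had]; exact Inc.fix s hinc hxe
    have hxf := s.fix_stretch D hC hX h1 hcomm hp huf hnon le_rfl hxv
    have hc0 : s.CycE (FC (FS' N + N) + FL B) x (ee 0) := by
      have hs := hst N u (a 0) (ee 0) h1 huN (ha0 ▸ hsm) (s.ex_join_left (hp.1 0 hpos))
        (huf 0 hpos) (hnon 0 hpos)
      have h2 := hcy (FS' N + N) u (ee 0) (by omega) (s.ex_smE_mono hs (Nat.le_add_right _ _))
        (huf 0 hpos)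
      rw [← hxu] at h2
      exact CycE.mono s (s.cycE_root (hxf 0 hpos) hi0 h2) (Nat.le_add_right _ _)
    have hcm : s.CycE (FC (FS' N + N) + FL B) x (ee m) := by
      have hlt : m < m + 1 := Nat.lt_succ_self m
      have hce : s.CycE B x e := ⟨γ, hγ, r, hr, hrB, hxγ⟩
      have hne : ee m ≠ e := fun h => hnon m hlt (h ▸ ⟨γ, ρ, hρ, hγ, hm⟩)
      refine CycE.mono s ?_ (Nat.le_add_left _ _)
      rcases s.arr_of_nonex D hC hX h1 hne (s.ex_join_right (hp.1 m hlt)) (had ▸ hinc)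
        (huf m hlt) hue (hnon m hlt) with har | har
      · exact (hlip B x _ _ har (hxf m hlt) hxe).2 hce
      · exact (hlip B x _ _ har hxe (hxf m hlt)).1 hce
    rcases hstr _ m u x a ee h1 (Subgroup.mem_zpowers_iff.2 ⟨i, hxu⟩) hp
      (fun i hi => hxf i (Nat.lt_succ_of_le hi)) (fun i hi => hnon i (Nat.lt_succ_of_le hi))
      hc0 hcm with hle | ⟨h, p, q, hpq, hq, hhx, hh⟩
    · omega
    · exfalso
      have hhu : h * u * h⁻¹ = u := by
        have : Commute h u := hxu ▸ hhx.zpow_right i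
        rw [this.eq]; group
      have hex' : s.Ex C1 u (h • e) := hhu ▸ Ex.smul s ⟨γ, ρ, hρ, hγ, hm⟩ h
      have h2 := hmin _ _ hex' (s.ex_inc_smul hinc h)
      have h3 := ZT.dist_tri (s.T_reach v₀ (a p)) (s.T_reach (a p) (h • v))
      have h4 : s.T.dist (a p) (h • v) = m + 1 - q := by
        rw [← hh, s.T_acts.dist, ← had, Pth.dist s hp (by omega) le_rfl]
      rw [hdist p (by omega), h4] at h3
      omega
  have hsv := hwk (N + FR (FC (FS' N + N) + FL B) + 1) d u a ee h1 (by omega) (by omega)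
    (s.ex_smV_mono (ha0 ▸ hsm) (by omega)) hp fun i hi => ⟨huf i hi, hnon i hi⟩
  rw [had] at hsv
  exact hat _ u v e h1 (huN.trans (Nat.le_add_left _ _))
    (s.ex_smV_mono hsv (Nat.le_add_right _ _)) hinc hex

end St
end CPOR
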