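import Pool.Agent.P.MP_2cb329_al.FL

/-! Elliptic elements: stretches of non-exceptional edges. -/

set_option autoImplicit false

namespace CPOR

/-- Conjugating a cyclically short element of a Magnus subgroup into a nearby one. -/
theorem ex1_key {L : Lv} (hH : L.Cl) {S S' : Set L.X} (hS : L.Adm S) (hS' : L.Adm S') :
    ∃ F, Bd F ∧ ∀ (n : ℕ) (ξ : L.G) (f a : FreeGroup L.X), len L.π ξ ≤ n → f ∈ FS S →
      (a⁻¹ * f * a).norm ≤ n → ξ⁻¹ * L.π f * ξ ∈ MS L.π S' →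
      ∃ b ∈ FS S', ∃ f' ∈ FS S', f'.norm ≤ F n ∧
        L.π f' = (L.π b)⁻¹ * (ξ⁻¹ * L.π f * ξ) * L.π b := by
  obtain ⟨Fd, hFd, hd⟩ := hH.dc2 S S' hS hS'
  obtain ⟨Fm, hFm, hm⟩ := hH.mem S hS
  obtain ⟨Fm', hFm', hm'⟩ := hH.mem S' hS'
  refine ⟨fun n => Fm' (n + (n + 2 * Fm (Fd n)) + n), hFm'.comp
    ((Bd.id.add (Bd.id.add ((Bd.const 2).mul (hFm.comp hFd)))).add Bd.id), ?_⟩
  intro n ξ f a hξ hf ha hx
  set K : Subgroup (FreeGroup L.X) := FS S ⊓ (cj ξ (MS L.π S')).comap L.π with hK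
  have hg : GenBy FreeGroup.norm (Fm (Fd n)) K := by
    intro q hq
    have h1 : ∀ y ∈ Subgroup.closure {k | k ∈ MS L.π S ⊓ cj ξ (MS L.π S') ∧ len L.π k ≤ Fd n},
        ∃ q' ∈ Subgroup.closure {k | k ∈ K ∧ k.norm ≤ Fm (Fd n)}, L.π q' = y := by
      intro y hy
      induction hy using Subgroup.closure_induction with
      | mem y hy =>
        obtain ⟨⟨⟨q', hq', rfl⟩, h2⟩, h3⟩ := hy
        exact ⟨q', Subgroup.subset_closure ⟨⟨hq', h2⟩, (hm q' hq').trans (hFm.mono h3)⟩, rfl⟩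
      | one => exact ⟨1, Subgroup.one_mem _, map_one _⟩
      | mul y y' _ _ h h' =>
        obtain ⟨q1, h1, rfl⟩ := h
        obtain ⟨q2, h2, rfl⟩ := h'
        exact ⟨q1 * q2, Subgroup.mul_mem _ h1 h2, map_mul _ _ _⟩
      | inv y _ h =>
        obtain ⟨q1, h1, rfl⟩ := h
        exact ⟨q1⁻¹, Subgroup.inv_mem _ h1, map_inv _ _⟩
    obtain ⟨q', hq', he⟩ := h1 (L.π q) (hd n ξ hξ ⟨⟨q, hq.1, rfl⟩, hq.2⟩)
    have h2 : q' ∈ K := (Subgroup.closure_le K).2 (fun _ h => h.1) hq'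
    rwa [← L.inj_FS hS h2.1 hq.1 he]
  obtain ⟨k, hk, hn⟩ := conj_in_sub hg (q := f) ⟨hf, mem_cj.2 hx⟩ ha
  obtain ⟨b, hb, eb⟩ := mem_MS.1 (mem_cj.1 hk.2)
  obtain ⟨f₁, hf₁, e₁⟩ := mem_MS.1 hx
  have hf' : b⁻¹ * f₁ * b ∈ FS S' := (FS _).mul_mem ((FS _).mul_mem ((FS _).inv_mem hb) hf₁) hb
  have e₂ : L.π (b⁻¹ * f₁ * b) = (L.π b)⁻¹ * (ξ⁻¹ * L.π f * ξ) * L.π b := by
    rw [map_mul, map_mul, map_inv, e₁]
  refine ⟨b, hb, _, hf', (hm' _ hf').trans (hFm'.mono ?_), e₂⟩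
  have e₃ : L.π (b⁻¹ * f₁ * b) = ξ⁻¹ * L.π (k⁻¹ * f * k) * ξ := by
    rw [e₂, eb, map_mul, map_mul, map_inv]; group
  have h3 := len_mul3 L.surj ξ⁻¹ (L.π (k⁻¹ * f * k)) ξ
  have h4 := len_le (π := L.π) (k⁻¹ * f * k)
  rw [len_inv L.surj] at h3
  rw [e₃]
  omega

namespace St

theorem ex1_arr {L L' : Lv} (s : St L L') {Ξ : Finset L'.G} {e e' : s.Ed} (h : s.Arr Ξ e e') :
    ∃ p, ∃ ξ ∈ Ξ, s.ed p = e ∧ s.ed (p * s.t * s.j ξ) = e' := by
  classical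
  obtain ⟨g, g', rfl, rfl, c, hc, α, β, he⟩ := h
  obtain ⟨ξ, hξ, rfl⟩ := Finset.mem_image.1 hc
  change g⁻¹ * g' = s.bS s.SA α * (s.t * s.j ξ) * s.bS s.SA β at he
  refine ⟨g * s.bS s.SA α, ξ, hξ, QuotientGroup.eq.2 (MonoidHom.mem_range.2 ⟨α⁻¹, ?_⟩),
    QuotientGroup.eq.2 (MonoidHom.mem_range.2 ⟨β, ?_⟩)⟩
  · rw [map_inv]; group
  rw [show g' = g * (g⁻¹ * g') by group, he]; group

theorem ex1_fix {L L' : Lv} (s : St L L') {x p : L.G} (h : x • s.ed p = s.ed p) :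
    ∃ f ∈ FS s.SA, x * p = p * s.w f :=
  (s.ed_eq_iff (g := p) (g' := x * p)).1 h.symm

theorem ex1_cyc {L L' : Lv} (s : St L L') {n : ℕ} {x p : L.G} {f₀ : FreeGroup L'.X}
    (h : s.CycE n x (s.ed p)) (hf₀ : f₀ ∈ FS s.SA) (e₀ : x * p = p * s.w f₀) :
    ∃ a ∈ FS s.SA, (a⁻¹ * f₀ * a).norm ≤ n := by
  obtain ⟨g, hg, f, hf, hn, he⟩ := h
  obtain ⟨a, ha, rfl⟩ := s.ed_eq_iff.1 hg.symm
  refine ⟨a, ha, ?_⟩
  have : a⁻¹ * f₀ * a = f := by
    refine s.w_inj s.adm_A ((FS _).mul_mem ((FS _).mul_mem ((FS _).inv_mem ha) hf₀) ha) hf ?_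
    rw [← mul_assoc, e₀] at he
    rw [map_mul, map_mul, map_inv,
      show s.w f = (p * s.w a)⁻¹ * (p * s.w a * s.w f) by group, ← he]
    group
  rwa [this]

variable {L L' : Lv} (s : St L L') (D : s.AD) {C : Finset L'.G} {C1 : Finset L.G}
  (hC : D.C0 ⊆ C) (hX : s.ExSet C C1)
include hC hX

theorem arr_of_nonex {z : L.G} (hz : z ≠ 1) {e e' : s.Ed} {v : s.Vt} (hne : e ≠ e')
    (h1 : s.Inc e v) (h2 : s.Inc e' v) (he : z • e = e) (he' : z • e' = e')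
    (hn : ¬ s.Ex C1 z e) : s.Arr D.Ξ e e' ∨ s.Arr D.Ξ e' e := by
  rcases D.e0 e e' v hne h1 h2 with h | h | ⟨γ, c, hc, hv, hle⟩
  · exact Or.inl h
  · exact Or.inr h
  · exact absurd (hX.2 z γ e c (hC hc) hz he (hv ▸ h1) (hle ⟨he, he'⟩)) hn

/-- A non-exceptional edge is the only fixed edge of its type at each of its ends. -/
theorem eq_of_nonex {z : L.G} (hz : z ≠ 1) {e e' : s.Ed}
    (ht : s.src e = s.src e' ∨ s.tgt e = s.tgt e') (he : z • e = e) (he' : z • e' = e')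
    (hn : ¬ s.Ex C1 z e) : e = e' := by
  by_contra hne
  have key : s.Arr D.Ξ e e' ∨ s.Arr D.Ξ e' e := by
    rcases ht with h | h
    · exact s.arr_of_nonex D hC hX hz hne (v := s.src e) (Or.inl rfl) (Or.inl h.symm) he he' hn
    · exact s.arr_of_nonex D hC hX hz hne (v := s.tgt e) (Or.inr rfl) (Or.inr h.symm) he he' hn
  rcases key with h | h <;> have h' := Arr.tgt_eq s h <;> rcases ht with h1 | h1
  · exact s.src_ne_tgt e (h1.trans h'.symm)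
  · exact s.src_ne_tgt e' (h'.symm.trans h1)
  · exact s.src_ne_tgt e' (h1.symm.trans h'.symm)
  · exact s.src_ne_tgt e (h'.symm.trans h1.symm)

/-- An element that commutes with `z` and fixes one vertex of a non-exceptional stretch fixes
the whole stretch. -/
theorem fix_stretch {z x : L.G} (hz : z ≠ 1) (hc : Commute x z) {a : ℕ → s.Vt} {e : ℕ → s.Ed}
    {n : ℕ} (hp : s.Pth a e n) (hf : ∀ i < n, z • e i = e i) (hn : ∀ i < n, ¬ s.Ex C1 z (e i))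
    {i₀ : ℕ} (hi : i₀ ≤ n) (hx : x • a i₀ = a i₀) : ∀ i < n, x • e i = e i := by
  have step : ∀ i < n, ∀ v, s.Inc (e i) v → x • v = v → x • e i = e i := by
    intro i hi v hv hxv
    refine (s.eq_of_nonex D hC hX hz ?_ (hf i hi) ?_ (hn i hi)).symm
    · rcases hv with h | h
      · left; rw [smul_src, h, hxv]
      · right; rw [smul_tgt, h, hxv]
    · rw [← mul_smul, ← hc.eq, mul_smul, hf i hi]
  have inc0 : ∀ i < n, s.Inc (e i) (a i) := fun i hi =>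
    (hp.1 i hi).elim (fun h => Or.inl h.1) fun h => Or.inr h.2
  have inc1 : ∀ i < n, s.Inc (e i) (a (i + 1)) := fun i hi =>
    (hp.1 i hi).elim (fun h => Or.inr h.2) fun h => Or.inl h.1
  have up : ∀ d, i₀ + d ≤ n → x • a (i₀ + d) = a (i₀ + d) := by
    intro d
    induction d with
    | zero => exact fun _ => hx
    | succ d ih =>
      intro hd
      have hlt : i₀ + d < n := by omega
      exact Inc.fix s (inc1 _ hlt) (step _ hlt _ (inc0 _ hlt) (ih hlt.le))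
  have dn : ∀ d, d ≤ i₀ → x • a (i₀ - d) = a (i₀ - d) := by
    intro d
    induction d with
    | zero => exact fun _ => hx
    | succ d ih =>
      intro hd
      have hlt : i₀ - (d + 1) < n := by omega
      refine Inc.fix s (inc0 _ hlt) (step _ hlt _ (inc1 _ hlt) ?_)
      rw [show i₀ - (d + 1) + 1 = i₀ - d by omega]
      exact ih (by omega)
  intro i hi'
  refine step i hi' _ (inc0 i hi') ?_
  rcases le_total i₀ i with h | h
  · have := up (i - i₀) (by omega)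
    rwa [show i₀ + (i - i₀) = i by omega] at this
  · have := dn (i₀ - i) (by omega)
    rwa [show i₀ - (i₀ - i) = i by omega] at this

omit hC hX in
/-- (LIP) -/
theorem lip_arr (hH : L'.Cl) : ∃ F, Bd F ∧ ∀ (n : ℕ) (x : L.G) (e e' : s.Ed), s.Arr D.Ξ e e' →
    x • e = e → x • e' = e' →
    (s.CycE n x e → s.CycE (F n) x e') ∧ (s.CycE n x e' → s.CycE (F n) x e) := by
  obtain ⟨F₁, hF₁, k₁⟩ := ex1_key hH s.adm_B s.adm_A
  obtain ⟨F₂, hF₂, k₂⟩ := ex1_key hH s.adm_A s.adm_B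
  set c := D.Ξ.sup (len L'.π) with hc
  refine ⟨fun n => F₁ (n + c) + F₂ (n + c),
    (hF₁.comp (Bd.id.add (Bd.const c))).add (hF₂.comp (Bd.id.add (Bd.const c))), ?_⟩
  intro n x e e' har he he'
  obtain ⟨p, ξ, hξ, rfl, rfl⟩ := s.ex1_arr har
  have hl : len L'.π ξ ≤ n + c := (Finset.le_sup (f := len L'.π) hξ).trans (Nat.le_add_left _ _)
  obtain ⟨f₀, hf₀, e₀⟩ := s.ex1_fix he
  obtain ⟨f₁, hf₁, e₁⟩ := s.ex1_fix he'
  have hw : ∀ f, s.w f = s.j (L'.π f) := fun _ => rfl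
  have hx0 : x = p * s.w f₀ * p⁻¹ := by rw [← e₀]; group
  have hsh := s.conj_w hf₀
  have rel : ξ⁻¹ * L'.π (s.sh f₀) * ξ = L'.π f₁ := by
    apply s.j_inj
    rw [map_mul, map_mul, map_inv, ← hw, ← hw, ← hsh]
    have : s.w f₁ = (p * s.t * s.j ξ)⁻¹ * (x * (p * s.t * s.j ξ)) := by rw [e₁]; group
    rw [this, hx0]; group
  constructor
  · intro h
    obtain ⟨a, ha, hn⟩ := s.ex1_cyc h hf₀ e₀
    obtain ⟨b, hb, f', hf', hn', hr⟩ := k₁ (n + c) ξ (s.sh f₀) (s.sh a) hl (s.sh_mem hf₀) (by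
      rw [← map_inv, ← map_mul, ← map_mul,
        s.sh_norm ((FS _).mul_mem ((FS _).mul_mem ((FS _).inv_mem ha) hf₀) ha)]
      omega) (rel ▸ ⟨f₁, hf₁, rfl⟩)
    refine ⟨p * s.t * s.j ξ * s.w b, (s.ed_eq_iff.2 ⟨b, hb, rfl⟩).symm, f', hf',
      hn'.trans (Nat.le_add_right _ _), ?_⟩
    rw [rel] at hr
    rw [← mul_assoc x, e₁, hw f', hr, map_mul, map_mul, map_inv, ← hw, ← hw]; group
  · intro h
    obtain ⟨a, ha, hn⟩ := s.ex1_cyc h hf₁ e₁
    have rel' : ξ⁻¹⁻¹ * L'.π f₁ * ξ⁻¹ = L'.π (s.sh f₀) := by rw [← rel]; group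
    obtain ⟨b, hb, f', hf', hn', hr⟩ := k₂ (n + c) ξ⁻¹ f₁ a (by rwa [len_inv L'.surj]) hf₁
      (by omega) (rel' ▸ ⟨_, s.sh_mem hf₀, rfl⟩)
    obtain ⟨b, hb', rfl⟩ := s.sh_surj hb
    obtain ⟨f', hf'', rfl⟩ := s.sh_surj hf'
    rw [s.sh_norm hf''] at hn'
    refine ⟨p * s.w b, (s.ed_eq_iff.2 ⟨b, hb', rfl⟩).symm, f', hf'',
      hn'.trans (Nat.le_add_left _ _), ?_⟩
    rw [rel'] at hr
    have h2 : s.w (s.sh f') = (s.w (s.sh b))⁻¹ * s.w (s.sh f₀) * s.w (s.sh b) := by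
      rw [hw, hr, map_mul, map_mul, map_inv]; rfl
    rw [← s.conj_w hf'', ← s.conj_w hb', ← hsh] at h2
    have h3 : s.w f' = s.t * (s.t⁻¹ * s.w f' * s.t) * s.t⁻¹ := by group
    rw [h3, h2, hx0]; group

omit D hC hX in
/-- The cyclic length of a root is at most that of the power. -/
theorem cycE_root {n : ℕ} {x : L.G} {e : s.Ed} (hx : x • e = e) {m : ℤ} (hm : m ≠ 0)
    (h : s.CycE n (x ^ m) e) : s.CycE n x e := by
  obtain ⟨g, rfl, f, hf, hn, hg⟩ := h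
  obtain ⟨f₀, hf₀, e₀⟩ := s.ex1_fix hx
  refine ⟨g, rfl, f₀, hf₀, ?_, e₀⟩
  have hx0 : x = g * s.w f₀ * g⁻¹ := by rw [← e₀]; group
  have : f₀ ^ m = f := by
    refine s.w_inj s.adm_A ((FS _).zpow_mem hf₀ m) hf ?_
    rw [hx0, conj_zpow, inv_mul_cancel_right] at hg
    rw [map_zpow]
    exact mul_left_cancel hg
  exact (norm_le_norm_zpow f₀ hm).trans (this ▸ hn)

omit D hC hX in
theorem cycE_of_small (hH : L'.Cl) : ∃ F, Bd F ∧ ∀ (n : ℕ) (x : L.G) (e : s.Ed),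
    len L.π x ≤ n → s.SmE n e → x • e = e → s.CycE (F n) x e := by
  obtain ⟨F, hF, h⟩ := s.memW hH s.adm_A
  refine ⟨fun n => F (n + n + n), hF.comp ((Bd.id.add Bd.id).add Bd.id), ?_⟩
  rintro n x _ hx ⟨g, rfl, hg⟩ he
  obtain ⟨f, hf, e₀⟩ := s.ex1_fix he
  refine ⟨g, rfl, f, hf, (h f hf).trans (hF.mono ?_), e₀⟩
  rw [show s.w f = g⁻¹ * x * g by rw [mul_assoc, e₀]; group]
  have := len_mul3 L.surj g⁻¹ x g
  rw [len_inv L.surj] at this
  omega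

theorem stretch_mono : ∃ F, Bd F ∧ ∀ (m n : ℕ) (z x : L.G) (e : ℕ → s.Ed), z ≠ 1 →
    z ∈ Subgroup.zpowers x → (∀ i < n, s.tgt (e i) = s.src (e (i + 1))) →
    (∀ i ≤ n, x • e i = e i) →
    (∀ i ≤ n, ¬ s.Ex C1 z (e i)) → s.CycE m x (e 0) → s.CycE m x (e n) →
    n ≤ F m ∨ ∃ (h : L.G) (i j : ℕ), i < j ∧ j ≤ n ∧ Commute h x ∧ h • e i = e j := by
  obtain ⟨F, hF, key⟩ := D.g1
  refine ⟨F, hF, fun m n z x e hz hzx hm hf hn c0 c1 => ?_⟩
  have zf : ∀ e' : s.Ed, x • e' = e' → z • e' = e' := fun e' h =>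
    (Subgroup.zpowers_le (H := MulAction.stabilizer L.G e')).2 h hzx
  have hx : x ≠ 1 := by
    rintro rfl
    rw [Subgroup.zpowers_one_eq_bot] at hzx
    exact hz hzx
  choose y hy using fun i => QuotientGroup.mk_surjective (e i)
  have hy' : ∀ i, s.ed (y i) = e i := hy
  have nd : ∀ g, (s.flow D.Ξ).nd g = s.ed g := fun _ => rfl
  obtain ⟨hv, -, hh, -⟩ := s.exists_hv
  have arr : ∀ i < n, s.Arr D.Ξ (e i) (e (i + 1)) := by
    intro i hi
    have h1 := hm i hi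
    refine (s.arr_of_nonex D hC hX hz (fun H => ?_) (v := s.tgt (e i)) (Or.inr rfl)
      (Or.inl h1.symm) (zf _ (hf i hi.le)) (zf _ (hf _ hi)) (hn i hi.le)).resolve_right fun H => ?_
    · rw [← H] at h1
      exact s.src_ne_tgt _ h1.symm
    · have a1 := hh (e i)
      have a2 := hh (e (i + 1))
      rw [Arr.tgt_eq s H, ← h1] at a2
      omega
  have := key m n x y hx (fun i hi => Arr.conn s (by rw [hy', hy']; exact arr i hi))
    (fun i hi => by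
      have := hf i hi
      rw [← hy'] at this
      exact this)
    (fun i hi κ hκ hfix => by
      have h1 := Arr.tgt_eq s (s.arr_of_conn (y i) hκ).1
      rw [hy', hm i hi] at h1
      have := s.eq_of_nonex D hC hX hz (Or.inl h1) (zf _ (hf _ hi)) (zf _ hfix) (hn _ hi)
      rw [← hy'] at this
      exact this.symm)
    (fun i hi κ hκ hfix => by
      have h1 := Arr.tgt_eq s (s.arr_of_conn (y (i + 1)) hκ).2
      rw [hy', ← hm i hi] at h1
      have := s.eq_of_nonex D hC hX hz (Or.inr h1.symm) (zf _ (hf _ hi.le)) (zf _ hfix)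
        (hn _ hi.le)
      rw [← hy'] at this
      exact this.symm)
    ((s.cycLe_iff _ _ _ _).2 (by rwa [hy'])) ((s.cycLe_iff _ _ _ _).2 (by rwa [hy']))
  rcases this with H | ⟨h, i, j, h1, h2, h3, h4⟩
  · exact Or.inl H
  · refine Or.inr ⟨h, i, j, h1, h2, h3, ?_⟩
    rw [← hy', ← hy']
    exact h4

/-- (STRETCH) -/
theorem stretch : ∃ F, Bd F ∧ ∀ (m n : ℕ) (z x : L.G) (a : ℕ → s.Vt) (e : ℕ → s.Ed), z ≠ 1 →
    z ∈ Subgroup.zpowers x → s.Pth a e (n + 1) → (∀ i ≤ n, x • e i = e i) →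
    (∀ i ≤ n, ¬ s.Ex C1 z (e i)) → s.CycE m x (e 0) → s.CycE m x (e n) →
    n ≤ F m ∨ ∃ (h : L.G) (i j : ℕ), i < j ∧ j ≤ n ∧ Commute h x ∧ h • a j = a i := by
  obtain ⟨F, hF, key⟩ := s.stretch_mono D hC hX
  refine ⟨F, hF, fun m n z x a e hz hzx hp hf hn c0 c1 => ?_⟩
  have zf : ∀ e' : s.Ed, x • e' = e' → z • e' = e' := fun e' h =>
    (Subgroup.zpowers_le (H := MulAction.stabilizer L.G e')).2 h hzx
  have turn : ∀ i, i + 1 < n + 1 →
      ¬ (s.src (e i) = s.src (e (i + 1)) ∨ s.tgt (e i) = s.tgt (e (i + 1))) := fun i hi h =>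
    Pth.ne s hp (Nat.lt_succ_self i) hi (s.eq_of_nonex D hC hX hz h (zf _ (hf i (by omega)))
      (zf _ (hf (i + 1) (by omega))) (hn i (by omega)))
  rcases Pth.mono_or s hp (fun i hi => not_or.1 (turn i hi)) with h | h
  · rcases key m n z x e hz hzx
      (fun i hi => by rw [(h i (by omega)).2, (h (i + 1) (by omega)).1]) hf hn c0 c1 with
      H | ⟨g, i, j, hij, hj, hg, he⟩
    · exact Or.inl H
    · refine Or.inr ⟨g⁻¹, i, j, hij, hj, hg.inv_left, ?_⟩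
      rw [inv_smul_eq_iff, ← (h i (by omega)).1, ← (h j (by omega)).1, ← smul_src, he]
  · rcases key m n z x (fun i => e (n - i)) hz hzx
      (fun i hi => by
        rw [(h (n - i) (by omega)).1, (h (n - (i + 1)) (by omega)).2,
          show n - (i + 1) + 1 = n - i by omega])
      (fun i _ => hf _ (by omega)) (fun i _ => hn _ (by omega)) (by simpa using c1)
      (by simpa using c0) with H | ⟨g, i, j, hij, hj, hg, he⟩
    · exact Or.inl H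
    · refine Or.inr ⟨g, n - j, n - i, by omega, by omega, hg, ?_⟩
      rw [← (h (n - i) (by omega)).1, ← (h (n - j) (by omega)).1, ← smul_tgt, he]

end St
end CPOR
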