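import Pool.Agent.P.MP_2cb329_al.FG

/-! Free groups: free factors, centralisers, conjugacy, powers. -/

set_option autoImplicit false

namespace CPOR

open FreeGroup

variable {Y : Type} [DecidableEq Y]

theorem exists_axis {x : FreeGroup Y} (hx : x ≠ 1) :
    ∃ (a : ℤ → FreeGroup Y) (l : ℕ), ZT.IsAxis (cay Y) x a l ∧
      ∀ i : ℤ, 0 ≤ i → i ≤ l → FB 1 (a i) x := by
  rcases ZT.ell_or_hyp cay_acyclic cay_acts cay_noinv x (x := 1) (cay_reach _ _) with
    ⟨p, -, hp⟩ | ⟨a, l, ha, hb⟩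
  · exact absurd (mul_eq_right.1 hp) hx
  · refine ⟨a, l, ha, fun i h0 h1 => ?_⟩
    have := cay_btw.1 (hb i h0 h1)
    rwa [smul_eq_mul, mul_one] at this

theorem FB.norm_le {g f : FreeGroup Y} (h : FB 1 g f) : g.norm ≤ f.norm := by
  unfold FB at h
  simp only [inv_one, one_mul] at h
  omega

theorem axis_mem {S : Set Y} {x h : FreeGroup Y} {a : ℤ → FreeGroup Y} {l : ℕ}
    (ha : ZT.IsAxis (cay Y) x a l) (h2 : h⁻¹ * x * h ∈ FS S) (i : ℤ) : h⁻¹ * a i ∈ FS S := by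
  refine ha.mem_cvx cay_acyclic cay_acts (cvx_FS S h) (c := h) (fun y => ?_) ?_ (cay_reach _ _) i
  · show h⁻¹ * (x * y) ∈ FS S ↔ h⁻¹ * y ∈ FS S
    rw [show h⁻¹ * (x * y) = (h⁻¹ * x * h) * (h⁻¹ * y) by group]
    exact Subgroup.mul_mem_cancel_left _ h2
  · show h⁻¹ * h ∈ FS S
    rw [inv_mul_cancel]
    exact one_mem _

omit [DecidableEq Y] in
theorem zpow_eq_pow_or (f : FreeGroup Y) (n : ℤ) :
    f ^ n = f ^ n.natAbs ∨ f ^ n = (f ^ n.natAbs)⁻¹ := by
  rcases Int.natAbs_eq n with h | h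
  · left
    rw [← zpow_natCast, ← h]
  · right
    rw [← zpow_natCast, ← zpow_neg, ← h]

theorem norm_zpow_eq (f : FreeGroup Y) (n : ℤ) : (f ^ n).norm = (f ^ n.natAbs).norm := by
  rcases zpow_eq_pow_or f n with h | h
  · rw [h]
  · rw [h, FreeGroup.norm_inv_eq]

omit [DecidableEq Y] in
theorem trans_zpow {g : FreeGroup Y} {a : ℤ → FreeGroup Y} {c : ℤ}
    (h : ∀ i, g * a i = a (i + c)) (n i : ℤ) : g ^ n * a i = a (i + n * c) := by
  induction n using Int.induction_on generalizing i with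
  | zero => simp
  | succ n ih =>
    rw [zpow_add_one, mul_assoc, h, ih]
    congr 1
    ring
  | pred n ih =>
    have e := h (i - c)
    rw [sub_add_cancel] at e
    rw [zpow_sub_one, mul_assoc, ← e, inv_mul_cancel_left, ih]
    congr 1
    ring

omit [DecidableEq Y] in
theorem commute_of_trans {g z : FreeGroup Y} {a : ℤ → FreeGroup Y} {c d : ℤ}
    (h : ∀ i, g * a i = a (i + c)) (h' : ∀ i, z * a i = a (i + d)) : Commute g z := by
  have e : g * z * a 0 = z * g * a 0 := by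
    rw [mul_assoc, mul_assoc, h, h', h, h']
    congr 1
    ring
  exact mul_right_cancel e

theorem trans_of_commute {g z : FreeGroup Y} {a : ℤ → FreeGroup Y} {l : ℕ}
    (ha : ZT.IsAxis (cay Y) z a l) (h : Commute g z) : ∃ c : ℤ, ∀ i, g * a i = a (i + c) := by
  have h1 := ha.conj cay_acts g
  rw [h.eq, mul_inv_cancel_right] at h1
  exact (ha.unique cay_acyclic cay_acts h1 (cay_reach _ _)).2

theorem conj_short_aux {u v g : FreeGroup Y} (h : g⁻¹ * u * g = v) :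
    ∃ y y' : FreeGroup Y, FB 1 y u ∧ FB 1 y' v ∧ (y * y'⁻¹)⁻¹ * u * (y * y'⁻¹) = v := by
  by_cases hu : u = 1
  · subst hu
    have hv : v = 1 := by rw [← h]; group
    subst hv
    exact ⟨1, 1, by simp [FB], by simp [FB], by group⟩
  have hv : v ≠ 1 := by
    rintro rfl
    apply hu
    have : u = g * (g⁻¹ * u * g) * g⁻¹ := by group
    rw [this, h]
    group
  obtain ⟨a, l, ha, hb⟩ := exists_axis hu
  obtain ⟨b, l', ha', hb'⟩ := exists_axis hv
  have h1 := ha'.conj cay_acts g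
  rw [show g * v * g⁻¹ = u by rw [← h]; group] at h1
  obtain ⟨-, c, hc⟩ := ha.unique cay_acyclic cay_acts h1 (cay_reach _ _)
  have hl : (0 : ℤ) < l := by exact_mod_cast ha.2.1
  refine ⟨a (c % l), b 0, hb _ (Int.emod_nonneg _ hl.ne') (Int.emod_lt_of_pos _ hl).le,
    hb' 0 le_rfl (Int.natCast_nonneg _), ?_⟩
  have e1 : g * b 0 = a c := by simpa using hc 0
  have e2 : u ^ (-(c / l)) * a c = a (c % l) := by
    have := ha.zpow_smul (-(c / l)) c
    rw [smul_eq_mul] at this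
    rw [this]
    congr 1
    have := Int.emod_add_ediv_mul c l
    linarith
  rw [← e2, ← e1, ← h]
  group

theorem norm_pow_axis {x : FreeGroup Y} {a : ℤ → FreeGroup Y} {l : ℕ}
    (ha : ZT.IsAxis (cay Y) x a l) :
    ∃ i : ℤ, (∀ j, FB 1 (a i) (a j)) ∧ x.norm = l + 2 * (a i).norm := by
  obtain ⟨i, h1, h2, -⟩ := ha.disp cay_acyclic cay_acts (p := 1) (cay_reach _ _)
  refine ⟨i, fun j => cay_btw.1 (h1 j), ?_⟩
  simpa [cay_dist] using h2

/-- (FF) conjugates of basis-subset subgroups meet trivially unless the cosets meet. -/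
theorem ff_lemma {S S' : Set Y} {x h : FreeGroup Y} (hx : x ≠ 1) (h1 : x ∈ FS S)
    (h2 : h⁻¹ * x * h ∈ FS S') : ∃ a ∈ FS S, ∃ b ∈ FS S', h = a * b := by
  obtain ⟨a, l, ha, -⟩ := exists_axis hx
  have e1 := axis_mem (h := 1) ha (by simpa using h1) 0
  have e2 := axis_mem ha h2 0
  refine ⟨a 0, by simpa using e1, (h⁻¹ * a 0)⁻¹, inv_mem e2, by group⟩

theorem FS_root {S : Set Y} {f : FreeGroup Y} {n : ℤ} (hn : n ≠ 0) (h : f ^ n ∈ FS S) :
    f ∈ FS S := by
  by_cases hf : f = 1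
  · rw [hf]
    exact one_mem _
  obtain ⟨a, l, ha, -⟩ := exists_axis hf
  have hm : f ^ n.natAbs ∈ FS S := by
    rcases zpow_eq_pow_or f n with e | e
    · rwa [← e]
    · rw [e] at h
      exact inv_mem_iff.1 h
  have h1 := ha.pow (n := n.natAbs) (Int.natAbs_pos.2 hn)
  have e : ∀ i, a i ∈ FS S := fun i => by
    simpa using axis_mem (h := 1) h1 (by simpa using hm) i
  have e2 : f * a 0 = a (0 + l) := ha.2.2 0
  have e3 : f = a (0 + l) * (a 0)⁻¹ := by rw [← e2]; group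
  rw [e3]
  exact mul_mem (e _) (inv_mem (e _))

theorem zpow_ne_one {f : FreeGroup Y} (hf : f ≠ 1) {n : ℤ} (hn : n ≠ 0) : f ^ n ≠ 1 := by
  obtain ⟨a, l, ha, -⟩ := exists_axis hf
  intro h
  have e := ha.zpow_smul n 0
  rw [h, one_smul] at e
  have e2 := ha.1.inj cay_acyclic e
  have hl : (l : ℤ) ≠ 0 := by
    have := ha.2.1
    omega
  exact mul_ne_zero hn hl (by linarith)

theorem commute_of_zpow {z g : FreeGroup Y} {n : ℤ} (hn : n ≠ 0) (h : Commute g (z ^ n)) :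
    Commute g z := by
  by_cases hz : z = 1
  · rw [hz]
    exact Commute.one_right g
  obtain ⟨a, l, ha, -⟩ := exists_axis hz
  have hm : Commute g (z ^ n.natAbs) := by
    rcases zpow_eq_pow_or z n with e | e
    · rwa [← e]
    · rw [e] at h
      exact Commute.inv_right_iff.1 h
  obtain ⟨c, hc⟩ := trans_of_commute (ha.pow (n := n.natAbs) (Int.natAbs_pos.2 hn)) hm
  exact commute_of_trans hc ha.2.2

/-- (CEN) centralisers of nontrivial elements are cyclic. -/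
theorem cen_cyclic {z : FreeGroup Y} (hz : z ≠ 1) :
    ∃ ρ, ∀ g, Commute g z ↔ g ∈ Subgroup.zpowers ρ := by
  obtain ⟨a, l, ha, -⟩ := exists_axis hz
  let H : AddSubgroup ℤ :=
    { carrier := {c | ∃ g : FreeGroup Y, ∀ i, g * a i = a (i + c)}
      zero_mem' := ⟨1, fun i => by simp⟩
      add_mem' := by
        rintro c d ⟨g, hg⟩ ⟨k, hk⟩
        refine ⟨g * k, fun i => ?_⟩
        rw [mul_assoc, hk, hg]
        congr 1
        ring
      neg_mem' := by
        rintro c ⟨g, hg⟩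
        refine ⟨g ^ (-1 : ℤ), fun i => ?_⟩
        rw [trans_zpow hg]
        congr 1
        ring }
  obtain ⟨c0, hc0⟩ := Int.subgroup_cyclic H
  have hm : c0 ∈ H := by
    rw [hc0]
    exact AddSubgroup.subset_closure rfl
  obtain ⟨ρ, hρ⟩ := hm
  refine ⟨ρ, fun g => ⟨fun hg => ?_, ?_⟩⟩
  · obtain ⟨c, hc⟩ := trans_of_commute ha hg
    have h1 : c ∈ H := ⟨g, hc⟩
    rw [hc0, AddSubgroup.mem_closure_singleton] at h1
    obtain ⟨k, hk⟩ := h1
    refine ⟨k, mul_right_cancel (b := a 0) ?_⟩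
    show ρ ^ k * a 0 = g * a 0
    rw [trans_zpow hρ, hc, ← hk, smul_eq_mul]
  · rintro ⟨k, rfl⟩
    exact (commute_of_trans hρ ha.2.2).zpow_left k

/-- (CPF) short conjugators. -/
theorem conj_short {u v g : FreeGroup Y} (h : g⁻¹ * u * g = v) :
    ∃ g' : FreeGroup Y, g'⁻¹ * u * g' = v ∧ g'.norm ≤ u.norm + v.norm := by
  obtain ⟨y, y', h1, h2, h3⟩ := conj_short_aux h
  refine ⟨_, h3, le_trans (FreeGroup.norm_mul_le _ _) ?_⟩
  rw [FreeGroup.norm_inv_eq]
  exact Nat.add_le_add h1.norm_le h2.norm_le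

/-- Short conjugators inside `FS S`. -/
theorem conj_short_FS {S : Set Y} {u v g : FreeGroup Y} (hu : u ∈ FS S) (hv : v ∈ FS S)
    (h : g⁻¹ * u * g = v) :
    ∃ g' ∈ FS S, g'⁻¹ * u * g' = v ∧ g'.norm ≤ u.norm + v.norm := by
  obtain ⟨y, y', h1, h2, h3⟩ := conj_short_aux h
  have e1 : y ∈ FS S := by simpa using h1.mem_FS (S := S) (by simpa using hu)
  have e2 : y' ∈ FS S := by simpa using h2.mem_FS (S := S) (by simpa using hv)
  refine ⟨_, mul_mem e1 (inv_mem e2), h3, le_trans (FreeGroup.norm_mul_le _ _) ?_⟩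
  rw [FreeGroup.norm_inv_eq]
  exact Nat.add_le_add h1.norm_le h2.norm_le

/-- An element that is conjugate into `FS S` is so by a short element. -/
theorem conj_into_FS {S : Set Y} {u g : FreeGroup Y} (h : g⁻¹ * u * g ∈ FS S) :
    ∃ g' : FreeGroup Y, g'⁻¹ * u * g' ∈ FS S ∧ FB 1 g' u := by
  by_cases hu : u = 1
  · subst hu
    exact ⟨1, by simp, by simp [FB]⟩
  obtain ⟨a, l, ha, hb⟩ := exists_axis hu
  have e := axis_mem ha h 0
  refine ⟨a 0, ?_, hb 0 le_rfl (Int.natCast_nonneg _)⟩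
  rw [show (a 0)⁻¹ * u * a 0 = (g⁻¹ * a 0)⁻¹ * (g⁻¹ * u * g) * (g⁻¹ * a 0) by group]
  exact mul_mem (mul_mem (inv_mem e) h) e

theorem natAbs_le_norm_conj_zpow {c : FreeGroup Y} (hc : c ≠ 1) (g : FreeGroup Y) (j : ℤ) :
    j.natAbs ≤ (g * c ^ j * g⁻¹).norm := by
  have hx : g * c * g⁻¹ ≠ 1 := by
    intro h
    apply hc
    have : c = g⁻¹ * (g * c * g⁻¹) * g := by group
    rw [this, h]
    group
  rw [← conj_zpow, norm_zpow_eq]
  rcases Nat.eq_zero_or_pos j.natAbs with h0 | h0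
  · omega
  obtain ⟨a, l, ha, -⟩ := exists_axis hx
  obtain ⟨i, -, e⟩ := norm_pow_axis (ha.pow h0)
  have := Nat.le_mul_of_pos_right j.natAbs ha.2.1
  omega

theorem norm_le_norm_zpow (c : FreeGroup Y) {j : ℤ} (hj : j ≠ 0) : c.norm ≤ (c ^ j).norm := by
  by_cases hc : c = 1
  · rw [hc, one_zpow]
  rw [norm_zpow_eq]
  obtain ⟨a, l, ha, -⟩ := exists_axis hc
  have h0 : 1 ≤ j.natAbs := Int.natAbs_pos.2 hj
  obtain ⟨i, h1, e⟩ := norm_pow_axis ha
  obtain ⟨i', -, e'⟩ := norm_pow_axis (ha.pow h0)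
  have h2 : (a i).norm ≤ (a i').norm := (h1 i').norm_le
  have h3 := Nat.le_mul_of_pos_left l h0
  omega

theorem norm_zpow_le (c : FreeGroup Y) (j : ℤ) : (c ^ j).norm ≤ j.natAbs * c.norm := by
  rw [norm_zpow_eq]
  induction j.natAbs with
  | zero => simp
  | succ n ih =>
    rw [pow_succ, Nat.succ_mul]
    exact le_trans (FreeGroup.norm_mul_le _ _) (Nat.add_le_add_right ih _)

/-- The middle of `[1, x^j]` lies in `g * FS S` when `g⁻¹ x g` lies in `FS S`. -/
theorem fb_pow_mem {S : Set Y} {x g z : FreeGroup Y} (h : g⁻¹ * x * g ∈ FS S) (j : ℕ)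
    (hz : FB 1 z (x ^ j)) (h1 : g.norm < z.norm) (h2 : g.norm < (z⁻¹ * x ^ j).norm) :
    g⁻¹ * z ∈ FS S := by
  have hb := cay_btw.2 hz
  rcases hb.or cay_acyclic (cay_reach 1 g) with k | k
  · have := (cay_btw.1 k).norm_le
    omega
  rcases k.or cay_acyclic (cay_reach g (x ^ j * g)) with k' | k'
  · refine (cay_btw.1 k').mem_FS ?_
    rw [show g⁻¹ * (x ^ j * g) = (g⁻¹ * x * g⁻¹⁻¹) ^ j by rw [conj_pow]; group, inv_inv]
    exact pow_mem h j
  · have e := cay_btw.1 k'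
    unfold FB at e
    rw [show (x ^ j * g)⁻¹ * x ^ j = g⁻¹ by group, FreeGroup.norm_inv_eq] at e
    omega

end CPOR
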