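import Pool.Agent.P.MP_2cb329_al.CH

/-! Ranks of subgroups. -/

set_option autoImplicit false

namespace CPOR

variable {Γ : Type} [Group Γ]

theorem isFree_of_le {K V : Subgroup Γ} (hV : IsFreeGroup V) (h : K ≤ V) : IsFreeGroup K := by
  have := hV
  exact IsFreeGroup.ofMulEquiv (Subgroup.subgroupOfEquivOfLe h)

theorem isFree_range {I : Type} (b : FreeGroup I →* Γ) (hb : Function.Injective b) :
    IsFreeGroup b.range :=
  IsFreeGroup.ofMulEquiv (MonoidHom.ofInjective hb)

theorem RkLe.mono {K : Subgroup Γ} {n m : ℕ} (h : RkLe K n) (hnm : n ≤ m) : RkLe K m := by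
  obtain ⟨f, hf⟩ := h
  refine ⟨fun i => if hi : i.val < n then f ⟨i.val, hi⟩ else 1, ?_⟩
  rw [← hf]
  apply le_antisymm
  · rw [Subgroup.closure_le]
    rintro _ ⟨i, rfl⟩
    by_cases hi : i.val < n
    · simp only [hi, dif_pos]
      exact Subgroup.subset_closure ⟨_, rfl⟩
    · simp only [hi, dif_neg, not_false_eq_true]
      exact Subgroup.one_mem _
  · rw [Subgroup.closure_le]
    rintro _ ⟨i, rfl⟩
    refine Subgroup.subset_closure ⟨⟨i.val, lt_of_lt_of_le i.2 hnm⟩, ?_⟩
    simp

theorem RkGe.mono {K : Subgroup Γ} {n m : ℕ} (h : RkGe K n) (hmn : m ≤ n) : RkGe K m := by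
  obtain ⟨χ, hχ⟩ := h
  exact ⟨fun i => χ (Fin.castLE hmn i), hχ.comp (Fin.castLE hmn) (Fin.castLE_injective hmn)⟩

theorem rkGe_zero (K : Subgroup Γ) : RkGe K 0 :=
  ⟨Fin.elim0, linearIndependent_empty_type⟩

theorem RkLe.eq_bot {K : Subgroup Γ} (h : RkLe K 0) : K = ⊥ := by
  obtain ⟨f, hf⟩ := h
  rw [← hf, Set.range_eq_empty f, Subgroup.closure_empty]

theorem RkLe.cyclic {K : Subgroup Γ} (h : RkLe K 1) : ∃ c, K = Subgroup.zpowers c := by
  obtain ⟨f, hf⟩ := h
  refine ⟨f 0, ?_⟩
  rw [← hf, Set.range_unique, Subgroup.zpowers_eq_closure]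
  rfl

theorem rkLe_of_le_zpowers {K : Subgroup Γ} {c : Γ} (h : K ≤ Subgroup.zpowers c) : RkLe K 1 := by
  obtain ⟨n, hn⟩ := (Subgroup.le_zpowers_iff c K).1 h
  refine ⟨fun _ => c ^ n, ?_⟩
  rw [hn, Set.range_const, Subgroup.zpowers_eq_closure]

/-- Two homomorphisms out of `K` that agree on generators agree. -/
theorem hom_trivial_of_gens {K : Subgroup Γ} {J : Type} (f : J → Γ)
    (hf : Subgroup.closure (Set.range f) = K) (hm : ∀ j, f j ∈ K) {ι : Type} [Fintype ι]
    (χ : ι → (K →* Multiplicative ℚ)) (c : ι → ℚ)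
    (h0 : ∀ j, ∑ i, c i * Multiplicative.toAdd (χ i ⟨f j, hm j⟩) = 0) (x : K) :
    ∑ i, c i * Multiplicative.toAdd (χ i x) = 0 := by
  obtain ⟨x, hx⟩ := x
  have hx' : x ∈ Subgroup.closure (Set.range f) := hf ▸ hx
  have key : ∀ y (hy : y ∈ Subgroup.closure (Set.range f)), ∀ hy' : y ∈ K,
      ∑ i, c i * Multiplicative.toAdd (χ i ⟨y, hy'⟩) = 0 := by
    intro y hy
    induction hy using Subgroup.closure_induction with
    | mem z hz =>
      intro hz'
      obtain ⟨j, rfl⟩ := hz
      exact h0 j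
    | one =>
      intro h1
      have : (⟨1, h1⟩ : K) = 1 := rfl
      simp [this]
    | mul a b ha hb iha ihb =>
      intro hab
      have ha' : a ∈ K := hf ▸ ha
      have hb' : b ∈ K := hf ▸ hb
      have : (⟨a * b, hab⟩ : K) = ⟨a, ha'⟩ * ⟨b, hb'⟩ := rfl
      rw [this]
      simp only [map_mul, toAdd_mul, mul_add, Finset.sum_add_distrib]
      rw [iha ha', ihb hb', add_zero]
    | inv a ha iha =>
      intro hai
      have ha' : a ∈ K := hf ▸ ha
      have : (⟨a⁻¹, hai⟩ : K) = (⟨a, ha'⟩ : K)⁻¹ := rfl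
      rw [this]
      simp only [map_inv, toAdd_inv, mul_neg, Finset.sum_neg_distrib]
      rw [iha ha', neg_zero]
  exact key x hx' hx

theorem rk_le {K : Subgroup Γ} {n ρ : ℕ} (h1 : RkLe K n) (h2 : RkGe K ρ) : ρ ≤ n := by
  obtain ⟨f, hf⟩ := h1
  obtain ⟨χ, hχ⟩ := h2
  have hm : ∀ j, f j ∈ K := fun j => hf ▸ Subgroup.subset_closure ⟨j, rfl⟩
  have hli : LinearIndependent ℚ
      (fun i : Fin ρ => fun j : Fin n => Multiplicative.toAdd (χ i ⟨f j, hm j⟩)) := by
    rw [Fintype.linearIndependent_iff] at hχ ⊢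
    intro c hc
    apply hχ c
    funext x
    have := hom_trivial_of_gens f hf hm χ c (fun j => by
      have := congrFun hc j
      simpa [Finset.sum_apply] using this) x
    simpa [Finset.sum_apply] using this
  have := hli.fintype_card_le_finrank
  simpa using this

/-- Coordinate homomorphisms of a free basis. -/
theorem rkGe_of_basis {K : Subgroup Γ} {J : Type} (b : FreeGroupBasis J K) {ρ : ℕ}
    (e : Fin ρ → J) (he : Function.Injective e) : RkGe K ρ := by
  classical
  refine ⟨fun i => b.lift (fun j => Multiplicative.ofAdd (if j = e i then (1 : ℚ) else 0)), ?_⟩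
  rw [Fintype.linearIndependent_iff]
  intro c hc i
  have h1 := congrFun hc (b (e i))
  have h2 : ∀ l : Fin ρ, (b.lift (fun j => Multiplicative.ofAdd
      (if j = e l then (1 : ℚ) else 0))) (b (e i)) =
      Multiplicative.ofAdd (if e i = e l then (1 : ℚ) else 0) := by
    intro l
    exact congrFun (b.lift.symm_apply_apply
      (fun j => Multiplicative.ofAdd (if j = e l then (1 : ℚ) else 0))) (e i)
  simp only [Finset.sum_apply, Pi.smul_apply, smul_eq_mul, Pi.zero_apply, h2, toAdd_ofAdd,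
    he.eq_iff] at h1
  simpa using h1

theorem rkLe_of_basis {K : Subgroup Γ} {J : Type} (b : FreeGroupBasis J K) {n : ℕ}
    (e : Fin n → J) (he : Function.Surjective e) : RkLe K n := by
  refine ⟨fun i => (b (e i) : Γ), ?_⟩
  have htop : Subgroup.closure (Set.range b) = ⊤ := by
    have h1 : Set.range b = b.repr.symm.toMonoidHom '' Set.range FreeGroup.of := by
      rw [← Set.range_comp]
      rfl
    rw [h1, ← MonoidHom.map_closure, FreeGroup.closure_range_of, ← MonoidHom.range_eq_map,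
      MonoidHom.range_eq_top]
    exact b.repr.symm.surjective
  have h2 : Set.range (fun i => (b (e i) : Γ)) = K.subtype '' Set.range b := by
    ext g
    constructor
    · rintro ⟨i, rfl⟩
      exact ⟨b (e i), ⟨e i, rfl⟩, rfl⟩
    · rintro ⟨_, ⟨j, rfl⟩, rfl⟩
      obtain ⟨i, rfl⟩ := he j
      exact ⟨i, rfl⟩
  rw [h2, ← MonoidHom.map_closure, htop, ← MonoidHom.range_eq_map, Subgroup.range_subtype]

/-- A free group has a finite rank or arbitrarily many independent homomorphisms. -/
theorem rk_exists {K : Subgroup Γ} (hK : IsFreeGroup K) :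
    (∃ n, RkLe K n ∧ RkGe K n) ∨ ∀ ρ, RkGe K ρ := by
  obtain ⟨J, ⟨b⟩⟩ := hK.nonempty_basis
  rcases finite_or_infinite J with hJ | hJ
  · obtain ⟨n, ⟨e⟩⟩ := Finite.exists_equiv_fin J
    exact Or.inl ⟨n, rkLe_of_basis b e.symm e.symm.surjective,
      rkGe_of_basis b e.symm e.symm.injective⟩
  · refine Or.inr fun ρ => rkGe_of_basis b (fun i => Infinite.natEmbedding J i.val) ?_
    intro i j hij
    exact Fin.ext ((Infinite.natEmbedding J).injective hij)

theorem rkLe_of_bound {K : Subgroup Γ} (hK : IsFreeGroup K) {r : ℕ}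
    (h : ∀ ρ, RkGe K ρ → ρ ≤ r) : ∃ n ≤ r, RkLe K n ∧ RkGe K n := by
  rcases rk_exists hK with ⟨n, h1, h2⟩ | h3
  · exact ⟨n, h n h2, h1, h2⟩
  · have := h (r + 1) (h3 _)
    omega

theorem rk_range {I : Type} [Fintype I] (b : FreeGroup I →* Γ) (hb : Function.Injective b) :
    RkLe b.range (Fintype.card I) ∧ RkGe b.range (Fintype.card I) := by
  let B : FreeGroupBasis I b.range := FreeGroupBasis.ofRepr (MonoidHom.ofInjective hb).symm
  let e := Fintype.equivFin I
  exact ⟨rkLe_of_basis B e.symm e.symm.surjective, rkGe_of_basis B e.symm e.symm.injective⟩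

theorem RkLe.map {Γ' : Type} [Group Γ'] (f : Γ →* Γ') {K : Subgroup Γ} {n : ℕ} (h : RkLe K n) :
    RkLe (K.map f) n := by
  obtain ⟨g, hg⟩ := h
  refine ⟨fun i => f (g i), ?_⟩
  rw [← hg, MonoidHom.map_closure, ← Set.range_comp]
  rfl

theorem rkLe_map_iff {Γ' : Type} [Group Γ'] (f : Γ →* Γ') (hf : Function.Injective f)
    {K : Subgroup Γ} {n : ℕ} : RkLe (K.map f) n ↔ RkLe K n := by
  refine ⟨fun h => ?_, fun h => h.map f⟩
  obtain ⟨g, hg⟩ := h
  have hm : ∀ i, ∃ x, f x = g i := by
    intro i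
    have : g i ∈ K.map f := hg ▸ Subgroup.subset_closure ⟨i, rfl⟩
    obtain ⟨x, -, hx⟩ := this
    exact ⟨x, hx⟩
  choose g' hg' using hm
  refine ⟨g', Subgroup.map_injective hf ?_⟩
  rw [← hg, MonoidHom.map_closure, ← Set.range_comp]
  congr 2
  funext i
  exact hg' i

theorem RkGe.of_equiv {Γ' : Type} [Group Γ'] {K : Subgroup Γ} {K' : Subgroup Γ'} (e : K ≃* K')
    {n : ℕ} (h : RkGe K' n) : RkGe K n := by
  obtain ⟨χ, hχ⟩ := h
  refine ⟨fun i => (χ i).comp e.toMonoidHom, ?_⟩
  rw [Fintype.linearIndependent_iff] at hχ ⊢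
  intro c hc
  apply hχ c
  funext x
  have := congrFun hc (e.symm x)
  simpa [Finset.sum_apply] using this

theorem rkGe_map_iff {Γ' : Type} [Group Γ'] (f : Γ →* Γ') (hf : Function.Injective f)
    {K : Subgroup Γ} {n : ℕ} : RkGe (K.map f) n ↔ RkGe K n :=
  ⟨fun h => h.of_equiv (K.equivMapOfInjective f hf),
    fun h => h.of_equiv (K.equivMapOfInjective f hf).symm⟩

theorem cj_eq_map_conj (y : Γ) (K : Subgroup Γ) :
    cj y K = K.map (MulAut.conj y).toMonoidHom := by
  ext g
  rw [mem_cj, Subgroup.mem_map]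
  constructor
  · intro h
    refine ⟨_, h, ?_⟩
    simp [mul_assoc]
  · rintro ⟨x, hx, rfl⟩
    simpa [mul_assoc] using hx

theorem rkLe_cj_iff (y : Γ) {K : Subgroup Γ} {n : ℕ} : RkLe (cj y K) n ↔ RkLe K n := by
  rw [cj_eq_map_conj]
  exact rkLe_map_iff _ (MulAut.conj y).injective

theorem rkGe_cj_iff (y : Γ) {K : Subgroup Γ} {n : ℕ} : RkGe (cj y K) n ↔ RkGe K n := by
  rw [cj_eq_map_conj]
  exact rkGe_map_iff _ (MulAut.conj y).injective

theorem isFree_cj (y : Γ) {K : Subgroup Γ} (h : IsFreeGroup K) : IsFreeGroup (cj y K) := by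
  rw [cj_eq_map_conj]
  have := h
  exact IsFreeGroup.ofMulEquiv (K.equivMapOfInjective _ (MulAut.conj y).injective)

/-- A linear functional applied to a tuple of homomorphisms. -/
def combHom {K : Type} [Group K] {ρ : ℕ} (χ : Fin ρ → (K →* Multiplicative ℚ))
    (L : (Fin ρ → ℚ) →ₗ[ℚ] ℚ) : K →* Multiplicative ℚ where
  toFun x := Multiplicative.ofAdd (L fun i => Multiplicative.toAdd (χ i x))
  map_one' := by
    have : (fun i => Multiplicative.toAdd (χ i 1)) = 0 := by
      funext i
      simp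
    rw [this, map_zero]
    rfl
  map_mul' x y := by
    have : (fun i => Multiplicative.toAdd (χ i (x * y))) =
        (fun i => Multiplicative.toAdd (χ i x)) + fun i => Multiplicative.toAdd (χ i y) := by
      funext i
      simp
    rw [this, map_add, ofAdd_add]

/-- Independent homomorphisms are detected on `ρ` elements. -/
theorem RkGe.exists_elts {K : Subgroup Γ} {ρ : ℕ} (h : RkGe K ρ) :
    ∃ (x : Fin ρ → K) (χ : Fin ρ → (K →* Multiplicative ℚ)),
      ∀ i j, Multiplicative.toAdd (χ i (x j)) = if i = j then 1 else 0 := by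
  classical
  obtain ⟨χ, hχ⟩ := h
  let v : K → (Fin ρ → ℚ) := fun x i => Multiplicative.toAdd (χ i x)
  have htop : Submodule.span ℚ (Set.range v) = ⊤ := by
    by_contra hne
    obtain ⟨L, hL0, hL⟩ := Submodule.exists_le_ker_of_lt_top _ (lt_top_iff_ne_top.2 hne)
    apply hL0
    rw [Fintype.linearIndependent_iff] at hχ
    have hc := hχ (fun i => L (Pi.single i 1)) (by
      funext x
      have h1 : L (v x) = 0 := hL (Submodule.subset_span ⟨x, rfl⟩)
      rw [LinearMap.pi_apply_eq_sum_univ L (v x)] at h1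
      simp only [Finset.sum_apply, Pi.smul_apply, smul_eq_mul, Pi.zero_apply]
      rw [← h1]
      refine Finset.sum_congr rfl fun i _ => ?_
      rw [smul_eq_mul, mul_comm]
      congr 2
      funext j
      simp [Pi.single_apply, eq_comm])
    apply LinearMap.ext
    intro w
    rw [LinearMap.pi_apply_eq_sum_univ L w]
    simp only [LinearMap.zero_apply]
    refine Finset.sum_eq_zero fun i _ => ?_
    have h2 : (fun j => if i = j then (1 : ℚ) else 0) = Pi.single i 1 := by
      funext j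
      simp [Pi.single_apply, eq_comm]
    rw [h2, hc i, smul_zero]
  obtain ⟨f, hf1, hf2, hf3⟩ := Submodule.exists_fun_fin_finrank_span_eq ℚ (Set.range v)
  have hr : Module.finrank ℚ (Submodule.span ℚ (Set.range v)) = ρ := by
    rw [htop]
    simp
  let e : Fin ρ ≃ Fin (Module.finrank ℚ (Submodule.span ℚ (Set.range v))) := finCongr hr.symm
  let B : Module.Basis (Fin (Module.finrank ℚ (Submodule.span ℚ (Set.range v)))) ℚ (Fin ρ → ℚ) :=
    Module.Basis.mk hf3 (by rw [hf2, htop])
  choose x hx using hf1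
  refine ⟨fun j => x (e j), fun i => combHom χ (B.coord (e i)), fun i j => ?_⟩
  have h3 : (fun l => Multiplicative.toAdd (χ l (x (e j)))) = B (e j) := by
    rw [Module.Basis.mk_apply, ← hx]
  change B.coord (e i) (fun l => Multiplicative.toAdd (χ l (x (e j)))) = _
  rw [h3, Module.Basis.coord_apply, Module.Basis.repr_self, Finsupp.single_apply]
  by_cases hij : i = j
  · simp [hij]
  · have : ¬ e j = e i := fun h => hij (e.injective h).symm
    simp [hij, this]

end CPOR
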