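import Pool.Agent.P.MP_2cb329_al.ZA

/-! The Cayley tree of a free group; basis-subset subgroups. -/

set_option autoImplicit false

namespace CPOR

open FreeGroup

variable {Y : Type} [DecidableEq Y]

/-- The Cayley graph of the free group. -/
def cay (Y : Type) : SimpleGraph (FreeGroup Y) := SimpleGraph.mulCayley (Set.range FreeGroup.of)

/-- `g` lies between `f` and `h` in the free group. -/
def FB (f g h : FreeGroup Y) : Prop := (f⁻¹ * g).norm + (g⁻¹ * h).norm = (f⁻¹ * h).norm

/-- The subgroup generated by a subset of the basis. -/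
def FS (S : Set Y) : Subgroup (FreeGroup Y) := Subgroup.closure (FreeGroup.of '' S)

/-- The reduced word of `r` is empty or starts with a letter outside `S`. -/
def Out (S : Set Y) (r : FreeGroup Y) : Prop := ∀ c ∈ FS S, FB c 1 r

/-- The conjugate `y K y⁻¹`. -/
def cj {Γ : Type*} [Group Γ] (y : Γ) (K : Subgroup Γ) : Subgroup Γ :=
  K.comap (MulAut.conj y⁻¹).toMonoidHom

@[simp] theorem mem_cj {Γ : Type*} [Group Γ] {y g : Γ} {K : Subgroup Γ} :
    g ∈ cj y K ↔ y⁻¹ * g * y ∈ K := by
  simp [cj]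

theorem stabilizer_coe {Γ : Type*} [Group Γ] (y : Γ) (K : Subgroup Γ) :
    MulAction.stabilizer Γ (y : Γ ⧸ K) = cj y K := by
  ext g
  rw [MulAction.mem_stabilizer_iff, mem_cj, MulAction.Quotient.smul_coe, eq_comm,
    QuotientGroup.eq, smul_eq_mul, mul_assoc]

theorem toWord_mul_of_norm {x y : FreeGroup Y} (h : (x * y).norm = x.norm + y.norm) :
    (x * y).toWord = x.toWord ++ y.toWord :=
  (toWord_mul_sublist x y).eq_of_length (by rw [List.length_append]; exact h)

theorem toWord_mk_of_reduced {l : List (Y × Bool)} (h : IsReduced l) : (mk l).toWord = l := by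
  rw [toWord_mk, h.reduce_eq]

theorem norm_mk_single (x : Y × Bool) : (mk [x]).norm = 1 := by
  unfold FreeGroup.norm
  rw [toWord_mk_of_reduced IsReduced.singleton]
  rfl

theorem norm_eq_one_iff {f : FreeGroup Y} : f.norm = 1 ↔ ∃ x, f = mk [x] := by
  constructor
  · intro h
    obtain ⟨x, hx⟩ := List.length_eq_one_iff.1 h
    exact ⟨x, by rw [← hx, mk_toWord]⟩
  · rintro ⟨x, rfl⟩
    exact norm_mk_single x

omit [DecidableEq Y] in
theorem mk_false (a : Y) : mk [(a, false)] = (of a)⁻¹ := rfl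

omit [DecidableEq Y] in
theorem cay_adj_iff {f g : FreeGroup Y} : (cay Y).Adj f g ↔ ∃ x, f⁻¹ * g = mk [x] := by
  classical
  rw [cay, SimpleGraph.mulCayley_adj']
  constructor
  · rintro ⟨-, _, ⟨a, rfl⟩, h | h⟩
    · exact ⟨(a, true), by rw [← h, inv_mul_cancel_left]; rfl⟩
    · exact ⟨(a, false), by rw [h, mk_false]; group⟩
  · rintro ⟨⟨a, b⟩, h⟩
    refine ⟨fun e => ?_, of a, ⟨a, rfl⟩, ?_⟩
    · have := norm_mk_single (a, b)
      rw [← h, e, inv_mul_cancel, FreeGroup.norm_one] at this
      omega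
    · cases b
      · right
        rw [mk_false, inv_mul_eq_iff_eq_mul] at h
        rw [h]
        group
      · left
        rw [inv_mul_eq_iff_eq_mul] at h
        rw [h]
        rfl

theorem cay_adj_norm {f g : FreeGroup Y} : (cay Y).Adj f g ↔ (f⁻¹ * g).norm = 1 := by
  rw [cay_adj_iff, norm_eq_one_iff]

theorem step_cases {a b : FreeGroup Y} (h : (a⁻¹ * b).norm = 1) :
    b.toWord = a.toWord ++ (a⁻¹ * b).toWord ∨ a.toWord = b.toWord ++ (b⁻¹ * a).toWord := by
  have h' : (b⁻¹ * a).norm = 1 := by rw [← norm_inv_eq, mul_inv_rev, inv_inv, h]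
  have e1 : a * (a⁻¹ * b) = b := mul_inv_cancel_left a b
  have e2 : b * (b⁻¹ * a) = a := mul_inv_cancel_left b a
  have h1 := norm_mul_le b (b⁻¹ * a)
  rw [e2] at h1
  obtain ⟨n, hn⟩ := (reduce.red (L := a.toWord ++ (a⁻¹ * b).toWord)).length
  rw [← toWord_mul, e1, List.length_append] at hn
  change a.norm + (a⁻¹ * b).norm = b.norm + 2 * n at hn
  rcases Nat.eq_zero_or_pos n with h0 | h0
  · left
    rw [← toWord_mul_of_norm (by rw [e1]; omega), e1]
  · right
    rw [← toWord_mul_of_norm (by rw [e2]; omega), e2]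

omit [DecidableEq Y] in
theorem exists_walk (l : List (Y × Bool)) (f : FreeGroup Y) :
    ∃ p : (cay Y).Walk f (f * mk l), p.length = l.length := by
  induction l generalizing f with
  | nil => exact ⟨SimpleGraph.Walk.nil.copy rfl (mul_one f).symm, by simp⟩
  | cons x l ih =>
    obtain ⟨p, hp⟩ := ih (f * mk [x])
    have ha : (cay Y).Adj f (f * mk [x]) := cay_adj_iff.2 ⟨x, inv_mul_cancel_left _ _⟩
    exact ⟨(p.cons ha).copy rfl (by rw [mul_assoc, mul_mk]; rfl), by simp [hp]⟩

theorem norm_le_walk {f g : FreeGroup Y} (p : (cay Y).Walk f g) : (f⁻¹ * g).norm ≤ p.length := by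
  induction p with
  | nil => simp
  | @cons u v w h p ih =>
    have h1 := cay_adj_norm.1 h
    have h2 := norm_mul_le (u⁻¹ * v) (v⁻¹ * w)
    rw [mul_assoc, mul_inv_cancel_left] at h2
    rw [SimpleGraph.Walk.length_cons]
    omega

theorem FB.toWord {f g h : FreeGroup Y} (hb : FB f g h) :
    (f⁻¹ * h).toWord = (f⁻¹ * g).toWord ++ (g⁻¹ * h).toWord := by
  have e : f⁻¹ * g * (g⁻¹ * h) = f⁻¹ * h := by rw [mul_assoc, mul_inv_cancel_left]
  rw [← toWord_mul_of_norm (by rw [e]; exact hb.symm), e]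

omit [DecidableEq Y] in
theorem mk_mem_FS' {S : Set Y} {l : List (Y × Bool)} (h : ∀ x ∈ l, x.1 ∈ S) :
    FreeGroup.mk l ∈ FS S := by
  induction l with
  | nil => exact (FS S).one_mem
  | cons x l ih =>
    have h1 : of x.1 ∈ FS S := Subgroup.subset_closure ⟨x.1, h x List.mem_cons_self, rfl⟩
    have h2 : mk [x] ∈ FS S := by
      obtain ⟨a, b⟩ := x
      cases b
      · exact (FS S).inv_mem h1
      · exact h1
    exact (FS S).mul_mem h2 (ih fun y hy => h y (List.mem_cons_of_mem _ hy))

theorem cay_acyclic : (cay Y).IsAcyclic := by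
  rw [SimpleGraph.isAcyclic_iff_forall_adj_isBridge]
  intro v w hvw
  rw [SimpleGraph.isBridge_iff]
  obtain ⟨x, hx⟩ := cay_adj_iff.1 hvw
  have key : ∀ g g' : FreeGroup Y, ((cay Y).deleteEdges {s(v, w)}).Walk g g' →
      (v⁻¹ * g).toWord.head? ≠ some x → (v⁻¹ * g').toWord.head? ≠ some x := by
    intro g g' p
    induction p with
    | nil => exact id
    | @cons a b c h p ih =>
      intro ha
      apply ih
      rw [SimpleGraph.deleteEdges_adj] at h
      have h1 := cay_adj_norm.1 h.1
      have e : (v⁻¹ * a)⁻¹ * (v⁻¹ * b) = a⁻¹ * b := by group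
      rcases step_cases (a := v⁻¹ * a) (b := v⁻¹ * b) (by rw [e, h1]) with k | k
      · intro hb
        cases hl : (v⁻¹ * a).toWord with
        | nil =>
          have hv : v = a := inv_mul_eq_one.1 (toWord_eq_nil_iff.1 hl)
          subst hv
          obtain ⟨y, hy⟩ := norm_eq_one_iff.1 h1
          rw [hy, toWord_mk_of_reduced IsReduced.singleton] at hb
          have hyx : y = x := by simpa using hb
          have hw : b = w := mul_left_cancel (a := v⁻¹) (by rw [hy, hx, hyx])
          exact h.2 (by rw [hw]; rfl)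
        | cons y l =>
          rw [k, hl] at hb
          rw [hl] at ha
          exact ha hb
      · intro hb
        apply ha
        rw [k]
        cases hl : (v⁻¹ * b).toWord with
        | nil => rw [hl] at hb; simp at hb
        | cons y l => rw [hl] at hb; exact hb
  rintro ⟨p⟩
  refine key v w p (by simp) ?_
  rw [hx, toWord_mk_of_reduced IsReduced.singleton]
  rfl

omit [DecidableEq Y] in
theorem cay_reach (f g : FreeGroup Y) : (cay Y).Reachable f g := by
  classical
  obtain ⟨p, -⟩ := exists_walk (f⁻¹ * g).toWord f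
  rw [mk_toWord, mul_inv_cancel_left] at p
  exact ⟨p⟩

theorem cay_dist (f g : FreeGroup Y) : (cay Y).dist f g = (f⁻¹ * g).norm := by
  refine le_antisymm ?_ ?_
  · obtain ⟨p, hp⟩ := exists_walk (f⁻¹ * g).toWord f
    have := SimpleGraph.dist_le p
    rw [hp, mk_toWord, mul_inv_cancel_left] at this
    exact this
  · obtain ⟨p, hp⟩ := (cay_reach f g).exists_walk_length_eq_dist
    rw [← hp]
    exact norm_le_walk p

theorem cay_btw {f g h : FreeGroup Y} : ZT.Btw (cay Y) f g h ↔ FB f g h := by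
  unfold ZT.Btw FB
  rw [cay_dist, cay_dist, cay_dist]
  exact ⟨fun h => h.2.2, fun h => ⟨cay_reach _ _, cay_reach _ _, h⟩⟩

omit [DecidableEq Y] in
theorem cay_acts : ZT.Acts (cay Y) (FreeGroup Y) := by
  intro g x y h
  exact SimpleGraph.mulCayley_adj_mul_iff_right.2 h

theorem cay_noinv : ZT.NoInv (cay Y) (FreeGroup Y) := by
  intro g x y h h1 h2
  obtain ⟨z, hz⟩ := cay_adj_iff.1 h
  rw [smul_eq_mul] at h1 h2
  have e : (x⁻¹ * y)⁻¹ = x⁻¹ * y := by
    have : y⁻¹ * x = (g * x)⁻¹ * (g * y) := by rw [h1, h2]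
    rw [mul_inv_rev, inv_inv, this]
    group
  have := congrArg FreeGroup.toWord e
  rw [toWord_inv, hz, toWord_mk_of_reduced IsReduced.singleton] at this
  simp [invRev, Prod.ext_iff] at this

theorem FB.mul_left {f g h : FreeGroup Y} (hb : FB f g h) (k : FreeGroup Y) :
    FB (k * f) (k * g) (k * h) := by
  unfold FB at hb ⊢
  have e : ∀ a b : FreeGroup Y, (k * a)⁻¹ * (k * b) = a⁻¹ * b := fun a b => by group
  rw [e, e, e]
  exact hb

/-- The points between `1` and `f` are the initial segments of the reduced word. -/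
theorem fb_one_iff {g f : FreeGroup Y} :
    FB 1 g f ↔ ∃ i ≤ f.norm, g = FreeGroup.mk (f.toWord.take i) := by
  constructor
  · intro h
    have h1 := h.toWord
    unfold FB at h
    simp only [inv_one, one_mul] at h h1
    refine ⟨g.norm, by omega, ?_⟩
    rw [h1, List.take_left' (show g.toWord.length = g.norm from rfl), mk_toWord]
  · rintro ⟨i, hi, rfl⟩
    have e : (mk (f.toWord.take i))⁻¹ * f = mk (f.toWord.drop i) := by
      rw [inv_mul_eq_iff_eq_mul, mul_mk, List.take_append_drop, mk_toWord]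
    unfold FB
    rw [inv_one, one_mul, one_mul, e]
    unfold FreeGroup.norm
    rw [toWord_mk_of_reduced (List.IsChain.take isReduced_toWord _),
      toWord_mk_of_reduced (List.IsChain.drop isReduced_toWord _),
      ← List.length_append, List.take_append_drop]

theorem norm_mk_take (f : FreeGroup Y) {i : ℕ} (hi : i ≤ f.norm) :
    (FreeGroup.mk (f.toWord.take i)).norm = i := by
  unfold FreeGroup.norm at hi ⊢
  rw [toWord_mk_of_reduced (List.IsChain.take isReduced_toWord _),
    List.length_take]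
  omega

theorem mem_FS_iff {S : Set Y} {f : FreeGroup Y} : f ∈ FS S ↔ ∀ x ∈ f.toWord, x.1 ∈ S := by
  constructor
  · intro h
    induction h using Subgroup.closure_induction with
    | mem g hg =>
      obtain ⟨a, ha, rfl⟩ := hg
      simpa using ha
    | one => simp
    | mul a b _ _ ha hb =>
      intro x hx
      rcases List.mem_append.1 ((toWord_mul_sublist a b).subset hx) with h | h
      exacts [ha x h, hb x h]
    | inv a _ ha =>
      intro x hx
      rw [toWord_inv, invRev, List.mem_reverse, List.mem_map] at hx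
      obtain ⟨y, hy, rfl⟩ := hx
      exact ha y hy
  · intro h
    rw [← mk_toWord (x := f)]
    exact mk_mem_FS' h

omit [DecidableEq Y] in
theorem mk_mem_FS {S : Set Y} {l : List (Y × Bool)} (h : ∀ x ∈ l, x.1 ∈ S) :
    FreeGroup.mk l ∈ FS S := by
  exact mk_mem_FS' h

omit [DecidableEq Y] in
theorem FS_mono {S S' : Set Y} (h : S ⊆ S') : FS S ≤ FS S' :=
  Subgroup.closure_mono (Set.image_mono h)

theorem FB.mem_FS {S : Set Y} {f g h : FreeGroup Y} (hb : FB f g h) (hm : f⁻¹ * h ∈ FS S) :
    f⁻¹ * g ∈ FS S := by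
  rw [mem_FS_iff] at hm ⊢
  intro x hx
  exact hm x (by rw [hb.toWord]; exact List.mem_append_left _ hx)

theorem cvx_FS (S : Set Y) (f : FreeGroup Y) : ZT.Cvx (cay Y) {g | f⁻¹ * g ∈ FS S} := by
  intro x hx z hz
  refine ⟨cay_reach _ _, fun y hy => ?_⟩
  have h1 : x⁻¹ * z ∈ FS S := by
    have := (FS S).mul_mem ((FS S).inv_mem hx) hz
    rwa [show (f⁻¹ * x)⁻¹ * (f⁻¹ * z) = x⁻¹ * z by group] at this
  have := (FS S).mul_mem hx ((cay_btw.1 hy).mem_FS h1)
  rwa [show f⁻¹ * x * (x⁻¹ * y) = f⁻¹ * y by group] at this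

theorem FS_inf (S S' : Set Y) : FS S ⊓ FS S' = FS (S ∩ S') := by
  ext f
  simp only [Subgroup.mem_inf, mem_FS_iff, Set.mem_inter_iff]
  exact ⟨fun h x hx => ⟨h.1 x hx, h.2 x hx⟩, fun h => ⟨fun x hx => (h x hx).1, fun x hx => (h x hx).2⟩⟩

/-- Projection onto `FS S`. -/
theorem exists_out (S : Set Y) (f : FreeGroup Y) :
    ∃ p ∈ FS S, FB 1 p f ∧ Out S (p⁻¹ * f) := by
  obtain ⟨p, hp, h⟩ := (cvx_FS S 1).exists_proj cay_acyclic (c := 1) (x := f) (by simp)
    (cay_reach _ _)
  have hp' : p ∈ FS S := by simpa using hp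
  refine ⟨p, hp', cay_btw.1 (h 1 (by simp)).symm, fun c hc => ?_⟩
  have := (cay_btw.1 (h (p * c) (by simpa using (FS S).mul_mem hp' hc)).symm).mul_left p⁻¹
  rwa [inv_mul_cancel_left, inv_mul_cancel] at this

/-- The bridge between `FS S` and `f * FS S'`. -/
theorem exists_bridge (S S' : Set Y) (f : FreeGroup Y) :
    ∃ p ∈ FS S, ∃ q ∈ FS S', ∃ r, f = p * r * q ∧ Out S r ∧ Out S' r⁻¹ ∧
      f.norm = p.norm + r.norm + q.norm := by
  obtain ⟨p, hp, h1, h2⟩ := exists_out S f
  obtain ⟨q, hq, h3, h4⟩ := exists_out S' (p⁻¹ * f)⁻¹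
  have e : (p⁻¹ * f * q)⁻¹ = q⁻¹ * (p⁻¹ * f)⁻¹ := mul_inv_rev _ _
  unfold FB at h1 h3
  simp only [inv_one, one_mul] at h1 h3
  rw [← e, norm_inv_eq, norm_inv_eq] at h3
  refine ⟨p, hp, q⁻¹, (FS S').inv_mem hq, p⁻¹ * f * q, by group, ?_, by rw [e]; exact h4, ?_⟩
  · intro c hc
    have h5 : FB 1 (p⁻¹ * f * q) (p⁻¹ * f) := by
      unfold FB
      rw [inv_one, one_mul, one_mul, show (p⁻¹ * f * q)⁻¹ * (p⁻¹ * f) = q⁻¹ by group, norm_inv_eq]
      omega
    exact cay_btw.1 ((cay_btw.2 (h2 c hc)).trans_right (cay_btw.2 h5)).2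
  · rw [norm_inv_eq]
    omega

theorem Out.of_fb {S : Set Y} {r g : FreeGroup Y} (h : Out S r) (hg : FB 1 g r) : Out S g := by
  intro c hc
  exact cay_btw.1 ((cay_btw.2 (h c hc)).trans_right (cay_btw.2 hg)).2

theorem out_iff {S : Set Y} {r : FreeGroup Y} :
    Out S r ↔ ∀ x ∈ r.toWord.head?, x.1 ∉ S := by
  constructor
  · intro h x hx hS
    have h1 := h (mk [x]) (mk_mem_FS (by simpa using hS))
    cases hl : r.toWord with
    | nil => rw [hl] at hx; simp at hx
    | cons y l =>
      rw [hl] at hx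
      have hy : y = x := by simpa using hx
      have e : (mk [x])⁻¹ * r = mk l := by
        rw [inv_mul_eq_iff_eq_mul, mul_mk, ← mk_toWord (x := r), hl, hy]
        rfl
      have h2 : r.norm = l.length + 1 := by
        unfold FreeGroup.norm
        rw [hl]
        rfl
      have h3 := norm_mk_le (L₁ := l)
      unfold FB at h1
      rw [e, inv_one, one_mul] at h1
      omega
  · intro h c hc
    have h1 := mem_FS_iff.1 ((FS S).inv_mem hc)
    have h2 : IsReduced (c⁻¹.toWord ++ r.toWord) := by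
      refine List.IsChain.append isReduced_toWord isReduced_toWord fun a ha b hb e => ?_
      exact absurd (e ▸ h1 a (List.mem_of_mem_getLast? ha)) (h b hb)
    unfold FB FreeGroup.norm
    rw [mul_one, inv_one, one_mul, toWord_mul, h2.reduce_eq, List.length_append]

/-- Balls are finite, with an explicit bound. -/
theorem ball_card [Fintype Y] (n : ℕ) : ∃ s : Finset (FreeGroup Y),
    (∀ f, f ∈ s ↔ f.norm ≤ n) ∧ s.card ≤ (2 * Fintype.card Y + 1) ^ n := by
  classical
  let φ : FreeGroup Y → Fin n → Option (Y × Bool) := fun f i => f.toWord[i.val]?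
  have hφ : Set.InjOn φ {f | f.norm ≤ n} := by
    intro f hf g hg e
    refine toWord_injective (List.ext_getElem? fun i => ?_)
    by_cases hi : i < n
    · exact congrFun e ⟨i, hi⟩
    · have hf' : f.toWord.length ≤ n := hf
      have hg' : g.toWord.length ≤ n := hg
      rw [List.getElem?_eq_none (by omega), List.getElem?_eq_none (by omega)]
  have hfin : {f : FreeGroup Y | f.norm ≤ n}.Finite := Set.Finite.of_finite_image (Set.toFinite _) hφ
  refine ⟨hfin.toFinset, fun f => by simp, ?_⟩
  have := Finset.card_le_card_of_injOn (s := hfin.toFinset) (t := Finset.univ) φ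
    (fun _ _ => Finset.mem_coe.2 (Finset.mem_univ _)) (by rw [Set.Finite.coe_toFinset]; exact hφ)
  refine this.trans (le_of_eq ?_)
  simp [mul_comm]

/-- A relabelling that is injective on `S` preserves reduced words over `S`. -/
theorem toWord_map_injOn {Z : Type} [DecidableEq Z] {S : Set Y} {σ : Y → Z} (hσ : Set.InjOn σ S)
    {f : FreeGroup Y} (hf : f ∈ FS S) :
    (FreeGroup.map σ f).toWord = f.toWord.map (fun x => (σ x.1, x.2)) := by
  have h1 := mem_FS_iff.1 hf
  conv_lhs => rw [← mk_toWord (x := f), map.mk]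
  apply toWord_mk_of_reduced
  unfold FreeGroup.IsReduced
  rw [List.isChain_map]
  exact List.IsChain.imp_of_mem_imp (fun a b ha hb h e => h (hσ (h1 a ha) (h1 b hb) e))
    isReduced_toWord

theorem norm_map_val (S : Set Y) (f : FreeGroup S) :
    (FreeGroup.map (Subtype.val : S → Y) f).norm = f.norm := by
  unfold FreeGroup.norm
  rw [toWord_map_injOn (S := Set.univ) Subtype.val_injective.injOn
    (mem_FS_iff.2 fun _ _ => Set.mem_univ _), List.length_map]

omit [DecidableEq Y] in
theorem range_map_val (S : Set Y) : (FreeGroup.map (Subtype.val : S → Y)).range = FS S := by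
  rw [range_map, Subtype.range_coe]
  rfl

omit [DecidableEq Y] in
theorem map_val_injective (S : Set Y) :
    Function.Injective (FreeGroup.map (Subtype.val : S → Y)) := by
  exact map_injective Subtype.val_injective

end CPOR
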