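import Pool.Agent.P.MP_2cb329_al.FG2

/-! Free groups: quasiconvexity of subgroups with short generators, effective Howson property. -/

set_option autoImplicit false

namespace CPOR

open FreeGroup

variable {Y : Type} [DecidableEq Y]

/-- `K` is generated by its elements of size at most `n` for the size function `ν`. -/
def GenBy {Γ : Type*} [Group Γ] (ν : Γ → ℕ) (n : ℕ) (K : Subgroup Γ) : Prop :=
  K ≤ Subgroup.closure {k | k ∈ K ∧ ν k ≤ n}

theorem GenBy.mono {Γ : Type*} [Group Γ] {ν : Γ → ℕ} {n m : ℕ} {K : Subgroup Γ} (h : GenBy ν n K)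
    (hnm : n ≤ m) : GenBy ν m K :=
  h.trans (Subgroup.closure_mono fun _ hk => ⟨hk.1, hk.2.trans hnm⟩)

namespace FHP

theorem nrm_symm (f g : FreeGroup Y) : (f⁻¹ * g).norm = (g⁻¹ * f).norm := by
  rw [← FreeGroup.norm_inv_eq, mul_inv_rev, inv_inv]

theorem nrm_tri (f g h : FreeGroup Y) : (f⁻¹ * h).norm ≤ (f⁻¹ * g).norm + (g⁻¹ * h).norm := by
  have := FreeGroup.norm_mul_le (f⁻¹ * g) (g⁻¹ * h)
  rwa [show f⁻¹ * g * (g⁻¹ * h) = f⁻¹ * h by group] at this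

theorem fb_symm {f g h : FreeGroup Y} (hb : FB f g h) : FB h g f :=
  cay_btw.1 (cay_btw.2 hb).symm

theorem fb_or {f g h : FreeGroup Y} (hb : FB f g h) (w : FreeGroup Y) : FB f g w ∨ FB w g h :=
  ((cay_btw.2 hb).or cay_acyclic (cay_reach f w)).imp cay_btw.1 cay_btw.1

theorem fb_one {g f : FreeGroup Y} (hb : FB 1 g f) : g.norm + (g⁻¹ * f).norm = f.norm := by
  simpa [FB] using hb

theorem exists_fb (f : FreeGroup Y) {i : ℕ} (hi : i ≤ f.norm) : ∃ g, FB 1 g f ∧ g.norm = i := by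
  obtain ⟨y, h1, h2⟩ := ZT.exists_btw_dist (cay_reach (1 : FreeGroup Y) f) (i := i)
    (by rw [cay_dist]; simpa using hi)
  exact ⟨y, cay_btw.1 h1, by simpa [cay_dist] using h2⟩

theorem fb_near {z k g : FreeGroup Y} {n : ℕ} (hb : FB 1 z k) (hg : g.norm ≤ n) :
    ∃ y, FB g y k ∧ (z⁻¹ * y).norm ≤ n := by
  obtain ⟨y, h1, -, h3⟩ := (cay_btw.2 hb).near cay_acyclic (cay_reach 1 g) (cay_reach k k) (c := n)
    (by rw [cay_dist]; simpa using hg) (by simp)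
  exact ⟨y, cay_btw.1 h1, by rwa [cay_dist] at h3⟩

end FHP

open FHP

/-- A finitely generated subgroup is generated by elements of bounded size. -/
theorem RkLe.genBy {Γ : Type*} [Group Γ] (ν : Γ → ℕ) {K : Subgroup Γ} {N : ℕ} (h : RkLe K N) :
    ∃ n, GenBy ν n K := by
  obtain ⟨f, rfl⟩ := h
  refine ⟨Finset.univ.sup fun i => ν (f i), Subgroup.closure_mono ?_⟩
  rintro _ ⟨i, rfl⟩
  exact ⟨Subgroup.subset_closure ⟨i, rfl⟩,
    Finset.le_sup (f := fun i => ν (f i)) (Finset.mem_univ i)⟩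

/-- (QCF) -/
theorem qc_free {n : ℕ} {K : Subgroup (FreeGroup Y)} (hK : GenBy FreeGroup.norm n K)
    {k g : FreeGroup Y} (hk : k ∈ K) (hb : FB 1 g k) : ∃ k' ∈ K, (k'⁻¹ * g).norm ≤ n := by
  have key : ∀ k ∈ Subgroup.closure {k | k ∈ K ∧ FreeGroup.norm k ≤ n},
      k ∈ K ∧ ∀ g, FB 1 g k → ∃ k' ∈ K, (k'⁻¹ * g).norm ≤ n := by
    intro k hk
    induction hk using Subgroup.closure_induction with
    | mem k hk =>
      refine ⟨hk.1, fun g hb => ⟨1, K.one_mem, ?_⟩⟩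
      have := fb_one hb
      have h2 := hk.2
      simp only [inv_one, one_mul]; omega
    | one =>
      refine ⟨K.one_mem, fun g hb => ⟨1, K.one_mem, ?_⟩⟩
      have := fb_one hb
      simp only [FreeGroup.norm_one] at this
      simp only [inv_one, one_mul]; omega
    | mul k l _ _ ihk ihl =>
      refine ⟨K.mul_mem ihk.1 ihl.1, fun g hb => ?_⟩
      rcases fb_or hb k with h | h
      · exact ihk.2 g h
      · have h' := h.mul_left k⁻¹
        rw [inv_mul_cancel, inv_mul_cancel_left] at h'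
        obtain ⟨k', hk', e⟩ := ihl.2 _ h'
        exact ⟨k * k', K.mul_mem ihk.1 hk', by rwa [mul_inv_rev, mul_assoc]⟩
    | inv k _ ih =>
      refine ⟨K.inv_mem ih.1, fun g hb => ?_⟩
      have h' := hb.mul_left k
      rw [mul_one, mul_inv_cancel] at h'
      obtain ⟨k', hk', e⟩ := ih.2 _ (fb_symm h')
      exact ⟨k⁻¹ * k', K.mul_mem (K.inv_mem ih.1) hk', by rwa [mul_inv_rev, inv_inv, mul_assoc]⟩
  exact (key k (hK hk)).2 g hb

/-- Converse: a quasiconvex subgroup has short generators. -/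
theorem genBy_of_qc {n : ℕ} {K : Subgroup (FreeGroup Y)}
    (h : ∀ k ∈ K, ∀ g, FB 1 g k → ∃ k' ∈ K, (k'⁻¹ * g).norm ≤ n) :
    GenBy FreeGroup.norm (2 * n + 1) K := by
  intro k hk
  have key : ∀ i g, FB 1 g k → g.norm = i → ∀ k' ∈ K, (k'⁻¹ * g).norm ≤ n →
      k' ∈ Subgroup.closure {k | k ∈ K ∧ FreeGroup.norm k ≤ 2 * n + 1} := by
    intro i
    induction i with
    | zero =>
      intro g _ hg k' hk' e
      rw [FreeGroup.norm_eq_zero.1 hg, mul_one, FreeGroup.norm_inv_eq] at e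
      exact Subgroup.subset_closure ⟨hk', by omega⟩
    | succ i ih =>
      intro g hb hg k' hk' e
      obtain ⟨g0, h0, e0⟩ := exists_fb g (i := i) (by omega)
      have h1 : FB 1 g0 k := cay_btw.1 ((cay_btw.2 hb).trans_left (cay_btw.2 h0)).1
      obtain ⟨k0, hk0, e1⟩ := h k hk g0 h1
      have h2 := ih g0 h1 e0 k0 hk0 e1
      have h3 := fb_one h0
      have h4 := nrm_tri k0 g0 k'
      have h5 := nrm_tri g0 g k'
      have h6 := nrm_symm g k'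
      have h7 : k0⁻¹ * k' ∈ Subgroup.closure {k | k ∈ K ∧ FreeGroup.norm k ≤ 2 * n + 1} :=
        Subgroup.subset_closure ⟨K.mul_mem (K.inv_mem hk0) hk', by omega⟩
      simpa using Subgroup.mul_mem _ h2 h7
  exact key _ k (by simp [FB]) rfl k hk (by simp)

/-- Conjugating inside `K` down to almost the cyclic length. -/
theorem conj_in_sub {n m : ℕ} {K : Subgroup (FreeGroup Y)} (hK : GenBy FreeGroup.norm n K)
    {q g : FreeGroup Y} (hq : q ∈ K) (hg : (g⁻¹ * q * g).norm ≤ m) :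
    ∃ k ∈ K, (k⁻¹ * q * k).norm ≤ m + 2 * n := by
  rcases ZT.ell_or_hyp cay_acyclic cay_acts cay_noinv q (cay_reach 1 (q • (1 : FreeGroup Y))) with
    ⟨p, -, hp⟩ | ⟨a, l, ha, hb⟩
  · have : q = 1 := by simpa using hp
    exact ⟨1, K.one_mem, by simp [this]⟩
  · obtain ⟨i, -, e, -⟩ := ha.disp cay_acyclic cay_acts (cay_reach g (a 0))
    rw [cay_dist, smul_eq_mul, ← mul_assoc] at e
    have h0 := cay_btw.1 (hb 0 le_rfl (Int.natCast_nonneg l))
    rw [smul_eq_mul, mul_one] at h0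
    obtain ⟨k, hk, e1⟩ := qc_free hK hq h0
    have e2 := (ha.1.dist_nat cay_acyclic 0 l).2
    rw [← ha.2.2, cay_dist, smul_eq_mul] at e2
    have e3 := nrm_tri k (a 0) (q * k)
    have e4 := nrm_tri (a 0) (q * a 0) (q * k)
    have e5 := nrm_symm k (a 0)
    rw [show (q * a 0)⁻¹ * (q * k) = (a 0)⁻¹ * k by group] at e4
    exact ⟨k, hk, by rw [mul_assoc]; omega⟩

/-- A cyclic subgroup with short generating elements has a short generator. -/
theorem cyclic_short {n : ℕ} {K : Subgroup (FreeGroup Y)} (hK : GenBy FreeGroup.norm n K)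
    {c : FreeGroup Y} (hc : K ≤ Subgroup.zpowers c) :
    ∃ d, K = Subgroup.zpowers d ∧ d.norm ≤ n := by
  obtain ⟨j, hj⟩ := (Subgroup.le_zpowers_iff c K).1 hc
  by_cases h : ∃ k ∈ K, k.norm ≤ n ∧ k ≠ 1
  · obtain ⟨k, hk, e, hne⟩ := h
    refine ⟨c ^ j, hj, ?_⟩
    rw [hj] at hk
    obtain ⟨i, rfl⟩ := Subgroup.mem_zpowers_iff.1 hk
    exact (norm_le_norm_zpow _ (fun e => hne (by simp [e]))).trans e
  · push Not at h
    refine ⟨1, ?_, by simp⟩
    rw [Subgroup.zpowers_one_eq_bot, eq_bot_iff]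
    refine hK.trans ((Subgroup.closure_le _).2 fun k hk => ?_)
    exact Subgroup.mem_bot.2 (h k hk.1 hk.2)

/-- The cut argument for cosets. -/
theorem FHP.coset_short [Fintype Y] {n : ℕ} {K₁ K₂ : Subgroup (FreeGroup Y)}
    (h1 : GenBy FreeGroup.norm n K₁) (h2 : GenBy FreeGroup.norm n K₂) {g : FreeGroup Y}
    (hg : g.norm ≤ n) (h : ∃ k₁ ∈ K₁, ∃ k₂ ∈ K₂, g = k₁ * k₂) :
    ∃ k₁ ∈ K₁, ∃ k₂ ∈ K₂, g = k₁ * k₂ ∧ k₁.norm ≤ (2 * Fintype.card Y + 1) ^ (4 * n) := by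
  classical
  have hex : ∃ N, ∃ k₁ ∈ K₁, ∃ k₂ ∈ K₂, g = k₁ * k₂ ∧ k₁.norm = N := by
    obtain ⟨k₁, a1, k₂, a2, e⟩ := h
    exact ⟨_, k₁, a1, k₂, a2, e, rfl⟩
  obtain ⟨k₁, a1, k₂, a2, e, hN⟩ := Nat.find_spec hex
  refine ⟨k₁, a1, k₂, a2, e, ?_⟩
  by_contra hlt
  obtain ⟨s, hs, hcard⟩ := ball_card (Y := Y) (2 * n)
  have hz : ∀ i : ℕ, ∃ z κ lam : FreeGroup Y, i ≤ k₁.norm → FB 1 z k₁ ∧ z.norm = i ∧ κ ∈ K₁ ∧
      lam ∈ K₂ ∧ (z⁻¹ * κ).norm ≤ 2 * n ∧ (z⁻¹ * (g * lam)).norm ≤ 2 * n := by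
    intro i
    by_cases hi : i ≤ k₁.norm
    · obtain ⟨z, b1, b2⟩ := exists_fb k₁ hi
      obtain ⟨κ, c1, c2⟩ := qc_free h1 a1 b1
      obtain ⟨y, d1, d2⟩ := fb_near b1 hg
      have d3 := d1.mul_left g⁻¹
      rw [inv_mul_cancel, show g⁻¹ * k₁ = k₂⁻¹ by rw [e]; group] at d3
      obtain ⟨lam, f1, f2⟩ := qc_free h2 (K₂.inv_mem a2) d3
      refine ⟨z, κ, lam, fun _ => ⟨b1, b2, c1, f1, ?_, ?_⟩⟩
      · rw [nrm_symm]; omega
      · have t1 := nrm_tri z y (g * lam)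
        have t2 := nrm_symm y (g * lam)
        rw [show (g * lam)⁻¹ * y = lam⁻¹ * (g⁻¹ * y) by group] at t2
        omega
    · exact ⟨1, 1, 1, fun h => absurd h hi⟩
  choose z κ lam hz using hz
  have cut : ∀ i j, i < j → j ≤ k₁.norm → (z i)⁻¹ * κ i = (z j)⁻¹ * κ j →
      (z i)⁻¹ * (g * lam i) = (z j)⁻¹ * (g * lam j) → False := by
    intro i j hij hj e1 e2
    obtain ⟨-, p2, p3, p4, -⟩ := hz i (by omega)
    obtain ⟨q1, q2, q3, q4, -⟩ := hz j hj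
    have r1 : κ i = z i * ((z j)⁻¹ * κ j) := by rw [← e1]; group
    have r2 : lam i = g⁻¹ * (z i * ((z j)⁻¹ * (g * lam j))) := by rw [← e2]; group
    have r3 := fb_one q1
    have r4 := FreeGroup.norm_mul_le (z i) ((z j)⁻¹ * k₁)
    refine Nat.find_min hex (m := (z i * ((z j)⁻¹ * k₁)).norm) (by omega)
      ⟨z i * ((z j)⁻¹ * k₁), ?_, k₂ * lam j * (lam i)⁻¹,
        K₂.mul_mem (K₂.mul_mem a2 q4) (K₂.inv_mem p4), ?_, rfl⟩
    · have : z i * ((z j)⁻¹ * k₁) = κ i * (κ j)⁻¹ * k₁ := by rw [r1]; group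
      rw [this]
      exact K₁.mul_mem (K₁.mul_mem p3 (K₁.inv_mem q3)) a1
    · have : k₂ = k₁⁻¹ * g := by rw [e]; group
      rw [r2, this]; group
  obtain ⟨i, hi, j, hj, hne, heq⟩ := Finset.exists_ne_map_eq_of_card_lt_of_maps_to
    (s := Finset.range (k₁.norm + 1)) (t := s ×ˢ s)
    (f := fun i => ((z i)⁻¹ * κ i, (z i)⁻¹ * (g * lam i))) (by
      rw [Finset.card_range, Finset.card_product]
      have := Nat.mul_le_mul hcard hcard
      rw [← pow_add, show 2 * n + 2 * n = 4 * n by ring] at this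
      omega) (by
      intro i hi
      obtain ⟨-, -, -, -, p5, p6⟩ := hz i (by simpa [Nat.lt_succ_iff] using hi)
      exact Finset.mem_coe.2 (Finset.mem_product.2 ⟨(hs _).2 p5, (hs _).2 p6⟩))
  rw [Finset.mem_range] at hi hj
  obtain ⟨e1, e2⟩ := Prod.mk.inj heq
  rcases lt_or_gt_of_ne hne with hij | hij
  · exact cut i j hij (by omega) e1 e2
  · exact cut j i hij (by omega) e1.symm e2.symm

/-- (FH) effective Howson property, for subgroups and for cosets. -/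
theorem fh_free [Fintype Y] : ∃ F, Bd F ∧ ∀ (n : ℕ) (K₁ K₂ : Subgroup (FreeGroup Y)),
    GenBy FreeGroup.norm n K₁ → GenBy FreeGroup.norm n K₂ →
    GenBy FreeGroup.norm (F n) (K₁ ⊓ K₂) ∧
      ∀ g : FreeGroup Y, g.norm ≤ n → (∃ k₁ ∈ K₁, ∃ k₂ ∈ K₂, g = k₁ * k₂) →
        ∃ k₁ ∈ K₁, ∃ k₂ ∈ K₂, g = k₁ * k₂ ∧ k₁.norm ≤ F n := by
  refine ⟨fun n => 2 * ((2 * Fintype.card Y + 1) ^ (4 * (2 * n)) + n) + 1,
    ((Bd.const 2).mul ((Bd.pow (Bd.const _) ((Bd.const 4).mul ((Bd.const 2).mul Bd.id))).add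
      Bd.id)).add (Bd.const 1), fun n K₁ K₂ h1 h2 => ⟨genBy_of_qc fun k hk z hz => ?_,
      fun g hg h => ?_⟩⟩
  · obtain ⟨κ, a1, a2⟩ := qc_free h1 hk.1 hz
    obtain ⟨lam, b1, b2⟩ := qc_free h2 hk.2 hz
    have t1 := nrm_tri κ z lam
    have t2 := nrm_symm z lam
    obtain ⟨k₁, c1, k₂, c2, e, c3⟩ := FHP.coset_short (h1.mono (m := 2 * n) (by omega))
      (h2.mono (by omega)) (g := κ⁻¹ * lam) (by omega) ⟨_, K₁.inv_mem a1, _, b1, rfl⟩
    refine ⟨κ * k₁, ⟨K₁.mul_mem a1 c1, ?_⟩, ?_⟩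
    · have : κ * k₁ = lam * k₂⁻¹ := by
        have : k₁ = κ⁻¹ * lam * k₂⁻¹ := by rw [e]; group
        rw [this]; group
      rw [this]
      exact K₂.mul_mem b1 (K₂.inv_mem c2)
    · have t3 := FreeGroup.norm_mul_le k₁⁻¹ (κ⁻¹ * z)
      rw [FreeGroup.norm_inv_eq] at t3
      rw [mul_inv_rev, mul_assoc]
      omega
  · obtain ⟨k₁, c1, k₂, c2, e, c3⟩ := FHP.coset_short h1 h2 hg h
    refine ⟨k₁, c1, k₂, c2, e, c3.trans ?_⟩
    have : (2 * Fintype.card Y + 1) ^ (4 * n) ≤ (2 * Fintype.card Y + 1) ^ (4 * (2 * n)) :=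
      Nat.pow_le_pow_right (Nat.succ_pos _) (by omega)
    dsimp only
    omega

end CPOR
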