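import Pool.Agent.P.MP_2cb329_al.END

/-! The decision procedure: bounded search. -/

set_option autoImplicit false

namespace CPOR

theorem computable_of_bounds (n : ℕ) (r : FreeGroup (Fin n))
    (h1 : Fill (PresentedGroup.mk ({r} : Set (FreeGroup (Fin n)))) r)
    (h2 : CP (PresentedGroup.mk ({r} : Set (FreeGroup (Fin n))))) :
    ComputablePred
      (fun p : List (Fin n × Bool) × List (Fin n × Bool) =>
        IsConj
          (PresentedGroup.mk ({r} : Set (FreeGroup (Fin n))) (FreeGroup.mk p.1))
          (PresentedGroup.mk ({r} : Set (FreeGroup (Fin n))) (FreeGroup.mk p.2))) :=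
  computable_of _ (PresentedGroup.mk_surjective _) r (PresentedGroup.one_of_mem rfl) h1 h2

end CPOR
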