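import Pool.Agent.P.MP_2cb329_al.FL1

/-! The flow of a step, arrow pairs, exceptional elements (definitions and existence). -/

set_option autoImplicit false

namespace CPOR

namespace Lv

variable (L : Lv)

/-- The root of a nontrivial element of a Magnus subgroup. -/
theorem fl_root {S : Set L.X} (hS : L.Adm S) {c : L.G} (hc : c ∈ MS L.π S) (h1 : c ≠ 1) :
    ∃ ρ ∈ MS L.π S, ρ ≠ 1 ∧ ∀ a ∈ MS L.π S, ∀ k : ℤ, c ^ k ≠ 1 → Commute a (c ^ k) →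
      a ∈ Subgroup.zpowers ρ := by
  obtain ⟨f₀, hf₀, rfl⟩ := mem_MS.1 hc
  have hne : f₀ ≠ 1 := by
    rintro rfl
    exact h1 (map_one _)
  obtain ⟨r, hr⟩ := cen_cyclic hne
  obtain ⟨n, hn⟩ := Subgroup.mem_zpowers_iff.1 ((hr f₀).1 (Commute.refl _))
  have hn0 : n ≠ 0 := by
    rintro rfl
    exact hne (by rw [← hn, zpow_zero])
  have hrS : r ∈ FS S := FS_root hn0 (hn ▸ hf₀)
  refine ⟨L.π r, mem_MS.2 ⟨r, hrS, rfl⟩, fun e => h1 ?_, fun a ha k hk hcm => ?_⟩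
  · rw [← hn, map_zpow, e, one_zpow]
  · obtain ⟨f, hf, rfl⟩ := mem_MS.1 ha
    have hk0 : k ≠ 0 := by
      rintro rfl
      exact hk (zpow_zero _)
    have hz : f₀ ^ k ∈ FS S := (FS S).zpow_mem hf₀ k
    have e : f * f₀ ^ k = f₀ ^ k * f :=
      L.inj_FS hS ((FS S).mul_mem hf hz) ((FS S).mul_mem hz hf) (by
        rw [map_mul, map_mul, map_zpow]
        exact hcm.eq)
    obtain ⟨j, hj⟩ := Subgroup.mem_zpowers_iff.1 ((hr f).1 (commute_of_zpow hk0 e))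
    exact Subgroup.mem_zpowers_iff.2 ⟨j, by rw [← hj, map_zpow]⟩

/-- The conjugates of powers of `c` in a Magnus subgroup have finitely many roots up to
conjugacy. -/
theorem fl_roots {S : Set L.X} (hS : L.Adm S) (hE : Exc L.π S) (c : L.G) :
    ∃ R : Finset L.G, (∀ ρ ∈ R, ρ ∈ MS L.π S ∧ ρ ≠ 1) ∧ ∀ (h : L.G) (i : ℤ),
      h⁻¹ * c ^ i * h ∈ MS L.π S → h⁻¹ * c ^ i * h ≠ 1 →
      ∃ m ∈ MS L.π S, ∃ ρ ∈ R, m⁻¹ * (h⁻¹ * c ^ i * h) * m ∈ Subgroup.zpowers ρ := by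
  classical
  by_cases hex : ∃ (h : L.G) (i : ℤ), h⁻¹ * c ^ i * h ∈ MS L.π S ∧ h⁻¹ * c ^ i * h ≠ 1
  swap
  · exact ⟨∅, by simp, fun h i h1 h2 => absurd ⟨h, i, h1, h2⟩ hex⟩
  obtain ⟨h₀, i₀, m₀, n₀⟩ := hex
  obtain ⟨C, hC, hexc⟩ := hE
  obtain ⟨ρ₀, hρ₀, hρ₀1, hρ₀c⟩ := L.fl_root hS m₀ n₀
  have hroot : ∀ c₁ : L.G, ∃ ρ ∈ MS L.π S, ρ ≠ 1 ∧ (c₁ ∈ C → ∀ a ∈ MS L.π S, ∀ k : ℤ,
      c₁ ^ k ≠ 1 → Commute a (c₁ ^ k) → a ∈ Subgroup.zpowers ρ) := by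
    intro c₁
    by_cases h1 : c₁ ∈ C ∧ c₁ ≠ 1
    · obtain ⟨ρ, a1, a2, a3⟩ := L.fl_root hS (hC c₁ h1.1) h1.2
      exact ⟨ρ, a1, a2, fun _ => a3⟩
    · refine ⟨ρ₀, hρ₀, hρ₀1, fun h2 a _ k hk _ => ?_⟩
      have h3 : c₁ = 1 := by
        by_contra h3
        exact h1 ⟨h2, h3⟩
      rw [h3, one_zpow] at hk
      exact absurd rfl hk
  choose rt hrt1 hrt2 hrt3 using hroot
  refine ⟨insert ρ₀ (C.image rt), fun ρ hρ => ?_, fun h i h1 h2 => ?_⟩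
  · rcases Finset.mem_insert.1 hρ with rfl | hρ
    · exact ⟨hρ₀, hρ₀1⟩
    · obtain ⟨c₁, -, rfl⟩ := Finset.mem_image.1 hρ
      exact ⟨hrt1 c₁, hrt2 c₁⟩
  have hpow : ∀ (g : L.G) (a b : ℤ), (g⁻¹ * c ^ a * g) ^ b = g⁻¹ * c ^ (a * b) * g := by
    intro g a b
    have := conj_zpow (a := g⁻¹) (b := c ^ a) (i := b)
    rw [inv_inv] at this
    rw [this, zpow_mul]
  by_cases hx : h⁻¹ * h₀ ∈ MS L.π S
  · refine ⟨_, hx, ρ₀, Finset.mem_insert_self _ _, ?_⟩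
    have e : (h⁻¹ * h₀)⁻¹ * (h⁻¹ * c ^ i * h) * (h⁻¹ * h₀) = h₀⁻¹ * c ^ i * h₀ := by group
    refine hρ₀c _ (Subgroup.mul_mem _ (Subgroup.mul_mem _ (Subgroup.inv_mem _ hx) h1) hx) 1
      (by rwa [zpow_one]) ?_
    rw [e, zpow_one]
    show h₀⁻¹ * c ^ i * h₀ * (h₀⁻¹ * c ^ i₀ * h₀) = h₀⁻¹ * c ^ i₀ * h₀ * (h₀⁻¹ * c ^ i * h₀)
    group
  · obtain ⟨m, hm, c₁, hc₁, hle⟩ := hexc _ hx
    have hi₀ : i₀ ≠ 0 := by
      rintro rfl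
      exact n₀ (by group)
    have hb : (h⁻¹ * c ^ i * h) ^ i₀ ∈ MS L.π S ⊓ cj (h⁻¹ * h₀) (MS L.π S) := by
      refine ⟨Subgroup.zpow_mem _ h1 _, mem_cj.2 ?_⟩
      have e : (h⁻¹ * h₀)⁻¹ * (h⁻¹ * c ^ i * h) ^ i₀ * (h⁻¹ * h₀) = (h₀⁻¹ * c ^ i₀ * h₀) ^ i := by
        rw [hpow, hpow, mul_comm i₀ i]
        group
      rw [e]
      exact Subgroup.zpow_mem _ m₀ _
    obtain ⟨k, hk⟩ := Subgroup.mem_zpowers_iff.1 (mem_cj.1 (hle hb))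
    have hb1 : (h⁻¹ * c ^ i * h) ^ i₀ ≠ 1 := fun e =>
      not_finOrder_MS (L.free hS) h1 h2 (isOfFinOrder_iff_zpow_eq_one.2 ⟨i₀, hi₀, e⟩)
    refine ⟨m, hm, rt c₁, Finset.mem_insert_of_mem (Finset.mem_image_of_mem _ hc₁), ?_⟩
    refine hrt3 c₁ hc₁ _ (Subgroup.mul_mem _ (Subgroup.mul_mem _ (Subgroup.inv_mem _ hm) h1) hm) k
      ?_ ?_
    · rw [hk]
      intro e
      apply hb1
      have : (h⁻¹ * c ^ i * h) ^ i₀ = m * (m⁻¹ * (h⁻¹ * c ^ i * h) ^ i₀ * m) * m⁻¹ := by group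
      rw [this, e]
      group
    · rw [hk]
      generalize h⁻¹ * c ^ i * h = a
      show m⁻¹ * a * m * (m⁻¹ * a ^ i₀ * m) = m⁻¹ * a ^ i₀ * m * (m⁻¹ * a * m)
      group

end Lv

namespace St

variable {L L' : Lv} (s : St L L')

theorem fl_j_mem {S : Set L'.X} {h : L'.G} : s.j h ∈ s.M' S ↔ h ∈ MS L'.π S := by
  rw [M'_eq]
  exact Subgroup.mem_map_iff_mem s.j_inj

theorem fl_exists_j {S : Set L'.X} {g : L.G} (hg : g ∈ s.M' S) : ∃ h ∈ MS L'.π S, s.j h = g := by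
  rw [M'_eq] at hg
  exact hg

/-- Strong inertia of the lower level, transported to `G`. -/
theorem fl_si {S : Set L'.X} (hS : L'.Adm S) (y z : L.G)
    (hz : ∀ g, g ∈ s.M' s.SA ↔ z * g * z⁻¹ ∈ s.M' S) {K : Subgroup L.G}
    (hK : ∀ k ∈ K, y⁻¹ * k * y ∈ s.j.range) {N m : ℕ} (hN : RkLe K N)
    (x : Fin (m + 1) → L.G) (h : Fin (m + 1) → L'.G) (hx : ∀ i, x i = y * s.j (h i) * z)
    (ρ : Fin (m + 1) → ℕ) (hd : ∀ i j, (∃ k ∈ K, k • s.ed (x i) = s.ed (x j)) → i = j)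
    (hρ : ∀ i, RkGe (K ⊓ MulAction.stabilizer L.G (s.ed (x i))) (ρ i)) :
    ∑ i, ρ i + 1 ≤ N + (m + 1) := by
  let K' : Subgroup L'.G := (cj y⁻¹ K).comap s.j
  have hK' : ∀ a, a ∈ K' ↔ y * s.j a * y⁻¹ ∈ K := fun a => by
    simp only [K', Subgroup.mem_comap, mem_cj, inv_inv]
  have hmap : K'.map s.j = cj y⁻¹ K := by
    refine Subgroup.map_comap_eq_self fun g hg => ?_
    have := hK _ (mem_cj.1 hg)
    rwa [show y⁻¹ * (y⁻¹⁻¹ * g * y⁻¹) * y = g by group] at this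
  have hN' : RkLe K' N := by
    rw [← rkLe_map_iff s.j s.j_inj, hmap, rkLe_cj_iff]
    exact hN
  refine L'.si hS hN' h (fun i j ⟨k, hk, hm⟩ => hd i j ⟨_, (hK' k).1 hk, ?_⟩) ρ fun i => ?_
  · rw [smul_ed, eq_comm]
    refine QuotientGroup.eq.2 ((hz _).2 ?_)
    have e : z * ((x j)⁻¹ * (y * s.j k * y⁻¹ * x i)) * z⁻¹ = s.j ((h j)⁻¹ * k * h i) := by
      rw [hx i, hx j, map_mul, map_mul, map_inv]
      group
    rw [e]
    exact s.fl_j_mem.2 hm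
  · have e : (K' ⊓ cj (h i) (MS L'.π S)).map s.j =
        cj y⁻¹ (K ⊓ MulAction.stabilizer L.G (s.ed (x i))) := by
      ext g
      rw [mem_cj, inv_inv, stab_ed, Subgroup.mem_inf, mem_cj, hz]
      constructor
      · rintro ⟨a, ⟨a1, a2⟩, rfl⟩
        refine ⟨(hK' a).1 a1, ?_⟩
        have e : z * ((x i)⁻¹ * (y * s.j a * y⁻¹) * x i) * z⁻¹ = s.j ((h i)⁻¹ * a * h i) := by
          rw [hx i, map_mul, map_mul, map_inv]
          group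
        rw [e]
        exact s.fl_j_mem.2 (mem_cj.1 a2)
      · rintro ⟨a1, a2⟩
        obtain ⟨a, ha⟩ := hK _ a1
        have ha' : s.j a = g := by
          rw [ha]
          group
        subst ha'
        refine ⟨a, ⟨(hK' a).2 a1, mem_cj.2 ?_⟩, rfl⟩
        have e : z * ((x i)⁻¹ * (y * s.j a * y⁻¹) * x i) * z⁻¹ = s.j ((h i)⁻¹ * a * h i) := by
          rw [hx i, map_mul, map_mul, map_inv]
          group
        rw [e] at a2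
        exact s.fl_j_mem.1 a2
    rw [← rkGe_map_iff s.j s.j_inj, e, rkGe_cj_iff]
    exact hρ i

theorem fl_conj_t {g : L.G} (hg : g ∈ s.M' s.SA) : s.t⁻¹ * g * s.t ∈ s.M' s.SB := by
  rw [mem_B_iff]
  rwa [show s.t * (s.t⁻¹ * g * s.t) * s.t⁻¹ = g by group]

theorem fl_conn {Ξ : Finset L'.G} {κ : L.G} (h : (s.flow Ξ).Conn κ) : ∃ x, κ = s.t * s.j x := by
  classical
  obtain ⟨c, hc, α, β, rfl⟩ := h
  obtain ⟨ξ, -, rfl⟩ := Finset.mem_image.1 hc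
  obtain ⟨a, ha⟩ := s.M'_le _ (s.fl_conj_t (g := s.bS s.SA α) ⟨α, rfl⟩)
  obtain ⟨b, hb⟩ := s.M'_le s.SA (show s.bS s.SA β ∈ s.M' s.SA from ⟨β, rfl⟩)
  refine ⟨a * ξ * b, ?_⟩
  rw [map_mul, map_mul, ha, hb]
  show s.bS s.SA α * (s.t * s.j ξ) * s.bS s.SA β = _
  group

theorem flow_si (Ξ : Finset L'.G) : (s.flow Ξ).SI := by
  constructor
  · intro K N m κ ρ hK hN hc hd hρ
    choose h hh using fun i => s.fl_conn (hc i)
    exact s.fl_si s.adm_A s.t 1 (fun g => by simp)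
      (fun k hk => s.M'_le _ (s.fl_conj_t (hK hk))) hN κ h (fun i => by rw [hh i, mul_one]) ρ hd hρ
  · intro K N m κ ρ hK hN hc hd hρ
    choose h hh using fun i => s.fl_conn (hc i)
    refine s.fl_si s.adm_B 1 s.t⁻¹ (fun g => ?_) (fun k hk => ?_) hN (fun i => (κ i)⁻¹)
      (fun i => (h i)⁻¹) (fun i => ?_) ρ hd hρ
    · rw [mem_B_iff, show s.t * (s.t⁻¹ * g * s.t⁻¹⁻¹) * s.t⁻¹ = g by group]
    · rw [inv_one, one_mul, mul_one]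
      exact s.M'_le _ (hK hk)
    · rw [hh i, map_inv]
      group

theorem fl_cyc {S S' : Set L'.X} {h m c : L'.G}
    (hle : MS L'.π S ⊓ cj h (MS L'.π S') ≤ cj m (Subgroup.zpowers c)) (γ : L.G) :
    cj γ (s.M' S) ⊓ cj (γ * s.j h) (s.M' S') ≤ cj (γ * s.j m) (Subgroup.zpowers (s.j c)) := by
  rintro x ⟨h1, h2⟩
  obtain ⟨a, ha, e⟩ := s.fl_exists_j (mem_cj.1 h1)
  have h3 : h⁻¹ * a * h ∈ MS L'.π S' := by
    rw [← s.fl_j_mem, map_mul, map_mul, map_inv, e]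
    have := mem_cj.1 h2
    rwa [show (γ * s.j h)⁻¹ * x * (γ * s.j h) = (s.j h)⁻¹ * (γ⁻¹ * x * γ) * s.j h by group] at this
  obtain ⟨k, hk⟩ := Subgroup.mem_zpowers_iff.1 (mem_cj.1 (hle ⟨ha, mem_cj.2 h3⟩))
  refine mem_cj.2 (Subgroup.mem_zpowers_iff.2 ⟨k, ?_⟩)
  rw [← map_zpow, hk, map_mul, map_mul, map_inv, e]
  group

theorem fl_vx (γ : L.G) (m : L'.G) : s.vx (γ * s.j m) = s.vx γ :=
  (s.vx_eq_iff.2 ⟨m, rfl⟩).symm

theorem exists_AD (hF : S_F) (hH : L'.Cl) : Nonempty s.AD := by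
  classical
  obtain ⟨C, Ξ, -, hsf⟩ := hH.sfin s.SB s.SA s.adm_B s.adm_A
  obtain ⟨CA, -, hA⟩ := hH.exc s.SA s.adm_A
  obtain ⟨CB, -, hB⟩ := hH.exc s.SB s.adm_B
  obtain ⟨Bl, hBl, -⟩ := len_ball L'.surj L'.u.length
  obtain ⟨g1, g2, g3⟩ := hF _ (s.flow (Ξ ∪ Bl)) (s.flow_si _)
  have mixed : ∀ g g' : L.G, s.vx (g * s.t) = s.vx g' →
      s.Arr (Ξ ∪ Bl) (s.ed g) (s.ed g') ∨ ∃ γ, ∃ c ∈ C ∪ CA ∪ CB, s.vx γ = s.vx g' ∧
        MulAction.stabilizer L.G (s.ed g) ⊓ MulAction.stabilizer L.G (s.ed g') ≤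
          cj γ (Subgroup.zpowers (s.j c)) := by
    intro g g' hv
    obtain ⟨h, rfl⟩ := s.vx_eq_iff.1 hv
    rcases hsf h with ⟨m, hm, ξ, hξ, m', hm', rfl⟩ | ⟨m, -, c, hc, hle⟩
    · left
      obtain ⟨α, hα⟩ := (s.mem_B_iff _).1 (s.fl_j_mem.2 hm)
      obtain ⟨β, hβ⟩ := s.fl_j_mem.2 hm'
      refine ⟨_, _, rfl, rfl, s.t * s.j ξ,
        Finset.mem_image.2 ⟨ξ, Finset.mem_union_left _ hξ, rfl⟩, α, β, ?_⟩
      show _ = s.bS s.SA α * (s.t * s.j ξ) * s.bS s.SA β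
      rw [hα, hβ, map_mul, map_mul]
      group
    · right
      refine ⟨g * s.t * s.j m, c, Finset.mem_union_left _ (Finset.mem_union_left _ hc), ?_, ?_⟩
      · rw [fl_vx, fl_vx]
      · rw [stab_ed_B, stab_ed]
        exact s.fl_cyc hle _
  refine ⟨⟨Ξ ∪ Bl, C ∪ CA ∪ CB, fun ξ hξ => Finset.mem_union_right _ ((hBl ξ).2 hξ), ?_,
    g1, g2, g3⟩⟩
  intro e e' v hne h1 h2
  obtain ⟨g, rfl⟩ := QuotientGroup.mk_surjective e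
  obtain ⟨g', rfl⟩ := QuotientGroup.mk_surjective e'
  rcases h1 with h1 | h1 <;> rcases h2 with h2 | h2
  · have hv : s.vx g = s.vx g' := h1.trans h2.symm
    obtain ⟨h, rfl⟩ := s.vx_eq_iff.1 hv
    have hh : h ∉ MS L'.π s.SA := fun hm => hne (QuotientGroup.eq.2 (by
      rw [inv_mul_cancel_left]
      exact s.fl_j_mem.2 hm))
    obtain ⟨m, -, c, hc, hle⟩ := hA h hh
    refine Or.inr (Or.inr ⟨g * s.j m, c,
      Finset.mem_union_left _ (Finset.mem_union_right _ hc), (s.fl_vx g m).trans h1, ?_⟩)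
    rw [stab_ed, stab_ed]
    exact s.fl_cyc hle _
  · rcases mixed g' g (h2.trans h1.symm) with h | ⟨γ, c, hc, hγ, hle⟩
    · exact Or.inr (Or.inl h)
    · exact Or.inr (Or.inr ⟨γ, c, hc, hγ.trans h1, by rwa [inf_comm]⟩)
  · rcases mixed g g' (h1.trans h2.symm) with h | ⟨γ, c, hc, hγ, hle⟩
    · exact Or.inl h
    · exact Or.inr (Or.inr ⟨γ, c, hc, hγ.trans h2, hle⟩)
  · have hv : s.vx (g * s.t) = s.vx (g' * s.t) := h1.trans h2.symm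
    obtain ⟨h, hh'⟩ := s.vx_eq_iff.1 hv
    have hh : h ∉ MS L'.π s.SB := fun hm => hne (by
      obtain ⟨f, hf, e⟩ := mem_MS.1 hm
      exact s.ed_eq_iff_B.2 ⟨f, hf, by rw [hh', ← e]; rfl⟩)
    obtain ⟨m, -, c, hc, hle⟩ := hB h hh
    refine Or.inr (Or.inr ⟨g * s.t * s.j m, c, Finset.mem_union_right _ hc,
      (s.fl_vx _ m).trans h1, ?_⟩)
    rw [stab_ed_B, stab_ed_B, hh']
    exact s.fl_cyc hle _

theorem fl_ex {S : Set L'.X} {c : L'.G} {R : Finset L'.G}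
    (hR : ∀ (h : L'.G) (i : ℤ), h⁻¹ * c ^ i * h ∈ MS L'.π S → h⁻¹ * c ^ i * h ≠ 1 →
      ∃ m ∈ MS L'.π S, ∃ ρ ∈ R, m⁻¹ * (h⁻¹ * c ^ i * h) * m ∈ Subgroup.zpowers ρ)
    {z γ g : L.G} (hz : z ≠ 1) (hv : s.vx γ = s.vx g) (h1 : z ∈ cj g (s.M' S))
    (h2 : z ∈ cj γ (Subgroup.zpowers (s.j c))) :
    ∃ m ∈ MS L'.π S, ∃ ρ ∈ R, ∃ k : ℤ, (g * s.j m)⁻¹ * z * (g * s.j m) = s.j ρ ^ k := by
  obtain ⟨h, rfl⟩ := s.vx_eq_iff.1 hv
  obtain ⟨i, hi⟩ := Subgroup.mem_zpowers_iff.1 (mem_cj.1 h2)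
  have e : (γ * s.j h)⁻¹ * z * (γ * s.j h) = s.j (h⁻¹ * c ^ i * h) := by
    rw [map_mul, map_mul, map_inv, map_zpow, hi]
    group
  have h3 := mem_cj.1 h1
  rw [e] at h3
  obtain ⟨m, hm, ρ, hρ, hk⟩ := hR h i (s.fl_j_mem.1 h3) (fun e1 => hz (by
    rw [e1, map_one] at e
    have : z = (γ * s.j h) * ((γ * s.j h)⁻¹ * z * (γ * s.j h)) * (γ * s.j h)⁻¹ := by group
    rw [this, e]
    group))
  obtain ⟨k, hk⟩ := Subgroup.mem_zpowers_iff.1 hk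
  refine ⟨m, hm, ρ, hρ, k, ?_⟩
  rw [← map_zpow, hk, map_mul, map_mul, ← e, map_inv]
  group

/-- (E2) -/
theorem exists_exSet (hH : L'.Cl) (C : Finset L'.G) : ∃ C1, s.ExSet C C1 := by
  classical
  choose RA hRA1 hRA2 using L'.fl_roots s.adm_A (hH.exc s.SA s.adm_A)
  choose RB hRB1 hRB2 using L'.fl_roots s.adm_B (hH.exc s.SB s.adm_B)
  refine ⟨(C.biUnion RA).image s.j ∪ (C.biUnion RB).image (fun ρ => s.t * s.j ρ * s.t⁻¹),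
    fun ρ hρ => ?_, fun z γ e c hc hz he hinc hcj => ?_⟩
  · rcases Finset.mem_union.1 hρ with hρ | hρ
    · obtain ⟨r, hr, rfl⟩ := Finset.mem_image.1 hρ
      obtain ⟨c, -, hr⟩ := Finset.mem_biUnion.1 hr
      exact ⟨s.fl_j_mem.2 (hRA1 c r hr).1, fun e => (hRA1 c r hr).2 (s.j_inj (by rw [e, map_one]))⟩
    · obtain ⟨r, hr, rfl⟩ := Finset.mem_image.1 hρ
      obtain ⟨c, -, hr⟩ := Finset.mem_biUnion.1 hr
      refine ⟨(s.mem_B_iff _).1 (s.fl_j_mem.2 (hRB1 c r hr).1), fun e => (hRB1 c r hr).2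
        (s.j_inj ?_)⟩
      have : s.j r = s.t⁻¹ * (s.t * s.j r * s.t⁻¹) * s.t := by group
      rw [this, e, map_one]
      group
  obtain ⟨g, rfl⟩ := QuotientGroup.mk_surjective e
  have hst : z ∈ MulAction.stabilizer L.G (s.ed g) := he
  rcases hinc with hinc | hinc
  · rw [stab_ed] at hst
    obtain ⟨m, hm, ρ, hρ, k, hk⟩ := s.fl_ex (hRA2 c) hz hinc.symm hst hcj
    refine ⟨g * s.j m, s.j ρ, Finset.mem_union_left _ (Finset.mem_image_of_mem _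
      (Finset.mem_biUnion.2 ⟨c, hc, hρ⟩)), ?_, mem_cj.2 (Subgroup.mem_zpowers_iff.2 ⟨k, hk.symm⟩)⟩
    refine (QuotientGroup.eq.2 ?_).symm
    rw [inv_mul_cancel_left]
    exact s.fl_j_mem.2 hm
  · rw [stab_ed_B] at hst
    obtain ⟨m, hm, ρ, hρ, k, hk⟩ := s.fl_ex (hRB2 c) hz hinc.symm hst hcj
    refine ⟨g * (s.t * s.j m * s.t⁻¹), s.t * s.j ρ * s.t⁻¹, Finset.mem_union_right _
      (Finset.mem_image.2 ⟨ρ, Finset.mem_biUnion.2 ⟨c, hc, hρ⟩, rfl⟩), ?_,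
      mem_cj.2 (Subgroup.mem_zpowers_iff.2 ⟨k, ?_⟩)⟩
    · refine (QuotientGroup.eq.2 ?_).symm
      rw [inv_mul_cancel_left]
      exact (s.mem_B_iff _).1 (s.fl_j_mem.2 hm)
    · rw [conj_zpow, ← hk]
      group

end St
end CPOR
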