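import Pool.Agent.P.MP_2cb329_al.SC

/-! The flow of a step, arrow pairs, exceptional elements (definitions and existence). -/

set_option autoImplicit false

namespace CPOR
namespace St

variable {L L' : Lv} (s : St L L')

open Classical in
/-- The flow with node group `A` and arrows `t * j ξ`. -/
noncomputable def flow (Ξ : Finset L'.G) : Flow L.G where
  I := s.SA
  fin := Fintype.ofFinite _
  dec := inferInstance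
  b := s.bS s.SA
  inj := s.bS_inj s.adm_A
  arr := Ξ.image fun ξ => s.t * s.j ξ

/-- `(e, e')` is an arrow pair. -/
def Arr (Ξ : Finset L'.G) (e e' : s.Ed) : Prop :=
  ∃ g g', s.ed g = e ∧ s.ed g' = e' ∧ (s.flow Ξ).Conn (g⁻¹ * g')

/-- Arrow data of a step. -/
structure AD where
  Ξ : Finset L'.G
  C0 : Finset L'.G
  ball : ∀ ξ, len L'.π ξ ≤ L'.u.length → ξ ∈ Ξ
  e0 : ∀ (e e' : s.Ed) (v : s.Vt), e ≠ e' → s.Inc e v → s.Inc e' v →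
    s.Arr Ξ e e' ∨ s.Arr Ξ e' e ∨ ∃ γ, ∃ c ∈ C0, s.vx γ = v ∧
      MulAction.stabilizer L.G e ⊓ MulAction.stabilizer L.G e' ≤ cj γ (Subgroup.zpowers (s.j c))
  g1 : (s.flow Ξ).G1
  g2 : (s.flow Ξ).G2
  g3 : (s.flow Ξ).G3

theorem fl1_norm_irrel {Y : Type} (d d' : DecidableEq Y) (f : FreeGroup Y) :
    @FreeGroup.norm Y d f = @FreeGroup.norm Y d' f := by
  rw [Subsingleton.elim d d']

theorem fl1_lift (Ξ : Finset L'.G) {f : FreeGroup L'.X} (hf : f ∈ FS s.SA) :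
    ∃ α : FreeGroup (s.flow Ξ).I, α.norm = f.norm ∧ (s.flow Ξ).b α = s.w f := by
  rw [← range_map_val] at hf
  obtain ⟨α, rfl⟩ := hf
  exact ⟨α, (fl1_norm_irrel _ _ _).trans (norm_map_val s.SA α).symm, rfl⟩

theorem fl1_down (Ξ : Finset L'.G) (α : FreeGroup (s.flow Ξ).I) :
    ∃ f ∈ FS s.SA, α.norm = f.norm ∧ (s.flow Ξ).b α = s.w f := by
  refine ⟨FreeGroup.map Subtype.val α, ?_, ?_, rfl⟩
  · rw [← range_map_val]; exact ⟨α, rfl⟩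
  · exact (fl1_norm_irrel _ _ _).trans (norm_map_val s.SA α).symm

theorem fl1_arr (Ξ : Finset L'.G) (c : L.G) : c ∈ (s.flow Ξ).arr ↔ ∃ ξ ∈ Ξ, s.t * s.j ξ = c := by
  classical
  simp only [flow, Finset.mem_image]

theorem fl1_connLe_iff (Ξ : Finset L'.G) (n : ℕ) (κ : L.G) : (s.flow Ξ).ConnLe n κ ↔
    ∃ ξ ∈ Ξ, ∃ α ∈ FS s.SA, ∃ β ∈ FS s.SA, α.norm ≤ n ∧ β.norm ≤ n ∧
      κ = s.w α * (s.t * s.j ξ) * s.w β := by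
  constructor
  · rintro ⟨c, hc, α, β, hα, hβ, rfl⟩
    obtain ⟨ξ, hξ, rfl⟩ := (s.fl1_arr Ξ c).1 hc
    obtain ⟨f, hf, hfn, hfe⟩ := s.fl1_down Ξ α
    obtain ⟨g, hg, hgn, hge⟩ := s.fl1_down Ξ β
    exact ⟨ξ, hξ, f, hf, g, hg, hfn ▸ hα, hgn ▸ hβ, by rw [hfe, hge]⟩
  · rintro ⟨ξ, hξ, f, hf, g, hg, hfn, hgn, rfl⟩
    obtain ⟨α, hαn, hα⟩ := s.fl1_lift Ξ hf
    obtain ⟨β, hβn, hβ⟩ := s.fl1_lift Ξ hg
    exact ⟨_, (s.fl1_arr Ξ _).2 ⟨ξ, hξ, rfl⟩, α, β, hαn.le.trans hfn, hβn.le.trans hgn,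
      by rw [hα, hβ]⟩

theorem fl1_conn_iff (Ξ : Finset L'.G) (κ : L.G) : (s.flow Ξ).Conn κ ↔
    ∃ ξ ∈ Ξ, ∃ α ∈ FS s.SA, ∃ β ∈ FS s.SA, κ = s.w α * (s.t * s.j ξ) * s.w β := by
  constructor
  · rintro ⟨c, hc, α, β, rfl⟩
    obtain ⟨ξ, hξ, rfl⟩ := (s.fl1_arr Ξ c).1 hc
    obtain ⟨f, hf, -, hfe⟩ := s.fl1_down Ξ α
    obtain ⟨g, hg, -, hge⟩ := s.fl1_down Ξ β
    exact ⟨ξ, hξ, f, hf, g, hg, by rw [hfe, hge]⟩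
  · rintro ⟨ξ, hξ, f, hf, g, hg, rfl⟩
    obtain ⟨α, -, hα⟩ := s.fl1_lift Ξ hf
    obtain ⟨β, -, hβ⟩ := s.fl1_lift Ξ hg
    exact ⟨_, (s.fl1_arr Ξ _).2 ⟨ξ, hξ, rfl⟩, α, β, by rw [hα, hβ]⟩

theorem fl1_w_apply (f : FreeGroup L'.X) : s.w f = s.j (L'.π f) := rfl

theorem fl1_w_mul_t {f : FreeGroup L'.X} (hf : f ∈ FS s.SA) : s.w f * s.t = s.t * s.w (s.sh f) := by
  rw [← s.conj_w hf]; group

theorem Arr.tgt_eq {Ξ : Finset L'.G} {e e' : s.Ed} (h : s.Arr Ξ e e') : s.tgt e = s.src e' := by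
  obtain ⟨g, g', rfl, rfl, hc⟩ := h
  obtain ⟨ξ, -, α, hα, β, -, he⟩ := (s.fl1_conn_iff Ξ _).1 hc
  rw [tgt_ed, src_ed]
  refine s.vx_eq_iff.2 ⟨L'.π (s.sh α) * ξ * L'.π β, ?_⟩
  rw [inv_mul_eq_iff_eq_mul] at he
  rw [he, ← mul_assoc (s.w α), s.fl1_w_mul_t hα, map_mul, map_mul, fl1_w_apply, fl1_w_apply]
  group

theorem Arr.conn {Ξ : Finset L'.G} {g g' : L.G} (h : s.Arr Ξ (s.ed g) (s.ed g')) :
    (s.flow Ξ).Conn (g⁻¹ * g') := by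
  obtain ⟨x, x', hx, hx', hc⟩ := h
  obtain ⟨ξ, hξ, α, hα, β, hβ, he⟩ := (s.fl1_conn_iff Ξ _).1 hc
  obtain ⟨f, hf, rfl⟩ := s.ed_eq_iff.1 hx
  obtain ⟨f', hf', rfl⟩ := s.ed_eq_iff.1 hx'
  refine (s.fl1_conn_iff Ξ _).2 ⟨ξ, hξ, f⁻¹ * α, (FS _).mul_mem ((FS _).inv_mem hf) hα, β * f',
    (FS _).mul_mem hβ hf', ?_⟩
  rw [map_mul, map_mul, map_inv]
  have : (x * s.w f)⁻¹ * (x' * s.w f') = (s.w f)⁻¹ * (x⁻¹ * x') * s.w f' := by group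
  rw [this, he]; group

theorem Arr.smul {Ξ : Finset L'.G} {e e' : s.Ed} (h : s.Arr Ξ e e') (g : L.G) :
    s.Arr Ξ (g • e) (g • e') := by
  obtain ⟨x, x', rfl, rfl, hc⟩ := h
  refine ⟨g * x, g * x', rfl, rfl, ?_⟩
  rwa [show (g * x)⁻¹ * (g * x') = x⁻¹ * x' by group]

theorem arr_of_conn {Ξ : Finset L'.G} (g : L.G) {κ : L.G} (h : (s.flow Ξ).Conn κ) :
    s.Arr Ξ (s.ed g) (s.ed (g * κ)) ∧ s.Arr Ξ (s.ed (g * κ⁻¹)) (s.ed g) := by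
  refine ⟨⟨g, g * κ, rfl, rfl, ?_⟩, ⟨g * κ⁻¹, g, rfl, rfl, ?_⟩⟩
  · rwa [inv_mul_cancel_left]
  · rwa [show (g * κ⁻¹)⁻¹ * g = κ by group]

theorem arr_of_mem {Ξ : Finset L'.G} {g g' : L.G} {ξ : L'.G} (hξ : ξ ∈ Ξ)
    (h : g' = g * s.t * s.j ξ) : s.Arr Ξ (s.ed g) (s.ed g') := by
  refine ⟨g, g', rfl, rfl, (s.fl1_conn_iff Ξ _).2 ⟨ξ, hξ, 1, (FS _).one_mem, 1, (FS _).one_mem, ?_⟩⟩
  rw [h, map_one]; group

theorem connLe_of_len (hH : L'.Cl) (Ξ : Finset L'.G) : ∃ F, Bd F ∧ ∀ (n : ℕ) (κ : L.G),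
    (s.flow Ξ).Conn κ → len L.π κ ≤ n → (s.flow Ξ).ConnLe (F n) κ := by
  obtain ⟨FH, hFH, hmem⟩ := s.memH hH
  obtain ⟨FD, hFD, hdc⟩ := hH.dc1 s.SB s.SA s.adm_B s.adm_A
  obtain ⟨FA, hFA, hA⟩ := hH.mem s.SA s.adm_A
  obtain ⟨FB', hFB, hB⟩ := hH.mem s.SB s.adm_B
  have hM : Bd fun n => FH (len L.π s.t + n) + Ξ.sup (len L'.π) :=
    (hFH.comp ((Bd.const _).add Bd.id)).add (Bd.const _)
  have hK : Bd fun M => FB' (FD M) + FA (M + FD M + M) :=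
    (hFB.comp hFD).add (hFA.comp ((Bd.id.add hFD).add Bd.id))
  refine ⟨_, hK.comp hM, fun n κ hc hl => ?_⟩
  obtain ⟨ξ, hξ, α, hα, β, hβ, he⟩ := (s.fl1_conn_iff Ξ _).1 hc
  set M := FH (len L.π s.t + n) + Ξ.sup (len L'.π) with hMdef
  set h := L'.π (s.sh α) * ξ * L'.π β with hh
  have e1 : s.j h = s.t⁻¹ * κ := by
    rw [he, ← mul_assoc (s.w α), s.fl1_w_mul_t hα, hh, map_mul, map_mul, fl1_w_apply, fl1_w_apply]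
    group
  have l1 : len L'.π h ≤ M := by
    refine ((hmem h).trans (hFH.mono ?_)).trans (Nat.le_add_right _ _)
    rw [e1]
    refine (len_mul L.surj _ _).trans ?_
    rw [len_inv L.surj]; omega
  have l2 : len L'.π ξ ≤ M :=
    (Finset.le_sup (f := len L'.π) hξ).trans (Nat.le_add_left _ _)
  obtain ⟨m', hm', hm2, hml⟩ := hdc M ξ h l2 l1 (L'.π (s.sh α)) (mem_MS.2 ⟨_, s.sh_mem hα, rfl⟩)
    (by
      have : h⁻¹ * L'.π (s.sh α) * ξ = L'.π β⁻¹ := by rw [hh, map_inv]; group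
      rw [this]; exact mem_MS.2 ⟨_, (FS _).inv_mem hβ, rfl⟩)
  obtain ⟨f, hf, rfl⟩ := mem_MS.1 hm'
  obtain ⟨β', hβ', hβe⟩ := mem_MS.1 hm2
  obtain ⟨α', hα', rfl⟩ := s.sh_surj hf
  refine (s.fl1_connLe_iff Ξ _ _).2 ⟨ξ, hξ, α', hα', β'⁻¹, (FS _).inv_mem hβ', ?_, ?_, ?_⟩
  · rw [← s.sh_norm hα']
    exact ((hB _ hf).trans (hFB.mono hml)).trans (Nat.le_add_right _ _)
  · rw [FreeGroup.norm_inv_eq]
    refine ((hA _ hβ').trans (hFA.mono ?_)).trans (Nat.le_add_left _ _)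
    rw [hβe]
    refine (len_mul3 L'.surj _ _ _).trans ?_
    rw [len_inv L'.surj]; omega
  · rw [← mul_assoc (s.w α'), s.fl1_w_mul_t hα', map_inv, fl1_w_apply, fl1_w_apply, hβe, map_mul, map_mul,
      map_inv, e1]
    group

theorem dLe_iff (Ξ : Finset L'.G) (n : ℕ) (g g' : L.G) :
    (s.flow Ξ).DLe n g g' ↔ ∃ f ∈ FS s.SA, f.norm ≤ n ∧ g' = g * s.w f := by
  constructor
  · rintro ⟨α, hα, rfl⟩
    obtain ⟨f, hf, hfn, hfe⟩ := s.fl1_down Ξ α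
    exact ⟨f, hf, hfn ▸ hα, by rw [hfe]⟩
  · rintro ⟨f, hf, hfn, rfl⟩
    obtain ⟨α, hαn, hα⟩ := s.fl1_lift Ξ hf
    exact ⟨α, hαn.le.trans hfn, by rw [hα]⟩

theorem dLe_of_len (hH : L'.Cl) (Ξ : Finset L'.G) : ∃ F, Bd F ∧ ∀ (n : ℕ) (g g' : L.G),
    s.ed g = s.ed g' → len L.π (g⁻¹ * g') ≤ n → (s.flow Ξ).DLe (F n) g g' := by
  obtain ⟨F, hF, h⟩ := s.memW hH s.adm_A
  refine ⟨F, hF, fun n g g' he hl => ?_⟩
  obtain ⟨f, hf, rfl⟩ := s.ed_eq_iff.1 he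
  rw [inv_mul_cancel_left] at hl
  exact (s.dLe_iff Ξ _ _ _).2 ⟨f, hf, (h f hf).trans (hF.mono hl), rfl⟩

theorem cycLe_iff (Ξ : Finset L'.G) (n : ℕ) (x g : L.G) :
    (s.flow Ξ).CycLe n x g ↔ s.CycE n x (s.ed g) := by
  constructor
  · rintro ⟨z, hz, hd⟩
    exact ⟨z, hz, (s.dLe_iff Ξ _ _ _).1 hd⟩
  · rintro ⟨z, hz, hd⟩
    exact ⟨z, hz, (s.dLe_iff Ξ _ _ _).2 hd⟩

theorem CycE.smul {n : ℕ} {x : L.G} {e : s.Ed} (h : s.CycE n x e) (g : L.G) :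
    s.CycE n (g * x * g⁻¹) (g • e) := by
  obtain ⟨y, rfl, f, hf, hn, he⟩ := h
  refine ⟨g * y, rfl, f, hf, hn, ?_⟩
  rw [mul_assoc g y, ← he]; group

theorem CycE.mono {n m : ℕ} {x : L.G} {e : s.Ed} (h : s.CycE n x e) (hnm : n ≤ m) :
    s.CycE m x e := by
  obtain ⟨y, hy, f, hf, hn, he⟩ := h
  exact ⟨y, hy, f, hf, hn.trans hnm, he⟩

/-- `z` is exceptional at the edge `e`. -/
def Ex (C1 : Finset L.G) (z : L.G) (e : s.Ed) : Prop :=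
  ∃ γ, ∃ ρ ∈ C1, s.ed γ = e ∧ z ∈ cj γ (Subgroup.zpowers ρ)

/-- `C1` is an exceptional set for the finite set `C` of elements of `H`. -/
def ExSet (C : Finset L'.G) (C1 : Finset L.G) : Prop :=
  (∀ ρ ∈ C1, ρ ∈ s.M' s.SA ∧ ρ ≠ 1) ∧
    ∀ (z γ : L.G) (e : s.Ed), ∀ c ∈ C, z ≠ 1 → z • e = e → s.Inc e (s.vx γ) →
      z ∈ cj γ (Subgroup.zpowers (s.j c)) → s.Ex C1 z e

theorem Ex.smul {C1 : Finset L.G} {z : L.G} {e : s.Ed} (h : s.Ex C1 z e) (g : L.G) :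
    s.Ex C1 (g * z * g⁻¹) (g • e) := by
  obtain ⟨γ, ρ, hρ, rfl, hz⟩ := h
  refine ⟨g * γ, ρ, hρ, rfl, ?_⟩
  rw [mem_cj] at hz ⊢
  rwa [show (g * γ)⁻¹ * (g * z * g⁻¹) * (g * γ) = γ⁻¹ * z * γ by group]

end St
end CPOR
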