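import Pool.Agent.P.MP_2cb329_al.EX

/-! Division by large primes: the step. -/

set_option autoImplicit false

namespace CPOR
namespace St

variable {L L' : Lv} (s : St L L') (D : s.AD) (hH : L'.Cl)

theorem gb2_shift {u : L.G} {e : ℤ → s.Ed} {l : ℕ} (hue : ∀ i, u • e i = e (i + l)) (k : ℤ) :
    ∀ i, u ^ k • e i = e (i + l * k) := by
  induction k using Int.induction_on with
  | zero => intro i; simp
  | succ k ih =>
    intro i
    rw [zpow_add_one, mul_smul, hue, ih]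
    congr 1; ring
  | pred k ih =>
    intro i
    have h : u⁻¹ • e i = e (i - l) := by
      rw [inv_smul_eq_iff, hue]; congr 1; ring
    rw [zpow_sub_one, mul_smul, h, ih]
    congr 1; ring

/-- An equivariant choice of points with small differences. -/
theorem gb2_points {n l : ℕ} {u : L.G} {e : ℤ → s.Ed} (hl : 1 ≤ l) (hu : len L.π u ≤ n)
    (hue : ∀ i, u • e i = e (i + l)) (hsm : ∀ i : ℤ, 0 ≤ i → i < l → s.SmE n (e i)) :
    ∃ x : ℤ → L.G, (∀ i, s.ed (x i) = e i) ∧ (∀ i, x (i + l) = u * x i) ∧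
      (∀ i, len L.π ((x i)⁻¹ * x (i + 1)) ≤ 3 * n) ∧ len L.π (x 0) ≤ n := by
  have hπ := L.surj
  have hl' : (0 : ℤ) < l := by exact_mod_cast hl
  have hex : ∀ i : ℤ, ∃ g : L.G, 0 ≤ i → i < l → s.ed g = e i ∧ len L.π g ≤ n := fun i => by
    by_cases h : 0 ≤ i ∧ i < l
    · obtain ⟨g, hg⟩ := hsm i h.1 h.2
      exact ⟨g, fun _ _ => hg⟩
    · exact ⟨1, fun h1 h2 => absurd ⟨h1, h2⟩ h⟩
  choose a ha using hex
  have hm : ∀ i : ℤ, s.ed (a (i % l)) = e (i % l) ∧ len L.π (a (i % l)) ≤ n := fun i =>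
    ha _ (Int.emod_nonneg _ hl'.ne') (Int.emod_lt_of_pos _ hl')
  refine ⟨fun i => u ^ (i / l) * a (i % l), fun i => ?_, fun i => ?_, fun i => ?_, ?_⟩
  · rw [← s.smul_ed, (hm i).1, s.gb2_shift hue, Int.emod_add_mul_ediv]
  · show u ^ ((i + l) / l) * a ((i + l) % l) = u * (u ^ (i / l) * a (i % l))
    have h : (i + l) / l = i / l + 1 := by
      simpa using Int.add_mul_ediv_right i 1 hl'.ne'
    rw [Int.add_emod_right, h]
    group
  · show len L.π ((u ^ (i / l) * a (i % l))⁻¹ * (u ^ ((i + 1) / l) * a ((i + 1) % l))) ≤ 3 * n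
    have h1 := Int.emod_add_mul_ediv i l
    have h2 := Int.emod_nonneg i hl'.ne'
    have h3 := Int.emod_lt_of_pos i hl'
    have hq : (i + 1) / l = i / l ∨ (i + 1) / l = i / l + 1 := by
      by_cases h : i % l + 1 < l
      · left
        exact ((Int.ediv_emod_unique hl').2 ⟨(by linarith : i % l + 1 + l * (i / l) = i + 1),
          by omega, h⟩).1
      · right
        exact ((Int.ediv_emod_unique hl').2
          ⟨(by rw [mul_add]; omega : 0 + l * (i / l + 1) = i + 1), le_rfl, hl'⟩).1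
    have b1 := (hm i).2
    have b2 := (hm (i + 1)).2
    rcases hq with hq | hq
    · have : (u ^ (i / l) * a (i % l))⁻¹ * (u ^ ((i + 1) / l) * a ((i + 1) % l)) =
          (a (i % l))⁻¹ * a ((i + 1) % l) := by rw [hq]; group
      rw [this]
      have := len_mul hπ (a (i % l))⁻¹ (a ((i + 1) % l))
      rw [len_inv hπ] at this
      omega
    · have : (u ^ (i / l) * a (i % l))⁻¹ * (u ^ ((i + 1) / l) * a ((i + 1) % l)) =
          (a (i % l))⁻¹ * u * a ((i + 1) % l) := by rw [hq]; group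
      rw [this]
      have := len_mul3 hπ (a (i % l))⁻¹ u (a ((i + 1) % l))
      rw [len_inv hπ] at this
      omega
  · have := (hm 0).2
    simpa using this

/-- Torsion freeness and roots in an edge group. -/
theorem gb2_tf {e : s.Ed} {d : L.G} (hd : d • e = e) {n : ℤ} (hn : n ≠ 0) (h : d ^ n = 1) :
    d = 1 := by
  obtain ⟨g, rfl⟩ := Quotient.mk''_surjective e
  have h1 : d ∈ cj g (s.M' s.SA) := by rw [← s.stab_ed]; exact hd
  obtain ⟨f, hf, he⟩ := s.mem_M'.1 (mem_cj.1 h1)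
  by_contra hne
  have h2 : f ≠ 1 := fun k => hne (by
    rw [k, map_one] at he
    rw [show d = g * (g⁻¹ * d * g) * g⁻¹ by group, ← he]; group)
  refine zpow_ne_one h2 hn (s.w_inj s.adm_A (Subgroup.zpow_mem _ hf n) (Subgroup.one_mem _) ?_)
  rw [map_zpow, he, map_one, show g⁻¹ * d * g = g⁻¹ * d * g⁻¹⁻¹ by rw [inv_inv], conj_zpow, h]
  group

theorem gb2_cyc {x y c : L.G} {e : ℤ → s.Ed} {l : ℕ} (hx : ∀ i, x • e i = e (i + l))
    (hy : ∀ i, y • e i = e (i + l)) {m : ℤ} (hm : m ≠ 0) (h : x ^ m = y ^ m)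
    (hc : ∀ g : L.G, (∀ i, g • e i = e i) → g ∈ Subgroup.zpowers c) : x ^ 2 = y ^ 2 := by
  let E : Subgroup L.G := ⨅ i, MulAction.stabilizer L.G (e i)
  have mE : ∀ g, g ∈ E ↔ ∀ i, g • e i = e i := fun g => Subgroup.mem_iInf
  obtain ⟨n, hn⟩ := (Subgroup.le_zpowers_iff c E).1 fun g hg => hc g ((mE g).1 hg)
  generalize c ^ n = d at hn
  have hx' : ∀ i, x⁻¹ • e (i + l) = e i := fun i => by rw [← hx, inv_smul_smul]
  have dE : ∀ i, d • e i = e i := (mE d).1 (hn ▸ Subgroup.mem_zpowers d)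
  obtain ⟨i, hi⟩ : x⁻¹ * y ∈ Subgroup.zpowers d :=
    hn ▸ (mE _).2 fun i => by rw [mul_smul, hy, hx']
  obtain ⟨b, hb⟩ : x⁻¹ * d * x ∈ Subgroup.zpowers d :=
    hn ▸ (mE _).2 fun i => by rw [mul_smul, mul_smul, hx, dE, hx']
  obtain ⟨a, ha⟩ : x * d * x⁻¹ ∈ Subgroup.zpowers d :=
    hn ▸ (mE _).2 fun i => by
      obtain ⟨j, rfl⟩ : ∃ j, i = j + l := ⟨i - l, by ring⟩
      rw [mul_smul, mul_smul, hx', dE, hx]
  beta_reduce at hi hb ha
  have ey : y = x * d ^ i := by rw [hi, mul_inv_cancel_left]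
  by_cases hd : d = 1
  · rw [ey, hd, one_zpow, mul_one]
  have hab : a * b = 1 := by
    by_contra hne
    refine hd (s.gb2_tf (dE 0) (n := a * b - 1) (sub_ne_zero.2 hne) ?_)
    rw [zpow_sub_one, zpow_mul, ha, conj_zpow, hb]
    group
  have hconj : x⁻¹ * d ^ i * x = d ^ (b * i) := by
    rw [zpow_mul, hb, show x⁻¹ * d * x = x⁻¹ * d * x⁻¹⁻¹ by rw [inv_inv], conj_zpow, inv_inv]
  rcases Int.eq_one_or_neg_one_of_mul_eq_one' hab with ⟨-, rfl⟩ | ⟨-, rfl⟩
  · rw [one_mul] at hconj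
    have hcm : Commute x (d ^ i) := by
      change x * d ^ i = d ^ i * x
      rw [← mul_inv_cancel_left x (d ^ i * x), ← mul_assoc x⁻¹, hconj]
    rw [ey, hcm.mul_zpow, left_eq_mul] at h
    have h1 : d ^ i = 1 := s.gb2_tf (e := e 0)
      (Subgroup.zpow_mem (MulAction.stabilizer L.G (e 0)) (dE 0) i) hm h
    rw [ey, h1, mul_one]
  · rw [ey, pow_two, pow_two, show x * d ^ i * (x * d ^ i) = x * x * (x⁻¹ * d ^ i * x) * d ^ i by group,
      hconj]
    group

include hH in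
theorem gb2_arr {N : ℕ} {F : ℕ → ℕ} (H : ∀ (L₀ k n : ℕ) (u u' : L.G) (x x' : ℤ → L.G),
      (s.flow D.Ξ).Thread L₀ k u x → (s.flow D.Ξ).Thread L₀ k u' x' →
      (∀ i : ℤ, 0 ≤ i → i ≤ n → (s.flow D.Ξ).nd (x i) = (s.flow D.Ξ).nd (x' i)) →
      (s.flow D.Ξ).DLe L₀ (x 0) (x' 0) → (s.flow D.Ξ).DLe L₀ (x n) (x' n) →
      n ≤ F L₀ ∨ u ^ N = u' ^ N)
    {x y : L.G} {e : ℤ → s.Ed} {l : ℕ} (hl : 1 ≤ l) (hx : ∀ i, x • e i = e (i + l))
    (hy : ∀ i, y • e i = e (i + l)) {m : ℕ} (hm : m ≠ 0) (h : x ^ m = y ^ m)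
    (harr : ∀ i, s.Arr D.Ξ (e i) (e (i + 1))) : x ^ N = y ^ N := by
  obtain ⟨F1, hF1, h1⟩ := s.connLe_of_len hH D.Ξ
  obtain ⟨F2, hF2, h2⟩ := s.dLe_of_len hH D.Ξ
  choose g hg using fun i => Quotient.mk''_surjective (e i)
  set n := len L.π x + len L.π y + (Finset.range l).sup fun i : ℕ => len L.π (g i) with hn
  have sm : ∀ i : ℤ, 0 ≤ i → i < l → s.SmE n (e i) := fun i a b => by
    obtain ⟨i, rfl⟩ := Int.eq_ofNat_of_zero_le a
    refine ⟨g i, hg i, le_trans ?_ (Nat.le_add_left _ _)⟩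
    exact Finset.le_sup (f := fun i : ℕ => len L.π (g i)) (Finset.mem_range.2 (by omega))
  obtain ⟨p, p1, p2, p3, p4⟩ := s.gb2_points hl (by omega : len L.π x ≤ n) hx sm
  obtain ⟨q, q1, q2, q3, q4⟩ := s.gb2_points hl (by omega : len L.π y ≤ n) hy sm
  set L₀ := F1 (3 * n) + F2 (2 * n) + l with hL
  have key : ∀ (u : L.G) (z : ℤ → L.G), (∀ i, s.ed (z i) = e i) → (∀ i, z (i + l) = u * z i) →
      (∀ i, len L.π ((z i)⁻¹ * z (i + 1)) ≤ 3 * n) → (s.flow D.Ξ).Thread L₀ l u z := by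
    intro u z a b c
    refine ⟨hl, by omega, b, fun i => ?_⟩
    have hc : (s.flow D.Ξ).Conn ((z i)⁻¹ * z (i + 1)) :=
      Arr.conn s (by rw [a, a]; exact harr i)
    obtain ⟨κ, hκ, α, β, r1, r2, r3⟩ := h1 _ _ hc (c i)
    exact ⟨κ, hκ, α, β, by omega, by omega, r3⟩
  have it : ∀ (u : L.G) (z : ℤ → L.G), (∀ i, z (i + l) = u * z i) →
      ∀ k : ℕ, z ((k * l : ℕ) : ℤ) = u ^ k * z 0 := by
    intro u z b k
    induction k with
    | zero => simp
    | succ k ih => rw [show (((k + 1) * l : ℕ) : ℤ) = ((k * l : ℕ) : ℤ) + l by push_cast; ring, b,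
        ih, pow_succ', mul_assoc]
  obtain ⟨α, a1, a2⟩ := h2 (2 * n) (p 0) (q 0) ((p1 0).trans (q1 0).symm) (by
    have := len_mul L.surj (p 0)⁻¹ (q 0)
    rw [len_inv L.surj] at this
    omega)
  refine (H L₀ l (m * (F L₀ + 1) * l) x y p q (key x p p1 p2 p3) (key y q q1 q2 q3)
    (fun i _ _ => (p1 i).trans (q1 i).symm) ⟨α, by omega, a2⟩ ⟨α, by omega, ?_⟩).resolve_left ?_
  · rw [it x p p2, it y q q2, pow_mul, pow_mul, h, a2, mul_assoc]
  · have h3 : 1 * (F L₀ + 1) * 1 ≤ m * (F L₀ + 1) * l :=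
      Nat.mul_le_mul (Nat.mul_le_mul_right _ (by omega)) hl
    omega

include D hH

/-- Two hyperbolic elements with the same axis and translation length and a common power have a
common power with bounded exponent. -/
theorem hyp_common : ∃ N : ℕ, 0 < N ∧ ∀ (x y : L.G) (a : ℤ → s.Vt) (l : ℕ),
    ZT.IsAxis s.T x a l → ZT.IsAxis s.T y a l → ∀ m : ℤ, m ≠ 0 → x ^ m = y ^ m →
    x ^ N = y ^ N := by
  obtain ⟨N, F, hN, -, H⟩ := D.g2
  refine ⟨2 * N, by omega, fun x y a l ha hb m hm h => ?_⟩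
  obtain ⟨e, he, hne, htri⟩ := s.line_edges ha.1
  have sh : ∀ {u : L.G}, ZT.IsAxis s.T u a l → ∀ i, u • e i = e (i + l) := fun {u} hu i => by
    have := Join.smul s (he i) u
    rw [hu.2.2, hu.2.2, show i + 1 + l = i + l + 1 by ring] at this
    exact s.join_unique this (he _)
  have hx := sh ha
  have hy := sh hb
  have inc : ∀ i, s.Inc (e i) (a (i + 1)) ∧ s.Inc (e (i + 1)) (a (i + 1)) := fun i =>
    ⟨(he i).elim (fun h => Or.inr h.2) fun h => Or.inl h.1,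
      (he (i + 1)).elim (fun h => Or.inl h.1) fun h => Or.inr h.2⟩
  by_cases hcyc : ∃ i d, MulAction.stabilizer L.G (e i) ⊓ MulAction.stabilizer L.G (e (i + 1)) ≤
      Subgroup.zpowers d
  · obtain ⟨i, d, hd⟩ := hcyc
    rw [pow_mul, pow_mul, s.gb2_cyc hx hy hm h fun g hg => hd ⟨hg i, hg (i + 1)⟩]
  have arr : ∀ i, s.Arr D.Ξ (e i) (e (i + 1)) ∨ s.Arr D.Ξ (e (i + 1)) (e i) := fun i => by
    rcases D.e0 _ _ _ (hne i) (inc i).1 (inc i).2 with h | h | ⟨γ, d, -, -, h⟩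
    · exact Or.inl h
    · exact Or.inr h
    · refine absurd ⟨i, γ * s.j d * γ⁻¹, h.trans fun x hx => ?_⟩ hcyc
      obtain ⟨n, hn⟩ := Subgroup.mem_zpowers_iff.1 (mem_cj.1 hx)
      exact Subgroup.mem_zpowers_iff.2 ⟨n, by rw [conj_zpow, hn]; group⟩
  have nb : ∀ i, a i ≠ a (i + 1 + 1) := fun i => by
    rw [show i + 1 + 1 = i + 2 by ring]; exact ha.1.2 i
  have h' : x ^ m.natAbs = y ^ m.natAbs := by
    rcases Int.natAbs_eq m with k | k <;> rw [k] at h
    · exact_mod_cast h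
    · rw [zpow_neg, zpow_neg, inv_inj] at h
      exact_mod_cast h
  have hm' : m.natAbs ≠ 0 := Int.natAbs_ne_zero.2 hm
  rw [mul_comm, pow_mul, pow_mul]
  congr 1
  rcases htri with ht | ht | ⟨i, ht⟩
  · exact s.gb2_arr D hH H ha.2.1 hx hy hm' h' fun i => (arr i).resolve_right fun h => by
      have := Arr.tgt_eq s h
      rw [(ht (i + 1)).2, (ht i).1] at this
      exact nb i this.symm
  · have k := s.gb2_arr D hH H (x := x⁻¹) (y := y⁻¹) (e := fun j => e (-j)) ha.2.1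
      (fun j => by rw [inv_smul_eq_iff, hx]; congr 1; ring)
      (fun j => by rw [inv_smul_eq_iff, hy]; congr 1; ring) hm' (by rw [inv_pow, inv_pow, h'])
      (fun i => by
        have := (arr (-(i + 1))).resolve_left fun h => by
          have := Arr.tgt_eq s h
          rw [(ht _).1, (ht _).2] at this
          exact nb _ this
        rwa [show -(i + 1) + 1 = -i by ring] at this)
    rwa [inv_pow, inv_pow, inv_inj] at k
  · exfalso
    rcases arr i with h | h <;> have h' := Arr.tgt_eq s h <;> rcases ht with ht | ht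
    · exact s.src_ne_tgt _ (ht.trans h'.symm)
    · exact s.src_ne_tgt _ (h'.symm.trans ht)
    · exact s.src_ne_tgt _ (ht.symm.trans h'.symm)
    · exact s.src_ne_tgt _ (h'.symm.trans ht.symm)

end St
end CPOR
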