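import Pool.Agent.P.MP_2cb329_al.GB1
import Pool.Agent.P.MP_2cb329_al.GB2

/-! Division by large primes: the step. -/

set_option autoImplicit false

namespace CPOR

theorem ZT.IsAxis.zpow {V : Type*} {T : SimpleGraph V} {Γ : Type*} [Group Γ] [MulAction Γ V]
    {g : Γ} {a : ℤ → V} {l : ℕ} (h : ZT.IsAxis T g a l) {n : ℤ} (hn : n ≠ 0) :
    ZT.IsAxis T (g ^ n) (fun i => a (n.sign * i)) (n.natAbs * l) := by
  refine ⟨?_, Nat.mul_pos (Int.natAbs_pos.2 hn) h.2.1, fun i => ?_⟩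
  · rcases lt_or_gt_of_ne hn with h1 | h1
    · have := h.1.rev 0
      simpa [Int.sign_eq_neg_one_of_neg h1] using this
    · simpa [Int.sign_eq_one_of_pos h1] using h.1
  · show g ^ n • a (n.sign * i) = a (n.sign * (i + ((n.natAbs * l : ℕ) : ℤ)))
    rw [h.zpow_smul]
    congr 1
    have : n.sign * (n.natAbs : ℤ) = n := Int.sign_mul_natAbs n
    push_cast at this ⊢
    rw [mul_add, ← mul_assoc, this]

theorem eq_of_pow_coprime {G : Type*} [Group G] {x y : G} {p N : ℕ} (hc : Nat.Coprime p N)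
    (hp : x ^ p = y ^ p) (hN : x ^ N = y ^ N) : x = y := by
  have h1 : ((1 : ℕ) : ℤ) = p * Nat.gcdA p N + N * Nat.gcdB p N := by
    rw [← Nat.gcd_eq_gcd_ab, hc]
  have e : ∀ z : G, z = (z ^ p) ^ Nat.gcdA p N * (z ^ N) ^ Nat.gcdB p N := fun z => by
    rw [← zpow_natCast, ← zpow_natCast, ← zpow_mul, ← zpow_mul, ← zpow_add, ← h1]
    simp
  rw [e x, hp, hN, ← e y]

theorem zpow_eq_one_zero {G : Type*} [Group G] {c : G} (hc : ¬ IsOfFinOrder c) {n : ℤ}
    (h : c ^ n = 1) : n = 0 := by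
  by_contra hn
  exact hc (isOfFinOrder_iff_zpow_eq_one.2 ⟨n, hn, h⟩)

namespace St

variable {L L' : Lv} (s : St L L')

theorem ell_or_axis (c : L.G) : (∃ g h, c = g * s.j h * g⁻¹) ∨
    ∃ (a : ℤ → s.Vt) (l : ℕ), ZT.IsAxis s.T c a l := by
  rcases ZT.ell_or_hyp s.T_acyclic s.T_acts s.T_noinv c (s.T_reach (s.vx 1) _) with
    ⟨p, -, hp⟩ | ⟨a, l, ha, -⟩
  · left
    obtain ⟨g, rfl⟩ := QuotientGroup.mk_surjective p
    have : s.vx g = s.vx (c * g) := hp.symm
    obtain ⟨h, hh⟩ := s.vx_eq_iff.1 this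
    exact ⟨g, h, by rw [← hh]; group⟩
  · exact Or.inr ⟨a, l, ha⟩

theorem axis_not_conj {c : L.G} {a : ℤ → s.Vt} {l : ℕ} (ha : ZT.IsAxis s.T c a l) {n : ℤ}
    {h : L'.G} (hc : IsConj (c ^ n) (s.j h)) : n = 0 := by
  by_contra hn
  obtain ⟨g, hg⟩ := isConj_iff.1 hc
  refine (ha.zpow hn).not_fix s.T_acyclic s.T_acts (s.T_reach (s.vx g⁻¹) _) ?_
  rw [smul_vx]
  exact (s.vx_eq_iff.2 ⟨h, by rw [← hg]; group⟩).symm

theorem isConj_ell (g : L.G) (h : L'.G) (n : ℤ) : IsConj ((g * s.j h * g⁻¹) ^ n) (s.j h ^ n) := by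
  rw [conj_zpow]
  exact (isConj_iff.2 ⟨g, rfl⟩).symm

theorem not_fin_ell {g : L.G} {h : L'.G} (hc : ¬ IsOfFinOrder (g * s.j h * g⁻¹)) :
    ¬ IsOfFinOrder h := by
  intro H
  obtain ⟨n, hn, e⟩ := isOfFinOrder_iff_zpow_eq_one.1 H
  refine hc (isOfFinOrder_iff_zpow_eq_one.2 ⟨n, hn, ?_⟩)
  rw [conj_zpow, ← map_zpow, e]
  simp

variable (D : s.AD) (hH : L'.Cl)
include D hH

theorem gbs_G : GBS L.G := by
  intro c c' hc hc'
  rcases s.ell_or_axis c with ⟨g, h, rfl⟩ | ⟨a, l, ha⟩ <;>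
    rcases s.ell_or_axis c' with ⟨g', h', rfl⟩ | ⟨b, l', hb⟩
  · obtain ⟨P, hP⟩ := s.gbs_ell D hH h h' (s.not_fin_ell hc) (s.not_fin_ell hc')
    refine ⟨P, fun p hp hpP m m' H => ?_⟩
    obtain ⟨m'', e, H'⟩ := hP p hp hpP m m'
      (((s.isConj_ell g h _).symm.trans H).trans (s.isConj_ell g' h' _))
    exact ⟨m'', e, ((s.isConj_ell g h _).trans H').trans (s.isConj_ell g' h' _).symm⟩
  · refine ⟨0, fun p hp _ m m' H => ?_⟩
    have h1 : IsConj (c' ^ m') (s.j (h ^ ((p : ℤ) * m))) := by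
      rw [map_zpow]
      exact H.symm.trans (s.isConj_ell g h _)
    have h2 := s.axis_not_conj hb h1
    subst h2
    rw [zpow_zero, isConj_one_left] at H
    have h3 := zpow_eq_one_zero hc H
    have h4 : m = 0 := by
      rcases mul_eq_zero.1 h3 with h5 | h5
      · exact absurd (by exact_mod_cast h5) hp.ne_zero
      · exact h5
    subst h4
    exact ⟨0, by simp, by simp⟩
  · refine ⟨0, fun p hp _ m m' H => ?_⟩
    have h1 : IsConj (c ^ ((p : ℤ) * m)) (s.j (h' ^ m')) := by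
      rw [map_zpow]
      exact H.trans (s.isConj_ell g' h' _)
    have h3 := s.axis_not_conj ha h1
    have h4 : m = 0 := by
      rcases mul_eq_zero.1 h3 with h5 | h5
      · exact absurd (by exact_mod_cast h5) hp.ne_zero
      · exact h5
    subst h4
    rw [mul_zero, zpow_zero, isConj_one_right] at H
    have h2 := zpow_eq_one_zero hc' H
    subst h2
    exact ⟨0, by simp, by simp⟩
  · obtain ⟨N, hN, hcom⟩ := s.hyp_common D hH
    refine ⟨max l' N, fun p hp hpP m m' H => ?_⟩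
    have hp0 : (p : ℤ) ≠ 0 := by exact_mod_cast hp.ne_zero
    by_cases hm : m = 0
    · subst hm
      rw [mul_zero, zpow_zero, isConj_one_right] at H
      have h2 := zpow_eq_one_zero hc' H
      subst h2
      exact ⟨0, by simp, by simp⟩
    obtain ⟨g, hg⟩ := isConj_iff.1 H
    have hm' : m' ≠ 0 := by
      rintro rfl
      rw [zpow_zero, isConj_one_left] at H
      exact mul_ne_zero hp0 hm (zpow_eq_one_zero hc H)
    have hd := ha.conj s.T_acts g
    rw [← conj_zpow] at hg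
    have u1 := hd.zpow (mul_ne_zero hp0 hm)
    rw [hg] at u1
    have e1 := (u1.unique s.T_acyclic s.T_acts (hb.zpow hm') (s.T_reach _ _)).1
    have hdvd : p ∣ m'.natAbs * l' := by
      rw [← e1, Int.natAbs_mul, Int.natAbs_natCast, mul_assoc]
      exact Dvd.intro _ rfl
    have hdv : p ∣ m'.natAbs := by
      rcases (Nat.Prime.dvd_mul hp).1 hdvd with h1 | h1
      · exact h1
      · have := Nat.le_of_dvd hb.2.1 h1
        have := le_max_left l' N
        omega
    obtain ⟨m'', rfl⟩ := Int.natCast_dvd.2 hdv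
    have hm'' : m'' ≠ 0 := by
      rintro rfl
      exact hm' (mul_zero _)
    refine ⟨m'', rfl, ?_⟩
    have hx := hd.zpow hm
    have hy := hb.zpow hm''
    have hxy : ((g * c * g⁻¹) ^ m) ^ p = (c' ^ m'') ^ p := by
      rw [← zpow_natCast, ← zpow_natCast, ← zpow_mul, ← zpow_mul, mul_comm m, mul_comm m'', hg]
    have hxp := hx.pow hp.one_lt.le
    rw [hxy] at hxp
    obtain ⟨e2, k, hk⟩ := hxp.unique s.T_acyclic s.T_acts (hy.pow hp.one_lt.le) (s.T_reach _ _)
    have e3 := Nat.eq_of_mul_eq_mul_left hp.pos e2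
    have hx' := hx.shift k
    rw [e3, ← funext hk] at hx'
    have hN' := hcom _ _ _ _ hx' hy p hp0 (by rw [zpow_natCast, zpow_natCast, hxy])
    have hco : Nat.Coprime p N := by
      refine (Nat.Prime.coprime_iff_not_dvd hp).2 fun h1 => ?_
      have := Nat.le_of_dvd hN h1
      have := le_max_right l' N
      omega
    have := eq_of_pow_coprime hco hxy hN'
    rw [← this, conj_zpow]
    exact isConj_iff.2 ⟨g, rfl⟩

end St
end CPOR
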