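import Pool.Agent.P.MP_2cb329_al.EX

/-! Division by large primes: the step. -/

set_option autoImplicit false

namespace CPOR

namespace GB1

/-- A uniform constant for a finite set of elements. -/
theorem gbs_finset {G : Type} [Group G] (h : GBS G) (R : Finset G) : ∃ P : ℕ, ∀ r ∈ R, ∀ r' ∈ R,
    ¬ IsOfFinOrder r → ¬ IsOfFinOrder r' → ∀ p : ℕ, p.Prime → P < p → ∀ m m' : ℤ,
      IsConj (r ^ ((p : ℤ) * m)) (r' ^ m') →
      ∃ m'' : ℤ, m' = p * m'' ∧ IsConj (r ^ m) (r' ^ m'') := by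
  have key : ∀ r r' : G, ∃ P : ℕ, ¬ IsOfFinOrder r → ¬ IsOfFinOrder r' → ∀ p : ℕ, p.Prime →
      P < p → ∀ m m' : ℤ, IsConj (r ^ ((p : ℤ) * m)) (r' ^ m') →
      ∃ m'' : ℤ, m' = p * m'' ∧ IsConj (r ^ m) (r' ^ m'') := by
    intro r r'
    by_cases h1 : IsOfFinOrder r
    · exact ⟨0, fun h => absurd h1 h⟩
    by_cases h2 : IsOfFinOrder r'
    · exact ⟨0, fun _ h => absurd h2 h⟩
    obtain ⟨P, hP⟩ := h r r' h1 h2
    exact ⟨P, fun _ _ => hP⟩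
  choose Pf hPf using key
  refine ⟨R.sup fun r => R.sup (Pf r), fun r hr r' hr' h1 h2 p hp hlt => hPf r r' h1 h2 p hp ?_⟩
  exact lt_of_le_of_lt ((Finset.le_sup (f := Pf r) hr').trans
    (Finset.le_sup (f := fun r => R.sup (Pf r)) hr)) hlt

theorem isConj_conj {G : Type} [Group G] (γ x : G) : IsConj x (γ * x * γ⁻¹) :=
  isConj_iff.2 ⟨γ, rfl⟩

theorem not_fin_of_zpow {G : Type} [Group G] {x : G} {k : ℤ} (h : ¬ IsOfFinOrder (x ^ k)) :
    ¬ IsOfFinOrder x := fun hx => h hx.zpow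

theorem not_fin_of_conj {G : Type} [Group G] {γ x : G} (h : ¬ IsOfFinOrder (γ * x * γ⁻¹)) :
    ¬ IsOfFinOrder x := fun hx => h ((isConj_conj γ x).isOfFinOrder hx)

theorem commute_of_mem {G : Type} [Group G] {z x : G} (h : z ∈ Subgroup.zpowers x) :
    Commute x z := by
  obtain ⟨k, rfl⟩ := Subgroup.mem_zpowers_iff.1 h
  exact (Commute.refl x).zpow_right k

theorem commute_of_mem' {G : Type} [Group G] {z x g : G} (h : z ∈ Subgroup.zpowers x)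
    (hg : Commute g x) : Commute g z := by
  obtain ⟨k, rfl⟩ := Subgroup.mem_zpowers_iff.1 h
  exact hg.zpow_right k

theorem ne_one_of_mem {G : Type} [Group G] {z x : G} (hz : z ≠ 1) (h : z ∈ Subgroup.zpowers x) :
    x ≠ 1 := by
  rintro rfl
  obtain ⟨k, rfl⟩ := Subgroup.mem_zpowers_iff.1 h
  exact hz (one_zpow k)

end GB1

namespace St

variable {L L' : Lv} (s : St L L')

theorem gb1_inc_left {e : s.Ed} {v w : s.Vt} (h : s.Join e v w) : s.Inc e v := by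
  rcases h with h | h
  · exact Or.inl h.1
  · exact Or.inr h.2

theorem gb1_inc_right {e : s.Ed} {v w : s.Vt} (h : s.Join e v w) : s.Inc e w := by
  rcases h with h | h
  · exact Or.inr h.2
  · exact Or.inl h.1

theorem gb1_fix_ed {x g : L.G} (h : x • s.ed g = s.ed g) :
    ∃ f ∈ FS s.SA, x = g * s.w f * g⁻¹ := by
  rw [smul_ed] at h
  obtain ⟨f, hf, e⟩ := s.ed_eq_iff.1 h.symm
  exact ⟨f, hf, by rw [← e]; group⟩

theorem gb1_ed_fix (g : L.G) {f : FreeGroup L'.X} (hf : f ∈ FS s.SA) :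
    (g * s.w f * g⁻¹) • s.ed g = s.ed g := by
  rw [smul_ed]
  exact (s.ed_eq_iff.2 ⟨f, hf, by group⟩).symm

/-- At an exceptional edge the root has bounded cyclic length. -/
theorem gb1_ex_bound {C : Finset L'.G} {C1 : Finset L.G} (hX : s.ExSet C C1) :
    ∃ B, ∀ (z ξ : L.G) (e : s.Ed), s.Ex C1 z e → ξ • e = e →
      (∀ g : L.G, g • e = e → Commute g z → g ∈ Subgroup.zpowers ξ) → s.CycE B ξ e := by
  have key : ∀ ρ : L.G, ∃ f : FreeGroup L'.X, ρ ∈ C1 → f ∈ FS s.SA ∧ s.w f = ρ := by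
    intro ρ
    by_cases h : ρ ∈ C1
    · obtain ⟨f, hf, e⟩ := s.mem_M'.1 (hX.1 ρ h).1
      exact ⟨f, fun _ => ⟨hf, e⟩⟩
    · exact ⟨1, fun h' => absurd h' h⟩
  choose F hF using key
  refine ⟨C1.sup fun ρ => (F ρ).norm, fun z ξ e hex hξ hroot => ?_⟩
  obtain ⟨γ, ρ, hρ, rfl, hz⟩ := hex
  obtain ⟨hf, hw⟩ := hF ρ hρ
  have h1 : (γ * ρ * γ⁻¹) • s.ed γ = s.ed γ := by
    rw [← hw]; exact s.gb1_ed_fix γ hf
  have h2 : Commute (γ * ρ * γ⁻¹) z := by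
    obtain ⟨k, hk⟩ := Subgroup.mem_zpowers_iff.1 (mem_cj.1 hz)
    have : z = (γ * ρ * γ⁻¹) ^ k := by
      rw [conj_zpow, hk]; group
    rw [this]
    exact (Commute.refl _).zpow_right k
  obtain ⟨m, hm⟩ := Subgroup.mem_zpowers_iff.1 (hroot _ h1 h2)
  have hm0 : m ≠ 0 := by
    rintro rfl
    apply (hX.1 ρ hρ).2
    rw [zpow_zero] at hm
    calc ρ = γ⁻¹ * (γ * ρ * γ⁻¹) * γ := by group
      _ = 1 := by rw [← hm]; group
  refine s.cycE_root hξ hm0 ⟨γ, rfl, F ρ, hf, Finset.le_sup (f := fun ρ => (F ρ).norm) hρ, ?_⟩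
  rw [hm, hw]; group

/-- `x` is conjugate to a member of `R` by a point of the vertex `v`. -/
def Fr (R : Finset L'.G) (v : s.Vt) (x : L.G) : Prop :=
  ∃ γ, ∃ r ∈ R, s.vx γ = v ∧ x = γ * s.j r * γ⁻¹

theorem gb1_fr_of_cyc {R : Finset L'.G} {B : ℕ} (hR : ∀ r, len L'.π r ≤ B → r ∈ R) {x : L.G}
    {e : s.Ed} (h : s.CycE B x e) {v : s.Vt} (hv : s.Inc e v) : s.Fr R v x := by
  obtain ⟨g, rfl, f, hf, hn, hx⟩ := h
  have hx' : x = g * s.w f * g⁻¹ := by rw [← hx]; group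
  rcases hv with hv | hv
  · exact ⟨g, L'.π f, hR _ ((len_le f).trans hn), hv, hx'⟩
  · refine ⟨g * s.t, L'.π (s.sh f), hR _ ((len_le _).trans ?_), hv, ?_⟩
    · rw [s.sh_norm hf]; exact hn
    · change x = g * s.t * s.w (s.sh f) * (g * s.t)⁻¹
      rw [← s.conj_w hf, hx']; group

/-- One vertex: division by `p`. -/
theorem gb1_step {R : Finset L'.G} {p : ℕ}
    (hP : ∀ r ∈ R, ∀ r' ∈ R, ¬ IsOfFinOrder r → ¬ IsOfFinOrder r' → ∀ m m' : ℤ,
      IsConj (r ^ ((p : ℤ) * m)) (r' ^ m') →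
      ∃ m'' : ℤ, m' = p * m'' ∧ IsConj (r ^ m) (r' ^ m''))
    {v : s.Vt} {x y z : L.G} (hz : ¬ IsOfFinOrder z) (hx : s.Fr R v x) (hy : s.Fr R v y)
    {k k' : ℤ} (h1 : x ^ ((p : ℤ) * k) = z) (h2 : y ^ k' = z) :
    ∃ k'' : ℤ, k' = p * k'' ∧ IsConj (x ^ k) (y ^ k'') := by
  obtain ⟨γ, r, hr, hv, rfl⟩ := hx
  obtain ⟨γ', r', hr', hv', rfl⟩ := hy
  obtain ⟨h, rfl⟩ := s.vx_eq_iff.1 (hv.trans hv'.symm)
  have f1 : ¬ IsOfFinOrder r := fun hf =>
    GB1.not_fin_of_conj (GB1.not_fin_of_zpow (h1 ▸ hz)) (s.j.isOfFinOrder hf)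
  have f2 : ¬ IsOfFinOrder r' := fun hf =>
    GB1.not_fin_of_conj (GB1.not_fin_of_zpow (h2 ▸ hz)) (s.j.isOfFinOrder hf)
  have e : h⁻¹ * r ^ ((p : ℤ) * k) * h⁻¹⁻¹ = r' ^ k' := by
    apply s.j_inj
    have e0 := h1.trans h2.symm
    rw [conj_zpow, conj_zpow] at e0
    rw [map_mul, map_mul, map_zpow, map_zpow, map_inv, map_inv, map_inv]
    calc (s.j h)⁻¹ * s.j r ^ ((p : ℤ) * k) * (s.j h)⁻¹⁻¹
        = (γ * s.j h)⁻¹ * (γ * s.j r ^ ((p : ℤ) * k) * γ⁻¹) * (γ * s.j h) := by group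
      _ = s.j r' ^ k' := by rw [e0]; group
  obtain ⟨k'', hk, hc⟩ := hP r hr r' hr' f1 f2 k k' (isConj_iff.2 ⟨h⁻¹, e⟩)
  refine ⟨k'', hk, ?_⟩
  rw [conj_zpow, conj_zpow]
  have hc' : IsConj (s.j r ^ k) (s.j r' ^ k'') := by
    rw [← map_zpow, ← map_zpow]
    exact s.j.map_isConj hc
  exact ((GB1.isConj_conj γ _).symm.trans hc').trans (GB1.isConj_conj _ _)

variable (D : s.AD) (hH : L'.Cl)
include D hH

omit D hH in
/-- The root of `z` in an edge group. -/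
theorem exists_root {z : L.G} {e : s.Ed} (hz : z ≠ 1) (he : z • e = e) :
    ∃ ξ : L.G, ξ • e = e ∧ z ∈ Subgroup.zpowers ξ ∧
      ∀ g : L.G, g • e = e → Commute g z → g ∈ Subgroup.zpowers ξ := by
  obtain ⟨g₀, rfl⟩ : ∃ g₀, s.ed g₀ = e := Quotient.exists_rep e
  obtain ⟨f, hf, rfl⟩ := s.gb1_fix_ed he
  have hf1 : f ≠ 1 := by
    rintro rfl
    exact hz (by simp)
  obtain ⟨ρ, hρ⟩ := cen_cyclic hf1
  obtain ⟨n, hn⟩ := Subgroup.mem_zpowers_iff.1 ((hρ f).1 (Commute.refl f))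
  have hn0 : n ≠ 0 := by
    rintro rfl
    exact hf1 (by rw [← hn, zpow_zero])
  have hρS : ρ ∈ FS s.SA := FS_root hn0 (hn ▸ hf)
  refine ⟨g₀ * s.w ρ * g₀⁻¹, s.gb1_ed_fix g₀ hρS, ?_, fun g hg hc => ?_⟩
  · exact Subgroup.mem_zpowers_iff.2 ⟨n, by rw [conj_zpow, ← map_zpow, hn]⟩
  · obtain ⟨f', hf', rfl⟩ := s.gb1_fix_ed hg
    have hc' : Commute f' f := by
      apply s.w_inj s.adm_A (mul_mem hf' hf) (mul_mem hf hf')
      rw [map_mul, map_mul]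
      calc s.w f' * s.w f
          = g₀⁻¹ * (g₀ * s.w f' * g₀⁻¹ * (g₀ * s.w f * g₀⁻¹)) * g₀ := by group
        _ = s.w f * s.w f' := by rw [hc.eq]; group
    obtain ⟨k, hk⟩ := Subgroup.mem_zpowers_iff.1 ((hρ f').1 hc')
    exact Subgroup.mem_zpowers_iff.2 ⟨k, by rw [conj_zpow, ← map_zpow, hk]⟩

/-- Along a path fixed by `z` that is minimal under the centraliser and exceptional at both ends,
the roots of `z` in the edge groups have bounded cyclic length. -/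
theorem roots_bounded {C : Finset L'.G} {C1 : Finset L.G} (hC : D.C0 ⊆ C) (hX : s.ExSet C C1) :
    ∃ B, ∀ (n : ℕ) (z : L.G) (a : ℕ → s.Vt) (e : ℕ → s.Ed), z ≠ 1 → s.Pth a e (n + 1) →
      (∀ i ≤ n, z • e i = e i) → s.Ex C1 z (e 0) → s.Ex C1 z (e n) →
      (∀ h : L.G, Commute h z → n + 1 ≤ s.T.dist (a 0) (h • a (n + 1))) →
      ∀ i ≤ n, ∀ ξ : L.G, ξ • e i = e i → z ∈ Subgroup.zpowers ξ →
        (∀ g : L.G, g • e i = e i → Commute g z → g ∈ Subgroup.zpowers ξ) →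
        s.CycE B ξ (e i) := by
  classical
  obtain ⟨B0, hB0⟩ := s.gb1_ex_bound hX
  obtain ⟨F, hF, hlip⟩ := s.lip_arr D hH
  obtain ⟨F', hF', hstr⟩ := s.stretch D hC hX
  refine ⟨B0 + Bd.it F (F B0 + F' (F B0)), fun n z a e hz hp hf h0 hn hmin i hi ξ hξ hzξ hroot => ?_⟩
  by_cases hex : s.Ex C1 z (e i)
  · exact (hB0 z ξ _ hex hξ hroot).mono s (Nat.le_add_right _ _)
  -- the last exceptional edge before `i`
  have hi₁ex : s.Ex C1 z (e (Nat.findGreatest (fun k => s.Ex C1 z (e k)) i)) :=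
    Nat.findGreatest_spec (P := fun k => s.Ex C1 z (e k)) (Nat.zero_le i) h0
  have hi₁le : Nat.findGreatest (fun k => s.Ex C1 z (e k)) i ≤ i := Nat.findGreatest_le i
  have hi₁max : ∀ k, Nat.findGreatest (fun k => s.Ex C1 z (e k)) i < k → k ≤ i →
      ¬ s.Ex C1 z (e k) := fun k h1 h2 => Nat.findGreatest_is_greatest h1 h2
  generalize Nat.findGreatest (fun k => s.Ex C1 z (e k)) i = i₁ at hi₁ex hi₁le hi₁max
  have hi₁lt : i₁ < i := lt_of_le_of_ne hi₁le (fun h => hex (h ▸ hi₁ex))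
  -- the first exceptional edge after `i`
  have hE : ∃ k, i ≤ k ∧ s.Ex C1 z (e k) := ⟨n, hi, hn⟩
  obtain ⟨hi₂ge, hi₂ex⟩ := Nat.find_spec hE
  have hi₂n : Nat.find hE ≤ n := Nat.find_min' hE ⟨hi, hn⟩
  have hi₂min : ∀ k, i ≤ k → k < Nat.find hE → ¬ s.Ex C1 z (e k) :=
    fun k h1 h2 h3 => Nat.find_min hE h2 ⟨h1, h3⟩
  generalize Nat.find hE = i₂ at hi₂ge hi₂ex hi₂n hi₂min
  have hi₂gt : i < i₂ := lt_of_le_of_ne hi₂ge (fun h => hex (h ▸ hi₂ex))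
  obtain ⟨m, hm⟩ : ∃ m, i₂ = i₁ + 1 + m + 1 := ⟨i₂ - i₁ - 2, by omega⟩
  obtain ⟨i', hi'⟩ : ∃ i', i = i₁ + 1 + i' := ⟨i - i₁ - 1, by omega⟩
  have hi'm : i' ≤ m := by omega
  have hnon : ∀ k ≤ m, ¬ s.Ex C1 z (e (i₁ + 1 + k)) := by
    intro k hk
    by_cases h : i₁ + 1 + k ≤ i
    · exact hi₁max _ (by omega) h
    · exact hi₂min _ (by omega) (by omega)
  have hsub := hp.sub s (i₁ + 1) (m + 1) (by omega)
  have hfz : ∀ k < m + 1, z • e (i₁ + 1 + k) = e (i₁ + 1 + k) := fun k hk => hf _ (by omega)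
  have hfix : ∀ (x : L.G) (k : ℕ), k ≤ n → i₁ ≤ k → k ≤ i₂ → Commute x z → x • e k = e k →
      ∀ l ≤ m, x • e (i₁ + 1 + l) = e (i₁ + 1 + l) := by
    intro x k hk h1 h2 hc hx l hl
    have hJ := hp.1 k (by omega)
    by_cases hk1 : k = i₁
    · refine s.fix_stretch D hC hX hz hc hsub hfz (fun k hk => hnon k (by omega))
        (i₀ := 0) (by omega) ?_ l (by omega)
      have := Inc.fix s (s.gb1_inc_right hJ) hx
      rw [hk1] at this
      exact this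
    · refine s.fix_stretch D hC hX hz hc hsub hfz (fun k hk => hnon k (by omega))
        (i₀ := k - (i₁ + 1)) (by omega) ?_ l (by omega)
      have := Inc.fix s (s.gb1_inc_left hJ) hx
      rw [show i₁ + 1 + (k - (i₁ + 1)) = k by omega]
      exact this
  have hξz : Commute ξ z := GB1.commute_of_mem hzξ
  have hξfix := hfix ξ i hi (by omega) (by omega) hξz hξ
  -- consecutive edges, one of them not exceptional, form an arrow pair
  have harr : ∀ k, k + 1 ≤ n → (¬ s.Ex C1 z (e k) ∨ ¬ s.Ex C1 z (e (k + 1))) →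
      s.Arr D.Ξ (e k) (e (k + 1)) ∨ s.Arr D.Ξ (e (k + 1)) (e k) := by
    intro k hk h
    have hne := hp.ne s (i := k) (j := k + 1) (by omega) (by omega)
    have I1 := s.gb1_inc_right (hp.1 k (by omega))
    have I2 := s.gb1_inc_left (hp.1 (k + 1) (by omega))
    rcases h with h | h
    · exact s.arr_of_nonex D hC hX hz hne I1 I2 (hf _ (by omega)) (hf _ hk) h
    · exact (s.arr_of_nonex D hC hX hz hne.symm I2 I1 (hf _ hk) (hf _ (by omega)) h).symm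
  have hlip' : ∀ (b : ℕ) (x : L.G) (k : ℕ), k + 1 ≤ n →
      (¬ s.Ex C1 z (e k) ∨ ¬ s.Ex C1 z (e (k + 1))) → x • e k = e k → x • e (k + 1) = e (k + 1) →
      (s.CycE b x (e k) → s.CycE (F b) x (e (k + 1))) ∧
        (s.CycE b x (e (k + 1)) → s.CycE (F b) x (e k)) := by
    intro b x k hk h h1 h2
    rcases harr k hk h with H | H
    · exact hlip b x _ _ H h1 h2
    · exact (hlip b x _ _ H h2 h1).symm
  -- an exceptional neighbour gives a bound at the end of the stretch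
  have hend : ∀ k l, k ≤ n → i₁ ≤ k → k ≤ i₂ → l ≤ m → s.Ex C1 z (e k) →
      (∀ x : L.G, x • e k = e k → x • e (i₁ + 1 + l) = e (i₁ + 1 + l) → s.CycE B0 x (e k) →
        s.CycE (F B0) x (e (i₁ + 1 + l))) → s.CycE (F B0) ξ (e (i₁ + 1 + l)) := by
    intro k l hk h1 h2 hl hk' H
    obtain ⟨x, hx, hzx, hxr⟩ := s.exists_root hz (hf k hk)
    have hxz : Commute x z := GB1.commute_of_mem hzx
    have hxf := hfix x k hk h1 h2 hxz hx
    have hc := H x hx (hxf l hl) (hB0 z x _ hk' hx hxr)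
    obtain ⟨q, hq⟩ := Subgroup.mem_zpowers_iff.1 (hroot x (hi' ▸ hxf i' hi'm) hxz)
    have hq0 : q ≠ 0 := by
      rintro rfl
      exact GB1.ne_one_of_mem hz hzx (by rw [← hq, zpow_zero])
    exact s.cycE_root (hξfix l hl) hq0 (hq ▸ hc)
  have hL : s.CycE (F B0) ξ (e (i₁ + 1 + 0)) :=
    hend i₁ 0 (by omega) le_rfl (by omega) (Nat.zero_le _) hi₁ex fun x h1 h2 =>
      (hlip' B0 x i₁ (by omega) (Or.inr (hnon 0 (Nat.zero_le _))) h1 h2).1
  have hR : s.CycE (F B0) ξ (e (i₁ + 1 + m)) :=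
    hend i₂ m hi₂n (by omega) le_rfl le_rfl hi₂ex fun x h1 h2 h3 =>
      (hlip' B0 x (i₁ + 1 + m) (by omega) (Or.inl (hnon m le_rfl)) h2 (hm ▸ h1)).2 (hm ▸ h3)
  have hmle : m ≤ F' (F B0) := by
    rcases hstr (F B0) m z ξ _ _ hz hzξ hsub hξfix hnon hL hR with H | ⟨h, u, v, huv, hv, hc, hh⟩
    · exact H
    · exfalso
      have h1 := hmin h (GB1.commute_of_mem' hzξ hc)
      have h2 := ZT.dist_tri (T := s.T) (s.T_reach (a 0) (a (i₁ + 1 + u)))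
        (s.T_reach (a (i₁ + 1 + u)) (h • a (n + 1)))
      have h3 := hp.dist s (i := 0) (j := i₁ + 1 + u) (by omega) (by omega)
      have h4 := hp.dist s (i := i₁ + 1 + v) (j := n + 1) (by omega) le_rfl
      have h5 := s.T_acts.dist h (a (i₁ + 1 + v)) (a (n + 1))
      have hh' : h • a (i₁ + 1 + v) = a (i₁ + 1 + u) := hh
      rw [hh'] at h5
      omega
  have key := Bd.it_induct (F := F) (fun k b => s.CycE b ξ (e (i₁ + 1 + k))) m
    (F B0 + F' (F B0)) (by omega) (fun _ _ _ hab h => h.mono s hab)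
    (hL.mono s (Nat.le_add_right _ _))
    (fun k b hk _ h => (hlip' b ξ (i₁ + 1 + k) (by omega) (Or.inl (hnon k (by omega)))
      (hξfix k (by omega)) (hξfix (k + 1) (by omega))).1 h) i' hi'm
  rw [hi']
  exact key.mono s (Nat.le_add_left _ _)

theorem gbs_ell (c c' : L'.G) (hc : ¬ IsOfFinOrder c) (hc' : ¬ IsOfFinOrder c') :
    ∃ P : ℕ, ∀ p : ℕ, p.Prime → P < p → ∀ m m' : ℤ,
      IsConj (s.j c ^ ((p : ℤ) * m)) (s.j c' ^ m') →
      ∃ m'' : ℤ, m' = p * m'' ∧ IsConj (s.j c ^ m) (s.j c' ^ m'') := by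
  classical
  obtain ⟨C1, hX⟩ := s.exists_exSet hH (D.C0 ∪ {c, c'})
  obtain ⟨B, hB⟩ := s.roots_bounded D hH Finset.subset_union_left hX
  obtain ⟨R0, hR0, -⟩ := len_ball L'.surj B
  obtain ⟨P, hP⟩ := GB1.gbs_finset hH.gbs (R0 ∪ {c, c'})
  refine ⟨P, fun p hp hlt m m' hconj => ?_⟩
  have hP' := fun r hr r' hr' h1 h2 => hP r hr r' hr' h1 h2 p hp hlt
  have hR : ∀ r, len L'.π r ≤ B → r ∈ R0 ∪ {c, c'} :=
    fun r hr => Finset.mem_union_left _ ((hR0 r).2 hr)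
  have hjc : ¬ IsOfFinOrder (s.j c) := by rwa [s.j_inj.isOfFinOrder_iff]
  have hjc' : ¬ IsOfFinOrder (s.j c') := by rwa [s.j_inj.isOfFinOrder_iff]
  by_cases hm : m = 0
  · subst hm
    rw [mul_zero, zpow_zero, isConj_one_right] at hconj
    have : m' = 0 := by
      by_contra h
      exact hjc' (isOfFinOrder_iff_zpow_eq_one.2 ⟨m', h, hconj⟩)
    exact ⟨0, by simp [this], by simp⟩
  have hpm : (p : ℤ) * m ≠ 0 := mul_ne_zero (by exact_mod_cast hp.ne_zero) hm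
  obtain ⟨z, hzdef⟩ : ∃ z, s.j c ^ ((p : ℤ) * m) = z := ⟨_, rfl⟩
  have hzinf : ¬ IsOfFinOrder z := by
    rw [← hzdef]
    intro h
    obtain ⟨k, hk, e⟩ := isOfFinOrder_iff_zpow_eq_one.1 h
    rw [← zpow_mul] at e
    exact hjc (isOfFinOrder_iff_zpow_eq_one.2 ⟨_, mul_ne_zero hpm hk, e⟩)
  have hz : z ≠ 1 := fun h => hzinf (h ▸ IsOfFinOrder.one)
  have hE : ∃ d, ∃ g : L.G, (g * s.j c' * g⁻¹) ^ m' = z ∧ s.T.dist (s.vx 1) (s.vx g) = d := by
    obtain ⟨g, hg⟩ := isConj_iff.1 hconj.symm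
    exact ⟨_, g, by rw [conj_zpow, hg, hzdef], rfl⟩
  obtain ⟨g, hg, hd⟩ := Nat.find_spec hE
  have hmin : ∀ h : L.G, Commute h z →
      s.T.dist (s.vx 1) (s.vx g) ≤ s.T.dist (s.vx 1) (h • s.vx g) := by
    intro h hh
    rw [hd]
    refine Nat.find_min' hE ⟨h * g, ?_, rfl⟩
    rw [conj_zpow] at hg ⊢
    calc h * g * s.j c' ^ m' * (h * g)⁻¹ = h * (g * s.j c' ^ m' * g⁻¹) * h⁻¹ := by group
      _ = z := by rw [hg, hh.eq]; group
  clear hd
  have F0 : s.Fr (R0 ∪ {c, c'}) (s.vx 1) (s.j c) := ⟨1, c, by simp, rfl, by simp⟩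
  have F1 : s.Fr (R0 ∪ {c, c'}) (s.vx g) (g * s.j c' * g⁻¹) := ⟨g, c', by simp, rfl, rfl⟩
  -- the final step
  have fin : ∀ (x : L.G) (k : ℤ), s.Fr (R0 ∪ {c, c'}) (s.vx g) x → x ^ ((p : ℤ) * k) = z →
      IsConj (s.j c ^ m) (x ^ k) →
      ∃ m'' : ℤ, m' = p * m'' ∧ IsConj (s.j c ^ m) (s.j c' ^ m'') := by
    intro x k h1 h2 h3
    obtain ⟨k'', e1, e2⟩ := s.gb1_step hP' hzinf h1 F1 h2 hg
    refine ⟨k'', e1, (h3.trans e2).trans ?_⟩
    rw [conj_zpow]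
    exact (GB1.isConj_conj _ _).symm
  obtain ⟨a, e, ha0, had, hpth, hbtw⟩ := s.exists_pth (s.vx 1) (s.vx g)
  have hz0 : z • s.vx 1 = s.vx 1 := by
    rw [smul_vx]
    exact (s.vx_eq_iff.2 ⟨c ^ ((p : ℤ) * m), by rw [map_zpow, hzdef, one_mul, mul_one]⟩).symm
  have hzg : z • s.vx g = s.vx g := by
    rw [smul_vx]
    exact (s.vx_eq_iff.2 ⟨c' ^ m', by rw [map_zpow, ← hg, conj_zpow]; group⟩).symm
  generalize s.T.dist (s.vx 1) (s.vx g) = d at hmin had hpth hbtw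
  have hza : ∀ i ≤ d, z • a i = a i :=
    fun i hi => ZT.fix_btw s.T_acyclic s.T_acts hz0 hzg (hbtw i hi)
  have hze : ∀ i < d, z • e i = e i :=
    fun i hi => (hpth.1 i hi).fix s (hza i hi.le) (hza (i + 1) hi)
  rcases d with _ | n
  · exact fin (s.j c) m (by rw [← had, ha0]; exact F0) hzdef (IsConj.refl _)
  have hex0 : s.Ex C1 z (e 0) := by
    refine hX.2 z 1 (e 0) c (by simp) hz (hze 0 (by omega)) ?_ ?_
    · rw [← ha0]; exact s.gb1_inc_left (hpth.1 0 (by omega))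
    · rw [mem_cj]
      exact Subgroup.mem_zpowers_iff.2 ⟨(p : ℤ) * m, by rw [hzdef]; group⟩
  have hexn : s.Ex C1 z (e n) := by
    refine hX.2 z g (e n) c' (by simp) hz (hze n (by omega)) ?_ ?_
    · rw [← had]; exact s.gb1_inc_right (hpth.1 n (by omega))
    · rw [mem_cj]
      exact Subgroup.mem_zpowers_iff.2 ⟨m', by rw [← hg, conj_zpow]; group⟩
  have hroots := hB n z a e hz hpth (fun i hi => hze i (by omega)) hex0 hexn
    (fun h hh => by rw [ha0, had]; exact hmin h hh)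
  have chain : ∀ i ≤ n + 1, ∃ (x : L.G) (k : ℤ), s.Fr (R0 ∪ {c, c'}) (a i) x ∧
      x ^ ((p : ℤ) * k) = z ∧ IsConj (s.j c ^ m) (x ^ k) := by
    intro i
    induction i with
    | zero => exact fun _ => ⟨s.j c, m, by rw [ha0]; exact F0, hzdef, IsConj.refl _⟩
    | succ i ih =>
      intro hi
      obtain ⟨x, k, h1, h2, h3⟩ := ih (by omega)
      obtain ⟨ξ, hξ, hzξ, hr⟩ := s.exists_root hz (hze i (by omega))
      have hcyc := hroots i (by omega) ξ hξ hzξ hr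
      have hJ := hpth.1 i (by omega)
      obtain ⟨k', hk'⟩ := Subgroup.mem_zpowers_iff.1 hzξ
      obtain ⟨k'', e1, e2⟩ := s.gb1_step hP' hzinf h1
        (s.gb1_fr_of_cyc hR hcyc (s.gb1_inc_left hJ)) h2 hk'
      exact ⟨ξ, k'', s.gb1_fr_of_cyc hR hcyc (s.gb1_inc_right hJ), e1 ▸ hk', h3.trans e2⟩
  obtain ⟨x, k, h1, h2, h3⟩ := chain (n + 1) le_rfl
  exact fin x k (had ▸ h1) h2 h3

end St
end CPOR
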