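import Pool.Agent.P.MP_2cb329_al.LV

/-! General lemmas on marked groups: double cosets, quasiconvexity, fellow travelling. -/

set_option autoImplicit false

namespace CPOR

namespace GL1

variable {Y : Type} [DecidableEq Y]

/-- Initial segments of the reduced word. -/
def pre (f : FreeGroup Y) (i : ℕ) : FreeGroup Y := FreeGroup.mk (f.toWord.take i)

theorem pre_min (f : FreeGroup Y) (i : ℕ) : pre f i = pre f (min i f.norm) := by
  unfold pre
  rcases le_total i f.norm with h | h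
  · rw [min_eq_left h]
  · rw [min_eq_right h, List.take_of_length_le (l := f.toWord) (i := i) h,
      List.take_of_length_le (l := f.toWord) (i := f.norm) le_rfl]

theorem pre_fb (f : FreeGroup Y) (i : ℕ) : FB 1 (pre f i) f :=
  fb_one_iff.2 ⟨min i f.norm, min_le_right _ _, pre_min f i⟩

theorem pre_norm (f : FreeGroup Y) (i : ℕ) : (pre f i).norm = min i f.norm := by
  rw [pre_min]
  exact norm_mk_take f (min_le_right _ _)

theorem pre_zero (f : FreeGroup Y) : pre f 0 = 1 := by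
  have := pre_norm f 0
  simpa using this

theorem pre_top (f : FreeGroup Y) {i : ℕ} (h : f.norm ≤ i) : pre f i = f := by
  unfold pre
  rw [List.take_of_length_le (l := f.toWord) (i := i) h, FreeGroup.mk_toWord]

theorem pre_dist (f : FreeGroup Y) {i j : ℕ} (h : i ≤ j) :
    ((pre f i)⁻¹ * pre f j).norm = min j f.norm - min i f.norm := by
  have h1 := ZT.Btw.compare cay_acyclic (cay_btw.2 (pre_fb f i)) (cay_btw.2 (pre_fb f j))
    (by rw [cay_dist, cay_dist]; simp only [inv_one, one_mul, pre_norm]; omega)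
  have h2 := cay_btw.1 h1.1
  unfold FB at h2
  simp only [inv_one, one_mul, pre_norm] at h2
  omega

theorem pre_rest (f : FreeGroup Y) (i : ℕ) : ((pre f i)⁻¹ * f).norm = f.norm - i := by
  have h := pre_fb f i
  unfold FB at h
  simp only [inv_one, one_mul, pre_norm] at h
  omega

theorem pre_mem {S : Set Y} {f : FreeGroup Y} (hf : f ∈ FS S) (i : ℕ) : pre f i ∈ FS S := by
  have := (pre_fb f i).mem_FS (S := S) (by simpa using hf)
  simpa using this

theorem norm_swap (f g : FreeGroup Y) : (f⁻¹ * g).norm = (g⁻¹ * f).norm := by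
  rw [← FreeGroup.norm_inv_eq]
  simp

/-- A point between the ends of a chain with short steps is near a member of the chain. -/
theorem chain_near (a : ℕ → FreeGroup Y) (n D : ℕ)
    (h : ∀ i < n, ((a i)⁻¹ * a (i + 1)).norm ≤ D) {p : FreeGroup Y} (hp : FB (a 0) p (a n)) :
    ∃ i ≤ n, ((a i)⁻¹ * p).norm ≤ D := by
  rcases ZT.Btw.chain cay_acyclic a n (fun i _ => cay_reach _ _) (cay_btw.2 hp) with e | ⟨i, hi, e⟩
  · exact ⟨0, Nat.zero_le _, by simp [e]⟩
  · have e' := cay_btw.1 e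
    unfold FB at e'
    have := h i hi
    exact ⟨i, hi.le, by omega⟩

end GL1

open GL1

variable {X : Type} [Fintype X] [DecidableEq X] {G : Type} [Group G] {π : FreeGroup X →* G}

theorem Mem.mono {S S₀ : Set X} (h : Mem π S) (hs : S₀ ⊆ S) : Mem π S₀ := by
  obtain ⟨F, hF, h⟩ := h
  exact ⟨F, hF, fun f hf => h f (FS_mono hs hf)⟩

/-- (G1) -/
theorem qc_of_dc (hπ : Function.Surjective π) {S S' : Set X} (hF : Free π S) (hM : Mem π S)
    (h1 : DC1 π S S') (h2 : DC2 π S S') : QC π S S' := by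
  obtain ⟨Fm, hFm, hM⟩ := hM
  obtain ⟨F1, hF1, h1⟩ := h1
  obtain ⟨F2, hF2, h2⟩ := h2
  refine ⟨fun n => Fm (F1 n) + Fm (F2 n) + n,
    ((hFm.comp hF1).add (hFm.comp hF2)).add Bd.id, ?_⟩
  intro n f g b b' hf hg hb hb' hm
  obtain ⟨m', hm', hm2, hl⟩ := h1 n b' b hb' hb (π f) (mem_MS.2 ⟨f, hf, rfl⟩) hm
  obtain ⟨f0, hf0, rfl⟩ := mem_MS.1 hm'
  have hn0 : f0.norm ≤ Fm (F1 n) := (hM f0 hf0).trans (hFm.mono hl)
  let K : Subgroup (FreeGroup X) := FS S ⊓ (cj b (MS π S')).comap π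
  have hK : GenBy FreeGroup.norm (Fm (F2 n)) K := by
    have key : ∀ k ∈ Subgroup.closure
        {k | k ∈ MS π S ⊓ cj b (MS π S') ∧ len π k ≤ F2 n},
        ∃ k' ∈ Subgroup.closure {k | k ∈ K ∧ FreeGroup.norm k ≤ Fm (F2 n)}, π k' = k := by
      intro k hk
      induction hk using Subgroup.closure_induction with
      | mem x hx =>
        obtain ⟨k', hk', rfl⟩ := mem_MS.1 hx.1.1
        exact ⟨k', Subgroup.subset_closure
          ⟨⟨hk', hx.1.2⟩, (hM k' hk').trans (hFm.mono hx.2)⟩, rfl⟩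
      | one => exact ⟨1, one_mem _, map_one _⟩
      | mul x y _ _ hx hy =>
        obtain ⟨x', hx', rfl⟩ := hx
        obtain ⟨y', hy', rfl⟩ := hy
        exact ⟨x' * y', mul_mem hx' hy', map_mul _ _ _⟩
      | inv x _ hx =>
        obtain ⟨x', hx', rfl⟩ := hx
        exact ⟨x'⁻¹, inv_mem hx', map_inv _ _⟩
    intro k hk
    obtain ⟨k', hk', e⟩ := key (π k) (h2 n b hb ⟨mem_MS.2 ⟨k, hk.1, rfl⟩, hk.2⟩)
    have hle : Subgroup.closure {k | k ∈ K ∧ FreeGroup.norm k ≤ Fm (F2 n)} ≤ K :=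
      (Subgroup.closure_le _).2 fun _ hx => hx.1
    have := hF (k'⁻¹ * k) (mul_mem (inv_mem (hle hk').1) hk.1) (by simp [e])
    rw [inv_mul_eq_one] at this
    exact this ▸ hk'
  have hk : f * f0⁻¹ ∈ K := by
    refine Subgroup.mem_inf.2 ⟨mul_mem hf (inv_mem hf0), ?_⟩
    have := mul_mem hm (inv_mem hm2)
    simpa [Subgroup.mem_comap, mul_assoc] using this
  obtain ⟨g', hg', -, hd⟩ := ZT.Btw.near cay_acyclic (cay_btw.2 hg) (cay_reach 1 1)
    (cay_reach f (f * f0⁻¹)) (c := Fm (F1 n)) (by simp)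
    (by
      rw [cay_dist, ← mul_assoc, inv_mul_cancel, one_mul, FreeGroup.norm_inv_eq]
      exact hn0)
  rw [cay_dist] at hd
  obtain ⟨k', hk', hk2⟩ := qc_free hK hk (cay_btw.1 hg')
  refine ⟨π (g⁻¹ * g') * π (g'⁻¹ * k') * b, ?_, ?_⟩
  · refine (len_mul3 hπ _ _ _).trans ?_
    have a1 := len_le (π := π) (g⁻¹ * g')
    have a2 := len_le (π := π) (g'⁻¹ * k')
    rw [norm_swap] at a2
    show _ ≤ Fm (F1 n) + Fm (F2 n) + n
    omega
  · have := hk'.2
    simpa [Subgroup.mem_comap, mul_assoc] using this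

/-- (G2) -/
theorem ft_of_qc (hπ : Function.Surjective π) {S S' : Set X} (hM : Mem π S) (hM' : Mem π S')
    (h : QC π S S') : FTr π S S' := by
  obtain ⟨Fm, hFm, hM⟩ := hM
  obtain ⟨Fn, hFn, hM'⟩ := hM'
  obtain ⟨F, hF, h⟩ := h
  have b1 : Bd (fun n => F n + n) := hF.add Bd.id
  have b2 : Bd (fun n => Fn (F n + n + 1 + (F n + n))) :=
    hFn.comp ((b1.add (Bd.const 1)).add b1)
  have b3 : Bd (fun n => Fm (F n + n + (Fn (F n + n + 1 + (F n + n)) +
      Fn (F n + n + 1 + (F n + n))) + (F n + n))) := hFm.comp ((b1.add (b2.add b2)).add b1)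
  refine ⟨_, (b3.add b1).add b2, ?_⟩
  intro n f g f' b b' hf hf' hb hb' he hg
  set M := F n + n with hMdef
  set D := Fn (M + 1 + M) with hD
  have ex : ∀ i : ℕ, ∃ (B : G) (H : FreeGroup X), len π B ≤ M ∧ H ∈ FS S' ∧
      π (pre f (i - 1)) * B = b * π H ∧ (i = 0 → H = 1) ∧ (i = f.norm + 2 → H = f') := by
    intro i
    by_cases h0 : i = 0
    · refine ⟨b, 1, by omega, one_mem _, by simp [h0, pre_zero], fun _ => rfl, fun e => by omega⟩
    by_cases h1 : i = f.norm + 2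
    · refine ⟨b', f', by omega, hf', ?_, fun e => absurd e h0, fun _ => rfl⟩
      rw [pre_top f (by omega), he]
    obtain ⟨B, hB, hm⟩ := h n f (pre f (i - 1)) b b' hf (pre_fb f _) hb hb'
      (mem_MS.2 ⟨f', hf', by rw [mul_assoc, he]; simp⟩)
    obtain ⟨H, hH, e⟩ := mem_MS.1 hm
    exact ⟨B, H, by omega, hH, by rw [e]; simp [mul_assoc], fun e => absurd e h0,
      fun e => absurd e h1⟩
  choose B H hB hH he' hH0 hHN using ex
  have hπH : ∀ i, π (H i) = b⁻¹ * π (pre f (i - 1)) * B i := fun i => by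
    rw [mul_assoc, he']; simp
  have step : ∀ i, ((H i)⁻¹ * H (i + 1)).norm ≤ D := by
    intro i
    refine (hM' _ (mul_mem (inv_mem (hH i)) (hH (i + 1)))).trans (hFn.mono ?_)
    have e : π ((H i)⁻¹ * H (i + 1)) =
        (B i)⁻¹ * π ((pre f (i - 1))⁻¹ * pre f (i + 1 - 1)) * B (i + 1) := by
      rw [map_mul, map_inv, hπH, hπH]; simp [mul_assoc]
    rw [e]
    refine (len_mul3 hπ _ _ _).trans ?_
    have a1 := len_le (π := π) ((pre f (i - 1))⁻¹ * pre f (i + 1 - 1))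
    rw [pre_dist f (by omega)] at a1
    rw [len_inv hπ]
    have := hB i
    have := hB (i + 1)
    omega
  obtain ⟨j, hj, rfl⟩ := fb_one_iff.1 hg
  change ∃ g', FB 1 g' f' ∧ len π ((π (pre f j))⁻¹ * b * π g') ≤ Fm (M + (D + D) + M) + M + D
  obtain ⟨p, p1, p2, p3⟩ := ZT.exists_median cay_acyclic (cay_reach 1 (H (j + 1)))
    (cay_reach (H (j + 1)) f')
  obtain ⟨i, hi, hi'⟩ := chain_near H (j + 1) D (fun i _ => step i) (p := p)
    (by rw [hH0 0 rfl]; exact cay_btw.1 p1)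
  obtain ⟨l, hl, hl'⟩ := chain_near (fun i => H (j + 1 + i)) (f.norm + 1 - j) D
    (fun i _ => step (j + 1 + i)) (p := p)
    (by
      show FB (H (j + 1)) p (H (j + 1 + (f.norm + 1 - j)))
      rw [hHN (j + 1 + (f.norm + 1 - j)) (by omega)]
      exact cay_btw.1 p2)
  have hl2 : ((H (j + 1 + l))⁻¹ * p).norm ≤ D := hl'
  have hE : ((pre f (i - 1))⁻¹ * pre f (j + 1 + l - 1)).norm ≤ Fm (M + (D + D) + M) := by
    refine (hM _ (mul_mem (inv_mem (pre_mem hf _)) (pre_mem hf _))).trans (hFm.mono ?_)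
    have e : π ((pre f (i - 1))⁻¹ * pre f (j + 1 + l - 1)) =
        B i * π ((H i)⁻¹ * p * (p⁻¹ * H (j + 1 + l))) * (B (j + 1 + l))⁻¹ := by
      simp only [map_mul, map_inv, hπH]; group
    rw [e]
    refine (len_mul3 hπ _ _ _).trans ?_
    have a1 := len_le (π := π) ((H i)⁻¹ * p * (p⁻¹ * H (j + 1 + l)))
    have a2 := FreeGroup.norm_mul_le ((H i)⁻¹ * p) (p⁻¹ * H (j + 1 + l))
    rw [norm_swap p] at a2
    rw [len_inv hπ]
    have := hB i
    have := hB (j + 1 + l)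
    omega
  refine ⟨p, cay_btw.1 p3, ?_⟩
  have e : (π (pre f j))⁻¹ * b * π p =
      π ((pre f j)⁻¹ * pre f (i - 1)) * B i * π ((H i)⁻¹ * p) := by
    simp only [map_mul, map_inv, hπH]; group
  rw [e]
  refine (len_mul3 hπ _ _ _).trans ?_
  have a1 := len_le (π := π) ((pre f j)⁻¹ * pre f (i - 1))
  have a2 := len_le (π := π) ((H i)⁻¹ * p)
  rw [norm_swap, pre_dist f (by omega)] at a1
  rw [pre_dist f (by omega)] at hE
  have := hB i
  omega

theorem FTr.mono {S S' S₀ S₀' : Set X} (h : FTr π S S') (hs : S₀ ⊆ S) (hs' : S₀' ⊆ S') :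
    FTr π S₀ S₀' := by
  obtain ⟨F, hF, h⟩ := h
  exact ⟨F, hF, fun n f g f' b b' hf hf' => h n f g f' b b' (FS_mono hs hf) (FS_mono hs' hf')⟩

theorem qc_of_ft (hπ : Function.Surjective π) {S S' : Set X} (h : FTr π S S') : QC π S S' := by
  have _ := hπ
  obtain ⟨F, hF, h⟩ := h
  refine ⟨F, hF, fun n f g b b' hf hg hb hb' hm => ?_⟩
  obtain ⟨f', hf', e⟩ := mem_MS.1 hm
  obtain ⟨g', hg', hl⟩ := h n f g f' b b' hf hf' hb hb' (by rw [e]; simp [mul_assoc]) hg
  refine ⟨_, hl, mem_MS.2 ⟨g', ?_, by group⟩⟩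
  have := hg'.mem_FS (S := S') (by simpa using hf')
  simpa using this

/-- (G4) -/
theorem dc1_of_qc (hπ : Function.Surjective π) {S S' : Set X} (h : QC π S S') : DC1 π S S' := by
  classical
  obtain ⟨F, hF, h⟩ := h
  refine ⟨fun n => (2 * Fintype.card X + 1) ^ F n, (Bd.const _).pow hF, ?_⟩
  intro n x y hx hy m hm hm'
  obtain ⟨f1, hf1, rfl⟩ := mem_MS.1 hm
  obtain ⟨f, ⟨hf, hf'⟩, hmin⟩ := (measure (FreeGroup.norm (α := X))).wf.has_min
    {f | f ∈ FS S ∧ y⁻¹ * π f * x ∈ MS π S'} ⟨f1, hf1, hm'⟩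
  refine ⟨π f, mem_MS.2 ⟨f, hf, rfl⟩, hf', (len_le f).trans ?_⟩
  by_contra hc
  obtain ⟨s, hs, hcard⟩ := len_ball hπ (F n)
  choose B hB hB' using fun i : ℕ => h n f (pre f i) y x hf (pre_fb f i) hy hx hf'
  have main : ∀ i j, i < j → j < f.norm → B i ≠ B j := by
    intro i j hij hj e
    refine hmin (pre f i * ((pre f j)⁻¹ * f))
      ⟨mul_mem (pre_mem hf i) (mul_mem (inv_mem (pre_mem hf j)) hf), ?_⟩ ?_
    · have := mul_mem (mul_mem (hB' i) (inv_mem (hB' j))) hf'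
      rw [e] at this
      simpa [mul_assoc] using this
    · show (pre f i * ((pre f j)⁻¹ * f)).norm < f.norm
      have := FreeGroup.norm_mul_le (pre f i) ((pre f j)⁻¹ * f)
      rw [pre_norm, pre_rest] at this
      omega
  obtain ⟨i, hi, j, hj, hne, e⟩ := Finset.exists_ne_map_eq_of_card_lt_of_maps_to
    (s := Finset.range f.norm) (t := s) (f := B)
    (by rw [Finset.card_range]; exact lt_of_le_of_lt hcard (not_le.1 hc))
    (fun i _ => Finset.mem_coe.2 ((hs _).2 (hB i)))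
  rcases lt_or_gt_of_ne hne with hlt | hlt
  · exact main i j hlt (Finset.mem_range.1 hj) e
  · exact main j i hlt (Finset.mem_range.1 hi) e.symm

theorem dc2_of_qc (hπ : Function.Surjective π) {S S' : Set X} (h : QC π S S') : DC2 π S S' := by
  obtain ⟨F1, hF1, h1⟩ := dc1_of_qc hπ h
  obtain ⟨F, hF, h⟩ := h
  have b1 : Bd (fun n => F1 (F n + n)) := hF1.comp (hF.add Bd.id)
  refine ⟨_, (b1.add (Bd.const 1)).add b1, ?_⟩
  intro n y hy k hk
  obtain ⟨f, hf, rfl⟩ := mem_MS.1 hk.1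
  have hk2 : y⁻¹ * π f * y ∈ MS π S' := mem_cj.1 hk.2
  choose B hB hB' using fun i : ℕ => h n f (pre f i) y y hf (pre_fb f i) hy hy hk2
  have hpm : ∀ i, π (pre f i) ∈ MS π S := fun i => mem_MS.2 ⟨_, pre_mem hf i, rfl⟩
  choose m hm hm' hl using fun i : ℕ => h1 (F n + n) (B i) y ((hB i).trans (Nat.le_add_right _ _))
    (hy.trans (Nat.le_add_left _ _)) (π (pre f i)) (hpm i) (hB' i)
  have hK : ∀ i, π (pre f i) * (m i)⁻¹ ∈ MS π S ⊓ cj y (MS π S') := by
    intro i
    refine Subgroup.mem_inf.2 ⟨mul_mem (hpm i) (inv_mem (hm i)), mem_cj.2 ?_⟩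
    have := mul_mem (hB' i) (inv_mem (hm' i))
    simpa [mul_assoc] using this
  set C := Subgroup.closure {k | k ∈ MS π S ⊓ cj y (MS π S') ∧
    len π k ≤ F1 (F n + n) + 1 + F1 (F n + n)} with hC
  have key : ∀ i, π (pre f i) * (m i)⁻¹ ∈ C := by
    intro i
    induction i with
    | zero =>
      refine Subgroup.subset_closure ⟨hK 0, ?_⟩
      rw [pre_zero, map_one, one_mul, len_inv hπ]
      have := hl 0
      omega
    | succ i ih =>
      have e : π (pre f (i + 1)) * (m (i + 1))⁻¹ = π (pre f i) * (m i)⁻¹ *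
          ((π (pre f i) * (m i)⁻¹)⁻¹ * (π (pre f (i + 1)) * (m (i + 1))⁻¹)) := by group
      rw [e]
      refine mul_mem ih (Subgroup.subset_closure ⟨mul_mem (inv_mem (hK i)) (hK (i + 1)), ?_⟩)
      have e' : (π (pre f i) * (m i)⁻¹)⁻¹ * (π (pre f (i + 1)) * (m (i + 1))⁻¹) =
          m i * π ((pre f i)⁻¹ * pre f (i + 1)) * (m (i + 1))⁻¹ := by
        simp only [map_mul, map_inv]; group
      rw [e']
      refine (len_mul3 hπ _ _ _).trans ?_
      have a1 := len_le (π := π) ((pre f i)⁻¹ * pre f (i + 1))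
      rw [pre_dist f (by omega)] at a1
      rw [len_inv hπ]
      have := hl i
      have := hl (i + 1)
      omega
  have k1 := key f.norm
  have k2 := hK f.norm
  rw [pre_top f le_rfl] at k1 k2
  have e : π f = π f * (m f.norm)⁻¹ * ((π f * (m f.norm)⁻¹)⁻¹ * π f) := by group
  rw [e]
  refine mul_mem k1 (Subgroup.subset_closure ⟨mul_mem (inv_mem k2) hk, ?_⟩)
  have e' : (π f * (m f.norm)⁻¹)⁻¹ * π f = m f.norm := by group
  rw [e']
  have := hl f.norm
  omega

end CPOR
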