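import Pool.Agent.P.MP_2cb329_al.GL1

/-! General lemmas on marked groups: cyclic intersections and conjugacy into subgroups. -/

set_option autoImplicit false

namespace CPOR

variable {X : Type} [Fintype X] [DecidableEq X] {G : Type} [Group G] {π : FreeGroup X →* G}

omit [Fintype X] [DecidableEq X] in
theorem gl2_inj {S : Set X} (hF : Free π S) {f g : FreeGroup X} (hf : f ∈ FS S) (hg : g ∈ FS S)
    (h : π f = π g) : f = g := by
  have := hF (f * g⁻¹) ((FS S).mul_mem hf ((FS S).inv_mem hg)) (by simp [h])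
  exact mul_inv_eq_one.1 this

/-- Elements of `FS S` with a short image have bounded norm (not effective). -/
theorem gl2_norm_bound (hπ : Function.Surjective π) {S : Set X} (hF : Free π S) (R : ℕ) :
    ∃ B : ℕ, ∀ z ∈ FS S, len π (π z) ≤ R → z.norm ≤ B := by
  classical
  obtain ⟨s, hs, -⟩ := len_ball hπ R
  have hfin : Set.Finite {z : FreeGroup X | z ∈ FS S ∧ len π (π z) ≤ R} := by
    refine Set.Finite.of_finite_image (f := π) (s.finite_toSet.subset ?_) ?_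
    · rintro _ ⟨z, hz, rfl⟩
      exact (hs _).2 hz.2
    · intro a ha b hb hab
      exact gl2_inj hF ha.1 hb.1 hab
  obtain ⟨B, hB⟩ := (hfin.image FreeGroup.norm).bddAbove
  exact ⟨B, fun z hz hl => hB ⟨z, ⟨hz, hl⟩, rfl⟩⟩

/-- (FF2) -/
theorem ff2 {S S₀ : Set X} (hF : Free π S) (hs : S₀ ⊆ S) {c : G} (hc : c ∈ MS π S) :
    ∃ c' ∈ MS π S₀, ∀ m ∈ MS π S, ∃ n ∈ MS π S₀,
      MS π S₀ ⊓ cj m (Subgroup.zpowers c) ≤ cj n (Subgroup.zpowers c') := by
  obtain ⟨f, hf, rfl⟩ := mem_MS.1 hc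
  -- a nontrivial element of the intersection lifts to a power of a conjugate of `f`
  have key : ∀ μ ∈ FS S, ∀ g ∈ MS π S₀ ⊓ cj (π μ) (Subgroup.zpowers (π f)), g ≠ 1 →
      ∃ j : ℤ, j ≠ 0 ∧ f ≠ 1 ∧ μ * f ^ j * μ⁻¹ ∈ FS S₀ := by
    intro μ hμ g hg h1
    obtain ⟨hg1, hg2⟩ := Subgroup.mem_inf.1 hg
    obtain ⟨γ, hγ, rfl⟩ := mem_MS.1 hg1
    obtain ⟨j, hj⟩ := Subgroup.mem_zpowers_iff.1 (mem_cj.1 hg2)
    have he : μ * f ^ j * μ⁻¹ = γ := by
      refine gl2_inj hF ((FS S).mul_mem ((FS S).mul_mem hμ ((FS S).zpow_mem hf j)) ((FS S).inv_mem hμ))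
        (FS_mono hs hγ) ?_
      simp only [map_mul, map_zpow, map_inv, hj]
      group
    refine ⟨j, ?_, ?_, he ▸ hγ⟩
    · rintro rfl
      apply h1
      rw [← he]; simp
    · rintro rfl
      apply h1
      rw [← he]; simp
  by_cases hA : ∃ h ∈ FS S, h⁻¹ * f * h ∈ FS S₀
  · obtain ⟨h, hh, hfh⟩ := hA
    refine ⟨π (h⁻¹ * f * h), mem_MS.2 ⟨_, hfh, rfl⟩, fun m hm => ?_⟩
    obtain ⟨μ, hμ, rfl⟩ := mem_MS.1 hm
    by_cases hK : ∃ g ∈ MS π S₀ ⊓ cj (π μ) (Subgroup.zpowers (π f)), g ≠ 1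
    · obtain ⟨g, hg, h1⟩ := hK
      obtain ⟨j, hj, hf1, hmem⟩ := key μ hμ g hg h1
      have hne : (h⁻¹ * f * h) ^ j ≠ 1 := by
        refine zpow_ne_one ?_ hj
        intro h0
        apply hf1
        have : f = h * (h⁻¹ * f * h) * h⁻¹ := by group
        rw [this, h0]; simp
      have hconj : ((μ * h)⁻¹)⁻¹ * (h⁻¹ * f * h) ^ j * (μ * h)⁻¹ ∈ FS S₀ := by
        have : ((μ * h)⁻¹)⁻¹ * (h⁻¹ * f * h) ^ j * (μ * h)⁻¹ = μ * f ^ j * μ⁻¹ := by
          have e : (h⁻¹ * f * h) ^ j = h⁻¹ * f ^ j * h := by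
            have := conj_zpow (a := h⁻¹) (b := f) (i := j)
            simpa using this
          rw [e]; group
        rw [this]; exact hmem
      obtain ⟨a, ha, b, hb, hab⟩ := ff_lemma hne ((FS S₀).zpow_mem hfh j) hconj
      have hμh : μ * h ∈ FS S₀ := by
        have : (μ * h)⁻¹ ∈ FS S₀ := hab ▸ (FS S₀).mul_mem ha hb
        exact (FS S₀).inv_mem_iff.1 this
      refine ⟨π (μ * h), mem_MS.2 ⟨_, hμh, rfl⟩, fun g' hg' => ?_⟩
      obtain ⟨i, hi⟩ := Subgroup.mem_zpowers_iff.1 (mem_cj.1 (Subgroup.mem_inf.1 hg').2)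
      refine mem_cj.2 (Subgroup.mem_zpowers_iff.2 ⟨i, ?_⟩)
      have e : (π (h⁻¹ * f * h)) ^ i = (π h)⁻¹ * π f ^ i * π h := by
        have := conj_zpow (a := (π h)⁻¹) (b := π f) (i := i)
        simpa using this
      rw [e, hi, map_mul]; group
    · refine ⟨1, (MS π S₀).one_mem, fun g hg => ?_⟩
      have : g = 1 := by
        by_contra h1
        exact hK ⟨g, hg, h1⟩
      rw [this]; exact Subgroup.one_mem _
  · refine ⟨1, (MS π S₀).one_mem, fun m hm => ⟨1, (MS π S₀).one_mem, fun g hg => ?_⟩⟩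
    obtain ⟨μ, hμ, rfl⟩ := mem_MS.1 hm
    have : g = 1 := by
      by_contra h1
      obtain ⟨j, hj, -, hmem⟩ := key μ hμ g hg h1
      refine hA ⟨μ⁻¹, (FS S).inv_mem hμ, FS_root hj ?_⟩
      rw [inv_inv, conj_zpow]; exact hmem
    rw [this]; exact Subgroup.one_mem _

/-- (G5) -/
theorem sfin_mono (hπ : Function.Surjective π) {S S' S₀ S₀' : Set X} (hF : Free π S)
    (hF' : Free π S') (hM' : Mem π S') (hT : FTr π S S') (h : Sfin π S S') (hs : S₀ ⊆ S)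
    (hs' : S₀' ⊆ S') : Sfin π S₀ S₀' := by
  classical
  obtain ⟨C, Ξ, hC, hx⟩ := h
  obtain ⟨F, hFb, hT⟩ := hT
  have hff := fun c : C => ff2 hF hs (hC c.1 c.2)
  choose c' hc' hcc using hff
  obtain ⟨Ξ₀, hΞ₀, -⟩ := len_ball hπ (F (Ξ.sup (len π)))
  refine ⟨insert 1 (Finset.univ.image c'), Ξ₀, ?_, fun x => ?_⟩
  · intro c hc
    rcases Finset.mem_insert.1 hc with rfl | hc
    · exact (MS π S₀).one_mem
    · obtain ⟨d, -, rfl⟩ := Finset.mem_image.1 hc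
      exact hc' d
  rcases hx x with ⟨m, hm, ξ, hξ, m', hm', rfl⟩ | ⟨m, hm, c, hc, hle⟩
  · by_cases hK : ∃ g ∈ MS π S₀ ⊓ cj (m * ξ * m') (MS π S₀'), g ≠ 1
    · left
      obtain ⟨g, hg, h1⟩ := hK
      obtain ⟨hg1, hg2⟩ := Subgroup.mem_inf.1 hg
      obtain ⟨γ, hγ, rfl⟩ := mem_MS.1 hg1
      obtain ⟨γ', hγ', hγe⟩ := mem_MS.1 (mem_cj.1 hg2)
      obtain ⟨μ, hμ, rfl⟩ := mem_MS.1 hm
      obtain ⟨μ', hμ', rfl⟩ := mem_MS.1 hm'
      set N := Ξ.sup (len π) with hN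
      have hξN : len π ξ ≤ N := Finset.le_sup (f := len π) hξ
      obtain ⟨B, hB⟩ := gl2_norm_bound hπ hF (F N + μ'.norm + N)
      have hγ1 : γ ≠ 1 := by
        rintro rfl
        exact h1 (map_one π)
      set D := B + μ.norm + 1 with hD
      set j : ℕ := 2 * D with hj
      set x₀ := μ⁻¹ * γ * μ with hx₀
      set x₁ := μ' * γ' * μ'⁻¹ with hx₁
      have hx₀S : x₀ ∈ FS S :=
        (FS S).mul_mem ((FS S).mul_mem ((FS S).inv_mem hμ) (FS_mono hs hγ)) hμ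
      have hx₁S : x₁ ∈ FS S' :=
        (FS S').mul_mem ((FS S').mul_mem hμ' (FS_mono hs' hγ')) ((FS S').inv_mem hμ')
      have hrel : π x₀ = ξ * π x₁ * ξ⁻¹ := by
        simp only [hx₀, hx₁, map_mul, map_inv, hγe]
        group
      have hrelj : π (x₀ ^ j) * ξ = ξ * π (x₁ ^ j) := by
        rw [map_pow, map_pow, hrel, conj_pow]; group
      have hlong : j ≤ (x₀ ^ j).norm := by
        have := natAbs_le_norm_conj_zpow hγ1 μ⁻¹ (j : ℤ)
        have e : x₀ ^ j = μ⁻¹ * γ ^ (j : ℤ) * μ⁻¹⁻¹ := by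
          rw [zpow_natCast, ← conj_pow, inv_inv]
        rw [e]; simpa using this
      have hDle : D ≤ (x₀ ^ j).norm := by omega
      set z := FreeGroup.mk ((x₀ ^ j).toWord.take D) with hz
      have hzb : FB 1 z (x₀ ^ j) := fb_one_iff.2 ⟨D, hDle, rfl⟩
      have hzn : z.norm = D := norm_mk_take _ hDle
      have hzn' : D ≤ (z⁻¹ * x₀ ^ j).norm := by
        have := hzb
        simp only [FB, inv_one, one_mul] at this
        omega
      have hzS : z ∈ FS S := by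
        have := hzb.mem_FS (S := S) (by simpa using (FS S).pow_mem hx₀S j)
        simpa using this
      obtain ⟨z', hz'b, hz'l⟩ := hT N (x₀ ^ j) z (x₁ ^ j) ξ ξ ((FS S).pow_mem hx₀S j)
        ((FS S').pow_mem hx₁S j) hξN hξN hrelj hzb
      set β := (π z)⁻¹ * ξ * π z' with hβ
      have h0 : μ⁻¹⁻¹ * z ∈ FS S₀ := by
        refine fb_pow_mem (x := x₀) ?_ j hzb ?_ ?_
        · have : μ⁻¹⁻¹ * x₀ * μ⁻¹ = γ := by rw [hx₀]; group
          rw [this]; exact hγ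
        · rw [FreeGroup.norm_inv_eq]; omega
        · rw [FreeGroup.norm_inv_eq]; omega
      have h1' : μ'⁻¹ * z' ∈ FS S₀' := by
        refine fb_pow_mem (x := x₁) ?_ j hz'b ?_ ?_
        · have : μ'⁻¹ * x₁ * μ' = γ' := by rw [hx₁]; group
          rw [this]; exact hγ'
        · by_contra hlt
          have hle : z'.norm ≤ μ'.norm := not_lt.1 hlt
          have e : π z⁻¹ = β * π z'⁻¹ * ξ⁻¹ := by
            rw [hβ, map_inv, map_inv]; group
          have hl : len π (π z⁻¹) ≤ F N + μ'.norm + N := by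
            rw [e]
            refine (len_mul3 hπ _ _ _).trans ?_
            have a1 := len_le (π := π) z'⁻¹
            rw [FreeGroup.norm_inv_eq] at a1
            rw [len_inv hπ ξ]
            omega
          have := hB _ ((FS S).inv_mem hzS) hl
          rw [FreeGroup.norm_inv_eq] at this
          omega
        · by_contra hlt
          have hle : (z'⁻¹ * x₁ ^ j).norm ≤ μ'.norm := not_lt.1 hlt
          have e : π (z⁻¹ * x₀ ^ j) = β * π (z'⁻¹ * x₁ ^ j) * ξ⁻¹ := by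
            have e1 : π (x₀ ^ j) = ξ * π (x₁ ^ j) * ξ⁻¹ := by rw [← hrelj]; group
            rw [hβ, map_mul, map_mul, map_inv, map_inv, e1]; group
          have hl : len π (π (z⁻¹ * x₀ ^ j)) ≤ F N + μ'.norm + N := by
            rw [e]
            refine (len_mul3 hπ _ _ _).trans ?_
            have a1 := len_le (π := π) (z'⁻¹ * x₁ ^ j)
            rw [len_inv hπ ξ]
            omega
          have := hB _ ((FS S).mul_mem ((FS S).inv_mem hzS) ((FS S).pow_mem hx₀S j)) hl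
          omega
      refine ⟨π (μ⁻¹⁻¹ * z), mem_MS.2 ⟨_, h0, rfl⟩, β, (hΞ₀ β).2 hz'l, π (μ'⁻¹ * z')⁻¹,
        mem_MS.2 ⟨_, (FS S₀').inv_mem h1', rfl⟩, ?_⟩
      simp only [hβ, map_mul, map_inv]
      group
    · right
      refine ⟨1, (MS π S₀).one_mem, 1, Finset.mem_insert_self _ _, fun g hg => ?_⟩
      have : g = 1 := by
        by_contra h1
        exact hK ⟨g, hg, h1⟩
      rw [this]; exact Subgroup.one_mem _
  · right
    obtain ⟨n, hn, hle'⟩ := hcc ⟨c, hc⟩ m hm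
    refine ⟨n, hn, c' ⟨c, hc⟩, Finset.mem_insert_of_mem
      (Finset.mem_image.2 ⟨_, Finset.mem_univ _, rfl⟩), fun g hg => hle' ?_⟩
    obtain ⟨hg1, hg2⟩ := Subgroup.mem_inf.1 hg
    exact Subgroup.mem_inf.2 ⟨hg1, hle (Subgroup.mem_inf.2
      ⟨MS_mono hs hg1, mem_cj.2 (MS_mono hs' (mem_cj.1 hg2))⟩)⟩

theorem exc_of_sfin {S : Set X} (h : Sfin π S S)
    (hmal : ∀ x ∉ MS π S, ∃ c, MS π S ⊓ cj x (MS π S) = Subgroup.zpowers c) : Exc π S := by
  classical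
  obtain ⟨C, Ξ, hC, hx⟩ := h
  have hmal' : ∀ x : G, ∃ c ∈ MS π S, x ∉ MS π S →
      MS π S ⊓ cj x (MS π S) = Subgroup.zpowers c := by
    intro x
    by_cases hxm : x ∈ MS π S
    · exact ⟨1, (MS π S).one_mem, fun h => (h hxm).elim⟩
    · obtain ⟨c, hc⟩ := hmal x hxm
      refine ⟨c, ?_, fun _ => hc⟩
      have : c ∈ MS π S ⊓ cj x (MS π S) := hc ▸ Subgroup.mem_zpowers c
      exact (Subgroup.mem_inf.1 this).1
  choose d hd hdd using hmal'
  refine ⟨C ∪ Ξ.image d, ?_, fun x hxm => ?_⟩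
  · intro c hc
    rcases Finset.mem_union.1 hc with hc | hc
    · exact hC c hc
    · obtain ⟨ξ, -, rfl⟩ := Finset.mem_image.1 hc
      exact hd ξ
  rcases hx x with ⟨m, hm, ξ, hξ, m', hm', rfl⟩ | ⟨m, hm, c, hc, hle⟩
  · have hξm : ξ ∉ MS π S := fun h => hxm ((MS π S).mul_mem ((MS π S).mul_mem hm h) hm')
    refine ⟨m, hm, d ξ, Finset.mem_union_right _ (Finset.mem_image.2 ⟨ξ, hξ, rfl⟩),
      fun g hg => ?_⟩
    obtain ⟨hg1, hg2⟩ := Subgroup.mem_inf.1 hg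
    rw [mem_cj, ← hdd ξ hξm]
    refine Subgroup.mem_inf.2 ⟨(MS π S).mul_mem ((MS π S).mul_mem ((MS π S).inv_mem hm) hg1) hm,
      mem_cj.2 ?_⟩
    have := (MS π S).mul_mem ((MS π S).mul_mem hm' (mem_cj.1 hg2)) ((MS π S).inv_mem hm')
    have e : m' * ((m * ξ * m')⁻¹ * g * (m * ξ * m')) * m'⁻¹ = ξ⁻¹ * (m⁻¹ * g * m) * ξ := by group
    rwa [e] at this
  · exact ⟨m, hm, c, Finset.mem_union_left _ hc, hle⟩

omit [Fintype X] in
theorem gl2_not_finOrder {S : Set X} (hF : Free π S) {c : G} (hc : c ∈ MS π S) (h1 : c ≠ 1) :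
    ¬ IsOfFinOrder c := by
  obtain ⟨f, hf, rfl⟩ := mem_MS.1 hc
  intro ho
  obtain ⟨n, hn, he⟩ := isOfFinOrder_iff_pow_eq_one.1 ho
  have hf1 : f ≠ 1 := by
    rintro rfl
    exact h1 (map_one π)
  refine zpow_ne_one hf1 (n := (n : ℤ)) (by omega) ?_
  rw [zpow_natCast]
  exact hF _ ((FS S).pow_mem hf n) (by rw [map_pow, he])

/-- (G6) -/
theorem ci_mono (hπ : Function.Surjective π) {S S₀ : Set X} (hF : Free π S) (hM : Mem π S)
    (hE : Exc π S) (hP : PC π) (h : CI π S) (hs : S₀ ⊆ S) : CI π S₀ := by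
  classical
  obtain ⟨F₁, hF₁, hci⟩ := h
  obtain ⟨FM, hFM, hmem⟩ := hM
  obtain ⟨C, hC, hexc⟩ := hE
  have hff := fun c : C => ff2 hF hs (hC c.1 c.2)
  choose c' hc' hcc using hff
  set C₁ : Finset G := (C ∪ Finset.univ.image c').filter (fun c => c ≠ 1) with hC₁
  obtain ⟨FP, hFP, hpc⟩ := hP C₁ (by
    intro c hc
    obtain ⟨hc1, hc2⟩ := Finset.mem_filter.1 hc
    refine gl2_not_finOrder hF ?_ hc2
    rcases Finset.mem_union.1 hc1 with hc1 | hc1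
    · exact hC c hc1
    · obtain ⟨d, -, rfl⟩ := Finset.mem_image.1 hc1
      exact MS_mono hs (hc' d))
  set L := FM (C.sup (len π)) with hL
  have hB : Bd (fun n => FM (F₁ n + n + F₁ n)) := hFM.comp ((hF₁.add Bd.id).add hF₁)
  refine ⟨fun n => F₁ n + (FM (F₁ n + n + F₁ n) + FM (F₁ n + n + F₁ n) * L) +
      FP (FM (F₁ n + n + F₁ n) + FP (FM (F₁ n + n + F₁ n))),
    (hF₁.add (hB.add (hB.mul (Bd.const L)))).add (hFP.comp (hB.add (hFP.comp hB))), ?_⟩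
  intro u g hg
  obtain ⟨g₁, hg₁, hl₁⟩ := hci u g (MS_mono hs hg)
  obtain ⟨φ, hφ, hφe⟩ := mem_MS.1 hg₁
  set B := FM (F₁ (len π u) + len π u + F₁ (len π u)) with hBdef
  have hφn : φ.norm ≤ B := by
    refine (hmem φ hφ).trans (hFM.mono ?_)
    rw [hφe]
    refine (len_mul3 hπ _ _ _).trans ?_
    rw [len_inv hπ]; omega
  by_cases hu : u = 1
  · refine ⟨1, ?_, ?_⟩
    · rw [hu]; simpa using (MS π S₀).one_mem
    · rw [len_one]; exact Nat.zero_le _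
  by_cases hx : g₁⁻¹ * g ∈ MS π S
  · obtain ⟨ξ, hξ, hξe⟩ := mem_MS.1 hx
    obtain ⟨ψ, hψ, hψe⟩ := mem_MS.1 hg
    have e : ξ⁻¹ * φ * ξ = ψ := by
      refine gl2_inj hF ((FS S).mul_mem ((FS S).mul_mem ((FS S).inv_mem hξ) hφ) hξ) (FS_mono hs hψ) ?_
      rw [map_mul, map_mul, map_inv, hξe, hφe, hψe]; group
    obtain ⟨k, hk, hkb⟩ := conj_into_FS (S := S₀) (u := φ) (g := ξ) (e ▸ hψ)
    have hkn : k.norm ≤ φ.norm := by
      simp only [FB, inv_one, one_mul] at hkb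
      omega
    refine ⟨g₁ * π k, mem_MS.2 ⟨_, hk, ?_⟩, ?_⟩
    · rw [map_mul, map_mul, map_inv, hφe]; group
    · have a1 := len_mul hπ g₁ (π k)
      have a2 := len_le (π := π) k
      show _ ≤ F₁ (len π u) + (B + B * L) + FP (B + FP B)
      omega
  · obtain ⟨m, hm, c, hc, hle⟩ := hexc _ hx
    have hx' : (g₁⁻¹ * g)⁻¹ ∉ MS π S := fun h => hx ((MS π S).inv_mem_iff.1 h)
    obtain ⟨m₂, hm₂, c₂, hc₂, hle₂⟩ := hexc _ hx'
    obtain ⟨n, hn, hle₃⟩ := hcc ⟨c₂, hc₂⟩ m₂ hm₂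
    have hv : g₁⁻¹ * u * g₁ ∈ cj m (Subgroup.zpowers c) := by
      refine hle (Subgroup.mem_inf.2 ⟨hg₁, mem_cj.2 ?_⟩)
      have : (g₁⁻¹ * g)⁻¹ * (g₁⁻¹ * u * g₁) * (g₁⁻¹ * g) = g⁻¹ * u * g := by group
      rw [this]; exact MS_mono hs hg
    have hw : g⁻¹ * u * g ∈ cj n (Subgroup.zpowers (c' ⟨c₂, hc₂⟩)) := by
      refine hle₃ (Subgroup.mem_inf.2 ⟨hg, hle₂ (Subgroup.mem_inf.2 ⟨MS_mono hs hg, mem_cj.2 ?_⟩)⟩)
      have : (g₁⁻¹ * g)⁻¹⁻¹ * (g⁻¹ * u * g) * (g₁⁻¹ * g)⁻¹ = g₁⁻¹ * u * g₁ := by group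
      rw [this]; exact hg₁
    obtain ⟨j, hj⟩ := Subgroup.mem_zpowers_iff.1 (mem_cj.1 hv)
    obtain ⟨j', hj'⟩ := Subgroup.mem_zpowers_iff.1 (mem_cj.1 hw)
    set d := c' ⟨c₂, hc₂⟩ with hd
    have hc1 : c ≠ 1 := by
      rintro rfl
      apply hu
      have : u = g₁ * m * (m⁻¹ * (g₁⁻¹ * u * g₁) * m) * m⁻¹ * g₁⁻¹ := by group
      rw [this, ← hj]; simp
    have hd1 : d ≠ 1 := by
      intro h0
      apply hu
      have : u = g * n * (n⁻¹ * (g⁻¹ * u * g) * n) * n⁻¹ * g⁻¹ := by group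
      rw [this, ← hj', h0]; simp
    have hcC : c ∈ C₁ := Finset.mem_filter.2 ⟨Finset.mem_union_left _ hc, hc1⟩
    have hdC : d ∈ C₁ := Finset.mem_filter.2 ⟨Finset.mem_union_right _
      (Finset.mem_image.2 ⟨_, Finset.mem_univ _, rfl⟩), hd1⟩
    have hconj : IsConj (c ^ j) (d ^ j') := by
      refine isConj_iff.2 ⟨n⁻¹ * g⁻¹ * g₁ * m, ?_⟩
      rw [hj, hj']; group
    obtain ⟨-, j'', hconj', hj''⟩ := hpc c hcC d hdC j j' hconj
    obtain ⟨⟨g₃, hg₃, hl₃⟩, -⟩ := hpc c hcC d hdC j j'' hconj'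
    obtain ⟨γ, hγ, rfl⟩ := mem_MS.1 (hC c hc)
    obtain ⟨μ, hμ, rfl⟩ := mem_MS.1 hm
    have hγ1 : γ ≠ 1 := by
      rintro rfl
      exact hc1 (map_one π)
    have e : μ⁻¹ * φ * μ = γ ^ j := by
      refine gl2_inj hF ((FS S).mul_mem ((FS S).mul_mem ((FS S).inv_mem hμ) hφ) hμ)
        ((FS S).zpow_mem hγ j) ?_
      rw [map_mul, map_mul, map_inv, map_zpow, hφe, hj]
    have hjB : j.natAbs ≤ B := by
      have := natAbs_le_norm_conj_zpow hγ1 μ j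
      have e' : μ * γ ^ j * μ⁻¹ = φ := by rw [← e]; group
      rw [e'] at this
      omega
    obtain ⟨k, -, hk, hkn⟩ := conj_short_FS hφ ((FS S).zpow_mem hγ j) e
    have hγn : γ.norm ≤ L :=
      (hmem γ hγ).trans (hFM.mono (Finset.le_sup (f := len π) hc))
    have hpow : (γ ^ j).norm ≤ B * L := (norm_zpow_le γ j).trans (Nat.mul_le_mul hjB hγn)
    have hl₃' : len π g₃ ≤ FP (B + FP B) := by
      refine hl₃.trans (hFP.mono ?_)
      have := hFP.mono hjB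
      omega
    refine ⟨g₁ * π k * g₃, ?_, ?_⟩
    · have e2 : (g₁ * π k * g₃)⁻¹ * u * (g₁ * π k * g₃) = d ^ j'' := by
        rw [← hg₃, ← map_zpow, ← hk, map_mul, map_mul, map_inv, hφe]; group
      rw [e2]
      exact (MS π S₀).zpow_mem (hc' _) _
    · have a1 := len_mul3 hπ g₁ (π k) g₃
      have a2 := len_le (π := π) k
      show _ ≤ F₁ (len π u) + (B + B * L) + FP (B + FP B)
      omega

theorem not_finOrder_MS {S : Set X} (hF : Free π S) {c : G} (hc : c ∈ MS π S) (h1 : c ≠ 1) :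
    ¬ IsOfFinOrder c :=
  gl2_not_finOrder hF hc h1

end CPOR
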