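import Pool.Agent.P.MP_2cb329_al.CH

/-! The base lemma of the hierarchy: words that no weight function separates. -/

set_option autoImplicit false

namespace CPOR

/-- The weight of a word. -/
def wt {X : Type} (φ : X → ℤ) : FreeGroup X →* Multiplicative ℤ :=
  FreeGroup.lift fun x => Multiplicative.ofAdd (φ x)

/-- The level of the edge at position `i`. -/
def lev {X : Type} (φ : X → ℤ) (u : List (X × Bool)) (i : Fin u.length) : ℤ :=
  Multiplicative.toAdd (wt φ (seg u (stp u i)))

/-- `u` is not a proper power (as a list). -/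
def Prim {X : Type} (u : List (X × Bool)) : Prop :=
  ∀ (v : List (X × Bool)) (k : ℕ), u = (List.replicate k v).flatten → k = 1

namespace HB

theorem flatten_rep_rep {α : Type} (u : List α) (j k : ℕ) :
    (List.replicate j (List.replicate k u).flatten).flatten =
      (List.replicate (j * k) u).flatten := by
  induction j with
  | zero => simp
  | succ j ih =>
    rw [List.replicate_succ, List.flatten_cons, ih, Nat.succ_mul, Nat.add_comm,
      List.replicate_add, List.flatten_append]

/-- A simple closed stretch of the walk. -/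
def Loop {V : Type} (c : ℕ → V) (s d : ℕ) : Prop :=
  0 < d ∧ c s = c (s + d) ∧ ∀ i < d, ∀ j < d, c (s + i) = c (s + j) → i = j

theorem exists_loop {V : Type} (c : ℕ → V) {n : ℕ} (hn : 0 < n) (per : ∀ t, c (t + n) = c t)
    (t : ℕ) : ∃ s d, t ≤ s ∧ Loop c s d ∧
      ∀ i j, t ≤ i → i < j → j < s + d → c i ≠ c j := by
  classical
  have hex : ∃ m, ∃ i < m, c (t + i) = c (t + m) := ⟨n, 0, hn, (per t).symm⟩
  obtain ⟨i, hi, he⟩ := Nat.find_spec hex
  have hmin : ∀ i' j, t ≤ i' → i' < j → j < t + i + (Nat.find hex - i) → c i' ≠ c j := by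
    intro i' j h1 h2 h3 h4
    refine Nat.find_min hex (m := j - t) (by omega) ⟨i' - t, by omega, ?_⟩
    rw [Nat.add_sub_cancel' h1, Nat.add_sub_cancel' (by omega : t ≤ j)]
    exact h4
  refine ⟨t + i, Nat.find hex - i, by omega, ⟨by omega, ?_, fun a ha b hb hab => ?_⟩, hmin⟩
  · rw [he]; congr 1; omega
  · by_contra hne
    rcases Nat.lt_or_gt_of_ne hne with h | h
    · exact hmin _ _ (by omega) (by omega) (by omega) hab
    · exact hmin _ _ (by omega) (by omega) (by omega) hab.symm

section core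

variable {X V : Type} {a : ℕ → X × Bool} {c : ℕ → V}
  (red : ∀ t, (a t).1 = (a (t + 1)).1 → (a t).2 = (a (t + 1)).2)
  (same : ∀ i j, (a i).1 = (a j).1 → (a i).2 = (a j).2 → c i = c j ∧ c (i + 1) = c (j + 1))
  (opp : ∀ i j, (a i).1 = (a j).1 → (a i).2 ≠ (a j).2 → c i = c (j + 1))

include red same opp

theorem Loop.inj {s d : ℕ} (h : Loop c s d) :
    ∀ i < d, ∀ j < d, (a (s + i)).1 = (a (s + j)).1 → i = j := by
  have key : ∀ i j, i < j → j < d → (a (s + i)).1 ≠ (a (s + j)).1 := by
    intro i j hij hj he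
    by_cases hs : (a (s + i)).2 = (a (s + j)).2
    · have := h.2.2 i (by omega) j hj (same _ _ he hs).1
      omega
    · have h1 := opp _ _ he.symm (Ne.symm hs)
      have h2 := h.2.2 j hj (i + 1) (by omega) h1
      subst h2
      exact hs (red _ he)
  intro i hi j hj he
  by_contra hne
  rcases Nat.lt_or_gt_of_ne hne with h | h
  · exact key i j h hj he
  · exact key j i h hi he.symm

theorem Loop.step {W : Set X} {n : ℕ} (hn : 0 < n) (per : ∀ t, c (t + n) = c t)
    (dim : ∀ s d, 0 < d → c s = c (s + d) →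
      (∀ i < d, ∀ j < d, (a (s + i)).1 = (a (s + j)).1 → i = j) →
      ∀ x, x ∈ W ↔ ∃ i < d, (a (s + i)).1 = x)
    {s d : ℕ} (h : Loop c s d) : a (s + d) = a s ∧ Loop c (s + 1) d := by
  have hW : ∀ {s d}, Loop c s d → ∀ x, x ∈ W ↔ ∃ i < d, (a (s + i)).1 = x :=
    fun h => dim _ _ h.1 h.2.1 (h.inj red same opp)
  have hx : (a (s + d)).1 ∈ W := by
    obtain ⟨s', d', h1, h2, h3⟩ := exists_loop c hn per (s + d)
    rcases h1.eq_or_lt with rfl | hlt
    · exact (hW h2 _).2 ⟨0, h2.1, rfl⟩
    · exfalso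
      obtain ⟨j, hj, he⟩ := (hW h2 _).1 ((hW h _).2 ⟨0, h.1, rfl⟩)
      rw [Nat.add_zero] at he
      by_cases hs : (a s).2 = (a (s' + j)).2
      · exact h3 (s + d) (s' + j) le_rfl (by omega) (by omega)
          (h.2.1.symm.trans (same _ _ he.symm hs).1)
      · have h4 := h.2.1.symm.trans (opp _ _ he.symm hs)
        by_cases hj' : j + 1 < d'
        · exact h3 (s + d) (s' + j + 1) le_rfl (by omega) (by omega) h4
        · have h5 : s' + j + 1 = s' + d' := by omega
          rw [h5, ← h2.2.1] at h4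
          exact h3 (s + d) s' le_rfl hlt (by have := h2.1; omega) h4
  obtain ⟨i, hi, he⟩ := (hW h _).1 hx
  have heq : a (s + d) = a s := by
    by_cases hs : (a (s + i)).2 = (a (s + d)).2
    · have h0 : i = 0 := h.2.2 i hi 0 h.1 ((same _ _ he hs).1.trans h.2.1.symm)
      subst h0
      exact Prod.ext he.symm hs.symm
    · exfalso
      have h1 := opp _ _ he.symm (Ne.symm hs)
      by_cases hi' : i + 1 < d
      · have := h.2.2 0 h.1 (i + 1) hi' (h.2.1.trans h1)
        omega
      · have h2 : d = i + 1 := by omega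
        subst h2
        exact hs (red _ he)
  refine ⟨heq, h.1, ?_, fun i hi j hj hij => ?_⟩
  · have := (same (s + d) s (by rw [heq]) (by rw [heq])).2
    rw [← this]; congr 1; omega
  · have e : ∀ i < d, c (s + 1 + i) = c (s + (i + 1) % d) := by
      intro i hi
      by_cases hi' : i + 1 < d
      · rw [Nat.mod_eq_of_lt hi']; congr 1; omega
      · have h2 : i + 1 = d := by omega
        have h3 : s + 1 + i = s + d := by omega
        rw [h2, Nat.mod_self, h3]
        exact h.2.1.symm
    rw [e i hi, e j hj] at hij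
    have := h.2.2 _ (Nat.mod_lt _ h.1) _ (Nat.mod_lt _ h.1) hij
    have h3 : i ≡ j [MOD d] := Nat.ModEq.add_right_cancel' 1 this
    exact Nat.ModEq.eq_of_lt_of_lt h3 hi hj

theorem core {W : Set X} {n : ℕ} (hn : 0 < n) (per : ∀ t, c (t + n) = c t)
    (dim : ∀ s d, 0 < d → c s = c (s + d) →
      (∀ i < d, ∀ j < d, (a (s + i)).1 = (a (s + j)).1 → i = j) →
      ∀ x, x ∈ W ↔ ∃ i < d, (a (s + i)).1 = x) :
    ∃ s d, 0 < d ∧ ∀ t, s ≤ t → a (t + d) = a t ∧
      ∀ i < d, ∀ j < d, (a (t + i)).1 = (a (t + j)).1 → i = j := by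
  obtain ⟨s, d, -, h, -⟩ := exists_loop c hn per 0
  have hall : ∀ t, s ≤ t → Loop c t d := by
    intro t ht
    induction t, ht using Nat.le_induction with
    | base => exact h
    | succ t _ ih => exact (ih.step red same opp hn per dim).2
  exact ⟨s, d, h.1, fun t ht => ⟨((hall t ht).step red same opp hn per dim).1,
    (hall t ht).inj red same opp⟩⟩

end core

theorem range_map_periodic {α : Type} (a : ℕ → α) (d : ℕ) (h : ∀ t, a (t + d) = a t) (k : ℕ) :
    (List.range (k * d)).map a = (List.replicate k ((List.range d).map a)).flatten := by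
  have hp : ∀ k t, a (k * d + t) = a t := by
    intro k t
    induction k with
    | zero => simp
    | succ k ih => rw [← ih, ← h (k * d + t)]; congr 1; ring
  induction k with
  | zero => simp
  | succ k ih =>
    rw [Nat.succ_mul, List.range_add, List.map_append, ih, List.replicate_succ',
      List.flatten_append, List.map_map]
    simp [Function.comp_def, hp]

/-- The sign of a letter. -/
def sg {X : Type} (x : X × Bool) : ℤ := if x.2 then 1 else -1

/-- The weight of an initial piece of the walk. -/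
def Lw {X : Type} (a : ℕ → X × Bool) (φ : X → ℤ) (t : ℕ) : ℤ :=
  ∑ s ∈ Finset.range t, sg (a s) * φ (a s).1

theorem Lw_succ {X : Type} (a : ℕ → X × Bool) (φ : X → ℤ) (t : ℕ) :
    Lw a φ (t + 1) = Lw a φ t + sg (a t) * φ (a t).1 := Finset.sum_range_succ _ _

theorem Lw_add {X : Type} (a : ℕ → X × Bool) (φ : X → ℤ) (s d : ℕ) :
    Lw a φ (s + d) = Lw a φ s + ∑ i ∈ Finset.range d, sg (a (s + i)) * φ (a (s + i)).1 :=
  Finset.sum_range_add _ _ _

theorem Lw_lin {X : Type} (a : ℕ → X × Bool) (p q : ℤ) (φ ψ : X → ℤ) (t : ℕ) :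
    Lw a (fun z => p * φ z - q * ψ z) t = p * Lw a φ t - q * Lw a ψ t := by
  unfold Lw
  rw [Finset.mul_sum, Finset.mul_sum, ← Finset.sum_sub_distrib]
  exact Finset.sum_congr rfl fun _ _ => by ring

theorem wt_single {X : Type} (φ : X → ℤ) (x : X × Bool) :
    Multiplicative.toAdd (wt φ (FreeGroup.mk [x])) = sg x * φ x.1 := by
  obtain ⟨x, b⟩ := x
  cases b
  · rw [ch_mk_single_false]; simp [wt, sg]
  · rw [ch_mk_single_true]; simp [wt, sg]

end HB

theorem exists_prim {X : Type} {w : List (X × Bool)} (hw : w ≠ [])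
    (hc : FreeGroup.IsCyclicallyReduced w) : ∃ (u : List (X × Bool)) (k : ℕ), 1 ≤ k ∧ u ≠ [] ∧
      Prim u ∧ FreeGroup.IsCyclicallyReduced u ∧ w = (List.replicate k u).flatten := by
  induction hn : w.length using Nat.strong_induction_on generalizing w with
  | _ n ih =>
  by_cases hp : Prim w
  · exact ⟨w, 1, le_rfl, hw, hp, hc, by simp⟩
  unfold Prim at hp
  push Not at hp
  obtain ⟨v, j, hv, hj⟩ := hp
  have hj0 : j ≠ 0 := by
    rintro rfl
    exact hw (by simpa using hv)
  have hv0 : v ≠ [] := by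
    rintro rfl
    exact hw (by simpa using hv)
  have hlen : w.length = j * v.length := by
    rw [hv]; simp
  have hvpos : 0 < v.length := List.length_pos_iff.2 hv0
  have hlt : v.length < n := by
    have : 2 * v.length ≤ j * v.length := Nat.mul_le_mul_right _ (by omega)
    omega
  obtain ⟨j', rfl⟩ := Nat.exists_eq_succ_of_ne_zero hj0
  have hpre : w = v ++ (List.replicate j' v).flatten := by
    rw [hv, List.replicate_succ, List.flatten_cons]
  have hcv : FreeGroup.IsCyclicallyReduced v := by
    have hr : FreeGroup.IsReduced (v ++ (List.replicate j' v).flatten) := hpre ▸ hc.1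
    refine ⟨List.IsChain.left_of_append hr, fun a ha b hb => hc.2 a ?_ b ?_⟩
    · rw [hv, Option.mem_def, List.getLast?_flatten_replicate (h := by simp +arith)]
      exact ha
    · rw [hv, Option.mem_def, List.head?_flatten_replicate (h := by simp +arith)]
      exact hb
  obtain ⟨u, k, h1, h2, h3, h4, h5⟩ := ih _ hlt hv0 hcv rfl
  refine ⟨u, (j' + 1) * k, Nat.mul_pos (Nat.succ_pos _) h1, h2, h3, h4, ?_⟩
  rw [← HB.flatten_rep_rep, ← h5, ← hv]

/-- (BASE LEMMA) -/
theorem base_lemma {X : Type} [Fintype X] [DecidableEq X] {u : List (X × Bool)}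
    (hc : FreeGroup.IsCyclicallyReduced u) (hp : Prim u)
    (h : ∀ φ : X → ℤ, wt φ (FreeGroup.mk u) = 1 → ∀ i j, ltr u i = ltr u j →
      lev φ u i = lev φ u j) : Function.Injective (ltr u) := by
  have hne : u ≠ [] := by
    rintro rfl
    exact absurd (hp [] 0 rfl) (by norm_num)
  have hn : 0 < u.length := List.length_pos_iff.2 hne
  let a : ℕ → X × Bool := fun t => u.get ⟨t % u.length, Nat.mod_lt _ hn⟩
  have ha : ∀ i : Fin u.length, a i = u.get i := fun i => by
    simp only [a, Nat.mod_eq_of_lt i.2]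
  have hamod : ∀ t, a (t % u.length) = a t := fun t => by simp only [a, Nat.mod_mod]
  have haper : ∀ t, a (t + u.length) = a t := fun t => by simp only [a, Nat.add_mod_right]
  have hseg : ∀ φ t, t ≤ u.length → Multiplicative.toAdd (wt φ (seg u t)) = HB.Lw a φ t := by
    intro φ t ht
    induction t with
    | zero => simp [ch_seg_zero, HB.Lw]
    | succ t ih =>
      have := ch_seg_succ u ⟨t, ht⟩
      rw [this, map_mul, toAdd_mul, ih (by omega), HB.wt_single, HB.Lw_succ, ← ha ⟨t, ht⟩]
  have hLper : ∀ φ, HB.Lw a φ u.length = 0 → ∀ t, HB.Lw a φ (t + u.length) = HB.Lw a φ t := by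
    intro φ h0 t
    induction t with
    | zero => rw [Nat.zero_add, h0]; rfl
    | succ t ih => rw [Nat.add_right_comm, HB.Lw_succ, HB.Lw_succ, ih, haper]
  have hLmod : ∀ φ, HB.Lw a φ u.length = 0 → ∀ t, HB.Lw a φ (t % u.length) = HB.Lw a φ t := by
    intro φ h0 t
    exact Function.Periodic.map_mod_nat (hLper φ h0) t
  have hst : ∀ φ, HB.Lw a φ u.length = 0 → ∀ t, lev φ u ⟨t % u.length, Nat.mod_lt _ hn⟩ =
      if (a t).2 then HB.Lw a φ t else HB.Lw a φ (t + 1) := by
    intro φ h0 t
    have hlt := Nat.mod_lt t hn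
    unfold lev stp
    change Multiplicative.toAdd (wt φ (seg u (if (a t).2 then t % u.length
      else t % u.length + 1))) = _
    split_ifs
    · rw [hseg _ _ hlt.le, hLmod φ h0]
    · rw [hseg _ _ hlt, HB.Lw_succ, HB.Lw_succ, hLmod φ h0, hamod]
  have hkey : ∀ φ, HB.Lw a φ u.length = 0 → ∀ i j, (a i).1 = (a j).1 →
      (if (a i).2 then HB.Lw a φ i else HB.Lw a φ (i + 1)) =
        if (a j).2 then HB.Lw a φ j else HB.Lw a φ (j + 1) := by
    intro φ h0 i j hij
    rw [← hst φ h0, ← hst φ h0]
    refine h φ ?_ _ _ hij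
    have := hseg φ _ le_rfl
    rw [h0, seg, List.take_length] at this
    exact this
  let c : ℕ → ({φ : X → ℤ // HB.Lw a φ u.length = 0} → ℤ) := fun t φ => HB.Lw a φ.1 t
  have red : ∀ t, (a t).1 = (a (t + 1)).1 → (a t).2 = (a (t + 1)).2 := by
    intro t
    have hlt := Nat.mod_lt t hn
    by_cases h1 : t % u.length + 1 < u.length
    · have h2 : (t + 1) % u.length = t % u.length + 1 := by
        rw [← Nat.mod_add_mod, Nat.mod_eq_of_lt h1]
      have h3 := List.isChain_iff_getElem.1 hc.1 (t % u.length) h1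
      simpa only [a, List.get_eq_getElem, h2] using h3
    · have h2 : (t + 1) % u.length = 0 := by
        rw [← Nat.mod_add_mod, show t % u.length + 1 = u.length by omega, Nat.mod_self]
      refine hc.2 _ ?_ _ ?_
      · rw [Option.mem_def, List.getLast?_eq_getElem?,
          show u.length - 1 = t % u.length by omega, List.getElem?_eq_getElem hlt]
        rfl
      · rw [Option.mem_def, List.head?_eq_getElem?, List.getElem?_eq_getElem hn]
        simp only [a, List.get_eq_getElem, h2]
  have same : ∀ i j, (a i).1 = (a j).1 → (a i).2 = (a j).2 →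
      c i = c j ∧ c (i + 1) = c (j + 1) := by
    intro i j h1 h2
    have he : a i = a j := Prod.ext h1 h2
    have key : ∀ φ : {φ : X → ℤ // HB.Lw a φ u.length = 0}, HB.Lw a φ.1 i = HB.Lw a φ.1 j := by
      intro φ
      have := hkey φ.1 φ.2 i j h1
      rw [HB.Lw_succ, HB.Lw_succ, he] at this
      split_ifs at this
      · exact this
      · exact add_right_cancel this
    refine ⟨funext key, funext fun φ => ?_⟩
    simp only [c, HB.Lw_succ, key φ, he]
  have opp : ∀ i j, (a i).1 = (a j).1 → (a i).2 ≠ (a j).2 → c i = c (j + 1) := by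
    intro i j h1 h2
    funext φ
    have := hkey φ.1 φ.2 i j h1
    simp only [c]
    simp only [HB.Lw_succ, HB.sg, h1] at this ⊢
    cases hi : (a i).2 <;> cases hj : (a j).2 <;> simp [hi, hj] at this h2 ⊢ <;> linarith
  let e : X → X → ℤ := fun x z => if z = x then 1 else 0
  have dim : ∀ s d, 0 < d → c s = c (s + d) →
      (∀ i < d, ∀ j < d, (a (s + i)).1 = (a (s + j)).1 → i = j) →
      ∀ x, x ∈ {x | HB.Lw a (e x) u.length ≠ 0} ↔ ∃ i < d, (a (s + i)).1 = x := by
    intro s d hd hcs hinj
    have hD : ∀ x, HB.Lw a (e x) (s + d) - HB.Lw a (e x) s ≠ 0 ↔ ∃ i < d, (a (s + i)).1 = x := by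
      intro x
      rw [HB.Lw_add, add_sub_cancel_left]
      constructor
      · intro h0
        obtain ⟨i, hi, h1⟩ := Finset.exists_ne_zero_of_sum_ne_zero h0
        refine ⟨i, Finset.mem_range.1 hi, ?_⟩
        by_contra h2
        exact h1 (by simp [e, h2])
      · rintro ⟨i, hi, rfl⟩
        rw [Finset.sum_eq_single i]
        · simp only [e, HB.sg, if_true, mul_one]
          split_ifs <;> norm_num
        · intro j hj hji
          have : (a (s + j)).1 ≠ (a (s + i)).1 := fun h2 =>
            hji (hinj j (Finset.mem_range.1 hj) i hi h2)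
          simp [e, this]
        · intro h2
          exact absurd (Finset.mem_range.2 hi) h2
    have hsub : ∀ x, HB.Lw a (e x) (s + d) - HB.Lw a (e x) s ≠ 0 →
        HB.Lw a (e x) u.length ≠ 0 := by
      intro x h1 h2
      have h3 : HB.Lw a (e x) s = HB.Lw a (e x) (s + d) := congrFun hcs ⟨e x, h2⟩
      exact h1 (by rw [h3, sub_self])
    intro y
    refine ⟨fun hy => (hD y).1 fun h0 => ?_, fun hy => hsub y ((hD y).2 hy)⟩
    have hx := (hD (a (s + 0)).1).2 ⟨0, hd, rfl⟩
    set x := (a (s + 0)).1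
    have h3 : HB.Lw a (fun z => HB.Lw a (e y) u.length * e x z - HB.Lw a (e x) u.length * e y z) s =
        HB.Lw a (fun z => HB.Lw a (e y) u.length * e x z - HB.Lw a (e x) u.length * e y z)
          (s + d) := congrFun hcs ⟨_, by rw [HB.Lw_lin]; ring⟩
    rw [HB.Lw_lin, HB.Lw_lin] at h3
    refine mul_ne_zero hy hx ?_
    linear_combination (HB.Lw a (e x) u.length) * h0 - h3
  obtain ⟨s, d, hd, hall⟩ := HB.core red same opp hn
    (fun t => funext fun φ => hLper φ.1 φ.2 t) dim
  have hmul : ∀ t k, a (t + k * u.length) = a t := fun t k => by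
    simp only [a, Nat.add_mul_mod_self_right]
  have hs : s ≤ s * u.length := Nat.le_mul_of_pos_right _ hn
  have hper : ∀ t, a (t + d) = a t := by
    intro t
    have := (hall (t + s * u.length) (by omega)).1
    rwa [Nat.add_right_comm, hmul, hmul] at this
  have hinj : ∀ i < d, ∀ j < d, (a i).1 = (a j).1 → i = j := by
    intro i hi j hj hij
    refine (hall (s * u.length) hs).2 i hi j hj ?_
    rwa [Nat.add_comm _ i, Nat.add_comm _ j, hmul, hmul]
  have hdvd : u.length % d = 0 := by
    refine hinj _ (Nat.mod_lt _ hd) 0 hd ?_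
    rw [Function.Periodic.map_mod_nat hper, ← haper 0, Nat.zero_add]
  obtain ⟨k, hk⟩ := Nat.dvd_of_mod_eq_zero hdvd
  have hu : u = (List.range u.length).map a := by
    refine List.ext_getElem (by simp) fun i h1 h2 => ?_
    rw [List.getElem_map, List.getElem_range]
    exact (ha ⟨i, h1⟩).symm
  have hk1 : k = 1 := by
    refine hp ((List.range d).map a) k ?_
    rw [← HB.range_map_periodic a d hper, Nat.mul_comm, ← hk]
    exact hu
  rw [hk1, Nat.mul_one] at hk
  intro i j hij
  refine Fin.ext (hinj i (hk ▸ i.2) j (hk ▸ j.2) ?_)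
  rw [ha, ha]
  exact hij

end CPOR
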