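import Pool.Agent.P.MP_2cb329_al.HD1

/-! The rewriting of a relator along a weight function (definitions and word-level facts). -/

set_option autoImplicit false

namespace CPOR

namespace Rw

variable {X : Type} [Fintype X] [DecidableEq X] (R : Rw X)

theorem succ_mem {y : R.Y} (hy : y ∈ R.SA) : (y.1.1, y.1.2 + 1) ∈ R.YS := by
  have h := R.mem_YS.1 y.2
  have hy' : y.1.2 < R.hi y.1.1 := hy
  exact R.mem_YS.2 ⟨h.1, by simp only; omega, by simp only; omega⟩

theorem lo_le_hi (x : X) : R.lo x ≤ R.hi x :=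
  Finset.min'_le_max' _ _

theorem lo_mem {x : X} (hx : x ≠ R.s) : (x, R.lo x) ∈ R.YS :=
  R.mem_YS.2 ⟨hx, le_rfl, R.lo_le_hi x⟩

theorem Φ_of (y : R.Y) : R.Φ (FreeGroup.of y) = FreeGroup.of R.s ^ (-y.1.2) * FreeGroup.of y.1.1 *
    FreeGroup.of R.s ^ (y.1.2 - R.φ y.1.1) := FreeGroup.lift_apply_of

theorem of_mem_cl {x : X} (hx : x ≠ R.s) {K : Subgroup (FreeGroup X)} (hs : FreeGroup.of R.s ∈ K)
    (h : R.Φ (FreeGroup.of ⟨(x, R.lo x), R.lo_mem hx⟩) ∈ K) : FreeGroup.of x ∈ K := by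
  rw [Φ_of] at h
  exact (K.mul_mem_cancel_left (K.zpow_mem hs _)).1 ((K.mul_mem_cancel_right (K.zpow_mem hs _)).1 h)

theorem mem_used {i₀ : Fin R.u.length} {z : ℤ} (hz : z ∈ R.used (ltr R.u i₀)) :
    ∃ i, ltr R.u i = ltr R.u i₀ ∧ R.ix i = z := by
  unfold used at hz
  rw [if_pos ⟨i₀, rfl⟩] at hz
  obtain ⟨i, hi, e⟩ := Finset.mem_image.1 hz
  exact ⟨i, (Finset.mem_filter.1 hi).2, e⟩

theorem image_ltr : Finset.univ.image (ltr R.u) =
    (Finset.univ.image (ltr R.u')).image fun y => y.1.1 := by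
  ext x
  simp only [Finset.mem_image, Finset.mem_univ, true_and]
  constructor
  · rintro ⟨i, rfl⟩
    exact ⟨_, ⟨i.cast R.length_u'.symm, rfl⟩, by rw [ltr_u']⟩
  · rintro ⟨_, ⟨i, rfl⟩, rfl⟩
    exact ⟨i.cast R.length_u', (congrArg Prod.fst (R.ltr_u' (i.cast R.length_u'))).symm⟩

theorem sg_val {y : R.Y} (hy : y ∈ R.SA) : (R.sg y).1 = (y.1.1, y.1.2 + 1) := by
  rw [sg, dif_pos (R.succ_mem hy)]

theorem sg_bij : Set.BijOn R.sg R.SA R.SB := by
  refine ⟨fun y hy => ?_, fun y hy z hz h => ?_, fun z hz => ?_⟩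
  · have h := R.mem_YS.1 y.2
    change R.lo (R.sg y).1.1 < (R.sg y).1.2
    rw [R.sg_val hy]
    simp only
    omega
  · have e := congrArg Subtype.val h
    rw [R.sg_val hy, R.sg_val hz, Prod.mk.injEq] at e
    exact Subtype.ext (Prod.ext e.1 (by omega))
  · have h := R.mem_YS.1 z.2
    have hz' : R.lo z.1.1 < z.1.2 := hz
    have hm : (z.1.1, z.1.2 - 1) ∈ R.YS :=
      R.mem_YS.2 ⟨h.1, by simp only; omega, by simp only; omega⟩
    have hy : (⟨_, hm⟩ : R.Y) ∈ R.SA := by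
      change z.1.2 - 1 < R.hi z.1.1
      omega
    exact ⟨_, hy, Subtype.ext (by rw [R.sg_val hy]; simp)⟩

theorem conj_Φ {y : R.Y} (hy : y ∈ R.SA) :
    (FreeGroup.of R.s)⁻¹ * R.Φ (FreeGroup.of y) * FreeGroup.of R.s = R.Φ (FreeGroup.of (R.sg y)) := by
  rw [Φ_of, Φ_of, R.sg_val hy]
  group

theorem gen_Φ : Subgroup.closure (Set.range R.Φ ∪ {FreeGroup.of R.s}) = ⊤ := by
  rw [eq_top_iff, ← FreeGroup.closure_range_of, Subgroup.closure_le]
  rintro _ ⟨x, rfl⟩
  have hs : FreeGroup.of R.s ∈ Subgroup.closure (Set.range R.Φ ∪ {FreeGroup.of R.s}) :=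
    Subgroup.subset_closure (Or.inr rfl)
  by_cases hx : x = R.s
  · rw [hx]; exact hs
  · exact R.of_mem_cl hx hs (Subgroup.subset_closure (Or.inl ⟨_, rfl⟩))

theorem Ma_Φ {a : X} (ha : a ≠ R.s) : FS ({a}ᶜ : Set X) =
    Subgroup.closure (R.Φ '' (FS {y : R.Y | y.1.1 ≠ a} : Set (FreeGroup R.Y)) ∪
      {FreeGroup.of R.s}) := by
  refine le_antisymm ?_ ?_
  · rw [FS, Subgroup.closure_le]
    rintro _ ⟨x, hxa, rfl⟩
    by_cases hx : x = R.s
    · rw [hx]; exact Subgroup.subset_closure (Or.inr rfl)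
    · exact R.of_mem_cl hx (Subgroup.subset_closure (Or.inr rfl)) (Subgroup.subset_closure
        (Or.inl ⟨_, Subgroup.subset_closure ⟨_, hxa, rfl⟩, rfl⟩))
  · have hs : FreeGroup.of R.s ∈ FS ({a}ᶜ : Set X) := Subgroup.subset_closure ⟨_, ha.symm, rfl⟩
    have key : FS {y : R.Y | y.1.1 ≠ a} ≤ (FS ({a}ᶜ : Set X)).comap R.Φ := by
      rw [FS, Subgroup.closure_le]
      rintro _ ⟨y, hy, rfl⟩
      change R.Φ (FreeGroup.of y) ∈ FS ({a}ᶜ : Set X)
      rw [Φ_of]
      exact mul_mem (mul_mem (zpow_mem hs _) (Subgroup.subset_closure ⟨_, hy, rfl⟩))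
        (zpow_mem hs _)
    rw [Subgroup.closure_le]
    rintro _ (⟨f, hf, rfl⟩ | rfl)
    · exact key hf
    · exact hs

theorem top_Φ (i₀ : Fin R.u.length) :
    ∃ i, (ltr R.u' i).1.1 = ltr R.u i₀ ∧ ltr R.u' i ∉ R.SA := by
  obtain ⟨i, h1, h2⟩ := R.mem_used (Finset.max'_mem _ (R.used_ne (ltr R.u i₀)))
  refine ⟨i.cast R.length_u'.symm, by rw [ltr_u', h1], fun h => ?_⟩
  change (ltr R.u' _).1.2 < R.hi (ltr R.u' _).1.1 at h
  rw [ltr_u', h1, h2] at h
  exact lt_irrefl _ h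

theorem bot_Φ (i₀ : Fin R.u.length) :
    ∃ i, (ltr R.u' i).1.1 = ltr R.u i₀ ∧ ltr R.u' i ∉ R.SB := by
  obtain ⟨i, h1, h2⟩ := R.mem_used (Finset.min'_mem _ (R.used_ne (ltr R.u i₀)))
  refine ⟨i.cast R.length_u'.symm, by rw [ltr_u', h1], fun h => ?_⟩
  change R.lo (ltr R.u' _).1.1 < (ltr R.u' _).1.2 at h
  rw [ltr_u', h1, h2] at h
  exact lt_irrefl _ h

/-- The stacking order lifts. -/
theorem stack_up (h : Stack R.u') : Stack R.u := by
  obtain ⟨h', h1, h2⟩ := h
  rw [R.length_u'] at h1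
  let W : ℕ → ℤ := fun v => Multiplicative.toAdd (wt R.φ (seg R.u v))
  obtain ⟨N, hN⟩ : ∃ N, ∀ v < R.u.length, h' v < N :=
    ⟨(Finset.range R.u.length).sup h' + 1, fun v hv =>
      Nat.lt_succ_of_le (Finset.le_sup (f := h') (Finset.mem_range.2 hv))⟩
  obtain ⟨B, hB⟩ : ∃ B : ℕ, ∀ v < R.u.length, 0 ≤ W v + B :=
    ⟨(Finset.range R.u.length).sup fun v => (W v).natAbs, fun v hv => by
      have := Finset.le_sup (f := fun v => (W v).natAbs) (Finset.mem_range.2 hv)
      omega⟩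
  have hlt : ∀ v < R.u.length, ∀ w < R.u.length,
      ((W v + B).toNat * N + h' v < (W w + B).toNat * N + h' w ↔
        W v < W w ∨ (W v = W w ∧ h' v < h' w)) := by
    intro v hv w hw
    have a1 := hN v hv
    have a2 := hN w hw
    have b1 := hB v hv
    have b2 := hB w hw
    rcases lt_trichotomy (W v) (W w) with h | h | h
    · have : ((W v + B).toNat + 1) * N ≤ (W w + B).toNat * N :=
        Nat.mul_le_mul_right _ (by omega)
      rw [Nat.succ_mul] at this
      exact ⟨fun _ => Or.inl h, fun _ => by omega⟩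
    · rw [h]; omega
    · have : ((W w + B).toNat + 1) * N ≤ (W v + B).toNat * N :=
        Nat.mul_le_mul_right _ (by omega)
      rw [Nat.succ_mul] at this
      exact ⟨fun _ => by omega, fun _ => by omega⟩
  have hmod : ∀ v ≤ R.u.length, W (v % R.u.length) = W v := by
    intro v hv
    rcases hv.lt_or_eq with h | rfl
    · rw [Nat.mod_eq_of_lt h]
    · simp only [W, Nat.mod_self, seg, List.take_length, R.φ_u]
      exact congrArg _ (map_one _)
  have hst : ∀ i, stp R.u i ≤ R.u.length := fun i => by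
    have := i.2; unfold stp; split_ifs <;> omega
  have hen : ∀ i, enp R.u i ≤ R.u.length := fun i => by
    have := i.2; unfold enp; split_ifs <;> omega
  have hW : ∀ i, W (enp R.u i) = W (stp R.u i) + R.φ (ltr R.u i) := fun i => by
    simp only [W, ← seg_stp_mul, map_mul, toAdd_mul]
    simp [wt]
  refine ⟨fun v => (W v + B).toNat * N + h' v, fun v hv w hw e => ?_, fun i j hij => ?_⟩
  · refine h1 v hv w hw ?_
    have a := hlt v hv w hw
    have b := hlt w hw v hv
    simp only at e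
    omega
  · have hp : 0 < R.u.length := i.pos
    refine (hlt _ (Nat.mod_lt _ hp) _ (Nat.mod_lt _ hp)).trans
      (Iff.trans ?_ (hlt _ (Nat.mod_lt _ hp) _ (Nat.mod_lt _ hp)).symm)
    simp only [hmod _ (hst _), hmod _ (hen _), hW, hij]
    by_cases e : W (stp R.u i) = W (stp R.u j)
    · have := h2 (i.cast R.length_u'.symm) (j.cast R.length_u'.symm) (Subtype.ext (by
        rw [ltr_u', ltr_u', hij]
        exact Prod.ext rfl (congrArg Neg.neg e)))
      rw [stp_u', stp_u', enp_u', enp_u', R.length_u'] at this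
      rw [this]
      omega
    · omega

/-- The number of letters grows when the weights separate two occurrences of a letter. -/
theorem letters_lt {i j : Fin R.u.length} (h1 : ltr R.u i = ltr R.u j)
    (h2 : lev R.φ R.u i ≠ lev R.φ R.u j) :
    (Finset.univ.image (ltr R.u)).card < (Finset.univ.image (ltr R.u')).card := by
  rw [image_ltr]
  refine lt_of_le_of_ne Finset.card_image_le fun h => h2 ?_
  have := Finset.card_image_iff.1 h
    (Finset.mem_coe.2 (Finset.mem_image_of_mem _ (Finset.mem_univ (i.cast R.length_u'.symm))))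
    (Finset.mem_coe.2 (Finset.mem_image_of_mem _ (Finset.mem_univ (j.cast R.length_u'.symm))))
    (by simp only [ltr_u', h1])
  have e := congrArg (fun y : R.Y => y.1.2) this
  simp only [ltr_u', ix] at e
  omega

/-- Only the letter `s` is lost as a spare letter. -/
theorem spares_le : (Finset.univ.image (ltr R.u))ᶜ.card ≤
    (Finset.univ.image (ltr R.u'))ᶜ.card + 1 := by
  have key : (Finset.univ.image (ltr R.u))ᶜ ⊆
      insert R.s ((Finset.univ.image (ltr R.u'))ᶜ.image fun y => y.1.1) := by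
    intro x hx
    rw [Finset.mem_insert]
    by_cases h : x = R.s
    · exact Or.inl h
    · refine Or.inr (Finset.mem_image.2 ⟨⟨_, R.lo_mem h⟩, Finset.mem_compl.2 fun h' => ?_, rfl⟩)
      rw [Finset.mem_compl, image_ltr] at hx
      exact hx (Finset.mem_image.2 ⟨_, h', rfl⟩)
  exact (Finset.card_le_card key).trans ((Finset.card_insert_le _ _).trans
    (Nat.succ_le_succ Finset.card_image_le))

end Rw
end CPOR
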