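import Pool.Agent.P.MP_2cb329_al.FH
import Pool.Agent.P.MP_2cb329_al.RK

/-! Marked groups, the inductive claims, levels. -/

set_option autoImplicit false

namespace CPOR

section Marked

variable {X : Type} [DecidableEq X] {G : Type} [Group G] (π : FreeGroup X →* G)

/-- Word length. -/
noncomputable def len (g : G) : ℕ := sInf {n | ∃ f, π f = g ∧ f.norm = n}

/-- The image of a basis-subset subgroup (a Magnus subgroup when `S` is admissible). -/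
def MS (S : Set X) : Subgroup G := (FS S).map π

def Free (S : Set X) : Prop := ∀ f ∈ FS S, π f = 1 → f = 1

def Mem (S : Set X) : Prop := ∃ F, Bd F ∧ ∀ f ∈ FS S, f.norm ≤ F (len π (π f))

def DC1 (S S' : Set X) : Prop :=
  ∃ F, Bd F ∧ ∀ (n : ℕ) (x y : G), len π x ≤ n → len π y ≤ n → ∀ m ∈ MS π S,
    y⁻¹ * m * x ∈ MS π S' → ∃ m' ∈ MS π S, y⁻¹ * m' * x ∈ MS π S' ∧ len π m' ≤ F n

def DC2 (S S' : Set X) : Prop :=
  ∃ F, Bd F ∧ ∀ (n : ℕ) (y : G), len π y ≤ n → GenBy (len π) (F n) (MS π S ⊓ cj y (MS π S'))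

def QC (S S' : Set X) : Prop :=
  ∃ F, Bd F ∧ ∀ (n : ℕ) (f g : FreeGroup X) (b b' : G), f ∈ FS S → FB 1 g f → len π b ≤ n →
    len π b' ≤ n → b⁻¹ * π f * b' ∈ MS π S' →
    ∃ b'', len π b'' ≤ F n ∧ b⁻¹ * π g * b'' ∈ MS π S'

def FTr (S S' : Set X) : Prop :=
  ∃ F, Bd F ∧ ∀ (n : ℕ) (f g f' : FreeGroup X) (b b' : G), f ∈ FS S → f' ∈ FS S' →
    len π b ≤ n → len π b' ≤ n → π f * b' = b * π f' → FB 1 g f →
    ∃ g', FB 1 g' f' ∧ len π ((π g)⁻¹ * b * π g') ≤ F n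

def Sfin (S S' : Set X) : Prop :=
  ∃ C Ξ : Finset G, (∀ c ∈ C, c ∈ MS π S) ∧ ∀ x : G,
    (∃ m ∈ MS π S, ∃ ξ ∈ Ξ, ∃ m' ∈ MS π S', x = m * ξ * m') ∨
      ∃ m ∈ MS π S, ∃ c ∈ C, MS π S ⊓ cj x (MS π S') ≤ cj m (Subgroup.zpowers c)

def Exc (S : Set X) : Prop :=
  ∃ C : Finset G, (∀ c ∈ C, c ∈ MS π S) ∧ ∀ x ∉ MS π S,
    ∃ m ∈ MS π S, ∃ c ∈ C, MS π S ⊓ cj x (MS π S) ≤ cj m (Subgroup.zpowers c)

def CI (S : Set X) : Prop :=
  ∃ F, Bd F ∧ ∀ u g : G, g⁻¹ * u * g ∈ MS π S →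
    ∃ g', g'⁻¹ * u * g' ∈ MS π S ∧ len π g' ≤ F (len π u)

def CP : Prop :=
  ∃ F, Bd F ∧ ∀ u v g : G, g⁻¹ * u * g = v →
    ∃ g', g'⁻¹ * u * g' = v ∧ len π g' ≤ F (len π u + len π v)

def PC : Prop :=
  ∀ C : Finset G, (∀ c ∈ C, ¬ IsOfFinOrder c) → ∃ F, Bd F ∧
    ∀ c ∈ C, ∀ c' ∈ C, ∀ n m : ℤ, IsConj (c ^ n) (c' ^ m) →
      (∃ g, g⁻¹ * c ^ n * g = c' ^ m ∧ len π g ≤ F (n.natAbs + m.natAbs)) ∧
      ∃ m' : ℤ, IsConj (c ^ n) (c' ^ m') ∧ m'.natAbs ≤ F n.natAbs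

/-- `f` is a product of at most `n` conjugates of `r ^ (±1)` by elements of norm at most `n`. -/
def Cost (r : FreeGroup X) (n : ℕ) (f : FreeGroup X) : Prop :=
  ∃ l : List (FreeGroup X × Bool), l.length ≤ n ∧ (∀ p ∈ l, p.1.norm ≤ n) ∧
    f = (l.map fun p => p.1 * (if p.2 then r else r⁻¹) * p.1⁻¹).prod

def Fill (r : FreeGroup X) : Prop := ∃ F, Bd F ∧ ∀ f, π f = 1 → Cost r (F f.norm) f

def Sink (u : List (X × Bool)) : Prop :=
  ∀ S : Finset G, S.Nonempty → ∃ g ∈ S, ∀ i₀ : Fin u.length, ∃ i, ltr u i = ltr u i₀ ∧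
    ∀ g' ∈ S, ∀ j, ltr u j = ltr u i →
      g' * π (seg u (stp u j)) = g * π (seg u (stp u i)) → g' = g ∧ j = i

variable {π}

theorem len_le (f : FreeGroup X) : len π (π f) ≤ f.norm :=
  Nat.sInf_le ⟨f, rfl, rfl⟩

theorem exists_len (hπ : Function.Surjective π) (g : G) : ∃ f, π f = g ∧ f.norm = len π g := by
  obtain ⟨f, hf⟩ := hπ g
  exact Nat.sInf_mem (s := {n | ∃ f, π f = g ∧ f.norm = n}) ⟨_, f, hf, rfl⟩

theorem len_one : len π 1 = 0 := by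
  have := len_le (π := π) 1
  simpa using this

theorem len_mul (hπ : Function.Surjective π) (g h : G) : len π (g * h) ≤ len π g + len π h := by
  obtain ⟨f, rfl, hf⟩ := exists_len hπ g
  obtain ⟨f', rfl, hf'⟩ := exists_len hπ h
  rw [← map_mul, ← hf, ← hf']
  exact (len_le _).trans (FreeGroup.norm_mul_le _ _)

theorem len_inv (hπ : Function.Surjective π) (g : G) : len π g⁻¹ = len π g := by
  have key : ∀ g : G, len π g⁻¹ ≤ len π g := fun g => by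
    obtain ⟨f, rfl, hf⟩ := exists_len hπ g
    rw [← map_inv, ← hf]
    exact (len_le _).trans (FreeGroup.norm_inv_eq).le
  exact le_antisymm (key g) (by simpa using key g⁻¹)

theorem len_mul3 (hπ : Function.Surjective π) (a b c : G) :
    len π (a * b * c) ≤ len π a + len π b + len π c :=
  (len_mul hπ _ _).trans (Nat.add_le_add_right (len_mul hπ _ _) _)

theorem len_zpow (hπ : Function.Surjective π) (g : G) (j : ℤ) :
    len π (g ^ j) ≤ j.natAbs * len π g := by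
  obtain ⟨f, rfl, hf⟩ := exists_len hπ g
  rw [← map_zpow, ← hf]
  exact (len_le _).trans (norm_zpow_le _ _)

theorem len_ball [Fintype X] (hπ : Function.Surjective π) (n : ℕ) : ∃ s : Finset G,
    (∀ g, g ∈ s ↔ len π g ≤ n) ∧ s.card ≤ (2 * Fintype.card X + 1) ^ n := by
  classical
  obtain ⟨s, hs, hc⟩ := ball_card (Y := X) n
  refine ⟨s.image π, fun g => ⟨fun h => ?_, fun h => ?_⟩, Finset.card_image_le.trans hc⟩
  · obtain ⟨f, hf, rfl⟩ := Finset.mem_image.1 h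
    exact (len_le f).trans ((hs f).1 hf)
  · obtain ⟨f, rfl, hf⟩ := exists_len hπ g
    exact Finset.mem_image.2 ⟨f, (hs f).2 (hf ▸ h), rfl⟩

omit [DecidableEq X] in
theorem mem_MS {S : Set X} {g : G} : g ∈ MS π S ↔ ∃ f ∈ FS S, π f = g := Subgroup.mem_map

omit [DecidableEq X] in
theorem MS_mono {S S' : Set X} (h : S ⊆ S') : MS π S ≤ MS π S' := Subgroup.map_mono (FS_mono h)

end Marked

/-- Division by large primes in conjugacies between powers. -/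
def GBS (G : Type) [Group G] : Prop :=
  ∀ c c' : G, ¬ IsOfFinOrder c → ¬ IsOfFinOrder c' → ∃ P : ℕ, ∀ p : ℕ, p.Prime → P < p →
    ∀ m m' : ℤ, IsConj (c ^ ((p : ℤ) * m)) (c' ^ m') →
      ∃ m'' : ℤ, m' = p * m'' ∧ IsConj (c ^ m) (c' ^ m'')

/-- A stacking order on the vertex positions of the cyclic word `u`. -/
def Stack {X : Type} (u : List (X × Bool)) : Prop :=
  ∃ h : ℕ → ℕ, (∀ v < u.length, ∀ w < u.length, h v = h w → v = w) ∧
    ∀ i j : Fin u.length, ltr u i = ltr u j →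
      (h (stp u i % u.length) < h (stp u j % u.length) ↔
        h (enp u i % u.length) < h (enp u j % u.length))

/-- A level of the hierarchy: a one-relator group with relator `u ^ k`. -/
structure Lv where
  X : Type
  [fin : Fintype X]
  [dec : DecidableEq X]
  G : Type
  [grp : Group G]
  π : FreeGroup X →* G
  u : List (X × Bool)
  k : ℕ
  cyc : FreeGroup.IsCyclicallyReduced u
  ne : u ≠ []
  kpos : 1 ≤ k
  surj : Function.Surjective π
  ker : π.ker = Subgroup.normalClosure {FreeGroup.mk u ^ k}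
  sink : Sink π u
  stack : Stack u

attribute [instance] Lv.fin Lv.dec Lv.grp

namespace Lv

variable (L : Lv)

/-- The letter occurs in the relator. -/
def Occ (a : L.X) : Prop := ∃ i, ltr L.u i = a

/-- Admissible sets of letters omit a letter of the relator. -/
def Adm (S : Set L.X) : Prop := ∃ a, L.Occ a ∧ a ∉ S

theorem Adm.mono {L : Lv} {S S' : Set L.X} (h : L.Adm S') (hs : S ⊆ S') : L.Adm S :=
  let ⟨a, ha, hn⟩ := h; ⟨a, ha, fun hm => hn (hs hm)⟩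

theorem Occ.adm {L : Lv} {a : L.X} (h : L.Occ a) : L.Adm {a}ᶜ := ⟨a, h, by simp⟩

/-- The claims for the maximal Magnus subgroups. -/
structure ClMax : Prop where
  fill : Fill L.π (FreeGroup.mk L.u ^ L.k)
  mem : ∀ a, L.Occ a → Mem L.π {a}ᶜ
  dc1 : ∀ a b, L.Occ a → L.Occ b → DC1 L.π {a}ᶜ {b}ᶜ
  dc2 : ∀ a b, L.Occ a → L.Occ b → DC2 L.π {a}ᶜ {b}ᶜ
  sfin : ∀ a b, L.Occ a → L.Occ b → Sfin L.π {a}ᶜ {b}ᶜ
  ci : ∀ a, L.Occ a → CI L.π {a}ᶜ
  cp : CP L.π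
  gbs : GBS L.G

/-- The claims for all Magnus subgroups, with the derived forms. -/
structure Cl : Prop where
  fill : Fill L.π (FreeGroup.mk L.u ^ L.k)
  mem : ∀ S, L.Adm S → Mem L.π S
  dc1 : ∀ S S', L.Adm S → L.Adm S' → DC1 L.π S S'
  dc2 : ∀ S S', L.Adm S → L.Adm S' → DC2 L.π S S'
  qc : ∀ S S', L.Adm S → L.Adm S' → QC L.π S S'
  ft : ∀ S S', L.Adm S → L.Adm S' → FTr L.π S S'
  sfin : ∀ S S', L.Adm S → L.Adm S' → Sfin L.π S S'
  exc : ∀ S, L.Adm S → Exc L.π S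
  ci : ∀ S, L.Adm S → CI L.π S
  cp : CP L.π
  gbs : GBS L.G

end Lv

end CPOR
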