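import Pool.Agent.P.MP_2cb329_al.HB
import Pool.Agent.P.MP_2cb329_al.LV

/-! The rewriting of a relator along a weight function (definitions and word-level facts). -/

set_option autoImplicit false

namespace CPOR

/-- Data for one rewriting: a spare letter `s` and weights that kill `u`. -/
structure Rw (X : Type) [Fintype X] [DecidableEq X] where
  u : List (X × Bool)
  s : X
  φ : X → ℤ
  spare : ∀ i, ltr u i ≠ s
  φ_s : φ s = 1
  φ_u : wt φ (FreeGroup.mk u) = 1

namespace Rw

variable {X : Type} [Fintype X] [DecidableEq X] (R : Rw X)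

/-- The index of the new letter at position `i`. -/
noncomputable def ix (i : Fin R.u.length) : ℤ := - lev R.φ R.u i

/-- The indices that are used for the letter `x` (only `0` for letters that do not occur). -/
noncomputable def used (x : X) : Finset ℤ :=
  if ∃ i, ltr R.u i = x then (Finset.univ.filter fun i => ltr R.u i = x).image R.ix else {0}

theorem used_ne (x : X) : (R.used x).Nonempty := by
  unfold used
  split_ifs with h
  · obtain ⟨i, hi⟩ := h
    exact ⟨_, Finset.mem_image.2 ⟨i, by simp [hi], rfl⟩⟩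
  · simp

noncomputable def lo (x : X) : ℤ := (R.used x).min' (R.used_ne x)

noncomputable def hi (x : X) : ℤ := (R.used x).max' (R.used_ne x)

/-- The finite set of new letters. -/
noncomputable def YS : Finset (X × ℤ) :=
  (Finset.univ.erase R.s).biUnion fun x => (Finset.Icc (R.lo x) (R.hi x)).image fun i => (x, i)

/-- The new alphabet. -/
abbrev Y : Type := {p : X × ℤ // p ∈ R.YS}

theorem mem_YS {p : X × ℤ} : p ∈ R.YS ↔ p.1 ≠ R.s ∧ R.lo p.1 ≤ p.2 ∧ p.2 ≤ R.hi p.1 := by
  obtain ⟨x, i⟩ := p
  simp only [YS, Finset.mem_biUnion, Finset.mem_erase, Finset.mem_univ, and_true, Finset.mem_image,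
    Finset.mem_Icc, Prod.mk.injEq]
  constructor
  · rintro ⟨y, hy, j, hj, rfl, rfl⟩; exact ⟨hy, hj⟩
  · rintro ⟨h1, h2⟩; exact ⟨x, h1, i, h2, rfl, rfl⟩

theorem ix_mem (i : Fin R.u.length) : (ltr R.u i, R.ix i) ∈ R.YS := by
  have hm : R.ix i ∈ R.used (ltr R.u i) := by
    unfold used
    rw [if_pos ⟨i, rfl⟩]
    exact Finset.mem_image.2 ⟨i, by simp, rfl⟩
  exact R.mem_YS.2 ⟨R.spare i, Finset.min'_le _ _ hm, Finset.le_max' _ _ hm⟩

/-- The rewritten word. -/
noncomputable def u' : List (R.Y × Bool) :=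
  List.ofFn fun i : Fin R.u.length => (⟨(ltr R.u i, R.ix i), R.ix_mem i⟩, (R.u.get i).2)

theorem length_u' : R.u'.length = R.u.length := by simp [u']

/-- The substitution `(x, i) ↦ s⁻ⁱ x s^(i - φ x)`. -/
noncomputable def Φ : FreeGroup R.Y →* FreeGroup X :=
  FreeGroup.lift fun y => FreeGroup.of R.s ^ (-y.1.2) * FreeGroup.of y.1.1 *
    FreeGroup.of R.s ^ (y.1.2 - R.φ y.1.1)

def SA : Set R.Y := {y | y.1.2 < R.hi y.1.1}

def SB : Set R.Y := {y | R.lo y.1.1 < y.1.2}

/-- The shift of letters. -/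
noncomputable def sg (y : R.Y) : R.Y :=
  if h : (y.1.1, y.1.2 + 1) ∈ R.YS then ⟨(y.1.1, y.1.2 + 1), h⟩ else y

theorem get_u' (i : Fin R.u.length) : R.u'.get (i.cast R.length_u'.symm) =
    (⟨(ltr R.u i, R.ix i), R.ix_mem i⟩, (R.u.get i).2) := by
  simp [u']

theorem ltr_u' (i : Fin R.u.length) :
    (ltr R.u' (i.cast R.length_u'.symm)).1 = (ltr R.u i, R.ix i) := by
  rw [ltr, get_u']

theorem stp_u' (i : Fin R.u.length) : stp R.u' (i.cast R.length_u'.symm) = stp R.u i := by
  rw [stp, get_u']
  rfl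

theorem enp_u' (i : Fin R.u.length) : enp R.u' (i.cast R.length_u'.symm) = enp R.u i := by
  rw [enp, get_u']
  rfl

theorem map_u' : R.u'.map (fun p => (p.1.1.1, p.2)) = R.u := by
  rw [u', List.map_ofFn]
  exact List.ofFn_get R.u

theorem wt_Φ (f : FreeGroup R.Y) : wt R.φ (R.Φ f) = 1 := by
  have : (wt R.φ).comp R.Φ = 1 := by
    refine FreeGroup.ext_hom _ _ fun y => ?_
    apply Multiplicative.toAdd.injective
    simp [Φ, wt, R.φ_s]
  exact DFunLike.congr_fun this f

theorem Φ_seg (v : ℕ) : seg R.u v =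
    R.Φ (seg R.u' v) * FreeGroup.of R.s ^ Multiplicative.toAdd (wt R.φ (seg R.u v)) := by
  induction v with
  | zero => simp [ch_seg_zero]
  | succ v ih =>
    by_cases hv : v < R.u.length
    · have h1 := ch_seg_succ R.u ⟨v, hv⟩
      have h2 := ch_seg_succ R.u' ((⟨v, hv⟩ : Fin R.u.length).cast R.length_u'.symm)
      rw [get_u'] at h2
      change seg R.u (v + 1) = seg R.u v * _ at h1
      change seg R.u' (v + 1) = seg R.u' v * _ at h2
      have h3 : R.u.get ⟨v, hv⟩ = (ltr R.u ⟨v, hv⟩, (R.u.get ⟨v, hv⟩).2) := rfl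
      have hw : wt R.φ (FreeGroup.of (ltr R.u ⟨v, hv⟩)) =
          Multiplicative.ofAdd (R.φ (ltr R.u ⟨v, hv⟩)) := by simp [wt]
      have h4 : R.ix ⟨v, hv⟩ =
          -Multiplicative.toAdd (wt R.φ (seg R.u (stp R.u ⟨v, hv⟩))) := rfl
      rw [h3] at h1
      unfold stp at h4
      cases hb : (R.u.get ⟨v, hv⟩).2
      · rw [hb, ch_mk_single_false] at h1 h2
        rw [hb, if_neg (by simp)] at h4
        change _ = -Multiplicative.toAdd (wt R.φ (seg R.u (v + 1))) at h4
        have h5 : Multiplicative.toAdd (wt R.φ (seg R.u (v + 1))) =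
            Multiplicative.toAdd (wt R.φ (seg R.u v)) - R.φ (ltr R.u ⟨v, hv⟩) := by
          rw [h1, map_mul, map_inv, hw, toAdd_mul, toAdd_inv, toAdd_ofAdd, sub_eq_add_neg]
        rw [h5] at h4 ⊢
        rw [h2, map_mul, map_inv, Φ, FreeGroup.lift_apply_of, ← Φ, h1]
        simp only [h4]
        generalize Multiplicative.toAdd (wt R.φ (seg R.u v)) = w at ih ⊢
        rw [ih]
        group
      · rw [hb, ch_mk_single_true] at h1 h2
        rw [hb, if_pos rfl] at h4
        change _ = -Multiplicative.toAdd (wt R.φ (seg R.u v)) at h4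
        have h5 : Multiplicative.toAdd (wt R.φ (seg R.u (v + 1))) =
            Multiplicative.toAdd (wt R.φ (seg R.u v)) + R.φ (ltr R.u ⟨v, hv⟩) := by
          rw [h1, map_mul, hw, toAdd_mul, toAdd_ofAdd]
        rw [h5, h2, map_mul, Φ, FreeGroup.lift_apply_of, ← Φ, h1]
        simp only [h4]
        generalize Multiplicative.toAdd (wt R.φ (seg R.u v)) = w at ih ⊢
        rw [ih]
        group
    · have e1 : seg R.u (v + 1) = seg R.u v := by
        unfold seg
        rw [List.take_of_length_le (by omega), List.take_of_length_le (by omega)]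
      have e2 : seg R.u' (v + 1) = seg R.u' v := by
        have := R.length_u'
        unfold seg
        rw [List.take_of_length_le (by omega), List.take_of_length_le (by omega)]
      rw [e1, e2]
      exact ih

theorem Φ_u' : R.Φ (FreeGroup.mk R.u') = FreeGroup.mk R.u := by
  have h := R.Φ_seg R.u.length
  have e1 : seg R.u R.u.length = FreeGroup.mk R.u := by rw [seg, List.take_length]
  have e2 : seg R.u' R.u.length = FreeGroup.mk R.u' := by
    rw [seg, ← R.length_u', List.take_length]
  rw [e1, e2, R.φ_u, toAdd_one, zpow_zero, mul_one] at h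
  exact h.symm

theorem cyc_u' (h : FreeGroup.IsCyclicallyReduced R.u) : FreeGroup.IsCyclicallyReduced R.u' := by
  rw [← R.map_u'] at h
  obtain ⟨h1, h2⟩ := h
  constructor
  · rw [FreeGroup.IsReduced, List.isChain_map] at h1
    exact h1.imp fun a b hab he => hab (by rw [he])
  · intro a ha b hb he
    rw [List.getLast?_map, List.head?_map] at h2
    exact h2 _ (Option.mem_map_of_mem _ ha) _ (Option.mem_map_of_mem _ hb) (by rw [he])

theorem prim_u' (h : Prim R.u) : Prim R.u' := by
  intro v k hv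
  refine h (v.map fun p => (p.1.1.1, p.2)) k ?_
  rw [← R.map_u', hv, List.map_flatten, List.map_replicate]

end Rw
end CPOR
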