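import Pool.Agent.P.MP_2cb329_al.HI1
import Pool.Agent.P.MP_2cb329_al.END

/-! The induction along the hierarchy. -/

set_option autoImplicit false

namespace CPOR

namespace HI

theorem norm_hom_le {X Y : Type} [DecidableEq X] [DecidableEq Y] (ρ : FreeGroup X →* FreeGroup Y)
    (h : ∀ x, (ρ (FreeGroup.of x)).norm ≤ 1) (f : FreeGroup X) : (ρ f).norm ≤ f.norm := by
  have key : ∀ l : List (X × Bool), (ρ (FreeGroup.mk l)).norm ≤ l.length := by
    intro l
    induction l with
    | nil => rw [← FreeGroup.one_eq_mk, map_one, FreeGroup.norm_one]; exact Nat.zero_le _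
    | cons a l ih =>
      have hm : FreeGroup.mk (a :: l) = FreeGroup.mk [a] * FreeGroup.mk l := by
        rw [FreeGroup.mul_mk]; rfl
      have h1 : (ρ (FreeGroup.mk [a])).norm ≤ 1 := by
        obtain ⟨x, b⟩ := a
        cases b
        · rw [ch_mk_single_false, map_inv, FreeGroup.norm_inv_eq]; exact h x
        · exact h x
      rw [hm, map_mul, List.length_cons]
      have := FreeGroup.norm_mul_le (ρ (FreeGroup.mk [a])) (ρ (FreeGroup.mk l))
      omega
  have := key f.toWord
  rwa [FreeGroup.mk_toWord] at this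

/-- Filling and conjugator bounds pass to a retract. -/
theorem retract {X Y : Type} [DecidableEq X] [DecidableEq Y] {G H : Type} [Group G] [Group H]
    (π : FreeGroup X →* G) (hπ : Function.Surjective π) (σ : FreeGroup Y →* H)
    (hσ : Function.Surjective σ) (ι : FreeGroup X →* FreeGroup Y) (ρ : FreeGroup Y →* FreeGroup X)
    (hι1 : ∀ f, (ι f).norm ≤ f.norm) (hρ1 : ∀ f, (ρ f).norm ≤ f.norm) (hρ : ∀ f, ρ (ι f) = f)
    (h1 : π.ker ≤ (σ.comp ι).ker) (h2 : σ.ker ≤ (π.comp ρ).ker)
    {r c : FreeGroup X} {R : FreeGroup Y} (hR : ρ R = c * r * c⁻¹) (hF : Fill σ R) (hC : CP σ) :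
    Fill π r ∧ CP π := by
  obtain ⟨α, hα⟩ := END.exists_factor π hπ _ h1
  obtain ⟨β, hβ⟩ := END.exists_factor σ hσ _ h2
  simp only [MonoidHom.comp_apply] at hα hβ
  constructor
  · obtain ⟨F, hFb, hF⟩ := hF
    refine ⟨fun n => F n + c.norm, hFb.add (Bd.const _), fun f hf => ?_⟩
    obtain ⟨l, hl, hl', he⟩ := hF (ι f) (by rw [← hα, hf, map_one])
    have hb : F (ι f).norm ≤ F f.norm := hFb.mono (hι1 f)
    refine ⟨l.map fun p => (ρ p.1 * c, p.2), ?_, ?_, ?_⟩
    · rw [List.length_map]; dsimp only; omega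
    · intro q hq
      obtain ⟨p, hp, rfl⟩ := List.mem_map.1 hq
      have := FreeGroup.norm_mul_le (ρ p.1) c
      have := hρ1 p.1
      have := hl' p hp
      dsimp only
      omega
    · rw [← hρ f, he, map_list_prod, List.map_map, List.map_map]
      congr 1
      refine List.map_congr_left fun p _ => ?_
      simp only [Function.comp_apply, map_mul, map_inv]
      split_ifs
      · rw [hR]; group
      · rw [map_inv, hR]; group
  · obtain ⟨F, hFb, hC⟩ := hC
    refine ⟨F, hFb, fun u v g hg => ?_⟩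
    have hlα : ∀ x, len σ (α x) ≤ len π x := by
      intro x
      obtain ⟨f, rfl, hf⟩ := exists_len hπ x
      rw [hα, ← hf]
      exact (len_le _).trans (hι1 f)
    have hlβ : ∀ x, len π (β x) ≤ len σ x := by
      intro x
      obtain ⟨f, rfl, hf⟩ := exists_len hσ x
      rw [hβ, ← hf]
      exact (len_le _).trans (hρ1 f)
    have hβα : ∀ x, β (α x) = x := by
      intro x
      obtain ⟨f, rfl⟩ := hπ x
      rw [hα, hβ, hρ]
    obtain ⟨g', hg', hl⟩ := hC (α u) (α v) (α g) (by rw [← map_inv, ← map_mul, ← map_mul, hg])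
    refine ⟨β g', ?_, (hlβ g').trans (hl.trans (hFb.mono (Nat.add_le_add (hlα u) (hlα v))))⟩
    have := congrArg β hg'
    rwa [map_mul, map_mul, map_inv, hβα, hβα] at this

/-- A larger alphabet with a primitive relator and enough spare letters. -/
theorem exists_big (n : ℕ) (r : FreeGroup (Fin n)) :
    ∃ (m : ℕ) (u : List ((Fin n ⊕ Fin m) × Bool)) (k : ℕ) (c : FreeGroup (Fin n)),
      FreeGroup.IsCyclicallyReduced u ∧ u ≠ [] ∧ 1 ≤ k ∧ Prim u ∧
      u.length ≤ (Finset.univ.image (ltr u))ᶜ.card ∧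
      END.kill _ _ (FreeGroup.mk u ^ k) = c * r * c⁻¹ ∧
      FreeGroup.map Sum.inl r ∈ Subgroup.normalClosure {FreeGroup.mk u ^ k} := by
  by_cases hr : r = 1
  · refine ⟨2, [(Sum.inr 0, true)], 1, 1, FreeGroup.IsCyclicallyReduced.singleton, by simp, le_rfl,
      fun w j h => ?_, ?_, ?_, ?_⟩
    · have := congrArg List.length h
      simp only [List.length_singleton, List.length_flatten, List.map_replicate,
        List.sum_replicate, smul_eq_mul] at this
      exact Nat.eq_one_of_mul_eq_one_right this.symm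
    · refine Finset.card_pos.2 ⟨Sum.inr 1, Finset.mem_compl.2 fun h => ?_⟩
      obtain ⟨i, -, hi⟩ := Finset.mem_image.1 h
      have hm : [((Sum.inr 0 : Fin n ⊕ Fin 2), true)].get i ∈ [((Sum.inr 0 : Fin n ⊕ Fin 2), true)] :=
        List.get_mem _ _
      rw [List.mem_singleton] at hm
      unfold ltr at hi
      rw [hm] at hi
      simp at hi
    · rw [hr]
      simp [END.kill]
    · rw [hr, map_one]
      exact Subgroup.one_mem _
  · let w := FreeGroup.reduceCyclically r.toWord
    let c := FreeGroup.mk (FreeGroup.reduceCyclically.conjugator r.toWord)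
    have hw : r = c * FreeGroup.mk w * c⁻¹ := by
      rw [FreeGroup.inv_mk, FreeGroup.mul_mk, FreeGroup.mul_mk,
        FreeGroup.reduceCyclically.conj_conjugator_reduceCyclically, FreeGroup.mk_toWord]
    have hw0 : w ≠ [] := by
      intro h
      rw [h, ← FreeGroup.one_eq_mk, mul_one, mul_inv_cancel] at hw
      exact hr hw
    have hcw : FreeGroup.IsCyclicallyReduced w :=
      FreeGroup.reduceCyclically.isCyclicallyReduced FreeGroup.isReduced_toWord
    obtain ⟨u, k, h1, h2, h3, h4, h5⟩ :=
      END.exists_root (w.map fun x => ((Sum.inl x.1 : Fin n ⊕ Fin w.length), x.2))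
        (END.cyc_map Sum.inl Sum.inl_injective hcw) (by simpa using hw0)
    obtain ⟨h5, h6, h7⟩ := h5
    rw [← FreeGroup.map.mk] at h7
    refine ⟨w.length, u, k, c⁻¹, h1, h2, h3, h4, ?_, ?_, ?_⟩
    · rw [List.length_map] at h5
      refine h5.trans ?_
      have hsub : Finset.univ.map ⟨Sum.inr, Sum.inr_injective⟩ ⊆
          (Finset.univ.image (ltr u))ᶜ := by
        intro x hx
        obtain ⟨y, -, rfl⟩ := Finset.mem_map.1 hx
        refine Finset.mem_compl.2 fun h => ?_
        obtain ⟨i, -, hi⟩ := Finset.mem_image.1 h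
        obtain ⟨b, -, hb⟩ := List.mem_map.1 (h6 _ (List.get_mem u i))
        unfold ltr at hi
        rw [← hb] at hi
        simp at hi
      simpa using Finset.card_le_card hsub
    · rw [← h7, END.kill_map, hw]; group
    · have h8 : FreeGroup.map (Sum.inl : Fin n → Fin n ⊕ Fin w.length) r =
          FreeGroup.map Sum.inl c * FreeGroup.mk u ^ k * (FreeGroup.map Sum.inl c)⁻¹ := by
        rw [← h7, ← map_inv, ← map_mul, ← map_mul, ← hw]
      rw [h8]
      exact Subgroup.normalClosure_normal.conj_mem _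
        (Subgroup.subset_normalClosure (Set.mem_singleton _)) _

end HI

/-- Every one-relator group has computably bounded filling cost and conjugator length. -/
theorem cp_fill (hF : S_F) (n : ℕ) (r : FreeGroup (Fin n)) :
    Fill (PresentedGroup.mk ({r} : Set (FreeGroup (Fin n)))) r ∧
      CP (PresentedGroup.mk ({r} : Set (FreeGroup (Fin n)))) := by
  obtain ⟨m, u, k, c, h1, h2, h3, h4, h5, h6, h7⟩ := HI.exists_big n r
  obtain ⟨_, _, hcl⟩ := hier hF u.length _ (PresentedGroup {FreeGroup.mk u ^ k})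
    (PresentedGroup.mk _) u k h1 h2 h3 (PresentedGroup.mk_surjective _) (HI.ker_mk _) h4
    (Nat.le_add_left _ _) h5
  refine HI.retract _ (PresentedGroup.mk_surjective _)
    (PresentedGroup.mk {FreeGroup.mk u ^ k}) (PresentedGroup.mk_surjective _)
    (FreeGroup.map Sum.inl) (END.kill _ _) (HI.norm_hom_le _ fun x => ?_)
    (HI.norm_hom_le _ fun x => ?_) END.kill_map ?_ ?_ h6 hcl.fill hcl.cp
  · rw [FreeGroup.map.of, FreeGroup.norm_of]
  · cases x <;> simp [END.kill]
  · rw [HI.ker_mk]
    refine Subgroup.normalClosure_le_normal ?_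
    rintro _ rfl
    rw [← HI.ker_mk] at h7
    exact h7
  · rw [HI.ker_mk]
    refine Subgroup.normalClosure_le_normal ?_
    rintro _ rfl
    have hr : PresentedGroup.mk ({r} : Set (FreeGroup (Fin n))) r = 1 :=
      PresentedGroup.one_of_mem rfl
    change PresentedGroup.mk ({r} : Set (FreeGroup (Fin n))) (END.kill _ _ _) = 1
    rw [h6, map_mul, map_mul, hr, mul_one, ← map_mul, mul_inv_cancel, map_one]

end CPOR
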