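import Pool.Agent.P.MP_2cb329_al.ES

/-! Finitely many cyclic classes: the step. -/

set_option autoImplicit false

namespace CPOR
namespace St

section aux

variable {L L' : Lv} (s : St L L') {a b : L.X}

theorem sf_om_one {g : L.G} (h : L.om a g = L.om a 1) : g ∈ MS L.π ({a}ᶜ : Set L.X) := by
  have := QuotientGroup.eq.1 h.symm
  rwa [inv_one, one_mul] at this

theorem sf_mem_Q {x g : L.G} (h : g ∈ MS L.π ({a}ᶜ : Set L.X) ⊓ cj x (MS L.π ({b}ᶜ : Set L.X))) :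
    g • L.om a 1 = L.om a 1 ∧ g • L.om b x = L.om b x := by
  refine ⟨?_, ?_⟩
  · rw [← MulAction.mem_stabilizer_iff, stabilizer_coe, mem_cj]
    simpa using h.1
  · rw [← MulAction.mem_stabilizer_iff, stabilizer_coe]
    exact h.2

theorem sf_j_mem (ha : L.Occ a) {c : L'.G} (hc : c ∈ MS L'.π (s.SN a)) :
    s.j c ∈ MS L.π ({a}ᶜ : Set L.X) :=
  s.N_le_Ma ha (by rw [M'_eq]; exact ⟨c, hc, rfl⟩)

theorem sf_inV_fix {ω : L.Om a} {g : L.G} (hg : g • ω = ω) {v : s.Vt} (h : s.InV ω v) :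
    s.InV ω (g • v) := by
  have := h.smul s g
  rwa [hg] at this

theorem sf_inE_fix {ω : L.Om a} {g : L.G} (hg : g • ω = ω) {e : s.Ed} (h : s.InE ω e) :
    s.InE ω (g • e) := by
  have := h.smul s g
  rwa [hg] at this

theorem sf_join_ne {e : s.Ed} {v w : s.Vt} (h : s.Join e v w) : v ≠ w := by
  rintro rfl
  rcases h with h | h <;> exact s.src_ne_tgt e (h.1.trans h.2.symm)

theorem sf_join_inc {e : s.Ed} {v w : s.Vt} (h : s.Join e v w) : s.Inc e v ∧ s.Inc e w := by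
  rcases h with h | h
  · exact ⟨Or.inl h.1, Or.inr h.2⟩
  · exact ⟨Or.inr h.2, Or.inl h.1⟩

/-- Two common vertices are joined by a path of common edges. -/
theorem sf_path (ha : L.Occ a) (hb : L.Occ b) {ω : L.Om a} {ω' : L.Om b} {v w : s.Vt}
    (hv : s.InV ω v ∧ s.InV ω' v) (hw : s.InV ω w ∧ s.InV ω' w) :
    ∃ (n : ℕ) (x : ℕ → s.Vt) (e : ℕ → s.Ed), x 0 = v ∧ x n = w ∧
      ∀ i < n, s.Join (e i) (x i) (x (i + 1)) ∧ s.InE ω (e i) ∧ s.InE ω' (e i) := by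
  obtain ⟨x, e, h0, h1, h2, h3⟩ := s.exists_pth v w
  have hin : ∀ i ≤ s.T.dist v w, s.InV ω (x i) ∧ s.InV ω' (x i) := fun i hi =>
    ⟨(s.cvx_om ha ω v hv.1 w hw.1).2 _ (h3 i hi), (s.cvx_om hb ω' v hv.2 w hw.2).2 _ (h3 i hi)⟩
  exact ⟨_, x, e, h0, h1, fun i hi => ⟨h2.1 i hi,
    s.inE_of_join ha (h2.1 i hi) (hin i hi.le).1 (hin (i + 1) hi).1,
    s.inE_of_join hb (h2.1 i hi) (hin i hi.le).2 (hin (i + 1) hi).2⟩⟩

/-- Disjoint subtrees: the stabiliser of the pair fixes an edge that leaves the first one. -/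
theorem sf_disj (ha : L.Occ a) (hb : L.Occ b) {x y : L.G}
    (h : ¬ ∃ v, s.InV (L.om a x) v ∧ s.InV (L.om b y) v) :
    ∃ v e, s.InV (L.om a x) v ∧ s.Inc e v ∧ ¬ s.InE (L.om a x) e ∧
      ∀ g : L.G, g • L.om a x = L.om a x → g • L.om b y = L.om b y → g • e = e := by
  obtain ⟨p, hp, q, hq, hne, h1, h2, -⟩ := ZT.Cvx.bridge s.T_acyclic (s.cvx_om ha (L.om a x))
    (s.cvx_om hb (L.om b y)) (Set.disjoint_left.2 fun v h1 h2 => h ⟨v, h1, h2⟩)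
    (c := s.vx x) (d := s.vx y) ⟨x, rfl, rfl⟩ ⟨y, rfl, rfl⟩ (s.T_reach _ _)
  obtain ⟨z, e, z0, z1, z2, z3⟩ := s.exists_pth p q
  have hpos : 0 < s.T.dist p q :=
    Nat.pos_of_ne_zero fun h0 => hne (ZT.eq_of_dist_zero (s.T_reach _ _) h0)
  have hj := z2.1 0 hpos
  rw [z0] at hj
  refine ⟨p, e 0, hp, (s.sf_join_inc hj).1, fun hE => ?_, fun g g1 g2 => ?_⟩
  · exact s.sf_join_ne hj (h2 _ (z3 1 hpos) (hE.inc s ha (s.sf_join_inc hj).2)).symm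
  · have b1 := h1 (g • p) (s.sf_inV_fix g1 hp) (g • q) (s.sf_inV_fix g2 hq)
    have d1 := b1.2.1.2.2
    have d2 := b1.2.2.1.2.2
    have d3 := s.T_acts.dist g p q
    have f1 : g • p = p := ZT.eq_of_dist_zero (s.T_reach _ _) (by omega)
    have f2 : g • q = q := (ZT.eq_of_dist_zero (s.T_reach _ _) (by omega)).symm
    exact hj.fix s f1 (ZT.fix_btw s.T_acyclic s.T_acts f1 f2 (z3 1 hpos))

/-- If common edges are determined by their end points, a common monotone line contains all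
common edges. -/
theorem sf_line (ha : L.Occ a) (hb : L.Occ b) {ω : L.Om a} {ω' : L.Om b}
    (hu : ∀ e e', s.InE ω e → s.InE ω' e → s.InE ω e' → s.InE ω' e' →
      (s.src e = s.src e' ∨ s.tgt e = s.tgt e') → e = e')
    {e : ℤ → s.Ed} (hm : s.MonoZ e) (he : ∀ i, s.InE ω (e i) ∧ s.InE ω' (e i)) {f : s.Ed}
    (h1 : s.InE ω f) (h2 : s.InE ω' f) : ∃ j, f = e j := by
  obtain ⟨n, x, d, x0, xn, hd⟩ := s.sf_path ha hb (v := s.src (e 0)) (w := s.src f)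
    ⟨(he 0).1.inc s ha (Or.inl rfl), (he 0).2.inc s hb (Or.inl rfl)⟩
    ⟨h1.inc s ha (Or.inl rfl), h2.inc s hb (Or.inl rfl)⟩
  have key : ∀ i ≤ n, ∃ j, x i = s.src (e j) := by
    intro i
    induction i with
    | zero => exact fun _ => ⟨0, x0⟩
    | succ i ih =>
      intro hi
      obtain ⟨j, hj⟩ := ih (by omega)
      obtain ⟨hJ, hE, hE'⟩ := hd i hi
      rcases hJ with hJ | hJ
      · have := hu _ _ hE hE' (he j).1 (he j).2 (Or.inl (hJ.1.trans hj))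
        exact ⟨j + 1, by rw [← hJ.2, this, hm j]⟩
      · have h3 : s.tgt (e (j - 1)) = s.src (e j) := by
          have := hm (j - 1)
          rwa [sub_add_cancel] at this
        have := hu _ _ hE hE' (he (j - 1)).1 (he (j - 1)).2
          (Or.inr (hJ.2.trans (hj.trans h3.symm)))
        exact ⟨j - 1, by rw [← hJ.1, this]⟩
  obtain ⟨j, hj⟩ := key n le_rfl
  exact ⟨j, hu _ _ h1 h2 (he j).1 (he j).2 (Or.inl (xn.symm.trans hj))⟩

/-- A nontrivial element that acts freely on the intersection gives a common monotone line. -/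
theorem sf_axis (ha : L.Occ a) (hb : L.Occ b) {ω : L.Om a} {ω' : L.Om b}
    (hu : ∀ e e', s.InE ω e → s.InE ω' e → s.InE ω e' → s.InE ω' e' →
      (s.src e = s.src e' ∨ s.tgt e = s.tgt e') → e = e')
    {g : L.G} (g1 : g • ω = ω) (g2 : g • ω' = ω') {v : s.Vt} (hv : s.InV ω v ∧ s.InV ω' v)
    (hfree : ∀ w, s.InV ω w → s.InV ω' w → g • w ≠ w) :
    ∃ e : ℤ → s.Ed, s.MonoZ e ∧ ∀ i, s.InE ω (e i) ∧ s.InE ω' (e i) := by
  have hC := (s.cvx_om ha ω).inter (s.cvx_om hb ω')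
  rcases ZT.ell_or_hyp s.T_acyclic s.T_acts s.T_noinv g (s.T_reach v (g • v)) with
    ⟨p, hp, hf⟩ | ⟨x, l, hx, -⟩
  · have := (hC v hv (g • v) ⟨s.sf_inV_fix g1 hv.1, s.sf_inV_fix g2 hv.2⟩).2 p hp
    exact absurd hf (hfree p this.1 this.2)
  have hin : ∀ i, s.InV ω (x i) ∧ s.InV ω' (x i) := by
    refine hx.mem_cvx s.T_acyclic s.T_acts hC (fun w => ⟨fun h => ?_, fun h =>
      ⟨s.sf_inV_fix g1 h.1, s.sf_inV_fix g2 h.2⟩⟩) (c := v) hv (s.T_reach _ _)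
    have k1 := s.sf_inV_fix (inv_smul_eq_iff.2 g1.symm) h.1
    have k2 := s.sf_inV_fix (inv_smul_eq_iff.2 g2.symm) h.2
    rw [inv_smul_smul] at k1 k2
    exact ⟨k1, k2⟩
  obtain ⟨e, e1, e2, e3⟩ := s.line_edges hx.1
  have hE : ∀ i, s.InE ω (e i) ∧ s.InE ω' (e i) := fun i =>
    ⟨s.inE_of_join ha (e1 i) (hin i).1 (hin (i + 1)).1,
      s.inE_of_join hb (e1 i) (hin i).2 (hin (i + 1)).2⟩
  rcases e3 with h | h | ⟨i, h⟩
  · exact ⟨e, fun i => (h i).2.trans (h (i + 1)).1.symm, hE⟩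
  · refine ⟨fun i => e (-i), fun i => ?_, fun i => hE _⟩
    have := (h (-(i + 1))).2
    rw [show -(i + 1) + 1 = -i by ring] at this
    exact (h (-i)).1.trans this.symm
  · exact absurd (hu _ _ (hE i).1 (hE i).2 (hE (i + 1)).1 (hE (i + 1)).2 h) (e2 i)

end aux

variable {L L' : Lv} (s : St L L') (D : s.AD) (hH : L'.Cl) {a b : L.X} (ha : L.Occ a)
  (hb : L.Occ b)
include D hH ha hb

theorem sfin_G : Sfin L.π ({a}ᶜ : Set L.X) ({b}ᶜ : Set L.X) := by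
  classical
  obtain ⟨C₁, hC₁, hLT⟩ := s.lt_G hH ha
  obtain ⟨δ₁, hthr⟩ := s.exists_thr ha hb D
  obtain ⟨δ₂, hgood⟩ := s.good_of_long D hH ha hb
  obtain ⟨K, C₂, hC₂, hGL⟩ := s.good_lines ha
  obtain ⟨N, hgood⟩ := hgood K
  obtain ⟨c₀, hrho⟩ := s.sig_of_rho ha hb
  obtain ⟨C₃, Ξ₃, hC₃, hsf⟩ := hH.sfin _ _ (s.adm_N ha) (s.adm_N hb)
  obtain ⟨B, hB, -⟩ := len_ball L.surj (δ₁ + δ₂ + (N + c₀))
  refine ⟨insert 1 (C₁.image s.j ∪ C₃.image s.j ∪ C₂), B ∪ Ξ₃.image s.j, fun c hc => ?_,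
    fun x => ?_⟩
  · simp only [Finset.mem_insert, Finset.mem_union, Finset.mem_image] at hc
    rcases hc with rfl | (⟨c, hc, rfl⟩ | ⟨c, hc, rfl⟩) | hc
    · exact Subgroup.one_mem _
    · exact s.sf_j_mem ha (hC₁ c hc)
    · exact s.sf_j_mem ha (hC₃ c hc)
    · exact hC₂ c hc
  by_cases hA : ∃ v, s.Sig (δ₁ + δ₂ + (N + c₀)) (L.om a 1) (L.om b x) v
  · obtain ⟨v, g, g', h1, h2, -, -, h3⟩ := hA
    exact Or.inl ⟨g, sf_om_one h1, g⁻¹ * g', Finset.mem_union_left _ ((hB _).2 h3), g'⁻¹ * x,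
      QuotientGroup.eq.1 h2, by group⟩
  have hns : ∀ n ≤ δ₁ + δ₂ + (N + c₀), ∀ v, ¬ s.Sig n (L.om a 1) (L.om b x) v :=
    fun n hn v h => hA ⟨v, h.mono s hn⟩
  by_cases hV : ¬ ∃ v, s.InV (L.om a 1) v ∧ s.InV (L.om b x) v
  · obtain ⟨v, e, h1, h2, h3, h4⟩ := s.sf_disj ha hb hV
    obtain ⟨γ, c, hc, k1, -, k2⟩ := hLT _ v e h1 h2 h3
    refine Or.inr ⟨γ, sf_om_one k1, s.j c, ?_, fun g hg => k2 ?_⟩
    · simp only [Finset.mem_insert, Finset.mem_union, Finset.mem_image]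
      exact Or.inr (Or.inl (Or.inl ⟨c, hc, rfl⟩))
    · exact ⟨(sf_mem_Q hg).1, h4 g (sf_mem_Q hg).1 (sf_mem_Q hg).2⟩
  obtain ⟨v, hv⟩ := not_not.1 hV
  by_cases hE : ¬ ∃ e, s.InE (L.om a 1) e ∧ s.InE (L.om b x) e
  · have hfix : ∀ g ∈ MS L.π ({a}ᶜ : Set L.X) ⊓ cj x (MS L.π ({b}ᶜ : Set L.X)), g • v = v := by
      intro g hg
      obtain ⟨n, z, e, z0, zn, hz⟩ := s.sf_path ha hb hv
        ⟨s.sf_inV_fix (sf_mem_Q hg).1 hv.1, s.sf_inV_fix (sf_mem_Q hg).2 hv.2⟩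
      rcases Nat.eq_zero_or_pos n with rfl | hn
      · exact zn.symm.trans z0
      · exact absurd ⟨e 0, (hz 0 hn).2⟩ hE
    obtain ⟨⟨g, g1, g2⟩, g', g3, g4⟩ := hv
    obtain ⟨h, rfl⟩ := s.vx_eq_iff.1 (g2.trans g4.symm)
    have hg := sf_om_one g1
    rcases hsf h with ⟨m, hm, ξ, hξ, m', hm', rfl⟩ | ⟨m, hm, c, hc, hle⟩
    · refine Or.inl ⟨g * s.j m, Subgroup.mul_mem _ hg (s.sf_j_mem ha hm), s.j ξ,
        Finset.mem_union_right _ (Finset.mem_image_of_mem _ hξ),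
        s.j m' * ((g * s.j (m * ξ * m'))⁻¹ * x),
        Subgroup.mul_mem _ (s.sf_j_mem hb hm') (QuotientGroup.eq.1 g3), ?_⟩
      simp only [map_mul]
      group
    · refine Or.inr ⟨g * s.j m, Subgroup.mul_mem _ hg (s.sf_j_mem ha hm), s.j c, ?_,
        fun q hq => ?_⟩
      · simp only [Finset.mem_insert, Finset.mem_union, Finset.mem_image]
        exact Or.inr (Or.inl (Or.inr ⟨c, hc, rfl⟩))
      have q1 : q ∈ cj g (s.M' (s.SN a)) := by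
        rw [← s.stab_ov ha, MulAction.mem_stabilizer_iff, Prod.smul_mk, g1, g2,
          (sf_mem_Q hq).1, hfix q hq]
      have q2 : q ∈ cj (g * s.j h) (s.M' (s.SN b)) := by
        rw [← s.stab_ov hb, MulAction.mem_stabilizer_iff, Prod.smul_mk, g3, g4,
          (sf_mem_Q hq).2, hfix q hq]
      rw [mem_cj, M'_eq] at q1 q2
      obtain ⟨n, hn, e1⟩ := q1
      obtain ⟨n', hn', e2⟩ := q2
      have e3 : n' = h⁻¹ * n * h := s.j_inj (by
        rw [e2, map_mul, map_mul, map_inv, e1]; group)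
      have hmem := hle (show n ∈ _ from ⟨hn, mem_cj.2 (e3 ▸ hn')⟩)
      obtain ⟨i, hi⟩ := mem_cj.1 hmem
      refine mem_cj.2 ⟨i, ?_⟩
      have hi' : c ^ i = m⁻¹ * n * m := hi
      change s.j c ^ i = _
      rw [← map_zpow, hi', map_mul, map_mul, map_inv, e1]
      group
  obtain ⟨e₀, he₀⟩ := not_not.1 hE
  have hu : ∀ e e', s.InE (L.om a 1) e → s.InE (L.om b x) e → s.InE (L.om a 1) e' →
      s.InE (L.om b x) e' → (s.src e = s.src e' ∨ s.tgt e = s.tgt e') → e = e' := by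
    intro e e' h1 h2 h3 h4 h5
    rcases h5 with h5 | h5
    · exact (hthr _ _ _ (hns δ₁ (by omega) (s.src e))).1 e e' h1 h2 h3 h4 (Or.inl ⟨rfl, h5.symm⟩)
    · exact (hthr _ _ _ (hns δ₁ (by omega) (s.tgt e))).1 e e' h1 h2 h3 h4 (Or.inr ⟨rfl, h5.symm⟩)
  by_cases hQ : ∀ g ∈ MS L.π ({a}ᶜ : Set L.X) ⊓ cj x (MS L.π ({b}ᶜ : Set L.X)), g = 1
  · refine Or.inr ⟨1, Subgroup.one_mem _, 1, Finset.mem_insert_self _ _, fun g hg => ?_⟩
    rw [hQ g hg]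
    exact Subgroup.one_mem _
  push Not at hQ
  obtain ⟨g₀, hg₀, hne⟩ := hQ
  obtain ⟨e, hm, he⟩ := s.sf_axis ha hb hu (sf_mem_Q hg₀).1 (sf_mem_Q hg₀).2 hv (by
    intro w w1 w2 hw
    have hQ₀ : g₀ ∈ Q (L.om a 1) (L.om b x) := by
      rw [MulAction.mem_stabilizer_iff, Prod.smul_mk, (sf_mem_Q hg₀).1, (sf_mem_Q hg₀).2]
    obtain ⟨n, z, e, z0, zn, hz⟩ := s.sf_path ha hb (v := w) (w := s.src e₀) ⟨w1, w2⟩
      ⟨he₀.1.inc s ha (Or.inl rfl), he₀.2.inc s hb (Or.inl rfl)⟩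
    rcases Nat.eq_zero_or_pos n with rfl | hn
    · exact hne ((hthr _ _ _ (hns δ₁ (by omega) w)).2.1 e₀ he₀.1 he₀.2
        (Or.inl (zn.symm.trans z0)) g₀ hQ₀ hw)
    · exact hne ((hthr _ _ _ (hns δ₁ (by omega) w)).2.1 (e 0) (hz 0 hn).2.1 (hz 0 hn).2.2
        (z0 ▸ (s.sf_join_inc (hz 0 hn).1).1) g₀ hQ₀ hw))
  obtain ⟨m, hm', c, hc, hfin⟩ := hGL e hm (fun i => (he i).1) fun i =>
    hgood (L.om a 1) (L.om b x) (fun l => e (i + l))
      (fun l _ => by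
        have := hm (i + l)
        rwa [add_assoc, ← Nat.cast_succ] at this)
      (fun l _ => he _) (fun l _ => hns δ₂ (by omega) _)
      fun h => hns (N + c₀) (by omega) _ (hrho _ _ _ _ _ h (Or.inl rfl))
  refine Or.inr ⟨m, hm', c, ?_, fun g hg => hfin g hg.1 fun i => ?_⟩
  · simp only [Finset.mem_insert, Finset.mem_union]
    exact Or.inr (Or.inr hc)
  · exact s.sf_line ha hb hu hm he (s.sf_inE_fix (sf_mem_Q hg).1 (he i).1)
      (s.sf_inE_fix (sf_mem_Q hg).2 (he i).2)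

end St
end CPOR
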