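import Pool.Agent.P.MP_2cb329_al.DCS
import Pool.Agent.P.MP_2cb329_al.SF

/-! The inductive step. -/

set_option autoImplicit false

namespace CPOR

theorem St.step {L L' : Lv} (s : St L L') (hF : S_F) (hH : L'.Cl) : L.Cl := by
  obtain ⟨D⟩ := s.exists_AD hF hH
  exact Lv.ClMax.cl ⟨s.fill_G hH, fun a ha => s.mem_G ha hH, fun a b ha hb => s.dc1_G D hH ha hb,
    fun a b ha hb => s.dc2_G D hH ha hb, fun a b ha hb => s.sfin_G D hH ha hb,
    fun a ha => s.ci_G D hH ha, s.cp_G D hH, s.gbs_G D hH⟩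

end CPOR
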