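import Pool.Agent.P.MP_2cb329_al.HN
import Pool.Agent.P.MP_2cb329_al.BB
import Pool.Agent.P.MP_2cb329_al.STEP

/-! The induction along the hierarchy. -/

set_option autoImplicit false

namespace CPOR

namespace HI

theorem wt_congr {X : Type} {φ ψ : X → ℤ} {l : List (X × Bool)} (h : ∀ x ∈ l, φ x.1 = ψ x.1) :
    wt φ (FreeGroup.mk l) = wt ψ (FreeGroup.mk l) := by
  unfold wt
  rw [FreeGroup.lift_mk, FreeGroup.lift_mk]
  congr 1
  refine List.map_congr_left fun x hx => ?_
  rw [h x hx]

theorem ker_mk {X : Type} (r : FreeGroup X) :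
    (PresentedGroup.mk ({r} : Set (FreeGroup X))).ker = Subgroup.normalClosure {r} := by
  ext f
  exact PresentedGroup.mk_eq_one_iff

end HI

theorem hier (hF : S_F) (n : ℕ) : ∀ (X : Type) [Fintype X] [DecidableEq X] (G : Type) [Group G]
    (π : FreeGroup X →* G) (u : List (X × Bool)) (k : ℕ) (hc : FreeGroup.IsCyclicallyReduced u)
    (hne : u ≠ []) (hk : 1 ≤ k) (hs : Function.Surjective π)
    (hker : π.ker = Subgroup.normalClosure {FreeGroup.mk u ^ k}), Prim u →
    u.length ≤ (Finset.univ.image (ltr u)).card + n → n ≤ (Finset.univ.image (ltr u))ᶜ.card →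
    ∃ (h1 : Sink π u) (h2 : Stack u),
      Lv.Cl { X := X, G := G, π := π, u := u, k := k, cyc := hc, ne := hne, kpos := hk,
              surj := hs, ker := hker, sink := h1, stack := h2 } := by
  induction n with
  | zero =>
    intro X _ _ G _ π u k hc hne hk hs hker _ h1 _
    have hb : Function.Injective (ltr u) := by
      have h2 : (Finset.univ.image (ltr u)).card = (Finset.univ : Finset (Fin u.length)).card :=
        le_antisymm Finset.card_image_le (by simpa using h1)
      intro i j hij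
      exact Finset.card_image_iff.1 h2 (Finset.mem_univ i) (Finset.mem_univ j) hij
    exact ⟨sink_base π hb, stack_base hb, Lv.cl_base _ hb⟩
  | succ n ih =>
    intro X _ _ G _ π u k hc hne hk hs hker hp h1 h2
    by_cases hb : Function.Injective (ltr u)
    · exact ⟨sink_base π hb, stack_base hb, Lv.cl_base _ hb⟩
    have hsep : ∃ φ : X → ℤ, wt φ (FreeGroup.mk u) = 1 ∧ ∃ i j, ltr u i = ltr u j ∧
        lev φ u i ≠ lev φ u j := by
      by_contra hcon
      push Not at hcon
      exact hb (base_lemma hc hp hcon)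
    obtain ⟨φ₀, hφ₀, i₀, j₀, hij, hlev⟩ := hsep
    obtain ⟨s, hs0⟩ := Finset.card_pos.1 (lt_of_lt_of_le (Nat.succ_pos n) h2)
    have hsp : ∀ i, ltr u i ≠ s := fun i hi =>
      Finset.mem_compl.1 hs0 (Finset.mem_image.2 ⟨i, Finset.mem_univ _, hi⟩)
    have hsame : ∀ x ∈ u, Function.update φ₀ s 1 x.1 = φ₀ x.1 := by
      intro x hx
      obtain ⟨i, rfl⟩ := List.get_of_mem hx
      exact Function.update_of_ne (hsp i) _ _
    let R : Rw X := ⟨u, s, Function.update φ₀ s 1, hsp, Function.update_self _ _ _,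
      (HI.wt_congr hsame).trans hφ₀⟩
    have hlevR : ∀ i, lev R.φ R.u i = lev φ₀ u i := fun i =>
      congrArg Multiplicative.toAdd
        (HI.wt_congr fun x hx => hsame x (List.mem_of_mem_take hx))
    have h3 := R.letters_lt (i := i₀) (j := j₀) hij (by rw [hlevR, hlevR]; exact hlev)
    have h4 := R.spares_le
    have h5 := R.length_u'
    have hu : R.u = u := rfl
    have hne' : R.u' ≠ [] := by
      intro h
      rw [h] at h5
      exact hne (List.length_eq_zero_iff.1 h5.symm)
    obtain ⟨hs1, hs2, hcl⟩ := ih R.Y (PresentedGroup {FreeGroup.mk R.u' ^ k})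
      (PresentedGroup.mk _) R.u' k (R.cyc_u' hc) hne' hk (PresentedGroup.mk_surjective _)
      (HI.ker_mk _) (R.prim_u' hp)
      (by change u.length ≤ (Finset.univ.image (ltr R.u)).card + (n + 1) at h1
          change R.u'.length = u.length at h5
          omega)
      (by change n + 1 ≤ (Finset.univ.image (ltr R.u))ᶜ.card at h2
          omega)
    set L' : Lv :=
      { X := R.Y, G := PresentedGroup {FreeGroup.mk R.u' ^ k}, π := PresentedGroup.mk _,
        u := R.u', k := k, cyc := R.cyc_u' hc, ne := hne', kpos := hk,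
        surj := PresentedGroup.mk_surjective _, ker := HI.ker_mk _, sink := hs1,
        stack := hs2 } with hL'
    have hA : Free L'.π R.SA := by
      obtain ⟨i, -, hi⟩ := R.top_Φ i₀
      exact L'.free ⟨_, ⟨i, rfl⟩, hi⟩
    have hB : Free L'.π R.SB := by
      obtain ⟨i, -, hi⟩ := R.bot_Φ i₀
      exact L'.free ⟨_, ⟨i, rfl⟩, hi⟩
    obtain ⟨j, hj, hjπ, hbr⟩ := R.exists_j π k hker (PresentedGroup.mk _)
      (PresentedGroup.mk_surjective _) (HI.ker_mk _) hs hA hB
    obtain ⟨φ, hφ⟩ := R.exists_φ π k hker hs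
    have hsink : Sink π u := R.sink_up π (PresentedGroup.mk _) j hj hjπ φ hφ hs1
    have hstack : Stack u := R.stack_up hs2
    refine ⟨hsink, hstack, St.step (L' := L')
      { Φ := R.Φ, τ := FreeGroup.of s, j := j, j_inj := hj, j_π := hjπ,
        Φ_rel := ?_, gen := R.gen_Φ, φ := φ, φ_t := ?_, φ_j := ?_, SA := R.SA, SB := R.SB,
        sg := R.sg, sg_bij := R.sg_bij, conj := fun y hy => R.conj_Φ hy,
        ht := fun y => y.1.2, ht_sg := ?_, pr := fun y => y.1.1, pr_sg := ?_, top := ?_,
        bot := ?_, Ma := ?_, britton := hbr } hF hcl⟩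
    · change R.Φ (FreeGroup.mk R.u' ^ k) = FreeGroup.mk R.u ^ k
      rw [map_pow, R.Φ_u']
    · change φ (π (FreeGroup.of R.s)) = _
      rw [hφ, wt, FreeGroup.lift_apply_of, R.φ_s]
    · intro h
      obtain ⟨f, rfl⟩ := PresentedGroup.mk_surjective _ h
      exact (congrArg φ (hjπ f)).trans ((hφ _).trans (R.wt_Φ f))
    · intro y hy
      exact congrArg Prod.snd (R.sg_val hy)
    · intro y hy
      have h6 := congrArg Prod.fst (R.sg_val hy)
      exact h6
    · rintro a ⟨i, rfl⟩
      obtain ⟨i', h6, h7⟩ := R.top_Φ i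
      exact ⟨_, ⟨i', rfl⟩, h6, h7⟩
    · rintro a ⟨i, rfl⟩
      obtain ⟨i', h6, h7⟩ := R.bot_Φ i
      exact ⟨_, ⟨i', rfl⟩, h6, h7⟩
    · rintro a ⟨i, rfl⟩
      exact R.Ma_Φ (hsp i)

end CPOR
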