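import Pool.Agent.P.MP_2cb329_al.CLO

/-! Local lemmas inside the vertex group. -/

set_option autoImplicit false

namespace CPOR
namespace Lv

variable {H : Lv} (hH : H.Cl)
include hH

/-- (LT) an edge that leaves the subtree. -/
theorem lt_H {S SN : Set H.X} (hS : H.Adm (S ∪ SN)) : ∃ C : Finset H.G,
    (∀ c ∈ C, c ∈ MS H.π SN) ∧ ∀ h : H.G, (¬ ∃ n ∈ MS H.π SN, ∃ α ∈ MS H.π S, h = n * α) →
      ∃ n ∈ MS H.π SN, ∃ c ∈ C,
        MS H.π SN ⊓ cj h (MS H.π S) ≤ cj n (Subgroup.zpowers c) := by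
  classical
  have hF := H.free hS
  have sS : S ⊆ S ∪ SN := Set.subset_union_left
  have sN : SN ⊆ S ∪ SN := Set.subset_union_right
  obtain ⟨CE, hCE, hE⟩ := hH.exc _ hS
  choose d hd hd' using fun c : CE => ff2 hF sN (hCE c c.2)
  refine ⟨insert 1 (Finset.univ.image d), fun c hc => ?_, fun h hh => ?_⟩
  · rcases Finset.mem_insert.1 hc with rfl | hc
    · exact one_mem _
    · obtain ⟨c', -, rfl⟩ := Finset.mem_image.1 hc
      exact hd c'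
  by_cases hm : h ∈ MS H.π (S ∪ SN)
  · obtain ⟨η, hη, rfl⟩ := mem_MS.1 hm
    refine ⟨1, one_mem _, 1, Finset.mem_insert_self _ _, fun g hg => ?_⟩
    obtain ⟨hg1, hg2⟩ := Subgroup.mem_inf.1 hg
    obtain ⟨x, hx, rfl⟩ := mem_MS.1 hg1
    obtain ⟨y, hy, hye⟩ := mem_MS.1 (mem_cj.1 hg2)
    have he : η⁻¹ * x * η = y := by
      refine gl2_inj hF ((FS _).mul_mem ((FS _).mul_mem ((FS _).inv_mem hη) (FS_mono sN hx)) hη)
        (FS_mono sS hy) ?_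
      rw [hye, map_mul, map_mul, map_inv]
    by_cases hx1 : x = 1
    · rw [hx1, map_one]
      exact one_mem _
    · obtain ⟨p, hp, q, hq, hpq⟩ := ff_lemma hx1 hx (he ▸ hy)
      exact absurd ⟨_, mem_MS.2 ⟨p, hp, rfl⟩, _, mem_MS.2 ⟨q, hq, rfl⟩, by rw [hpq, map_mul]⟩ hh
  · obtain ⟨m, hm', c, hc, hle⟩ := hE h hm
    obtain ⟨n, hn, hle'⟩ := hd' ⟨c, hc⟩ m hm'
    refine ⟨n, hn, d ⟨c, hc⟩,
      Finset.mem_insert_of_mem (Finset.mem_image_of_mem _ (Finset.mem_univ _)), fun g hg => ?_⟩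
    obtain ⟨hg1, hg2⟩ := Subgroup.mem_inf.1 hg
    exact hle' (Subgroup.mem_inf.2 ⟨hg1, hle (Subgroup.mem_inf.2
      ⟨MS_mono sN hg1, mem_cj.2 (MS_mono sS (mem_cj.1 hg2))⟩)⟩)

/-- A coset of `N` that meets two different small cosets of `M_S` has a small point. -/
theorem turn_H {S SN : Set H.X} (hS : H.Adm (S ∪ SN)) :
    ∃ F, Bd F ∧ ∀ (n : ℕ) (h ν α α' : H.G), len H.π h ≤ n → h ∉ MS H.π S → ν ∈ MS H.π SN →
      α ∈ MS H.π S → α' ∈ MS H.π S → α * ν = h * α' →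
      ∃ ν' ∈ MS H.π SN, len H.π (α * ν') ≤ F n := by
  have hF := H.free hS
  have sS : S ⊆ S ∪ SN := Set.subset_union_left
  have sN : SN ⊆ S ∪ SN := Set.subset_union_right
  obtain ⟨F, bF, hM⟩ := hH.mem _ hS
  refine ⟨F, bF, fun n h ν α α' hl hh hν hα hα' he => ?_⟩
  obtain ⟨nu, hnu, rfl⟩ := mem_MS.1 hν
  obtain ⟨f, hf, rfl⟩ := mem_MS.1 hα
  obtain ⟨f', hf', rfl⟩ := mem_MS.1 hα'
  have hη : f * nu * f'⁻¹ ∈ FS (S ∪ SN) :=
    (FS _).mul_mem ((FS _).mul_mem (FS_mono sS hf) (FS_mono sN hnu))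
      ((FS _).inv_mem (FS_mono sS hf'))
  have hh' : h = H.π (f * nu * f'⁻¹) := by
    rw [map_mul, map_mul, map_inv, he]
    group
  subst hh'
  have hdisj : Disjoint {g : FreeGroup H.X | 1⁻¹ * g ∈ FS S}
      {g | (f * nu * f'⁻¹)⁻¹ * g ∈ FS S} := by
    rw [Set.disjoint_left]
    intro g h1 h2
    apply hh
    refine mem_MS.2 ⟨_, ?_, rfl⟩
    have := (FS S).mul_mem h1 ((FS S).inv_mem h2)
    simpa using this
  have m1 : f * nu * f'⁻¹ ∈ {g | (f * nu * f'⁻¹)⁻¹ * g ∈ FS S} := by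
    show _ ∈ FS S
    rw [inv_mul_cancel]
    exact one_mem _
  have m2 : f * nu ∈ {g | (f * nu * f'⁻¹)⁻¹ * g ∈ FS S} := by
    show _ ∈ FS S
    rw [show (f * nu * f'⁻¹)⁻¹ * (f * nu) = f' by group]
    exact hf'
  obtain ⟨p, -, q, -, -, hb, -⟩ := ZT.Cvx.bridge cay_acyclic (cvx_FS S 1)
    (cvx_FS S (f * nu * f'⁻¹)) hdisj (c := 1) (d := f * nu * f'⁻¹) (by simp) m1
    (cay_reach _ _)
  have h1 : FB 1 p (f * nu * f'⁻¹) := cay_btw.1 (hb 1 (by simp) _ m1).2.2.1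
  have h2 : FB f p (f * nu) := cay_btw.1 (hb f (by simpa using hf) _ m2).2.2.1
  have h3 : f⁻¹ * p ∈ FS SN := h2.mem_FS (by simpa using hnu)
  refine ⟨_, mem_MS.2 ⟨_, h3, rfl⟩, ?_⟩
  rw [← map_mul, mul_inv_cancel_left]
  exact (len_le p).trans (h1.norm_le.trans ((hM _ hη).trans (bF.mono hl)))

end Lv
end CPOR
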