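import Pool.Agent.P.MP_2cb329_al.CLO

/-! The data of one step of the hierarchy and the Bass-Serre tree (definitions). -/

set_option autoImplicit false

namespace CPOR

/-- `L.G` is an HNN extension of `L'.G` along Magnus subgroups. -/
structure St (L L' : Lv) where
  Φ : FreeGroup L'.X →* FreeGroup L.X
  τ : FreeGroup L.X
  j : L'.G →* L.G
  j_inj : Function.Injective j
  j_π : ∀ f, j (L'.π f) = L.π (Φ f)
  Φ_rel : Φ (FreeGroup.mk L'.u ^ L'.k) = FreeGroup.mk L.u ^ L.k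
  gen : Subgroup.closure (Set.range Φ ∪ {τ}) = ⊤
  φ : L.G →* Multiplicative ℤ
  φ_t : φ (L.π τ) = Multiplicative.ofAdd 1
  φ_j : ∀ h, φ (j h) = 1
  SA : Set L'.X
  SB : Set L'.X
  sg : L'.X → L'.X
  sg_bij : Set.BijOn sg SA SB
  conj : ∀ y ∈ SA, τ⁻¹ * Φ (FreeGroup.of y) * τ = Φ (FreeGroup.of (sg y))
  ht : L'.X → ℤ
  ht_sg : ∀ y ∈ SA, ht (sg y) = ht y + 1
  pr : L'.X → L.X
  pr_sg : ∀ y ∈ SA, pr (sg y) = pr y
  top : ∀ a, L.Occ a → ∃ y, L'.Occ y ∧ pr y = a ∧ y ∉ SA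
  bot : ∀ a, L.Occ a → ∃ y, L'.Occ y ∧ pr y = a ∧ y ∉ SB
  Ma : ∀ a, L.Occ a → FS ({a}ᶜ : Set L.X) =
    Subgroup.closure (Φ '' (FS {y | pr y ≠ a} : Set (FreeGroup L'.X)) ∪ {τ})
  britton : ∀ l : List (ℤˣ × L'.G),
    l.IsChain (fun a b => a.2 ∈ (if a.1 = 1 then MS L'.π SB else MS L'.π SA) → a.1 = b.1) →
    (l.map fun x => L.π τ ^ (x.1 : ℤ) * j x.2).prod ∈ j.range → l = []

namespace St

variable {L L' : Lv} (s : St L L')

/-- The stable letter. -/
def t : L.G := L.π s.τ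

/-- The letters of `L'` that do not lie over `a`. -/
def SN (a : L.X) : Set L'.X := {y | s.pr y ≠ a}

/-- The image in `G` of a word of the lower level. -/
def w : FreeGroup L'.X →* L.G := s.j.comp L'.π

/-- The free group on `S` mapped to `G`. -/
def bS (S : Set L'.X) : FreeGroup S →* L.G := s.w.comp (FreeGroup.map Subtype.val)

/-- A Magnus subgroup of `H`, inside `G`. -/
abbrev M' (S : Set L'.X) : Subgroup L.G := (s.bS S).range

/-- The shift of letters. -/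
def sh : FreeGroup L'.X →* FreeGroup L'.X := FreeGroup.map s.sg

/-- Vertices of the tree. -/
abbrev Vt : Type := L.G ⧸ s.j.range

/-- Edges of the tree. -/
abbrev Ed : Type := L.G ⧸ s.M' s.SA

abbrev vx (g : L.G) : s.Vt := (g : L.G ⧸ s.j.range)

abbrev ed (g : L.G) : s.Ed := (g : L.G ⧸ s.M' s.SA)

theorem mem_M' {S : Set L'.X} {g : L.G} : g ∈ s.M' S ↔ ∃ f ∈ FS S, s.w f = g := by
  rw [← range_map_val S]
  constructor
  · rintro ⟨f, rfl⟩; exact ⟨_, ⟨f, rfl⟩, rfl⟩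
  · rintro ⟨_, ⟨f, rfl⟩, rfl⟩; exact ⟨f, rfl⟩

theorem M'_eq (S : Set L'.X) : s.M' S = (MS L'.π S).map s.j := by
  ext g
  rw [mem_M']
  constructor
  · rintro ⟨f, hf, rfl⟩; exact ⟨_, ⟨f, hf, rfl⟩, rfl⟩
  · rintro ⟨_, ⟨f, hf, rfl⟩, rfl⟩; exact ⟨f, hf, rfl⟩

theorem M'_le (S : Set L'.X) : s.M' S ≤ s.j.range := by
  rw [M'_eq]; exact Subgroup.map_le_range _ _

theorem conj_w {f : FreeGroup L'.X} (hf : f ∈ FS s.SA) : s.t⁻¹ * s.w f * s.t = s.w (s.sh f) := by
  have key : s.τ⁻¹ * s.Φ f * s.τ = s.Φ (s.sh f) := by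
    induction hf using Subgroup.closure_induction with
    | mem x hx =>
      obtain ⟨y, hy, rfl⟩ := hx
      simpa [sh] using s.conj y hy
    | one => simp
    | mul x y _ _ hx hy => rw [map_mul, map_mul, map_mul, ← hx, ← hy]; group
    | inv x _ hx => rw [map_inv, map_inv, map_inv, ← hx]; group
  simp only [t, w, MonoidHom.comp_apply, s.j_π, ← key, map_mul, map_inv]

/-- Initial vertex of an edge. -/
def src : s.Ed → s.Vt := Subgroup.quotientMapOfLE (s.M'_le s.SA)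

/-- Terminal vertex of an edge. -/
def tgt (e : s.Ed) : s.Vt :=
  Quotient.liftOn' e (fun g => s.vx (g * s.t)) fun a b h => by
    rw [QuotientGroup.leftRel_apply, mem_M'] at h
    obtain ⟨f, hf, he⟩ := h
    refine QuotientGroup.eq.2 ⟨L'.π (s.sh f), ?_⟩
    have := s.conj_w hf
    rw [he] at this
    change s.w (s.sh f) = _
    rw [← this]; group

@[simp] theorem src_ed (g : L.G) : s.src (s.ed g) = s.vx g := rfl

@[simp] theorem tgt_ed (g : L.G) : s.tgt (s.ed g) = s.vx (g * s.t) := rfl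

/-- The edge `e` joins `v` and `w` (in one of the two directions). -/
def Join (e : s.Ed) (v w : s.Vt) : Prop :=
  (s.src e = v ∧ s.tgt e = w) ∨ (s.src e = w ∧ s.tgt e = v)

/-- Incidence. -/
def Inc (e : s.Ed) (v : s.Vt) : Prop := s.src e = v ∨ s.tgt e = v

/-- The Bass-Serre tree. -/
def T : SimpleGraph s.Vt := SimpleGraph.fromRel fun v w => ∃ e, s.src e = v ∧ s.tgt e = w

/-- A geodesic path with its vertices and edges. -/
def Pth (a : ℕ → s.Vt) (e : ℕ → s.Ed) (n : ℕ) : Prop :=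
  (∀ i < n, s.Join (e i) (a i) (a (i + 1))) ∧ ∀ i, i + 2 ≤ n → a i ≠ a (i + 2)

/-- A monotone path of `K` edges. -/
def Mono (e : ℕ → s.Ed) (K : ℕ) : Prop := ∀ i, i + 1 < K → s.tgt (e i) = s.src (e (i + 1))

/-- A monotone line of edges. -/
def MonoZ (e : ℤ → s.Ed) : Prop := ∀ i, s.tgt (e i) = s.src (e (i + 1))

/-- Pointwise stabiliser of the first `K` edges. -/
def EI (e : ℕ → s.Ed) (K : ℕ) : Subgroup L.G where
  carrier := {g | ∀ i < K, g • e i = e i}
  one_mem' := fun i _ => one_smul _ _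
  mul_mem' := fun ha hb i hi => by rw [mul_smul, hb i hi, ha i hi]
  inv_mem' := fun ha i hi => by rw [inv_smul_eq_iff, ha i hi]

/-- The vertex has a point of length at most `n`. -/
def SmV (n : ℕ) (v : s.Vt) : Prop := ∃ g, s.vx g = v ∧ len L.π g ≤ n

/-- The edge has a point of length at most `n`. -/
def SmE (n : ℕ) (e : s.Ed) : Prop := ∃ g, s.ed g = e ∧ len L.π g ≤ n

/-- `x` moves a point of the edge coset `e` inside `e` by a word of norm at most `n`. -/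
def CycE (n : ℕ) (x : L.G) (e : s.Ed) : Prop :=
  ∃ g, s.ed g = e ∧ ∃ f ∈ FS s.SA, f.norm ≤ n ∧ x * g = g * s.w f

end St

namespace Lv

variable (L : Lv)

/-- Cosets of the maximal Magnus subgroup that omits `a`. -/
abbrev Om (a : L.X) : Type := L.G ⧸ MS L.π ({a}ᶜ : Set L.X)

abbrev om (a : L.X) (g : L.G) : L.Om a := (g : L.G ⧸ MS L.π ({a}ᶜ : Set L.X))

/-- The stabiliser of `c` is generated by elements of length at most `n`. -/
def SG {Z : Type} [MulAction L.G Z] (n : ℕ) (c : Z) : Prop :=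
  GenBy (len L.π) n (MulAction.stabilizer L.G c)

/-- If some element moves `c'` to `c` then one of length at most `n` does. -/
def STr {Z : Type} [MulAction L.G Z] (n : ℕ) (c' c : Z) : Prop :=
  (∃ g : L.G, g • c' = c) → ∃ g : L.G, g • c' = c ∧ len L.π g ≤ n

end Lv

namespace St

variable {L L' : Lv} (s : St L L') {a b : L.X}

def InV (ω : L.Om a) (v : s.Vt) : Prop := ∃ g, L.om a g = ω ∧ s.vx g = v

def InE (ω : L.Om a) (e : s.Ed) : Prop := ∃ g, L.om a g = ω ∧ s.ed g = e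

def SmOV (n : ℕ) (ω : L.Om a) (v : s.Vt) : Prop :=
  ∃ g, L.om a g = ω ∧ s.vx g = v ∧ len L.π g ≤ n

def SmOE (n : ℕ) (ω : L.Om a) (e : s.Ed) : Prop :=
  ∃ g, L.om a g = ω ∧ s.ed g = e ∧ len L.π g ≤ n

/-- The two cosets have points at distance at most `n` in the vertex `v`. -/
def Sig (n : ℕ) (ω : L.Om a) (ω' : L.Om b) (v : s.Vt) : Prop :=
  ∃ g g', L.om a g = ω ∧ L.om b g' = ω' ∧ s.vx g = v ∧ s.vx g' = v ∧ len L.π (g⁻¹ * g') ≤ n

/-- The two cosets have points at distance at most `n` in the edge `e`. -/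
def Rho (n : ℕ) (ω : L.Om a) (ω' : L.Om b) (e : s.Ed) : Prop :=
  ∃ g g', L.om a g = ω ∧ L.om b g' = ω' ∧ s.ed g = e ∧ s.ed g' = e ∧ len L.π (g⁻¹ * g') ≤ n

/-- The bridge from `ω` to `ω'` inside the edge `e` starts at `p` and reads `r`. -/
def Br (ω : L.Om a) (ω' : L.Om b) (e : s.Ed) (p : L.G) (r : FreeGroup L'.X) : Prop :=
  L.om a p = ω ∧ s.ed p = e ∧ r ∈ FS s.SA ∧ L.om b (p * s.w r) = ω' ∧
    Out (s.SN a) r ∧ Out (s.SN b) r⁻¹

/-- The stabiliser of a pair of cosets. -/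
abbrev Q (ω : L.Om a) (ω' : L.Om b) : Subgroup L.G := MulAction.stabilizer L.G (ω, ω')

end St

end CPOR
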