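import Pool.Agent.P.MP_2cb329_al.HD
import Pool.Agent.P.MP_2cb329_al.ST

/-! The rewriting gives an HNN extension. -/

set_option autoImplicit false

namespace CPOR

theorem hn_lift {F G K : Type} [Group F] [Group G] [Group K] (π : F →* G)
    (hs : Function.Surjective π) {r : F} (hker : π.ker = Subgroup.normalClosure {r})
    (g : F →* K) (hg : g r = 1) : ∃ β : G →* K, ∀ f, β (π f) = g f := by
  have h : π.ker ≤ g.ker := by
    rw [hker]
    exact Subgroup.normalClosure_le_normal (Set.singleton_subset_iff.2 hg)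
  exact ⟨π.liftOfSurjective hs ⟨g, h⟩, fun f => MonoidHom.liftOfRightInverse_comp_apply _ _ _ _ f⟩

theorem hn_rel {F G : Type} [Group F] [Group G] (π : F →* G) {r : F}
    (hker : π.ker = Subgroup.normalClosure {r}) : π r = 1 := by
  rw [← MonoidHom.mem_ker, hker]
  exact Subgroup.subset_normalClosure rfl

theorem hn_basis {Y : Type} [DecidableEq Y] {H : Type} [Group H] (π : FreeGroup Y →* H)
    {S : Set Y} (h : Free π S) :
    ∃ e : FreeGroup S ≃* MS π S, ∀ y : S, (e (FreeGroup.of y) : H) = π (FreeGroup.of y.1) := by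
  have hi : Function.Injective (π.comp (FreeGroup.map (Subtype.val : S → Y))) := by
    rw [injective_iff_map_eq_one]
    intro f hf
    have h1 : FreeGroup.map (Subtype.val : S → Y) f ∈ FS S := by
      rw [← range_map_val]
      exact ⟨f, rfl⟩
    exact map_val_injective S ((h _ h1 hf).trans (map_one _).symm)
  have hr : (π.comp (FreeGroup.map (Subtype.val : S → Y))).range = MS π S := by
    rw [MonoidHom.range_comp, range_map_val, MS]
  refine ⟨(MonoidHom.ofInjective hi).trans (MulEquiv.subgroupCongr hr), fun y => ?_⟩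
  simp [MonoidHom.ofInjective_apply]

theorem hn_shift {Y : Type} [DecidableEq Y] {H : Type} [Group H] (π : FreeGroup Y →* H)
    {S T : Set Y} (hS : Free π S) (hT : Free π T) {σ : Y → Y} (hσ : Set.BijOn σ S T) :
    ∃ ψ : MS π T ≃* MS π S, ∀ y ∈ S, ∃ a : MS π S, (a : H) = π (FreeGroup.of y) ∧
      (ψ.symm a : H) = π (FreeGroup.of (σ y)) := by
  obtain ⟨eS, heS⟩ := hn_basis π hS
  obtain ⟨eT, heT⟩ := hn_basis π hT
  refine ⟨(eS.symm.trans ((FreeGroup.freeGroupCongr (hσ.equiv σ)).trans eT)).symm,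
    fun y hy => ⟨eS (FreeGroup.of ⟨y, hy⟩), heS _, ?_⟩⟩
  rw [MulEquiv.symm_symm, MulEquiv.trans_apply, MulEquiv.symm_apply_apply, MulEquiv.trans_apply,
    FreeGroup.freeGroupCongr_apply, FreeGroup.map.of, heT]
  rfl

namespace Rw

variable {X : Type} [Fintype X] [DecidableEq X] (R : Rw X) {G : Type} [Group G]
  (π : FreeGroup X →* G) (k : ℕ) (hker : π.ker = Subgroup.normalClosure {FreeGroup.mk R.u ^ k})
  {H : Type} [Group H] (π' : FreeGroup R.Y →* H) (hs' : Function.Surjective π')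
  (hker' : π'.ker = Subgroup.normalClosure {FreeGroup.mk R.u' ^ k})
include hker hs' hker'

/-- The embedding of the lower group and Britton's lemma. -/
theorem exists_j (hs : Function.Surjective π) (hA : Free π' R.SA) (hB : Free π' R.SB) :
    ∃ j : H →* G, Function.Injective j ∧ (∀ f, j (π' f) = π (R.Φ f)) ∧
      ∀ l : List (ℤˣ × H),
        l.IsChain (fun a b => a.2 ∈ (if a.1 = 1 then MS π' R.SB else MS π' R.SA) → a.1 = b.1) →
        (l.map fun x => π (FreeGroup.of R.s) ^ (x.1 : ℤ) * j x.2).prod ∈ j.range → l = [] := by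
  have hu : π (R.Φ (FreeGroup.mk R.u' ^ k)) = 1 := by
    rw [map_pow R.Φ, R.Φ_u']
    exact hn_rel π hker
  obtain ⟨j, hj⟩ := hn_lift π' hs' hker' (π.comp R.Φ) hu
  obtain ⟨ψ, hψ⟩ := hn_shift π' hA hB R.sg_bij
  have hlo : ∀ x : X, x ≠ R.s → (x, R.lo x) ∈ R.YS := fun x hx =>
    R.mem_YS.2 ⟨hx, le_rfl, Finset.min'_le_max' _ _⟩
  let K := HNNExtension H (MS π' R.SB) (MS π' R.SA) ψ
  let T : K := HNNExtension.t
  let o : H →* K := HNNExtension.of
  let β₀ : FreeGroup X →* K := FreeGroup.lift fun x =>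
    if hx : x = R.s then T else
      T ^ R.lo x * o (π' (FreeGroup.of ⟨(x, R.lo x), hlo x hx⟩)) * T ^ (R.φ x - R.lo x)
  have hβs : β₀ (FreeGroup.of R.s) = T := by simp [β₀]
  have hβy : ∀ (n : ℕ) (y : R.Y), y.1.2 = R.lo y.1.1 + n →
      β₀ (R.Φ (FreeGroup.of y)) = o (π' (FreeGroup.of y)) := by
    intro n
    induction n with
    | zero =>
      rintro ⟨⟨x, i⟩, hy⟩ h
      have hx : x ≠ R.s := (R.mem_YS.1 hy).1
      simp only [Nat.cast_zero, add_zero] at h
      subst h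
      have e : β₀ (FreeGroup.of x) =
          T ^ R.lo x * o (π' (FreeGroup.of ⟨(x, R.lo x), hy⟩)) * T ^ (R.φ x - R.lo x) := by
        simp [β₀, hx]
      simp only [Φ, FreeGroup.lift_apply_of, map_mul, map_zpow, hβs, e]
      group
    | succ n ih =>
      rintro ⟨⟨x, i⟩, hy⟩ h
      obtain ⟨h1, h2, h3⟩ := R.mem_YS.1 hy
      simp only at h h1 h2 h3
      push_cast at h
      have hy0 : (x, R.lo x + n) ∈ R.YS := R.mem_YS.2 ⟨h1, by simp, by simp only; omega⟩
      have hA0 : (⟨(x, R.lo x + n), hy0⟩ : R.Y) ∈ R.SA := by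
        simp only [SA, Set.mem_ofPred_eq]
        omega
      have hsg : R.sg ⟨(x, R.lo x + n), hy0⟩ = ⟨(x, i), hy⟩ := by
        apply Subtype.ext
        rw [R.sg_val hA0]
        simp only [Prod.mk.injEq, true_and]
        omega
      obtain ⟨a, ha1, ha2⟩ := hψ _ hA0
      rw [← hsg, ← R.conj_Φ hA0, map_mul, map_mul, map_inv, hβs, ih _ rfl, ← ha1, ← ha2]
      exact (HNNExtension.equiv_symm_eq_conj a).symm
  have hβ : ∀ f, β₀ (R.Φ f) = o (π' f) := by
    have : β₀.comp R.Φ = o.comp π' := by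
      refine FreeGroup.ext_hom _ _ fun y => ?_
      have h2 := (R.mem_YS.1 y.2).2.1
      exact hβy (y.1.2 - R.lo y.1.1).toNat y (by omega)
    exact fun f => DFunLike.congr_fun this f
  have hβu : β₀ (FreeGroup.mk R.u ^ k) = 1 := by
    rw [← R.Φ_u', ← map_pow R.Φ, hβ, hn_rel π' hker', map_one]
  obtain ⟨β, hβπ⟩ := hn_lift π hs hker β₀ hβu
  have hβj : ∀ h, β (j h) = o h := by
    intro h
    obtain ⟨f, rfl⟩ := hs' h
    rw [hj, MonoidHom.comp_apply, hβπ, hβ]
  refine ⟨j, fun a b hab => HNNExtension.of_injective ψ ?_, hj, fun l hl hp => ?_⟩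
  · have := congrArg β hab
    rwa [hβj, hβj] at this
  · obtain ⟨h, hh⟩ := hp
    refine HNNExtension.ReducedWord.toList_eq_nil_of_mem_of_range ψ ⟨1, l, hl⟩ ⟨h, ?_⟩
    have := congrArg β hh
    rw [hβj, map_list_prod, List.map_map] at this
    refine this.trans ?_
    simp only [HNNExtension.NormalWord.ReducedWord.prod, map_one, one_mul]
    congr 1
    refine List.map_congr_left fun x _ => ?_
    simp only [Function.comp_apply, map_mul, map_zpow, hβπ, hβs, hβj]
    rfl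

omit hs' hker' in
theorem exists_φ (hs : Function.Surjective π) :
    ∃ φ : G →* Multiplicative ℤ, ∀ f, φ (π f) = wt R.φ f :=
  hn_lift π hs hker (wt R.φ) (by rw [map_pow, R.φ_u, one_pow])

omit hker hs' hker' in
/-- The sink property lifts. -/
theorem sink_up (j : H →* G) (hj : Function.Injective j) (hjπ : ∀ f, j (π' f) = π (R.Φ f))
    (φ : G →* Multiplicative ℤ) (hφ : ∀ f, φ (π f) = wt R.φ f) (h : Sink π' R.u') :
    Sink π R.u := by
  classical
  intro S hS
  obtain ⟨g₀, hg₀, hmax⟩ := S.exists_max_image (fun g => Multiplicative.toAdd (φ g)) hS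
  have hinj : Function.Injective fun a : H => g₀ * j a := fun a b hab => hj (mul_left_cancel hab)
  let S₀ : Finset H := (S.filter fun g => φ g = φ g₀).preimage (fun a => g₀ * j a) hinj.injOn
  have hm : ∀ a, a ∈ S₀ ↔ g₀ * j a ∈ S ∧ φ (g₀ * j a) = φ g₀ := by
    intro a
    simp only [S₀, Finset.mem_preimage, Finset.mem_filter]
  obtain ⟨a₀, ha₀, hsink⟩ := h S₀ ⟨1, (hm 1).2 (by simp [hg₀])⟩
  obtain ⟨ha₁, ha₂⟩ := (hm a₀).1 ha₀
  refine ⟨g₀ * j a₀, ha₁, fun i₀ => ?_⟩
  obtain ⟨i₁, hi₁, hi₂⟩ := R.bot_Φ i₀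
  obtain ⟨i', hi', hs⟩ := hsink i₁
  obtain ⟨i, rfl⟩ : ∃ i : Fin R.u.length, i' = i.cast R.length_u'.symm :=
    ⟨i'.cast R.length_u', rfl⟩
  have hl := R.ltr_u' i
  rw [← hi'] at hi₁ hi₂
  have hx : ltr R.u i = ltr R.u i₀ := by rw [← hi₁, hl]
  have hlo : R.ix i ≤ R.lo (ltr R.u i) := by
    simp only [SB, Set.mem_ofPred_eq, hl, not_lt] at hi₂
    exact hi₂
  refine ⟨i, hx, fun g' hg' m hm1 hm2 => ?_⟩
  have h1 : R.lo (ltr R.u m) ≤ R.ix m := (R.mem_YS.1 (R.ix_mem m)).2.1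
  rw [hm1] at h1
  have h2 := congrArg (fun g => Multiplicative.toAdd (φ g)) hm2
  simp only [map_mul φ g', map_mul φ (g₀ * j a₀), hφ, ha₂, toAdd_mul] at h2
  have h3 := hmax g' hg'
  have h4 : lev R.φ R.u m = lev R.φ R.u i ∧
      Multiplicative.toAdd (φ g') = Multiplicative.toAdd (φ g₀) := by
    simp only [ix, lev] at h1 hlo ⊢
    constructor <;> omega
  have h5 : φ g' = φ g₀ := Multiplicative.toAdd.injective h4.2
  have h6 : Multiplicative.toAdd (wt R.φ (seg R.u (stp R.u m))) =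
      Multiplicative.toAdd (wt R.φ (seg R.u (stp R.u i))) := h4.1
  rw [R.Φ_seg (stp R.u m), R.Φ_seg (stp R.u i), h6, map_mul π, map_mul π, ← mul_assoc,
    ← mul_assoc, mul_left_inj, ← hjπ, ← hjπ] at hm2
  have h7 : g' = g₀ * j (a₀ * π' (seg R.u' (stp R.u i)) * (π' (seg R.u' (stp R.u m)))⁻¹) := by
    rw [map_mul, map_mul, map_inv, ← mul_assoc, ← mul_assoc, ← hm2, mul_inv_cancel_right]
  have h8 := hs (a₀ * π' (seg R.u' (stp R.u i)) * (π' (seg R.u' (stp R.u m)))⁻¹)
    ((hm _).2 (by rw [← h7]; exact ⟨hg', h5⟩)) (m.cast R.length_u'.symm)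
    (Subtype.ext (by rw [R.ltr_u', R.ltr_u', hm1, ix, ix, h4.1]))
    (by rw [R.stp_u', R.stp_u', inv_mul_cancel_right])
  refine ⟨by rw [h7, h8.1], ?_⟩
  have := congrArg Fin.val h8.2
  exact Fin.ext this

end Rw
end CPOR
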