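import Pool.Agent.P.MP_2cb329_al.CN

/-! Good paths are periodic; good lines. -/

set_option autoImplicit false

namespace CPOR

theorem ln_finite_of_bound {Y : Type} (S : Set Y) (r : ℕ)
    (h : ∀ (m : ℕ) (f : Fin m → Y), (∀ i, f i ∈ S) → Function.Injective f → m ≤ r) :
    S.Finite ∧ S.ncard ≤ r := by
  have hf : S.Finite := by
    by_contra hinf
    have hinf : S.Infinite := hinf
    have := h (r + 1) (fun i => (hinf.natEmbedding S i.1 : Y)) (fun i => (hinf.natEmbedding S i.1).2)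
      (fun i j hij => Fin.ext ((hinf.natEmbedding S).injective (Subtype.ext hij)))
    omega
  refine ⟨hf, ?_⟩
  have : Finite S := hf
  have := h (Nat.card S) (fun i => ((Finite.equivFin S).symm i : Y))
    (fun i => ((Finite.equivFin S).symm i).2)
    (fun i j hij => (Finite.equivFin S).symm.injective (Subtype.ext hij))
  exact this

theorem ln_antitone_stab (c : ℕ → ℕ) (hc : ∀ n, c (n + 1) ≤ c n) :
    ∃ N, ∀ n, N ≤ n → c n = c N := by
  have hanti : Antitone c := antitone_nat_of_succ_le hc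
  obtain ⟨N, hN⟩ : ∃ N, ∀ n, c N ≤ c n := by
    obtain ⟨N, hN⟩ := Nat.sInf_mem (Set.range_nonempty c)
    exact ⟨N, fun n => hN ▸ Nat.sInf_le ⟨n, rfl⟩⟩
  exact ⟨N, fun n hn => le_antisymm (hanti hn) (hN n)⟩

/-- The abstract form of the determinism statement. -/
theorem ln_abstract {X : Type} (Good : ℕ → X → Prop) (sh : ℕ → X → X) (E : ℕ → Setoid X)
    (r W : ℕ) (hW : 1 ≤ W) (sh0 : ∀ x, sh 0 x = x)
    (shadd : ∀ i j x, sh j (sh i x) = sh (i + j) x)
    (gsh : ∀ n x i m, Good n x → i + m ≤ n → Good m (sh i x))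
    (esh : ∀ n x y i m, (E n).r x y → i + m ≤ n → (E m).r (sh i x) (sh i y))
    (bd : ∀ (K m : ℕ) (x : Fin m → X), (∀ i, Good (K + 1) (x i)) →
      (∀ i j, (E (K + 1)).r (x i) (x j) → i = j) → m ≤ r) :
    ∃ K₀ M : ℕ, W ≤ K₀ ∧
      (∀ x y, Good (K₀ + 1 + 2 * M) x → Good (K₀ + 1 + 2 * M) y →
        ((E K₀).r (sh M x) (sh M y) → (E (K₀ + 1)).r (sh M x) (sh M y)) ∧
        ((E K₀).r (sh (M + 1) x) (sh (M + 1) y) → (E (K₀ + 1)).r (sh M x) (sh M y))) ∧
      ∀ x, (∀ i ≤ r.factorial, Good (K₀ + 1 + 2 * M) (sh i x)) →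
        (E K₀).r (sh M x) (sh (M + r.factorial) x) := by
  classical
  have gle : ∀ n x m, Good n x → m ≤ n → Good m x := fun n x m h hm => by
    have := gsh n x 0 m h (by omega)
    rwa [sh0] at this
  let A : ∀ K : ℕ, ℕ → Set (Quotient (E K)) := fun K M =>
    {q | ∃ x, Good (K + 2 * M) x ∧ Quotient.mk (E K) (sh M x) = q}
  have hA : ∀ K M, 1 ≤ K → (A K M).Finite ∧ (A K M).ncard ≤ r := by
    intro K M hK
    obtain ⟨K, rfl⟩ : ∃ K', K = K' + 1 := ⟨K - 1, by omega⟩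
    refine ln_finite_of_bound _ r fun m f hf hinj => ?_
    choose x hx1 hx2 using hf
    refine bd K m (fun i => sh M (x i)) (fun i => gsh _ _ _ _ (hx1 i) (by omega)) fun i j hij => ?_
    apply hinj
    rw [← hx2 i, ← hx2 j]
    exact Quotient.sound hij
  have hsub : ∀ K M, A K (M + 1) ⊆ A K M := by
    rintro K M q ⟨x, hx, rfl⟩
    refine ⟨sh 1 x, gsh _ _ _ _ hx (by omega), ?_⟩
    rw [shadd, Nat.add_comm]
  let ρL : ∀ K : ℕ, Quotient (E (K + 1)) → Quotient (E K) := fun K =>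
    Quotient.map' (s₁ := E (K + 1)) (s₂ := E K) id fun x y h => by
      have := esh _ x y 0 K h (by omega)
      rwa [sh0, sh0] at this
  let ρR : ∀ K : ℕ, Quotient (E (K + 1)) → Quotient (E K) := fun K =>
    Quotient.map' (s₁ := E (K + 1)) (s₂ := E K) (sh 1) fun x y h => esh _ x y 1 K h (by omega)
  have ρL_mk : ∀ K x, ρL K (Quotient.mk _ x) = Quotient.mk _ x := fun K x => rfl
  have ρR_mk : ∀ K x, ρR K (Quotient.mk _ x) = Quotient.mk _ (sh 1 x) := fun K x => rfl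
  have mL : ∀ K M, Set.MapsTo (ρL K) (A (K + 1) M) (A K M) := by
    rintro K M q ⟨x, hx, rfl⟩
    exact ⟨x, gle _ _ _ hx (by omega), rfl⟩
  have mR : ∀ K M, Set.MapsTo (ρR K) (A (K + 1) M) (A K M) := by
    rintro K M q ⟨x, hx, rfl⟩
    refine ⟨sh 1 x, gsh _ _ _ _ hx (by omega), ?_⟩
    rw [ρR_mk, shadd, shadd, Nat.add_comm]
  have sL : ∀ K M, A K (M + 1) ⊆ ρL K '' A (K + 1) M := by
    rintro K M q ⟨x, hx, rfl⟩
    refine ⟨_, ⟨sh 1 x, gsh _ _ _ _ hx (by omega), rfl⟩, ?_⟩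
    rw [ρL_mk, shadd, Nat.add_comm]
  have sR : ∀ K M, A K (M + 1) ⊆ ρR K '' A (K + 1) M := by
    rintro K M q ⟨x, hx, rfl⟩
    refine ⟨_, ⟨x, gle _ _ _ hx (by omega), rfl⟩, ?_⟩
    rw [ρR_mk, shadd]
  have hstab : ∀ K, ∃ N, ∀ n, N ≤ n → (A (W + K) n).ncard = (A (W + K) N).ncard := fun K =>
    ln_antitone_stab _ fun n => Set.ncard_le_ncard (hsub _ _) (hA _ _ (by omega)).1
  choose N hN using hstab
  have hmono : ∀ K, (A (W + K) (N K)).ncard ≤ (A (W + (K + 1)) (N (K + 1))).ncard := by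
    intro K
    have h1 := hN K (N K + N (K + 1) + 1) (by omega)
    have h2 := hN (K + 1) (N K + N (K + 1)) (by omega)
    rw [← h1, ← h2]
    have hfin := (hA (W + K + 1) (N K + N (K + 1)) (by omega)).1
    exact (Set.ncard_le_ncard (sL _ _) (hfin.image _)).trans (Set.ncard_image_le hfin)
  obtain ⟨K, hK⟩ := ln_antitone_stab (fun K => r - (A (W + K) (N K)).ncard)
    (fun K => Nat.sub_le_sub_left (hmono K) r)
  have heq : (A (W + (K + 1)) (N (K + 1))).ncard = (A (W + K) (N K)).ncard := by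
    have h1 := hK (K + 1) (by omega)
    have h2 := (hA (W + K) (N K) (by omega)).2
    have h3 := (hA (W + (K + 1)) (N (K + 1)) (by omega)).2
    have h4 := hmono K
    omega
  set M := N K + N (K + 1) with hM
  have f0 := (hA (W + K) M (by omega)).1
  have f1 := (hA (W + K + 1) M (by omega)).1
  have e0 : A (W + K) (M + 1) = A (W + K) M := by
    refine Set.eq_of_subset_of_ncard_le (hsub _ _) ?_ f0
    rw [hN K M (by omega), hN K (M + 1) (by omega)]
  have e1 : (A (W + K + 1) M).ncard = (A (W + K) M).ncard := by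
    have h2 := hN (K + 1) M (by omega)
    rw [hN K M (by omega), ← heq, ← h2]
    rfl
  have bij : ∀ ρ : Quotient (E (W + K + 1)) → Quotient (E (W + K)),
      Set.MapsTo ρ (A (W + K + 1) M) (A (W + K) M) →
      A (W + K) (M + 1) ⊆ ρ '' A (W + K + 1) M →
      Set.BijOn ρ (A (W + K + 1) M) (A (W + K) M) := by
    intro ρ hm hs
    rw [e0] at hs
    have him : ρ '' A (W + K + 1) M = A (W + K) M := Set.Subset.antisymm hm.image_subset hs
    refine ⟨hm, ?_, hs⟩
    exact Set.injOn_of_ncard_image_eq (by rw [him, e1]) f1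
  have bL := bij _ (mL _ _) (sL _ _)
  have bR := bij _ (mR _ _) (sR _ _)
  have memA : ∀ x, Good (W + K + 1 + 2 * M) x →
      Quotient.mk (E (W + K + 1)) (sh M x) ∈ A (W + K + 1) M := fun x hx => ⟨x, hx, rfl⟩
  refine ⟨W + K, M, by omega, fun x y hx hy => ⟨fun h => ?_, fun h => ?_⟩, fun x hx => ?_⟩
  · apply Quotient.exact
    apply bL.injOn (memA x hx) (memA y hy)
    rw [ρL_mk, ρL_mk]
    exact Quotient.sound h
  · apply Quotient.exact
    apply bR.injOn (memA x hx) (memA y hy)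
    rw [ρR_mk, ρR_mk, shadd, shadd]
    exact Quotient.sound h
  · let σ : Equiv.Perm (A (W + K) M) := (bL.equiv _).symm.trans (bR.equiv _)
    let _ : Fintype (A (W + K) M) := f0.fintype
    have hσ : σ ^ r.factorial = 1 := by
      have h1 : σ ^ Fintype.card (Equiv.Perm (A (W + K) M)) = 1 := pow_card_eq_one
      rw [Fintype.card_perm] at h1
      have h2 : Fintype.card (A (W + K) M) ≤ r := by
        have := (hA (W + K) M (by omega)).2
        rwa [← Nat.card_coe_set_eq, Nat.card_eq_fintype_card] at this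
      obtain ⟨c, hc⟩ := Nat.factorial_dvd_factorial h2
      rw [hc, pow_mul, h1, one_pow]
    have h0 : Quotient.mk (E (W + K)) (sh M (sh 0 x)) ∈ A (W + K) M :=
      ⟨_, gle _ _ _ (hx 0 (by omega)) (by omega), rfl⟩
    have key : ∀ i ≤ r.factorial,
        ((σ ^ i) ⟨_, h0⟩ : A (W + K) M).1 = Quotient.mk (E (W + K)) (sh M (sh i x)) := by
      intro i
      induction i with
      | zero => intro _; rfl
      | succ i ih =>
        intro hi
        have hm := memA _ (hx i (by omega))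
        have h1 : (σ ^ i) ⟨_, h0⟩ = bL.equiv _ ⟨_, hm⟩ := Subtype.ext (ih (by omega))
        rw [pow_succ', Equiv.Perm.mul_apply, h1]
        have h2 : σ (bL.equiv _ ⟨_, hm⟩) = bR.equiv _ ⟨_, hm⟩ := by
          simp only [σ, Equiv.trans_apply, Equiv.symm_apply_apply]
        rw [h2]
        change ρR _ (Quotient.mk _ (sh M (sh i x))) = _
        rw [ρR_mk, shadd, shadd, shadd]
        congr 2
        omega
    have := key _ le_rfl
    rw [hσ] at this
    have h3 : Quotient.mk (E (W + K)) (sh M (sh 0 x)) =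
        Quotient.mk (E (W + K)) (sh M (sh r.factorial x)) := this
    rw [sh0, shadd, Nat.add_comm r.factorial M] at h3
    exact Quotient.exact h3

namespace St

variable {L L' : Lv} (s : St L L') {a : L.X} (ha : L.Occ a)

theorem ln_mem_EI {e : ℕ → s.Ed} {K : ℕ} {g : L.G} : g ∈ s.EI e K ↔ ∀ i < K, g • e i = e i :=
  Iff.rfl

theorem ln_EI_smul {e : ℕ → s.Ed} {K : ℕ} (h : s.EI e K ≠ ⊥) (g : L.G) :
    s.EI (fun l => g • e l) K ≠ ⊥ := by
  intro hb
  apply h
  rw [Subgroup.eq_bot_iff_forall] at hb ⊢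
  intro x hx
  have : g * x * g⁻¹ = 1 := hb _ (s.ln_mem_EI.2 fun i hi => by
    rw [mul_smul, mul_smul, inv_smul_smul, s.ln_mem_EI.1 hx i hi])
  have h2 : x = g⁻¹ * (g * x * g⁻¹) * g := by group
  rw [h2, this]; group

/-- Pairs of a coset and a path, up to the action of the group on the first `n` edges. -/
def lnE (a : L.X) (n : ℕ) : Setoid (L.Om a × (ℕ → s.Ed)) where
  r x y := ∃ g : L.G, g • x.1 = y.1 ∧ ∀ i < n, g • x.2 i = y.2 i
  iseqv := by
    refine ⟨fun x => ⟨1, one_smul _ _, fun i _ => one_smul _ _⟩, ?_, ?_⟩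
    · rintro x y ⟨g, h1, h2⟩
      exact ⟨g⁻¹, inv_smul_eq_iff.2 h1.symm, fun i hi => inv_smul_eq_iff.2 (h2 i hi).symm⟩
    · rintro x y z ⟨g, h1, h2⟩ ⟨g', h3, h4⟩
      exact ⟨g' * g, by rw [mul_smul, h1, h3], fun i hi => by rw [mul_smul, h2 i hi, h4 i hi]⟩

include ha

/-- Determinism: in a path with good long windows, a window in the middle determines its
neighbours, and types repeat with period `per`. -/
theorem lines : ∃ K₀ M per : ℕ, 1 ≤ K₀ ∧ 1 ≤ per ∧
    (∀ (ω : L.Om a) (e : ℕ → s.Ed), s.Mono e K₀ → (∀ i < K₀, s.InE ω (e i)) →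
      ∀ g ∈ s.EI e K₀, g • ω = ω → g = 1) ∧
    (∀ (ω : L.Om a) (e e' : ℕ → s.Ed), s.Mono e (K₀ + 1 + 2 * M) → s.Mono e' (K₀ + 1 + 2 * M) →
      (∀ i < K₀ + 1 + 2 * M, s.InE ω (e i) ∧ s.InE ω (e' i)) →
      s.EI e (K₀ + 1 + 2 * M) ≠ ⊥ → s.EI e' (K₀ + 1 + 2 * M) ≠ ⊥ →
      ((∀ i < K₀, e (M + i) = e' (M + i)) → e (M + K₀) = e' (M + K₀)) ∧
        ((∀ i < K₀, e (M + 1 + i) = e' (M + 1 + i)) → e M = e' M)) ∧
    ∀ (ω : L.Om a) (e : ℕ → s.Ed), s.Mono e (K₀ + 1 + 2 * M + per) →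
      (∀ i < K₀ + 1 + 2 * M + per, s.InE ω (e i)) →
      (∀ i ≤ per, s.EI (fun l => e (i + l)) (K₀ + 1 + 2 * M) ≠ ⊥) →
      ∃ d : L.G, d • ω = ω ∧ ∀ i < K₀, d • e (M + i) = e (M + per + i) := by
  obtain ⟨W, hW, hacy⟩ := s.acy_mono ha
  let Good : ℕ → L.Om a × (ℕ → s.Ed) → Prop := fun n x =>
    s.Mono x.2 n ∧ (∀ i < n, s.InE x.1 (x.2 i)) ∧ s.EI x.2 n ≠ ⊥
  let sh : ℕ → L.Om a × (ℕ → s.Ed) → L.Om a × (ℕ → s.Ed) := fun i x => (x.1, fun l => x.2 (i + l))
  have mono_sh : ∀ (e : ℕ → s.Ed) n i m, s.Mono e n → i + m ≤ n →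
      s.Mono (fun l => e (i + l)) m := fun e n i m h hm l hl => h (i + l) (by omega)
  obtain ⟨K₀, M, hK, h1, h2⟩ := ln_abstract Good sh (s.lnE a) (Fintype.card L'.X) W hW
    (fun x => by simp [sh]) (fun i j x => by simp [sh, Nat.add_assoc])
    (by
      rintro n x i m ⟨g1, g2, g3⟩ hm
      refine ⟨mono_sh _ _ _ _ g1 hm, fun l hl => g2 (i + l) (by omega), fun hb => g3 ?_⟩
      rw [eq_bot_iff] at hb ⊢
      exact fun g hg => hb (s.ln_mem_EI.2 fun l hl => s.ln_mem_EI.1 hg (i + l) (by omega)))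
    (by
      rintro n x y i m ⟨g, g1, g2⟩ hm
      exact ⟨g, g1, fun l hl => g2 (i + l) (by omega)⟩)
    (by
      intro K m x hx hinj
      have hex : ∀ i, ∃ g : L.G, g • (x i).1 = L.om a 1 := fun i =>
        MulAction.exists_smul_eq L.G _ _
      choose g hg using hex
      refine s.c_one ha K m (L.om a 1) (fun i l => g i • (x i).2 l) (fun i l hl => ?_)
        (fun i l hl => ?_) (fun i => s.ln_EI_smul (hx i).2.2 _) fun i j ⟨u, hu1, hu2⟩ => ?_
      · rw [s.smul_tgt, s.smul_src, (hx i).1 l hl]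
      · have := St.InE.smul s ((hx i).2.1 l (by omega)) (g i)
        rwa [hg] at this
      · refine hinj i j ⟨(g j)⁻¹ * u * g i, ?_, fun l hl => ?_⟩
        · rw [mul_smul, mul_smul, hg, hu1, inv_smul_eq_iff, hg]
        · rw [mul_smul, mul_smul, hu2 l (by omega), inv_smul_smul])
  have acy : ∀ (ω : L.Om a) (e : ℕ → s.Ed), s.Mono e K₀ → (∀ i < K₀, s.InE ω (e i)) →
      ∀ g ∈ s.EI e K₀, g • ω = ω → g = 1 := fun ω e g1 g2 g hg hω =>
    hacy ω e (fun l hl => g1 l (by omega)) (fun l hl => g2 l (by omega)) g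
      (s.ln_mem_EI.2 fun l hl => s.ln_mem_EI.1 hg l (by omega)) hω
  refine ⟨K₀, M, (Fintype.card L'.X).factorial, by omega, Nat.factorial_pos _, acy, ?_, ?_⟩
  · intro ω e e' m1 m2 hin n1 n2
    obtain ⟨k1, k2⟩ := h1 (ω, e) (ω, e') ⟨m1, fun i hi => (hin i hi).1, n1⟩
      ⟨m2, fun i hi => (hin i hi).2, n2⟩
    constructor
    · intro h
      obtain ⟨g, g1, g2⟩ := k1 ⟨1, one_smul _ _, fun i hi => by
        rw [one_smul]; exact h i hi⟩
      have hg : g = 1 := acy ω (fun l => e (M + l)) (mono_sh _ _ _ _ m1 (by omega))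
        (fun i hi => (hin _ (by omega)).1) g
        (s.ln_mem_EI.2 fun i hi => (g2 i (by omega)).trans (h i hi).symm) g1
      have := g2 K₀ (by omega)
      rwa [hg, one_smul] at this
    · intro h
      obtain ⟨g, g1, g2⟩ := k2 ⟨1, one_smul _ _, fun i hi => by
        rw [one_smul]; exact h i hi⟩
      have hg : g = 1 := acy ω (fun l => e (M + 1 + l)) (mono_sh _ _ _ _ m1 (by omega))
        (fun i hi => (hin _ (by omega)).1) g
        (s.ln_mem_EI.2 fun i hi => by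
          have h3 : g • e (M + (i + 1)) = e' (M + (i + 1)) := g2 (i + 1) (by omega)
          have h4 : M + (i + 1) = M + 1 + i := by omega
          rw [h4] at h3
          exact h3.trans (h i hi).symm) g1
      have h5 : g • e (M + 0) = e' (M + 0) := g2 0 (by omega)
      rwa [hg, one_smul] at h5
  · intro ω e m1 hin n1
    obtain ⟨d, d1, d2⟩ := h2 (ω, e) fun i hi =>
      ⟨mono_sh _ _ _ _ m1 (by omega), fun l hl => hin _ (by omega), n1 i hi⟩
    exact ⟨d, d1, d2⟩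

end St
end CPOR
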