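import Pool.Agent.P.MP_2cb329_al.HI
import Pool.Agent.P.MP_2cb329_al.FIN

/-! The conjugacy problem for one-relator groups from Theorem F. -/

set_option autoImplicit false

namespace CPOR

theorem main_of_F (hF : S_F) (n : ℕ) (r : FreeGroup (Fin n)) :
    ComputablePred
      (fun p : List (Fin n × Bool) × List (Fin n × Bool) =>
        IsConj
          (PresentedGroup.mk ({r} : Set (FreeGroup (Fin n))) (FreeGroup.mk p.1))
          (PresentedGroup.mk ({r} : Set (FreeGroup (Fin n))) (FreeGroup.mk p.2))) :=
  computable_of_bounds n r (cp_fill hF n r).1 (cp_fill hF n r).2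

end CPOR
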