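import Pool.Agent.P.MP_2cb329_al.BT

/-! Distortion of the vertex group and filling cost. -/

set_option autoImplicit false

namespace CPOR

section CostLemmas

variable {X Y : Type} [DecidableEq X] [DecidableEq Y]

theorem hom_lip [Fintype X] (Φ : FreeGroup X →* FreeGroup Y) :
    ∃ C, ∀ f, (Φ f).norm ≤ C * f.norm := by
  set C := Finset.univ.sup fun x : X × Bool => (Φ (FreeGroup.mk [x])).norm with hC
  have key : ∀ l : List (X × Bool), (Φ (FreeGroup.mk l)).norm ≤ C * l.length := by
    intro l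
    induction l with
    | nil =>
      have : Φ (FreeGroup.mk []) = 1 := map_one _
      rw [this]; simp
    | cons x l ih =>
      have e : FreeGroup.mk (x :: l) = FreeGroup.mk [x] * FreeGroup.mk l := by
        rw [FreeGroup.mul_mk]; rfl
      have h3 : (Φ (FreeGroup.mk [x])).norm ≤ C :=
        Finset.le_sup (f := fun x : X × Bool => (Φ (FreeGroup.mk [x])).norm) (Finset.mem_univ x)
      rw [e, map_mul, List.length_cons, Nat.mul_succ]
      have := FreeGroup.norm_mul_le (Φ (FreeGroup.mk [x])) (Φ (FreeGroup.mk l))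
      omega
  refine ⟨C, fun f => ?_⟩
  have := key f.toWord
  rwa [FreeGroup.mk_toWord] at this

variable {r : FreeGroup X}

theorem Cost.mono {n m : ℕ} {f : FreeGroup X} (h : Cost r n f) (hn : n ≤ m) : Cost r m f :=
  let ⟨l, h1, h2, h3⟩ := h
  ⟨l, h1.trans hn, fun p hp => (h2 p hp).trans hn, h3⟩

theorem Cost.one (n : ℕ) : Cost r n 1 := ⟨[], Nat.zero_le _, by simp, by simp⟩

theorem Cost.mul {n m : ℕ} {f g : FreeGroup X} (h : Cost r n f) (h' : Cost r m g) :
    Cost r (n + m) (f * g) := by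
  obtain ⟨l, h1, h2, rfl⟩ := h
  obtain ⟨l', h1', h2', rfl⟩ := h'
  refine ⟨l ++ l', by rw [List.length_append]; omega, fun p hp => ?_, by simp⟩
  rcases List.mem_append.1 hp with hp | hp
  · exact (h2 p hp).trans (Nat.le_add_right _ _)
  · exact (h2' p hp).trans (Nat.le_add_left _ _)

theorem Cost.conj {n : ℕ} {f : FreeGroup X} (h : Cost r n f) (g : FreeGroup X) :
    Cost r (n + g.norm) (g * f * g⁻¹) := by
  obtain ⟨l, h1, h2, rfl⟩ := h
  refine ⟨l.map fun p => (g * p.1, p.2), by rw [List.length_map]; omega, fun p hp => ?_, ?_⟩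
  · obtain ⟨q, hq, rfl⟩ := List.mem_map.1 hp
    have := FreeGroup.norm_mul_le g q.1
    have := h2 q hq
    simp only
    omega
  · clear h1 h2
    induction l with
    | nil => simp
    | cons p l ih =>
      simp only [List.map_cons, List.prod_cons, ← ih]
      group

theorem Cost.map {n C : ℕ} {f : FreeGroup X} (h : Cost r n f) (Φ : FreeGroup X →* FreeGroup Y)
    (hC : ∀ f, (Φ f).norm ≤ C * f.norm) : Cost (Φ r) (n + C * n) (Φ f) := by
  obtain ⟨l, h1, h2, rfl⟩ := h
  refine ⟨l.map fun p => (Φ p.1, p.2), by rw [List.length_map]; omega, fun p hp => ?_, ?_⟩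
  · obtain ⟨q, hq, rfl⟩ := List.mem_map.1 hp
    exact (hC q.1).trans ((Nat.mul_le_mul_left C (h2 q hq)).trans (Nat.le_add_left _ _))
  · rw [map_list_prod, List.map_map, List.map_map]
    congr 1
    refine List.map_congr_left fun p _ => ?_
    obtain ⟨a, b⟩ := p
    cases b <;> simp

theorem Cost.ker {G : Type} [Group G] {π : FreeGroup X →* G} (hr : π r = 1) {n : ℕ}
    {f : FreeGroup X} (h : Cost r n f) : π f = 1 := by
  obtain ⟨l, -, -, rfl⟩ := h
  rw [map_list_prod]
  refine List.prod_eq_one fun x hx => ?_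
  simp only [List.map_map, List.mem_map] at hx
  obtain ⟨⟨a, b⟩, -, rfl⟩ := hx
  cases b <;> simp [hr]

end CostLemmas

theorem Lv.rel_one (L : Lv) : L.π (FreeGroup.mk L.u ^ L.k) = 1 := by
  rw [← MonoidHom.mem_ker, L.ker]
  exact Subgroup.subset_normalClosure rfl

namespace St

variable {L L' : Lv} (s : St L L')

/-- The word given by a list of syllables. -/
def val : List (ℤˣ × FreeGroup L'.X) → FreeGroup L'.X → FreeGroup L.X
  | [], f => s.Φ f
  | x :: l, f => s.Φ f * s.τ ^ (x.1 : ℤ) * val l x.2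

/-- The size of a list of syllables. -/
def sz : List (ℤˣ × FreeGroup L'.X) → FreeGroup L'.X → ℕ
  | [], f => f.norm
  | x :: l, f => f.norm + 1 + sz l x.2

theorem val_mul (l : List (ℤˣ × FreeGroup L'.X)) (g f : FreeGroup L'.X) :
    s.val l (g * f) = s.Φ g * s.val l f := by
  cases l <;> simp [val, mul_assoc]

theorem sz_mul (l : List (ℤˣ × FreeGroup L'.X)) (g f : FreeGroup L'.X) :
    sz l (g * f) ≤ g.norm + sz l f := by
  have := FreeGroup.norm_mul_le g f
  cases l <;> simp only [sz] <;> omega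

theorem norm_le_sz (l : List (ℤˣ × FreeGroup L'.X)) (f : FreeGroup L'.X) : f.norm ≤ sz l f := by
  cases l <;> simp only [sz] <;> omega

theorem length_le_sz (l : List (ℤˣ × FreeGroup L'.X)) : ∀ f, l.length ≤ sz l f := by
  induction l with
  | nil => simp
  | cons x l ih => intro f; have := ih x.2; simp only [sz, List.length_cons]; omega

/-- The word has a syllable form of size at most `n`. -/
def Rep (n : ℕ) (f : FreeGroup L.X) : Prop := ∃ l g, f = s.val l g ∧ sz l g ≤ n

theorem Rep.mul {a b : ℕ} {f g : FreeGroup L.X} (h : s.Rep a f) (h' : s.Rep b g) :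
    s.Rep (a + b) (f * g) := by
  obtain ⟨l, f0, rfl, h1⟩ := h
  obtain ⟨m, g0, rfl, h2⟩ := h'
  induction l generalizing f0 a with
  | nil =>
    refine ⟨m, f0 * g0, by rw [val_mul]; rfl, (sz_mul _ _ _).trans ?_⟩
    simp only [sz] at h1
    omega
  | cons x l ih =>
    obtain ⟨l', h0, e, h3⟩ := ih (a := sz l x.2) x.2 le_rfl
    refine ⟨(x.1, h0) :: l', f0, ?_, ?_⟩
    · simp only [val, ← e, mul_assoc]
    · simp only [sz] at h1 ⊢
      omega

theorem exists_rep (f : FreeGroup L.X) : ∃ n, s.Rep n f := by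
  have hf : f ∈ Subgroup.closure (Set.range s.Φ ∪ {s.τ}) := by rw [s.gen]; trivial
  induction hf using Subgroup.closure_induction'' with
  | mem x hx =>
    rcases hx with ⟨y, rfl⟩ | rfl
    · exact ⟨_, [], y, rfl, le_rfl⟩
    · exact ⟨_, [(1, 1)], 1, by simp [val], le_rfl⟩
  | inv_mem x hx =>
    rcases hx with ⟨y, rfl⟩ | rfl
    · exact ⟨_, [], y⁻¹, by simp [val], le_rfl⟩
    · exact ⟨_, [(-1, 1)], 1, by simp [val], le_rfl⟩
  | one => exact ⟨_, [], 1, by simp [val], le_rfl⟩
  | mul x y _ _ hx hy =>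
    obtain ⟨a, ha⟩ := hx
    obtain ⟨b, hb⟩ := hy
    exact ⟨_, Rep.mul s ha hb⟩

theorem rep_norm : ∃ C, ∀ f, s.Rep (C * f.norm) f := by
  choose c hc using fun x : L.X × Bool => s.exists_rep (FreeGroup.mk [x])
  have key : ∀ l : List (L.X × Bool), s.Rep (Finset.univ.sup c * l.length) (FreeGroup.mk l) := by
    intro l
    induction l with
    | nil => exact ⟨[], 1, (map_one s.Φ).symm, by simp [sz]⟩
    | cons x l ih =>
      obtain ⟨l', g, e, h⟩ := Rep.mul s (hc x) ih
      have h3 : c x ≤ Finset.univ.sup c := Finset.le_sup (Finset.mem_univ x)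
      rw [FreeGroup.mul_mk] at e
      refine ⟨l', g, e, ?_⟩
      rw [List.length_cons, Nat.mul_succ]
      omega
  refine ⟨Finset.univ.sup c, fun f => ?_⟩
  have := key f.toWord
  rwa [FreeGroup.mk_toWord] at this

theorem conj_Φ {f : FreeGroup L'.X} (hf : f ∈ FS s.SA) : s.τ⁻¹ * s.Φ f * s.τ = s.Φ (s.sh f) := by
  induction hf using Subgroup.closure_induction with
  | mem x hx =>
    obtain ⟨y, hy, rfl⟩ := hx
    simpa [sh] using s.conj y hy
  | one => simp
  | mul x y _ _ hx hy => rw [map_mul, map_mul, map_mul, ← hx, ← hy]; group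
  | inv x _ hx => rw [map_inv, map_inv, map_inv, ← hx]; group

theorem π_val (l : List (ℤˣ × FreeGroup L'.X)) : ∀ f, L.π (s.val l f) = s.j (L'.π f) *
    ((l.map fun x => (x.1, L'.π x.2)).map fun x => L.π s.τ ^ (x.1 : ℤ) * s.j x.2).prod := by
  induction l with
  | nil => intro f; simp [val, s.j_π]
  | cons x l ih => intro f; simp [val, s.j_π, ih, mul_assoc]

theorem pinch_step (hH : L'.Cl) : ∃ F, Bd F ∧ ∀ (m : ℕ) (l : List (ℤˣ × FreeGroup L'.X))
    (f : FreeGroup L'.X), sz l f ≤ m → l ≠ [] → L.π (s.val l f) ∈ s.j.range →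
    ∃ l' f', l'.length < l.length ∧ sz l' f' ≤ F m ∧
      Cost (FreeGroup.mk L.u ^ L.k) (F m) (s.val l f * (s.val l' f')⁻¹) := by
  obtain ⟨FA, hFA, hA⟩ := hH.mem _ s.adm_A
  obtain ⟨FB, hFB, hB⟩ := hH.mem _ s.adm_B
  obtain ⟨Ff, hFf, hf⟩ := hH.fill
  obtain ⟨C0, hC0⟩ := hom_lip s.Φ
  obtain ⟨C, hC, hτ⟩ : ∃ C, (∀ f, (s.Φ f).norm ≤ C * f.norm) ∧ s.τ.norm ≤ C :=
    ⟨C0 + s.τ.norm, fun f => (hC0 f).trans (Nat.mul_le_mul_right _ (Nat.le_add_right _ _)),
      Nat.le_add_left _ _⟩
  have hpre : ∀ (f : FreeGroup L'.X) (ε : ℤˣ), (s.Φ f * s.τ ^ (ε : ℤ)).norm ≤ C * (f.norm + 1) := by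
    intro f ε
    have h1 := FreeGroup.norm_mul_le (s.Φ f) (s.τ ^ (ε : ℤ))
    have h2 := norm_zpow_le s.τ (ε : ℤ)
    rw [Int.units_natAbs, one_mul] at h2
    have := hC f
    rw [Nat.mul_succ]
    omega
  let M : ℕ → ℕ := fun m => FA m + FB m
  let K : ℕ → ℕ := fun m => Ff (m + M m) + C * Ff (m + M m)
  have hM : Bd M := hFA.add hFB
  have hK : Bd K := (hFf.comp (Bd.id.add hM)).add ((Bd.const C).mul (hFf.comp (Bd.id.add hM)))
  have key : ∀ (m : ℕ) (l : List (ℤˣ × FreeGroup L'.X)) (f : FreeGroup L'.X), sz l f ≤ m →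
      ¬ (l.map fun x => (x.1, L'.π x.2)).IsChain
        (fun a b => a.2 ∈ (if a.1 = 1 then MS L'.π s.SB else MS L'.π s.SA) → a.1 = b.1) →
      ∃ l' f', l'.length < l.length ∧ sz l' f' ≤ sz l f + M m ∧
        Cost (FreeGroup.mk L.u ^ L.k) (K m + C * sz l f) (s.val l f * (s.val l' f')⁻¹) := by
    intro m l
    induction l with
    | nil => intro f _ h; simp at h
    | cons a l ih =>
      intro f hs h
      cases l with
      | nil => simp at h
      | cons b l =>
        rw [List.map_cons, List.map_cons, List.isChain_cons_cons, not_and_or] at h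
        simp only [sz] at hs
        rcases h with h | h
        · rw [Classical.not_imp] at h
          obtain ⟨h1, h2⟩ := h
          simp only at h1 h2
          have ha := norm_le_sz l b.2
          obtain ⟨f1, f2, e1, n1, n2, e2⟩ : ∃ f1 f2, L'.π f1 = L'.π a.2 ∧ f1.norm ≤ M m ∧
              f2.norm = f1.norm ∧ s.τ ^ (a.1 : ℤ) * s.Φ f1 * s.τ ^ (b.1 : ℤ) = s.Φ f2 := by
            rcases Int.units_eq_one_or a.1 with e | e
            · have eb : b.1 = -1 := (Int.units_eq_one_or b.1).resolve_left fun e' =>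
                h2 (e.trans e'.symm)
              rw [if_pos e] at h1
              obtain ⟨f1, hf1, e1⟩ := mem_MS.1 h1
              obtain ⟨g, hg, rfl⟩ := s.sh_surj hf1
              refine ⟨_, g, e1, ?_, (s.sh_norm hg).symm, ?_⟩
              · have := hB _ hf1
                rw [e1] at this
                exact (this.trans (hFB.mono ((len_le _).trans (by omega)))).trans
                  (Nat.le_add_left _ _)
              · rw [e, eb, ← s.conj_Φ hg]; simp [mul_assoc]
            · have eb : b.1 = 1 := (Int.units_eq_one_or b.1).resolve_right fun e' =>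
                h2 (e.trans e'.symm)
              rw [if_neg (by rw [e]; decide)] at h1
              obtain ⟨f1, hf1, e1⟩ := mem_MS.1 h1
              refine ⟨f1, _, e1, ?_, s.sh_norm hf1, ?_⟩
              · have := hA _ hf1
                rw [e1] at this
                exact (this.trans (hFA.mono ((len_le _).trans (by omega)))).trans
                  (Nat.le_add_right _ _)
              · rw [e, eb, ← s.conj_Φ hf1]; simp
          refine ⟨l, f * (f2 * b.2), by simp only [List.length_cons]; omega, ?_, ?_⟩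
          · have a1 := sz_mul l f (f2 * b.2)
            have a2 := sz_mul l f2 b.2
            simp only [sz]
            omega
          · have c1 := hf (a.2 * f1⁻¹) (by rw [map_mul, map_inv, e1, mul_inv_cancel])
            have c2 : (a.2 * f1⁻¹).norm ≤ m + M m := by
              have := FreeGroup.norm_mul_le a.2 f1⁻¹
              rw [FreeGroup.norm_inv_eq] at this
              omega
            have c3 := ((c1.mono (hFf.mono c2)).map s.Φ hC).conj (s.Φ f * s.τ ^ (a.1 : ℤ))
            rw [s.Φ_rel] at c3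
            have e3 : s.val (a :: b :: l) f * (s.val l (f * (f2 * b.2)))⁻¹ =
                s.Φ f * s.τ ^ (a.1 : ℤ) * s.Φ (a.2 * f1⁻¹) * (s.Φ f * s.τ ^ (a.1 : ℤ))⁻¹ := by
              simp only [val, val_mul, ← e2, map_mul, map_inv]
              group
            rw [e3]
            refine c3.mono (Nat.add_le_add_left ((hpre _ _).trans (Nat.mul_le_mul_left _ ?_)) _)
            simp only [sz]
            omega
        · obtain ⟨l', f', h1, h2, h3⟩ := ih a.2 (by simp only [sz]; omega) h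
          refine ⟨(a.1, f') :: l', f, by simp only [List.length_cons] at h1 ⊢; omega, ?_, ?_⟩
          · simp only [sz] at h2 ⊢
            omega
          · have c3 := h3.conj (s.Φ f * s.τ ^ (a.1 : ℤ))
            have e3 : s.val (a :: b :: l) f * (s.val ((a.1, f') :: l') f)⁻¹ =
                s.Φ f * s.τ ^ (a.1 : ℤ) * (s.val (b :: l) a.2 * (s.val l' f')⁻¹) *
                  (s.Φ f * s.τ ^ (a.1 : ℤ))⁻¹ := by
              simp only [val]
              group
            rw [e3]
            refine c3.mono ?_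
            have := hpre f a.1
            have e4 : sz (a :: b :: l) f = f.norm + 1 + sz (b :: l) a.2 := rfl
            rw [e4, Nat.mul_add C (f.norm + 1)]
            omega
  refine ⟨fun m => m + M m + (K m + C * m), (Bd.id.add hM).add (hK.add ((Bd.const C).mul Bd.id)),
    fun m l f hs hl hj => ?_⟩
  obtain ⟨l', f', h1, h2, h3⟩ := key m l f hs fun hc => hl (List.map_eq_nil_iff.1
    (s.britton _ hc (by
      rw [π_val] at hj
      exact (Subgroup.mul_mem_cancel_left _ (MonoidHom.mem_range.2 ⟨_, rfl⟩)).1 hj)))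
  refine ⟨l', f', h1, by simp only; omega, h3.mono ?_⟩
  have := Nat.mul_le_mul_left C hs
  simp only
  omega

theorem lip_j : ∃ C, ∀ h, len L.π (s.j h) ≤ C * len L'.π h := by
  obtain ⟨C, hC⟩ := hom_lip s.Φ
  refine ⟨C, fun h => ?_⟩
  obtain ⟨f, rfl, hf⟩ := exists_len L'.surj h
  rw [s.j_π, ← hf]
  exact (len_le _).trans (hC f)

theorem lip_w : ∃ C, ∀ f, len L.π (s.w f) ≤ C * f.norm := by
  obtain ⟨C, hC⟩ := s.lip_j
  exact ⟨C, fun f => (hC (L'.π f)).trans (Nat.mul_le_mul_left C (len_le f))⟩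

/-- Pinch reduction in the free group: a word that represents an element of `H` is a short word of
the lower level times a product of few conjugates of the relator. -/
theorem pinch (hH : L'.Cl) : ∃ F, Bd F ∧ ∀ f : FreeGroup L.X, L.π f ∈ s.j.range →
    ∃ f' : FreeGroup L'.X, f'.norm ≤ F f.norm ∧
      Cost (FreeGroup.mk L.u ^ L.k) (F f.norm) (f * (s.Φ f')⁻¹) := by
  obtain ⟨F, hF, hs⟩ := s.pinch_step hH
  obtain ⟨C, hC⟩ := s.rep_norm
  refine ⟨fun n => Bd.it (fun m => m + F m) (C * n),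
    (Bd.it_bd (Bd.id.add hF)).comp ((Bd.const C).mul Bd.id), fun f hf => ?_⟩
  obtain ⟨l, g, e, hl⟩ := hC f
  have := Bd.it_induct (F := fun m => m + F m) (fun i m => ∃ l' g', (l'.length + i ≤ l.length ∨
    l' = []) ∧ sz l' g' ≤ m ∧ Cost (FreeGroup.mk L.u ^ L.k) m (f * (s.val l' g')⁻¹))
    l.length (C * f.norm) ((length_le_sz l g).trans hl) ?_ ?_ ?_ l.length le_rfl
  · obtain ⟨l', g', h1, h2, h3⟩ := this
    obtain rfl : l' = [] := h1.elim (fun h => List.length_eq_zero_iff.1 (by omega)) id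
    exact ⟨g', h2, h3⟩
  · rintro i a b hab ⟨l', g', h1, h2, h3⟩
    exact ⟨l', g', h1, h2.trans hab, h3.mono hab⟩
  · exact ⟨l, g, Or.inl le_rfl, hl, by rw [← e, mul_inv_cancel]; exact Cost.one _⟩
  · rintro i m - - ⟨l', g', h1, h2, h3⟩
    by_cases h : l' = []
    · exact ⟨l', g', Or.inr h, h2.trans (Nat.le_add_right _ _), h3.mono (Nat.le_add_right _ _)⟩
    · have h4 := h3.ker L.rel_one
      rw [map_mul, map_inv, mul_inv_eq_one] at h4
      obtain ⟨l'', g'', k1, k2, k3⟩ := hs m l' g' h2 h (h4 ▸ hf)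
      refine ⟨l'', g'', Or.inl (by have := h1.resolve_right h; omega),
        k2.trans (Nat.le_add_left _ _), ?_⟩
      have := h3.mul k3
      rwa [mul_assoc, inv_mul_cancel_left] at this

/-- (MemH) -/
theorem memH (hH : L'.Cl) : ∃ F, Bd F ∧ ∀ h, len L'.π h ≤ F (len L.π (s.j h)) := by
  obtain ⟨F, hF, hp⟩ := s.pinch hH
  refine ⟨F, hF, fun h => ?_⟩
  obtain ⟨f, e, hf⟩ := exists_len L.surj (s.j h)
  obtain ⟨f', h1, h2⟩ := hp f ⟨h, e.symm⟩
  have h4 := h2.ker L.rel_one
  rw [map_mul, map_inv, mul_inv_eq_one, ← s.j_π, e] at h4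
  rw [← hf, s.j_inj h4]
  exact (len_le _).trans h1

theorem memW (hH : L'.Cl) {S : Set L'.X} (hS : L'.Adm S) :
    ∃ F, Bd F ∧ ∀ f ∈ FS S, f.norm ≤ F (len L.π (s.w f)) := by
  obtain ⟨F, hF, h⟩ := s.memH hH
  obtain ⟨F', hF', h'⟩ := hH.mem S hS
  exact ⟨fun n => F' (F n), hF'.comp hF, fun f hf => (h' f hf).trans (hF'.mono (h _))⟩

include s in
theorem fill_G (hH : L'.Cl) : Fill L.π (FreeGroup.mk L.u ^ L.k) := by
  obtain ⟨F, hF, hp⟩ := s.pinch hH
  obtain ⟨Ff, hFf, hf⟩ := hH.fill
  obtain ⟨C, hC⟩ := hom_lip s.Φ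
  refine ⟨fun n => F n + (Ff (F n) + C * Ff (F n)),
    hF.add ((hFf.comp hF).add ((Bd.const C).mul (hFf.comp hF))), fun f e => ?_⟩
  obtain ⟨f', h1, h2⟩ := hp f (e ▸ Subgroup.one_mem _)
  have h4 := h2.ker L.rel_one
  rw [map_mul, map_inv, mul_inv_eq_one, ← s.j_π, e] at h4
  have h5 := ((hf f' (s.j_inj (by rw [← h4, map_one]))).mono (hFf.mono h1)).map s.Φ hC
  rw [s.Φ_rel] at h5
  have := h2.mul h5
  rwa [inv_mul_cancel_right] at this

end St
end CPOR
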