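import Pool.Agent.P.MP_2cb329_al.OM1

/-! The subtrees of the cosets of a Magnus subgroup. -/

set_option autoImplicit false

namespace CPOR

/-- Homomorphisms between free groups of finite rank are Lipschitz. -/
theorem om_lip {Y Z : Type} [Fintype Y] [DecidableEq Y] [DecidableEq Z]
    (Φ : FreeGroup Y →* FreeGroup Z) : ∃ C, ∀ f, (Φ f).norm ≤ C * f.norm := by
  refine ⟨∑ y, (Φ (FreeGroup.of y)).norm, fun f => ?_⟩
  have key : ∀ l : List (Y × Bool),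
      (Φ (FreeGroup.mk l)).norm ≤ (∑ y, (Φ (FreeGroup.of y)).norm) * l.length := by
    intro l
    induction l with
    | nil =>
      have : FreeGroup.mk ([] : List (Y × Bool)) = 1 := rfl
      simp [this]
    | cons x l ih =>
      have h1 : FreeGroup.mk (x :: l) = FreeGroup.mk [x] * FreeGroup.mk l := by
        rw [FreeGroup.mul_mk]; rfl
      have h2 : (Φ (FreeGroup.mk [x])).norm ≤ ∑ y, (Φ (FreeGroup.of y)).norm := by
        have h3 : (Φ (FreeGroup.of x.1)).norm ≤ ∑ y, (Φ (FreeGroup.of y)).norm :=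
          Finset.single_le_sum (f := fun y => (Φ (FreeGroup.of y)).norm)
            (fun _ _ => Nat.zero_le _) (Finset.mem_univ x.1)
        obtain ⟨y, b⟩ := x
        cases b
        · rw [mk_false, map_inv, FreeGroup.norm_inv_eq]; exact h3
        · exact h3
      rw [h1, map_mul, List.length_cons, Nat.mul_succ]
      have := FreeGroup.norm_mul_le (Φ (FreeGroup.mk [x])) (Φ (FreeGroup.mk l))
      omega
  have := key f.toWord
  rwa [FreeGroup.mk_toWord] at this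

namespace St

variable {L L' : Lv} (s : St L L') {a : L.X}

/-- A frame: edges are read as `S`-cosets after multiplication by `θ`. -/
structure OmFr (a : L.X) (S : Set L'.X) (θ : L.G) : Prop where
  adm : L'.Adm (S ∪ s.SN a)
  om : ∀ g, L.om a (g * θ) = L.om a g
  ed : ∀ g g', s.ed g = s.ed g' ↔ ∃ f ∈ FS S, g' * θ = g * θ * s.w f
  short : len L.π θ ≤ len L.π s.t

theorem omFr_A (ha : L.Occ a) : s.OmFr a s.SA 1 where
  adm := s.adm_A_N ha
  om := fun g => by rw [mul_one]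
  ed := fun g g' => by simpa using s.ed_eq_iff
  short := by rw [len_one]; exact Nat.zero_le _

theorem omFr_B (ha : L.Occ a) : s.OmFr a s.SB s.t where
  adm := s.adm_B_N ha
  om := s.om_mul_t ha
  ed := fun _ _ => s.ed_eq_iff_B
  short := le_rfl

theorem om_turn_fr (ha : L.Occ a) {e e' : s.Ed}
    (ht : s.src e = s.src e' ∨ s.tgt e = s.tgt e') : ∃ S θ, s.OmFr a S θ ∧
      ∀ g g', s.ed g = e → s.ed g' = e' → s.vx (g * θ) = s.vx (g' * θ) := by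
  rcases ht with h | h
  · refine ⟨_, _, s.omFr_A ha, ?_⟩
    rintro g g' rfl rfl
    simpa using h
  · refine ⟨_, _, s.omFr_B ha, ?_⟩
    rintro g g' rfl rfl
    simpa using h

theorem om_vx_w (g : L.G) (f : FreeGroup L'.X) : s.vx g = s.vx (g * s.w f) :=
  s.vx_eq_iff.2 ⟨L'.π f, rfl⟩

theorem om_smul (g x : L.G) : g • L.om a x = L.om a (g * x) := rfl

/-- An element that fixes a coset and an edge acts by a word over both sets of letters. -/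
theorem OmFr.fix (ha : L.Occ a) {S : Set L'.X} {θ : L.G} (h : s.OmFr a S θ) {g p : L.G}
    (h1 : g • L.om a p = L.om a p) (h2 : g • s.ed p = s.ed p) :
    ∃ f, f ∈ FS S ∧ f ∈ FS (s.SN a) ∧ g * (p * θ) = p * θ * s.w f := by
  rw [s.smul_ed] at h2
  obtain ⟨f, hf, he⟩ := (h.ed _ _).1 h2.symm
  have h3 : L.om a (p * θ) = L.om a (g * p * θ) := by rw [h.om, h.om]; exact h1.symm
  have h4 : s.vx (p * θ) = s.vx (g * p * θ) := by rw [he]; exact s.om_vx_w _ _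
  obtain ⟨f', hf', he'⟩ := s.ov_eq ha h3 h4
  have : f = f' := s.w_inj h.adm (FS_mono Set.subset_union_left hf)
    (FS_mono Set.subset_union_right hf') (mul_left_cancel (he.symm.trans he'))
  exact ⟨f, hf, this ▸ hf', by rw [← mul_assoc, he]⟩

theorem om_sh_ht {m : ℤ} {f : FreeGroup L'.X} (hf : f ∈ FS (s.SA ∩ {y | m ≤ s.ht y})) :
    s.sh f ∈ FS {y | m + 1 ≤ s.ht y} := by
  induction hf using Subgroup.closure_induction with
  | mem x hx =>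
    obtain ⟨y, hy, rfl⟩ := hx
    refine Subgroup.subset_closure ⟨s.sg y, ?_, by simp [sh]⟩
    have h1 := s.ht_sg y hy.1
    have h2 : m ≤ s.ht y := hy.2
    change m + 1 ≤ s.ht (s.sg y)
    omega
  | one => simp
  | mul x y _ _ hx hy => rw [map_mul]; exact mul_mem hx hy
  | inv x _ hx => rw [map_inv]; exact inv_mem hx

theorem om_sh_conj {m : ℤ} {f : FreeGroup L'.X} (hf : f ∈ FS s.SA)
    (h : ∃ c, c⁻¹ * f * c ∈ FS {y | m ≤ s.ht y}) :
    ∃ c, c⁻¹ * s.sh f * c ∈ FS {y | m + 1 ≤ s.ht y} := by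
  by_cases h1 : f = 1
  · exact ⟨1, by simp [h1]⟩
  obtain ⟨c, hc⟩ := h
  obtain ⟨x, hx, y, hy, rfl⟩ := ff_lemma h1 hf hc
  have h2 : x⁻¹ * f * x ∈ FS {y | m ≤ s.ht y} := by
    have := mul_mem (mul_mem hy hc) (inv_mem hy)
    convert this using 1
    group
  have h3 : x⁻¹ * f * x ∈ FS (s.SA ∩ {y | m ≤ s.ht y}) := by
    rw [← FS_inf]
    exact Subgroup.mem_inf.2 ⟨mul_mem (mul_mem (inv_mem hx) hf) hx, h2⟩
  refine ⟨s.sh x, ?_⟩
  simpa using s.om_sh_ht h3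

/-- From a small point of the vertex to a small point of an incident edge, in one frame. -/
theorem OmFr.step (ha : L.Occ a) (hH : L'.Cl) {S : Set L'.X} {θ : L.G} (h : s.OmFr a S θ) :
    ∃ F, Bd F ∧ ∀ (m : ℕ) (x y z : L.G), len L.π x ≤ m → len L.π y ≤ m →
      s.vx x = s.vx (y * θ) → L.om a z = L.om a x → s.ed z = s.ed y →
      s.SmOE (F m) (L.om a x) (s.ed y) := by
  obtain ⟨F1, hF1, H1⟩ := s.memH hH
  obtain ⟨F2, hF2, H2⟩ := hH.dc1 (s.SN a) S (s.adm_N ha) (h.adm.mono Set.subset_union_left)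
  obtain ⟨C, hC⟩ := s.lip_j
  refine ⟨fun m => m + C * F2 (F1 (m + (m + len L.π s.t))) + len L.π s.t,
    (Bd.id.add ((Bd.const C).mul (hF2.comp (hF1.comp
      (Bd.id.add (Bd.id.add (Bd.const _))))))).add (Bd.const _), ?_⟩
  intro m x y z hx hy hv ho he
  obtain ⟨k, hk⟩ := s.vx_eq_iff.1 hv
  obtain ⟨f, hf, hz⟩ := (h.ed _ _).1 he.symm
  have h3 : L.om a x = L.om a (z * θ) := by rw [h.om, ho]
  have h4 : s.vx x = s.vx (z * θ) := by rw [hz, ← s.om_vx_w, hv]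
  obtain ⟨n, hn, hn'⟩ := s.ov_eq ha h3 h4
  have hl : len L'.π k ≤ F1 (m + (m + len L.π s.t)) := by
    refine (H1 k).trans (hF1.mono ?_)
    have e1 : s.j k = x⁻¹ * y * θ := by rw [mul_assoc, hk]; group
    rw [e1]
    have := len_mul3 L.surj x⁻¹ y θ
    rw [len_inv L.surj] at this
    have := h.short
    omega
  have hk2 : k⁻¹ * L'.π n * 1 = L'.π f := by
    apply s.j_inj
    have e1 : s.w n = s.j k * s.w f := by
      have : x * s.w n = x * (s.j k * s.w f) := by rw [← hn', hz, hk, mul_assoc]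
      exact mul_left_cancel this
    rw [mul_one, map_mul, map_inv]
    change (s.j k)⁻¹ * s.w n = s.w f
    rw [e1]; group
  obtain ⟨m', hm', hm2, hm3⟩ := H2 (F1 (m + (m + len L.π s.t))) 1 k
    (by rw [len_one]; exact Nat.zero_le _) hl (L'.π n) (mem_MS.2 ⟨n, hn, rfl⟩)
    (hk2 ▸ mem_MS.2 ⟨f, hf, rfl⟩)
  obtain ⟨n', hn1, rfl⟩ := mem_MS.1 hm'
  obtain ⟨f', hf1, hf2⟩ := mem_MS.1 hm2
  refine ⟨x * s.w n' * θ⁻¹, ?_, ?_, ?_⟩
  · rw [← h.om, inv_mul_cancel_right, s.om_mul_w ha _ hn1]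
  · symm
    refine (h.ed _ _).2 ⟨f', hf1, ?_⟩
    have e1 : s.w f' = (s.j k)⁻¹ * s.w n' := by
      change s.j (L'.π f') = _
      rw [hf2, mul_one, map_mul, map_inv]; rfl
    rw [hk, e1]; group
  · have h5 := len_mul3 L.surj x (s.w n') θ⁻¹
    rw [len_inv L.surj] at h5
    have h6 : len L.π (s.w n') ≤ C * F2 (F1 (m + (m + len L.π s.t))) :=
      (hC _).trans (Nat.mul_le_mul_left _ hm3)
    have := h.short
    change _ ≤ m + C * F2 (F1 (m + (m + len L.π s.t))) + len L.π s.t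
    omega

theorem om_step_ve (ha : L.Occ a) (hH : L'.Cl) : ∃ F, Bd F ∧ ∀ (m : ℕ) (ω : L.Om a) (v : s.Vt)
    (e : s.Ed), s.SmOV m ω v → s.SmE m e → s.Inc e v → s.InE ω e → s.SmOE (F m) ω e := by
  obtain ⟨F1, hF1, H1⟩ := (s.omFr_A ha).step s ha hH
  obtain ⟨F2, hF2, H2⟩ := (s.omFr_B ha).step s ha hH
  refine ⟨fun m => F1 m + F2 m, hF1.add hF2, ?_⟩
  rintro m _ _ _ ⟨x, rfl, rfl, hx⟩ ⟨y, rfl, hy⟩ hi ⟨z, hz1, hz2⟩
  rcases hi with hi | hi
  · obtain ⟨g, h1, h2, h3⟩ := H1 m x y z hx hy (by simpa using hi.symm) hz1 hz2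
    exact ⟨g, h1, h2, h3.trans (Nat.le_add_right _ _)⟩
  · obtain ⟨g, h1, h2, h3⟩ := H2 m x y z hx hy (by simpa using hi.symm) hz1 hz2
    exact ⟨g, h1, h2, h3.trans (Nat.le_add_left _ _)⟩

theorem om_step_ev (ha : L.Occ a) {m : ℕ} {ω : L.Om a} {v : s.Vt} {e : s.Ed}
    (h : s.SmOE m ω e) (hi : s.Inc e v) : s.SmOV (m + len L.π s.t) ω v := by
  obtain ⟨g, rfl, rfl, hg⟩ := h
  rcases hi with rfl | rfl
  · exact ⟨g, rfl, rfl, hg.trans (Nat.le_add_right _ _)⟩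
  · exact ⟨g * s.t, s.om_mul_t ha g, rfl,
      (len_mul L.surj _ _).trans (Nat.add_le_add_right hg _)⟩

theorem om_join_inc {e : s.Ed} {v w : s.Vt} (h : s.Join e v w) : s.Inc e v ∧ s.Inc e w := by
  rcases h with ⟨h1, h2⟩ | ⟨h1, h2⟩
  · exact ⟨Or.inl h1, Or.inr h2⟩
  · exact ⟨Or.inr h2, Or.inl h1⟩

/-- The geodesic between two small vertices of a coset. -/
theorem om_walk (ha : L.Occ a) : ∃ F, Bd F ∧ ∀ (n : ℕ) (ω : L.Om a) (v w : s.Vt), s.SmV n v →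
    s.SmV n w → s.InV ω v → s.InV ω w → ∃ (d : ℕ) (x : ℕ → s.Vt) (e : ℕ → s.Ed),
      d ≤ F n ∧ x 0 = v ∧ x d = w ∧
        ∀ i < d, s.Join (e i) (x i) (x (i + 1)) ∧ s.SmE (F n) (e i) ∧ s.InE ω (e i) := by
  obtain ⟨F, hF, H⟩ := s.bf
  refine ⟨F, hF, fun n ω v w hv hw hv' hw' => ?_⟩
  obtain ⟨h1, -, h3⟩ := H n v w hv hw
  obtain ⟨x, e, hx0, hxd, hp, hb⟩ := s.exists_pth v w
  refine ⟨_, x, e, h1, hx0, hxd, fun i hi => ⟨hp.1 i hi,
    h3 _ _ _ (hp.1 i hi) (hb i hi.le) (hb (i + 1) hi), ?_⟩⟩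
  exact s.inE_of_join ha (hp.1 i hi) ((s.cvx_om ha ω v hv' w hw').2 _ (hb i hi.le))
    ((s.cvx_om ha ω v hv' w hw').2 _ (hb (i + 1) hi))

variable (ha : L.Occ a)
include ha

/-- (ACY) at a turn. -/
theorem acy_turn {ω : L.Om a} {e e' : s.Ed} (hne : e ≠ e')
    (ht : s.src e = s.src e' ∨ s.tgt e = s.tgt e') (h : s.InE ω e) (h' : s.InE ω e') {g : L.G}
    (hg : g • ω = ω) (he : g • e = e) (he' : g • e' = e') : g = 1 := by
  obtain ⟨S, θ, fr, hv⟩ := s.om_turn_fr ha ht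
  obtain ⟨p, rfl, rfl⟩ := h
  obtain ⟨p', hp', rfl⟩ := h'
  obtain ⟨f, hf, hfN, e1⟩ := fr.fix s ha hg he
  obtain ⟨f', hf', hfN', e2⟩ := fr.fix s ha (hp' ▸ hg) he'
  obtain ⟨n, hn, e3⟩ := s.ov_eq ha (g := p * θ) (g' := p' * θ)
    (by rw [fr.om, fr.om, hp']) (hv p p' rfl rfl)
  have e4 : s.w (f * n) = s.w (n * f') := by
    have : p * θ * s.w (f * n) = p * θ * s.w (n * f') := by
      rw [map_mul, map_mul, ← mul_assoc, ← e1, ← mul_assoc (p * θ), ← e3, ← e2, e3]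
      group
    exact mul_left_cancel this
  have e5 : f * n = n * f' := s.w_inj (s.adm_N ha) (mul_mem hfN hn) (mul_mem hn hfN') e4
  by_cases h1 : f = 1
  · rw [h1, map_one, mul_one] at e1
    exact mul_eq_right.1 e1
  · exfalso
    have e6 : n⁻¹ * f * n ∈ FS S := by rw [mul_assoc, e5, inv_mul_cancel_left]; exact hf'
    obtain ⟨x, hx, y, hy, rfl⟩ := ff_lemma h1 hf e6
    exact hne ((fr.ed _ _).2 ⟨_, mul_mem hx hy, e3⟩)

/-- (ACY) along a monotone path. -/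
theorem acy_mono : ∃ W, 1 ≤ W ∧ ∀ (ω : L.Om a) (e : ℕ → s.Ed), s.Mono e W →
    (∀ i < W, s.InE ω (e i)) → ∀ g ∈ s.EI e W, g • ω = ω → g = 1 := by
  obtain ⟨B, hB⟩ : ∃ B : ℕ, ∀ y, -(B : ℤ) ≤ s.ht y ∧ s.ht y ≤ B := by
    refine ⟨∑ y, (s.ht y).natAbs, fun y => ?_⟩
    have : (s.ht y).natAbs ≤ ∑ y, (s.ht y).natAbs :=
      Finset.single_le_sum (f := fun y => (s.ht y).natAbs) (fun _ _ => Nat.zero_le _)
        (Finset.mem_univ y)
    omega
  refine ⟨2 * B + 2, by omega, fun ω e hm hin g hg hω => ?_⟩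
  have key : ∀ i < 2 * B + 2, ∃ p f, L.om a p = ω ∧ s.ed p = e i ∧ f ∈ FS s.SA ∧
      f ∈ FS (s.SN a) ∧ g * p = p * s.w f ∧ ∃ c, c⁻¹ * f * c ∈ FS {y | -(B : ℤ) + i ≤ s.ht y} := by
    intro i
    induction i with
    | zero =>
      intro hi
      obtain ⟨p, h1, h2⟩ := hin 0 hi
      obtain ⟨f, hf, hfN, e1⟩ := (s.omFr_A ha).fix s ha (p := p) (h1 ▸ hω) (h2 ▸ hg 0 hi)
      refine ⟨p, f, h1, h2, hf, hfN, by simpa using e1, 1, ?_⟩
      rw [mem_FS_iff]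
      intro x _
      simpa using (hB x.1).1
    | succ i ih =>
      intro hi
      obtain ⟨p, f, h1, h2, hf, hfN, e1, hc⟩ := ih (by omega)
      obtain ⟨p', h1', h2'⟩ := hin (i + 1) hi
      obtain ⟨f', hf', hfN', e2⟩ :=
        (s.omFr_A ha).fix s ha (p := p') (h1' ▸ hω) (h2' ▸ hg (i + 1) hi)
      rw [mul_one] at e2
      have hv : s.vx (p * s.t) = s.vx p' := by
        have := hm i hi
        rw [← h2, ← h2'] at this
        exact this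
      obtain ⟨n, hn, e3⟩ := s.ov_eq ha (g := p * s.t) (g' := p')
        (by rw [s.om_mul_t ha, h1, h1']) hv
      have hsN : s.sh f ∈ FS (s.SN a) := (s.sh_mem_N hf a).2 hfN
      have e4 : s.w (s.sh f * n) = s.w (n * f') := by
        have : p * s.t * s.w (s.sh f * n) = p * s.t * s.w (n * f') := by
          rw [map_mul, map_mul, ← s.conj_w hf, ← mul_assoc _ (s.w n), ← e3, ← e2, e3]
          calc p * s.t * (s.t⁻¹ * s.w f * s.t * s.w n) = p * s.w f * s.t * s.w n := by group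
            _ = g * (p * s.t * s.w n) := by rw [← e1]; group
        exact mul_left_cancel this
      have e5 : s.sh f * n = n * f' :=
        s.w_inj (s.adm_N ha) (mul_mem hsN hn) (mul_mem hn hfN') e4
      obtain ⟨c, hc'⟩ := s.om_sh_conj hf hc
      refine ⟨p', f', h1', h2', hf', hfN', e2, n⁻¹ * c, ?_⟩
      have e6 : (n⁻¹ * c)⁻¹ * f' * (n⁻¹ * c) = c⁻¹ * s.sh f * c := by
        have : f' = n⁻¹ * (s.sh f * n) := by rw [e5]; group
        rw [this]; group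
      rw [e6]
      have e7 : -(B : ℤ) + ((i + 1 : ℕ) : ℤ) = -(B : ℤ) + i + 1 := by push_cast; ring
      rw [e7]
      exact hc'
  obtain ⟨p, f, -, -, -, -, e1, c, hc⟩ := key (2 * B + 1) (by omega)
  have h0 : c⁻¹ * f * c = 1 := by
    rw [← FreeGroup.toWord_eq_nil_iff, List.eq_nil_iff_forall_not_mem]
    intro x hx
    have h1 : -(B : ℤ) + ((2 * B + 1 : ℕ) : ℤ) ≤ s.ht x.1 := mem_FS_iff.1 hc x hx
    have h2 := (hB x.1).2
    omega
  have h1 : f = 1 := by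
    have : f = c * (c⁻¹ * f * c) * c⁻¹ := by group
    rw [this, h0]; group
  rw [h1, map_one, mul_one] at e1
  exact mul_eq_right.1 e1

/-- (UNI) -/
theorem uni {ω ω' : L.Om a} {e e' : s.Ed} (hne : e ≠ e')
    (ht : s.src e = s.src e' ∨ s.tgt e = s.tgt e') (h1 : s.InE ω e) (h2 : s.InE ω e')
    (h3 : s.InE ω' e) (h4 : s.InE ω' e') : ω = ω' := by
  obtain ⟨S, θ, fr, hv⟩ := s.om_turn_fr ha ht
  obtain ⟨p1, o1, d1⟩ := h1
  obtain ⟨p2, o2, d2⟩ := h2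
  obtain ⟨p3, o3, d3⟩ := h3
  obtain ⟨p4, o4, d4⟩ := h4
  obtain ⟨n, hn, e1⟩ := s.ov_eq ha (g := p1 * θ) (g' := p2 * θ)
    (by rw [fr.om, fr.om, o1, o2]) (hv _ _ d1 d2)
  obtain ⟨n', hn', e2⟩ := s.ov_eq ha (g := p3 * θ) (g' := p4 * θ)
    (by rw [fr.om, fr.om, o3, o4]) (hv _ _ d3 d4)
  obtain ⟨α, hα, e3⟩ := (fr.ed p1 p3).1 (d1.trans d3.symm)
  obtain ⟨α', hα', e4⟩ := (fr.ed p2 p4).1 (d2.trans d4.symm)
  have e5 : L'.π n * L'.π α' = L'.π α * L'.π n' := by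
    apply s.j_inj
    rw [map_mul, map_mul]
    change s.w n * s.w α' = s.w α * s.w n'
    have : p1 * θ * (s.w n * s.w α') = p1 * θ * (s.w α * s.w n') := by
      rw [← mul_assoc, ← mul_assoc, ← e1, ← e3, ← e2, ← e4]
    exact mul_left_cancel this
  rcases L'.q_three fr.adm (mem_MS.2 ⟨n, hn, rfl⟩) (mem_MS.2 ⟨n', hn', rfl⟩)
    (mem_MS.2 ⟨α, hα, rfl⟩) (mem_MS.2 ⟨α', hα', rfl⟩) e5 with h | h
  · obtain ⟨f, hf, he⟩ := mem_MS.1 h
    have e6 : s.w f = s.w n := congrArg s.j he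
    exact absurd (d1.symm.trans (((fr.ed p1 p2).2 ⟨f, hf, by rw [e6, e1]⟩).trans d2)) hne
  · obtain ⟨f, hf, he⟩ := mem_MS.1 h
    have e6 : s.w f = s.w α := congrArg s.j he
    rw [← o1, ← o3, ← fr.om p1, ← fr.om p3, e3, ← e6, s.om_mul_w ha _ hf]

/-- (NP) -/
theorem np (hH : L'.Cl) : ∃ F, Bd F ∧ ∀ (n : ℕ) (ω : L.Om a) (g₀ : L.G), L.om a g₀ = ω →
    len L.π g₀ ≤ n → (∀ v, s.SmV n v → s.InV ω v → s.SmOV (F n) ω v) ∧
      ∀ e, s.SmE n e → s.InE ω e → s.SmOE (F n) ω e := by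
  obtain ⟨F1, hF1, H1⟩ := s.om_walk ha
  obtain ⟨F2, hF2, H2⟩ := s.om_step_ve ha hH
  have hF3 : Bd (fun m => F2 m + len L.π s.t) := hF2.add (Bd.const _)
  have hG : Bd (fun n => Bd.it (fun m => F2 m + len L.π s.t) (F1 n + n)) :=
    (Bd.it_bd hF3).comp (hF1.add Bd.id)
  have hV : ∀ (n : ℕ) (ω : L.Om a) (g₀ : L.G), L.om a g₀ = ω → len L.π g₀ ≤ n → ∀ v,
      s.SmV n v → s.InV ω v →
      s.SmOV (Bd.it (fun m => F2 m + len L.π s.t) (F1 n + n)) ω v := by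
    intro n ω g₀ h0 hl v hv hv'
    obtain ⟨d, x, e, hd, hx0, hxd, hw⟩ :=
      H1 n ω (s.vx g₀) v ⟨g₀, rfl, hl⟩ hv ⟨g₀, h0, rfl⟩ hv'
    rw [← hxd]
    refine Bd.it_induct (fun i m => s.SmOV m ω (x i)) d (F1 n + n) (by omega) ?_ ?_ ?_ d le_rfl
    · rintro i m m' hm ⟨g, h1, h2, h3⟩
      exact ⟨g, h1, h2, h3.trans hm⟩
    · exact ⟨g₀, h0, hx0.symm, by omega⟩
    · intro i m hi hm hP
      obtain ⟨hj, ⟨y, hy1, hy2⟩, hin⟩ := hw i hi
      exact s.om_step_ev ha (H2 m ω _ _ hP ⟨y, hy1, by omega⟩ (s.om_join_inc hj).1 hin)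
        (s.om_join_inc hj).2
  refine ⟨_, hG.add (hF2.comp hG), fun n ω g₀ h0 hl => ⟨fun v hv hv' => ?_, fun e he he' => ?_⟩⟩
  · obtain ⟨g, h1, h2, h3⟩ := hV n ω g₀ h0 hl v hv hv'
    exact ⟨g, h1, h2, h3.trans (Nat.le_add_right _ _)⟩
  · obtain ⟨y, rfl, hy⟩ := he
    have h1 := hV n ω g₀ h0 hl (s.vx y) ⟨y, rfl, hy⟩ (he'.inc s ha (Or.inl rfl))
    have h2 := Bd.le_it (fun m => F2 m + len L.π s.t) (F1 n + n)
    obtain ⟨g, h3, h4, h5⟩ := H2 _ ω _ (s.ed y) h1 ⟨y, rfl, by omega⟩ (Or.inl rfl) he'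
    exact ⟨g, h3, h4, h5.trans (Nat.le_add_left _ _)⟩

include s in
theorem mem_G (hH : L'.Cl) : Mem L.π ({a}ᶜ : Set L.X) := by
  obtain ⟨F1, hF1, H1⟩ := s.om_walk ha
  obtain ⟨F2, hF2, H2⟩ := s.np ha hH
  obtain ⟨F3, hF3, H3⟩ := s.memW hH (s.adm_N ha)
  obtain ⟨C, hC⟩ := om_lip s.Φ
  have hτ : s.τ ∈ FS ({a}ᶜ : Set L.X) := by
    rw [s.Ma a ha]; exact Subgroup.subset_closure (Or.inr rfl)
  have hom : ∀ f ∈ FS ({a}ᶜ : Set L.X), L.om a (L.π f) = L.om a 1 := fun f hf =>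
    (QuotientGroup.eq.2 (by simpa using mem_MS.2 ⟨f, hf, rfl⟩)).symm
  have hA : Bd (fun m => m + C * F3 (m + m)) :=
    Bd.id.add ((Bd.const C).mul (hF3.comp (Bd.id.add Bd.id)))
  -- moving inside one vertex
  have stepA : ∀ (m : ℕ), ∀ f ∈ FS ({a}ᶜ : Set L.X), f.norm ≤ m → ∀ x : L.G,
      L.om a x = L.om a 1 → s.vx (L.π f) = s.vx x → len L.π x ≤ m →
      ∃ f' ∈ FS ({a}ᶜ : Set L.X), L.π f' = x ∧ f'.norm ≤ m + C * F3 (m + m) := by
    intro m f hf hm x ho hv hl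
    obtain ⟨n, hn, e1⟩ := s.ov_eq ha ((hom f hf).trans ho.symm) hv
    have h1 : len L.π (s.w n) ≤ m + m := by
      have e2 : s.w n = (L.π f)⁻¹ * x := by rw [e1]; group
      have h2 := len_mul L.surj (L.π f)⁻¹ x
      rw [len_inv L.surj] at h2
      have h3 := len_le (π := L.π) f
      rw [e2]; omega
    have h2 : (s.Φ n).norm ≤ C * F3 (m + m) :=
      (hC n).trans (Nat.mul_le_mul_left _ ((H3 n hn).trans (hF3.mono h1)))
    refine ⟨f * s.Φ n, mul_mem hf ?_, ?_, ?_⟩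
    · rw [s.Ma a ha]; exact Subgroup.subset_closure (Or.inl ⟨n, hn, rfl⟩)
    · rw [map_mul, e1, ← s.j_π]; rfl
    · have := FreeGroup.norm_mul_le f (s.Φ n)
      omega
  have hB : Bd (fun m => (m + s.τ.norm) + C * F3 ((m + s.τ.norm) + (m + s.τ.norm)) + s.τ.norm) :=
    (hA.comp (Bd.id.add (Bd.const _))).add (Bd.const _)
  have hN : Bd (fun n => F1 n + F2 (F1 n) + n) := (hF1.add (hF2.comp hF1)).add Bd.id
  refine ⟨_, hA.comp ((Bd.it_bd hB).comp hN), fun f hf => ?_⟩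
  obtain ⟨n, hn⟩ : ∃ n, len L.π (L.π f) = n := ⟨_, rfl⟩
  rw [hn]
  have h0 : len L.π (1 : L.G) ≤ n := by rw [len_one]; exact Nat.zero_le _
  obtain ⟨d, x, e, hd, hx0, hxd, hw⟩ := H1 n (L.om a 1) (s.vx 1) (s.vx (L.π f))
    ⟨1, rfl, h0⟩ ⟨_, rfl, hn.le⟩ ⟨1, rfl, rfl⟩ ⟨_, hom f hf, rfl⟩
  have ht : len L.π s.t ≤ s.τ.norm := len_le _
  have key := Bd.it_induct
    (F := fun m => (m + s.τ.norm) + C * F3 ((m + s.τ.norm) + (m + s.τ.norm)) + s.τ.norm)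
    (fun i m => ∃ f' ∈ FS ({a}ᶜ : Set L.X), s.vx (L.π f') = x i ∧ f'.norm ≤ m) d
    (F1 n + F2 (F1 n) + n) (by omega) ?_ ?_ ?_ d le_rfl
  · obtain ⟨f', hf', h1, h2⟩ := key
    have h3 := Bd.le_it
      (fun m => (m + s.τ.norm) + C * F3 ((m + s.τ.norm) + (m + s.τ.norm)) + s.τ.norm)
      (F1 n + F2 (F1 n) + n)
    obtain ⟨f'', hf'', h4, h5⟩ := stepA _ f' hf' h2 (L.π f) (hom f hf) (h1.trans hxd) (by omega)
    rw [← L.inj_FS ha.adm hf'' hf h4]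
    exact h5
  · rintro i m m' hm ⟨f', h1, h2, h3⟩
    exact ⟨f', h1, h2, h3.trans hm⟩
  · exact ⟨1, one_mem _, by rw [map_one, hx0], by simp⟩
  · rintro i m hi hm ⟨f', h1, h2, h3⟩
    obtain ⟨hj, hs, hin⟩ := hw i hi
    obtain ⟨p, p1, p2, p3⟩ := (H2 (F1 n) (L.om a 1) 1 rfl
      (by rw [len_one]; exact Nat.zero_le _)).2 _ hs hin
    rw [← p2] at hj
    rcases hj with ⟨j1, j2⟩ | ⟨j1, j2⟩
    · obtain ⟨f'', g1, g2, g3⟩ := stepA (m + s.τ.norm) f' h1 (by omega) p p1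
        (h2.trans j1.symm) (by omega)
      refine ⟨f'' * s.τ, mul_mem g1 hτ, by rw [map_mul, g2]; exact j2, ?_⟩
      have := FreeGroup.norm_mul_le f'' s.τ
      omega
    · have hl := len_mul L.surj p s.t
      obtain ⟨f'', g1, g2, g3⟩ := stepA (m + s.τ.norm) f' h1 (by omega) (p * s.t)
        ((s.om_mul_t ha p).trans p1) (h2.trans j2.symm) (by omega)
      refine ⟨f'' * s.τ⁻¹, mul_mem g1 (inv_mem hτ), ?_, ?_⟩
      · rw [map_mul, map_inv, g2]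
        change s.vx (p * s.t * s.t⁻¹) = _
        rw [mul_inv_cancel_right]; exact j1
      · have := FreeGroup.norm_mul_le f'' s.τ⁻¹
        rw [FreeGroup.norm_inv_eq] at this
        omega

end St
end CPOR
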