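import Pool.Agent.P.MP_2cb329_al.MH

/-! The subtrees of the cosets of a Magnus subgroup. -/

set_option autoImplicit false

namespace CPOR
namespace St

variable {L L' : Lv} (s : St L L') {a : L.X} (ha : L.Occ a)
include ha

theorem om1_eq : MS L.π ({a}ᶜ : Set L.X) =
    Subgroup.closure ((s.M' (s.SN a) : Set L.G) ∪ {s.t}) := by
  rw [MS, s.Ma a ha, MonoidHom.map_closure, Set.image_union, Set.image_singleton]
  congr 2
  ext g
  rw [SetLike.mem_coe, mem_M']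
  constructor
  · rintro ⟨_, ⟨f, hf, rfl⟩, rfl⟩
    exact ⟨f, hf, s.j_π f⟩
  · rintro ⟨f, hf, rfl⟩
    exact ⟨_, ⟨f, hf, rfl⟩, (s.j_π f).symm⟩

theorem om1_pinch (ε : ℤˣ) {n : L'.G} (hn : n ∈ MS L'.π (s.SN a))
    (h : n ∈ (if ε = 1 then MS L'.π s.SB else MS L'.π s.SA)) :
    ∃ n' ∈ MS L'.π (s.SN a), s.t ^ (ε : ℤ) * s.j n = s.j n' * s.t ^ (ε : ℤ) := by
  obtain ⟨f, hf, rfl⟩ := mem_MS.1 hn
  rcases Int.units_eq_one_or ε with rfl | rfl
  · rw [if_pos rfl] at h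
    obtain ⟨f', hf', he⟩ := mem_MS.1 h
    have e : f' = f := L'.inj_FS (s.adm_B_N ha) (FS_mono Set.subset_union_left hf')
      (FS_mono Set.subset_union_right hf) he
    subst e
    obtain ⟨g, hg, rfl⟩ := s.sh_surj hf'
    refine ⟨L'.π g, mem_MS.2 ⟨g, (s.sh_mem_N hg a).1 hf, rfl⟩, ?_⟩
    have := s.conj_w hg
    change s.t ^ ((1 : ℤˣ) : ℤ) * s.w (s.sh g) = s.w g * s.t ^ ((1 : ℤˣ) : ℤ)
    rw [← this, Units.val_one, zpow_one]
    group
  · rw [if_neg (by decide)] at h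
    obtain ⟨f', hf', he⟩ := mem_MS.1 h
    have e : f' = f := L'.inj_FS (s.adm_A_N ha) (FS_mono Set.subset_union_left hf')
      (FS_mono Set.subset_union_right hf) he
    subst e
    refine ⟨L'.π (s.sh f'), mem_MS.2 ⟨_, (s.sh_mem_N hf' a).2 hf, rfl⟩, ?_⟩
    have := s.conj_w hf'
    change s.t ^ ((-1 : ℤˣ) : ℤ) * s.w f' = s.w (s.sh f') * s.t ^ ((-1 : ℤˣ) : ℤ)
    rw [← this, Units.val_neg, Units.val_one, zpow_neg_one]
    group

/-- Reduced forms of the elements of the Magnus subgroup. -/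
theorem om1_form {g : L.G} (hg : g ∈ MS L.π ({a}ᶜ : Set L.X)) :
    ∃ n ∈ MS L'.π (s.SN a), ∃ l : List (ℤˣ × L'.G), (∀ x ∈ l, x.2 ∈ MS L'.π (s.SN a)) ∧
      l.IsChain (fun a b => a.2 ∈ (if a.1 = 1 then MS L'.π s.SB else MS L'.π s.SA) → a.1 = b.1) ∧
      g = s.j n * (l.map fun x => L.π s.τ ^ (x.1 : ℤ) * s.j x.2).prod := by
  have stepN : ∀ x ∈ s.M' (s.SN a), ∀ g : L.G,
      (∃ n ∈ MS L'.π (s.SN a), ∃ l : List (ℤˣ × L'.G), (∀ x ∈ l, x.2 ∈ MS L'.π (s.SN a)) ∧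
      l.IsChain (fun a b => a.2 ∈ (if a.1 = 1 then MS L'.π s.SB else MS L'.π s.SA) → a.1 = b.1) ∧
      g = s.j n * (l.map fun x => L.π s.τ ^ (x.1 : ℤ) * s.j x.2).prod) →
      ∃ n ∈ MS L'.π (s.SN a), ∃ l : List (ℤˣ × L'.G), (∀ x ∈ l, x.2 ∈ MS L'.π (s.SN a)) ∧
      l.IsChain (fun a b => a.2 ∈ (if a.1 = 1 then MS L'.π s.SB else MS L'.π s.SA) → a.1 = b.1) ∧
      x * g = s.j n * (l.map fun x => L.π s.τ ^ (x.1 : ℤ) * s.j x.2).prod := by
    rintro x hx _ ⟨n, hn, l, h1, h2, rfl⟩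
    rw [M'_eq] at hx
    obtain ⟨m, hm, rfl⟩ := hx
    exact ⟨m * n, Subgroup.mul_mem _ hm hn, l, h1, h2, by rw [map_mul, mul_assoc]⟩
  have stepT : ∀ ε : ℤˣ, ∀ g : L.G,
      (∃ n ∈ MS L'.π (s.SN a), ∃ l : List (ℤˣ × L'.G), (∀ x ∈ l, x.2 ∈ MS L'.π (s.SN a)) ∧
      l.IsChain (fun a b => a.2 ∈ (if a.1 = 1 then MS L'.π s.SB else MS L'.π s.SA) → a.1 = b.1) ∧
      g = s.j n * (l.map fun x => L.π s.τ ^ (x.1 : ℤ) * s.j x.2).prod) →
      ∃ n ∈ MS L'.π (s.SN a), ∃ l : List (ℤˣ × L'.G), (∀ x ∈ l, x.2 ∈ MS L'.π (s.SN a)) ∧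
      l.IsChain (fun a b => a.2 ∈ (if a.1 = 1 then MS L'.π s.SB else MS L'.π s.SA) → a.1 = b.1) ∧
      s.t ^ (ε : ℤ) * g = s.j n * (l.map fun x => L.π s.τ ^ (x.1 : ℤ) * s.j x.2).prod := by
    rintro ε _ ⟨n, hn, l, h1, h2, rfl⟩
    by_cases hc : ((ε, n) :: l).IsChain
        (fun a b => a.2 ∈ (if a.1 = 1 then MS L'.π s.SB else MS L'.π s.SA) → a.1 = b.1)
    · refine ⟨1, Subgroup.one_mem _, (ε, n) :: l, ?_, hc, ?_⟩
      · intro x hx
        rcases List.mem_cons.1 hx with rfl | hx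
        · exact hn
        · exact h1 x hx
      · rw [map_one, one_mul, List.map_cons, List.prod_cons, mul_assoc]
        rfl
    · rcases l with _ | ⟨y, l⟩
      · exact absurd (List.isChain_singleton _) hc
      · rw [List.isChain_cons_cons, not_and_or] at hc
        have hc' := hc.resolve_right (not_not.2 h2)
        rw [Classical.not_imp] at hc'
        obtain ⟨n', hn', he⟩ := s.om1_pinch ha ε hn hc'.1
        have hy : (y.1 : ℤ) = -(ε : ℤ) := by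
          have := hc'.2
          rcases Int.units_eq_one_or ε with rfl | rfl <;>
            rcases Int.units_eq_one_or y.1 with e | e <;> simp_all
        refine ⟨n' * y.2, Subgroup.mul_mem _ hn' (h1 y List.mem_cons_self), l,
          fun x hx => h1 x (List.mem_cons_of_mem _ hx), h2.tail, ?_⟩
        rw [List.map_cons, List.prod_cons, ← mul_assoc, he, hy, map_mul]
        change s.j n' * s.t ^ (ε : ℤ) * (s.t ^ (-(ε : ℤ)) * _ * _) = _
        group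
  rw [s.om1_eq ha] at hg
  induction hg using Subgroup.closure_induction_left with
  | one => exact ⟨1, Subgroup.one_mem _, [], by simp, List.isChain_nil, by simp⟩
  | mul_left x hx y _ ih =>
    rcases hx with hx | rfl
    · exact stepN x hx y ih
    · simpa using stepT 1 y ih
  | inv_mul_cancel x hx y _ ih =>
    rcases hx with hx | rfl
    · exact stepN _ (Subgroup.inv_mem _ hx) y ih
    · simpa using stepT (-1) y ih

theorem t_mem_Ma : s.t ∈ MS L.π ({a}ᶜ : Set L.X) := by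
  rw [s.om1_eq ha]
  exact Subgroup.subset_closure (Or.inr rfl)

theorem N_le_Ma : s.M' (s.SN a) ≤ MS L.π ({a}ᶜ : Set L.X) := by
  rw [s.om1_eq ha]
  exact fun g hg => Subgroup.subset_closure (Or.inl hg)

theorem Ma_eq : MS L.π ({a}ᶜ : Set L.X) =
    Subgroup.closure ((s.M' (s.SN a) : Set L.G) ∪ {s.t}) := by
  exact s.om1_eq ha

theorem Ma_inf : MS L.π ({a}ᶜ : Set L.X) ⊓ s.j.range = s.M' (s.SN a) := by
  refine le_antisymm ?_ (le_inf (s.N_le_Ma ha) (s.M'_le _))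
  rintro g ⟨hg, hj⟩
  obtain ⟨n, hn, l, -, h2, rfl⟩ := s.om1_form ha hg
  have hl := s.britton l h2 ((s.j.range.mul_mem_cancel_left ⟨n, rfl⟩).1 hj)
  subst hl
  rw [M'_eq]
  exact ⟨n, hn, by simp⟩

theorem ov_eq {g g' : L.G} (h1 : L.om a g = L.om a g') (h2 : s.vx g = s.vx g') :
    ∃ f ∈ FS (s.SN a), g' = g * s.w f := by
  have h : g⁻¹ * g' ∈ s.M' (s.SN a) := by
    rw [← s.Ma_inf ha]
    exact ⟨QuotientGroup.eq.1 h1, QuotientGroup.eq.1 h2⟩
  obtain ⟨f, hf, he⟩ := s.mem_M'.1 h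
  exact ⟨f, hf, by rw [he, mul_inv_cancel_left]⟩

theorem oe_eq {g g' : L.G} (h1 : L.om a g = L.om a g') (h2 : s.ed g = s.ed g') :
    ∃ f ∈ FS (s.SA ∩ s.SN a), g' = g * s.w f := by
  obtain ⟨f, hf, he⟩ := s.ov_eq ha h1 (congrArg s.src h2)
  obtain ⟨f', hf', he'⟩ := s.ed_eq_iff.1 h2
  have e : f' = f := s.w_inj (s.adm_A_N ha) (FS_mono Set.subset_union_left hf')
    (FS_mono Set.subset_union_right hf) (mul_left_cancel (he'.symm.trans he))
  subst e
  exact ⟨f', by rw [← FS_inf]; exact ⟨hf', hf⟩, he⟩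

theorem om_mul_t (g : L.G) : L.om a (g * s.t) = L.om a g := by
  refine (QuotientGroup.eq.2 ?_).symm
  rw [inv_mul_cancel_left]
  exact s.t_mem_Ma ha

theorem om_mul_w (g : L.G) {f : FreeGroup L'.X} (hf : f ∈ FS (s.SN a)) :
    L.om a (g * s.w f) = L.om a g := by
  refine (QuotientGroup.eq.2 ?_).symm
  rw [inv_mul_cancel_left]
  exact s.N_le_Ma ha (s.mem_M'.2 ⟨f, hf, rfl⟩)

theorem InE.inc {ω : L.Om a} {e : s.Ed} (h : s.InE ω e) {v : s.Vt} (hv : s.Inc e v) :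
    s.InV ω v := by
  obtain ⟨g, rfl, rfl⟩ := h
  rcases hv with rfl | rfl
  · exact ⟨g, rfl, rfl⟩
  · exact ⟨g * s.t, s.om_mul_t ha g, rfl⟩

omit ha in
theorem InV.smul {ω : L.Om a} {v : s.Vt} (h : s.InV ω v) (g : L.G) : s.InV (g • ω) (g • v) := by
  obtain ⟨x, rfl, rfl⟩ := h
  exact ⟨g * x, rfl, rfl⟩

omit ha in
theorem InE.smul {ω : L.Om a} {e : s.Ed} (h : s.InE ω e) (g : L.G) : s.InE (g • ω) (g • e) := by
  obtain ⟨x, rfl, rfl⟩ := h
  exact ⟨g * x, rfl, rfl⟩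

theorem cvx_om (ω : L.Om a) : ZT.Cvx s.T {v | s.InV ω v} := by
  have hom : ∀ (g : L.G) {m : L.G}, m ∈ Subgroup.closure ((s.M' (s.SN a) : Set L.G) ∪ {s.t}) →
      L.om a (g * m) = L.om a g := by
    intro g m hm
    refine (QuotientGroup.eq.2 ?_).symm
    rwa [inv_mul_cancel_left, s.om1_eq ha]
  have key : ∀ m ∈ Subgroup.closure ((s.M' (s.SN a) : Set L.G) ∪ {s.t}), ∀ (g : L.G) y,
      ZT.Btw s.T (s.vx g) y (s.vx (g * m)) → s.InV (L.om a g) y := by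
    intro m hm
    induction hm using Subgroup.closure_induction with
    | mem x hx =>
      intro g y hy
      rcases hx with hx | rfl
      · obtain ⟨h, rfl⟩ := s.M'_le _ hx
        rw [← s.vx_eq_iff.2 ⟨h, rfl⟩] at hy
        exact ⟨g, rfl, hy.eq_of_self.symm⟩
      · rcases hy.eq_of_adj s.T_acyclic (s.adj_t g) with rfl | rfl
        · exact ⟨g, rfl, rfl⟩
        · exact ⟨g * s.t, s.om_mul_t ha g, rfl⟩
    | one =>
      intro g y hy
      rw [mul_one] at hy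
      exact ⟨g, rfl, hy.eq_of_self.symm⟩
    | mul x z hx _ ihx ihz =>
      intro g y hy
      rcases hy.or s.T_acyclic (s.T_reach _ (s.vx (g * x))) with h | h
      · exact ihx g y h
      · rw [← mul_assoc] at h
        rw [← hom g hx]
        exact ihz _ y h
    | inv x hx ih =>
      intro g y hy
      rw [← hom g (Subgroup.inv_mem _ hx)]
      refine ih _ y ?_
      rw [inv_mul_cancel_right]
      exact hy.symm
  rintro _ ⟨g, rfl, rfl⟩ _ ⟨g', hg', rfl⟩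
  refine ⟨s.T_reach _ _, fun y hy => key (g⁻¹ * g') ?_ g y ?_⟩
  · rw [← s.om1_eq ha]
    exact QuotientGroup.eq.1 hg'.symm
  · rwa [mul_inv_cancel_left]

theorem inE_of_join {ω : L.Om a} {e : s.Ed} {v w : s.Vt} (h : s.Join e v w) (hv : s.InV ω v)
    (hw : s.InV ω w) : s.InE ω e := by
  have key : ∀ {v w : s.Vt}, s.src e = v → s.tgt e = w → s.InV ω v → s.InV ω w → s.InE ω e := by
    rintro v w h1 h2 ⟨g, rfl, rfl⟩ ⟨g', hg', rfl⟩
    obtain ⟨x, rfl⟩ := QuotientGroup.mk_surjective e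
    obtain ⟨p, rfl⟩ := (s.vx_eq_iff (g := g) (g' := x)).1 h1.symm
    obtain ⟨q, rfl⟩ := (s.vx_eq_iff (g := g * s.j p * s.t) (g' := g')).1 h2
    obtain ⟨n, hn, l, -, hl, he⟩ := s.om1_form ha (QuotientGroup.eq.1 hg'.symm)
    have hm : p⁻¹ * n ∈ MS L'.π s.SA := by
      by_contra hm
      refine List.cons_ne_nil _ _ (s.britton ((-1, p⁻¹ * n) :: l) ?_ ⟨q, ?_⟩)
      · refine List.isChain_cons.2 ⟨fun y _ hy => ?_, hl⟩
        rw [if_neg (show (-1 : ℤˣ) ≠ 1 by decide)] at hy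
        exact absurd hy hm
      · rw [List.map_cons, List.prod_cons, map_mul, map_inv, mul_assoc, mul_assoc, ← he]
        change s.j q = s.t ^ ((-1 : ℤˣ) : ℤ) * _
        rw [Units.val_neg, Units.val_one, zpow_neg_one]
        group
    refine ⟨g * s.j n, ?_, ?_⟩
    · obtain ⟨f, hf, rfl⟩ := mem_MS.1 hn
      exact s.om_mul_w ha g hf
    · obtain ⟨f, hf, hf'⟩ := mem_MS.1 hm
      refine (s.ed_eq_iff.2 ⟨f, hf, ?_⟩).symm
      change _ = g * s.j p * s.j (L'.π f)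
      rw [hf', map_mul, map_inv]
      group
  rcases h with ⟨h1, h2⟩ | ⟨h1, h2⟩
  · exact key h1 h2 hv hw
  · exact key h1 h2 hw hv

/-- The stabiliser of `(ω, v)` is a conjugate of `N`. -/
theorem stab_ov (g : L.G) :
    MulAction.stabilizer L.G (L.om a g, s.vx g) = cj g (s.M' (s.SN a)) := by
  ext x
  rw [mem_cj, ← s.Ma_inf ha, Subgroup.mem_inf, ← mem_cj, ← mem_cj, ← stabilizer_coe,
    ← stabilizer_coe, MulAction.mem_stabilizer_iff, MulAction.mem_stabilizer_iff,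
    MulAction.mem_stabilizer_iff, Prod.smul_mk, Prod.mk.injEq]

end St
end CPOR
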