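import Pool.Agent.P.MP_2cb329_al.PR1

/-! Pairs of cosets: states, uniqueness of edges, ladders. -/

set_option autoImplicit false

namespace CPOR

section FBaux

variable {Y : Type} [DecidableEq Y]

theorem pr_fb_trans {x y z : FreeGroup Y} (h1 : FB 1 x y) (h2 : FB 1 y z) : FB 1 x z :=
  cay_btw.1 (ZT.Btw.trans_left (cay_btw.2 h2) (cay_btw.2 h1)).1

theorem pr_fb_cmp {x y z : FreeGroup Y} (h1 : FB 1 x z) (h2 : FB 1 y z) :
    FB 1 x y ∨ FB y x z := by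
  rcases le_total ((cay Y).dist 1 x) ((cay Y).dist 1 y) with h | h
  · exact Or.inl (cay_btw.1 (ZT.Btw.compare cay_acyclic (cay_btw.2 h1) (cay_btw.2 h2) h).1)
  · exact Or.inr (cay_btw.1 (ZT.Btw.compare cay_acyclic (cay_btw.2 h2) (cay_btw.2 h1) h).2)

theorem pr_fb_rev {x y z : FreeGroup Y} (h : FB x y z) : FB 1 (z⁻¹ * y) (z⁻¹ * x) := by
  have h1 : FB z y x := cay_btw.1 (cay_btw.2 h).symm
  have h2 := h1.mul_left z⁻¹
  rwa [inv_mul_cancel] at h2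

end FBaux

namespace St

variable {L L' : Lv} (s : St L L') {a b : L.X}

theorem pr_w_apply (f : FreeGroup L'.X) : s.w f = s.j (L'.π f) := rfl

theorem pr_vx_w (x : L.G) (f : FreeGroup L'.X) : s.vx (x * s.w f) = s.vx x :=
  (s.vx_eq_iff.2 ⟨L'.π f, rfl⟩).symm

variable (ha : L.Occ a) (hb : L.Occ b)
include ha hb

/-- A short element of `N_a α N_b` gives close points of the two cosets. -/
theorem pr_sig {C δ : ℕ} (hC : ∀ h, len L.π (s.j h) ≤ C * len L'.π h)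
    (hδ : C * L'.u.length ≤ δ) {ω : L.Om a} {ω' : L.Om b} {v : s.Vt} {x : L.G} {α : L'.G}
    (h1 : L.om a x = ω) (h2 : L.om b (x * s.j α) = ω') (hv : s.vx x = v) {n₁ n₂ : L'.G}
    (hn₁ : n₁ ∈ MS L'.π (s.SN a)) (hn₂ : n₂ ∈ MS L'.π (s.SN b))
    (hl : len L'.π (n₁⁻¹ * α * n₂) ≤ L'.u.length) : s.Sig δ ω ω' v := by
  obtain ⟨f₁, hf₁, rfl⟩ := mem_MS.1 hn₁
  obtain ⟨f₂, hf₂, rfl⟩ := mem_MS.1 hn₂
  refine ⟨x * s.w f₁, x * s.j α * s.w f₂, ?_, ?_, ?_, ?_, ?_⟩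
  · rw [s.om_mul_w ha x hf₁, h1]
  · rw [s.om_mul_w hb _ hf₂, h2]
  · rw [← hv]
    exact (s.vx_eq_iff.2 ⟨_, rfl⟩).symm
  · rw [← hv]
    exact (s.vx_eq_iff.2 ⟨α * L'.π f₂, by rw [map_mul, mul_assoc]; rfl⟩).symm
  · have : (x * s.w f₁)⁻¹ * (x * s.j α * s.w f₂) = s.j ((L'.π f₁)⁻¹ * α * L'.π f₂) := by
      rw [map_mul, map_mul, map_inv, pr_w_apply, pr_w_apply]
      group
    rw [this]
    exact (hC _).trans ((Nat.mul_le_mul_left _ hl).trans hδ)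

theorem pr_one {C δ : ℕ} (hC : ∀ h, len L.π (s.j h) ≤ C * len L'.π h)
    (hδ : C * L'.u.length ≤ δ) {S : Set L'.X} (hSa : L'.Adm (S ∪ s.SN a))
    (hSb : L'.Adm (S ∪ s.SN b)) {ω : L.Om a} {ω' : L.Om b} {v : s.Vt} (hs : ¬ s.Sig δ ω ω' v)
    {x y : L.G} {α α' : FreeGroup L'.X} (hα : α ∈ FS S) (hα' : α' ∈ FS S)
    (h1 : L.om a x = ω) (h2 : L.om b (x * s.w α) = ω') (h3 : L.om a y = ω)
    (h4 : L.om b (y * s.w α') = ω') (hx : s.vx x = v) (hy : s.vx y = v) :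
    ∃ f ∈ FS S, y = x * s.w f := by
  obtain ⟨n, hn, hyn⟩ := s.ov_eq ha (h1.trans h3.symm) (hx.trans hy.symm)
  have hv' : s.vx (x * s.w α) = s.vx (y * s.w α') := by
    rw [pr_vx_w, pr_vx_w, hx, hy]
  obtain ⟨n', hn', he⟩ := s.ov_eq hb (h2.trans h4.symm) hv'
  have he' : L'.π n * L'.π α' = L'.π α * L'.π n' := by
    apply s.j_inj
    rw [map_mul, map_mul, ← pr_w_apply, ← pr_w_apply, ← pr_w_apply, ← pr_w_apply]
    rw [hyn, mul_assoc, mul_assoc] at he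
    exact mul_left_cancel he
  rcases L'.q_one hSa hSb (mem_MS.2 ⟨n, hn, rfl⟩) (mem_MS.2 ⟨n', hn', rfl⟩)
    (mem_MS.2 ⟨α, hα, rfl⟩) (mem_MS.2 ⟨α', hα', rfl⟩) he' with h | ⟨n₁, hn₁, n₂, hn₂, hl⟩
  · obtain ⟨f, hf, hfn⟩ := mem_MS.1 h
    exact ⟨f, hf, by rw [hyn, pr_w_apply, pr_w_apply, hfn]⟩
  · exact absurd (s.pr_sig ha hb hC hδ h1 h2 hx hn₁ hn₂ hl) hs

theorem pr_two {C δ : ℕ} (hC : ∀ h, len L.π (s.j h) ≤ C * len L'.π h)
    (hδ : C * L'.u.length ≤ δ) {S : Set L'.X} (hSa : L'.Adm (S ∪ s.SN a))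
    (hSb : L'.Adm (S ∪ s.SN b)) {ω : L.Om a} {ω' : L.Om b} {v : s.Vt} (hs : ¬ s.Sig δ ω ω' v)
    {x : L.G} {α : FreeGroup L'.X} (hα : α ∈ FS S)
    (h1 : L.om a x = ω) (h2 : L.om b (x * s.w α) = ω') (hx : s.vx x = v) {g : L.G}
    (hg : g ∈ Q ω ω') (hgv : g • v = v) : g = 1 := by
  have hg' : g • ω = ω ∧ g • ω' = ω' := by
    have := MulAction.mem_stabilizer_iff.1 hg
    exact ⟨congrArg Prod.fst this, congrArg Prod.snd this⟩
  have hx' : s.vx (x * s.w α) = v := by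
    rw [pr_vx_w, hx]
  have e1 : L.om a x = L.om a (g * x) := by
    rw [h1]
    exact (by rw [← h1] at hg'; rw [← h1]; exact hg'.1.symm)
  have e2 : L.om b (x * s.w α) = L.om b (g * (x * s.w α)) := by
    have := hg'.2
    rw [← h2] at this
    exact this.symm
  have e3 : s.vx x = s.vx (g * x) := by
    rw [← s.smul_vx, hx, hgv]
  have e4 : s.vx (x * s.w α) = s.vx (g * (x * s.w α)) := by
    rw [← s.smul_vx g, hx', hgv]
  obtain ⟨n, hn, hgn⟩ := s.ov_eq ha e1 e3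
  obtain ⟨n', hn', hgn'⟩ := s.ov_eq hb e2 e4
  have hw : s.w n * s.w α = s.w α * s.w n' := by
    rw [← mul_assoc, hgn, mul_assoc, mul_assoc] at hgn'
    exact mul_left_cancel hgn'
  have he' : L'.π n * L'.π α = L'.π α * L'.π n' := by
    apply s.j_inj
    rw [map_mul, map_mul]
    exact hw
  rcases L'.q_one hSa hSb (mem_MS.2 ⟨n, hn, rfl⟩) (mem_MS.2 ⟨n', hn', rfl⟩)
    (mem_MS.2 ⟨α, hα, rfl⟩) (mem_MS.2 ⟨α, hα, rfl⟩) he' with h | ⟨n₁, hn₁, n₂, hn₂, hl⟩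
  · obtain ⟨f, hf, hfn⟩ := mem_MS.1 h
    have hfn' : f = n := L'.inj_FS hSa (FS_mono Set.subset_union_left hf)
      (FS_mono Set.subset_union_right hn) hfn
    subst hfn'
    by_cases hf1 : f = 1
    · rw [hf1, map_one, mul_one] at hgn
      exact mul_eq_right.1 hgn
    · exfalso
      have hc : α⁻¹ * f * α = n' := by
        refine L'.inj_FS hSb (FS_mono Set.subset_union_left
          (mul_mem (mul_mem (inv_mem hα) hf) hα)) (FS_mono Set.subset_union_right hn') ?_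
        rw [map_mul, map_mul, map_inv, mul_assoc, he']
        group
      obtain ⟨a', ha', b', hb', hab⟩ := ff_lemma hf1 hn (hc ▸ hn')
      refine hs (s.pr_sig ha hb hC hδ h1 h2 hx (n₁ := L'.π a') (n₂ := L'.π b'⁻¹)
        (mem_MS.2 ⟨a', ha', rfl⟩) (mem_MS.2 ⟨b'⁻¹, inv_mem hb', rfl⟩) ?_)
      have : (L'.π a')⁻¹ * L'.π α * L'.π b'⁻¹ = 1 := by
        rw [hab, map_mul, map_inv]
        group
      rw [this, len_one]
      exact Nat.zero_le _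
  · exact absurd (s.pr_sig ha hb hC hδ h1 h2 hx hn₁ hn₂ hl) hs

/-- The threshold `δ`: beyond it edges of the intersection are unique, vertex groups are trivial,
and rungs cross. -/
theorem exists_thr (D : s.AD) : ∃ δ, ∀ (ω : L.Om a) (ω' : L.Om b) (v : s.Vt), ¬ s.Sig δ ω ω' v →
    (∀ e e', s.InE ω e → s.InE ω' e → s.InE ω e' → s.InE ω' e' →
      ((s.src e = v ∧ s.src e' = v) ∨ (s.tgt e = v ∧ s.tgt e' = v)) → e = e') ∧
    (∀ e, s.InE ω e → s.InE ω' e → s.Inc e v → ∀ g ∈ Q ω ω', g • v = v → g = 1) ∧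
    ∀ e e' p p' r r', s.Br ω ω' e p r → s.Br ω ω' e' p' r' → s.tgt e = v → s.src e' = v →
      s.Arr D.Ξ e e' ∧ ∃ g g', FB 1 g r ∧ FB 1 g' r' ∧
        len L.π ((p * s.w g)⁻¹ * (p' * s.w g')) ≤ δ := by
  obtain ⟨C, hC⟩ := s.lip_j
  have hδ : C * L'.u.length ≤ len L.π s.t + C * L'.u.length := Nat.le_add_left _ _
  refine ⟨len L.π s.t + C * L'.u.length, fun ω ω' v hs => ⟨?_, ?_, ?_⟩⟩
  · rintro e e' ⟨x, hx1, hx2⟩ ⟨x', hx1', hx2'⟩ ⟨y, hy1, hy2⟩ ⟨y', hy1', hy2'⟩ hcase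
    subst hx2
    subst hy2
    rcases hcase with ⟨c1, c2⟩ | ⟨c1, c2⟩
    · obtain ⟨α, hα, rfl⟩ := s.ed_eq_iff.1 hx2'.symm
      obtain ⟨α', hα', rfl⟩ := s.ed_eq_iff.1 hy2'.symm
      exact s.ed_eq_iff.2 (s.pr_one ha hb hC hδ (s.adm_A_N ha) (s.adm_A_N hb) hs hα hα'
        hx1 hx1' hy1 hy1' c1 c2)
    · obtain ⟨α, hα, e1⟩ := s.ed_eq_iff_B.1 hx2'.symm
      obtain ⟨α', hα', e2⟩ := s.ed_eq_iff_B.1 hy2'.symm
      refine s.ed_eq_iff_B.2 (s.pr_one ha hb hC hδ (s.adm_B_N ha) (s.adm_B_N hb) hs hα hα'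
        ?_ ?_ ?_ ?_ c1 c2)
      · rw [s.om_mul_t ha, hx1]
      · rw [← e1, s.om_mul_t hb, hx1']
      · rw [s.om_mul_t ha, hy1]
      · rw [← e2, s.om_mul_t hb, hy1']
  · rintro e ⟨x, hx1, hx2⟩ ⟨x', hx1', hx2'⟩ hinc g hg hgv
    subst hx2
    rcases hinc with c | c
    · obtain ⟨α, hα, rfl⟩ := s.ed_eq_iff.1 hx2'.symm
      exact s.pr_two ha hb hC hδ (s.adm_A_N ha) (s.adm_A_N hb) hs hα hx1 hx1' c hg hgv
    · obtain ⟨α, hα, e1⟩ := s.ed_eq_iff_B.1 hx2'.symm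
      refine s.pr_two ha hb hC hδ (s.adm_B_N ha) (s.adm_B_N hb) hs hα ?_ ?_ c hg hgv
      · rw [s.om_mul_t ha, hx1]
      · rw [← e1, s.om_mul_t hb, hx1']
  · rintro e e' p p' r r' ⟨h1, h2, h3, h4, -, -⟩ ⟨h1', h2', h3', h4', -, -⟩ c1 c2
    subst h2
    subst h2'
    have c1' : s.vx (p * s.t) = v := c1
    have c2' : s.vx p' = v := c2
    have o1 : L.om a (p * s.t) = ω := by rw [s.om_mul_t ha, h1]
    have hsh : p * s.w r * s.t = p * s.t * s.w (s.sh r) := by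
      rw [← s.conj_w h3]
      group
    have o2 : L.om b (p * s.t * s.w (s.sh r)) = ω' := by rw [← hsh, s.om_mul_t hb, h4]
    obtain ⟨n, hn, hp'⟩ := s.ov_eq ha (o1.trans h1'.symm) (c1'.trans c2'.symm)
    have hv' : s.vx (p * s.t * s.w (s.sh r)) = s.vx (p' * s.w r') := by
      rw [pr_vx_w, pr_vx_w, c1', c2']
    obtain ⟨n', hn', he⟩ := s.ov_eq hb (o2.trans h4'.symm) hv'
    have he' : L'.π (s.sh r) * L'.π n' = L'.π n * L'.π r' := by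
      apply s.j_inj
      rw [map_mul, map_mul, ← pr_w_apply, ← pr_w_apply, ← pr_w_apply, ← pr_w_apply]
      rw [hp', mul_assoc (p * s.t), mul_assoc (p * s.t)] at he
      exact (mul_left_cancel he).symm
    rcases L'.q_two (s.adm_A_N ha) (s.adm_A_N hb) (s.adm_B_N ha) (s.adm_B_N hb)
      (mem_MS.2 ⟨n, hn, rfl⟩) (mem_MS.2 ⟨n', hn', rfl⟩) (s.sh_mem h3) h3' he' with
      ⟨n₁, hn₁, n₂, hn₂, hl⟩ | ⟨gb, ga, hgb, hga, hl⟩
    · exact absurd (s.pr_sig ha hb hC hδ o1 o2 c1' hn₁ hn₂ hl) hs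
    · obtain ⟨g, hg, rfl⟩ := s.sh_fb' h3 hgb
      have hgA : g ∈ FS s.SA := qd_fb_mem h3 hg
      have hgaA : ga ∈ FS s.SA := qd_fb_mem h3' hga
      have key : p' * s.w ga =
          p * s.w g * s.t * s.j ((L'.π (s.sh g))⁻¹ * L'.π n * L'.π ga) := by
        rw [map_mul, map_mul, map_inv, ← pr_w_apply, ← pr_w_apply, ← pr_w_apply, hp',
          ← s.conj_w hgA]
        group
      have harr := s.arr_of_mem (D.ball _ hl) key
      rw [← s.ed_eq_iff.2 ⟨g, hgA, rfl⟩, ← s.ed_eq_iff.2 ⟨ga, hgaA, rfl⟩] at harr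
      refine ⟨harr, g, ga, hg, hga, ?_⟩
      have : (p * s.w g)⁻¹ * (p' * s.w ga) =
          s.t * s.j ((L'.π (s.sh g))⁻¹ * L'.π n * L'.π ga) := by
        rw [key]
        group
      rw [this]
      exact (len_mul L.surj _ _).trans
        (Nat.add_le_add_left ((hC _).trans (Nat.mul_le_mul_left _ hl)) _)

/-- (LAD) one step of a ladder. -/
theorem ladder (hH : L'.Cl) (δ : ℕ) : ∃ δ', ∀ (ω : L.Om a) (ω' : L.Om b) (e e' : s.Ed)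
    (p p' : L.G) (r r' : FreeGroup L'.X), s.Br ω ω' e p r → s.Br ω ω' e' p' r' →
    s.tgt e = s.src e' →
    (∃ g g', FB 1 g r ∧ FB 1 g' r' ∧ len L.π ((p * s.w g)⁻¹ * (p' * s.w g')) ≤ δ) →
    len L.π (p⁻¹ * p') ≤ δ' ∧ len L.π ((p * s.w r)⁻¹ * (p' * s.w r')) ≤ δ' ∧
      ∀ g, FB 1 g r → ∃ g', FB 1 g' r' ∧ len L.π ((p * s.w g)⁻¹ * (p' * s.w g')) ≤ δ' := by
  obtain ⟨Fa, -, hFa⟩ := s.tri_G hH ha
  obtain ⟨Fb, -, hFb⟩ := s.tri_G hH hb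
  refine ⟨Fa δ + Fb δ, ?_⟩
  rintro ω ω' e e' p p' r r' ⟨h1, h2, h3, h4, h5, h6⟩ ⟨h1', h2', h3', h4', h5', h6'⟩ c
    ⟨g, g', hg, hg', hl⟩
  subst h2
  subst h2'
  have hgA : g ∈ FS s.SA := qd_fb_mem h3 hg
  have hgA' : g' ∈ FS s.SA := qd_fb_mem h3' hg'
  obtain ⟨a1, a2⟩ := hFa δ p p' g g' (h1.trans h1'.symm) c hgA hgA' (h5.of_fb hg) (h5'.of_fb hg')
    hl
  have hρ : FB 1 (r⁻¹ * g) r⁻¹ := by simpa using pr_fb_rev hg
  have hρ' : FB 1 (r'⁻¹ * g') r'⁻¹ := by simpa using pr_fb_rev hg'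
  have c' : s.tgt (s.ed (p * s.w r)) = s.src (s.ed (p' * s.w r')) := by
    rw [← s.ed_eq_iff.2 ⟨r, h3, rfl⟩, ← s.ed_eq_iff.2 ⟨r', h3', rfl⟩]
    exact c
  have hcan : ∀ (x : L.G) (u z : FreeGroup L'.X), x * s.w u * s.w (u⁻¹ * z) = x * s.w z := by
    intro x u z
    rw [map_mul, map_inv]
    group
  obtain ⟨b1, b2⟩ := hFb δ (p * s.w r) (p' * s.w r') (r⁻¹ * g) (r'⁻¹ * g') (h4.trans h4'.symm) c'
    (mul_mem (inv_mem h3) hgA) (mul_mem (inv_mem h3') hgA') (h6.of_fb hρ) (h6'.of_fb hρ')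
    (by rw [hcan, hcan]; exact hl)
  refine ⟨a1.trans (Nat.le_add_right _ _), b1.trans (Nat.le_add_left _ _), fun g₁ hg₁ => ?_⟩
  rcases pr_fb_cmp hg₁ hg with h | h
  · obtain ⟨g₁', k1, k2⟩ := a2 g₁ h
    exact ⟨g₁', pr_fb_trans k1 hg', k2.trans (Nat.le_add_right _ _)⟩
  · obtain ⟨h', k1, k2⟩ := b2 (r⁻¹ * g₁) (pr_fb_rev h)
    refine ⟨r' * h', qd_fb_inv (pr_fb_trans k1 hρ'), ?_⟩
    rw [hcan] at k2
    rw [map_mul, ← mul_assoc p']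
    exact k2.trans (Nat.le_add_left _ _)

end St
end CPOR
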