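import Pool.Agent.P.MP_2cb329_al.CIS

/-! Pairs of cosets: states, uniqueness of edges, ladders. -/

set_option autoImplicit false

namespace CPOR
namespace St

variable {L L' : Lv} (s : St L L') {a b : L.X}

theorem pr1_smul_om (g x : L.G) : g • L.om a x = L.om a (g * x) := rfl

theorem pr1_memQ {ω : L.Om a} {ω' : L.Om b} {g : L.G} (h : g • ω = ω) (h' : g • ω' = ω') :
    g ∈ Q ω ω' := by
  rw [MulAction.mem_stabilizer_iff, Prod.smul_mk, h, h']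

theorem pr1_ofQ {ω : L.Om a} {ω' : L.Om b} {g : L.G} (h : g ∈ Q ω ω') :
    g • ω = ω ∧ g • ω' = ω' :=
  ⟨congrArg Prod.fst (MulAction.mem_stabilizer_iff.1 h),
    congrArg Prod.snd (MulAction.mem_stabilizer_iff.1 h)⟩

theorem pr1_smOV_mono {n m : ℕ} {ω : L.Om a} {v : s.Vt} (h : s.SmOV n ω v) (hnm : n ≤ m) :
    s.SmOV m ω v := by
  obtain ⟨g, h1, h2, h3⟩ := h
  exact ⟨g, h1, h2, h3.trans hnm⟩

theorem pr1_smOV_of_smOE (ha : L.Occ a) {n : ℕ} {ω : L.Om a} {e : s.Ed} {v : s.Vt}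
    (h : s.SmOE n ω e) (hv : s.Inc e v) : s.SmOV (n + len L.π s.t) ω v := by
  obtain ⟨g, h1, rfl, h3⟩ := h
  rcases hv with hv | hv
  · exact ⟨g, h1, hv, by omega⟩
  · exact ⟨g * s.t, by rw [s.om_mul_t ha, h1], hv,
      (len_mul L.surj _ _).trans (Nat.add_le_add_right h3 _)⟩

/-- The local lemma inside one vertex, for a coset of the subgroup on `S`. -/
theorem pr1_loc (ha : L.Occ a) (hb : L.Occ b) (hH : L'.Cl) {S : Set L'.X}
    (hS : L'.Adm (S ∪ s.SN a)) : ∃ F, Bd F ∧ ∀ (n : ℕ) (g g' p : L.G) (f : FreeGroup L'.X),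
    len L.π (g⁻¹ * g') ≤ n → s.vx g = s.vx g' → s.vx g = s.vx p → L.om a p = L.om a g →
    f ∈ FS S → L.om b (p * s.w f) = L.om b g' →
    ∃ κ ∈ FS S, ∃ α ∈ FS S, ∃ ν ∈ FS (s.SN a), κ ∈ FS (s.SN a) ∧ len L.π (s.w α) ≤ F n ∧
      len L.π (s.w ν) ≤ F n ∧ L.om b (p * s.w κ * s.w α) = L.om b g' ∧
      L.om b (g * s.w ν * s.w α) = L.om b g' := by
  obtain ⟨C, hC⟩ := s.lip_j
  obtain ⟨FH, bH, hFH⟩ := s.memH hH
  obtain ⟨Fl, bl, hFl⟩ := Lv.lf_H hH hS (s.adm_N hb)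
  refine ⟨fun n => C * Fl (FH n), (Bd.const C).mul (bl.comp bH), ?_⟩
  intro n g g' p f hl hv hp ho hf ho'
  obtain ⟨h, rfl⟩ := s.vx_eq_iff.1 hv
  obtain ⟨ν, hν, rfl⟩ := s.ov_eq ha ho.symm hp
  have hv2 : s.vx (g * s.j h) = s.vx (g * s.w ν * s.w f) := by
    refine s.vx_eq_iff.2 ⟨h⁻¹ * (L'.π ν * L'.π f), ?_⟩
    simp only [w, MonoidHom.comp_apply, map_mul, map_inv]
    group
  obtain ⟨μ, hμ, he⟩ := s.ov_eq hb ho'.symm hv2
  have he2 : h⁻¹ * (L'.π ν * L'.π f) = L'.π μ := by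
    apply s.j_inj
    simp only [w, MonoidHom.comp_apply] at he
    rw [map_mul, map_mul, map_inv]
    apply mul_left_cancel (a := g * s.j h)
    rw [← he]
    group
  rw [inv_mul_cancel_left] at hl
  obtain ⟨κ, ⟨κ', hκ, rfl⟩, α, ⟨α', hα, rfl⟩, ν', ⟨ν'', hν', rfl⟩, l1, l2, ⟨μ1, m1, e1⟩,
    ⟨μ2, m2, e2⟩⟩ := hFl (FH n) h (L'.π ν) (L'.π f) ((hFH h).trans (bH.mono hl)) ⟨ν, hν, rfl⟩
      ⟨f, hf, rfl⟩ ⟨μ, hμ, he2.symm⟩
  rw [← FS_inf] at hκ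
  refine ⟨κ', hκ.1, α', hα, ν'', hν', hκ.2, (hC _).trans (Nat.mul_le_mul_left _ l1),
    (hC _).trans (Nat.mul_le_mul_left _ l2), ?_, ?_⟩
  · rw [← s.om_mul_w hb (g * s.j h) m1]
    congr 1
    simp only [w, MonoidHom.comp_apply]
    rw [e1, map_mul, map_mul, map_mul, map_inv]
    group
  · rw [← s.om_mul_w hb (g * s.j h) m2]
    congr 1
    simp only [w, MonoidHom.comp_apply]
    rw [e2, map_mul, map_mul, map_inv]
    group

/-- The local lemma for an edge at a vertex. -/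
theorem pr1_core (ha : L.Occ a) (hb : L.Occ b) (hH : L'.Cl) : ∃ F, Bd F ∧
    ∀ (n : ℕ) (g g' : L.G) (v : s.Vt) (e : s.Ed), len L.π (g⁻¹ * g') ≤ n → s.vx g = v →
    s.vx g' = v → s.Inc e v → s.InE (L.om a g) e → s.InE (L.om b g') e →
    ∃ τ x α ν : L.G, len L.π τ ≤ len L.π s.t ∧ s.ed (x * τ⁻¹) = e ∧ s.ed (x * α * τ⁻¹) = e ∧
      L.om a (x * τ⁻¹) = L.om a g ∧ L.om b (x * α * τ⁻¹) = L.om b g' ∧ len L.π α ≤ F n ∧
      len L.π ν ≤ F n ∧ s.vx x = v ∧ L.om a (g * ν * τ⁻¹) = L.om a g ∧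
      L.om b (g * ν * α * τ⁻¹) = L.om b g' ∧ s.vx (g * ν) = v := by
  obtain ⟨FA, bA, hA⟩ := s.pr1_loc ha hb hH (s.adm_A_N ha)
  obtain ⟨FB', bB, hB⟩ := s.pr1_loc ha hb hH (s.adm_B_N ha)
  have hw : ∀ (y : L.G) (k : FreeGroup L'.X), s.vx (y * s.w k) = s.vx y := fun y k =>
    (s.vx_eq_iff.2 ⟨L'.π k, rfl⟩).symm
  refine ⟨fun n => FA n + FB' n, bA.add bB, ?_⟩
  rintro n g g' v e hl rfl hv' hi ⟨p, o1, rfl⟩ ⟨p', o2, hp'⟩
  rcases hi with hi | hi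
  · obtain ⟨f, hf, rfl⟩ := s.ed_eq_iff.1 hp'.symm
    obtain ⟨κ, k1, α, k2, ν, k3, k4, k5, k6, k7, k8⟩ :=
      hA n g g' p f hl hv'.symm hi.symm o1 hf o2
    refine ⟨1, p * s.w κ, s.w α, s.w ν, by rw [len_one]; exact Nat.zero_le _, ?_, ?_, ?_, ?_,
      k5.trans (Nat.le_add_right _ _), k6.trans (Nat.le_add_right _ _), (hw _ _).trans hi, ?_, ?_,
      hw _ _⟩
    · rw [inv_one, mul_one]; exact (s.ed_eq_iff.2 ⟨κ, k1, rfl⟩).symm
    · rw [inv_one, mul_one]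
      exact (s.ed_eq_iff.2 ⟨κ * α, mul_mem k1 k2, by rw [map_mul, mul_assoc]⟩).symm
    · rw [inv_one, mul_one, s.om_mul_w ha _ k4, o1]
    · rw [inv_one, mul_one, k7]
    · rw [inv_one, mul_one, s.om_mul_w ha _ k3]
    · rw [inv_one, mul_one, k8]
  · obtain ⟨f, hf, he⟩ := s.ed_eq_iff_B.1 hp'.symm
    have ta : ∀ y, L.om a (y * s.t⁻¹) = L.om a y := fun y => by
      rw [← s.om_mul_t ha, inv_mul_cancel_right]
    have tb : ∀ y, L.om b (y * s.t⁻¹) = L.om b y := fun y => by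
      rw [← s.om_mul_t hb, inv_mul_cancel_right]
    obtain ⟨κ, k1, α, k2, ν, k3, k4, k5, k6, k7, k8⟩ :=
      hB n g g' (p * s.t) f hl hv'.symm hi.symm (by rw [s.om_mul_t ha, o1]) hf
        (by rw [← he, s.om_mul_t hb, o2])
    refine ⟨s.t, p * s.t * s.w κ, s.w α, s.w ν, le_rfl, ?_, ?_, ?_, ?_,
      k5.trans (Nat.le_add_left _ _), k6.trans (Nat.le_add_left _ _), (hw _ _).trans hi, ?_, ?_,
      hw _ _⟩
    · exact (s.ed_eq_iff_B.2 ⟨κ, k1, by rw [inv_mul_cancel_right]⟩).symm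
    · exact (s.ed_eq_iff_B.2 ⟨κ * α, mul_mem k1 k2, by
        rw [inv_mul_cancel_right, map_mul, mul_assoc _ (s.w κ)]⟩).symm
    · rw [ta, s.om_mul_w ha _ k4, s.om_mul_t ha, o1]
    · rw [tb, k7]
    · rw [ta, s.om_mul_w ha _ k3]
    · rw [tb, k8]

theorem Sig.mono {n m : ℕ} {ω : L.Om a} {ω' : L.Om b} {v : s.Vt} (h : s.Sig n ω ω' v)
    (hnm : n ≤ m) : s.Sig m ω ω' v := by
  obtain ⟨g, g', h1, h2, h3, h4, h5⟩ := h
  exact ⟨g, g', h1, h2, h3, h4, h5.trans hnm⟩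

theorem Sig.smul {n : ℕ} {ω : L.Om a} {ω' : L.Om b} {v : s.Vt} (h : s.Sig n ω ω' v) (g : L.G) :
    s.Sig n (g • ω) (g • ω') (g • v) := by
  obtain ⟨x, x', rfl, rfl, h3, h4, h5⟩ := h
  refine ⟨g * x, g * x', rfl, rfl, by rw [← h3]; rfl, by rw [← h4]; rfl, ?_⟩
  rwa [show (g * x)⁻¹ * (g * x') = x⁻¹ * x' by group]

theorem sig_of_small {n : ℕ} {ω : L.Om a} {ω' : L.Om b} {v : s.Vt} (h : s.SmOV n ω v)
    (h' : s.SmOV n ω' v) : s.Sig (2 * n) ω ω' v := by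
  obtain ⟨g, h1, h2, h3⟩ := h
  obtain ⟨g', k1, k2, k3⟩ := h'
  refine ⟨g, g', h1, k1, h2, k2, ?_⟩
  have := len_mul L.surj g⁻¹ g'
  rw [len_inv L.surj] at this
  omega

/-- Few orbits of vertices with a small state. -/
theorem sig_count : ∃ F, Bd F ∧ ∀ (n k : ℕ) (ω : L.Om a) (ω' : L.Om b) (v : Fin k → s.Vt),
    (∀ i, s.Sig n ω ω' (v i)) → (∀ i j, (∃ g ∈ Q ω ω', g • v i = v j) → i = j) → k ≤ F n := by
  refine ⟨fun n => (2 * Fintype.card L.X + 1) ^ n, (Bd.const _).pow Bd.id, ?_⟩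
  intro n k ω ω' v hv hne
  obtain ⟨B, hB, hc⟩ := len_ball L.surj n
  choose g g' h1 h2 h3 h4 h5 using hv
  have := Finset.card_le_card_of_injOn (s := Finset.univ) (t := B) (fun i => (g i)⁻¹ * g' i)
    (fun i _ => (hB _).2 (h5 i)) (fun i _ j _ hij => by
      have hij' : (g i)⁻¹ * g' i = (g j)⁻¹ * g' j := hij
      have e1 : g j * (g i)⁻¹ * g i = g j := by group
      have e2 : g j * (g i)⁻¹ * g' i = g' j := by rw [mul_assoc, hij']; group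
      refine hne i j ⟨g j * (g i)⁻¹, ?_, ?_⟩
      · refine pr1_memQ ?_ ?_
        · conv_lhs => rw [← h1 i]
          rw [pr1_smul_om, e1, h1]
        · conv_lhs => rw [← h2 i]
          rw [pr1_smul_om, e2, h2]
      · rw [← h3 i, s.smul_vx, e1, h3])
  rw [Finset.card_univ, Fintype.card_fin] at this
  exact this.trans hc

variable (ha : L.Occ a) (hb : L.Occ b)
include ha hb

theorem sig_of_rho : ∃ c, ∀ (n : ℕ) (ω : L.Om a) (ω' : L.Om b) (e : s.Ed) (v : s.Vt),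
    s.Rho n ω ω' e → s.Inc e v → s.Sig (n + c) ω ω' v := by
  refine ⟨2 * len L.π s.t, ?_⟩
  rintro n ω ω' e v ⟨g, g', h1, h2, h3, h4, h5⟩ (hv | hv)
  · exact ⟨g, g', h1, h2, by rw [← hv, ← h3]; rfl, by rw [← hv, ← h4]; rfl, by omega⟩
  · refine ⟨g * s.t, g' * s.t, by rw [s.om_mul_t ha, h1], by rw [s.om_mul_t hb, h2],
      by rw [← hv, ← h3]; rfl, by rw [← hv, ← h4]; rfl, ?_⟩
    have := len_mul3 L.surj s.t⁻¹ (g⁻¹ * g') s.t
    rw [len_inv L.surj] at this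
    rw [show (g * s.t)⁻¹ * (g' * s.t) = s.t⁻¹ * (g⁻¹ * g') * s.t by group]
    omega

theorem exists_br {ω : L.Om a} {ω' : L.Om b} {e : s.Ed} (h : s.InE ω e) (h' : s.InE ω' e) :
    ∃ p r, s.Br ω ω' e p r := by
  obtain ⟨g, rfl, rfl⟩ := h
  obtain ⟨g', rfl, h2⟩ := h'
  obtain ⟨f, hf, rfl⟩ := s.ed_eq_iff.1 h2.symm
  obtain ⟨p, hp, q, hq, r, he, o1, o2, hn⟩ := exists_bridge (s.SN a) (s.SN b) f
  have n1 := FreeGroup.norm_mul_le p r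
  have n2 := FreeGroup.norm_mul_le r q
  have n3 := FreeGroup.norm_mul_le p (r * q)
  have n4 := FreeGroup.norm_mul_le (p * r) q
  rw [← mul_assoc, ← he] at n3
  rw [← he] at n4
  have f1 : FB 1 p f := by
    unfold FB
    rw [inv_one, one_mul, one_mul, show p⁻¹ * f = r * q by rw [he]; group]
    omega
  have f2 : FB 1 (p * r) f := by
    unfold FB
    rw [inv_one, one_mul, one_mul, show (p * r)⁻¹ * f = q by rw [he]; group]
    omega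
  have m1 : p ∈ FS s.SA := by simpa using f1.mem_FS (S := s.SA) (by simpa using hf)
  have m2 : p * r ∈ FS s.SA := by simpa using f2.mem_FS (S := s.SA) (by simpa using hf)
  have m3 : r ∈ FS s.SA := by simpa using (FS s.SA).mul_mem ((FS s.SA).inv_mem m1) m2
  refine ⟨g * s.w p, r, s.om_mul_w ha _ hp, (s.ed_eq_iff.2 ⟨p, m1, rfl⟩).symm, m3, ?_, o1, o2⟩
  rw [← s.om_mul_w hb _ hq, he, map_mul, map_mul]
  simp only [mul_assoc]

/-- (LF) -/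
theorem lf_G (hH : L'.Cl) : ∃ F, Bd F ∧ ∀ (n : ℕ) (ω : L.Om a) (ω' : L.Om b) (v : s.Vt)
    (e : s.Ed), s.Sig n ω ω' v → s.Inc e v → s.InE ω e → s.InE ω' e → s.Rho (F n) ω ω' e := by
  obtain ⟨F, hF, h⟩ := s.pr1_core ha hb hH
  refine ⟨fun n => F n + 2 * len L.π s.t, hF.add (Bd.const _), ?_⟩
  rintro n ω ω' v e ⟨g, g', rfl, rfl, h3, h4, h5⟩ hv he he'
  obtain ⟨τ, x, α, ν, k1, k2, k3, k4, k5, k6, k7, -⟩ := h n g g' v e h5 h3 h4 hv he he'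
  refine ⟨x * τ⁻¹, x * α * τ⁻¹, k4, k5, k2, k3, ?_⟩
  have := len_mul3 L.surj τ α τ⁻¹
  rw [len_inv L.surj] at this
  rw [show (x * τ⁻¹)⁻¹ * (x * α * τ⁻¹) = τ * α * τ⁻¹ by group]
  show _ ≤ F n + 2 * len L.π s.t
  omega

/-- The bridge is not longer than any other rung. -/
theorem br_len (hH : L'.Cl) : ∃ F, Bd F ∧ ∀ (n : ℕ) (ω : L.Om a) (ω' : L.Om b) (e : s.Ed)
    (p : L.G) (r : FreeGroup L'.X), s.Br ω ω' e p r → s.Rho n ω ω' e → r.norm ≤ F n := by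
  obtain ⟨F, hF, h⟩ := s.memW hH s.adm_A
  refine ⟨F, hF, ?_⟩
  rintro n ω ω' e p r ⟨rfl, rfl, hr, rfl, o1, o2⟩ ⟨g, g', h1, h2, h3, h4, h5⟩
  obtain ⟨c, hc, rfl⟩ := s.oe_eq ha h1.symm h3.symm
  have h6 : s.ed (p * s.w r) = s.ed g' := by
    rw [h4]; exact (s.ed_eq_iff.2 ⟨r, hr, rfl⟩).symm
  obtain ⟨c', hc', rfl⟩ := s.oe_eq hb h2.symm h6
  rw [← FS_inf] at hc hc'
  have e1 : (p * s.w c)⁻¹ * (p * s.w r * s.w c') = s.w (c⁻¹ * (r * c')) := by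
    rw [map_mul, map_mul, map_inv]; group
  rw [e1] at h5
  have h7 := (h _ ((FS s.SA).mul_mem ((FS s.SA).inv_mem hc.1)
    ((FS s.SA).mul_mem hr hc'.1))).trans (hF.mono h5)
  refine le_trans ?_ h7
  by_cases h0 : r = 1
  · rw [h0]; simp
  have b1 := o1 c hc.2
  have b2 := cay_btw.1 (cay_btw.2 ((o2 c' hc'.2).mul_left r)).symm
  rw [mul_inv_cancel, mul_one] at b2
  have b3 := cay_btw.1 ((cay_btw.2 b1).glue cay_acyclic (cay_btw.2 b2) (Ne.symm h0)).2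
  unfold FB at b1 b3
  rw [inv_one, one_mul] at b1
  omega

/-- (STEP) -/
theorem step_G (hH : L'.Cl) : ∃ F, Bd F ∧ ∀ (n : ℕ) (ω : L.Om a) (ω' : L.Om b) (v : s.Vt)
    (e : s.Ed), s.SmOV n ω v → s.SmOV n ω' v → s.Inc e v → s.InE ω e → s.InE ω' e →
    ∃ ι ∈ Q ω ω', ι • v = v ∧ s.SmOE (F n) ω (ι • e) ∧ s.SmOE (F n) ω' (ι • e) := by
  obtain ⟨F, hF, h⟩ := s.pr1_core ha hb hH
  refine ⟨fun n => n + F (2 * n) + F (2 * n) + len L.π s.t,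
    ((Bd.id.add (hF.comp ((Bd.const 2).mul Bd.id))).add
      (hF.comp ((Bd.const 2).mul Bd.id))).add (Bd.const _), ?_⟩
  rintro n ω ω' v e ⟨g, rfl, h3, l1⟩ ⟨g', rfl, h4, l2⟩ hv he he'
  have h5 : len L.π (g⁻¹ * g') ≤ 2 * n := by
    have := len_mul L.surj g⁻¹ g'
    rw [len_inv L.surj] at this
    omega
  obtain ⟨τ, x, α, ν, k1, k2, k3, k4, k5, k6, k7, k8, k9, k10, k11⟩ :=
    h _ g g' v e h5 h3 h4 hv he he'
  have e1 : g * ν * x⁻¹ * (x * τ⁻¹) = g * ν * τ⁻¹ := by group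
  have e2 : g * ν * x⁻¹ * (x * α * τ⁻¹) = g * ν * α * τ⁻¹ := by group
  have q1 : (g * ν * x⁻¹) • L.om a g = L.om a g := by
    conv_lhs => rw [← k4]
    rw [pr1_smul_om, e1, k9]
  have q2 : (g * ν * x⁻¹) • L.om b g' = L.om b g' := by
    conv_lhs => rw [← k5]
    rw [pr1_smul_om, e2, k10]
  have a1 := len_mul3 L.surj g ν τ⁻¹
  have a2 := len_mul3 L.surj (g * ν) α τ⁻¹
  have a3 := len_mul L.surj g ν
  rw [len_inv L.surj] at a1 a2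
  refine ⟨g * ν * x⁻¹, pr1_memQ q1 q2, ?_, ⟨g * ν * τ⁻¹, k9, ?_, ?_⟩,
    ⟨g * ν * α * τ⁻¹, k10, ?_, ?_⟩⟩
  · conv_lhs => rw [← k8]
    rw [s.smul_vx, inv_mul_cancel_right, k11]
  · rw [← k2, s.smul_ed, e1]
  · show _ ≤ n + F (2 * n) + F (2 * n) + len L.π s.t
    omega
  · rw [← k3, s.smul_ed, e2]
  · show _ ≤ n + F (2 * n) + F (2 * n) + len L.π s.t
    omega

/-- (WALK) -/
theorem walk_G (hH : L'.Cl) : ∃ F, Bd F ∧ ∀ (n : ℕ) (ω : L.Om a) (ω' : L.Om b) (q x : s.Vt),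
    s.SmOV n ω q → s.SmOV n ω' q → s.InV ω x → s.InV ω' x → s.T.dist q x ≤ n →
    ∃ ι ∈ Subgroup.closure {k | k ∈ Q ω ω' ∧ len L.π k ≤ F n},
      s.SmOV (F n) ω (ι • x) ∧ s.SmOV (F n) ω' (ι • x) := by
  obtain ⟨F, hF, h⟩ := s.step_G ha hb hH
  obtain ⟨F', hF', h'⟩ := s.pair_OO hH ha hb
  have hG : Bd (fun m => F m + len L.π s.t + F' m + m) :=
    ((hF.add (Bd.const _)).add hF').add Bd.id
  refine ⟨_, Bd.it_bd hG, ?_⟩
  intro n ω ω' q x hq hq' hx hx' hd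
  obtain ⟨c, e, h0, h1, hp, hbt⟩ := s.exists_pth q x
  have iq : s.InV ω q := let ⟨g, k1, k2, _⟩ := hq; ⟨g, k1, k2⟩
  have iq' : s.InV ω' q := let ⟨g, k1, k2, _⟩ := hq'; ⟨g, k1, k2⟩
  have hin : ∀ i ≤ s.T.dist q x, s.InV ω (c i) ∧ s.InV ω' (c i) := fun i hi =>
    ⟨(s.cvx_om ha ω q iq x hx).2 _ (hbt i hi), (s.cvx_om hb ω' q iq' x hx').2 _ (hbt i hi)⟩
  have hcl : ∀ {m m' : ℕ}, m ≤ m' → Subgroup.closure {k | k ∈ Q ω ω' ∧ len L.π k ≤ m} ≤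
      Subgroup.closure {k | k ∈ Q ω ω' ∧ len L.π k ≤ m'} := fun hm =>
    Subgroup.closure_mono fun k hk => ⟨hk.1, hk.2.trans hm⟩
  have hQ : ∀ m, Subgroup.closure {k | k ∈ Q ω ω' ∧ len L.π k ≤ m} ≤ Q ω ω' := fun m =>
    (Subgroup.closure_le _).2 fun k hk => hk.1
  have key := Bd.it_induct (F := fun m => F m + len L.π s.t + F' m + m)
    (fun i m => ∃ ι ∈ Subgroup.closure {k | k ∈ Q ω ω' ∧ len L.π k ≤ m},
      s.SmOV m ω (ι • c i) ∧ s.SmOV m ω' (ι • c i)) (s.T.dist q x) n hd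
    (fun i m m' hm ⟨ι, k1, k2, k3⟩ => ⟨ι, hcl hm k1, s.pr1_smOV_mono k2 hm, s.pr1_smOV_mono k3 hm⟩)
    ⟨1, one_mem _, by rw [one_smul, h0]; exact hq, by rw [one_smul, h0]; exact hq'⟩
    (fun i m hi _ ⟨ι, k1, k2, k3⟩ => by
      have hj := hp.1 i hi
      obtain ⟨f1, f2⟩ := pr1_ofQ (hQ _ k1)
      have i1 : s.InE ω (ι • e i) := by
        have := InE.smul s (s.inE_of_join ha hj (hin i hi.le).1 (hin (i + 1) hi).1) ι
        rwa [f1] at this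
      have i2 : s.InE ω' (ι • e i) := by
        have := InE.smul s (s.inE_of_join hb hj (hin i hi.le).2 (hin (i + 1) hi).2) ι
        rwa [f2] at this
      have hj' := Join.smul s hj ι
      have inc1 : s.Inc (ι • e i) (ι • c i) := hj'.elim (fun k => Or.inl k.1) fun k => Or.inr k.2
      obtain ⟨ι', m1, m2, m3, m4⟩ := h m ω ω' _ _ k2 k3 inc1 i1 i2
      have hj'' := Join.smul s hj' ι'
      have inc2 : s.Inc (ι' • ι • e i) (ι' • ι • c (i + 1)) :=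
        hj''.elim (fun k => Or.inr k.2) fun k => Or.inl k.1
      have hsg := (h' m ω ω ω' ω' _ _ k2 k3 k2 k3).1
      have m5 : ι' ∈ MulAction.stabilizer L.G ((ω, ω'), ι • c i) := by
        rw [MulAction.mem_stabilizer_iff, Prod.smul_mk, m2, MulAction.mem_stabilizer_iff.1 m1]
      have m6 : ι' ∈ Subgroup.closure
          {k | k ∈ Q ω ω' ∧ len L.π k ≤ F m + len L.π s.t + F' m + m} := by
        refine Subgroup.closure_mono ?_ (hsg m5)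
        intro k hk
        exact ⟨congrArg Prod.fst (MulAction.mem_stabilizer_iff.1 hk.1), le_trans hk.2 (by omega)⟩
      refine ⟨ι' * ι, mul_mem m6 (hcl (by omega) k1), ?_, ?_⟩
      · rw [mul_smul]
        exact s.pr1_smOV_mono (s.pr1_smOV_of_smOE ha m3 inc2) (by omega)
      · rw [mul_smul]
        exact s.pr1_smOV_mono (s.pr1_smOV_of_smOE hb m4 inc2) (by omega))
    _ le_rfl
  rw [h1] at key
  exact key

end St
end CPOR
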