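import Pool.Agent.P.MP_2cb329_al.LV

/-! Sink cell: Freiheitssatz and thin quadrilaterals. -/

set_option autoImplicit false

namespace CPOR

section Aux

variable {X : Type}

theorem qd_seg_diff (l : List (X × Bool)) {v w : ℕ} (h : v ≤ w) :
    (seg l v)⁻¹ * seg l w = FreeGroup.mk ((l.take w).drop v) := by
  have e : l.take w = l.take v ++ (l.take w).drop v := by
    conv_lhs => rw [← List.take_append_drop v (l.take w)]
    rw [List.take_take, min_eq_left h]
  rw [inv_mul_eq_iff_eq_mul, seg, seg, FreeGroup.mul_mk, ← e]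

theorem qd_stp_le (l : List (X × Bool)) (i : Fin l.length) : stp l i ≤ l.length := by
  have := i.2
  unfold stp
  split_ifs <;> omega

theorem qd_sgn_mul_self (l : List (X × Bool)) (i : Fin l.length) : sgn l i * sgn l i = 1 := by
  unfold sgn
  split_ifs <;> norm_num

theorem qd_sgn_ne (l : List (X × Bool)) (i : Fin l.length) : sgn l i ≠ 0 := by
  unfold sgn
  split_ifs <;> norm_num

variable [DecidableEq X]

theorem qd_norm_diff_le (l : List (X × Bool)) {v w : ℕ} (h : v ≤ w) :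
    ((seg l v)⁻¹ * seg l w).norm ≤ w - v ∧ ((seg l v)⁻¹ * seg l w).norm ≤ l.length := by
  rw [qd_seg_diff l h]
  have := FreeGroup.norm_mk_le (L₁ := (l.take w).drop v)
  rw [List.length_drop, List.length_take] at this
  constructor <;> omega

theorem qd_norm_diff (l : List (X × Bool)) (v w : ℕ) :
    ((seg l v)⁻¹ * seg l w).norm ≤ l.length := by
  rcases le_total v w with h | h
  · exact (qd_norm_diff_le l h).2
  · rw [← FreeGroup.norm_inv_eq, mul_inv_rev, inv_inv]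
    exact (qd_norm_diff_le l h).2

theorem qd_seg_mem {S : Set X} {f : FreeGroup X} (hf : f ∈ FS S) (v : ℕ) :
    seg f.toWord v ∈ FS S :=
  mk_mem_FS fun x hx => mem_FS_iff.1 hf x (List.mem_of_mem_take hx)

theorem qd_seg_inj (f : FreeGroup X) {v w : ℕ} (hv : v ≤ f.norm) (hw : w ≤ f.norm)
    (h : seg f.toWord v = seg f.toWord w) : v = w := by
  have h1 := norm_mk_take f hv
  have h2 := norm_mk_take f hw
  unfold seg at h
  rw [h] at h1
  omega

theorem qd_fb_seg (f : FreeGroup X) {v : ℕ} (hv : v ≤ f.norm) : FB 1 (seg f.toWord v) f :=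
  fb_one_iff.2 ⟨v, hv, rfl⟩

theorem qd_fb_one (f : FreeGroup X) : FB 1 1 f := by simp [FB]

theorem qd_fb_self (f : FreeGroup X) : FB 1 f f := by simp [FB]

theorem qd_fb_mem {S : Set X} {f g : FreeGroup X} (hf : f ∈ FS S) (h : FB 1 g f) : g ∈ FS S := by
  have := h.mem_FS (S := S) (by simpa using hf)
  simpa using this

theorem qd_fb_inv {f g : FreeGroup X} (h : FB 1 g f⁻¹) : FB 1 (f * g) f := by
  unfold FB at h ⊢
  have e1 : (g⁻¹ * f⁻¹).norm = (f * g).norm := by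
    rw [← mul_inv_rev, FreeGroup.norm_inv_eq]
  have e2 : ((f * g)⁻¹ * f).norm = g.norm := by
    rw [mul_inv_rev, mul_assoc, inv_mul_cancel, mul_one, FreeGroup.norm_inv_eq]
  simp only [inv_one, one_mul, FreeGroup.norm_inv_eq] at h ⊢
  omega

omit [DecidableEq X] in
/-- An edge of a path that is never crossed in the opposite direction is in the support. -/
theorem qd_mem_support {Z : Type} (R : RA X Z) (z : Z) (l : List (X × Bool)) (i : Fin l.length)
    (h : ∀ j, R.mv z (seg l (stp l j)) = R.mv z (seg l (stp l i)) → ltr l j = ltr l i →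
      sgn l j = sgn l i) :
    (R.mv z (seg l (stp l i)), ltr l i) ∈ (R.DL z l).support := by
  classical
  rw [Finsupp.mem_support_iff, R.DL_eq_sum, Finsupp.finset_sum_apply]
  intro h0
  have h1 : 0 < ∑ j : Fin l.length, (Finsupp.single (R.mv z (seg l (stp l j)), ltr l j) (sgn l j))
      (R.mv z (seg l (stp l i)), ltr l i) * sgn l i := by
    refine Finset.sum_pos' (fun j _ => ?_) ⟨i, Finset.mem_univ _, ?_⟩
    · rw [Finsupp.single_apply]
      split_ifs with hj
      · rw [Prod.mk.injEq] at hj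
        rw [h j hj.1 hj.2, qd_sgn_mul_self]
        norm_num
      · simp
    · rw [Finsupp.single_eq_same, qd_sgn_mul_self]
      norm_num
  rw [← Finset.sum_mul, h0, zero_mul] at h1
  exact lt_irrefl _ h1

omit [DecidableEq X] in
theorem qd_enp_eq {Z : Type} (R : RA X Z) (z : Z) (l : List (X × Bool)) {i j : Fin l.length}
    (h1 : R.mv z (seg l (stp l j)) = R.mv z (seg l (stp l i))) (h2 : ltr l j = ltr l i) :
    R.mv z (seg l (enp l j)) = R.mv z (seg l (enp l i)) := by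
  rw [← seg_stp_mul, ← seg_stp_mul, R.mv_mul, R.mv_mul, h1, h2]

end Aux

namespace Lv

variable (L : Lv)

theorem qd_span {f : FreeGroup L.X} (hf : L.π f = 1) (z : L.G) :
    (RA.ofHom L.π).D z f ∈
      Submodule.span ℚ (Set.range fun g => (RA.ofHom L.π).D g (FreeGroup.mk L.u)) := by
  set W := Submodule.span ℚ (Set.range fun g => (RA.ofHom L.π).D g (FreeGroup.mk L.u)) with hW
  have hpow : ∀ (n : ℕ) (z : L.G), (RA.ofHom L.π).D z (FreeGroup.mk L.u ^ n) ∈ W := by
    intro n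
    induction n with
    | zero => intro z; rw [pow_zero, RA.D_one]; exact W.zero_mem
    | succ n ih =>
      intro z
      rw [pow_succ, RA.D_mul]
      exact W.add_mem (ih z) (Submodule.subset_span ⟨_, rfl⟩)
  have hr : L.π (FreeGroup.mk L.u ^ L.k) = 1 := by
    rw [← MonoidHom.mem_ker, L.ker]
    exact Subgroup.subset_normalClosure rfl
  have hf' : f ∈ Subgroup.closure (Group.conjugatesOfSet {FreeGroup.mk L.u ^ L.k}) := by
    rw [← MonoidHom.mem_ker, L.ker] at hf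
    exact hf
  have key : L.π f = 1 ∧ ∀ z, (RA.ofHom L.π).D z f ∈ W := by
    clear hf z
    induction hf' using Subgroup.closure_induction with
    | mem x hx =>
      obtain ⟨a, ha, hc⟩ := Group.mem_conjugatesOfSet_iff.1 hx
      rw [Set.mem_singleton_iff] at ha
      subst ha
      obtain ⟨h, rfl⟩ := isConj_iff.1 hc
      refine ⟨by rw [map_mul, map_mul, hr, map_inv, mul_one, mul_inv_cancel], fun z => ?_⟩
      have e : (RA.ofHom L.π).mv z (h * FreeGroup.mk L.u ^ L.k) = (RA.ofHom L.π).mv z h := by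
        change z * L.π _ = z * L.π _
        rw [map_mul, hr, mul_one]
      rw [RA.D_mul, RA.D_mul, e, RA.D_inv, add_assoc, add_comm, add_assoc, neg_add_cancel,
        add_zero]
      exact hpow _ _
    | one => exact ⟨map_one _, fun z => by rw [RA.D_one]; exact W.zero_mem⟩
    | mul x y _ _ hx hy =>
      refine ⟨by rw [map_mul, hx.1, hy.1, mul_one], fun z => ?_⟩
      rw [RA.D_mul]
      exact W.add_mem (hx.2 _) (hy.2 _)
    | inv x _ hx =>
      refine ⟨by rw [map_inv, hx.1, inv_one], fun z => ?_⟩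
      have e : (RA.ofHom L.π).mv z x = z := by
        change z * L.π _ = z
        rw [hx.1, mul_one]
      have := (RA.ofHom L.π).D_inv z x
      rw [e] at this
      rw [this]
      exact W.neg_mem (hx.2 z)
  exact key.2 z

/-- (TOUCH) a loop with nonzero chain contains, for one cell, an edge of every letter. -/
theorem touch {f : FreeGroup L.X} (hf : L.π f = 1) (z : L.G) (hD : (RA.ofHom L.π).D z f ≠ 0) :
    ∃ c : L.G, ∀ i₀ : Fin L.u.length, ∃ i, ltr L.u i = ltr L.u i₀ ∧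
      (c * L.π (seg L.u (stp L.u i)), ltr L.u i) ∈ ((RA.ofHom L.π).D z f).support := by
  classical
  obtain ⟨c, hc⟩ := (Finsupp.mem_span_range_iff_exists_finsupp).1 (L.qd_span hf z)
  have hne : c.support.Nonempty := by
    rw [Finsupp.support_nonempty_iff]
    rintro rfl
    exact hD (by rw [← hc, Finsupp.sum_zero_index])
  obtain ⟨g, hg, hs⟩ := L.sink c.support hne
  refine ⟨g, fun i₀ => ?_⟩
  obtain ⟨i, hi, hu⟩ := hs i₀
  refine ⟨i, hi, ?_⟩
  rw [Finsupp.mem_support_iff, ← hc, Finsupp.sum, Finsupp.finset_sum_apply,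
    Finset.sum_eq_single g]
  · rw [RA.D_mk, RA.DL_eq_sum, Finsupp.smul_apply, Finsupp.finset_sum_apply,
      Finset.sum_eq_single i]
    · have e : (RA.ofHom L.π).mv g (seg L.u (stp L.u i)) = g * L.π (seg L.u (stp L.u i)) := rfl
      rw [e, Finsupp.single_eq_same, smul_eq_mul]
      exact mul_ne_zero (Finsupp.mem_support_iff.1 hg) (qd_sgn_ne _ _)
    · intro j _ hj
      rw [Finsupp.single_apply, if_neg]
      intro he
      rw [Prod.mk.injEq] at he
      exact hj (hu g hg j he.2 he.1).2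
    · intro h; exact absurd (Finset.mem_univ _) h
  · intro g' hg' hne'
    rw [RA.D_mk, RA.DL_eq_sum, Finsupp.smul_apply, Finsupp.finset_sum_apply,
      Finset.sum_eq_zero, smul_zero]
    intro j _
    rw [Finsupp.single_apply, if_neg]
    intro he
    rw [Prod.mk.injEq] at he
    exact hne' (hu g' hg' j he.2 he.1).1
  · intro h; exact absurd hg h

/-- Freiheitssatz. -/
theorem free {S : Set L.X} (h : L.Adm S) : Free L.π S := by
  obtain ⟨a, ⟨i₀, hi₀⟩, ha⟩ := h
  have key : ∀ n : ℕ, ∀ f ∈ FS S, f.norm = n → L.π f = 1 → f = 1 := by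
    intro n
    induction n using Nat.strong_induction_on with
    | _ n ih =>
      intro f hf hn h1
      by_contra hne
      have hpos : 0 < f.toWord.length := by
        rw [List.length_pos_iff]
        exact fun h0 => hne (FreeGroup.toWord_eq_nil_iff.1 h0)
      have hlen : f.toWord.length = f.norm := rfl
      have hD : (RA.ofHom L.π).D 1 f ≠ 0 := by
        have hm := qd_mem_support (RA.ofHom L.π) 1 f.toWord ⟨0, hpos⟩ (fun j h2 h3 => by
          by_contra hs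
          have h4 := qd_enp_eq (RA.ofHom L.π) 1 f.toWord h2 h3
          have hb : (f.toWord.get j).2 = !(f.toWord.get ⟨0, hpos⟩).2 := by
            unfold sgn at hs
            revert hs
            cases (f.toWord.get j).2 <;> cases (f.toWord.get ⟨0, hpos⟩).2 <;> simp
          have hj0 : (j : ℕ) ≠ 0 := fun h0 => hs (by rw [show j = ⟨0, hpos⟩ from Fin.ext h0])
          have h5 : L.π (seg f.toWord j) = L.π (seg f.toWord 1) := by
            unfold stp at h2
            unfold enp at h4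
            rw [hb] at h2 h4
            revert h2 h4
            cases (f.toWord.get ⟨0, hpos⟩).2
            · intro h2 _
              simpa [RA.ofHom] using h2
            · intro _ h4
              simpa [RA.ofHom] using h4
          have hj := j.2
          have h6 : (seg f.toWord 1)⁻¹ * seg f.toWord j = 1 := by
            refine ih _ ?_ _ ((FS S).mul_mem ((FS S).inv_mem (qd_seg_mem hf _)) (qd_seg_mem hf _))
              rfl (by rw [map_mul, map_inv, h5, inv_mul_cancel])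
            have := (qd_norm_diff_le f.toWord (v := 1) (w := j) (by omega)).1
            omega
          have h7 : 1 = (j : ℕ) :=
            qd_seg_inj f (by omega) (by omega) (inv_mul_eq_one.1 h6)
          have e0 := seg_stp_mul f.toWord ⟨0, hpos⟩
          have e1 := seg_stp_mul f.toWord j
          have h8 : seg f.toWord 0 = seg f.toWord 2 := by
            unfold stp enp at e0 e1
            rw [hb, h3, ← h7] at e1
            revert e0 e1
            cases (f.toWord.get ⟨0, hpos⟩).2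
            · intro e0 e1
              simp only [Bool.false_eq_true, if_false, Bool.not_false, if_true] at e0 e1
              rw [← e0, ← e1]
            · intro e0 e1
              simp only [Bool.false_eq_true, if_false, Bool.not_true, if_true] at e0 e1
              exact mul_right_cancel (e0.trans e1.symm)
          have := qd_seg_inj f (by omega) (by omega) h8
          omega)
        intro h0
        change (RA.ofHom L.π).DL 1 f.toWord = 0 at h0
        rw [h0] at hm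
        simp at hm
      obtain ⟨c, hc⟩ := L.touch h1 1 hD
      obtain ⟨i, hi, hm⟩ := hc i₀
      obtain ⟨⟨b, hb⟩, -⟩ := (RA.ofHom L.π).mem_support_D hm
      have := mem_FS_iff.1 hf _ hb
      rw [hi, hi₀] at this
      exact ha this
  exact fun f hf h1 => key _ f hf rfl h1

theorem inj_FS {S : Set L.X} (h : L.Adm S) {f g : FreeGroup L.X} (hf : f ∈ FS S) (hg : g ∈ FS S)
    (he : L.π f = L.π g) : f = g := by
  refine inv_mul_eq_one.1 (L.free h _ ((FS S).mul_mem ((FS S).inv_mem hf) hg) ?_)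
  rw [map_mul, map_inv, he, inv_mul_cancel]

theorem MS_inf {S S' : Set L.X} (h : L.Adm (S ∪ S')) :
    MS L.π S ⊓ MS L.π S' = MS L.π (S ∩ S') := by
  refine le_antisymm ?_ (le_inf (MS_mono Set.inter_subset_left) (MS_mono Set.inter_subset_right))
  rintro g ⟨h1, h2⟩
  obtain ⟨f, hf, rfl⟩ := mem_MS.1 h1
  obtain ⟨f', hf', he⟩ := mem_MS.1 h2
  have e : f' = f :=
    L.inj_FS h (FS_mono Set.subset_union_right hf') (FS_mono Set.subset_union_left hf) he
  subst e
  refine mem_MS.2 ⟨f', ?_, rfl⟩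
  rw [← FS_inf]
  exact ⟨hf, hf'⟩

theorem qd_val_inj {S : Set L.X} (h : L.Adm S) :
    Function.Injective (L.π.comp (FreeGroup.map (Subtype.val : S → L.X))) := by
  intro f g he
  refine map_val_injective S (L.inj_FS h ?_ ?_ he)
  · rw [← range_map_val]; exact ⟨f, rfl⟩
  · rw [← range_map_val]; exact ⟨g, rfl⟩

theorem qd_val_range (S : Set L.X) :
    (L.π.comp (FreeGroup.map (Subtype.val : S → L.X))).range = MS L.π S := by
  rw [MonoidHom.range_comp, range_map_val, MS]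

theorem isFree_MS {S : Set L.X} (h : L.Adm S) : IsFreeGroup (MS L.π S) := by
  rw [← L.qd_val_range S]
  exact isFree_range _ (L.qd_val_inj h)

theorem rk_MS {S : Set L.X} (h : L.Adm S) :
    ∃ n ≤ Fintype.card L.X, RkLe (MS L.π S) n ∧ RkGe (MS L.π S) n := by
  classical
  haveI : Fintype S := Fintype.ofFinite S
  refine ⟨Fintype.card S, Fintype.card_le_of_injective _ Subtype.val_injective, ?_⟩
  rw [← L.qd_val_range S]
  exact rk_range _ (L.qd_val_inj h)

/-- `z` lies on the reduced path that reads `f` from `p`. -/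
def On (p : L.G) (f : FreeGroup L.X) (z : L.G) : Prop := ∃ g, FB 1 g f ∧ z = p * L.π g

theorem qd_on_support {z : L.G} {f : FreeGroup L.X} {e : L.G × L.X}
    (h : e ∈ ((RA.ofHom L.π).D z f).support) :
    (∀ S, f ∈ FS S → e.2 ∈ S) ∧ L.On z f e.1 ∧ L.On z f (e.1 * L.π (FreeGroup.of e.2)) := by
  obtain ⟨⟨b, hb⟩, h1, h2⟩ := (RA.ofHom L.π).mem_support_D h
  exact ⟨fun S hS => mem_FS_iff.1 hS _ hb, h1, h2⟩

/-- Every edge of a reduced path over an admissible set is in the support of its chain. -/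
theorem qd_edge {S : Set L.X} (h : L.Adm S) {f : FreeGroup L.X} (hf : f ∈ FS S)
    (i : Fin f.toWord.length) :
    (L.π (seg f.toWord (stp f.toWord i)), ltr f.toWord i) ∈ ((RA.ofHom L.π).D 1 f).support := by
  have hlen : f.toWord.length = f.norm := rfl
  have hm := qd_mem_support (RA.ofHom L.π) 1 f.toWord i (fun j h2 h3 => by
    have h4 := qd_enp_eq (RA.ofHom L.π) 1 f.toWord h2 h3
    have hi := i.2
    have hj := j.2
    have k : ∀ v w, v ≤ f.norm → w ≤ f.norm → (RA.ofHom L.π).mv 1 (seg f.toWord v) =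
        (RA.ofHom L.π).mv 1 (seg f.toWord w) → v = w := fun v w hv hw he =>
      qd_seg_inj f hv hw (L.inj_FS h (qd_seg_mem hf _) (qd_seg_mem hf _) (mul_left_cancel he))
    have k1 := k _ _ (qd_stp_le _ _) (qd_stp_le _ _) h2
    have k2 := k _ _ (by unfold enp; split_ifs <;> omega) (by unfold enp; split_ifs <;> omega) h4
    have : j = i := by
      refine Fin.ext ?_
      unfold stp at k1
      unfold enp at k2
      split_ifs at k1 k2 <;> omega
    rw [this])
  have e : (RA.ofHom L.π).mv 1 (seg f.toWord (stp f.toWord i)) =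
      L.π (seg f.toWord (stp f.toWord i)) := one_mul _
  rw [e] at hm
  exact hm

/-- (QUAD) -/
theorem quad {S₁ S₂ S₃ S₄ : Set L.X} (h₁ : L.Adm S₁) (h₂ : L.Adm S₂) (h₃ : L.Adm S₃)
    (h₄ : L.Adm S₄) {f₁ f₂ f₃ f₄ : FreeGroup L.X} (m₁ : f₁ ∈ FS S₁) (m₂ : f₂ ∈ FS S₂)
    (m₃ : f₃ ∈ FS S₃) (m₄ : f₄ ∈ FS S₄) (hk : L.π (f₁ * f₂ * f₃ * f₄) = 1) :
    (∃ c : L.G, ∀ y, L.Occ y → ∃ v ≤ L.u.length,
        (y ∈ S₁ ∧ L.On 1 f₁ (c * L.π (seg L.u v))) ∨
        (y ∈ S₂ ∧ L.On (L.π f₁) f₂ (c * L.π (seg L.u v))) ∨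
        (y ∈ S₃ ∧ L.On (L.π (f₁ * f₂)) f₃ (c * L.π (seg L.u v))) ∨
        (y ∈ S₄ ∧ L.On (L.π (f₁ * f₂ * f₃)) f₄ (c * L.π (seg L.u v)))) ∨
      (∃ z, L.On 1 f₁ z ∧ L.On (L.π (f₁ * f₂)) f₃ z) ∨
      (∃ z, L.On (L.π f₁) f₂ z ∧ L.On (L.π (f₁ * f₂ * f₃)) f₄ z) := by
  classical
  have hD : (RA.ofHom L.π).D 1 (f₁ * f₂ * f₃ * f₄) =
      (RA.ofHom L.π).D 1 f₁ + (RA.ofHom L.π).D (L.π f₁) f₂ +
        (RA.ofHom L.π).D (L.π (f₁ * f₂)) f₃ + (RA.ofHom L.π).D (L.π (f₁ * f₂ * f₃)) f₄ := by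
    have e : ∀ f, (RA.ofHom L.π).mv 1 f = L.π f := fun f => one_mul _
    rw [RA.D_mul, RA.D_mul, RA.D_mul, e, e, e]
  by_cases h0 : (RA.ofHom L.π).D 1 (f₁ * f₂ * f₃ * f₄) = 0
  · right
    by_contra hcon
    rw [not_or] at hcon
    obtain ⟨n13, n24⟩ := hcon
    have hlen : f₁.toWord.length = f₁.norm := rfl
    have walk : ∀ v ≤ f₁.norm, L.On (L.π (f₁ * f₂ * f₃)) f₄ (L.π (seg f₁.toWord v)) := by
      intro v
      induction v with
      | zero =>
        intro _
        refine ⟨f₄, qd_fb_self _, ?_⟩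
        rw [← map_mul, hk]
        exact map_one L.π
      | succ v ih =>
        intro hv
        have ih' := ih (by omega)
        let i : Fin f₁.toWord.length := ⟨v, by omega⟩
        have he := L.qd_edge h₁ m₁ i
        have hends : ∀ (p : L.G) (f : FreeGroup L.X),
            (L.π (seg f₁.toWord (stp f₁.toWord i)), ltr f₁.toWord i) ∈
              ((RA.ofHom L.π).D p f).support →
            L.On p f (L.π (seg f₁.toWord v)) ∧ L.On p f (L.π (seg f₁.toWord (v + 1))) := by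
          intro p f hm
          obtain ⟨-, o1, o2⟩ := L.qd_on_support hm
          simp only at o1 o2
          rw [← map_mul, seg_stp_mul] at o2
          unfold stp at o1
          unfold enp at o2
          split_ifs at o1 o2
          · exact ⟨o1, o2⟩
          · exact ⟨o2, o1⟩
        by_contra hno
        have z2 : (RA.ofHom L.π).D (L.π f₁) f₂
            (L.π (seg f₁.toWord (stp f₁.toWord i)), ltr f₁.toWord i) = 0 := by
          by_contra hz
          exact n24 ⟨_, (hends _ _ (Finsupp.mem_support_iff.2 hz)).1, ih'⟩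
        have z3 : (RA.ofHom L.π).D (L.π (f₁ * f₂)) f₃
            (L.π (seg f₁.toWord (stp f₁.toWord i)), ltr f₁.toWord i) = 0 := by
          by_contra hz
          exact n13 ⟨_, (hends _ _ he).1, (hends _ _ (Finsupp.mem_support_iff.2 hz)).1⟩
        have z4 : (RA.ofHom L.π).D (L.π (f₁ * f₂ * f₃)) f₄
            (L.π (seg f₁.toWord (stp f₁.toWord i)), ltr f₁.toWord i) = 0 := by
          by_contra hz
          exact hno (hends _ _ (Finsupp.mem_support_iff.2 hz)).2
        have := DFunLike.congr_fun (hD.symm.trans h0)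
          (L.π (seg f₁.toWord (stp f₁.toWord i)), ltr f₁.toWord i)
        rw [Finsupp.add_apply, Finsupp.add_apply, Finsupp.add_apply, z2, z3, z4, add_zero,
          add_zero, add_zero, Finsupp.zero_apply] at this
        exact Finsupp.mem_support_iff.1 he this
    have hw := walk f₁.norm le_rfl
    have e : seg f₁.toWord f₁.norm = f₁ := by
      rw [seg, ← hlen, List.take_length, FreeGroup.mk_toWord]
    rw [e] at hw
    exact n24 ⟨_, ⟨1, qd_fb_one _, by rw [map_one, mul_one]⟩, hw⟩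
  · left
    obtain ⟨c, hc⟩ := L.touch hk 1 h0
    refine ⟨c, ?_⟩
    rintro y ⟨i₀, rfl⟩
    obtain ⟨i, hi, hm⟩ := hc i₀
    refine ⟨stp L.u i, qd_stp_le _ _, ?_⟩
    rw [hD, hi] at hm
    rcases Finset.mem_union.1 (Finsupp.support_add hm) with hm | hm
    · rcases Finset.mem_union.1 (Finsupp.support_add hm) with hm | hm
      · rcases Finset.mem_union.1 (Finsupp.support_add hm) with hm | hm
        · exact Or.inl ⟨(L.qd_on_support hm).1 _ m₁, (L.qd_on_support hm).2.1⟩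
        · exact Or.inr (Or.inl ⟨(L.qd_on_support hm).1 _ m₂, (L.qd_on_support hm).2.1⟩)
      · exact Or.inr (Or.inr (Or.inl ⟨(L.qd_on_support hm).1 _ m₃, (L.qd_on_support hm).2.1⟩))
    · exact Or.inr (Or.inr (Or.inr ⟨(L.qd_on_support hm).1 _ m₄, (L.qd_on_support hm).2.1⟩))

theorem qd_cell {c x y : L.G} {v w : ℕ} (hx : c * L.π (seg L.u v) = x)
    (hy : c * L.π (seg L.u w) = y) : len L.π (x⁻¹ * y) ≤ L.u.length := by
  have e : x⁻¹ * y = L.π ((seg L.u v)⁻¹ * seg L.u w) := by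
    rw [← hx, ← hy, map_mul, map_inv]
    group
  rw [e]
  exact (len_le _).trans (qd_norm_diff _ _ _)

theorem qd_len_eq {x y : L.G} (h : x = y) : len L.π (x⁻¹ * y) ≤ L.u.length := by
  rw [h, inv_mul_cancel, len_one]
  exact Nat.zero_le _

theorem qd_on_mem {S : Set L.X} {p z : L.G} {f : FreeGroup L.X} (hf : f ∈ FS S)
    (h : L.On p f z) : ∃ m ∈ MS L.π S, z = p * m := by
  obtain ⟨g, hg, rfl⟩ := h
  exact ⟨_, mem_MS.2 ⟨g, qd_fb_mem hf hg, rfl⟩, rfl⟩

/-- (Q1) two `A`-rungs between the same two cosets. -/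
theorem q_one {SA SN SN' : Set L.X} (ha : L.Adm (SA ∪ SN)) (hb : L.Adm (SA ∪ SN'))
    {n n' α α' : L.G} (hn : n ∈ MS L.π SN) (hn' : n' ∈ MS L.π SN') (hα : α ∈ MS L.π SA)
    (hα' : α' ∈ MS L.π SA) (he : n * α' = α * n') :
    n ∈ MS L.π SA ∨
      ∃ n₁ ∈ MS L.π SN, ∃ n₂ ∈ MS L.π SN', len L.π (n₁⁻¹ * α * n₂) ≤ L.u.length := by
  obtain ⟨f₁, m₁, rfl⟩ := mem_MS.1 hn
  obtain ⟨f₃, m₃, rfl⟩ := mem_MS.1 hn'
  obtain ⟨f₄, m₄, rfl⟩ := mem_MS.1 hα
  obtain ⟨f₂, m₂, rfl⟩ := mem_MS.1 hα'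
  have m₃' := (FS SN').inv_mem m₃
  have m₄' := (FS SA).inv_mem m₄
  have e2 : L.π (f₁ * f₂) = L.π f₄ * L.π f₃ := by rw [map_mul, he]
  have e3 : L.π (f₁ * f₂ * f₃⁻¹) = L.π f₄ := by
    rw [map_mul, e2, map_inv, mul_inv_cancel_right]
  have hk : L.π (f₁ * f₂ * f₃⁻¹ * f₄⁻¹) = 1 := by rw [map_mul, e3, map_inv, mul_inv_cancel]
  rcases L.quad (ha.mono Set.subset_union_right) (ha.mono Set.subset_union_left)
    (hb.mono Set.subset_union_right) (ha.mono Set.subset_union_left) m₁ m₂ m₃' m₄' hk with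
    ⟨c, hc⟩ | ⟨z, o1, o3⟩ | ⟨z, o2, o4⟩
  · right
    obtain ⟨a, oa, na⟩ := ha
    obtain ⟨b, ob, nb⟩ := hb
    rw [Set.mem_union, not_or] at na nb
    obtain ⟨v, -, hv⟩ := hc a oa
    obtain ⟨w, -, hw⟩ := hc b ob
    have o3 : L.On (L.π (f₁ * f₂)) f₃⁻¹ (c * L.π (seg L.u v)) := by
      rcases hv with h | h | h | h
      exacts [absurd h.1 na.2, absurd h.1 na.1, h.2, absurd h.1 na.1]
    have o1 : L.On 1 f₁ (c * L.π (seg L.u w)) := by
      rcases hw with h | h | h | h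
      exacts [h.2, absurd h.1 nb.1, absurd h.1 nb.2, absurd h.1 nb.1]
    obtain ⟨x, hx, ex⟩ := L.qd_on_mem m₁ o1
    obtain ⟨y, hy, ey⟩ := L.qd_on_mem m₃' o3
    refine ⟨x, hx, L.π f₃ * y, (MS L.π SN').mul_mem hn' hy, ?_⟩
    have := L.qd_cell ex ey
    rwa [one_mul, e2, mul_assoc, ← mul_assoc x⁻¹] at this
  · right
    obtain ⟨x, hx, ex⟩ := L.qd_on_mem m₁ o1
    obtain ⟨y, hy, ey⟩ := L.qd_on_mem m₃' o3
    refine ⟨x, hx, L.π f₃ * y, (MS L.π SN').mul_mem hn' hy, ?_⟩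
    have := L.qd_len_eq (ex.symm.trans ey)
    rwa [one_mul, e2, mul_assoc, ← mul_assoc x⁻¹] at this
  · left
    obtain ⟨x, hx, ex⟩ := L.qd_on_mem m₂ o2
    obtain ⟨y, hy, ey⟩ := L.qd_on_mem m₄' o4
    rw [e3, ex] at ey
    rw [eq_mul_inv_of_mul_eq ey]
    exact (MS L.π SA).mul_mem ((MS L.π SA).mul_mem hα hy) ((MS L.π SA).inv_mem hx)

/-- (Q3) -/
theorem q_three {SA SN : Set L.X} (ha : L.Adm (SA ∪ SN))
    {n n' α α' : L.G} (hn : n ∈ MS L.π SN) (hn' : n' ∈ MS L.π SN) (hα : α ∈ MS L.π SA)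
    (hα' : α' ∈ MS L.π SA) (he : n * α' = α * n') : n ∈ MS L.π SA ∨ α ∈ MS L.π SN := by
  obtain ⟨f₁, m₁, rfl⟩ := mem_MS.1 hn
  obtain ⟨f₃, m₃, rfl⟩ := mem_MS.1 hn'
  obtain ⟨f₄, m₄, rfl⟩ := mem_MS.1 hα
  obtain ⟨f₂, m₂, rfl⟩ := mem_MS.1 hα'
  have m₃' := (FS SN).inv_mem m₃
  have m₄' := (FS SA).inv_mem m₄
  have e2 : L.π (f₁ * f₂) = L.π f₄ * L.π f₃ := by rw [map_mul, he]
  have e3 : L.π (f₁ * f₂ * f₃⁻¹) = L.π f₄ := by
    rw [map_mul, e2, map_inv, mul_inv_cancel_right]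
  have hk : L.π (f₁ * f₂ * f₃⁻¹ * f₄⁻¹) = 1 := by rw [map_mul, e3, map_inv, mul_inv_cancel]
  rcases L.quad (ha.mono Set.subset_union_right) (ha.mono Set.subset_union_left)
    (ha.mono Set.subset_union_right) (ha.mono Set.subset_union_left) m₁ m₂ m₃' m₄' hk with
    ⟨c, hc⟩ | ⟨z, o1, o3⟩ | ⟨z, o2, o4⟩
  · exfalso
    obtain ⟨a, oa, na⟩ := ha
    rw [Set.mem_union, not_or] at na
    obtain ⟨v, -, hv⟩ := hc a oa
    rcases hv with h | h | h | h
    exacts [na.2 h.1, na.1 h.1, na.2 h.1, na.1 h.1]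
  · right
    obtain ⟨x, hx, ex⟩ := L.qd_on_mem m₁ o1
    obtain ⟨y, hy, ey⟩ := L.qd_on_mem m₃' o3
    rw [e2, ex, one_mul, mul_assoc] at ey
    rw [eq_mul_inv_of_mul_eq ey.symm]
    exact (MS L.π SN).mul_mem hx ((MS L.π SN).inv_mem ((MS L.π SN).mul_mem hn' hy))
  · left
    obtain ⟨x, hx, ex⟩ := L.qd_on_mem m₂ o2
    obtain ⟨y, hy, ey⟩ := L.qd_on_mem m₄' o4
    rw [e3, ex] at ey
    rw [eq_mul_inv_of_mul_eq ey]
    exact (MS L.π SA).mul_mem ((MS L.π SA).mul_mem hα hy) ((MS L.π SA).inv_mem hx)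

/-- (Q2) crossing lemma: a `B`-rung and an `A`-rung between the same two cosets. -/
theorem q_two {SA SB SN SN' : Set L.X} (h1 : L.Adm (SA ∪ SN)) (h2 : L.Adm (SA ∪ SN'))
    (h3 : L.Adm (SB ∪ SN)) (h4 : L.Adm (SB ∪ SN'))
    {n n' : L.G} {fb fa : FreeGroup L.X} (hn : n ∈ MS L.π SN) (hn' : n' ∈ MS L.π SN')
    (hb : fb ∈ FS SB) (ha : fa ∈ FS SA) (he : L.π fb * n' = n * L.π fa) :
    (∃ n₁ ∈ MS L.π SN, ∃ n₂ ∈ MS L.π SN', len L.π (n₁⁻¹ * L.π fb * n₂) ≤ L.u.length) ∨
      ∃ gb ga, FB 1 gb fb ∧ FB 1 ga fa ∧ len L.π ((L.π gb)⁻¹ * n * L.π ga) ≤ L.u.length := by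
  obtain ⟨f₄, m₄, rfl⟩ := mem_MS.1 hn
  obtain ⟨f₂, m₂, rfl⟩ := mem_MS.1 hn'
  have ha' := (FS SA).inv_mem ha
  have m₄' := (FS SN).inv_mem m₄
  have e2 : L.π (fb * f₂) = L.π f₄ * L.π fa := by rw [map_mul, he]
  have e3 : L.π (fb * f₂ * fa⁻¹) = L.π f₄ := by
    rw [map_mul, e2, map_inv, mul_inv_cancel_right]
  have hk : L.π (fb * f₂ * fa⁻¹ * f₄⁻¹) = 1 := by rw [map_mul, e3, map_inv, mul_inv_cancel]
  have c13 : ∀ x y, L.On 1 fb x → L.On (L.π (fb * f₂)) fa⁻¹ y → len L.π (x⁻¹ * y) ≤ L.u.length →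
      ∃ gb ga, FB 1 gb fb ∧ FB 1 ga fa ∧
        len L.π ((L.π gb)⁻¹ * L.π f₄ * L.π ga) ≤ L.u.length := by
    rintro _ _ ⟨gb, hgb, rfl⟩ ⟨g, hg, rfl⟩ hl
    refine ⟨gb, fa * g, hgb, qd_fb_inv hg, ?_⟩
    rwa [one_mul, e2, mul_assoc, ← map_mul, ← mul_assoc] at hl
  have c24 : ∀ x y, L.On (L.π fb) f₂ x → L.On (L.π (fb * f₂ * fa⁻¹)) f₄⁻¹ y →
      len L.π (y⁻¹ * x) ≤ L.u.length →
      ∃ n₁ ∈ MS L.π SN, ∃ n₂ ∈ MS L.π SN', len L.π (n₁⁻¹ * L.π fb * n₂) ≤ L.u.length := by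
    intro x y o2 o4 hl
    obtain ⟨x', hx, rfl⟩ := L.qd_on_mem m₂ o2
    obtain ⟨y', hy, rfl⟩ := L.qd_on_mem m₄' o4
    refine ⟨L.π f₄ * y', (MS L.π SN).mul_mem hn hy, x', hx, ?_⟩
    rwa [e3, ← mul_assoc] at hl
  rcases L.quad (h3.mono Set.subset_union_left) (h2.mono Set.subset_union_right)
    (h1.mono Set.subset_union_left) (h1.mono Set.subset_union_right) hb m₂ ha' m₄' hk with
    ⟨c, hc⟩ | ⟨z, o1, o3⟩ | ⟨z, o2, o4⟩
  · obtain ⟨y1, o1, n1⟩ := h1
    obtain ⟨y2, o2, n2⟩ := h2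
    obtain ⟨y3, o3, n3⟩ := h3
    obtain ⟨y4, o4, n4⟩ := h4
    rw [Set.mem_union, not_or] at n1 n2 n3 n4
    obtain ⟨v1, -, hv1⟩ := hc y1 o1
    obtain ⟨v2, -, hv2⟩ := hc y2 o2
    obtain ⟨v3, -, hv3⟩ := hc y3 o3
    obtain ⟨v4, -, hv4⟩ := hc y4 o4
    have d13 : ∀ v w, L.On 1 fb (c * L.π (seg L.u v)) →
        L.On (L.π (fb * f₂)) fa⁻¹ (c * L.π (seg L.u w)) → _ :=
      fun v w a b => c13 _ _ a b (L.qd_cell rfl rfl)
    have d24 : ∀ v w, L.On (L.π fb) f₂ (c * L.π (seg L.u v)) →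
        L.On (L.π (fb * f₂ * fa⁻¹)) f₄⁻¹ (c * L.π (seg L.u w)) → _ :=
      fun v w a b => c24 _ _ a b (L.qd_cell rfl rfl)
    have t1 : L.On 1 fb (c * L.π (seg L.u v1)) ∨ L.On (L.π fb) f₂ (c * L.π (seg L.u v1)) := by
      rcases hv1 with h | h | h | h
      exacts [Or.inl h.2, Or.inr h.2, absurd h.1 n1.1, absurd h.1 n1.2]
    have t2 : L.On 1 fb (c * L.π (seg L.u v2)) ∨
        L.On (L.π (fb * f₂ * fa⁻¹)) f₄⁻¹ (c * L.π (seg L.u v2)) := by
      rcases hv2 with h | h | h | h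
      exacts [Or.inl h.2, absurd h.1 n2.2, absurd h.1 n2.1, Or.inr h.2]
    have t3 : L.On (L.π fb) f₂ (c * L.π (seg L.u v3)) ∨
        L.On (L.π (fb * f₂)) fa⁻¹ (c * L.π (seg L.u v3)) := by
      rcases hv3 with h | h | h | h
      exacts [absurd h.1 n3.1, Or.inl h.2, Or.inr h.2, absurd h.1 n3.2]
    have t4 : L.On (L.π (fb * f₂)) fa⁻¹ (c * L.π (seg L.u v4)) ∨
        L.On (L.π (fb * f₂ * fa⁻¹)) f₄⁻¹ (c * L.π (seg L.u v4)) := by
      rcases hv4 with h | h | h | h
      exacts [absurd h.1 n4.1, absurd h.1 n4.2, Or.inl h.2, Or.inr h.2]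
    rcases t1 with t1 | t1
    · rcases t3 with t3 | t3
      · rcases t4 with t4 | t4
        · exact Or.inr (d13 _ _ t1 t4)
        · exact Or.inl (d24 _ _ t3 t4)
      · exact Or.inr (d13 _ _ t1 t3)
    · rcases t2 with t2 | t2
      · rcases t4 with t4 | t4
        · exact Or.inr (d13 _ _ t2 t4)
        · exact Or.inl (d24 _ _ t1 t4)
      · exact Or.inl (d24 _ _ t1 t2)
  · exact Or.inr (c13 _ _ o1 o3 (L.qd_len_eq rfl))
  · exact Or.inl (c24 _ _ o2 o4 (L.qd_len_eq rfl))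

end Lv
end CPOR
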