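import Pool.Agent.P.MP_2cb329_al.SC1

/-! Small cosets: pairs and chains. -/

set_option autoImplicit false

namespace CPOR
namespace St

variable {L L' : Lv} (s : St L L') (hH : L'.Cl)

/-- `T` is empty or a right coset of `K`, `K` has small generators and `T` a small element. -/
def ScP (L : Lv) (m : ℕ) (K : Subgroup L.G) (T : L.G → Prop) : Prop :=
  (∀ k ∈ K, ∀ g, T g → T (k * g)) ∧ (∀ g g', T g → T g' → g * g'⁻¹ ∈ K) ∧
    GenBy (len L.π) m K ∧ ((∃ g, T g) → ∃ g, T g ∧ len L.π g ≤ m)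

theorem ScP.mono {m m' : ℕ} {K : Subgroup L.G} {T : L.G → Prop} (h : ScP L m K T)
    (hm : m ≤ m') : ScP L m' K T :=
  ⟨h.1, h.2.1, h.2.2.1.mono hm, fun hg =>
    let ⟨g, h1, h2⟩ := h.2.2.2 hg
    ⟨g, h1, h2.trans hm⟩⟩

theorem ScP.congr {m : ℕ} {K K' : Subgroup L.G} {T T' : L.G → Prop} (h : ScP L m K T)
    (hK : ∀ g, g ∈ K ↔ g ∈ K') (hT : ∀ g, T g ↔ T' g) : ScP L m K' T' := by
  obtain rfl : K = K' := Subgroup.ext hK
  obtain rfl : T = T' := funext fun g => propext (hT g)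
  exact h

theorem scp_of {Z : Type} [MulAction L.G Z] {m : ℕ} {c c' : Z} (h1 : L.SG m c)
    (h2 : L.STr m c' c) : ScP L m (MulAction.stabilizer L.G c) (fun g => g • c' = c) := by
  refine ⟨fun k hk g hg => ?_, fun g g' hg hg' => ?_, h1, h2⟩
  · have hg' : g • c' = c := hg
    show (k * g) • c' = c
    rw [mul_smul, hg']; exact hk
  · have h : g • c' = c := hg
    have h' : g' • c' = c := hg'
    rw [MulAction.mem_stabilizer_iff, mul_smul]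
    have : g'⁻¹ • c = c' := by rw [inv_smul_eq_iff, h']
    rw [this, h]

include hH

theorem sc_glue : ∃ F, Bd F ∧ ∀ (m : ℕ) (e : s.Ed) (K₁ K₂ : Subgroup L.G) (T₁ T₂ : L.G → Prop),
    s.SmE m e → (∀ k ∈ K₁, k • e = e) → (∀ k ∈ K₂, k • e = e) → ScP L m K₁ T₁ → ScP L m K₂ T₂ →
    ScP L (F m) (K₁ ⊓ K₂) (fun g => T₁ g ∧ T₂ g) := by
  obtain ⟨F, hF, h⟩ := s.fhG hH s.adm_A
  refine ⟨fun m => F (m + m) + m, (hF.comp (Bd.id.add Bd.id)).add Bd.id, ?_⟩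
  rintro m e K₁ K₂ T₁ T₂ ⟨γ, rfl, hγ⟩ h1 h2 p1 p2
  have hm : m ≤ m + m := Nat.le_add_right _ _
  obtain ⟨a1, a2⟩ := h (m + m) γ K₁ K₂ (hγ.trans hm)
    (by rw [← s.stab_ed]; exact fun k hk => h1 k hk)
    (by rw [← s.stab_ed]; exact fun k hk => h2 k hk) (p1.2.2.1.mono hm) (p2.2.2.1.mono hm)
  refine ⟨fun k hk g hg => ⟨p1.1 k hk.1 g hg.1, p2.1 k hk.2 g hg.2⟩,
    fun g g' hg hg' => ⟨p1.2.1 g g' hg.1 hg'.1, p2.2.1 g g' hg.2 hg'.2⟩,
    a1.mono (Nat.le_add_right _ _), ?_⟩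
  rintro ⟨g₀, t1, t2⟩
  obtain ⟨g₁, u1, l1⟩ := p1.2.2.2 ⟨g₀, t1⟩
  obtain ⟨g₂, u2, l2⟩ := p2.2.2.2 ⟨g₀, t2⟩
  have hl : len L.π (g₁ * g₂⁻¹) ≤ m + m := by
    have := len_mul L.surj g₁ g₂⁻¹
    rw [len_inv L.surj] at this
    omega
  obtain ⟨k₁, hk₁, k₂, hk₂, he, hk⟩ := a2 (g₁ * g₂⁻¹) hl
    ⟨g₁ * g₀⁻¹, p1.2.1 _ _ u1 t1, g₀ * g₂⁻¹, p2.2.1 _ _ t2 u2, by group⟩
  refine ⟨k₁⁻¹ * g₁, ⟨p1.1 _ (K₁.inv_mem hk₁) _ u1, ?_⟩, ?_⟩
  · have : k₁⁻¹ * g₁ = k₂ * g₂ := by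
      rw [inv_mul_eq_iff_eq_mul, ← mul_assoc, ← he]; group
    rw [this]
    exact p2.1 _ hk₂ _ u2
  · have := len_mul L.surj k₁⁻¹ g₁
    rw [len_inv L.surj] at this
    show _ ≤ F (m + m) + m
    omega

/-- (SC) chains of edges with arbitrary end objects. -/
theorem chain_sc : ∃ F, Bd F ∧ ∀ (ZL ZR : Type) [MulAction L.G ZL] [MulAction L.G ZR]
    (n r : ℕ) (cL cL' : ZL) (cR cR' : ZR) (e e' : ℕ → s.Ed), r ≤ n →
    (∀ i ≤ r, s.SmE n (e i) ∧ s.SmE n (e' i)) →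
    (∀ i < r, (∃ v, s.Inc (e i) v ∧ s.Inc (e (i + 1)) v) ∧
      ∃ v, s.Inc (e' i) v ∧ s.Inc (e' (i + 1)) v) →
    L.SG n (cL, e 0) → L.STr n (cL', e' 0) (cL, e 0) →
    L.SG n (cR, e r) → L.STr n (cR', e' r) (cR, e r) →
    GenBy (len L.π) (F n)
        (MulAction.stabilizer L.G cL ⊓ s.EI e (r + 1) ⊓ MulAction.stabilizer L.G cR) ∧
      ((∃ g : L.G, g • cL' = cL ∧ (∀ i ≤ r, g • e' i = e i) ∧ g • cR' = cR) →
        ∃ g : L.G, g • cL' = cL ∧ (∀ i ≤ r, g • e' i = e i) ∧ g • cR' = cR ∧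
          len L.π g ≤ F n) := by
  obtain ⟨F, hF, h⟩ := s.sc_glue hH
  obtain ⟨P, hP, hp⟩ := s.pair_EE hH
  have hG : Bd (fun m => F (P m + m)) := hF.comp (hP.add Bd.id)
  refine ⟨fun n => F (Bd.it (fun m => F (P m + m)) n), hF.comp (Bd.it_bd hG), ?_⟩
  intro ZL ZR _ _ n r cL cL' cR cR' e e' hr hs hi l1 l2 r1 r2
  have mEI : ∀ (K : ℕ) (g : L.G), g ∈ s.EI e K ↔ ∀ i < K, g • e i = e i := fun _ _ => Iff.rfl
  have key := Bd.it_induct (F := fun m => F (P m + m))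
    (fun i m => ScP L m (MulAction.stabilizer L.G cL ⊓ s.EI e (i + 1))
      (fun g => g • cL' = cL ∧ ∀ j ≤ i, g • e' j = e j)) r n hr
    (fun i a b hab hh => hh.mono hab) ?_ ?_ r le_rfl
  · have hn := Bd.le_it (fun m => F (P m + m)) n
    have fin := (h _ (e r) (MulAction.stabilizer L.G cL ⊓ s.EI e (r + 1))
      (MulAction.stabilizer L.G (cR, e r)) _ _ (SmE.mono s (hs r le_rfl).1 hn)
      (fun k hk => (mEI _ _).1 hk.2 r (Nat.lt_succ_self r))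
      (fun k hk => (Prod.ext_iff.1 hk).2) key ((scp_of r1 r2).mono hn)).congr
      (K' := MulAction.stabilizer L.G cL ⊓ s.EI e (r + 1) ⊓ MulAction.stabilizer L.G cR)
      (T' := fun g => g • cL' = cL ∧ (∀ i ≤ r, g • e' i = e i) ∧ g • cR' = cR) ?_ ?_
    · refine ⟨fin.2.2.1, fun hg => ?_⟩
      obtain ⟨g, ⟨a, b, c⟩, d⟩ := fin.2.2.2 hg
      exact ⟨g, a, b, c, d⟩
    · intro g
      simp only [Subgroup.mem_inf, MulAction.mem_stabilizer_iff, mEI, Prod.smul_mk, Prod.mk.injEq]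
      exact ⟨fun x => ⟨x.1, x.2.1⟩, fun x => ⟨x.1, x.2, x.1.2 r (Nat.lt_succ_self r)⟩⟩
    · intro g
      simp only [Prod.smul_mk, Prod.mk.injEq]
      exact ⟨fun x => ⟨x.1.1, x.1.2, x.2.1⟩, fun x => ⟨⟨x.1, x.2.1⟩, x.2.2, x.2.1 r le_rfl⟩⟩
  · refine (scp_of l1 l2).congr (fun g => ?_) (fun g => ?_)
    · simp only [Subgroup.mem_inf, MulAction.mem_stabilizer_iff, mEI, Prod.smul_mk, Prod.mk.injEq]
      refine and_congr_right fun _ => ⟨fun x i hi => ?_, fun x => x 0 (by omega)⟩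
      obtain rfl : i = 0 := by omega
      exact x
    · simp only [Prod.smul_mk, Prod.mk.injEq]
      refine and_congr_right fun _ => ⟨fun x i hi => ?_, fun x => x 0 le_rfl⟩
      obtain rfl : i = 0 := by omega
      exact x
  · intro i m hir hm hh
    obtain ⟨⟨v, v1, v2⟩, ⟨v', w1, w2⟩⟩ := hi i hir
    obtain ⟨q1, q2⟩ := hp m (e i) (e (i + 1)) (e' i) (e' (i + 1)) v v'
      (SmE.mono s (hs i hir.le).1 hm) (SmE.mono s (hs (i + 1) hir).1 hm) (SmE.mono s (hs i hir.le).2 hm)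
      (SmE.mono s (hs (i + 1) hir).2 hm) v1 v2 w1 w2
    refine (h (P m + m) (e i) (MulAction.stabilizer L.G cL ⊓ s.EI e (i + 1))
      (MulAction.stabilizer L.G (e i, e (i + 1))) _ _ (SmE.mono s (hs i hir.le).1 (by omega))
      (fun k hk => (mEI _ _).1 hk.2 i (Nat.lt_succ_self i))
      (fun k hk => (Prod.ext_iff.1 hk).1) (hh.mono (Nat.le_add_left _ _))
      ((scp_of q1 q2).mono (Nat.le_add_right _ _))).congr (fun g => ?_) (fun g => ?_)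
    · simp only [Subgroup.mem_inf, MulAction.mem_stabilizer_iff, mEI, Prod.smul_mk, Prod.mk.injEq]
      refine ⟨fun x => ⟨x.1.1, fun j hj => ?_⟩,
        fun x => ⟨⟨x.1, fun j hj => x.2 j (by omega)⟩, x.2 i (by omega), x.2 (i + 1) (by omega)⟩⟩
      rcases Nat.lt_succ_iff_lt_or_eq.1 hj with hj | rfl
      · exact x.1.2 j hj
      · exact x.2.2
    · simp only [Prod.smul_mk, Prod.mk.injEq]
      refine ⟨fun x => ⟨x.1.1, fun j hj => ?_⟩,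
        fun x => ⟨⟨x.1, fun j hj => x.2 j (by omega)⟩, x.2 i (by omega), x.2 (i + 1) (by omega)⟩⟩
      rcases Nat.le_succ_iff.1 hj with hj | rfl
      · exact x.1.2 j hj
      · exact x.2.2

/-- (SC) without end objects. -/
theorem chain_sc0 : ∃ F, Bd F ∧ ∀ (n r : ℕ) (e e' : ℕ → s.Ed), r ≤ n →
    (∀ i ≤ r, s.SmE n (e i) ∧ s.SmE n (e' i)) →
    (∀ i < r, (∃ v, s.Inc (e i) v ∧ s.Inc (e (i + 1)) v) ∧
      ∃ v, s.Inc (e' i) v ∧ s.Inc (e' (i + 1)) v) →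
    GenBy (len L.π) (F n) (s.EI e (r + 1)) ∧
      ((∃ g : L.G, ∀ i ≤ r, g • e' i = e i) →
        ∃ g : L.G, (∀ i ≤ r, g • e' i = e i) ∧ len L.π g ≤ F n) := by
  obtain ⟨F, hF, h⟩ := s.chain_sc hH
  obtain ⟨P, hP, hp⟩ := s.one_E hH
  refine ⟨fun n => F (P n + n), hF.comp (hP.add Bd.id), ?_⟩
  intro n r e e' hr hs hi
  have dbl : ∀ i ≤ r, L.SG (P n + n) (e i, e i) ∧ L.STr (P n + n) (e' i, e' i) (e i, e i) := by
    intro i hir
    obtain ⟨q1, q2⟩ := hp n (e i) (e' i) (hs i hir).1 (hs i hir).2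
    have q := ((scp_of q1 q2).mono (Nat.le_add_right _ n)).congr
      (K' := MulAction.stabilizer L.G (e i, e i)) (T' := fun g => g • (e' i, e' i) = (e i, e i))
      (fun g => by
        simp only [MulAction.mem_stabilizer_iff, Prod.smul_mk, Prod.mk.injEq, and_self])
      (fun g => by simp only [Prod.smul_mk, Prod.mk.injEq, and_self])
    exact ⟨q.2.2.1, q.2.2.2⟩
  obtain ⟨a1, a2⟩ := h s.Ed s.Ed (P n + n) r (e 0) (e' 0) (e r) (e' r) e e' (by omega)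
    (fun i hir => ⟨SmE.mono s (hs i hir).1 (Nat.le_add_left _ _), SmE.mono s (hs i hir).2 (Nat.le_add_left _ _)⟩)
    hi (dbl 0 (Nat.zero_le r)).1 (dbl 0 (Nat.zero_le r)).2 (dbl r le_rfl).1 (dbl r le_rfl).2
  have hK : MulAction.stabilizer L.G (e 0) ⊓ s.EI e (r + 1) ⊓ MulAction.stabilizer L.G (e r) =
      s.EI e (r + 1) := by
    refine le_antisymm (inf_le_left.trans inf_le_right) fun g hg => ?_
    exact ⟨⟨hg 0 (Nat.succ_pos r), hg⟩, hg r (Nat.lt_succ_self r)⟩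
  rw [hK] at a1
  refine ⟨a1, fun ⟨g, hg⟩ => ?_⟩
  obtain ⟨g', _, b, _, d⟩ := a2 ⟨g, hg 0 (Nat.zero_le r), hg, hg r le_rfl⟩
  exact ⟨g', b, d⟩

end St
end CPOR
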