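import Pool.Agent.P.MP_2cb329_al.OM

/-! Small cosets: pairs and chains. -/

set_option autoImplicit false

namespace CPOR

theorem sc_genBy_map {Γ Δ : Type*} [Group Γ] [Group Δ] (θ : Γ →* Δ) {ν : Γ → ℕ} {ν' : Δ → ℕ}
    {n m : ℕ} {K : Subgroup Γ} (h : GenBy ν n K) (hl : ∀ k ∈ K, ν k ≤ n → ν' (θ k) ≤ m) :
    GenBy ν' m (K.map θ) := by
  refine (Subgroup.map_mono h).trans ?_
  rw [MonoidHom.map_closure]
  refine Subgroup.closure_mono ?_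
  rintro _ ⟨k, hk, rfl⟩
  exact ⟨⟨k, hk.1, rfl⟩, hl k hk.1 hk.2⟩

theorem sc_genBy_pull {Γ Δ : Type*} [Group Γ] [Group Δ] (θ : Γ →* Δ) {ν : Γ → ℕ} {ν' : Δ → ℕ}
    {n m : ℕ} {P : Subgroup Γ} (hinj : ∀ a ∈ P, ∀ b ∈ P, θ a = θ b → a = b)
    (h : GenBy ν' n (P.map θ)) (hl : ∀ k ∈ P, ν' (θ k) ≤ n → ν k ≤ m) : GenBy ν m P := by
  intro f hf
  have h1 : Subgroup.closure {k | k ∈ P.map θ ∧ ν' k ≤ n} ≤
      (Subgroup.closure {k | k ∈ P ∧ ν k ≤ m}).map θ := by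
    rw [Subgroup.closure_le]
    rintro _ ⟨⟨k, hk, rfl⟩, hk'⟩
    exact ⟨k, Subgroup.subset_closure ⟨hk, hl k hk hk'⟩, rfl⟩
  obtain ⟨f', hf', he⟩ := h1 (h ⟨f, hf, rfl⟩)
  have h2 : Subgroup.closure {k | k ∈ P ∧ ν k ≤ m} ≤ P := by
    rw [Subgroup.closure_le]; exact fun k hk => hk.1
  rw [← hinj f' (h2 hf') f hf he]; exact hf'

namespace Lv

variable {L : Lv}

theorem sc_sg_mono {Z : Type} [MulAction L.G Z] {n m : ℕ} {c : Z} (h : L.SG n c) (hnm : n ≤ m) :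
    L.SG m c := GenBy.mono h hnm

theorem sc_str_mono {Z : Type} [MulAction L.G Z] {n m : ℕ} {c' c : Z} (h : L.STr n c' c)
    (hnm : n ≤ m) : L.STr m c' c := fun hg =>
  let ⟨g, h1, h2⟩ := h hg; ⟨g, h1, h2.trans hnm⟩

theorem sc_sg_congr {Z Z' : Type} [MulAction L.G Z] [MulAction L.G Z'] {n : ℕ} {c : Z} {d : Z'}
    (h : L.SG n c) (he : ∀ k : L.G, k • c = c ↔ k • d = d) : L.SG n d := by
  have : MulAction.stabilizer L.G d = MulAction.stabilizer L.G c := by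
    ext k; exact (he k).symm
  unfold SG at h ⊢
  rwa [this]

theorem sc_str_congr {Z Z' : Type} [MulAction L.G Z] [MulAction L.G Z'] {n : ℕ} {c' c : Z}
    {d' d : Z'} (h : L.STr n c' c) (he : ∀ k : L.G, k • c' = c ↔ k • d' = d) : L.STr n d' d :=
  fun ⟨g, hg⟩ => let ⟨k, h1, h2⟩ := h ⟨g, (he g).2 hg⟩; ⟨k, (he k).1 h1, h2⟩

end Lv

theorem sc_smul_iff {Γ Z : Type*} [Group Γ] [MulAction Γ Z] (k g g' : Γ) (z : Z) :
    k • g' • z = g • z ↔ g⁻¹ * k * g' ∈ MulAction.stabilizer Γ z := by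
  rw [MulAction.mem_stabilizer_iff, mul_smul, mul_smul, inv_smul_eq_iff]

namespace St

section Aux

variable {L L' : Lv} (s : St L L')

/-- Words read from the point `γ`. -/
def scθ (γ : L.G) : FreeGroup L'.X →* L.G := (MulAut.conj γ).toMonoidHom.comp s.w

theorem scθ_apply (γ : L.G) (f : FreeGroup L'.X) : s.scθ γ f = γ * s.w f * γ⁻¹ := rfl

theorem scθ_inj {S : Set L'.X} (hS : L'.Adm S) (γ : L.G) {f g : FreeGroup L'.X} (hf : f ∈ FS S)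
    (hg : g ∈ FS S) (h : s.scθ γ f = s.scθ γ g) : f = g := by
  refine s.w_inj hS hf hg ?_
  rw [scθ_apply, scθ_apply] at h
  exact mul_left_cancel (mul_right_cancel h)

theorem scθ_surj {S : Set L'.X} {γ k : L.G} (h : k ∈ cj γ (s.M' S)) :
    ∃ f ∈ FS S, s.scθ γ f = k := by
  obtain ⟨f, hf, he⟩ := s.mem_M'.1 (mem_cj.1 h)
  exact ⟨f, hf, by rw [scθ_apply, he]; group⟩

theorem scθ_map {S : Set L'.X} {γ : L.G} {K : Subgroup L.G} (h : K ≤ cj γ (s.M' S)) :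
    (K.comap (s.scθ γ) ⊓ FS S).map (s.scθ γ) = K := by
  refine le_antisymm ?_ fun k hk => ?_
  · rintro _ ⟨f, hf, rfl⟩; exact hf.1
  · obtain ⟨f, hf, rfl⟩ := s.scθ_surj (h hk)
    exact ⟨f, ⟨hk, hf⟩, rfl⟩

/-- Norm against length for words read from a small point. -/
theorem scθ_len (hH : L'.Cl) {S : Set L'.X} (hS : L'.Adm S) : ∃ F₁ F₂, Bd F₁ ∧ Bd F₂ ∧
    ∀ (n : ℕ) (γ : L.G), len L.π γ ≤ n →
      (∀ f ∈ FS S, len L.π (s.scθ γ f) ≤ n → f.norm ≤ F₁ n) ∧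
      ∀ m f, n ≤ m → f.norm ≤ m → len L.π (s.scθ γ f) ≤ F₂ m := by
  obtain ⟨FW, hFW, hw⟩ := s.memW hH hS
  obtain ⟨c, hc⟩ := s.lip_w
  refine ⟨fun n => FW (n + n + n), fun m => m + c * m + m, hFW.comp ((Bd.id.add Bd.id).add Bd.id),
    (Bd.id.add ((Bd.const c).mul Bd.id)).add Bd.id, fun n γ hγ => ⟨fun f hf hl => ?_, ?_⟩⟩
  · refine (hw f hf).trans (hFW.mono ?_)
    have : s.w f = γ⁻¹ * s.scθ γ f * γ := by rw [scθ_apply]; group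
    rw [this]
    refine (len_mul3 L.surj _ _ _).trans ?_
    rw [len_inv L.surj]; omega
  · intro m f hm hf
    rw [scθ_apply]
    refine (len_mul3 L.surj _ _ _).trans ?_
    have a1 := hc f
    have a2 := Nat.mul_le_mul_left c hf
    rw [len_inv L.surj]
    show _ ≤ m + c * m + m
    omega

/-- Two objects whose stabilisers are Magnus subgroups of one vertex group. -/
theorem sc_pair_gen (hH : L'.Cl) {S S' : Set L'.X} (hS : L'.Adm S) (hS' : L'.Adm S') :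
    ∃ F, Bd F ∧ ∀ (Z₁ Z₂ : Type) [MulAction L.G Z₁] [MulAction L.G Z₂] (z₁ : Z₁) (z₂ : Z₂),
    MulAction.stabilizer L.G z₁ = s.M' S → MulAction.stabilizer L.G z₂ = s.M' S' →
    ∀ (n : ℕ) (g₁ g₂ g₁' g₂' : L.G), len L.π g₁ ≤ n → len L.π g₂ ≤ n → len L.π g₁' ≤ n →
    len L.π g₂' ≤ n → s.vx g₁ = s.vx g₂ → s.vx g₁' = s.vx g₂' →
    L.SG (F n) (g₁ • z₁, g₂ • z₂) ∧ L.STr (F n) (g₁' • z₁, g₂' • z₂) (g₁ • z₁, g₂ • z₂) := by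
  obtain ⟨F₁, hF₁, h1⟩ := hH.dc1 S S' hS hS'
  obtain ⟨F₂, hF₂, h2⟩ := hH.dc2 S S' hS hS'
  obtain ⟨FH, hFH, hm⟩ := s.memH hH
  obtain ⟨c, hc⟩ := s.lip_j
  have hN : Bd fun n => FH (n + n) := hFH.comp (Bd.id.add Bd.id)
  refine ⟨fun n => n + c * (F₁ (FH (n + n)) + F₂ (FH (n + n))) + n,
    (Bd.id.add ((Bd.const c).mul ((hF₁.comp hN).add (hF₂.comp hN)))).add Bd.id, ?_⟩
  intro Z₁ Z₂ _ _ z₁ z₂ hz₁ hz₂ n g₁ g₂ g₁' g₂' l₁ l₂ l₁' l₂' hv hv'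
  obtain ⟨h, rfl⟩ := s.vx_eq_iff.1 hv
  obtain ⟨h', rfl⟩ := s.vx_eq_iff.1 hv'
  have hlen : ∀ (g : L.G) (x : L'.G), len L.π g ≤ n → len L.π (g * s.j x) ≤ n →
      len L'.π x ≤ FH (n + n) := by
    intro g x a b
    refine (hm x).trans (hFH.mono ?_)
    have : s.j x = g⁻¹ * (g * s.j x) := by group
    rw [this]
    refine (len_mul L.surj _ _).trans ?_
    rw [len_inv L.surj]; omega
  have hup : ∀ (g g' : L.G) (x : L'.G), len L.π g ≤ n → len L.π g' ≤ n →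
      len L'.π x ≤ F₁ (FH (n + n)) + F₂ (FH (n + n)) →
      len L.π (g * s.j x * g'⁻¹) ≤ n + c * (F₁ (FH (n + n)) + F₂ (FH (n + n))) + n := by
    intro g g' x a b d
    refine (len_mul3 L.surj _ _ _).trans ?_
    have a1 := hc x
    have a2 := Nat.mul_le_mul_left c d
    rw [len_inv L.surj]; omega
  have key : ∀ (k g g' : L.G) (x x' : L'.G),
      k • (g' • z₁, (g' * s.j x') • z₂) = (g • z₁, (g * s.j x) • z₂) ↔
        ∃ m ∈ MS L'.π S, x⁻¹ * m * x' ∈ MS L'.π S' ∧ k = g * s.j m * g'⁻¹ := by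
    intro k g g' x x'
    rw [Prod.smul_mk, Prod.mk.injEq, sc_smul_iff, sc_smul_iff, hz₁, hz₂, M'_eq, M'_eq]
    constructor
    · rintro ⟨⟨m, hm1, e1⟩, m', hm2, e2⟩
      refine ⟨m, hm1, ?_, by rw [e1]; group⟩
      have : x⁻¹ * m * x' = m' := by
        apply s.j_inj
        rw [map_mul, map_mul, map_inv, e1, e2]; group
      rw [this]; exact hm2
    · rintro ⟨m, hm1, hm2, rfl⟩
      refine ⟨⟨m, hm1, by group⟩, _, hm2, ?_⟩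
      rw [map_mul, map_mul, map_inv]; group
  constructor
  · have hg := sc_genBy_map ((MulAut.conj g₁).toMonoidHom.comp s.j) (ν' := len L.π)
      (m := n + c * (F₁ (FH (n + n)) + F₂ (FH (n + n))) + n)
      (h2 _ h (hlen g₁ h l₁ l₂)) fun k _ hk => hup g₁ g₁ k l₁ l₁ (by omega)
    have e : MulAction.stabilizer L.G (g₁ • z₁, (g₁ * s.j h) • z₂) =
        (MS L'.π S ⊓ cj h (MS L'.π S')).map ((MulAut.conj g₁).toMonoidHom.comp s.j) := by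
      ext k
      rw [MulAction.mem_stabilizer_iff, key]
      constructor
      · rintro ⟨m, a, b, rfl⟩
        exact ⟨m, ⟨a, mem_cj.2 b⟩, rfl⟩
      · rintro ⟨m, ⟨a, b⟩, rfl⟩
        exact ⟨m, a, mem_cj.1 b, rfl⟩
    unfold Lv.SG
    rw [e]; exact hg
  · rintro ⟨k, hk⟩
    obtain ⟨m, a, b, -⟩ := (key _ _ _ _ _).1 hk
    obtain ⟨m', a', b', l⟩ := h1 _ h' h (hlen g₁' h' l₁' l₂') (hlen g₁ h l₁ l₂) m a b
    exact ⟨_, (key _ _ _ _ _).2 ⟨m', a', b', rfl⟩, hup g₁ g₁' m' l₁ l₁' (by omega)⟩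

/-- The base edge of a type. -/
def scZ (b : Bool) : s.Ed := if b then s.ed 1 else s.ed s.t⁻¹

/-- The letters of a type. -/
def scS (b : Bool) : Set L'.X := if b then s.SA else s.SB

/-- The end of a type. -/
def scP (b : Bool) (e : s.Ed) : s.Vt := if b then s.src e else s.tgt e

theorem scS_adm (b : Bool) : L'.Adm (s.scS b) := by
  cases b
  · exact s.adm_B
  · exact s.adm_A

theorem sc_cj_one (K : Subgroup L.G) : cj 1 K = K := by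
  ext k; simp

theorem scZ_stab (b : Bool) : MulAction.stabilizer L.G (s.scZ b) = s.M' (s.scS b) := by
  cases b
  · show MulAction.stabilizer L.G (s.ed s.t⁻¹) = s.M' s.SB
    rw [s.stab_ed_B, inv_mul_cancel, sc_cj_one]
  · show MulAction.stabilizer L.G (s.ed 1) = s.M' s.SA
    rw [s.stab_ed, sc_cj_one]

theorem scP_smul (b : Bool) (k : L.G) (e : s.Ed) : s.scP b (k • e) = k • s.scP b e := by
  cases b
  · exact s.smul_tgt k e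
  · exact s.smul_src k e

theorem scP_inc {e : s.Ed} {v : s.Vt} (h : s.Inc e v) : ∃ b, s.scP b e = v :=
  h.elim (fun h => ⟨true, h⟩) fun h => ⟨false, h⟩

theorem sc_inc_smul {e : s.Ed} {v : s.Vt} (h : s.Inc e v) (g : L.G) :
    s.Inc (g • e) (g • v) := by
  rcases h with h | h
  · exact Or.inl (by rw [s.smul_src, h])
  · exact Or.inr (by rw [s.smul_tgt, h])

theorem sc_rep {n : ℕ} {e : s.Ed} (h : s.SmE n e) (b : Bool) :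
    ∃ g, e = g • s.scZ b ∧ s.vx g = s.scP b e ∧ len L.π g ≤ n + len L.π s.t := by
  obtain ⟨g, rfl, hl⟩ := h
  cases b
  · refine ⟨g * s.t, ?_, rfl, (len_mul L.surj _ _).trans (by omega)⟩
    show s.ed g = s.ed (g * s.t * s.t⁻¹)
    rw [mul_inv_cancel_right]
  · refine ⟨g, ?_, rfl, by omega⟩
    show s.ed g = s.ed (g * 1)
    rw [mul_one]

theorem sc_rep_ov {a : L.X} {n : ℕ} {ω : L.Om a} {v : s.Vt} (h : s.SmOV n ω v) :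
    ∃ g, (ω, v) = g • (L.om a 1, s.vx 1) ∧ s.vx g = v ∧ len L.π g ≤ n := by
  obtain ⟨g, rfl, rfl, hl⟩ := h
  refine ⟨g, ?_, rfl, hl⟩
  show (L.om a g, s.vx g) = (L.om a (g * 1), s.vx (g * 1))
  rw [mul_one]

theorem sc_stab_ov {a : L.X} (ha : L.Occ a) :
    MulAction.stabilizer L.G (L.om a 1, s.vx 1) = s.M' (s.SN a) := by
  rw [s.stab_ov ha, sc_cj_one]

end Aux

variable {L L' : Lv} (s : St L L') (hH : L'.Cl)
include hH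

/-- (FH) inside a small conjugate of a Magnus subgroup of `H`. -/
theorem fhG {S : Set L'.X} (hS : L'.Adm S) : ∃ F, Bd F ∧ ∀ (n : ℕ) (γ : L.G)
    (K₁ K₂ : Subgroup L.G), len L.π γ ≤ n → K₁ ≤ cj γ (s.M' S) → K₂ ≤ cj γ (s.M' S) →
    GenBy (len L.π) n K₁ → GenBy (len L.π) n K₂ →
    GenBy (len L.π) (F n) (K₁ ⊓ K₂) ∧ ∀ g, len L.π g ≤ n → (∃ k₁ ∈ K₁, ∃ k₂ ∈ K₂, g = k₁ * k₂) →
      ∃ k₁ ∈ K₁, ∃ k₂ ∈ K₂, g = k₁ * k₂ ∧ len L.π k₁ ≤ F n := by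
  obtain ⟨F₁, F₂, hF₁, hF₂, hl⟩ := s.scθ_len hH hS
  obtain ⟨F, hF, hfh⟩ := fh_free (Y := L'.X)
  refine ⟨fun n => F₂ (F (F₁ n) + n), hF₂.comp ((hF.comp hF₁).add Bd.id), ?_⟩
  intro n γ K₁ K₂ hγ h₁ h₂ g₁ g₂
  obtain ⟨l1, l2⟩ := hl n γ hγ
  have pull : ∀ K : Subgroup L.G, K ≤ cj γ (s.M' S) → GenBy (len L.π) n K →
      GenBy FreeGroup.norm (F₁ n) (K.comap (s.scθ γ) ⊓ FS S) := fun K hK hg =>
    sc_genBy_pull (s.scθ γ) (fun a ha b hb => s.scθ_inj hS γ ha.2 hb.2)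
      (by rw [s.scθ_map hK]; exact hg) fun k hk => l1 k hk.2
  obtain ⟨p1, p2⟩ := hfh _ _ _ (pull K₁ h₁ g₁) (pull K₂ h₂ g₂)
  constructor
  · have e : (K₁.comap (s.scθ γ) ⊓ FS S) ⊓ (K₂.comap (s.scθ γ) ⊓ FS S) =
        (K₁ ⊓ K₂).comap (s.scθ γ) ⊓ FS S := by
      rw [Subgroup.comap_inf]
      exact (inf_inf_distrib_right _ _ _).symm
    rw [e] at p1
    rw [← s.scθ_map (inf_le_left.trans h₁ : K₁ ⊓ K₂ ≤ _)]
    exact sc_genBy_map _ p1 fun k _ hk => l2 _ k (Nat.le_add_left _ _) (by omega)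
  · rintro g hg ⟨k₁, hk₁, k₂, hk₂, rfl⟩
    obtain ⟨f₁, hf₁, rfl⟩ := s.scθ_surj (h₁ hk₁)
    obtain ⟨f₂, hf₂, rfl⟩ := s.scθ_surj (h₂ hk₂)
    rw [← map_mul] at hg ⊢
    obtain ⟨q₁, hq₁, q₂, hq₂, e, hq⟩ := p2 _ (l1 _ ((FS S).mul_mem hf₁ hf₂) hg)
      ⟨f₁, ⟨hk₁, hf₁⟩, f₂, ⟨hk₂, hf₂⟩, rfl⟩
    exact ⟨_, hq₁.1, _, hq₂.1, by rw [e, map_mul],
      l2 _ q₁ (Nat.le_add_left _ _) (by omega)⟩

/-- A cyclic subgroup of a small edge group with small generating elements. -/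
theorem cyclicG : ∃ F, Bd F ∧ ∀ (n : ℕ) (e : s.Ed) (K : Subgroup L.G) (c : L.G), s.SmE n e →
    K ≤ MulAction.stabilizer L.G e → GenBy (len L.π) n K → K ≤ Subgroup.zpowers c →
    ∃ d, K = Subgroup.zpowers d ∧ len L.π d ≤ F n := by
  obtain ⟨F₁, F₂, hF₁, hF₂, hl⟩ := s.scθ_len hH s.adm_A
  refine ⟨fun n => F₂ (F₁ n + n), hF₂.comp (hF₁.add Bd.id), ?_⟩
  rintro n e K c ⟨γ, rfl, hγ⟩ hK hg hc
  rw [s.stab_ed] at hK
  obtain ⟨l1, l2⟩ := hl n γ hγ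
  have pull : GenBy FreeGroup.norm (F₁ n) (K.comap (s.scθ γ) ⊓ FS s.SA) :=
    sc_genBy_pull (s.scθ γ) (fun a ha b hb => s.scθ_inj s.adm_A γ ha.2 hb.2)
      (by rw [s.scθ_map hK]; exact hg) fun k hk => l1 k hk.2
  obtain ⟨i, hi⟩ := (Subgroup.le_zpowers_iff c K).1 hc
  obtain ⟨f₀, hf₀, e₀⟩ := s.scθ_surj (hK (hi ▸ Subgroup.mem_zpowers (c ^ i)))
  have hle : K.comap (s.scθ γ) ⊓ FS s.SA ≤ Subgroup.zpowers f₀ := by
    intro f hf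
    have h1 : s.scθ γ f ∈ Subgroup.zpowers (c ^ i) := hi ▸ hf.1
    obtain ⟨p, hp⟩ := Subgroup.mem_zpowers_iff.1 h1
    refine Subgroup.mem_zpowers_iff.2 ⟨p, s.scθ_inj s.adm_A γ ((FS _).zpow_mem hf₀ p) hf.2 ?_⟩
    rw [map_zpow, e₀, hp]
  obtain ⟨d, hd, hdl⟩ := cyclic_short pull hle
  refine ⟨s.scθ γ d, ?_, l2 _ d (Nat.le_add_left _ _) (by omega)⟩
  rw [← MonoidHom.map_zpowers, ← hd, s.scθ_map hK]

/-- Exponents of small powers in a small edge group. -/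
theorem expG : ∃ F, Bd F ∧ ∀ (n : ℕ) (e : s.Ed) (c : L.G) (m : ℤ), s.SmE n e → c • e = e → c ≠ 1 →
    len L.π (c ^ m) ≤ n → m.natAbs ≤ F n := by
  obtain ⟨F₁, F₂, hF₁, -, hl⟩ := s.scθ_len hH s.adm_A
  refine ⟨F₁, hF₁, ?_⟩
  rintro n e c m ⟨γ, rfl, hγ⟩ hc h1 hm
  have hc' : c ∈ MulAction.stabilizer L.G (s.ed γ) := hc
  rw [s.stab_ed] at hc'
  obtain ⟨f, hf, rfl⟩ := s.scθ_surj hc'
  have hf1 : f ≠ 1 := by
    rintro rfl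
    exact h1 (map_one _)
  rw [← map_zpow] at hm
  have h2 := (hl n γ hγ).1 _ ((FS _).zpow_mem hf m) hm
  have h3 := natAbs_le_norm_conj_zpow hf1 1 m
  simp only [one_mul, inv_one, mul_one] at h3
  omega

/-- Two cosets of Magnus subgroups of `H` in one vertex. -/
theorem pair_cos {S S' : Set L'.X} (hS : L'.Adm S) (hS' : L'.Adm S') : ∃ F, Bd F ∧
    ∀ (n : ℕ) (g₁ g₂ g₁' g₂' : L.G), len L.π g₁ ≤ n → len L.π g₂ ≤ n → len L.π g₁' ≤ n →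
    len L.π g₂' ≤ n → s.vx g₁ = s.vx g₂ → s.vx g₁' = s.vx g₂' →
    L.SG (F n) ((g₁ : L.G ⧸ s.M' S), (g₂ : L.G ⧸ s.M' S')) ∧
      L.STr (F n) ((g₁' : L.G ⧸ s.M' S), (g₂' : L.G ⧸ s.M' S'))
        ((g₁ : L.G ⧸ s.M' S), (g₂ : L.G ⧸ s.M' S')) := by
  obtain ⟨F, hF, h⟩ := s.sc_pair_gen hH hS hS'
  refine ⟨F, hF, fun n g₁ g₂ g₁' g₂' a b c d e f => ?_⟩
  have := h (L.G ⧸ s.M' S) (L.G ⧸ s.M' S') ((1 : L.G) : L.G ⧸ s.M' S) ((1 : L.G) : L.G ⧸ s.M' S')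
    (by rw [stabilizer_coe, sc_cj_one]) (by rw [stabilizer_coe, sc_cj_one])
    n g₁ g₂ g₁' g₂' a b c d e f
  simpa only [MulAction.Quotient.smul_coe, smul_eq_mul, mul_one] using this

theorem one_E : ∃ F, Bd F ∧ ∀ (n : ℕ) (e e' : s.Ed), s.SmE n e → s.SmE n e' →
    L.SG (F n) e ∧ L.STr (F n) e' e := by
  obtain ⟨F, hF, h⟩ := s.pair_cos hH s.adm_A s.adm_A
  refine ⟨F, hF, ?_⟩
  rintro n e e' ⟨g, rfl, hg⟩ ⟨g', rfl, hg'⟩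
  obtain ⟨h1, h2⟩ := h n g g g' g' hg hg hg' hg' rfl rfl
  exact ⟨Lv.sc_sg_congr h1 fun k => by rw [Prod.smul_mk, Prod.mk.injEq, and_self],
    Lv.sc_str_congr h2 fun k => by rw [Prod.smul_mk, Prod.mk.injEq, and_self]⟩

theorem pair_EE : ∃ F, Bd F ∧ ∀ (n : ℕ) (e f e' f' : s.Ed) (v v' : s.Vt), s.SmE n e → s.SmE n f →
    s.SmE n e' → s.SmE n f' → s.Inc e v → s.Inc f v → s.Inc e' v' → s.Inc f' v' →
    L.SG (F n) (e, f) ∧ L.STr (F n) (e', f') (e, f) := by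
  have h0 := fun b : Bool × Bool => s.sc_pair_gen hH (s.scS_adm b.1) (s.scS_adm b.2)
  choose F hF h using h0
  obtain ⟨G, hG, hle⟩ := Bd.finite_sup F hF
  obtain ⟨F₁, hF₁, h1⟩ := s.one_E hH
  refine ⟨fun n => G (n + len L.π s.t) + F₁ n,
    (hG.comp (Bd.id.add (Bd.const _))).add hF₁, ?_⟩
  intro n e f e' f' v v' he hf he' hf' ie jf ie' jf'
  obtain ⟨b₁, hb₁⟩ := s.scP_inc ie
  obtain ⟨b₂, hb₂⟩ := s.scP_inc jf
  obtain ⟨g₁, e₁, p₁, l₁⟩ := s.sc_rep he b₁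
  obtain ⟨g₂, e₂, p₂, l₂⟩ := s.sc_rep hf b₂
  obtain ⟨g₁', e₁', p₁', l₁'⟩ := s.sc_rep he' b₁
  obtain ⟨g₂', e₂', p₂', l₂'⟩ := s.sc_rep hf' b₂
  have hv : s.vx g₁ = s.vx g₂ := by rw [p₁, p₂, hb₁, hb₂]
  have hbd : F (b₁, b₂) (n + len L.π s.t) ≤ G (n + len L.π s.t) + F₁ n :=
    (hle _ _).trans (Nat.le_add_right _ _)
  constructor
  · have := (h (b₁, b₂) _ _ _ _ (s.scZ_stab b₁) (s.scZ_stab b₂) _ g₁ g₂ g₁ g₂ l₁ l₂ l₁ l₂ hv hv).1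
    rw [← e₁, ← e₂] at this
    exact Lv.sc_sg_mono this hbd
  · rintro ⟨k, hk⟩
    have hk' := hk
    rw [Prod.smul_mk, Prod.mk.injEq] at hk'
    by_cases hef : e = f
    · obtain ⟨k', a, b⟩ := (h1 n e e' he he').2 ⟨k, hk'.1⟩
      have : f' = e' := smul_left_cancel k (by rw [hk'.1, hk'.2, hef])
      exact ⟨k', by rw [Prod.smul_mk, this, a, hef], b.trans (Nat.le_add_left _ _)⟩
    · have hkv : k • v' = v := s.inc_unique hef (hk'.1 ▸ s.sc_inc_smul ie' k)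
        (hk'.2 ▸ s.sc_inc_smul jf' k) ie jf
      have hv' : s.vx g₁' = s.vx g₂' := by
        apply smul_left_cancel k
        rw [p₁', p₂', ← s.scP_smul, ← s.scP_smul, hk'.1, hk'.2, hb₁, hb₂]
      have := (h (b₁, b₂) _ _ _ _ (s.scZ_stab b₁) (s.scZ_stab b₂) _ g₁ g₂ g₁' g₂'
        l₁ l₂ l₁' l₂' hv hv').2
      rw [← e₁, ← e₂, ← e₁', ← e₂'] at this
      exact Lv.sc_str_mono this hbd ⟨k, hk⟩

theorem pair_OE {a : L.X} (ha : L.Occ a) : ∃ F, Bd F ∧ ∀ (n : ℕ) (ω ω' : L.Om a) (v v' : s.Vt)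
    (e e' : s.Ed), s.SmOV n ω v → s.SmOV n ω' v' → s.SmE n e → s.SmE n e' → s.Inc e v →
    s.Inc e' v' → L.SG (F n) ((ω, v), e) ∧ L.STr (F n) ((ω', v'), e') ((ω, v), e) := by
  have h0 := fun b : Bool => s.sc_pair_gen hH (s.adm_N ha) (s.scS_adm b)
  choose F hF h using h0
  obtain ⟨G, hG, hle⟩ := Bd.finite_sup F hF
  refine ⟨fun n => G (n + len L.π s.t), hG.comp (Bd.id.add (Bd.const _)), ?_⟩
  intro n ω ω' v v' e e' ho ho' he he' ie _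
  obtain ⟨b, hb⟩ := s.scP_inc ie
  obtain ⟨g₁, e₁, p₁, l₁⟩ := s.sc_rep_ov ho
  obtain ⟨g₁', e₁', p₁', l₁'⟩ := s.sc_rep_ov ho'
  obtain ⟨g₂, e₂, p₂, l₂⟩ := s.sc_rep he b
  obtain ⟨g₂', e₂', p₂', l₂'⟩ := s.sc_rep he' b
  have m₁ := l₁.trans (Nat.le_add_right n (len L.π s.t))
  have m₁' := l₁'.trans (Nat.le_add_right n (len L.π s.t))
  have hv : s.vx g₁ = s.vx g₂ := by rw [p₁, p₂, hb]
  constructor
  · have := (h b _ _ _ _ (s.sc_stab_ov ha) (s.scZ_stab b) _ g₁ g₂ g₁ g₂ m₁ l₂ m₁ l₂ hv hv).1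
    rw [← e₁, ← e₂] at this
    exact Lv.sc_sg_mono this (hle _ _)
  · rintro ⟨k, hk⟩
    have hk' := hk
    rw [Prod.smul_mk, Prod.mk.injEq, Prod.smul_mk, Prod.mk.injEq] at hk'
    have hv' : s.vx g₁' = s.vx g₂' := by
      apply smul_left_cancel k
      rw [p₁', p₂', ← s.scP_smul, hk'.1.2, hk'.2, hb]
    have := (h b _ _ _ _ (s.sc_stab_ov ha) (s.scZ_stab b) _ g₁ g₂ g₁' g₂' m₁ l₂ m₁' l₂' hv hv').2
    rw [← e₁, ← e₂, ← e₁', ← e₂'] at this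
    exact Lv.sc_str_mono this (hle _ _) ⟨k, hk⟩

theorem pair_OO {a b : L.X} (ha : L.Occ a) (hb : L.Occ b) : ∃ F, Bd F ∧ ∀ (n : ℕ)
    (ω₁ ω₁' : L.Om a) (ω₂ ω₂' : L.Om b) (v v' : s.Vt), s.SmOV n ω₁ v → s.SmOV n ω₂ v →
    s.SmOV n ω₁' v' → s.SmOV n ω₂' v' →
    L.SG (F n) ((ω₁, ω₂), v) ∧ L.STr (F n) ((ω₁', ω₂'), v') ((ω₁, ω₂), v) := by
  obtain ⟨F, hF, h⟩ := s.sc_pair_gen hH (s.adm_N ha) (s.adm_N hb)
  refine ⟨F, hF, ?_⟩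
  intro n ω₁ ω₁' ω₂ ω₂' v v' h₁ h₂ h₁' h₂'
  obtain ⟨g₁, e₁, p₁, l₁⟩ := s.sc_rep_ov h₁
  obtain ⟨g₂, e₂, p₂, l₂⟩ := s.sc_rep_ov h₂
  obtain ⟨g₁', e₁', p₁', l₁'⟩ := s.sc_rep_ov h₁'
  obtain ⟨g₂', e₂', p₂', l₂'⟩ := s.sc_rep_ov h₂'
  have := h _ _ _ _ (s.sc_stab_ov ha) (s.sc_stab_ov hb) n g₁ g₂ g₁' g₂' l₁ l₂ l₁' l₂'
    (p₁.trans p₂.symm) (p₁'.trans p₂'.symm)
  rw [← e₁, ← e₂, ← e₁', ← e₂'] at this
  refine ⟨Lv.sc_sg_congr this.1 fun k => ?_, Lv.sc_str_congr this.2 fun k => ?_⟩ <;>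
  · simp only [Prod.smul_mk, Prod.mk.injEq]
    tauto

end St
end CPOR
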