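import Pool.Agent.P.MP_2cb329_al.CNT
import Pool.Agent.P.MP_2cb329_al.QD

/-! Strong inertia in graph form. -/

set_option autoImplicit false

namespace CPOR

namespace SigP

/-- Representatives of a finite set for a preorder. -/
theorem exists_reps {Z : Type} (ρ : Z → Z → Prop) (hr : ∀ y, ρ y y)
    (ht : ∀ a b c, ρ a b → ρ b c → ρ a c) (Sh : Finset Z) :
    ∃ (C : ℕ) (w : Fin C → Z), (∀ i, w i ∈ Sh) ∧ (∀ i j, ρ (w i) (w j) → i = j) ∧
      ∀ y ∈ Sh, ∃ i, ρ (w i) y := by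
  classical
  obtain ⟨W, ⟨hWs, hWc⟩, hmin⟩ : ∃ W : Finset Z, (W ⊆ Sh ∧ ∀ y ∈ Sh, ∃ v ∈ W, ρ v y) ∧
      ∀ W' : Finset Z, (W' ⊆ Sh ∧ ∀ y ∈ Sh, ∃ v ∈ W', ρ v y) → W.card ≤ W'.card := by
    have hex : ∃ n, ∃ W : Finset Z, (W ⊆ Sh ∧ ∀ y ∈ Sh, ∃ v ∈ W, ρ v y) ∧ W.card = n :=
      ⟨_, Sh, ⟨Finset.Subset.refl _, fun y hy => ⟨y, hy, hr y⟩⟩, rfl⟩
    obtain ⟨W, hW, hn⟩ := Nat.find_spec hex
    exact ⟨W, hW, fun W' hW' => hn ▸ Nat.find_min' hex ⟨W', hW', rfl⟩⟩
  refine ⟨W.card, fun i => (W.equivFin.symm i).1, fun i => hWs (W.equivFin.symm i).2, ?_, ?_⟩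
  · intro i j hij
    by_contra hne
    have hne' : (W.equivFin.symm i).1 ≠ (W.equivFin.symm j).1 := fun h =>
      hne (W.equivFin.symm.injective (Subtype.ext h))
    have h1 := hmin (W.erase (W.equivFin.symm j).1) (by
      refine ⟨(Finset.erase_subset _ _).trans hWs, fun y hy => ?_⟩
      obtain ⟨v, hv, hvy⟩ := hWc y hy
      by_cases h : v = (W.equivFin.symm j).1
      · refine ⟨(W.equivFin.symm i).1, Finset.mem_erase.2 ⟨hne', (W.equivFin.symm i).2⟩, ?_⟩
        rw [h] at hvy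
        exact ht _ _ _ hij hvy
      · exact ⟨v, Finset.mem_erase.2 ⟨h, hv⟩, hvy⟩)
    have h2 := Finset.card_erase_lt_of_mem (W.equivFin.symm j).2
    omega
  · intro y hy
    obtain ⟨v, hv, hvy⟩ := hWc y hy
    exact ⟨W.equivFin ⟨v, hv⟩, by simpa using hvy⟩

/-- An element of a normal closure uses finitely many conjugators. -/
theorem exists_conjs {F : Type} [Group F] (r : F) {n : F}
    (hn : n ∈ Subgroup.normalClosure ({r} : Set F)) :
    ∃ T : Finset F, n ∈ Subgroup.closure ((fun g => g * r * g⁻¹) '' (T : Set F)) := by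
  classical
  unfold Subgroup.normalClosure at hn
  induction hn using Subgroup.closure_induction with
  | mem x hx =>
    rw [Group.mem_conjugatesOfSet_iff] at hx
    obtain ⟨a, ha, hax⟩ := hx
    rw [Set.mem_singleton_iff] at ha
    subst ha
    obtain ⟨g, hg⟩ := isConj_iff.1 hax
    exact ⟨{g}, Subgroup.subset_closure ⟨g, by simp, hg⟩⟩
  | one => exact ⟨∅, one_mem _⟩
  | mul x y _ _ hx hy =>
    obtain ⟨T, hT⟩ := hx
    obtain ⟨T', hT'⟩ := hy
    refine ⟨T ∪ T', mul_mem ?_ ?_⟩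
    · exact Subgroup.closure_mono (Set.image_mono (by simp)) hT
    · exact Subgroup.closure_mono (Set.image_mono (by simp)) hT'
  | inv x _ hx =>
    obtain ⟨T, hT⟩ := hx
    exact ⟨T, inv_mem hT⟩

theorem D_shift {X Z : Type} [DecidableEq X] (R : RA X Z) (c : FreeGroup X) (k : ℕ) (y : Z)
    (hy : R.mv y (c ^ k) = y) (n : ℕ) :
    R.mv (R.mv y (c ^ n)) (c ^ k) = R.mv y (c ^ n) ∧
      R.D (R.mv y (c ^ n)) (c ^ k) = R.D y (c ^ k) := by
  have h1 : c ^ n * c ^ k = c ^ k * c ^ n := by rw [← pow_add, ← pow_add, Nat.add_comm]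
  constructor
  · rw [← R.mv_mul, h1, R.mv_mul, hy]
  · have h2 := R.D_mul y (c ^ n) (c ^ k)
    have h3 := R.D_mul y (c ^ k) (c ^ n)
    rw [h1, h3, hy] at h2
    rw [add_comm] at h2
    exact (add_left_cancel h2).symm

theorem D_conj {X Z : Type} [DecidableEq X] (R : RA X Z) (z : Z) (g r : FreeGroup X)
    (h : R.mv (R.mv z g) r = R.mv z g) : R.D z (g * r * g⁻¹) = R.D (R.mv z g) r := by
  rw [R.D_mul, R.D_mul, R.mv_mul, h, R.D_inv]
  abel

theorem coset_mv {X Γ : Type} [Group Γ] (π : FreeGroup X →* Γ) (K : Subgroup Γ) (g : Γ)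
    (f : FreeGroup X) :
    (RA.coset π K).mv (Quotient.mk'' g) f = Quotient.mk'' (g * π f) := rfl

theorem mk_eq {Γ : Type} [Group Γ] (K : Subgroup Γ) (a b : Γ) :
    (Quotient.mk'' a : Quotient (QuotientGroup.rightRel K)) = Quotient.mk'' b ↔ b * a⁻¹ ∈ K := by
  rw [Quotient.eq'', QuotientGroup.rightRel_apply]

end SigP

namespace Lv

variable (L : Lv)

open SigP in
/-- (SIG) a finite subgraph of a Schreier graph that omits a letter of the relator. -/
theorem sig {K : Subgroup L.G} {N : ℕ} (hK : RkLe K N) {a : L.X} (ha : L.Occ a)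
    (V : Finset (Quotient (QuotientGroup.rightRel K)))
    (E : Finset (Quotient (QuotientGroup.rightRel K) × L.X)) (hV : V.Nonempty)
    (hsub : (RA.coset L.π K).Sub V E) (hE : ∀ e ∈ E, e.2 ≠ a) :
    E.card + 1 ≤ N + V.card := by
  classical
  obtain ⟨κ, hκ⟩ := hK
  obtain ⟨i₀, hi₀⟩ := ha
  choose κt hκt using fun i => L.surj (κ i)
  have hw : ∀ v : Quotient (QuotientGroup.rightRel K), ∃ f : FreeGroup L.X,
      (Quotient.mk'' (L.π f) : Quotient (QuotientGroup.rightRel K)) = v := by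
    intro v
    induction v using Quotient.inductionOn' with
    | h g =>
      obtain ⟨f, rfl⟩ := L.surj g
      exact ⟨f, rfl⟩
  choose wd hwd using hw
  set c : FreeGroup L.X := FreeGroup.mk L.u with hc
  have hmap : (Subgroup.closure (Set.range κt)).map L.π = K := by
    rw [MonoidHom.map_closure, ← hκ, ← Set.range_comp]
    congr 2
    funext i
    exact hκt i
  have hedge : ∀ e : Quotient (QuotientGroup.rightRel K) × L.X,
      ∃ p ∈ Subgroup.closure (Set.range κt), ∃ T : Finset (FreeGroup L.X),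
        p⁻¹ * (wd ((RA.coset L.π K).mv e.1 (FreeGroup.of e.2)) * (wd e.1 * FreeGroup.of e.2)⁻¹) ∈
          Subgroup.closure ((fun g => g * c ^ L.k * g⁻¹) '' (T : Set (FreeGroup L.X))) := by
    intro e
    have h1 : (Quotient.mk'' (L.π (wd e.1 * FreeGroup.of e.2)) :
        Quotient (QuotientGroup.rightRel K)) =
        Quotient.mk'' (L.π (wd ((RA.coset L.π K).mv e.1 (FreeGroup.of e.2)))) := by
      rw [hwd, map_mul, ← coset_mv, hwd]
    rw [mk_eq, ← map_inv, ← map_mul] at h1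
    obtain ⟨p, hp, hpe⟩ := hmap.ge h1
    refine ⟨p, hp, exists_conjs _ ?_⟩
    rw [← L.ker, MonoidHom.mem_ker, map_mul, map_inv, hpe, inv_mul_cancel]
  choose p hp Te hTe using hedge
  set T : Finset (FreeGroup L.X) := E.biUnion Te with hT
  set gen : Fin N ⊕ T → FreeGroup L.X :=
    Sum.elim κt (fun g => g.1 * c ^ L.k * g.1⁻¹) with hgen
  set L0 : Subgroup (FreeGroup L.X) := Subgroup.closure (Set.range gen) with hL0
  have hgen1 : Subgroup.closure (Set.range κt) ≤ L0 :=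
    Subgroup.closure_mono (by rintro _ ⟨i, rfl⟩; exact ⟨Sum.inl i, rfl⟩)
  have hgen2 : ∀ g ∈ T, g * c ^ L.k * g⁻¹ ∈ L0 := fun g hg =>
    Subgroup.subset_closure ⟨Sum.inr ⟨g, hg⟩, rfl⟩
  have hrk : L.π (c ^ L.k) = 1 := by
    rw [← MonoidHom.mem_ker, L.ker]
    exact Subgroup.subset_normalClosure rfl
  have hL0K : ∀ f ∈ L0, L.π f ∈ K := by
    have : L0 ≤ K.comap L.π := by
      rw [hL0, Subgroup.closure_le]
      rintro _ ⟨i | g, rfl⟩
      · show L.π (κt i) ∈ K
        rw [hκt, ← hκ]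
        exact Subgroup.subset_closure ⟨i, rfl⟩
      · show L.π (g.1 * c ^ L.k * g.1⁻¹) ∈ K
        rw [map_mul, map_mul, hrk, mul_one, map_inv, mul_inv_cancel]
        exact one_mem _
    exact fun f hf => this hf
  set R : RA L.X (Quotient (QuotientGroup.rightRel L0)) :=
    RA.coset (MonoidHom.id (FreeGroup L.X)) L0 with hR
  have hmv : ∀ g f : FreeGroup L.X, R.mv (Quotient.mk'' g) f = Quotient.mk'' (g * f) :=
    fun g f => rfl
  set lf : Quotient (QuotientGroup.rightRel K) → Quotient (QuotientGroup.rightRel L0) :=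
    fun v => Quotient.mk'' (wd v) with hlf
  have hlfinj : Function.Injective lf := by
    intro v v' h
    simp only [hlf] at h
    rw [mk_eq] at h
    have h2 := hL0K _ h
    rw [map_mul, map_inv, ← mk_eq, hwd, hwd] at h2
    exact h2
  have hlfmv : ∀ e ∈ E, R.mv (lf e.1) (FreeGroup.of e.2) =
      lf ((RA.coset L.π K).mv e.1 (FreeGroup.of e.2)) := by
    intro e he
    simp only [hlf]
    rw [hmv, mk_eq]
    have h1 : Subgroup.closure ((fun g => g * c ^ L.k * g⁻¹) '' (Te e : Set (FreeGroup L.X))) ≤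
        L0 := by
      rw [Subgroup.closure_le]
      rintro _ ⟨g, hg, rfl⟩
      exact hgen2 g (Finset.mem_biUnion.2 ⟨e, he, hg⟩)
    have h2 := mul_mem (hgen1 (hp e)) (h1 (hTe e))
    rwa [mul_inv_cancel_left] at h2
  set V' := V.image lf with hV'
  set E' := E.image (fun e => (lf e.1, e.2)) with hE'
  have hVc : V'.card = V.card := Finset.card_image_of_injective _ hlfinj
  have hEc : E'.card = E.card := Finset.card_image_of_injective _ (fun e e' h =>
    Prod.ext (hlfinj (Prod.ext_iff.1 h).1) (Prod.ext_iff.1 h).2)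
  have hsub' : R.Sub V' E' := by
    intro e' he'
    obtain ⟨e, he, rfl⟩ := Finset.mem_image.1 he'
    refine ⟨Finset.mem_image_of_mem _ (hsub e he).1, ?_⟩
    show R.mv (lf e.1) (FreeGroup.of e.2) ∈ V'
    rw [hlfmv e he]
    exact Finset.mem_image_of_mem _ (hsub e he).2
  have hE'a : ∀ e ∈ E', e.2 ≠ ltr L.u i₀ := by
    intro e' he'
    obtain ⟨e, he, rfl⟩ := Finset.mem_image.1 he'
    rw [hi₀]
    exact hE e he
  have hfix : ∀ g ∈ T, R.mv (Quotient.mk'' g) (c ^ L.k) = Quotient.mk'' g := by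
    intro g hg
    rw [hmv, eq_comm, mk_eq]
    exact hgen2 g hg
  set Sh : Finset (Quotient (QuotientGroup.rightRel L0)) :=
    (T ×ˢ Finset.range L.k).image (fun q => R.mv (Quotient.mk'' q.1) (c ^ q.2)) with hSh
  have hk := L.kpos
  have hSh0 : ∀ g ∈ T, (Quotient.mk'' g : Quotient (QuotientGroup.rightRel L0)) ∈ Sh := by
    intro g hg
    refine Finset.mem_image.2 ⟨(g, 0), Finset.mem_product.2 ⟨hg, Finset.mem_range.2 hk⟩, ?_⟩
    simp only [pow_zero]
    exact R.mv_one _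
  have hinv : ∀ y ∈ Sh, R.mv y c ∈ Sh := by
    intro y hy
    obtain ⟨⟨g, j⟩, hq, rfl⟩ := Finset.mem_image.1 hy
    obtain ⟨hg, hj⟩ := Finset.mem_product.1 hq
    have hj' : j < L.k := Finset.mem_range.1 hj
    show R.mv (R.mv (Quotient.mk'' g) (c ^ j)) c ∈ Sh
    rw [← R.mv_mul, ← pow_succ]
    by_cases h : j + 1 = L.k
    · rw [h, hfix g hg]
      exact hSh0 g hg
    · exact Finset.mem_image.2 ⟨(g, j + 1),
        Finset.mem_product.2 ⟨hg, Finset.mem_range.2 (by show j + 1 < L.k; omega)⟩, rfl⟩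
  have hShfix : ∀ y ∈ Sh, R.mv y (c ^ L.k) = y := by
    intro y hy
    obtain ⟨⟨g, j⟩, hq, rfl⟩ := Finset.mem_image.1 hy
    exact (D_shift R c L.k _ (hfix g (Finset.mem_product.1 hq).1) j).1
  obtain ⟨C, w, hwS, hwd', hwc⟩ := exists_reps (fun y y' => ∃ n : ℕ, R.mv y (c ^ n) = y')
    (fun y => ⟨0, by rw [pow_zero]; exact R.mv_one y⟩)
    (fun x y z ⟨n, hn⟩ ⟨m, hm⟩ => ⟨n + m, by rw [pow_add, R.mv_mul, hn, hm]⟩) Sh
  obtain ⟨E'', hE''⟩ := stack_count R L.u L.cyc L.stack i₀ V' E' (hV.image _) hsub' hE'a Sh hinv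
    C w hwS (fun i j n h => hwd' i j ⟨n, h⟩)
  set z₀ : Quotient (QuotientGroup.rightRel L0) := Quotient.mk'' 1 with hz₀
  have hz : ∀ f, R.mv z₀ f = Quotient.mk'' f := by
    intro f
    rw [hz₀, hmv, one_mul]
  have hst : ∀ f, R.mv z₀ f = z₀ ↔ f ∈ L0 := by
    intro f
    rw [hz, hz₀, eq_comm, mk_eq, inv_one, mul_one]
  set fam : Fin N ⊕ Fin C → (Quotient (QuotientGroup.rightRel L0) × L.X →₀ ℚ) :=
    Sum.elim (fun i => R.D z₀ (κt i)) (fun i => R.D (w i) (c ^ L.k)) with hfam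
  have hle : R.Z1 E'' ≤ Submodule.span ℚ (Set.range fam) := by
    intro z hz1
    have h1 := R.cycle_mem_span z₀
      (fun y => by
        induction y using Quotient.inductionOn' with
        | h g => exact ⟨g, hz g⟩)
      gen (fun i => (hst _).2 (Subgroup.subset_closure ⟨i, rfl⟩)) (fun f hf => (hst f).1 hf)
      (c := z) hz1.2
    refine Submodule.span_mono ?_ h1
    rintro _ ⟨i | g, rfl⟩
    · exact ⟨Sum.inl i, rfl⟩
    · obtain ⟨i, n, hn⟩ := hwc _ (hSh0 g.1 g.2)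
      refine ⟨Sum.inr i, ?_⟩
      show R.D (w i) (c ^ L.k) = R.D z₀ (g.1 * c ^ L.k * g.1⁻¹)
      rw [D_conj R z₀ g.1 _ (by rw [hz]; exact hfix g.1 g.2), hz, ← hn]
      exact (D_shift R c L.k _ (hShfix _ (hwS i)) n).2.symm
  have hfin : Module.Finite ℚ (Submodule.span ℚ (Set.range fam)) :=
    Module.Finite.span_of_finite ℚ (Set.finite_range fam)
  have h1 := Submodule.finrank_mono hle
  have h2 : Module.finrank ℚ (Submodule.span ℚ (Set.range fam)) ≤ N + C := by
    have := finrank_range_le_card (R := ℚ) fam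
    simpa [Set.finrank] using this
  omega

end Lv
end CPOR
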