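import Pool.Agent.P.MP_2cb329_al.ZT

/-! Forest library, part 2: group actions, fixed points and axes. -/

set_option autoImplicit false

namespace CPOR
namespace ZT

variable {V : Type*} (T : SimpleGraph V) (Γ : Type*) [Group Γ] [MulAction Γ V]

/-- The group acts by graph automorphisms. -/
def Acts : Prop := ∀ (g : Γ) (x y : V), T.Adj x y → T.Adj (g • x) (g • y)

/-- No edge is inverted. -/
def NoInv : Prop := ∀ (g : Γ) (x y : V), T.Adj x y → g • x = y → g • y ≠ x

variable {Γ}

/-- A bi-infinite geodesic. -/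
def Line (a : ℤ → V) : Prop := (∀ i, T.Adj (a i) (a (i + 1))) ∧ ∀ i, a i ≠ a (i + 2)

/-- `a` is a line translated by `g` by `l ≥ 1`. -/
def IsAxis (g : Γ) (a : ℤ → V) (l : ℕ) : Prop :=
  Line T a ∧ 1 ≤ l ∧ ∀ i, g • a i = a (i + l)

variable {T}

theorem Acts.reach (hA : Acts T Γ) (g : Γ) {x y : V} (h : T.Reachable x y) :
    T.Reachable (g • x) (g • y) := by
  obtain ⟨w⟩ := h
  induction w with
  | nil => exact SimpleGraph.Reachable.refl _
  | cons h _ ih => exact (hA g _ _ h).reachable.trans ih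

theorem Acts.dist_le (hA : Acts T Γ) (g : Γ) {x y : V} (h : T.Reachable x y) :
    T.dist (g • x) (g • y) ≤ T.dist x y := by
  obtain ⟨w, hw⟩ := h.exists_walk_length_eq_dist
  let φ : T →g T := ⟨fun v => g • v, fun h => hA g _ _ h⟩
  have := SimpleGraph.dist_le (w.map φ)
  rw [SimpleGraph.Walk.length_map, hw] at this
  exact this

theorem Acts.dist (hA : Acts T Γ) (g : Γ) (x y : V) : T.dist (g • x) (g • y) = T.dist x y := by
  by_cases h : T.Reachable x y
  · refine le_antisymm (hA.dist_le g h) ?_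
    have := hA.dist_le g⁻¹ (hA.reach g h)
    rwa [inv_smul_smul, inv_smul_smul] at this
  · have h' : ¬ T.Reachable (g • x) (g • y) := fun H => h (by
      have := hA.reach g⁻¹ H
      rwa [inv_smul_smul, inv_smul_smul] at this)
    rw [SimpleGraph.dist_eq_zero_of_not_reachable h,
      SimpleGraph.dist_eq_zero_of_not_reachable h']

theorem Acts.btw (hA : Acts T Γ) (g : Γ) {x y z : V} (h : Btw T x y z) :
    Btw T (g • x) (g • y) (g • z) := by
  refine ⟨hA.reach g h.1, hA.reach g h.2.1, ?_⟩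
  rw [hA.dist, hA.dist, hA.dist]
  exact h.2.2

theorem Acts.cvx (hA : Acts T Γ) (g : Γ) {C : Set V} (h : Cvx T C) :
    Cvx T {x | g⁻¹ • x ∈ C} := by
  intro x hx z hz
  obtain ⟨h1, h2⟩ := h _ hx _ hz
  refine ⟨?_, fun y hy => h2 _ (hA.btw g⁻¹ hy)⟩
  have := hA.reach g h1
  rwa [smul_inv_smul, smul_inv_smul] at this

theorem Acts.line (hA : Acts T Γ) (g : Γ) {a : ℤ → V} (h : Line T a) :
    Line T (fun i => g • a i) := by
  exact ⟨fun i => hA g _ _ (h.1 i), fun i H => h.2 i (smul_left_cancel g H)⟩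

theorem Line.shift {a : ℤ → V} (h : Line T a) (c : ℤ) : Line T (fun i => a (i + c)) := by
  refine ⟨fun i => ?_, fun i => ?_⟩
  · have := h.1 (i + c)
    rwa [show i + c + 1 = i + 1 + c by ring] at this
  · have := h.2 (i + c)
    rwa [show i + c + 2 = i + 2 + c by ring] at this

theorem Line.rev {a : ℤ → V} (h : Line T a) (c : ℤ) : Line T (fun i => a (c - i)) := by
  refine ⟨fun i => ?_, fun i => ?_⟩
  · have := (h.1 (c - (i + 1))).symm
    rwa [show c - (i + 1) + 1 = c - i by ring] at this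
  · have := (h.2 (c - (i + 2))).symm
    rwa [show c - (i + 2) + 2 = c - i by ring] at this

theorem IsAxis.shift {g : Γ} {a : ℤ → V} {l : ℕ} (h : IsAxis T g a l) (c : ℤ) :
    IsAxis T g (fun i => a (i + c)) l := by
  refine ⟨h.1.shift c, h.2.1, fun i => ?_⟩
  have := h.2.2 (i + c)
  rwa [show i + c + l = i + l + c by ring] at this

theorem IsAxis.inv {g : Γ} {a : ℤ → V} {l : ℕ} (h : IsAxis T g a l) (c : ℤ) :
    IsAxis T g⁻¹ (fun i => a (c - i)) l := by
  refine ⟨h.1.rev c, h.2.1, fun i => ?_⟩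
  have := h.2.2 (c - (i + l))
  rw [show c - (i + l) + l = c - i by ring] at this
  show g⁻¹ • a (c - i) = a (c - (i + l))
  rw [← this, inv_smul_smul]

theorem IsAxis.zpow_smul {g : Γ} {a : ℤ → V} {l : ℕ} (h : IsAxis T g a l) (n i : ℤ) :
    g ^ n • a i = a (i + n * l) := by
  induction n using Int.induction_on generalizing i with
  | zero => simp
  | succ n ih =>
    rw [zpow_add_one, mul_smul, h.2.2, ih]
    congr 1
    ring
  | pred n ih =>
    have e : g⁻¹ • a i = a (i - l) := by
      have := h.2.2 (i - l)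
      rw [show i - l + l = i by ring] at this
      rw [← this, inv_smul_smul]
    rw [zpow_sub_one, mul_smul, e, ih]
    congr 1
    ring

theorem IsAxis.pow {g : Γ} {a : ℤ → V} {l : ℕ} (h : IsAxis T g a l) {n : ℕ} (hn : 1 ≤ n) :
    IsAxis T (g ^ n) a (n * l) := by
  refine ⟨h.1, Nat.mul_pos hn h.2.1, fun i => ?_⟩
  have := h.zpow_smul n i
  rw [zpow_natCast] at this
  rw [this, Nat.cast_mul]

theorem IsAxis.conj (hA : Acts T Γ) {g : Γ} {a : ℤ → V} {l : ℕ} (h : IsAxis T g a l) (k : Γ) :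
    IsAxis T (k * g * k⁻¹) (fun i => k • a i) l := by
  refine ⟨hA.line k h.1, h.2.1, fun i => ?_⟩
  show (k * g * k⁻¹) • k • a i = k • a (i + l)
  rw [mul_smul, inv_smul_smul, mul_smul, h.2.2]

section Acyclic

variable (hT : T.IsAcyclic)
include hT

theorem Line.dist_nat {a : ℤ → V} (h : Line T a) (i : ℤ) (n : ℕ) :
    T.Reachable (a i) (a (i + n)) ∧ T.dist (a i) (a (i + n)) = n := by
  have := geod_of_noback hT (fun k : ℕ => a (i + k)) n
    (fun k _ => by
      have := h.1 (i + k)
      rwa [show i + k + 1 = i + ((k + 1 : ℕ) : ℤ) by push_cast; ring] at this)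
    (fun k _ => by
      have := h.2 (i + k)
      rwa [show i + k + 2 = i + ((k + 2 : ℕ) : ℤ) by push_cast; ring] at this)
    0 n (Nat.zero_le n) le_rfl
  simpa using this

theorem Line.dist {a : ℤ → V} (h : Line T a) (i j : ℤ) :
    T.Reachable (a i) (a j) ∧ T.dist (a i) (a j) = (j - i).natAbs := by
  rcases le_total i j with hij | hij
  · have := h.dist_nat hT i (j - i).natAbs
    rwa [show i + ((j - i).natAbs : ℤ) = j by omega] at this
  · have := h.dist_nat hT j (j - i).natAbs
    rw [show j + ((j - i).natAbs : ℤ) = i by omega] at this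
    exact ⟨this.1.symm, by rw [SimpleGraph.dist_comm]; exact this.2⟩

theorem Line.inj {a : ℤ → V} (h : Line T a) : Function.Injective a := by
  intro i j hij
  have := (h.dist hT i j).2
  rw [hij, SimpleGraph.dist_self] at this
  omega

theorem Line.btw {a : ℤ → V} (h : Line T a) {i j k : ℤ} (hij : i ≤ j) (hjk : j ≤ k) :
    Btw T (a i) (a j) (a k) := by
  refine ⟨(h.dist hT i j).1, (h.dist hT j k).1, ?_⟩
  rw [(h.dist hT i j).2, (h.dist hT j k).2, (h.dist hT i k).2]
  omega

theorem Line.of_btw {a : ℤ → V} (h : Line T a) {i k : ℤ} (hik : i ≤ k) {y : V}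
    (hy : Btw T (a i) y (a k)) : ∃ j, i ≤ j ∧ j ≤ k ∧ y = a j := by
  have h1 := hy.2.2
  rw [(h.dist hT i k).2] at h1
  have hle : i + (T.dist (a i) y : ℤ) ≤ k := by omega
  have hge : i ≤ i + (T.dist (a i) y : ℤ) := by omega
  refine ⟨i + (T.dist (a i) y : ℤ), hge, hle, ?_⟩
  refine Btw.unique hT hy (h.btw hT hge hle) ?_
  rw [(h.dist_nat hT i _).2]

theorem Line.cvx {a : ℤ → V} (h : Line T a) : Cvx T (Set.range a) := by
  rintro _ ⟨i, rfl⟩ _ ⟨k, rfl⟩
  refine ⟨(h.dist hT i k).1, fun y hy => ?_⟩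
  rcases le_total i k with hik | hik
  · obtain ⟨j, _, _, rfl⟩ := h.of_btw hT hik hy
    exact ⟨j, rfl⟩
  · obtain ⟨j, _, _, rfl⟩ := h.of_btw hT hik hy.symm
    exact ⟨j, rfl⟩

/-- A line inside a line is a reparametrisation. -/
theorem Line.reparam {a b : ℤ → V} (ha : Line T a) (hb : Line T b)
    (h : ∀ i, b i ∈ Set.range a) :
    ∃ c : ℤ, (∀ i, b i = a (i + c)) ∨ (∀ i, b i = a (c - i)) := by
  choose f hf using h
  have key : ∀ i j, (f j - f i).natAbs = (j - i).natAbs := by
    intro i j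
    rw [← (ha.dist hT (f i) (f j)).2, hf, hf, (hb.dist hT i j).2]
  have h01 := key 0 1
  refine ⟨f 0, ?_⟩
  by_cases hs : f 1 = f 0 + 1
  · left
    intro i
    have h0 := key 0 i
    have h1 := key 1 i
    rw [← hf i]
    congr 1
    omega
  · right
    intro i
    have h0 := key 0 i
    have h1 := key 1 i
    rw [← hf i]
    congr 1
    omega

variable (hA : Acts T Γ)
include hA

theorem fix_btw {g : Γ} {x y z : V} (hx : g • x = x) (hz : g • z = z) (h : Btw T x y z) :
    g • y = y := by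
  have h' := hA.btw g h
  rw [hx, hz] at h'
  refine Btw.unique hT h' h ?_
  have := hA.dist g x y
  rwa [hx] at this

/-- Displacement formula for a hyperbolic element. -/
theorem IsAxis.disp {g : Γ} {a : ℤ → V} {l : ℕ} (h : IsAxis T g a l) {p : V}
    (hp : T.Reachable p (a 0)) :
    ∃ i : ℤ, (∀ j, Btw T p (a i) (a j)) ∧ T.dist p (g • p) = l + 2 * T.dist p (a i) ∧
      Btw T p (a i) (g • p) ∧ Btw T p (a (i + l)) (g • p) := by
  obtain ⟨_, ⟨i, rfl⟩, hi⟩ := Cvx.exists_proj hT (h.1.cvx hT) ⟨0, rfl⟩ hp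
  have hi' : ∀ j, Btw T p (a i) (a j) := fun j => hi _ ⟨j, rfl⟩
  have h1 : Btw T (a i) (a (i + l)) (g • p) := by
    have := hA.btw g (hi' (i - l))
    rw [h.2.2, h.2.2, show i - l + l = i by ring] at this
    exact this.symm
  have hne : a i ≠ a (i + l) := fun H => by
    have := h.1.inj hT H
    have h2 := h.2.1
    omega
  obtain ⟨h2, h3⟩ := Btw.glue hT (hi' (i + l)) h1 hne
  refine ⟨i, hi', ?_, h2, h3⟩
  have e1 := h2.2.2
  have e2 := h1.2.2
  have e3 := (h.1.dist_nat hT i l).2
  have e4 : T.dist (a (i + l)) (g • p) = T.dist p (a i) := by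
    rw [← h.2.2, hA.dist, SimpleGraph.dist_comm]
  omega

theorem IsAxis.not_fix {g : Γ} {a : ℤ → V} {l : ℕ} (h : IsAxis T g a l) {p : V}
    (hp : T.Reachable p (a 0)) : g • p ≠ p := by
  intro H
  obtain ⟨i, _, h2, _⟩ := h.disp hT hA hp
  rw [H, SimpleGraph.dist_self] at h2
  have := h.2.1
  omega

theorem IsAxis.unique {g : Γ} {a b : ℤ → V} {l l' : ℕ} (h : IsAxis T g a l)
    (h' : IsAxis T g b l') (hr : T.Reachable (a 0) (b 0)) :
    l = l' ∧ ∃ c : ℤ, ∀ i, b i = a (i + c) := by
  obtain ⟨i0, _, e0, _⟩ := h'.disp hT hA hr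
  rw [h.2.2, (h.1.dist_nat hT 0 l).2] at e0
  have key : ∀ j, ∃ i, T.Reachable (b j) (a i) ∧ l' = l + 2 * T.dist (b j) (a i) := by
    intro j
    obtain ⟨i, hi, e, _⟩ := h.disp hT hA ((h'.1.dist hT j 0).1.trans hr.symm)
    rw [h'.2.2, (h'.1.dist_nat hT j l').2] at e
    exact ⟨i, (hi 0).1, e⟩
  have hl : l = l' := by
    obtain ⟨i, _, e⟩ := key 0
    omega
  refine ⟨hl, ?_⟩
  have hmem : ∀ j, b j ∈ Set.range a := by
    intro j
    obtain ⟨i, hi, e⟩ := key j
    exact ⟨i, (eq_of_dist_zero hi (by omega)).symm⟩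
  obtain ⟨c, hc | hc⟩ := h.1.reparam hT h'.1 hmem
  · exact ⟨c, hc⟩
  · exfalso
    have e1 := h'.2.2 0
    rw [hc, hc, h.2.2] at e1
    have e2 := h.1.inj hT e1
    have e3 := h.2.1
    omega

/-- An invariant convex set contains the axis. -/
theorem IsAxis.mem_cvx {g : Γ} {a : ℤ → V} {l : ℕ} (h : IsAxis T g a l) {C : Set V}
    (hC : Cvx T C) (hinv : ∀ x, g • x ∈ C ↔ x ∈ C) {c : V} (hc : c ∈ C)
    (hr : T.Reachable c (a 0)) (i : ℤ) : a i ∈ C := by
  obtain ⟨i0, _, _, hb, _⟩ := h.disp hT hA hr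
  have h0 : a i0 ∈ C := (hC c hc _ ((hinv c).2 hc)).2 _ hb
  have hz : ∀ n : ℤ, a (i0 + n * l) ∈ C := by
    intro n
    induction n using Int.induction_on with
    | zero => simpa using h0
    | succ n ih =>
      have := (hinv _).2 ih
      rwa [h.2.2, show i0 + (n : ℤ) * l + l = i0 + (n + 1) * l by ring] at this
    | pred n ih =>
      refine (hinv _).1 ?_
      rwa [h.2.2, show i0 + (-(n : ℤ) - 1) * l + l = i0 + -n * l by ring]
  have hl : (1 : ℤ) ≤ l := by exact_mod_cast h.2.1
  have ha := abs_nonneg (i - i0)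
  have hm : |i - i0| ≤ |i - i0| * l := le_mul_of_one_le_right ha hl
  have h1 := le_abs_self (i - i0)
  have h2 := neg_abs_le (i - i0)
  refine (hC _ (hz (-|i - i0|)) _ (hz |i - i0|)).2 _ (h.1.btw hT ?_ ?_)
  · rw [neg_mul]
    linarith
  · linarith

/-- The projection of a fixed point to an invariant convex set is fixed. -/
theorem fix_proj {g : Γ} {p : V} (hp : g • p = p) {C : Set V} (hC : Cvx T C)
    (hinv : ∀ x, g • x ∈ C ↔ x ∈ C) {c : V} (hc : c ∈ C) (hr : T.Reachable p c) :
    ∃ q ∈ C, g • q = q ∧ ∀ c' ∈ C, Btw T p q c' := by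
  obtain ⟨q, hq, hq'⟩ := Cvx.exists_proj hT hC hc hr
  refine ⟨q, hq, ?_, hq'⟩
  refine proj_unique ((hinv q).2 hq) hq (fun c' hc' => ?_) hq'
  have h1 : g⁻¹ • c' ∈ C := (hinv _).1 (by rwa [smul_inv_smul])
  have := hA.btw g (hq' _ h1)
  rwa [hp, smul_inv_smul] at this

/-- If `g` fixes `p`, then `[x, g x]` contains the projection of `x` to the fixed set. -/
theorem fix_on_geod {g : Γ} {p x : V} (hp : g • p = p) (hr : T.Reachable x p) :
    ∃ q, g • q = q ∧ Btw T x q p ∧ Btw T x q (g • x) ∧ T.dist x (g • x) = 2 * T.dist x q := by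
  have hF : Cvx T {y | T.Reachable p y ∧ g • y = y} := by
    intro u hu w hw
    exact ⟨hu.1.symm.trans hw.1, fun y hy =>
      ⟨hu.1.trans hy.1, fix_btw hT hA hu.2 hw.2 hy⟩⟩
  have hpF : p ∈ {y | T.Reachable p y ∧ g • y = y} := ⟨SimpleGraph.Reachable.refl _, hp⟩
  obtain ⟨q, hq, hq'⟩ := Cvx.exists_proj hT hF hpF hr
  have hxq : T.Reachable x q := (hq' p hpF).1
  have hqg : T.Reachable q (g • x) := by
    have := hA.reach g hxq.symm
    rwa [hq.2] at this
  obtain ⟨m, h1, h2, h3⟩ := exists_median hT hxq hqg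
  have h4 : Btw T q (g • m) (g • x) := by
    have := hA.btw g h1.symm
    rwa [hq.2] at this
  have h5 : g • m = m := by
    refine Btw.unique hT h4 h2 ?_
    have := hA.dist g q m
    rwa [hq.2] at this
  have h6 : m = q := Btw.antisymm h1 (hq' m ⟨hq.1.trans h2.1, h5⟩)
  rw [h6] at h3
  refine ⟨q, hq.2, hq' p hpF, h3, ?_⟩
  have e1 := h3.2.2
  have e2 := hA.dist g q x
  rw [hq.2, SimpleGraph.dist_comm (u := q) (v := x)] at e2
  omega

/-- Elliptic or hyperbolic, with the location of the fixed point or of a period of the axis. -/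
theorem ell_or_hyp (hN : NoInv T Γ) (g : Γ) {x : V} (hx : T.Reachable x (g • x)) :
    (∃ p, Btw T x p (g • x) ∧ g • p = p) ∨
      ∃ (a : ℤ → V) (l : ℕ), IsAxis T g a l ∧ ∀ i : ℤ, 0 ≤ i → i ≤ l → Btw T x (a i) (g • x) := by
  classical
  have hex : ∃ n, ∃ p, T.Reachable x p ∧ T.dist p (g • p) = n :=
    ⟨_, x, SimpleGraph.Reachable.refl _, rfl⟩
  obtain ⟨p, hxp, hl⟩ := Nat.find_spec hex
  have hmin : ∀ q, T.Reachable x q → Nat.find hex ≤ T.dist q (g • q) :=
    fun q hq => Nat.find_min' hex ⟨q, hq, rfl⟩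
  generalize Nat.find hex = l at hl hmin
  have hpg : T.Reachable p (g • p) := (hxp.symm.trans hx).trans (hA.reach g hxp)
  rcases Nat.eq_zero_or_pos l with h0 | hpos
  · left
    have hp : g • p = p := (eq_of_dist_zero hpg (hl.trans h0)).symm
    obtain ⟨q, h1, _, h3, _⟩ := fix_on_geod hT hA hp hxp
    exact ⟨q, h3, h1⟩
  · right
    obtain ⟨e, he0, hel, hadj, hd, hbt⟩ := exists_geod hpg
    rw [hl] at hel hadj hd hbt
    have hlz : (0 : ℤ) < l := by exact_mod_cast hpos
    let a : ℤ → V := fun i => g ^ (i / l) • e (i % l).toNat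
    have key0 : ∀ (q : ℤ) (r : ℕ), r < l → a (q * l + r) = g ^ q • e r := by
      intro q r hr
      have hr' : (r : ℤ) < l := by exact_mod_cast hr
      have e1 : (q * l + r) / (l : ℤ) = q := by
        rw [add_comm, Int.add_mul_ediv_right _ _ hlz.ne',
          Int.ediv_eq_zero_of_lt (Int.natCast_nonneg r) hr', zero_add]
      have e2 : (q * l + r) % (l : ℤ) = r := by
        rw [add_comm, Int.add_mul_emod_self_right,
          Int.emod_eq_of_lt (Int.natCast_nonneg r) hr']
      show g ^ ((q * l + r) / (l : ℤ)) • e ((q * l + r) % (l : ℤ)).toNat = _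
      rw [e1, e2, Int.toNat_natCast]
    have key : ∀ (q : ℤ) (r : ℕ), r ≤ l → a (q * l + r) = g ^ q • e r := by
      intro q r hr
      rcases hr.lt_or_eq with hr | hr
      · exact key0 q r hr
      · have := key0 (q + 1) 0 hpos
        rw [zpow_add_one, mul_smul, he0, ← hel] at this
        rw [hr, ← this]
        congr 1
        push_cast
        ring
    have hdec : ∀ i : ℤ, ∃ (q : ℤ) (r : ℕ), r < l ∧ i = q * l + r := by
      intro i
      have h1 := Int.emod_nonneg i hlz.ne'
      have h2 := Int.emod_lt_of_pos i hlz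
      refine ⟨i / l, (i % l).toNat, by omega, ?_⟩
      rw [Int.toNat_of_nonneg h1]
      have := Int.emod_add_ediv_mul i l
      linarith
    have hax : IsAxis T g a l := by
      refine ⟨⟨fun i => ?_, fun i => ?_⟩, hpos, fun i => ?_⟩
      · obtain ⟨q, r, hr, rfl⟩ := hdec i
        rw [show q * l + r + 1 = q * l + ((r + 1 : ℕ) : ℤ) by push_cast; ring,
          key q r hr.le, key q (r + 1) hr]
        exact hA _ _ _ (hadj r hr)
      · obtain ⟨q, r, hr, rfl⟩ := hdec i
        by_cases h2 : r + 2 ≤ l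
        · rw [show q * l + r + 2 = q * l + ((r + 2 : ℕ) : ℤ) by push_cast; ring,
            key q r hr.le, key q (r + 2) h2]
          intro H
          have H' := smul_left_cancel _ H
          have := (hd r (r + 2) (by omega) h2).2
          rw [H', SimpleGraph.dist_self] at this
          omega
        · have hrl : l = r + 1 := by omega
          have e1 : q * l + r + 2 = (q + 1) * l + ((1 : ℕ) : ℤ) := by
            rw [hrl]
            push_cast
            ring
          rw [e1, key q r hr.le, key (q + 1) 1 hpos, zpow_add_one, mul_smul]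
          intro H
          have H' := smul_left_cancel _ H
          rcases Nat.eq_zero_or_pos r with hr0 | hr0
          · have hl1 : l = 1 := by omega
            have ha1 := hadj 0 hpos
            rw [hr0, he0] at H'
            rw [hl1] at hel
            rw [he0, zero_add] at ha1
            exact hN g p (e 1) ha1 hel.symm H'.symm
          · have h3 := hmin (e 1) (hxp.trans (hbt 1 hpos).1)
            rw [← H', (hd 1 r hr0 hr.le).2] at h3
            omega
      · obtain ⟨q, r, hr, rfl⟩ := hdec i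
        rw [show q * l + r + l = (q + 1) * l + r by ring, key q r hr.le, key (q + 1) r hr.le,
          add_comm q 1, zpow_one_add, mul_smul]
    have hr0 : T.Reachable x (a 0) := by
      have := key 0 0 (Nat.zero_le l)
      simp only [zero_mul, Nat.cast_zero, add_zero, zpow_zero, one_smul] at this
      rw [this, he0]
      exact hxp
    obtain ⟨i0, _, _, hb1, hb2⟩ := hax.disp hT hA hr0
    refine ⟨fun i => a (i + i0), l, hax.shift i0, fun i hi0 hil => ?_⟩
    exact (cvx_btw hT x (g • x) _ hb1 _ hb2).2 _ (hax.1.btw hT (by omega) (by omega))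

/-- If a power has a fixed point then so has the element. -/
theorem ell_of_pow (hN : NoInv T Γ) {g : Γ} {n : ℕ} (hn : 1 ≤ n) {x : V}
    (hx : T.Reachable x (g • x)) (h : g ^ n • x = x) : ∃ p, Btw T x p (g • x) ∧ g • p = p := by
  rcases ell_or_hyp hT hA hN g hx with H | ⟨a, l, ha, hb⟩
  · exact H
  · exact absurd h ((ha.pow hn).not_fix hT hA (hb 0 le_rfl (Int.natCast_nonneg l)).1)

/-- An element that preserves a line translates it or reflects it. -/
theorem Line.stab {a : ℤ → V} (h : Line T a) {g : Γ} (hg : ∀ i, g • a i ∈ Set.range a) :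
    ∃ c : ℤ, (∀ i, g • a i = a (i + c)) ∨ (∀ i, g • a i = a (c - i)) := by
  exact h.reparam hT (hA.line g h) hg

end Acyclic

end ZT
end CPOR
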