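import Pool.Agent.P.MP_2cb329_al.Defs

/-! Forest library: betweenness, medians, convex sets, projections (part 1). -/

set_option autoImplicit false

namespace CPOR
namespace ZT

variable {V : Type*} (T : SimpleGraph V)

/-- `y` lies on the geodesic from `x` to `z`. -/
def Btw (x y z : V) : Prop :=
  T.Reachable x y ∧ T.Reachable y z ∧ T.dist x y + T.dist y z = T.dist x z

/-- Convex sets (inside one component). -/
def Cvx (C : Set V) : Prop :=
  ∀ x ∈ C, ∀ z ∈ C, T.Reachable x z ∧ ∀ y, Btw T x y z → y ∈ C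

variable {T}

theorem dist_tri {x y z : V} (h1 : T.Reachable x y) (h2 : T.Reachable y z) :
    T.dist x z ≤ T.dist x y + T.dist y z := by
  exact h1.dist_triangle_left z

theorem eq_of_dist_zero {x y : V} (h : T.Reachable x y) (h0 : T.dist x y = 0) : x = y := by
  exact h.dist_eq_zero_iff.1 h0

theorem adj_of_dist_one {x y : V} (h : T.dist x y = 1) : T.Adj x y := by
  exact SimpleGraph.dist_eq_one_iff_adj.1 h

theorem Btw.reach {x y z : V} (h : Btw T x y z) : T.Reachable x z := h.1.trans h.2.1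

theorem Btw.symm {x y z : V} (h : Btw T x y z) : Btw T z y x := by
  refine ⟨h.2.1.symm, h.1.symm, ?_⟩
  have := h.2.2
  rw [SimpleGraph.dist_comm (u := z) (v := y), SimpleGraph.dist_comm (u := y) (v := x),
    SimpleGraph.dist_comm (u := z) (v := x)]
  omega

theorem btw_left {x z : V} (h : T.Reachable x z) : Btw T x x z := by
  exact ⟨SimpleGraph.Reachable.refl x, h, by simp⟩

theorem btw_right {x z : V} (h : T.Reachable x z) : Btw T x z z := by
  exact ⟨h, SimpleGraph.Reachable.refl z, by simp⟩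

theorem Btw.eq_of_self {x y : V} (h : Btw T x y x) : y = x := by
  have := h.2.2
  rw [SimpleGraph.dist_self] at this
  exact eq_of_dist_zero h.2.1 (by omega)

theorem Btw.antisymm {x y z : V} (h1 : Btw T x y z) (h2 : Btw T x z y) : y = z := by
  have e1 := h1.2.2
  have e2 := h2.2.2
  exact eq_of_dist_zero h1.2.1 (by omega)

theorem Btw.trans_left {x w y z : V} (h1 : Btw T x y z) (h2 : Btw T x w y) :
    Btw T x w z ∧ Btw T w y z := by
  have e1 := h1.2.2
  have e2 := h2.2.2
  have t1 := dist_tri h2.2.1 h1.2.1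
  have t2 := dist_tri h2.1 (h2.2.1.trans h1.2.1)
  exact ⟨⟨h2.1, h2.2.1.trans h1.2.1, by omega⟩, h2.2.1, h1.2.1, by omega⟩

theorem Btw.trans_right {x w y z : V} (h1 : Btw T x y z) (h2 : Btw T y w z) :
    Btw T x w z ∧ Btw T x y w := by
  have e1 := h1.2.2
  have e2 := h2.2.2
  have t1 := dist_tri h1.1 h2.1
  have t2 := dist_tri (h1.1.trans h2.1) h2.2.1
  exact ⟨⟨h1.1.trans h2.1, h2.2.1, by omega⟩, h1.1, h2.1, by omega⟩

theorem dist_le_of_chain' (a : ℕ → V) (n : ℕ)
    (h : ∀ i < n, a i = a (i + 1) ∨ T.Adj (a i) (a (i + 1))) :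
    T.Reachable (a 0) (a n) ∧ T.dist (a 0) (a n) ≤ n := by
  induction n with
  | zero => exact ⟨SimpleGraph.Reachable.refl _, by simp⟩
  | succ n ih =>
    obtain ⟨h1, h2⟩ := ih (fun i hi => h i (by omega))
    rcases h n (Nat.lt_succ_self n) with e | e
    · rw [← e]; exact ⟨h1, by omega⟩
    · have := dist_tri h1 e.reachable
      rw [SimpleGraph.dist_eq_one_iff_adj.2 e] at this
      exact ⟨h1.trans e.reachable, by omega⟩

theorem exists_geod' {x z : V} (h : T.Reachable x z) :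
    ∃ a : ℕ → V, a 0 = x ∧ a (T.dist x z) = z ∧
      (∀ i < T.dist x z, T.Adj (a i) (a (i + 1))) ∧
      (∀ i j, i ≤ j → j ≤ T.dist x z → T.Reachable (a i) (a j) ∧ T.dist (a i) (a j) = j - i) ∧
      (∀ i ≤ T.dist x z, Btw T x (a i) z) := by
  obtain ⟨p, hp⟩ := h.exists_walk_length_eq_dist
  have h0 : p.getVert 0 = x := p.getVert_zero
  have h1 : p.getVert (T.dist x z) = z := by rw [← hp]; exact p.getVert_length
  have h2 : ∀ i < T.dist x z, T.Adj (p.getVert i) (p.getVert (i + 1)) := fun i hi =>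
    p.adj_getVert_succ (by omega)
  have h3 : ∀ i j, i ≤ j → j ≤ T.dist x z → T.Reachable (p.getVert i) (p.getVert j) ∧
      T.dist (p.getVert i) (p.getVert j) ≤ j - i := by
    intro i j hij hj
    have := dist_le_of_chain' (T := T) (fun k => p.getVert (i + k)) (j - i)
      (fun k hk => Or.inr (h2 (i + k) (by omega)))
    simpa [Nat.add_sub_cancel' hij] using this
  have h4 : ∀ i j, i ≤ j → j ≤ T.dist x z → T.Reachable (p.getVert i) (p.getVert j) ∧
      T.dist (p.getVert i) (p.getVert j) = j - i := by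
    intro i j hij hj
    obtain ⟨r1, d1⟩ := h3 0 i (Nat.zero_le _) (by omega)
    obtain ⟨r2, d2⟩ := h3 i j hij hj
    obtain ⟨r3, d3⟩ := h3 j _ hj le_rfl
    rw [h0] at r1 d1
    rw [h1] at r3 d3
    have t1 := dist_tri r1 (r2.trans r3)
    have t2 := dist_tri r2 r3
    exact ⟨r2, by omega⟩
  refine ⟨p.getVert, h0, h1, h2, h4, fun i hi => ?_⟩
  obtain ⟨r1, d1⟩ := h4 0 i (Nat.zero_le _) hi
  obtain ⟨r3, d3⟩ := h4 i _ hi le_rfl
  rw [h0] at r1 d1
  rw [h1] at r3 d3
  exact ⟨r1, r3, by omega⟩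

theorem exists_btw_dist {x z : V} (h : T.Reachable x z) {i : ℕ} (hi : i ≤ T.dist x z) :
    ∃ y, Btw T x y z ∧ T.dist x y = i := by
  obtain ⟨a, h0, -, -, h3, h4⟩ := exists_geod' h
  refine ⟨a i, h4 i hi, ?_⟩
  have := (h3 0 i (Nat.zero_le _) hi).2
  rwa [h0] at this

/-- The geodesic as a sequence of vertices. -/
theorem exists_geod {x z : V} (h : T.Reachable x z) :
    ∃ a : ℕ → V, a 0 = x ∧ a (T.dist x z) = z ∧
      (∀ i < T.dist x z, T.Adj (a i) (a (i + 1))) ∧
      (∀ i j, i ≤ j → j ≤ T.dist x z → T.Reachable (a i) (a j) ∧ T.dist (a i) (a j) = j - i) ∧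
      (∀ i ≤ T.dist x z, Btw T x (a i) z) := by
  exact exists_geod' h

/-- A chain of adjacent or equal vertices bounds the distance. -/
theorem dist_le_of_chain (a : ℕ → V) (n : ℕ)
    (h : ∀ i < n, a i = a (i + 1) ∨ T.Adj (a i) (a (i + 1))) :
    T.Reachable (a 0) (a n) ∧ T.dist (a 0) (a n) ≤ n := by
  exact dist_le_of_chain' a n h

section Acyclic

variable (hT : T.IsAcyclic)
include hT

theorem Btw.unique {x y y' z : V} (h : Btw T x y z) (h' : Btw T x y' z)
    (hd : T.dist x y = T.dist x y') : y = y' := by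
  obtain ⟨p, hp⟩ := h.1.exists_walk_length_eq_dist
  obtain ⟨q, hq⟩ := h.2.1.exists_walk_length_eq_dist
  obtain ⟨p', hp'⟩ := h'.1.exists_walk_length_eq_dist
  obtain ⟨q', hq'⟩ := h'.2.1.exists_walk_length_eq_dist
  have e1 := h.2.2
  have e2 := h'.2.2
  have i1 : (p.append q).IsPath := SimpleGraph.Walk.isPath_of_length_eq_dist _ (by
    rw [SimpleGraph.Walk.length_append]; omega)
  have i2 : (p'.append q').IsPath := SimpleGraph.Walk.isPath_of_length_eq_dist _ (by
    rw [SimpleGraph.Walk.length_append]; omega)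
  have e : p.append q = p'.append q' :=
    congrArg Subtype.val (hT.path_unique ⟨_, i1⟩ ⟨_, i2⟩)
  have g := congrArg (fun w => w.getVert (T.dist x y)) e
  simp only [SimpleGraph.Walk.getVert_append] at g
  rw [if_neg (by omega), if_neg (by omega), hp, hp', ← hd, Nat.sub_self,
    SimpleGraph.Walk.getVert_zero, SimpleGraph.Walk.getVert_zero] at g
  exact g

theorem Btw.compare {x y y' z : V} (h : Btw T x y z) (h' : Btw T x y' z)
    (hd : T.dist x y ≤ T.dist x y') : Btw T x y y' ∧ Btw T y y' z := by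
  obtain ⟨w, hw, e⟩ := exists_btw_dist h'.1 hd
  obtain ⟨h1, h2⟩ := h'.trans_left hw
  have : w = y := h1.unique hT h e
  subst this
  exact ⟨hw, h2⟩

theorem adj_btw' {x y z : V} (h : T.Adj x y) (hz : T.Reachable x z) :
    Btw T x y z ∨ Btw T y x z := by
  have e1 := SimpleGraph.dist_eq_one_iff_adj.2 h
  have e2 := SimpleGraph.dist_eq_one_iff_adj.2 h.symm
  have e := hT.dist_eq_dist_add_one_of_adj_of_reachable z h hz.symm
  rw [SimpleGraph.dist_comm (u := z) (v := x), SimpleGraph.dist_comm (u := z) (v := y)] at e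
  rcases e with e | e
  · exact Or.inl ⟨h.reachable, h.reachable.symm.trans hz, by omega⟩
  · exact Or.inr ⟨h.reachable.symm, hz, by omega⟩

theorem exists_median' {x y z : V} (h1 : T.Reachable x y) (h2 : T.Reachable y z) :
    ∃ m, Btw T x m y ∧ Btw T y m z ∧ Btw T x m z := by
  generalize hn : T.dist y z = n
  induction n generalizing z with
  | zero =>
    have := eq_of_dist_zero h2 hn
    subst this
    exact ⟨y, btw_right h1, btw_left h2, btw_right h1⟩
  | succ n ih =>
    obtain ⟨z', hz', e⟩ := exists_btw_dist h2 (i := n) (by omega)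
    have e1 := hz'.2.2
    have ha : T.Adj z' z := adj_of_dist_one (by omega)
    obtain ⟨m, m1, m2, m3⟩ := ih hz'.1 e
    rcases adj_btw' hT ha m3.reach.symm with k | k
    · by_cases hm : m = z'
      · subst hm
        exact ⟨z, (m1.trans_left k.symm).1, btw_right h2, btw_right (h1.trans h2)⟩
      · exfalso
        have p1 := m3.2.1.pos_dist_of_ne hm
        have e2 := m3.2.2
        have e3 := k.symm.2.2
        have e4 := SimpleGraph.dist_eq_one_iff_adj.2 ha.symm
        have c1 := (m3.compare hT k.symm (by omega)).2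
        exact ha.ne ((hz'.trans_left m2).2.antisymm c1)
    · exact ⟨m, m1, (hz'.trans_left m2).1, (k.symm.trans_left m3).1⟩

theorem Btw.glue {x y z w : V} (h1 : Btw T x y z) (h2 : Btw T y z w) (hne : y ≠ z) :
    Btw T x y w ∧ Btw T x z w := by
  obtain ⟨m, m1, m2, m3⟩ := exists_median' hT h1.1 h2.reach
  have hm : m = y := by
    by_contra hm
    have p1 := m2.1.pos_dist_of_ne (Ne.symm hm)
    have p2 := h2.1.pos_dist_of_ne hne
    have e2 := h2.2.2
    obtain ⟨u, hu, e⟩ := exists_btw_dist h2.reach (i := 1) (by omega)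
    have u1 := (hu.compare hT m2 (by omega)).1
    have u2 := (hu.compare hT h2 (by omega)).1
    have u3 := (m1.symm.trans_left u1).1.symm
    have t := dist_tri u3.1 u2.2.1
    have e1 := h1.2.2
    have e3 := u2.2.2
    have e4 := u3.2.2
    rw [SimpleGraph.dist_comm (u := u) (v := y)] at e4
    omega
  subst hm
  exact ⟨m3, (m3.trans_right h2).1⟩

theorem btw_of_adj {x y z : V} (h1 : T.Adj x y) (h2 : T.Adj y z) (hne : x ≠ z) :
    Btw T x y z := by
  rcases adj_btw' hT h1 (h1.reachable.trans h2.reachable) with h | h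
  · exact h
  · have e := h.2.2
    rw [SimpleGraph.dist_eq_one_iff_adj.2 h1.symm, SimpleGraph.dist_eq_one_iff_adj.2 h2] at e
    exact absurd (eq_of_dist_zero h.2.1 (by omega)) hne

theorem Btw.eq_of_adj {x y z : V} (h : Btw T x y z) (ha : T.Adj x z) : y = x ∨ y = z := by
  have _ := hT
  have e := h.2.2
  rw [SimpleGraph.dist_eq_one_iff_adj.2 ha] at e
  by_cases h0 : T.dist x y = 0
  · exact Or.inl (eq_of_dist_zero h.1 h0).symm
  · exact Or.inr (eq_of_dist_zero h.2.1 (by omega))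

theorem adj_btw {x y z : V} (h : T.Adj x y) (hz : T.Reachable x z) :
    Btw T x y z ∨ Btw T y x z := by
  exact adj_btw' hT h hz

theorem exists_median {x y z : V} (h1 : T.Reachable x y) (h2 : T.Reachable y z) :
    ∃ m, Btw T x m y ∧ Btw T y m z ∧ Btw T x m z := by
  exact exists_median' hT h1 h2

theorem median_unique {x y z m m' : V} (h1 : Btw T x m y) (h2 : Btw T y m z) (h3 : Btw T x m z)
    (h1' : Btw T x m' y) (h2' : Btw T y m' z) (h3' : Btw T x m' z) : m = m' := by
  have a1 := h1.2.2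
  have a2 := h2.2.2
  have a3 := h3.2.2
  have b1 := h1'.2.2
  have b2 := h2'.2.2
  have b3 := h3'.2.2
  rw [SimpleGraph.dist_comm (u := y) (v := m)] at a2
  rw [SimpleGraph.dist_comm (u := y) (v := m')] at b2
  exact h1.unique hT h1' (by omega)

/-- Triangles are tripods. -/
theorem Btw.or {x y z : V} (h : Btw T x y z) {w : V} (hw : T.Reachable x w) :
    Btw T x y w ∨ Btw T w y z := by
  obtain ⟨m, m1, m2, m3⟩ := exists_median hT hw (hw.symm.trans h.reach)
  rcases le_total (T.dist x y) (T.dist x m) with hd | hd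
  · exact Or.inl (m1.trans_left (h.compare hT m3 hd).1).1
  · exact Or.inr (m2.trans_right (m3.compare hT h hd).2).1

/-- A coarse path covers the geodesic between its ends. -/
theorem Btw.chain (a : ℕ → V) (n : ℕ) (h : ∀ i < n, T.Reachable (a i) (a (i + 1))) {y : V}
    (hy : Btw T (a 0) y (a n)) : y = a 0 ∨ ∃ i < n, Btw T (a i) y (a (i + 1)) := by
  induction n with
  | zero => exact Or.inl hy.eq_of_self
  | succ n ih =>
    have hr : T.Reachable (a 0) (a n) := hy.reach.trans (h n (Nat.lt_succ_self n)).symm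
    rcases hy.or hT hr with h1 | h1
    · rcases ih (fun i hi => h i (by omega)) h1 with h2 | ⟨i, hi, h2⟩
      · exact Or.inl h2
      · exact Or.inr ⟨i, by omega, h2⟩
    · exact Or.inr ⟨n, Nat.lt_succ_self n, h1⟩

/-- A coarse path crosses every edge of the geodesic between its ends (forwards). -/
theorem Btw.chain_edge (a : ℕ → V) (n : ℕ) (h : ∀ i < n, T.Reachable (a i) (a (i + 1)))
    {y y' : V} (hadj : T.Adj y y') (hy : Btw T (a 0) y y') (hy' : Btw T y y' (a n)) :
    ∃ i < n, Btw T (a i) y y' ∧ Btw T y y' (a (i + 1)) := by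
  induction n with
  | zero =>
    exfalso
    have e1 := hy.2.2
    have e2 := hy'.symm.2.2
    have e3 := SimpleGraph.dist_eq_one_iff_adj.2 hadj
    omega
  | succ n ih =>
    have hr : T.Reachable y (a n) := hy'.reach.trans (h n (Nat.lt_succ_self n)).symm
    rcases adj_btw hT hadj hr with h1 | h1
    · obtain ⟨i, hi, h2⟩ := ih (fun i hi => h i (by omega)) h1
      exact ⟨i, by omega, h2⟩
    · exact ⟨n, Nat.lt_succ_self n, h1.symm, hy'⟩

/-- Paths without backtracking are geodesic. -/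
theorem geod_of_noback (a : ℕ → V) (n : ℕ) (h : ∀ i < n, T.Adj (a i) (a (i + 1)))
    (hb : ∀ i, i + 2 ≤ n → a i ≠ a (i + 2)) :
    ∀ i j, i ≤ j → j ≤ n → T.Reachable (a i) (a j) ∧ T.dist (a i) (a j) = j - i := by
  have key : ∀ k i, i + (k + 1) ≤ n →
      (T.Reachable (a i) (a (i + k)) ∧ T.dist (a i) (a (i + k)) = k) ∧
      (T.Reachable (a i) (a (i + (k + 1))) ∧ T.dist (a i) (a (i + (k + 1))) = k + 1) := by
    intro k
    induction k with
    | zero =>
      intro i hi
      exact ⟨⟨SimpleGraph.Reachable.refl _, by simp⟩, (h i (by omega)).reachable,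
        SimpleGraph.dist_eq_one_iff_adj.2 (h i (by omega))⟩
    | succ k ih =>
      intro i hi
      obtain ⟨⟨r1, d1⟩, r2, d2⟩ := ih i (by omega)
      have a1 : T.Adj (a (i + k)) (a (i + (k + 1))) := h (i + k) (by omega)
      have a2 : T.Adj (a (i + (k + 1))) (a (i + (k + 1 + 1))) := h (i + (k + 1)) (by omega)
      have b1 : Btw T (a i) (a (i + k)) (a (i + (k + 1))) :=
        ⟨r1, a1.reachable, by rw [d1, d2, SimpleGraph.dist_eq_one_iff_adj.2 a1]⟩
      have b2 := btw_of_adj hT a1 a2 (hb (i + k) (by omega))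
      have b3 := (b1.glue hT b2 a1.ne).2
      refine ⟨⟨r2, d2⟩, b3.reach, ?_⟩
      rw [← b3.2.2, d2, SimpleGraph.dist_eq_one_iff_adj.2 a2]
  intro i j hij hj
  rcases Nat.eq_or_lt_of_le hij with e | e
  · subst e
    exact ⟨SimpleGraph.Reachable.refl _, by simp⟩
  · obtain ⟨k, rfl⟩ : ∃ k, j = i + (k + 1) := ⟨j - i - 1, by omega⟩
    rw [Nat.add_sub_cancel_left]
    exact (key k i hj).2

theorem cvx_btw (x z : V) : Cvx T {y | Btw T x y z} := by
  intro y hy y' hy'
  refine ⟨hy.1.symm.trans hy'.1, fun w hw => ?_⟩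
  rcases le_total (T.dist x y) (T.dist x y') with hd | hd
  · have h1 := (Btw.compare hT hy hy' hd).2
    exact (Btw.trans_right hy (h1.trans_left hw).1).1
  · have h1 := (Btw.compare hT hy' hy hd).2
    exact (Btw.trans_right hy' (h1.trans_left hw.symm).1).1

omit hT in
theorem Cvx.inter {C D : Set V} (hC : Cvx T C) (hD : Cvx T D) : Cvx T (C ∩ D) := by
  intro x hx z hz
  exact ⟨(hC x hx.1 z hz.1).1,
    fun y hy => ⟨(hC x hx.1 z hz.1).2 y hy, (hD x hx.2 z hz.2).2 y hy⟩⟩

/-- A set in which any two points are joined by a chain is convex. -/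
theorem cvx_of_chain {C : Set V}
    (h : ∀ x ∈ C, ∀ z ∈ C, ∃ (n : ℕ) (a : ℕ → V), a 0 = x ∧ a n = z ∧ (∀ i ≤ n, a i ∈ C) ∧
      ∀ i < n, a i = a (i + 1) ∨ T.Adj (a i) (a (i + 1))) : Cvx T C := by
  intro x hx z hz
  obtain ⟨n, a, rfl, rfl, h3, h4⟩ := h x hx z hz
  refine ⟨(dist_le_of_chain a n h4).1, fun y hy => ?_⟩
  have hr : ∀ i < n, T.Reachable (a i) (a (i + 1)) := fun i hi => by
    rcases h4 i hi with e | e
    · rw [← e]
    · exact e.reachable
  rcases Btw.chain hT a n hr hy with rfl | ⟨i, hi, hb⟩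
  · exact hx
  · rcases h4 i hi with e | e
    · rw [← e] at hb
      rw [hb.eq_of_self]
      exact h3 i hi.le
    · rcases hb.eq_of_adj hT e with rfl | rfl
      · exact h3 i hi.le
      · exact h3 (i + 1) hi

/-- Projection onto a convex set. -/
theorem Cvx.exists_proj {C : Set V} (hC : Cvx T C) {c x : V} (hc : c ∈ C)
    (hx : T.Reachable x c) : ∃ p ∈ C, ∀ c' ∈ C, Btw T x p c' := by
  obtain ⟨p, hp, hmin⟩ := (measure (T.dist x)).wf.has_min C ⟨c, hc⟩
  refine ⟨p, hp, fun c' hc' => ?_⟩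
  obtain ⟨m, m1, m2, m3⟩ := exists_median hT (hx.trans (hC c hc p hp).1) (hC p hp c' hc').1
  have h1 : ¬ T.dist x m < T.dist x p := hmin m ((hC p hp c' hc').2 m m2)
  have e := m1.2.2
  rw [← eq_of_dist_zero m1.2.1 (by omega)]
  exact m3

omit hT in
theorem proj_unique {C : Set V} {x p p' : V} (hp : p ∈ C) (hp' : p' ∈ C)
    (h : ∀ c ∈ C, Btw T x p c) (h' : ∀ c ∈ C, Btw T x p' c) : p = p' := by
  exact (h p' hp').antisymm (h' p hp)

/-- A geodesic between two convex sets that meet passes through the intersection. -/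
theorem Cvx.helly {C D : Set V} (hC : Cvx T C) (hD : Cvx T D) {c x z : V} (hcC : c ∈ C)
    (hcD : c ∈ D) (hx : x ∈ C) (hz : z ∈ D) : ∃ y ∈ C ∩ D, Btw T x y z := by
  obtain ⟨m, m1, m2, m3⟩ := exists_median hT (hC x hx c hcC).1 (hD c hcD z hz).1
  exact ⟨m, ⟨(hC x hx c hcC).2 m m1, (hD c hcD z hz).2 m m2⟩, m3⟩

/-- The bridge between two disjoint convex sets. -/
theorem Cvx.bridge {C D : Set V} (hC : Cvx T C) (hD : Cvx T D) (hdisj : Disjoint C D)
    {c d : V} (hc : c ∈ C) (hd : d ∈ D) (hr : T.Reachable c d) :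
    ∃ p ∈ C, ∃ q ∈ D, p ≠ q ∧ (∀ x ∈ C, ∀ z ∈ D, Btw T x p q ∧ Btw T p q z ∧ Btw T x p z ∧ Btw T x q z) ∧
      (∀ y, Btw T p y q → y ∈ C → y = p) ∧ (∀ y, Btw T p y q → y ∈ D → y = q) := by
  obtain ⟨⟨p, q⟩, ⟨hp, hq⟩, hmin⟩ :=
    (measure (fun e : V × V => T.dist e.1 e.2)).wf.has_min (C ×ˢ D) ⟨(c, d), hc, hd⟩
  have hm : ∀ x ∈ C, ∀ z ∈ D, T.dist p q ≤ T.dist x z := fun x hx z hz =>
    not_lt.1 (hmin (x, z) ⟨hx, hz⟩)
  have hne : p ≠ q := fun e => Set.disjoint_left.1 hdisj hp (by rw [show p = q from e]; exact hq)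
  have hpq : T.Reachable p q := (hC p hp c hc).1.trans (hr.trans (hD d hd q hq).1)
  have k1 : ∀ y, Btw T p y q → y ∈ C → y = p := fun y hy hyC => by
    have e := hy.2.2
    have := hm y hyC q hq
    exact (eq_of_dist_zero hy.1 (by omega)).symm
  have k2 : ∀ y, Btw T p y q → y ∈ D → y = q := fun y hy hyD => by
    have e := hy.2.2
    have := hm p hp y hyD
    exact eq_of_dist_zero hy.2.1 (by omega)
  refine ⟨p, hp, q, hq, hne, fun x hx z hz => ?_, k1, k2⟩
  have b1 : Btw T x p q := by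
    obtain ⟨m, m1, m2, m3⟩ := exists_median hT (hC x hx p hp).1 hpq
    rw [← k1 m m2 ((hC x hx p hp).2 m m1)]
    exact m3
  have b2 : Btw T p q z := by
    obtain ⟨m, m1, m2, m3⟩ := exists_median hT hpq (hD q hq z hz).1
    rw [← k2 m m1 ((hD q hq z hz).2 m m2)]
    exact m3
  exact ⟨b1, b2, b1.glue hT b2 hne⟩

/-- Geodesics with close endpoints are close. -/
theorem Btw.near {x y z x' z' : V} (h : Btw T x y z) (hx : T.Reachable x x')
    (hz : T.Reachable z z') {c : ℕ} (h1 : T.dist x x' ≤ c) (h2 : T.dist z z' ≤ c) :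
    ∃ y', Btw T x' y' z' ∧ T.Reachable y y' ∧ T.dist y y' ≤ c := by
  have hr : T.Reachable x' z' := hx.symm.trans (h.reach.trans hz)
  rcases h.or hT hx with k | k
  · have e := k.2.2
    exact ⟨x', btw_left hr, k.2.1, by omega⟩
  · rcases k.or hT hr with k' | k'
    · exact ⟨y, k', SimpleGraph.Reachable.refl _, by simp⟩
    · have e := k'.symm.2.2
      exact ⟨z', btw_right hr, k'.1.symm, by omega⟩

end Acyclic

end ZT
end CPOR
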